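import Pool.Agent.Selb.PCore2

/-!
# Selb/BL2: the Bessel inequality for mean-square bounded prime coefficients
-/

set_option autoImplicit false

open Complex Metric Filter Topology LSeries ArithmeticFunction

namespace Pool.Agent.Selb

/-- mean-square boundedness over the primes, with logarithmic weights -/
def L2 (x : ℕ → ℂ) (B : ℝ) : Prop :=
  ∀ δ : ℝ, 0 < δ → Summable (fun n => wt δ n * ‖x n‖ ^ 2) ∧ ∑' n, wt δ n * ‖x n‖ ^ 2 ≤ B ^ 2

lemma abel_log {t : ℕ → ℝ} (ht : ∀ n, 0 ≤ t n) (h0 : t 0 = 0) (h1 : t 1 = 0) {C : ℝ}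
    (hC : ∀ N : ℕ, 2 ≤ N → ∑ n ∈ Finset.range (N + 1), t n ≤ C * Real.log N) {δ : ℝ}
    (hδ : 0 < δ) :
    Summable (fun n : ℕ => t n * (n : ℝ) ^ (-δ)) ∧ ∑' n : ℕ, t n * (n : ℝ) ^ (-δ) ≤ C / δ := by
  have hC0 : 0 ≤ C := by
    have h2 := hC 2 le_rfl
    have h3 : 0 ≤ ∑ n ∈ Finset.range (2 + 1), t n := Finset.sum_nonneg (fun n _ => ht n)
    have h4 : (0 : ℝ) < Real.log (2 : ℕ) := Real.log_pos (by norm_num)
    by_contra h5
    push Not at h5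
    nlinarith
  have hC' : ∀ N : ℕ, 1 ≤ N → ∑ n ∈ Finset.range (N + 1), t n ≤ C * Real.log N := by
    intro N hN
    rcases Nat.lt_or_ge 1 N with h | h
    · exact hC N h
    · have : N = 1 := by omega
      subst this
      simp [Finset.sum_range_succ, h0, h1]
  have hstep : ∀ N : ℕ, 1 ≤ N → (Real.log (N + 1 : ℕ) - Real.log N) * ((N + 1 : ℕ) : ℝ) ^ (-δ) ≤
      ((N : ℝ) ^ (-δ) - ((N + 1 : ℕ) : ℝ) ^ (-δ)) / δ := by
    intro N hN
    have hN0 : (0 : ℝ) < N := by exact_mod_cast hN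
    have hN1 : (0 : ℝ) < (N + 1 : ℕ) := by positivity
    rw [le_div_iff₀ hδ]
    have e1 : (N : ℝ) ^ (-δ) = ((N + 1 : ℕ) : ℝ) ^ (-δ) *
        Real.exp (δ * (Real.log (N + 1 : ℕ) - Real.log N)) := by
      rw [Real.rpow_def_of_pos hN0, Real.rpow_def_of_pos hN1, ← Real.exp_add]
      congr 1
      ring
    rw [e1]
    have e2 := Real.add_one_le_exp (δ * (Real.log (N + 1 : ℕ) - Real.log N))
    have e3 : 0 < ((N + 1 : ℕ) : ℝ) ^ (-δ) := Real.rpow_pos_of_pos hN1 _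
    nlinarith
  have hmain : ∀ N : ℕ, 1 ≤ N → ∑ n ∈ Finset.range (N + 1), t n * (n : ℝ) ^ (-δ) +
      (C * Real.log N - ∑ n ∈ Finset.range (N + 1), t n) * (N : ℝ) ^ (-δ) ≤
      C * ((1 - (N : ℝ) ^ (-δ)) / δ) := by
    intro N hN
    induction N, hN using Nat.le_induction with
    | base => simp [Finset.sum_range_succ, h0, h1]
    | succ N hN ih =>
      have hN0 : (0 : ℝ) < N := by exact_mod_cast hN
      have hN1 : (0 : ℝ) < (N + 1 : ℕ) := by positivity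
      have hR := hC' N hN
      have hmono : ((N + 1 : ℕ) : ℝ) ^ (-δ) ≤ (N : ℝ) ^ (-δ) := by
        refine Real.rpow_le_rpow_of_nonpos hN0 ?_ (by linarith)
        push_cast
        linarith
      have h2 := hstep N hN
      have h3 := mul_le_mul_of_nonneg_left h2 hC0
      have h4 := mul_le_mul_of_nonneg_left hmono (sub_nonneg.2 hR)
      rw [Finset.sum_range_succ (fun n => t n * (n : ℝ) ^ (-δ)) (N + 1),
        Finset.sum_range_succ (fun n => t n) (N + 1)]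
      have e5 : C * ((1 - ((N + 1 : ℕ) : ℝ) ^ (-δ)) / δ) = C * ((1 - (N : ℝ) ^ (-δ)) / δ) +
          C * (((N : ℝ) ^ (-δ) - ((N + 1 : ℕ) : ℝ) ^ (-δ)) / δ) := by ring
      rw [e5]
      nlinarith
  have hpart : ∀ N : ℕ, ∑ n ∈ Finset.range N, t n * (n : ℝ) ^ (-δ) ≤ C / δ := by
    intro N
    rcases Nat.lt_or_ge N 2 with h | h
    · have h5 : 0 ≤ C / δ := by positivity
      interval_cases N
      · simpa using h5
      · simpa [h0] using h5
    · obtain ⟨M, rfl⟩ : ∃ M, N = M + 1 := ⟨N - 1, by omega⟩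
      have hM : 1 ≤ M := by omega
      have h2 := hmain M hM
      have hM0 : (0 : ℝ) < M := by exact_mod_cast hM
      have h3 : 0 < (M : ℝ) ^ (-δ) := Real.rpow_pos_of_pos hM0 _
      have h4 := mul_nonneg (sub_nonneg.2 (hC' M hM)) h3.le
      have h5 : C * ((1 - (M : ℝ) ^ (-δ)) / δ) ≤ C / δ := by
        rw [mul_div_assoc', div_le_div_iff_of_pos_right hδ]
        nlinarith
      linarith
  have hnn : ∀ n : ℕ, 0 ≤ t n * (n : ℝ) ^ (-δ) := fun n =>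
    mul_nonneg (ht n) (Real.rpow_nonneg (Nat.cast_nonneg n) _)
  have hs := summable_of_sum_range_le hnn hpart
  exact ⟨hs, hs.tsum_le_of_sum_range_le hpart⟩

lemma L2.summable {x : ℕ → ℂ} {B : ℝ} (h : L2 x B) {δ : ℝ} (hδ : 0 < δ) :
    Summable (fun n => wt δ n * ‖x n‖) := by
  refine Summable.of_nonneg_of_le (fun n => mul_nonneg (wt_nonneg hδ.le n) (norm_nonneg _))
    (fun n => ?_) ((summable_wt hδ).add (h δ hδ).1)
  have h1 := wt_nonneg hδ.le n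
  have h2 : ‖x n‖ ≤ 1 + ‖x n‖ ^ 2 := by nlinarith [norm_nonneg (x n), sq_nonneg (‖x n‖ - 1)]
  nlinarith

lemma L2.pr_summable {x : ℕ → ℂ} {B : ℝ} (h : L2 x B) {s : ℂ} (hs : 1 < s.re) :
    LSeriesSummable (pr x) s := by
  have hδ : 0 < s.re - 1 := by linarith
  have h1 := (h.summable hδ).mul_left ((s.re - 1)⁻¹)
  refine Summable.of_norm_bounded h1 (fun n => ?_)
  rcases Nat.eq_zero_or_pos n with h0 | hn
  · subst h0; simp [wt]
  · rw [term_of_ne_zero hn.ne', norm_div, Complex.norm_natCast_cpow_of_pos hn, pr, wt]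
    split_ifs with hp
    · rw [norm_mul, Complex.norm_real, Real.norm_of_nonneg (Real.log_natCast_nonneg n),
        show -(1 + (s.re - 1)) = -s.re by ring, Real.rpow_neg (Nat.cast_nonneg n)]
      field_simp
      exact le_rfl
    · simp

lemma L2_tsum {x : ℕ → ℂ} {B : ℝ} (hx : L2 x B) {δ : ℝ} (hδ : 0 < δ) (θ : ℝ) :
    Summable (fun n => (wt δ n : ℂ) * (x n * osc θ n)) ∧
    (δ : ℂ) * LSeries (pr x) (1 + δ + θ * I) = ∑' n, (wt δ n : ℂ) * (x n * osc θ n) := by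
  constructor
  · refine Summable.of_norm_bounded (hx.summable hδ) (fun n => ?_)
    rw [norm_mul, Complex.norm_real, Real.norm_eq_abs, abs_of_nonneg (wt_nonneg hδ.le n)]
    rcases Nat.eq_zero_or_pos n with h0 | hn
    · subst h0; simp [wt]
    · rw [norm_mul, norm_osc θ hn, mul_one]
  · rw [LSeries, ← tsum_mul_left]
    exact tsum_congr (fun n => term_eq x δ θ n)

theorem bessel_dual2 (x : ℕ → ℂ) {B : ℝ} (hx : L2 x B) (S : Finset ℝ)
    (ξ : ℝ → ℂ) {r : ℝ} (hr : 0 < r) {ε : ℝ} (hε : 0 < ε) :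
    ∀ᶠ δ : ℝ in 𝓝[>] 0, ‖∑ θ ∈ S, ξ θ * ((δ : ℂ) * LSeries (pr x) (1 + δ + θ * I))‖ ≤
      (∑ θ ∈ S, ‖ξ θ‖ ^ 2) / (2 * r) + r / 2 * B ^ 2 + ε := by
  set g : ℕ → ℂ := fun n => ∑ θ ∈ S, ξ θ * osc θ n with hg
  have hlim2 : Tendsto (fun δ : ℝ => ∑' n, wt δ n * ‖g n‖ ^ 2) (𝓝[>] 0)
      (𝓝 (∑ θ ∈ S, ‖ξ θ‖ ^ 2)) := by
    have h1 : Tendsto (fun δ : ℝ => (∑ θ ∈ S, ∑ θ' ∈ S, ξ θ * (starRingEnd ℂ) (ξ θ') *
        ((δ : ℂ) * LSeries (pr (fun _ => 1)) (1 + δ + (θ - θ' : ℝ) * I))).re) (𝓝[>] 0)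
        (𝓝 (∑ θ ∈ S, ∑ θ' ∈ S, ξ θ * (starRingEnd ℂ) (ξ θ') *
          (if θ - θ' = 0 then 1 else 0)).re) := by
      refine (Complex.continuous_re.tendsto _).comp ?_
      refine tendsto_finsetSum _ (fun θ _ => tendsto_finsetSum _ (fun θ' _ => ?_))
      exact (pr_one_tendsto (θ - θ')).const_mul _
    have h2 : (∑ θ ∈ S, ∑ θ' ∈ S, ξ θ * (starRingEnd ℂ) (ξ θ') *
          (if θ - θ' = 0 then 1 else 0)).re = ∑ θ ∈ S, ‖ξ θ‖ ^ 2 := by
      rw [Complex.re_sum]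
      refine Finset.sum_congr rfl (fun θ hθ => ?_)
      have h3 : ∑ θ' ∈ S, ξ θ * (starRingEnd ℂ) (ξ θ') * (if θ - θ' = 0 then 1 else 0) =
          ξ θ * (starRingEnd ℂ) (ξ θ) := by
        rw [Finset.sum_eq_single θ]
        · simp
        · intro b _ hb
          have : θ - b ≠ 0 := sub_ne_zero.2 (Ne.symm hb)
          simp [this]
        · intro h; exact absurd hθ h
      rw [h3, Complex.mul_conj, Complex.normSq_eq_norm_sq, Complex.ofReal_re]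
    rw [h2] at h1
    refine Tendsto.congr' ?_ h1
    filter_upwards [self_mem_nhdsWithin] with δ hδ
    have hδ' : 0 < δ := hδ
    have h4 : ∀ θ ∈ S, ∀ θ' ∈ S, ξ θ * (starRingEnd ℂ) (ξ θ') *
        ((δ : ℂ) * LSeries (pr (fun _ => 1)) (1 + δ + (θ - θ' : ℝ) * I)) =
        ∑' n, ξ θ * (starRingEnd ℂ) (ξ θ') * ((wt δ n : ℂ) * (1 * osc (θ - θ') n)) := by
      intro θ _ θ' _
      rw [(A_eq_tsum (fun _ => 1) (B := 1) (by simp) hδ' (θ - θ')).2, tsum_mul_left]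
    have hsm : ∀ θ θ' : ℝ, Summable (fun n =>
        ξ θ * (starRingEnd ℂ) (ξ θ') * ((wt δ n : ℂ) * (1 * osc (θ - θ') n))) := fun θ θ' =>
      ((A_eq_tsum (fun _ => 1) (B := 1) (by simp) hδ' (θ - θ')).1).mul_left _
    rw [Finset.sum_congr rfl (fun θ hθ => Finset.sum_congr rfl (fun θ' hθ' => h4 θ hθ θ' hθ'))]
    have h5 : ∑ θ ∈ S, ∑ θ' ∈ S, ∑' n, ξ θ * (starRingEnd ℂ) (ξ θ') *
        ((wt δ n : ℂ) * (1 * osc (θ - θ') n)) = ∑' n, ((wt δ n * ‖g n‖ ^ 2 : ℝ) : ℂ) := by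
      rw [Finset.sum_congr rfl (fun θ _ =>
        (Summable.tsum_finsetSum (fun θ' _ => hsm θ θ')).symm)]
      rw [← Summable.tsum_finsetSum (fun θ _ => summable_sum (fun θ' _ => hsm θ θ'))]
      refine tsum_congr (fun n => ?_)
      rcases Nat.eq_zero_or_pos n with h0 | hn
      · subst h0; simp [wt]
      · have h6 : ((wt δ n * ‖g n‖ ^ 2 : ℝ) : ℂ) =
            (wt δ n : ℂ) * (g n * (starRingEnd ℂ) (g n)) := by
          rw [Complex.mul_conj, Complex.normSq_eq_norm_sq]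
          push_cast; rfl
        rw [h6, hg]
        simp only
        rw [map_sum, Finset.sum_mul_sum, Finset.mul_sum]
        refine Finset.sum_congr rfl (fun θ _ => ?_)
        rw [Finset.mul_sum]
        refine Finset.sum_congr rfl (fun θ' _ => ?_)
        rw [map_mul, ← osc_mul_conj θ θ' hn]
        ring
    rw [h5, ← Complex.ofReal_tsum]
    simp
  have hlim : Tendsto (fun δ : ℝ => (∑' n, wt δ n * ‖g n‖ ^ 2) / (2 * r) + r / 2 * B ^ 2)
      (𝓝[>] 0) (𝓝 ((∑ θ ∈ S, ‖ξ θ‖ ^ 2) / (2 * r) + r / 2 * B ^ 2)) :=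
    (hlim2.div_const (2 * r)).add_const _
  have hev := hlim.eventually (Iio_mem_nhds (show (∑ θ ∈ S, ‖ξ θ‖ ^ 2) / (2 * r) + r / 2 * B ^ 2 <
    (∑ θ ∈ S, ‖ξ θ‖ ^ 2) / (2 * r) + r / 2 * B ^ 2 + ε by linarith))
  filter_upwards [hev, self_mem_nhdsWithin] with δ h1 hδ
  have hδ' : 0 < δ := hδ
  refine le_trans ?_ (le_of_lt h1)
  have hgb : ∀ n : ℕ, 0 < n → ‖g n‖ ≤ ∑ θ ∈ S, ‖ξ θ‖ := by
    intro n hn
    refine (norm_sum_le _ _).trans (Finset.sum_le_sum (fun θ _ => ?_))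
    rw [norm_mul, norm_osc θ hn, mul_one]
  set G := ∑ θ ∈ S, ‖ξ θ‖ with hG
  have hG0 : 0 ≤ G := Finset.sum_nonneg (fun _ _ => norm_nonneg _)
  have hs2 : Summable (fun n => wt δ n * ‖g n‖ ^ 2) := by
    refine Summable.of_nonneg_of_le (fun n => mul_nonneg (wt_nonneg hδ'.le n) (by positivity))
      (fun n => ?_) ((summable_wt hδ').mul_right (G ^ 2))
    rcases Nat.eq_zero_or_pos n with h0 | hn
    · subst h0; simp [wt]
    · exact mul_le_mul_of_nonneg_left (pow_le_pow_left₀ (norm_nonneg _) (hgb n hn) 2)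
        (wt_nonneg hδ'.le n)
  have e1 : ∑ θ ∈ S, ξ θ * ((δ : ℂ) * LSeries (pr x) (1 + δ + θ * I)) =
      ∑' n, (wt δ n : ℂ) * (x n * g n) := by
    rw [Finset.sum_congr rfl (fun θ _ => by
      rw [(L2_tsum hx hδ' θ).2, ← tsum_mul_left])]
    rw [← Summable.tsum_finsetSum (fun θ _ => ((L2_tsum hx hδ' θ).1).mul_left _)]
    refine tsum_congr (fun n => ?_)
    rw [hg]
    simp only
    rw [Finset.mul_sum, Finset.mul_sum]
    refine Finset.sum_congr rfl (fun θ _ => ?_)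
    ring
  have hbound : ∀ n, ‖(wt δ n : ℂ) * (x n * g n)‖ ≤
      wt δ n * ‖g n‖ ^ 2 / (2 * r) + r / 2 * (wt δ n * ‖x n‖ ^ 2) := by
    intro n
    rw [norm_mul, Complex.norm_real, Real.norm_eq_abs, abs_of_nonneg (wt_nonneg hδ'.le n),
      norm_mul]
    have hw := wt_nonneg hδ'.le n
    have h2 : ‖x n‖ * ‖g n‖ ≤ ‖g n‖ ^ 2 / (2 * r) + r / 2 * ‖x n‖ ^ 2 := by
      have h3 : ‖g n‖ ^ 2 / (2 * r) + r / 2 * ‖x n‖ ^ 2 =
          (‖g n‖ ^ 2 + r ^ 2 * ‖x n‖ ^ 2) / (2 * r) := by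
        field_simp
      rw [h3, le_div_iff₀ (by positivity)]
      nlinarith [sq_nonneg (‖g n‖ - r * ‖x n‖)]
    calc wt δ n * (‖x n‖ * ‖g n‖) ≤ wt δ n * (‖g n‖ ^ 2 / (2 * r) + r / 2 * ‖x n‖ ^ 2) :=
          mul_le_mul_of_nonneg_left h2 hw
      _ = _ := by ring
  have hs3 : Summable (fun n => wt δ n * ‖g n‖ ^ 2 / (2 * r) + r / 2 * (wt δ n * ‖x n‖ ^ 2)) :=
    (hs2.div_const _).add ((hx δ hδ').1.mul_left _)
  rw [e1]
  have hs4 : Summable (fun n => ‖(wt δ n : ℂ) * (x n * g n)‖) :=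
    Summable.of_nonneg_of_le (fun n => norm_nonneg _) hbound hs3
  refine (norm_tsum_le_tsum_norm hs4).trans ((Summable.tsum_le_tsum hbound hs4 hs3).trans ?_)
  rw [Summable.tsum_add (hs2.div_const _) ((hx δ hδ').1.mul_left _), tsum_div_const, tsum_mul_left]
  have := mul_le_mul_of_nonneg_left (hx δ hδ').2 (show 0 ≤ r / 2 by positivity)
  linarith

end Pool.Agent.Selb
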