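import Mathlib

set_option autoImplicit false

open Complex Metric Filter Topology LSeries ArithmeticFunction

namespace Pool.Agent.Selb


/-- the sequence supported on primes with values `x p * log p` -/
noncomputable def pr (x : ℕ → ℂ) : ℕ → ℂ := fun n => if n.Prime then x n * (Real.log n : ℂ) else 0

/-- primes in the class `a` modulo `q` weighted by `log p` -/
noncomputable def prc {q : ℕ} (a : ZMod q) : ℕ → ℂ := fun n =>
  if n.Prime then (vonMangoldt.residueClass a n : ℂ) else 0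

lemma prc_bound {q : ℕ} (a : ZMod q) :
    ∃ C : ℝ, ∀ s : ℂ, 1 < s.re →
      LSeriesSummable (prc a) s ∧
      ‖LSeries (prc a) s - LSeries (fun n => (vonMangoldt.residueClass a n : ℂ)) s‖ ≤ C := by
  have hsum := vonMangoldt.summable_residueClass_non_primes_div (a := a)
  refine ⟨∑' n : ℕ, (if n.Prime then 0 else vonMangoldt.residueClass a n) / (n : ℝ),
    fun s hs => ?_⟩
  have h1 : LSeriesSummable (fun n => (vonMangoldt.residueClass a n : ℂ)) s :=
    LSeriesSummable_of_abscissaOfAbsConv_lt_re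
      ((vonMangoldt.abscissaOfAbsConv_residueClass_le_one a).trans_lt (by exact_mod_cast hs))
  set f : ℕ → ℂ := fun n => ((if n.Prime then 0 else vonMangoldt.residueClass a n : ℝ) : ℂ) with hf
  have hterm : ∀ n : ℕ, ‖term f s n‖ ≤
      (if n.Prime then 0 else vonMangoldt.residueClass a n) / (n : ℝ) := by
    intro n
    rcases Nat.eq_zero_or_pos n with h0 | hn
    · subst h0; simp
    · have hn0 : n ≠ 0 := hn.ne'
      rw [term_of_ne_zero hn0, norm_div, Complex.norm_natCast_cpow_of_pos hn, hf]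
      simp only [Complex.norm_real, Real.norm_eq_abs]
      have hnn : 0 ≤ (if n.Prime then 0 else vonMangoldt.residueClass a n : ℝ) := by
        split_ifs
        · exact le_rfl
        · exact vonMangoldt.residueClass_nonneg a n
      rw [abs_of_nonneg hnn]
      refine div_le_div_of_nonneg_left hnn (by exact_mod_cast hn) ?_
      have : (1 : ℝ) ≤ n := by exact_mod_cast hn
      calc (n : ℝ) = (n : ℝ) ^ (1 : ℝ) := (Real.rpow_one _).symm
        _ ≤ (n : ℝ) ^ s.re := Real.rpow_le_rpow_of_exponent_le this hs.le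
  have hfs : LSeriesSummable f s := by
    refine Summable.of_norm_bounded hsum hterm
  have heq : prc a = (fun n => (vonMangoldt.residueClass a n : ℂ)) - f := by
    funext n
    simp only [prc, Pi.sub_apply, hf]
    split_ifs <;> simp
  have h2 : LSeriesSummable (prc a) s := by
    rw [heq]; exact h1.sub hfs
  refine ⟨h2, ?_⟩
  rw [heq, LSeries_sub h1 hfs]
  have e : LSeries (fun n => (vonMangoldt.residueClass a n : ℂ)) s - LSeries f s -
      LSeries (fun n => (vonMangoldt.residueClass a n : ℂ)) s = - LSeries f s := by ring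
  rw [e, norm_neg]
  exact (norm_tsum_le_tsum_norm hfs.norm).trans (Summable.tsum_le_tsum hterm hfs.norm hsum)

/-- the boundary behaviour of `∑ log p p^{-s}` over primes in a residue class -/
lemma prc_tendsto {q : ℕ} [NeZero q] {a : ZMod q} (ha : IsUnit a) (θ : ℝ) :
    Tendsto (fun δ : ℝ => (δ : ℂ) * LSeries (prc a) (1 + δ + θ * I)) (𝓝[>] 0)
      (𝓝 (if θ = 0 then (q.totient : ℂ)⁻¹ else 0)) := by
  obtain ⟨C, hC⟩ := prc_bound a
  have hpath : Tendsto (fun δ : ℝ => (1 + δ + θ * I : ℂ)) (𝓝[>] 0)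
      (𝓝[{s : ℂ | 1 ≤ s.re}] (1 + θ * I)) := by
    refine tendsto_nhdsWithin_iff.2 ⟨?_, ?_⟩
    · have : Continuous (fun δ : ℝ => (1 + δ + θ * I : ℂ)) := by fun_prop
      have h := this.tendsto 0
      simp only [ofReal_zero, add_zero] at h
      exact h.mono_left nhdsWithin_le_nhds
    · filter_upwards [self_mem_nhdsWithin] with δ hδ
      have : (0 : ℝ) < δ := hδ
      simp
      exact this.le
  have haux : Tendsto (fun δ : ℝ => vonMangoldt.LFunctionResidueClassAux a (1 + δ + θ * I))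
      (𝓝[>] 0) (𝓝 (vonMangoldt.LFunctionResidueClassAux a (1 + θ * I))) := by
    have := (vonMangoldt.continuousOn_LFunctionResidueClassAux a) (1 + θ * I) (by simp)
    exact this.tendsto.comp hpath
  have hδ0 : Tendsto (fun δ : ℝ => (δ : ℂ)) (𝓝[>] 0) (𝓝 0) := by
    have : Continuous (fun δ : ℝ => (δ : ℂ)) := by fun_prop
    have h := this.tendsto 0
    simp only [ofReal_zero] at h
    exact h.mono_left nhdsWithin_le_nhds
  have hre : ∀ δ : ℝ, 0 < δ → 1 < (1 + δ + θ * I : ℂ).re := by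
    intro δ hδ; simp [hδ]
  -- the main decomposition
  have hdec : ∀ᶠ δ : ℝ in 𝓝[>] 0, (δ : ℂ) * LSeries (prc a) (1 + δ + θ * I) =
      (δ : ℂ) * vonMangoldt.LFunctionResidueClassAux a (1 + δ + θ * I) +
      (q.totient : ℂ)⁻¹ * ((δ : ℂ) / (δ + θ * I)) +
      (δ : ℂ) * (LSeries (prc a) (1 + δ + θ * I) -
        LSeries (fun n => (vonMangoldt.residueClass a n : ℂ)) (1 + δ + θ * I)) := by
    filter_upwards [self_mem_nhdsWithin] with δ hδ
    have h1 := vonMangoldt.eqOn_LFunctionResidueClassAux ha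
      (show (1 + δ + θ * I : ℂ) ∈ {s : ℂ | 1 < s.re} from hre δ hδ)
    simp only at h1
    rw [h1]
    have e : (1 + (δ : ℂ) + θ * I - 1) = δ + θ * I := by ring
    rw [e]
    ring
  have hlast : Tendsto (fun δ : ℝ => (δ : ℂ) * (LSeries (prc a) (1 + δ + θ * I) -
        LSeries (fun n => (vonMangoldt.residueClass a n : ℂ)) (1 + δ + θ * I))) (𝓝[>] 0)
        (𝓝 0) := by
    have hb : ∀ᶠ δ : ℝ in 𝓝[>] 0, ‖(δ : ℂ) * (LSeries (prc a) (1 + δ + θ * I) -
        LSeries (fun n => (vonMangoldt.residueClass a n : ℂ)) (1 + δ + θ * I))‖ ≤ ‖(δ : ℂ)‖ * C := by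
      filter_upwards [self_mem_nhdsWithin] with δ hδ
      rw [norm_mul]
      exact mul_le_mul_of_nonneg_left (hC _ (hre δ hδ)).2 (norm_nonneg _)
    refine squeeze_zero_norm' hb ?_
    simpa using hδ0.norm.mul_const C
  have hmid : Tendsto (fun δ : ℝ => (δ : ℂ) / (δ + θ * I)) (𝓝[>] 0)
      (𝓝 (if θ = 0 then 1 else 0)) := by
    by_cases hθ : θ = 0
    · subst hθ
      simp only [if_true]
      refine Tendsto.congr' ?_ tendsto_const_nhds
      filter_upwards [self_mem_nhdsWithin] with δ hδ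
      have : (δ : ℂ) ≠ 0 := by exact_mod_cast (ne_of_gt hδ)
      simp [this]
    · simp only [if_neg hθ]
      have hne : ((0 : ℂ) + θ * I) ≠ 0 := by simp [hθ]
      have h7 := hδ0.div (hδ0.add (tendsto_const_nhds (x := (θ : ℂ) * I))) hne
      rw [zero_div] at h7
      exact h7
  have := ((hδ0.mul haux).add (hmid.const_mul ((q.totient : ℂ)⁻¹))).add hlast
  refine Tendsto.congr' (hdec.mono fun _ h => h.symm) ?_
  convert this using 2
  split_ifs <;> simp

lemma pr_one_eq : pr (fun _ => 1) = prc (1 : ZMod 1) := by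
  funext n
  simp only [pr, prc, one_mul]
  split_ifs with h
  · have : vonMangoldt.residueClass (1 : ZMod 1) n = vonMangoldt n := by
      apply Set.indicator_of_mem
      exact Subsingleton.elim _ _
    rw [this, vonMangoldt_apply_prime h]
  · rfl

lemma pr_one_tendsto (θ : ℝ) :
    Tendsto (fun δ : ℝ => (δ : ℂ) * LSeries (pr (fun _ => 1)) (1 + δ + θ * I)) (𝓝[>] 0)
      (𝓝 (if θ = 0 then 1 else 0)) := by
  have := prc_tendsto (q := 1) (a := 1) isUnit_one θ
  rw [pr_one_eq]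
  simpa using this

/-- weights -/
noncomputable def wt (δ : ℝ) (n : ℕ) : ℝ :=
  if n.Prime then δ * Real.log n * (n : ℝ) ^ (-(1 + δ)) else 0

noncomputable def osc (θ : ℝ) (n : ℕ) : ℂ := (n : ℂ) ^ (-(θ * I))

lemma norm_osc (θ : ℝ) {n : ℕ} (hn : 0 < n) : ‖osc θ n‖ = 1 := by
  unfold osc
  rw [Complex.norm_natCast_cpow_of_pos hn]
  simp

lemma osc_mul_conj (θ θ' : ℝ) {n : ℕ} (hn : 0 < n) :
    osc θ n * (starRingEnd ℂ) (osc θ' n) = osc (θ - θ') n := by
  have hn0 : (n : ℂ) ≠ 0 := by exact_mod_cast hn.ne'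
  have harg : (n : ℂ).arg ≠ Real.pi := by
    rw [Complex.natCast_arg]; exact Real.pi_pos.ne
  unfold osc
  have h1 : (starRingEnd ℂ) ((n : ℂ) ^ (-(θ' * I))) = (n : ℂ) ^ (θ' * I) := by
    have h2 := Complex.conj_cpow (n : ℂ) (-(θ' * I)) harg
    have h3 : (starRingEnd ℂ) (n : ℂ) = (n : ℂ) := Complex.conj_natCast n
    rw [h3] at h2
    rw [show (starRingEnd ℂ) (-(θ' * I)) = θ' * I by simp] at h2
    rw [h2]
    simp
  rw [h1, ← Complex.cpow_add _ _ hn0]
  congr 1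
  push_cast
  ring

lemma wt_nonneg {δ : ℝ} (hδ : 0 ≤ δ) (n : ℕ) : 0 ≤ wt δ n := by
  unfold wt
  split_ifs with h
  · have : 0 ≤ Real.log n := Real.log_natCast_nonneg n
    positivity
  · exact le_rfl

lemma term_eq (x : ℕ → ℂ) (δ θ : ℝ) (n : ℕ) :
    (δ : ℂ) * term (pr x) (1 + δ + θ * I) n = (wt δ n : ℂ) * (x n * osc θ n) := by
  rcases Nat.eq_zero_or_pos n with h0 | hn
  · subst h0; simp [wt]
  · rw [term_of_ne_zero hn.ne', pr, wt]
    split_ifs with hp
    · have hn0 : (n : ℂ) ≠ 0 := by exact_mod_cast hn.ne'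
      have e1 : (n : ℂ) ^ (1 + (δ : ℂ) + θ * I) = (n : ℂ) ^ (1 + (δ : ℂ)) * (n : ℂ) ^ (θ * I) :=
        Complex.cpow_add _ _ hn0
      have e2 : (((n : ℝ) ^ (-(1 + δ)) : ℝ) : ℂ) = ((n : ℂ) ^ (1 + (δ : ℂ)))⁻¹ := by
        rw [Complex.ofReal_cpow (Nat.cast_nonneg n), ← Complex.cpow_neg]
        push_cast
        rfl
      have e3 : osc θ n = ((n : ℂ) ^ (θ * I))⁻¹ := by
        rw [osc, Complex.cpow_neg]
      rw [e1, e3]
      push_cast
      rw [← Complex.ofReal_natCast n] at e2 ⊢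
      push_cast at e2 ⊢
      rw [e2]
      have n1 : (n : ℂ) ^ (1 + (δ : ℂ)) ≠ 0 := by
        rw [Ne, Complex.cpow_eq_zero_iff]; tauto
      have n2 : (n : ℂ) ^ (θ * I) ≠ 0 := by
        rw [Ne, Complex.cpow_eq_zero_iff]; tauto
      field_simp
    · simp

lemma summable_wt {δ : ℝ} (hδ : 0 < δ) : Summable (wt δ) := by
  obtain ⟨C, hC⟩ := prc_bound (1 : ZMod 1)
  have hs : (1 : ℝ) < (1 + (δ : ℂ) + (0 : ℝ) * I : ℂ).re := by simp [hδ]
  have h1 := (hC _ hs).1
  rw [← pr_one_eq] at h1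
  have h2 : Summable (fun n => ‖(δ : ℂ) * term (pr (fun _ => 1)) (1 + δ + (0 : ℝ) * I) n‖) :=
    (h1.mul_left (δ : ℂ)).norm
  refine h2.congr (fun n => ?_)
  rw [term_eq, norm_mul, Complex.norm_real, Real.norm_eq_abs, abs_of_nonneg (wt_nonneg hδ.le n)]
  rcases Nat.eq_zero_or_pos n with h0 | hn
  · subst h0; simp [wt]
  · rw [norm_mul, norm_osc 0 hn]; simp

lemma A_eq_tsum (x : ℕ → ℂ) {B : ℝ} (hx : ∀ n, ‖x n‖ ≤ B) {δ : ℝ} (hδ : 0 < δ) (θ : ℝ) :
    Summable (fun n => (wt δ n : ℂ) * (x n * osc θ n)) ∧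
    (δ : ℂ) * LSeries (pr x) (1 + δ + θ * I) = ∑' n, (wt δ n : ℂ) * (x n * osc θ n) := by
  constructor
  · refine Summable.of_norm_bounded ((summable_wt hδ).mul_right B) (fun n => ?_)
    rw [norm_mul, Complex.norm_real, Real.norm_eq_abs, abs_of_nonneg (wt_nonneg hδ.le n)]
    rcases Nat.eq_zero_or_pos n with h0 | hn
    · subst h0; simp [wt]
    · rw [norm_mul, norm_osc θ hn, mul_one]
      exact mul_le_mul_of_nonneg_left (hx n) (wt_nonneg hδ.le n)
  · rw [LSeries, ← tsum_mul_left]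
    exact tsum_congr (fun n => term_eq x δ θ n)

theorem bessel_dual (x : ℕ → ℂ) {B : ℝ} (hB : 0 ≤ B) (hx : ∀ n, ‖x n‖ ≤ B) (S : Finset ℝ)
    (ξ : ℝ → ℂ) {r : ℝ} (hr : 0 < r) {ε : ℝ} (hε : 0 < ε) :
    ∀ᶠ δ : ℝ in 𝓝[>] 0, ‖∑ θ ∈ S, ξ θ * ((δ : ℂ) * LSeries (pr x) (1 + δ + θ * I))‖ ≤
      B * ((∑ θ ∈ S, ‖ξ θ‖ ^ 2) / (2 * r) + r / 2) + ε := by
  set g : ℕ → ℂ := fun n => ∑ θ ∈ S, ξ θ * osc θ n with hg
  -- the two limits
  have hlim0 : Tendsto (fun δ : ℝ => ∑' n, wt δ n) (𝓝[>] 0) (𝓝 1) := by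
    have h1 := (Complex.continuous_re.tendsto _).comp (pr_one_tendsto 0)
    simp only [if_true, one_re] at h1
    refine Tendsto.congr' ?_ h1
    filter_upwards [self_mem_nhdsWithin] with δ hδ
    have h2 := (A_eq_tsum (fun _ => 1) (B := 1) (by simp) hδ 0)
    simp only [Function.comp]
    rw [h2.2]
    have h3 : ∀ n, (wt δ n : ℂ) * (1 * osc 0 n) = ((wt δ n : ℝ) : ℂ) := by
      intro n
      simp [osc]
    rw [tsum_congr h3, ← Complex.ofReal_tsum]
    simp
  have hlim2 : Tendsto (fun δ : ℝ => ∑' n, wt δ n * ‖g n‖ ^ 2) (𝓝[>] 0)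
      (𝓝 (∑ θ ∈ S, ‖ξ θ‖ ^ 2)) := by
    have h1 : Tendsto (fun δ : ℝ => (∑ θ ∈ S, ∑ θ' ∈ S, ξ θ * (starRingEnd ℂ) (ξ θ') *
        ((δ : ℂ) * LSeries (pr (fun _ => 1)) (1 + δ + (θ - θ' : ℝ) * I))).re) (𝓝[>] 0)
        (𝓝 (∑ θ ∈ S, ∑ θ' ∈ S, ξ θ * (starRingEnd ℂ) (ξ θ') *
          (if θ - θ' = 0 then 1 else 0)).re) := by
      refine (Complex.continuous_re.tendsto _).comp ?_
      refine tendsto_finsetSum _ (fun θ _ => tendsto_finsetSum _ (fun θ' _ => ?_))
      exact (pr_one_tendsto (θ - θ')).const_mul _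
    have h2 : (∑ θ ∈ S, ∑ θ' ∈ S, ξ θ * (starRingEnd ℂ) (ξ θ') *
          (if θ - θ' = 0 then 1 else 0)).re = ∑ θ ∈ S, ‖ξ θ‖ ^ 2 := by
      rw [Complex.re_sum]
      refine Finset.sum_congr rfl (fun θ hθ => ?_)
      have h3 : ∑ θ' ∈ S, ξ θ * (starRingEnd ℂ) (ξ θ') * (if θ - θ' = 0 then 1 else 0) =
          ξ θ * (starRingEnd ℂ) (ξ θ) := by
        rw [Finset.sum_eq_single θ]
        · simp
        · intro b _ hb
          have : θ - b ≠ 0 := sub_ne_zero.2 (Ne.symm hb)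
          simp [this]
        · intro h; exact absurd hθ h
      rw [h3, Complex.mul_conj, Complex.normSq_eq_norm_sq, Complex.ofReal_re]
    rw [h2] at h1
    refine Tendsto.congr' ?_ h1
    filter_upwards [self_mem_nhdsWithin] with δ hδ
    have hδ' : 0 < δ := hδ
    have h4 : ∀ θ ∈ S, ∀ θ' ∈ S, ξ θ * (starRingEnd ℂ) (ξ θ') *
        ((δ : ℂ) * LSeries (pr (fun _ => 1)) (1 + δ + (θ - θ' : ℝ) * I)) =
        ∑' n, ξ θ * (starRingEnd ℂ) (ξ θ') * ((wt δ n : ℂ) * (1 * osc (θ - θ') n)) := by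
      intro θ _ θ' _
      rw [(A_eq_tsum (fun _ => 1) (B := 1) (by simp) hδ' (θ - θ')).2, tsum_mul_left]
    have hsm : ∀ θ θ' : ℝ, Summable (fun n =>
        ξ θ * (starRingEnd ℂ) (ξ θ') * ((wt δ n : ℂ) * (1 * osc (θ - θ') n))) := fun θ θ' =>
      ((A_eq_tsum (fun _ => 1) (B := 1) (by simp) hδ' (θ - θ')).1).mul_left _
    rw [Finset.sum_congr rfl (fun θ hθ => Finset.sum_congr rfl (fun θ' hθ' => h4 θ hθ θ' hθ'))]
    have h5 : ∑ θ ∈ S, ∑ θ' ∈ S, ∑' n, ξ θ * (starRingEnd ℂ) (ξ θ') *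
        ((wt δ n : ℂ) * (1 * osc (θ - θ') n)) = ∑' n, ((wt δ n * ‖g n‖ ^ 2 : ℝ) : ℂ) := by
      rw [Finset.sum_congr rfl (fun θ _ =>
        (Summable.tsum_finsetSum (fun θ' _ => hsm θ θ')).symm)]
      rw [← Summable.tsum_finsetSum (fun θ _ => summable_sum (fun θ' _ => hsm θ θ'))]
      refine tsum_congr (fun n => ?_)
      rcases Nat.eq_zero_or_pos n with h0 | hn
      · subst h0; simp [wt]
      · have h6 : ((wt δ n * ‖g n‖ ^ 2 : ℝ) : ℂ) =
            (wt δ n : ℂ) * (g n * (starRingEnd ℂ) (g n)) := by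
          rw [Complex.mul_conj, Complex.normSq_eq_norm_sq]
          push_cast; rfl
        rw [h6, hg]
        simp only
        rw [map_sum, Finset.sum_mul_sum, Finset.mul_sum]
        refine Finset.sum_congr rfl (fun θ _ => ?_)
        rw [Finset.mul_sum]
        refine Finset.sum_congr rfl (fun θ' _ => ?_)
        rw [map_mul, ← osc_mul_conj θ θ' hn]
        ring
    rw [h5, ← Complex.ofReal_tsum]
    simp
  have hlim : Tendsto (fun δ : ℝ => B * ((∑' n, wt δ n * ‖g n‖ ^ 2) / (2 * r) +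
      r / 2 * ∑' n, wt δ n)) (𝓝[>] 0) (𝓝 (B * ((∑ θ ∈ S, ‖ξ θ‖ ^ 2) / (2 * r) + r / 2 * 1))) :=
    ((hlim2.div_const (2 * r)).add (hlim0.const_mul (r / 2))).const_mul B
  have hev := hlim.eventually (Iio_mem_nhds (show B * ((∑ θ ∈ S, ‖ξ θ‖ ^ 2) / (2 * r) + r / 2 * 1) <
    B * ((∑ θ ∈ S, ‖ξ θ‖ ^ 2) / (2 * r) + r / 2) + ε by rw [mul_one]; linarith))
  filter_upwards [hev, self_mem_nhdsWithin] with δ h1 hδ
  have hδ' : 0 < δ := hδ
  refine le_trans ?_ (le_of_lt h1)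
  have hgb : ∀ n : ℕ, 0 < n → ‖g n‖ ≤ ∑ θ ∈ S, ‖ξ θ‖ := by
    intro n hn
    refine (norm_sum_le _ _).trans (Finset.sum_le_sum (fun θ _ => ?_))
    rw [norm_mul, norm_osc θ hn, mul_one]
  set G := ∑ θ ∈ S, ‖ξ θ‖ with hG
  have hG0 : 0 ≤ G := Finset.sum_nonneg (fun _ _ => norm_nonneg _)
  have hs2 : Summable (fun n => wt δ n * ‖g n‖ ^ 2) := by
    refine Summable.of_nonneg_of_le (fun n => mul_nonneg (wt_nonneg hδ'.le n) (by positivity))
      (fun n => ?_) ((summable_wt hδ').mul_right (G ^ 2))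
    rcases Nat.eq_zero_or_pos n with h0 | hn
    · subst h0; simp [wt]
    · exact mul_le_mul_of_nonneg_left (pow_le_pow_left₀ (norm_nonneg _) (hgb n hn) 2)
        (wt_nonneg hδ'.le n)
  have e1 : ∑ θ ∈ S, ξ θ * ((δ : ℂ) * LSeries (pr x) (1 + δ + θ * I)) =
      ∑' n, (wt δ n : ℂ) * (x n * g n) := by
    rw [Finset.sum_congr rfl (fun θ _ => by
      rw [(A_eq_tsum x hx hδ' θ).2, ← tsum_mul_left])]
    rw [← Summable.tsum_finsetSum (fun θ _ => ((A_eq_tsum x hx hδ' θ).1).mul_left _)]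
    refine tsum_congr (fun n => ?_)
    rw [hg]
    simp only
    rw [Finset.mul_sum, Finset.mul_sum]
    refine Finset.sum_congr rfl (fun θ _ => ?_)
    ring
  have hbound : ∀ n, ‖(wt δ n : ℂ) * (x n * g n)‖ ≤
      B * (wt δ n * ‖g n‖ ^ 2 / (2 * r) + r / 2 * wt δ n) := by
    intro n
    rw [norm_mul, Complex.norm_real, Real.norm_eq_abs, abs_of_nonneg (wt_nonneg hδ'.le n),
      norm_mul]
    have hw := wt_nonneg hδ'.le n
    have h2 : ‖g n‖ ≤ ‖g n‖ ^ 2 / (2 * r) + r / 2 := by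
      rw [div_add_div _ _ (by positivity) (by norm_num), le_div_iff₀ (by positivity)]
      nlinarith [sq_nonneg (‖g n‖ - r)]
    calc wt δ n * (‖x n‖ * ‖g n‖) ≤ wt δ n * (B * (‖g n‖ ^ 2 / (2 * r) + r / 2)) := by
          refine mul_le_mul_of_nonneg_left ?_ hw
          exact mul_le_mul (hx n) h2 (norm_nonneg _) hB
      _ = _ := by ring
  have hs3 : Summable (fun n => B * (wt δ n * ‖g n‖ ^ 2 / (2 * r) + r / 2 * wt δ n)) :=
    ((hs2.div_const _).add ((summable_wt hδ').mul_left _)).mul_left B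
  rw [e1]
  have hs4 : Summable (fun n => ‖(wt δ n : ℂ) * (x n * g n)‖) :=
    Summable.of_nonneg_of_le (fun n => norm_nonneg _) hbound hs3
  refine (norm_tsum_le_tsum_norm hs4).trans ((Summable.tsum_le_tsum hbound hs4 hs3).trans
    (le_of_eq ?_))
  rw [tsum_mul_left, Summable.tsum_add (hs2.div_const _) ((summable_wt hδ').mul_left _),
    tsum_div_const, tsum_mul_left]

end Pool.Agent.Selb
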