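import Mathlib

/-!
# Selb/CharF: finite Fourier analysis on Dirichlet characters, and power sums

* `exists_coeff`: `c χ = (1/φ(q)) ∑_{u unit} f u * χ u⁻¹` and `DirichletCharacter.sum_char_inv_mul_char_eq`
  (`∑ χ, χ a⁻¹ * χ b = if a = b then φ(q) else 0` for a unit `a`).
* `parseval`: expand `‖∑ χ, c χ χ(u)‖² = ∑ χ, ψ, c χ conj (c ψ) χ(u) conj (ψ(u))` and the orthogonality
  `∑_{u} χ(u) ψ⁻¹(u) = φ(q)` if `χ = ψ` and `0` otherwise (`MulChar.sum_eq_zero_of_ne_one`, the sum over `ZMod q`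
  of a character equals the sum over the units).
* `char_inj_of_gen`: if the powers of `r` cover all units and `χ r = ψ r` then `χ = ψ` (`MulChar.ext`).
* `prim_apply`: `DirichletCharacter.primitiveCharacter_apply_of_isCoprime`.
* `int_of_power_sums`: for distinct nonzero `y₁, …, y_r` the sequences `k ↦ y_j ^ k`, `k ≥ 1`, are linearly
  independent (`linearIndependent_monoidHom` for `Multiplicative ℕ →* ℂ`, or a Vandermonde determinant:
  `Matrix.det_vandermonde_ne_zero_iff`; the shift `k ≥ 1` instead of `k ≥ 0` only multiplies the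
  coefficients by `y_j ≠ 0`). Write `(S.map (· ^ k)).sum - (T.map (· ^ k)).sum = ∑ y ∈ (S + T).toFinset,
  (S.count y - T.count y) y ^ k` (for `k ≥ 1` the term `y = 0` does not matter), compare the coefficient of
  `x i`: `c i = S.count (x i) - T.count (x i)`.
-/

set_option autoImplicit false

namespace Pool.Agent.Selb

open Finset

theorem exists_coeff {q : ℕ} [NeZero q] (f : ZMod q → ℂ) :
    ∃ c : DirichletCharacter ℂ q → ℂ, ∀ a : ZMod q, IsUnit a → f a = ∑ χ, c χ * χ a := by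
  have hφ : (q.totient : ℂ) ≠ 0 := by
    have : 0 < q.totient := Nat.totient_pos.2 (NeZero.pos q)
    exact_mod_cast this.ne'
  refine ⟨fun χ => (1 / (q.totient : ℂ)) * ∑ u : (ZMod q)ˣ, f u * χ ((u : ZMod q)⁻¹), ?_⟩
  intro a ha
  have e1 : ∀ χ : DirichletCharacter ℂ q,
      (1 / (q.totient : ℂ)) * (∑ u : (ZMod q)ˣ, f u * χ ((u : ZMod q)⁻¹)) * χ a =
      ∑ u : (ZMod q)ˣ, (1 / (q.totient : ℂ)) * f u * (χ ((u : ZMod q)⁻¹) * χ a) := by
    intro χ
    rw [mul_sum, sum_mul]
    apply sum_congr rfl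
    intro u _
    ring
  simp only [e1]
  rw [sum_comm]
  have e2 : ∀ u : (ZMod q)ˣ, ∑ χ : DirichletCharacter ℂ q,
      (1 / (q.totient : ℂ)) * f u * (χ ((u : ZMod q)⁻¹) * χ a) =
      if (u : ZMod q) = a then f a else 0 := by
    intro u
    rw [← mul_sum, DirichletCharacter.sum_char_inv_mul_char_eq ℂ u.isUnit a]
    split_ifs with h
    · rw [h]
      field_simp
    · rw [mul_zero]
  simp only [e2]
  obtain ⟨v, rfl⟩ := ha
  rw [sum_eq_single v]
  · rw [if_pos rfl]
  · intro u _ hu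
    rw [if_neg]
    exact fun h => hu (Units.ext h)
  · intro h
    exact absurd (mem_univ v) h

private theorem unit_sum {q : ℕ} [NeZero q] (χ : DirichletCharacter ℂ q) (hχ : χ ≠ 1) :
    ∑ u : (ZMod q)ˣ, χ (u : ZMod q) = 0 := by
  obtain ⟨v, hv⟩ := MulChar.ne_one_iff.1 hχ
  refine eq_zero_of_mul_eq_self_left hv ?_
  rw [mul_sum]
  refine Fintype.sum_equiv (Equiv.mulLeft v) _ _ (fun u => ?_)
  rw [Equiv.coe_mulLeft, Units.val_mul, map_mul]

theorem parseval {q : ℕ} [NeZero q] (c : DirichletCharacter ℂ q → ℂ) :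
    (1 / (q.totient : ℝ)) * ∑ u : (ZMod q)ˣ, ‖∑ χ, c χ * χ (u : ZMod q)‖ ^ 2 =
      ∑ χ, ‖c χ‖ ^ 2 := by
  have hφ : (q.totient : ℂ) ≠ 0 := by
    have : 0 < q.totient := Nat.totient_pos.2 (NeZero.pos q)
    exact_mod_cast this.ne'
  have hn : ∀ z : ℂ, (((‖z‖ ^ 2 : ℝ)) : ℂ) = z * star z := by
    intro z
    rw [Complex.star_def, Complex.mul_conj, Complex.normSq_eq_norm_sq]
  have e1 : ∀ u : (ZMod q)ˣ, (((‖∑ χ, c χ * χ (u : ZMod q)‖ ^ 2 : ℝ)) : ℂ) =
      ∑ χ : DirichletCharacter ℂ q, ∑ ψ : DirichletCharacter ℂ q,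
        c χ * star (c ψ) * (χ * ψ⁻¹) (u : ZMod q) := by
    intro u
    rw [hn, star_sum, sum_mul_sum]
    apply sum_congr rfl
    intro χ _
    apply sum_congr rfl
    intro ψ _
    rw [star_mul', MulChar.star_apply', MulChar.mul_apply]
    ring
  have e2 : ∑ u : (ZMod q)ˣ, (((‖∑ χ, c χ * χ (u : ZMod q)‖ ^ 2 : ℝ)) : ℂ) =
      ∑ χ : DirichletCharacter ℂ q, ∑ ψ : DirichletCharacter ℂ q,
        c χ * star (c ψ) * ∑ u : (ZMod q)ˣ, (χ * ψ⁻¹) (u : ZMod q) := by
    simp only [e1]
    rw [sum_comm]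
    apply sum_congr rfl
    intro χ _
    rw [sum_comm]
    apply sum_congr rfl
    intro ψ _
    rw [mul_sum]
  have e3 : ∀ χ : DirichletCharacter ℂ q, ∑ ψ : DirichletCharacter ℂ q,
      c χ * star (c ψ) * ∑ u : (ZMod q)ˣ, (χ * ψ⁻¹) (u : ZMod q) =
      (q.totient : ℂ) * (((‖c χ‖ ^ 2 : ℝ)) : ℂ) := by
    intro χ
    rw [sum_eq_single χ]
    · rw [mul_inv_cancel, hn]
      have : ∑ u : (ZMod q)ˣ, (1 : DirichletCharacter ℂ q) (u : ZMod q) = (q.totient : ℂ) := by
        simp only [MulChar.one_apply_coe, sum_const, card_univ, ZMod.card_units_eq_totient,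
          nsmul_eq_mul, mul_one]
      rw [this]
      ring
    · intro ψ _ hψ
      rw [unit_sum (χ * ψ⁻¹), mul_zero]
      intro h
      apply hψ
      exact (mul_inv_eq_one.1 h).symm
    · intro h
      exact absurd (mem_univ χ) h
  have key : (((1 / (q.totient : ℝ)) * ∑ u : (ZMod q)ˣ, ‖∑ χ, c χ * χ (u : ZMod q)‖ ^ 2 : ℝ) : ℂ) =
      ((∑ χ, ‖c χ‖ ^ 2 : ℝ) : ℂ) := by
    rw [Complex.ofReal_mul, Complex.ofReal_sum, e2]
    simp only [e3]
    rw [← mul_sum, Complex.ofReal_sum, ← mul_assoc]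
    have : ((1 / (q.totient : ℝ) : ℝ) : ℂ) * (q.totient : ℂ) = 1 := by
      push_cast
      field_simp
    rw [this, one_mul]
  exact_mod_cast key

theorem char_inj_of_gen {q r : ℕ} [NeZero q]
    (hr : ∀ u : (ZMod q)ˣ, ∃ k : ℕ, (u : ZMod q) = (r : ZMod q) ^ k) :
    Function.Injective (fun χ : DirichletCharacter ℂ q => χ (r : ZMod q)) := by
  intro χ ψ h
  apply MulChar.ext
  intro u
  obtain ⟨k, hk⟩ := hr u
  rw [hk, map_pow, map_pow]
  have h' : χ (r : ZMod q) = ψ (r : ZMod q) := h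
  rw [h']

theorem prim_apply {q : ℕ} (χ : DirichletCharacter ℂ q) {n : ℕ} (hn : n.Coprime q) :
    χ.primitiveCharacter (n : ZMod χ.conductor) = χ (n : ZMod q) := by
  have h := DirichletCharacter.primitiveCharacter_apply_of_isCoprime (χ := χ) (a := (n : ℤ))
    (Nat.isCoprime_iff_coprime.2 hn)
  rw [Int.cast_natCast, Int.cast_natCast] at h
  exact h

theorem int_of_power_sums {κ : Type*} [Fintype κ] (x : κ → ℂ) (hx : Function.Injective x)
    (h0 : ∀ i, x i ≠ 0) (c : κ → ℂ) (S T : Multiset ℂ)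
    (h : ∀ k : ℕ, 1 ≤ k → ∑ i, c i * x i ^ k =
      (S.map (fun y => y ^ k)).sum - (T.map (fun y => y ^ k)).sum) (i : κ) :
    ∃ n : ℤ, c i = n := by
  classical
  have hli : LinearIndependent ℂ (fun y : ℂ => ((powersHom ℂ y : Multiplicative ℕ →* ℂ) :
      Multiplicative ℕ → ℂ)) :=
    (linearIndependent_monoidHom (Multiplicative ℕ) ℂ).comp (fun y : ℂ => powersHom ℂ y)
      (powersHom ℂ).injective
  set D : Finset ℂ := univ.image x ∪ (S.toFinset ∪ T.toFinset) with hD
  set g : ℂ → ℂ := fun y => (∑ j, if x j = y then c j else 0) - S.count y + T.count y with hg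
  have hms : ∀ (U : Multiset ℂ), U.toFinset ⊆ D → ∀ k : ℕ,
      (U.map (fun y => y ^ k)).sum = ∑ y ∈ D, (U.count y : ℂ) * y ^ k := by
    intro U hU k
    rw [Finset.sum_multiset_map_count]
    rw [← Finset.sum_subset hU]
    · apply sum_congr rfl
      intro y _
      rw [nsmul_eq_mul]
    · intro y _ hy
      rw [Multiset.mem_toFinset] at hy
      rw [Multiset.count_eq_zero_of_notMem hy, Nat.cast_zero, zero_mul]
  have hxs : ∀ k : ℕ, ∑ j, c j * x j ^ k = ∑ y ∈ D, (∑ j, if x j = y then c j else 0) * y ^ k := by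
    intro k
    have e : ∀ y, (∑ j, if x j = y then c j else 0) * y ^ k =
        ∑ j, if x j = y then c j * x j ^ k else 0 := by
      intro y
      rw [sum_mul]
      apply sum_congr rfl
      intro j _
      split_ifs with hj
      · rw [hj]
      · rw [zero_mul]
    simp only [e]
    rw [sum_comm]
    apply sum_congr rfl
    intro j _
    rw [sum_ite_eq, if_pos]
    rw [hD, mem_union]
    exact Or.inl (mem_image_of_mem x (mem_univ j))
  have hsum : ∑ y ∈ D, (g y * y) • ((powersHom ℂ y : Multiplicative ℕ →* ℂ) :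
      Multiplicative ℕ → ℂ) = 0 := by
    ext m
    rw [Finset.sum_apply, Pi.zero_apply]
    have h1 := h (Multiplicative.toAdd m + 1) (Nat.le_add_left 1 _)
    rw [hxs, hms S (by
        rw [hD]
        exact subset_union_left.trans subset_union_right),
      hms T (by
        rw [hD]
        exact subset_union_right.trans subset_union_right)] at h1
    have e : ∀ y ∈ D, ((g y * y) • ((powersHom ℂ y : Multiplicative ℕ →* ℂ) :
        Multiplicative ℕ → ℂ)) m =
        (∑ j, if x j = y then c j else 0) * y ^ (Multiplicative.toAdd m + 1) -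
        ((S.count y : ℂ) * y ^ (Multiplicative.toAdd m + 1) -
          (T.count y : ℂ) * y ^ (Multiplicative.toAdd m + 1)) := by
      intro y _
      rw [Pi.smul_apply, smul_eq_mul, powersHom_apply, hg, pow_succ]
      ring
    rw [sum_congr rfl e, sum_sub_distrib, sum_sub_distrib, h1, sub_self]
  have hxi : x i ∈ D := by
    rw [hD, mem_union]
    exact Or.inl (mem_image_of_mem x (mem_univ i))
  have h1 := linearIndependent_iff'.1 hli D (fun y => g y * y) hsum (x i) hxi
  have h2 : g (x i) = 0 := (mul_eq_zero.1 h1).resolve_right (h0 i)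
  have h3 : (∑ j, if x j = x i then c j else 0) = c i := by
    rw [sum_eq_single i]
    · rw [if_pos rfl]
    · intro j _ hj
      rw [if_neg]
      exact fun he => hj (hx he)
    · intro hi
      exact absurd (mem_univ i) hi
  have h4 : (∑ j, if x j = x i then c j else 0) - (S.count (x i) : ℂ) + (T.count (x i) : ℂ) = 0 := h2
  rw [h3] at h4
  refine ⟨(S.count (x i) : ℤ) - (T.count (x i) : ℤ), ?_⟩
  push_cast
  linear_combination h4

end Pool.Agent.Selb
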