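import Pool.Agent.Selb.Sdef

/-!
# Selb/CoefA: the coefficient recursion of the Euler product

Plan for `Arith.recur`: for `re s ≥ 2` both `LSeries a` and `LSeries b` converge absolutely
(`h.ram 1/4`, and `‖b n‖ ≤ C n ^ θ`, `θ < 1/2`; `LSeriesSummable_of_le_const_mul_rpow`), so on the
open set `{2 < re s}` the identity `LSeries a = exp (LSeries b)` may be differentiated:
`- LSeries (logMul a) s = - LSeries (logMul b) s * LSeries a s` (`LSeries_deriv`), i.e.
`LSeries (logMul a) s = LSeries (logMul b ⍟ a) s` (`LSeries_convolution'`) for all real `s > 2`, and both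
series converge absolutely there. By uniqueness of Dirichlet series
(`LSeries_eventually_eq_zero_iff'` applied to the difference, or `LSeries_injOn`, in
`Mathlib/NumberTheory/LSeries/Injectivity.lean`) the coefficients agree for `n ≥ 1`:
`log n * a n = ∑ (d, e) ∈ n.divisorsAntidiagonal, log d * b d * a e`.
For `n = p ^ k`: the pairs are `(p ^ i, p ^ (k - i))`, `0 ≤ i ≤ k` (`Nat.divisorsAntidiagonal` of a prime
power / `Nat.sum_divisorsAntidiagonal` + `Nat.sum_divisors_prime_pow`), the term `i = 0` vanishes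
(`log 1 = 0`), `log (p ^ i) = i log p`; divide by `log p ≠ 0`, put `i = j + 1`.
-/

set_option autoImplicit false

open Complex Metric Filter Topology LSeries

namespace Pool.Agent.Selb

variable {a b : ℕ → ℂ}

private theorem clog_pow (p k : ℕ) :
    Complex.log ((p ^ k : ℕ) : ℂ) = (k : ℂ) * Complex.log (p : ℂ) := by
  rw [← Complex.natCast_log, ← Complex.natCast_log]
  push_cast
  rw [Real.log_pow]
  push_cast
  ring

theorem Arith.conv_eq (h : Arith a b) {n : ℕ} (hn : n ≠ 0) :
    logMul a n = convolution (logMul b) a n := by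
  have haa : abscissaOfAbsConv a < ((2 : ℝ) : EReal) := by
    obtain ⟨C, hC⟩ := h.ram (1 / 2) (by norm_num)
    have h1 := abscissaOfAbsConv_le_of_le_const_mul_rpow (f := a) (x := 1 / 2)
      ⟨C, fun n hn => hC n (Nat.one_le_iff_ne_zero.2 hn)⟩
    refine h1.trans_lt ?_
    rw [← EReal.coe_one, ← EReal.coe_add, EReal.coe_lt_coe_iff]
    norm_num
  have hbb : abscissaOfAbsConv b < ((2 : ℝ) : EReal) := by
    obtain ⟨θ, hθ, C, hC⟩ := h.bd
    have h1 := abscissaOfAbsConv_le_of_le_const_mul_rpow (f := b) (x := θ)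
      ⟨C, fun n _ => hC n⟩
    refine h1.trans_lt ?_
    rw [← EReal.coe_one, ← EReal.coe_add, EReal.coe_lt_coe_iff]
    linarith
  have hlt : ∀ {f : ℕ → ℂ} {s : ℂ}, abscissaOfAbsConv f < ((2 : ℝ) : EReal) → 2 < s.re →
      abscissaOfAbsConv f < (s.re : EReal) := fun hf hs =>
    hf.trans (EReal.coe_lt_coe_iff.2 hs)
  have key : ∀ s : ℂ, 2 < s.re →
      LSeries (logMul a) s = LSeries (convolution (logMul b) a) s := by
    intro s hs
    have h1 := LSeries_hasDerivAt (f := a) (hlt haa hs)
    have h2 := (LSeries_hasDerivAt (f := b) (hlt hbb hs)).cexp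
    have h3 : LSeries a =ᶠ[𝓝 s] fun z => Complex.exp (LSeries b z) := by
      have ho : IsOpen {z : ℂ | 1 < z.re} := isOpen_lt continuous_const Complex.continuous_re
      filter_upwards [ho.mem_nhds (show s ∈ {z : ℂ | 1 < z.re} from by
        show 1 < s.re
        linarith)] with z hz
      exact h.euler z hz
    have h4 := (h2.congr_of_eventuallyEq h3).unique h1
    have hsa : LSeriesSummable a s := LSeriesSummable_of_abscissaOfAbsConv_lt_re (hlt haa hs)
    have hsb : LSeriesSummable (logMul b) s :=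
      LSeriesSummable_of_abscissaOfAbsConv_lt_re (by
        rw [abscissaOfAbsConv_logMul]; exact hlt hbb hs)
    rw [LSeries_convolution' hsb hsa, h.euler s (by linarith)]
    linear_combination h4
  have hsum1 : ∀ s : ℂ, 2 < s.re → LSeriesSummable (logMul a) s := fun s hs =>
    LSeriesSummable_of_abscissaOfAbsConv_lt_re (by
      rw [abscissaOfAbsConv_logMul]; exact hlt haa hs)
  have hsum2 : ∀ s : ℂ, 2 < s.re → LSeriesSummable (convolution (logMul b) a) s := fun s hs =>
    LSeriesSummable.convolution (LSeriesSummable_of_abscissaOfAbsConv_lt_re (by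
      rw [abscissaOfAbsConv_logMul]; exact hlt hbb hs))
      (LSeriesSummable_of_abscissaOfAbsConv_lt_re (hlt haa hs))
  have hz : (fun x : ℝ => LSeries (logMul a - convolution (logMul b) a) (x : ℂ)) =ᶠ[atTop] 0 := by
    filter_upwards [eventually_gt_atTop (2 : ℝ)] with x hx
    have hx' : 2 < (x : ℂ).re := by simpa using hx
    rw [LSeries_sub (hsum1 _ hx') (hsum2 _ hx'), key _ hx', sub_self]
    rfl
  rcases LSeries_eventually_eq_zero_iff'.1 hz with h1 | h1
  · have h2 := h1 n hn
    rw [Pi.sub_apply, sub_eq_zero] at h2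
    exact h2
  · exfalso
    have h3 : (2 : ℝ) < ((3 : ℝ) : ℂ).re := by simp; norm_num
    have h2 := ((hsum1 _ h3).sub (hsum2 _ h3)).abscissaOfAbsConv_le
    rw [h1] at h2
    exact absurd h2 (not_le.2 (EReal.coe_lt_top _))

theorem Arith.recur (h : Arith a b) {p : ℕ} (hp : p.Prime) (k : ℕ) :
    (k : ℂ) * a (p ^ k) =
      ∑ j ∈ Finset.range k, ((j + 1 : ℕ) : ℂ) * b (p ^ (j + 1)) * a (p ^ (k - 1 - j)) := by
  have h1 : logMul a (p ^ k) = ∑ x ∈ (p ^ k).divisorsAntidiagonal, logMul b x.1 * a x.2 := by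
    rw [h.conv_eq (pow_ne_zero k hp.ne_zero), convolution_def]
  have h2 : (∑ x ∈ (p ^ k).divisorsAntidiagonal, logMul b x.1 * a x.2) =
      Complex.log (p : ℂ) * ∑ j ∈ Finset.range k,
        ((j + 1 : ℕ) : ℂ) * b (p ^ (j + 1)) * a (p ^ (k - 1 - j)) := by
    rw [Nat.sum_divisorsAntidiagonal (fun i j => logMul b i * a j),
      Nat.sum_divisors_prime_pow hp, Finset.sum_range_succ', Finset.mul_sum]
    have h0 : logMul b (p ^ 0) * a (p ^ k / p ^ 0) = 0 := by
      simp [logMul]
    rw [h0, add_zero]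
    refine Finset.sum_congr rfl fun j hj => ?_
    rw [Finset.mem_range] at hj
    rw [Nat.pow_div (by omega) hp.pos]
    have e1 : k - (j + 1) = k - 1 - j := by omega
    rw [e1]
    unfold logMul
    rw [clog_pow]
    ring
  have hlog : Complex.log (p : ℂ) ≠ 0 := by
    rw [← Complex.natCast_log]
    have : Real.log p ≠ 0 := (Real.log_pos (by exact_mod_cast hp.one_lt)).ne'
    exact_mod_cast this
  apply mul_left_cancel₀ hlog
  rw [← h2, ← h1]
  unfold logMul
  rw [clog_pow]
  ring

theorem Arith.at_prime (h : Arith a b) {p : ℕ} (hp : p.Prime) : a p = b p := by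
  have := h.recur hp 1
  simpa [h.one] using this

theorem Arith.at_sq (h : Arith a b) {p : ℕ} (hp : p.Prime) :
    a (p ^ 2) = b (p ^ 2) + b p ^ 2 / 2 := by
  have := h.recur hp 2
  rw [Finset.sum_range_succ, Finset.sum_range_one] at this
  simp only [zero_add, pow_one, h.at_prime hp, h.one, pow_zero] at this
  push_cast at this
  simp only [Nat.sub_self, Nat.sub_zero, pow_zero, h.one, pow_one, h.at_prime hp,
    show 2 - 1 = 1 from rfl] at this
  linear_combination this / 2

end Pool.Agent.Selb
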