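import Pool.Agent.Selb.CoefA

/-!
# Selb/CoefB: the coefficients `b` are small at powers of large primes

Let `C ≥ 1` with `‖a n‖ ≤ C n ^ (ε / 2)` (`h.ram (ε / 2)`, enlarge `C`), `D = 4 * C`, `x = p ^ (ε / 2) ≥ 1`.
Claim: `k * ‖b (p ^ k)‖ ≤ (D * x) ^ k` for `k ≥ 1`, by strong induction with `Arith.recur`
(`k * b (p^k) = k * a (p^k) - ∑_{j + 1 < k} (j + 1) b (p^(j+1)) a (p^(k-1-j))`):
`k ‖b (p^k)‖ ≤ x ^ k * (k C + C ∑_{i=1}^{k-1} D ^ i)`, and `k C + C ∑_{i=1}^{k-1} D ^ i ≤ D ^ k`: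
`k ≤ 2 ^ (k-1)`, `k C ≤ D ^ k / 2` since `D ^ k = (4 C) ^ k ≥ 4 C * 4 ^ (k-1)`, and
`C ∑_{i=1}^{k-1} D ^ i ≤ C * (D ^ k - D) / (D - 1) ≤ D ^ k / 3` as `D - 1 ≥ 3 C`
(an induction `C ∑_{i=1}^{k-1} D^i ≤ D^k / 3` also works).
Now take `P` with `D ≤ P ^ (ε / 2)`: for `p ≥ P`, `‖b (p ^ k)‖ ≤ (D x) ^ k ≤ (p ^ ε) ^ k`.
-/

set_option autoImplicit false

open Complex Metric Filter Topology LSeries

namespace Pool.Agent.Selb

variable {a b : ℕ → ℂ}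

private theorem cb_sum {C : ℝ} (hC : 1 ≤ C) (n : ℕ) :
    ((n + 1 : ℕ) : ℝ) * C + ∑ j ∈ Finset.range n, (4 * C) ^ (j + 1) * C ≤ (4 * C) ^ (n + 1) := by
  induction n with
  | zero => simp; linarith
  | succ n ih =>
    rw [Finset.sum_range_succ]
    have h1 : (1 : ℝ) ≤ (4 * C) ^ (n + 1) := one_le_pow₀ (by linarith)
    have h2 : (4 * C) ^ (n + 1 + 1) = (4 * C) ^ (n + 1) * (4 * C) := pow_succ _ _
    push_cast at ih ⊢
    rw [h2]
    nlinarith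

theorem Arith.small (h : Arith a b) {ε : ℝ} (hε : 0 < ε) :
    ∃ P : ℕ, ∀ p : ℕ, p.Prime → P ≤ p → ∀ k : ℕ, 1 ≤ k →
      ‖b (p ^ k)‖ ≤ ((p ^ k : ℕ) : ℝ) ^ ε := by
  obtain ⟨C0, hC0⟩ := h.ram (ε / 2) (by positivity)
  obtain ⟨C, hCdef⟩ : ∃ C, C = max C0 1 := ⟨_, rfl⟩
  have hC1 : 1 ≤ C := hCdef ▸ le_max_right _ _
  have hCa : ∀ n : ℕ, 1 ≤ n → ‖a n‖ ≤ C * (n : ℝ) ^ (ε / 2) := by
    intro n hn
    refine (hC0 n hn).trans (mul_le_mul_of_nonneg_right (hCdef ▸ le_max_left _ _) ?_)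
    positivity
  have hD0 : 0 < 4 * C := by linarith
  refine ⟨⌈(4 * C) ^ (2 / ε)⌉₊, fun p hp hP => ?_⟩
  have hp0 : (0 : ℝ) < p := by exact_mod_cast hp.pos
  obtain ⟨x, hx⟩ : ∃ x : ℝ, x = (p : ℝ) ^ (ε / 2) := ⟨_, rfl⟩
  have hx0 : 0 < x := by rw [hx]; positivity
  have hDx : 4 * C ≤ x := by
    have h1 : (4 * C) ^ (2 / ε) ≤ p := by
      have h2 : ((⌈(4 * C) ^ (2 / ε)⌉₊ : ℕ) : ℝ) ≤ p := by exact_mod_cast hP
      exact (Nat.le_ceil _).trans h2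
    calc 4 * C = ((4 * C) ^ (2 / ε)) ^ (ε / 2) := by
          rw [← Real.rpow_mul hD0.le]
          have : 2 / ε * (ε / 2) = 1 := by field_simp
          rw [this, Real.rpow_one]
      _ ≤ x := by
          rw [hx]
          exact Real.rpow_le_rpow (by positivity) h1 (by positivity)
  have hax : ∀ i : ℕ, ‖a (p ^ i)‖ ≤ C * x ^ i := by
    intro i
    refine (hCa (p ^ i) (Nat.one_le_pow _ _ hp.pos)).trans (le_of_eq ?_)
    rw [hx]
    push_cast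
    rw [← Real.rpow_natCast ((p : ℝ) ^ (ε / 2)), ← Real.rpow_natCast (p : ℝ) i,
      ← Real.rpow_mul hp0.le, ← Real.rpow_mul hp0.le, mul_comm (i : ℝ)]
  have key : ∀ n : ℕ, ((n + 1 : ℕ) : ℝ) * ‖b (p ^ (n + 1))‖ ≤ (4 * C * x) ^ (n + 1) := by
    intro n
    induction n using Nat.strong_induction_on with
    | _ n ih =>
      have h1 := h.recur hp (n + 1)
      rw [Finset.sum_range_succ] at h1
      simp only [Nat.add_sub_cancel, Nat.sub_self, pow_zero, h.one, mul_one] at h1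
      have h2 : ((n + 1 : ℕ) : ℂ) * b (p ^ (n + 1)) = ((n + 1 : ℕ) : ℂ) * a (p ^ (n + 1)) -
          ∑ j ∈ Finset.range n, ((j + 1 : ℕ) : ℂ) * b (p ^ (j + 1)) * a (p ^ (n - j)) := by
        rw [h1]
        ring
      have h3 : ((n + 1 : ℕ) : ℝ) * ‖b (p ^ (n + 1))‖ = ‖((n + 1 : ℕ) : ℂ) * b (p ^ (n + 1))‖ := by
        rw [norm_mul, Complex.norm_natCast]
      rw [h3, h2]
      refine (norm_sub_le _ _).trans ?_
      have h4 : ‖((n + 1 : ℕ) : ℂ) * a (p ^ (n + 1))‖ ≤ ((n + 1 : ℕ) : ℝ) * C * x ^ (n + 1) := by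
        rw [norm_mul, Complex.norm_natCast, mul_assoc]
        exact mul_le_mul_of_nonneg_left (hax (n + 1)) (Nat.cast_nonneg _)
      have h5 : ‖∑ j ∈ Finset.range n, ((j + 1 : ℕ) : ℂ) * b (p ^ (j + 1)) * a (p ^ (n - j))‖ ≤
          ∑ j ∈ Finset.range n, (4 * C) ^ (j + 1) * C * x ^ (n + 1) := by
        refine (norm_sum_le _ _).trans (Finset.sum_le_sum fun j hj => ?_)
        rw [Finset.mem_range] at hj
        rw [norm_mul, norm_mul, Complex.norm_natCast]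
        have h6 : (4 * C) ^ (j + 1) * C * x ^ (n + 1) = (4 * C * x) ^ (j + 1) * (C * x ^ (n - j)) := by
          have h7 : n + 1 = (j + 1) + (n - j) := by omega
          rw [h7, pow_add x (j + 1) (n - j), mul_pow (4 * C) x]
          have h8 : j + 1 + (n - j) - 1 = n := by omega
          ring
        rw [h6]
        exact mul_le_mul (ih j hj) (hax _) (norm_nonneg _) (by positivity)
      rw [← Finset.sum_mul] at h5
      calc _ ≤ ((n + 1 : ℕ) : ℝ) * C * x ^ (n + 1) +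
            (∑ j ∈ Finset.range n, (4 * C) ^ (j + 1) * C) * x ^ (n + 1) := add_le_add h4 h5
        _ = (((n + 1 : ℕ) : ℝ) * C + ∑ j ∈ Finset.range n, (4 * C) ^ (j + 1) * C) *
            x ^ (n + 1) := by ring
        _ ≤ (4 * C) ^ (n + 1) * x ^ (n + 1) :=
            mul_le_mul_of_nonneg_right (cb_sum hC1 n) (by positivity)
        _ = _ := (mul_pow _ _ _).symm
  intro k hk
  obtain ⟨n, rfl⟩ : ∃ n, k = n + 1 := ⟨k - 1, by omega⟩
  have h1 := key n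
  have h2 : ‖b (p ^ (n + 1))‖ ≤ ((n + 1 : ℕ) : ℝ) * ‖b (p ^ (n + 1))‖ := by
    have h3 : (1 : ℝ) ≤ ((n + 1 : ℕ) : ℝ) := by exact_mod_cast Nat.succ_pos n
    nlinarith [norm_nonneg (b (p ^ (n + 1)))]
  have h4 : (4 * C * x) ^ (n + 1) ≤ (x * x) ^ (n + 1) :=
    pow_le_pow_left₀ (by positivity) (mul_le_mul_of_nonneg_right hDx hx0.le) _
  have h5 : (x * x) ^ (n + 1) = ((p ^ (n + 1) : ℕ) : ℝ) ^ ε := by
    have h6 : x * x = (p : ℝ) ^ ε := by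
      rw [hx, ← Real.rpow_add hp0]
      congr 1
      ring
    rw [h6]
    push_cast
    rw [← Real.rpow_natCast ((p : ℝ) ^ ε), ← Real.rpow_natCast (p : ℝ) (n + 1),
      ← Real.rpow_mul hp0.le, ← Real.rpow_mul hp0.le, mul_comm ε]
  exact h2.trans (h1.trans (h4.trans h5.le))

end Pool.Agent.Selb
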