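import Pool.Agent.Selb.Sdef

/-!
# Selb/CoefC: summability over prime powers

All functions are supported on prime powers, so sums over `n` become sums over
`(p, k) ∈ Nat.Primes × ℕ`, `n = p ^ (k + 1)` (`Nat.Primes.prodNatEquiv : Nat.Primes × ℕ ≃ {n // IsPrimePow n}`;
or: `Function.Injective` + `summable_subtype`/`Function.Injective.summable_iff` with vanishing off the range).

`high_summable`: at `s = 1/2`, for `n = p ^ k`, `k ≥ 3`:
* `p ≥ P`: `‖term‖ ≤ C * n ^ (1/12 - 1/2) = C * p ^ (- 5 k / 12)`; for fixed `p` the geometric sum over `k ≥ 3` is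
  at most `C' p ^ (-5/4)` (ratio `p ^ (-5/12) ≤ 2 ^ (-5/12) < 1`), summable over `p` (`-5/4 < -1`).
* `p < P` (finitely many): `‖term‖ ≤ C * (p ^ k) ^ (θ - 1/2)`, a convergent geometric series.
(Simplest: `‖term high(Λ) (1/2) (p ^ (k+1))‖ ≤ C * p ^ (-(5/12) (k+1))` resp. ..., `Summable` on the product
`Nat.Primes × ℕ` by `summable_prod_of_nonneg`.)

`low_summable`: for `σ = re s > 1`, take `ε = (σ - 1)/2` in `h2`, `P` the corresponding bound: for all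
`n`: `‖term Λ s n‖ ≤ n ^ (ε - σ) + (C n ^ (θ - σ) if n = p ^ k with p < P, k ≥ 1)`; the first is summable
since `ε - σ < -1`, the second is a finite union of geometric series.
-/

set_option autoImplicit false

open Complex Metric Filter Topology LSeries

namespace Pool.Agent.Selb

private theorem cc_pw (p : Nat.Primes) {β : ℝ} (hβ : β < 0) (j k : ℕ) :
    (((p : ℕ) ^ (k + j) : ℕ) : ℝ) ^ β ≤ ((p : ℕ) : ℝ) ^ ((j : ℝ) * β) * ((2 : ℝ) ^ β) ^ k := by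
  have hp0 : (0 : ℝ) < ((p : ℕ) : ℝ) := by exact_mod_cast p.2.pos
  have hp2 : (2 : ℝ) ≤ ((p : ℕ) : ℝ) := by exact_mod_cast p.2.two_le
  have h1 : (((p : ℕ) ^ (k + j) : ℕ) : ℝ) ^ β =
      ((p : ℕ) : ℝ) ^ ((j : ℝ) * β) * (((p : ℕ) : ℝ) ^ β) ^ k := by
    push_cast
    rw [← Real.rpow_natCast ((p : ℕ) : ℝ) (k + j), ← Real.rpow_natCast (((p : ℕ) : ℝ) ^ β) k,
      ← Real.rpow_mul hp0.le, ← Real.rpow_mul hp0.le, ← Real.rpow_add hp0]
    congr 1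
    push_cast
    ring
  rw [h1]
  refine mul_le_mul_of_nonneg_left (pow_le_pow_left₀ (by positivity) ?_ k) (by positivity)
  exact Real.rpow_le_rpow_of_nonpos (by norm_num) hp2 hβ.le

private theorem cc_summable (P : ℕ) {α r1 r2 : ℝ} (hα : α < -1) (h1 : 0 ≤ r1) (h1' : r1 < 1)
    (h2 : 0 ≤ r2) (h2' : r2 < 1) (C : ℝ) :
    Summable (fun x : Nat.Primes × ℕ =>
      C * ((if (x.1 : ℕ) < P then (1 : ℝ) else 0) * r1 ^ x.2 + ((x.1 : ℕ) : ℝ) ^ α * r2 ^ x.2)) := by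
  refine (Summable.add ?_ ?_).mul_left C
  · have hs : Summable (fun p : Nat.Primes => if (p : ℕ) < P then (1 : ℝ) else 0) := by
      refine summable_of_hasFiniteSupport ?_
      refine Set.Finite.subset (s := {p : Nat.Primes | (p : ℕ) < P}) ?_ ?_
      · exact Set.Finite.preimage (f := fun p : Nat.Primes => (p : ℕ))
          (Set.injOn_of_injective Subtype.val_injective) (Set.finite_lt_nat P)
      · intro p hp
        rw [Function.mem_support] at hp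
        by_contra hcon
        exact hp (if_neg hcon)
    exact Summable.mul_of_nonneg hs (summable_geometric_of_lt_one h1 h1')
      (fun p => by change (0 : ℝ) ≤ if _ then _ else _; split_ifs <;> norm_num)
      (fun k => pow_nonneg h1 k)
  · have hs : Summable (fun p : Nat.Primes => ((p : ℕ) : ℝ) ^ α) :=
      Nat.Primes.summable_rpow.2 hα
    have hg : Summable (fun k : ℕ => r2 ^ k) := summable_geometric_of_lt_one h2 h2'
    have hs0 : ∀ p : Nat.Primes, 0 ≤ ((p : ℕ) : ℝ) ^ α :=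
      fun p => Real.rpow_nonneg (Nat.cast_nonneg _) _
    have hg0 : ∀ k : ℕ, 0 ≤ r2 ^ k := fun k => pow_nonneg h2 k
    have h3 := Summable.mul_of_nonneg hs hg (by intro p; exact hs0 p) (by intro k; exact hg0 k)
    exact h3

private theorem cc_two {β : ℝ} (hβ : β < 0) : 0 ≤ (2 : ℝ) ^ β ∧ (2 : ℝ) ^ β < 1 :=
  ⟨by positivity, Real.rpow_lt_one_of_one_lt_of_neg (by norm_num) hβ⟩

private theorem cc_inj (j : ℕ) (hj : 0 < j) :
    Function.Injective (fun x : Nat.Primes × ℕ => (x.1 : ℕ) ^ (x.2 + j)) := by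
  rintro ⟨p, k⟩ ⟨q, l⟩ h
  have h' : (p : ℕ) ^ (k + j) = (q : ℕ) ^ (l + j) := h
  have hpq : (p : ℕ) = q := by
    have h1 : (p : ℕ) ∣ (q : ℕ) ^ (l + j) := h' ▸ dvd_pow_self _ (by omega)
    exact (Nat.prime_dvd_prime_iff_eq p.2 q.2).1 (p.2.dvd_of_dvd_pow h1)
  rw [hpq] at h'
  have h3 := Nat.pow_right_injective q.2.two_le h'
  have h4 : k = l := by omega
  rw [Prod.mk.injEq]
  exact ⟨Subtype.ext hpq, h4⟩

/-- The bound of a term at a prime power. -/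
private theorem cc_term {f : ℕ → ℂ} {s : ℂ} {n : ℕ} (hn : n ≠ 0) {D τ : ℝ}
    (h : ‖f n‖ ≤ D * (n : ℝ) ^ τ) : ‖term f s n‖ ≤ D * (n : ℝ) ^ (τ - s.re) := by
  have hn0 : (0 : ℝ) < n := by exact_mod_cast Nat.pos_of_ne_zero hn
  rw [norm_term_eq, if_neg hn, Real.rpow_sub hn0, ← mul_div_assoc]
  exact div_le_div_of_nonneg_right h (by positivity)

private theorem cc_main {f : ℕ → ℂ} {s : ℂ} (j : ℕ) (hj : 0 < j)
    (h0 : ∀ n, (∀ (p : Nat.Primes) (k : ℕ), (p : ℕ) ^ (k + j) ≠ n) → f n = 0)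
    (P : ℕ) {D τ₁ τ₂ : ℝ} (hD : 0 ≤ D) (hτ₁ : τ₁ - s.re < 0) (hτ₂ : τ₂ - s.re < 0)
    (hτ₂' : (j : ℝ) * (τ₂ - s.re) < -1)
    (h1 : ∀ (p : Nat.Primes) (k : ℕ), (p : ℕ) < P →
      ‖f ((p : ℕ) ^ (k + j))‖ ≤ D * (((p : ℕ) ^ (k + j) : ℕ) : ℝ) ^ τ₁)
    (h2 : ∀ (p : Nat.Primes) (k : ℕ), P ≤ (p : ℕ) →
      ‖f ((p : ℕ) ^ (k + j))‖ ≤ D * (((p : ℕ) ^ (k + j) : ℕ) : ℝ) ^ τ₂) :
    LSeriesSummable f s := by
  unfold LSeriesSummable
  rw [← (cc_inj j hj).summable_iff (f := term f s)]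
  · refine Summable.of_norm_bounded (cc_summable P hτ₂' (cc_two hτ₁).1 (cc_two hτ₁).2
      (cc_two hτ₂).1 (cc_two hτ₂).2 D) ?_
    rintro ⟨p, k⟩
    have hn : (p : ℕ) ^ (k + j) ≠ 0 := pow_ne_zero _ p.2.ne_zero
    have hp1 : (1 : ℝ) ≤ ((p : ℕ) : ℝ) := by exact_mod_cast p.2.one_le
    change ‖term f s ((p : ℕ) ^ (k + j))‖ ≤ D * ((if (p : ℕ) < P then (1 : ℝ) else 0) *
      ((2 : ℝ) ^ (τ₁ - s.re)) ^ k +
      ((p : ℕ) : ℝ) ^ ((j : ℝ) * (τ₂ - s.re)) * ((2 : ℝ) ^ (τ₂ - s.re)) ^ k)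
    by_cases hpP : (p : ℕ) < P
    · rw [if_pos hpP, one_mul]
      refine (cc_term hn (h1 p k hpP)).trans (mul_le_mul_of_nonneg_left ?_ hD)
      refine (cc_pw p hτ₁ j k).trans ?_
      have h3 : ((p : ℕ) : ℝ) ^ ((j : ℝ) * (τ₁ - s.re)) ≤ 1 :=
        Real.rpow_le_one_of_one_le_of_nonpos hp1
          (mul_nonpos_of_nonneg_of_nonpos (Nat.cast_nonneg _) hτ₁.le)
      have h4 : ((p : ℕ) : ℝ) ^ ((j : ℝ) * (τ₁ - s.re)) * ((2 : ℝ) ^ (τ₁ - s.re)) ^ k ≤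
          ((2 : ℝ) ^ (τ₁ - s.re)) ^ k := mul_le_of_le_one_left (by positivity) h3
      have h5 : 0 ≤ ((p : ℕ) : ℝ) ^ ((j : ℝ) * (τ₂ - s.re)) * ((2 : ℝ) ^ (τ₂ - s.re)) ^ k := by
        positivity
      linarith
    · rw [if_neg hpP, zero_mul, zero_add]
      exact (cc_term hn (h2 p k (not_lt.1 hpP))).trans
        (mul_le_mul_of_nonneg_left (cc_pw p hτ₂ j k) hD)
  · intro n hn
    have h3 : f n = 0 := by
      refine h0 n fun p k hpk => hn ⟨(p, k), hpk⟩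
    rcases eq_or_ne n 0 with rfl | hn0
    · exact term_zero _ _
    · rw [term_of_ne_zero hn0, h3, zero_div]

theorem high_summable {Λ : ℕ → ℂ} (P : ℕ) {C θ : ℝ} (hθ : θ < 1 / 2)
    (h1 : ∀ n, ‖Λ n‖ ≤ C * (n : ℝ) ^ θ)
    (h2 : ∀ p : ℕ, p.Prime → P ≤ p → ∀ k : ℕ, 3 ≤ k →
      ‖Λ (p ^ k)‖ ≤ C * ((p ^ k : ℕ) : ℝ) ^ (1 / 12 : ℝ)) :
    LSeriesSummable (high Λ) (1 / 2) := by
  have hre : ((1 / 2 : ℂ)).re = 1 / 2 := by norm_num
  have hle : ∀ n, ‖high Λ n‖ ≤ ‖Λ n‖ := by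
    intro n
    unfold high
    split_ifs
    · exact le_rfl
    · simp
  have hC : 0 ≤ C := by
    have := h1 1
    simp only [Nat.cast_one, Real.one_rpow, mul_one] at this
    exact (norm_nonneg _).trans this
  refine cc_main (f := high Λ) (s := 1 / 2) 3 (by norm_num) (fun n hn => ?_) P (D := C)
    (τ₁ := θ) (τ₂ := 1 / 12) hC (by rw [hre]; linarith) (by rw [hre]; norm_num)
    (by rw [hre]; norm_num) (fun p k _ => (hle _).trans (h1 _))
    (fun p k hp => (hle _).trans (h2 p p.2 hp (k + 3) (by omega)))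
  unfold high
  rw [if_neg]
  rintro ⟨p, k, hp, hk, hpk⟩
  refine hn ⟨p, hp⟩ (k - 3) ?_
  have : k - 3 + 3 = k := by omega
  rw [this]
  exact hpk

theorem low_summable {Λ : ℕ → ℂ} (h0 : ∀ n, ¬ IsPrimePow n → Λ n = 0) {C θ : ℝ} (hθ : θ < 1 / 2)
    (h1 : ∀ n, ‖Λ n‖ ≤ C * (n : ℝ) ^ θ)
    (h2 : ∀ ε : ℝ, 0 < ε → ∃ P : ℕ, ∀ p : ℕ, p.Prime → P ≤ p → ∀ k : ℕ, 1 ≤ k →
      ‖Λ (p ^ k)‖ ≤ ((p ^ k : ℕ) : ℝ) ^ ε) {s : ℂ} (hs : 1 < s.re) :
    LSeriesSummable Λ s := by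
  obtain ⟨P, hP⟩ := h2 ((s.re - 1) / 2) (by linarith)
  refine cc_main (f := Λ) (s := s) 1 (by norm_num) (fun n hn => ?_) P (D := max C 1)
    (τ₁ := θ) (τ₂ := (s.re - 1) / 2) (le_trans zero_le_one (le_max_right _ _)) (by linarith)
    (by linarith) (by push_cast; linarith)
    (fun p k _ => (h1 _).trans (mul_le_mul_of_nonneg_right (le_max_left _ _) (by positivity)))
    (fun p k hp => (hP p p.2 hp (k + 1) (by omega)).trans ?_)
  · refine h0 n fun hpp => ?_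
    obtain ⟨p, k, hp, hk, hpk⟩ := hpp
    refine hn ⟨p, Nat.prime_iff.2 hp⟩ (k - 1) ?_
    have : k - 1 + 1 = k := by omega
    rw [this]
    exact hpk
  · exact le_mul_of_one_le_left (by positivity) (le_max_right _ _)

end Pool.Agent.Selb
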