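import Pool.Agent.Selb.CoefB
import Pool.Agent.Selb.CoefC

/-!
# Selb/CoefD: consequences for the Selberg class and for Dirichlet characters

* `Arith.summable_a`: `h.ram` with `ε = (re s - 1)/2` (`LSeriesSummable_of_le_const_mul_rpow`).
* `Arith.summable_b`: `low_summable` with `h.supp`, `h.bd`, `h.small`.
* `Arith.summable_L`: `low_summable` for `Λ n = b n * log n`: `log n ≤ C_η n ^ η` for every `η > 0`
  (`Real.log_le_rpow_div`), so the bounds hold with slightly larger exponents (for `h2` with `ε`: use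
  `h.small (ε/2)`: `‖b (p^k)‖ log (p^k) ≤ n^(ε/2) * (4/ε) n ^ (ε/4) ≤ n ^ ε` once `n ≥ p ≥ P` is large).
* `Arith.high_L`: `high_summable` with `θ' = (θ + 1/2)/2` (`θ` from `h.bd`; if `θ < 0` first replace it
  by `max θ 0`) and `h.small (1/24)`, `log n ≤ 24 n ^ (1/24)`.
* `high_log`: `high_summable` with `θ = 1/4`, `P = 0`: `log n ≤ 12 n ^ (1/12)`, `log n ≤ 4 n ^ (1/4)`.
-/

set_option autoImplicit false

open Complex Metric Filter Topology LSeries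

namespace Pool.Agent.Selb

variable {a b : ℕ → ℂ}

private theorem coefD_log {η : ℝ} (hη : 0 < η) (n : ℕ) :
    ‖(Real.log n : ℂ)‖ ≤ (n : ℝ) ^ η / η := by
  rw [Complex.norm_real, Real.norm_eq_abs, abs_of_nonneg (Real.log_natCast_nonneg n)]
  exact Real.log_le_rpow_div (Nat.cast_nonneg n) hη

private theorem coefD_bd (h : Arith a b) : ∃ θ : ℝ, θ < 1 / 2 ∧ ∃ C : ℝ, 0 ≤ C ∧ ∀ n : ℕ,
    ‖b n * (Real.log n : ℂ)‖ ≤ C * (n : ℝ) ^ θ := by
  obtain ⟨θ, hθ, C, hC⟩ := h.bd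
  have hC0 : 0 ≤ C := by
    have h1 := hC 1
    simp only [Nat.cast_one, Real.one_rpow, mul_one] at h1
    exact (norm_nonneg _).trans h1
  have hη : 0 < (1 / 2 - θ) / 2 := by linarith
  have hC1 : 0 ≤ C * ((1 / 2 - θ) / 2)⁻¹ := mul_nonneg hC0 (inv_nonneg.2 hη.le)
  refine ⟨θ + (1 / 2 - θ) / 2, by linarith, C * ((1 / 2 - θ) / 2)⁻¹, hC1, fun n => ?_⟩
  rcases Nat.eq_zero_or_pos n with h0 | h0
  · subst h0
    have h1 : b 0 = 0 := h.supp 0 (fun h2 => h2.ne_zero rfl)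
    rw [h1, zero_mul, norm_zero]
    exact mul_nonneg hC1 (Real.rpow_nonneg (Nat.cast_nonneg _) _)
  · have hn : (0 : ℝ) < n := by exact_mod_cast h0
    rw [norm_mul]
    calc ‖b n‖ * ‖(Real.log n : ℂ)‖
        ≤ (C * (n : ℝ) ^ θ) * ((n : ℝ) ^ ((1 / 2 - θ) / 2) / ((1 / 2 - θ) / 2)) :=
          mul_le_mul (hC n) (coefD_log hη n) (norm_nonneg _) ((norm_nonneg _).trans (hC n))
      _ = C * ((1 / 2 - θ) / 2)⁻¹ * (n : ℝ) ^ (θ + (1 / 2 - θ) / 2) := by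
          rw [Real.rpow_add hn, div_eq_mul_inv]
          ring

theorem Arith.summable_a (h : Arith a b) {s : ℂ} (hs : 1 < s.re) : LSeriesSummable a s := by
  obtain ⟨C, hC⟩ := h.ram ((s.re - 1) / 2) (by linarith)
  refine LSeriesSummable_of_le_const_mul_rpow (x := (s.re - 1) / 2 + 1) (by linarith)
    ⟨C, fun n hn => ?_⟩
  rw [add_sub_cancel_right]
  exact hC n (Nat.one_le_iff_ne_zero.2 hn)

theorem Arith.summable_b (h : Arith a b) {s : ℂ} (hs : 1 < s.re) : LSeriesSummable b s := by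
  obtain ⟨θ, hθ, C, hC⟩ := h.bd
  exact low_summable h.supp hθ hC (fun ε hε => h.small hε) hs

theorem Arith.summable_L (h : Arith a b) {s : ℂ} (hs : 1 < s.re) :
    LSeriesSummable (fun n => b n * (Real.log n : ℂ)) s := by
  obtain ⟨θ, hθ, C, hC0, hC⟩ := coefD_bd h
  refine low_summable (fun n hn => by rw [h.supp n hn, zero_mul]) hθ hC (fun ε hε => ?_) hs
  obtain ⟨P, hP⟩ := h.small (ε := ε / 2) (by linarith)
  have h4 : 0 < ε / 4 := by linarith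
  refine ⟨max P ⌈(4 / ε) ^ (4 / ε)⌉₊, fun p hp hpP k hk => ?_⟩
  have h1 := hP p hp ((le_max_left _ _).trans hpP) k hk
  have hn0 : (0 : ℝ) < ((p ^ k : ℕ) : ℝ) := by exact_mod_cast pow_pos hp.pos k
  have h2 : 4 / ε ≤ ((p ^ k : ℕ) : ℝ) ^ (ε / 4) := by
    have h5 : (4 / ε) ^ (4 / ε) ≤ ((p ^ k : ℕ) : ℝ) := by
      refine (Nat.le_ceil _).trans ?_
      have h6 : ⌈(4 / ε) ^ (4 / ε)⌉₊ ≤ p ^ k :=
        ((le_max_right _ _).trans hpP).trans (Nat.le_self_pow (by omega) p)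
      exact_mod_cast h6
    have h6 : 0 < 4 / ε := by positivity
    calc 4 / ε = ((4 / ε) ^ (4 / ε)) ^ (ε / 4) := by
          rw [← Real.rpow_mul h6.le]
          have : 4 / ε * (ε / 4) = 1 := by field_simp
          rw [this, Real.rpow_one]
      _ ≤ _ := Real.rpow_le_rpow (Real.rpow_nonneg h6.le _) h5 h4.le
  rw [norm_mul]
  calc ‖b (p ^ k)‖ * ‖(Real.log ((p ^ k : ℕ) : ℝ) : ℂ)‖
      ≤ ((p ^ k : ℕ) : ℝ) ^ (ε / 2) * (((p ^ k : ℕ) : ℝ) ^ (ε / 4) / (ε / 4)) :=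
        mul_le_mul h1 (coefD_log h4 _) (norm_nonneg _) (Real.rpow_nonneg hn0.le _)
    _ = ((p ^ k : ℕ) : ℝ) ^ (ε / 2) * ((p ^ k : ℕ) : ℝ) ^ (ε / 4) * (4 / ε) := by
        field_simp
    _ ≤ ((p ^ k : ℕ) : ℝ) ^ (ε / 2) * ((p ^ k : ℕ) : ℝ) ^ (ε / 4) * ((p ^ k : ℕ) : ℝ) ^ (ε / 4) :=
        mul_le_mul_of_nonneg_left h2 (by positivity)
    _ = ((p ^ k : ℕ) : ℝ) ^ ε := by
        rw [← Real.rpow_add hn0, ← Real.rpow_add hn0]
        congr 1
        ring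

theorem Arith.high_L (h : Arith a b) :
    LSeriesSummable (high (fun n => b n * (Real.log n : ℂ))) (1 / 2) := by
  obtain ⟨θ, hθ, C, hC0, hC⟩ := coefD_bd h
  obtain ⟨P, hP⟩ := h.small (ε := 1 / 24) (by norm_num)
  refine high_summable P (C := max C 24) hθ (fun n => (hC n).trans ?_) (fun p hp hpP k hk => ?_)
  · exact mul_le_mul_of_nonneg_right (le_max_left _ _) (Real.rpow_nonneg (Nat.cast_nonneg _) _)
  · have h1 := hP p hp hpP k (by omega)
    have hn0 : (0 : ℝ) < ((p ^ k : ℕ) : ℝ) := by exact_mod_cast pow_pos hp.pos k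
    rw [norm_mul]
    calc ‖b (p ^ k)‖ * ‖(Real.log ((p ^ k : ℕ) : ℝ) : ℂ)‖
        ≤ ((p ^ k : ℕ) : ℝ) ^ (1 / 24 : ℝ) * (((p ^ k : ℕ) : ℝ) ^ (1 / 24 : ℝ) / (1 / 24)) :=
          mul_le_mul h1 (coefD_log (by norm_num) _) (norm_nonneg _) (Real.rpow_nonneg hn0.le _)
      _ = 24 * ((p ^ k : ℕ) : ℝ) ^ (1 / 12 : ℝ) := by
          have : (1 / 12 : ℝ) = 1 / 24 + 1 / 24 := by norm_num
          rw [this, Real.rpow_add hn0]
          ring
      _ ≤ _ := mul_le_mul_of_nonneg_right (le_max_right _ _) (Real.rpow_nonneg hn0.le _)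

theorem high_log {Λ : ℕ → ℂ} {C : ℝ} (h : ∀ n, ‖Λ n‖ ≤ C * Real.log n) :
    LSeriesSummable (high Λ) (1 / 2) := by
  have hC0 : 0 ≤ C := by
    have h1 := (norm_nonneg _).trans (h 2)
    by_contra h2
    have h3 : C * Real.log ((2 : ℕ) : ℝ) < 0 :=
      mul_neg_of_neg_of_pos (not_le.1 h2) (Real.log_pos (by norm_num))
    linarith
  have key : ∀ (η : ℝ), 0 < η → ∀ n : ℕ, ‖Λ n‖ ≤ C / η * (n : ℝ) ^ η := fun η hη n => by
    refine (h n).trans ?_
    calc C * Real.log n ≤ C * ((n : ℝ) ^ η / η) :=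
          mul_le_mul_of_nonneg_left (Real.log_le_rpow_div (Nat.cast_nonneg n) hη) hC0
      _ = _ := by ring
  refine high_summable 0 (C := 12 * C) (θ := 1 / 4) (by norm_num) (fun n => ?_)
    (fun p _ _ k _ => ?_)
  · refine (key (1 / 4) (by norm_num) n).trans ?_
    apply mul_le_mul_of_nonneg_right _ (Real.rpow_nonneg (Nat.cast_nonneg _) _)
    linarith
  · refine (key (1 / 12) (by norm_num) (p ^ k)).trans (le_of_eq ?_)
    ring

end Pool.Agent.Selb
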