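import Pool.Agent.Selb.Sdef
import Pool.Agent.ZX.Conj

/-!
# Selb/ConjL: complex conjugation and L-functions

For `1 < re s`: `LSeries` of the conjugated coefficients at `conj s` is the conjugate of the
`LSeries` at `s` (`Complex.conj_tsum`-like lemma, `conj (n ^ s) = n ^ (conj s)` as `n : ℕ`: `Complex.natCast_cpow`..,
`Complex.conj_cpow`), and `χ⁻¹ n = conj (χ n)` (`MulChar.star_apply`/`DirichletCharacter...inv`: values have
absolute value `1` on units). The functions `s ↦ conj (L (conj s, χ))` and `s ↦ L (s, χ⁻¹)` are entire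
(`DifferentiableAt.conj_conj`, `differentiable_LFunction`) and agree for `re s > 1`, hence everywhere
(`AnalyticOnNhd.eqOn_of_preconnected_of_eventuallyEq`).
Completed: for `re s > 0`, `completedLFunction χ s = gammaFactor χ s * LFunction χ s`
(`LFunction_eq_completed_div_gammaFactor`, `Gammaℝ_ne_zero_of_re_pos`), `gammaFactor χ⁻¹ (conj s) =
conj (gammaFactor χ s)` (`Complex.Gamma_conj`, same parity), then again the identity theorem
(`differentiable_completedLFunction`).
`completedZeta_conj`: same with `completedRiemannZeta₀` entire: for `re s > 1`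
`completedRiemannZeta s = π ^ (-s/2) Γ (s/2) ζ s` (`completedZeta_eq_tsum_of_one_lt_re`), and
`completedRiemannZeta s = completedRiemannZeta₀ s - 1 / s - 1 / (1 - s)` (`completedRiemannZeta_eq`).
-/

set_option autoImplicit false

open Complex Metric Filter Topology LSeries

namespace Pool.Agent.Selb

theorem LFunction_conj {N : ℕ} [NeZero N] {χ : DirichletCharacter ℂ N} (hχ : χ ≠ 1) (s : ℂ) :
    χ⁻¹.LFunction (starRingEnd ℂ s) = starRingEnd ℂ (χ.LFunction s) := by
  have hχ' : χ⁻¹ ≠ 1 := fun h => hχ (inv_eq_one.1 h)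
  have key : (fun s => starRingEnd ℂ (χ⁻¹.LFunction (starRingEnd ℂ s))) = χ.LFunction := by
    refine ZX.eq_of_re_gt_one ?_ (DirichletCharacter.differentiable_LFunction hχ) ?_
    · intro z
      have := (DirichletCharacter.differentiable_LFunction hχ' (starRingEnd ℂ z)).conj_conj
      rw [conj_conj] at this
      exact this
    · intro s hs
      show starRingEnd ℂ (χ⁻¹.LFunction (starRingEnd ℂ s)) = χ.LFunction s
      rw [ZX.LFunction_conj_of_one_lt_re χ hs, conj_conj]
  have := congrFun key s
  rw [← this]
  simp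

theorem completedLFunction_conj {N : ℕ} [NeZero N] {χ : DirichletCharacter ℂ N} (hχ : χ ≠ 1)
    (s : ℂ) :
    χ⁻¹.completedLFunction (starRingEnd ℂ s) = starRingEnd ℂ (χ.completedLFunction s) :=
  ZX.completed_conj hχ s

theorem completedZeta0_conj (s : ℂ) :
    completedRiemannZeta₀ (starRingEnd ℂ s) = starRingEnd ℂ (completedRiemannZeta₀ s) :=
  ZX.zeta0_conj s

theorem completedZeta_conj (s : ℂ) :
    completedRiemannZeta (starRingEnd ℂ s) = starRingEnd ℂ (completedRiemannZeta s) := by
  rw [completedRiemannZeta_eq, completedRiemannZeta_eq, completedZeta0_conj]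
  simp

end Pool.Agent.Selb
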