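import Pool.Agent.Selb.Had3
import Pool.Agent.Selb.Bessel

set_option autoImplicit false

open Complex Metric Filter Topology LSeries

namespace Pool.Agent.Selb

/-- Analytic data attached to an `L`-function: `Ψ` is the completed function,
`Λ` the coefficients of `-F'/F`. -/
structure Good (Ψ : ℂ → ℂ) (Λ : ℕ → ℂ) (m : ℂ) (E : ℂ → ℂ) : Prop where
  diff : Differentiable ℂ Ψ
  gro : Ord32 Ψ
  symm : ∀ z, ord Ψ (1 - (starRingEnd ℂ) z) = ord Ψ z
  nz : ∀ s : ℂ, 1 < s.re → Ψ s ≠ 0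
  summ : ∀ s : ℂ, 1 < s.re → LSeriesSummable Λ s
  log : ∀ s : ℂ, 1 < s.re → logDeriv Ψ s = m / (s - 1) + E s - LSeries Λ s
  anE : DifferentiableOn ℂ E {s | 0 < s.re}
  decay : Tendsto (fun t : ℝ => deriv E (2 + t * I)) atTop (𝓝 0)

lemma Good.ne {Ψ : ℂ → ℂ} {Λ : ℕ → ℂ} {m : ℂ} {E : ℂ → ℂ} (h : Good Ψ Λ m E) :
    ∃ z, Ψ z ≠ 0 := ⟨2, h.nz 2 (by norm_num)⟩

lemma residue_logDeriv {f : ℂ → ℂ} (hf : Differentiable ℂ f) (hne : ∃ z, f z ≠ 0) (z : ℂ) :
    Tendsto (fun w => (w - z) * logDeriv f w) (𝓝[≠] z) (𝓝 (ord f z : ℂ)) ∧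
      ∀ᶠ w in 𝓝[≠] z, f w ≠ 0 := by
  obtain ⟨g, hg, hgz, hfg⟩ := factor_one hf hne z
  have hgn : ∀ᶠ w in 𝓝 z, g w ≠ 0 := hg.continuous.continuousAt.eventually_ne hgz
  have h1 : ∀ᶠ w in 𝓝[≠] z, f w ≠ 0 ∧
      (w - z) * logDeriv f w = (ord f z : ℂ) + (w - z) * logDeriv g w := by
    filter_upwards [nhdsWithin_le_nhds hgn, self_mem_nhdsWithin] with w hw hwz
    have hwz' : w - z ≠ 0 := sub_ne_zero.2 hwz
    refine ⟨by rw [hfg]; exact mul_ne_zero (pow_ne_zero _ hwz') hw, ?_⟩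
    have hfe : f = fun w => (w - z) ^ ord f z * g w := funext hfg
    have e : logDeriv f w = (ord f z : ℂ) * (w - z)⁻¹ + logDeriv g w := by
      conv_lhs => rw [hfe]
      rw [logDeriv_mul (f := fun w => (w - z) ^ ord f z) w (pow_ne_zero _ hwz') hw
        (by fun_prop) (hg w)]
      congr 1
      rw [logDeriv_fun_pow (by fun_prop), logDeriv_apply]
      simp
    rw [e, mul_add]
    congr 1
    field_simp
  refine ⟨?_, h1.mono fun w h => h.1⟩
  have h2 : Tendsto (fun w => (ord f z : ℂ) + (w - z) * logDeriv g w) (𝓝 z)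
      (𝓝 ((ord f z : ℂ) + (z - z) * logDeriv g z)) := by
    have hc : ContinuousAt (logDeriv g) z := by
      have : ContinuousAt (fun w => deriv g w / g w) z :=
        (hg.deriv z).continuousAt.div (hg z).continuousAt hgz
      exact this
    have hs : ContinuousAt (fun w : ℂ => w - z) z := by fun_prop
    exact (tendsto_const_nhds.add (hs.mul hc).tendsto)
  rw [sub_self, zero_mul, add_zero] at h2
  exact (h2.mono_left nhdsWithin_le_nhds).congr' (h1.mono fun w h => h.2.symm)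

section

variable {ι : Type*} [Fintype ι] {Ψ : ι → ℂ → ℂ} {Λ : ι → ℕ → ℂ} {m : ι → ℂ} {E : ι → ℂ → ℂ}

/-- combined coefficients -/
noncomputable def comb (c : ι → ℂ) (Λ : ι → ℕ → ℂ) : ℕ → ℂ := fun n => ∑ i, c i * Λ i n

/-- combined multiplicity -/
noncomputable def mult (c : ι → ℂ) (Ψ : ι → ℂ → ℂ) (z : ℂ) : ℂ := ∑ i, c i * (ord (Ψ i) z : ℂ)

lemma isOpen_half (x : ℝ) : IsOpen {s : ℂ | x < s.re} :=
  isOpen_lt continuous_const Complex.continuous_re

lemma comb_LSeries (hG : ∀ i, Good (Ψ i) (Λ i) (m i) (E i)) (c : ι → ℂ) {s : ℂ} (hs : 1 < s.re) :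
    LSeries (comb c Λ) s = ∑ i, c i * LSeries (Λ i) s := by
  have h1 : comb c Λ = ∑ i, c i • Λ i := by
    funext n
    simp [comb, Finset.sum_apply]
  rw [h1]
  rw [LSeries_sum (fun i _ => ((hG i).summ s hs).smul (c i))]
  refine Finset.sum_congr rfl (fun i _ => ?_)
  rw [LSeries_smul]

lemma comb_diff {c : ι → ℂ} (hS : ∀ s : ℂ, 1 / 2 < s.re → LSeriesSummable (comb c Λ) s) :
    DifferentiableOn ℂ (LSeries (comb c Λ)) {s | (1 / 2 : ℝ) < s.re} := by
  have habs : abscissaOfAbsConv (comb c Λ) ≤ ((1 / 2 : ℝ) : EReal) := by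
    refine abscissaOfAbsConv_le_of_forall_lt_LSeriesSummable (fun y hy => ?_)
    exact hS y (by simpa using hy)
  refine (LSeries_differentiableOn (comb c Λ)).mono (fun s hs => ?_)
  exact habs.trans_lt (by exact_mod_cast hs)

lemma key_identity (hG : ∀ i, Good (Ψ i) (Λ i) (m i) (E i)) (c : ι → ℂ)
    (hS : ∀ s : ℂ, 1 / 2 < s.re → LSeriesSummable (comb c Λ) s) {s : ℂ}
    (hs : 1 / 2 < s.re) (hs1 : s ≠ 1) (hnz : ∀ i, Ψ i s ≠ 0) :
    ∑ i, c i * logDeriv (Ψ i) s =
      (∑ i, c i * m i) / (s - 1) + ∑ i, c i * E i s - LSeries (comb c Λ) s := by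
  classical
  set U : Set ℂ := {s | (1 / 2 : ℝ) < s.re} with hU
  have hUo : IsOpen U := isOpen_half _
  set P : ℂ → ℂ := fun w => ∏ j, Ψ j w with hP
  have hPd : Differentiable ℂ P := by
    have : ∀ j ∈ (Finset.univ : Finset ι), Differentiable ℂ (Ψ j) := fun j _ => (hG j).diff
    exact Differentiable.fun_finsetProd this
  set Q : ι → ℂ → ℂ := fun i w => ∏ j ∈ Finset.univ.erase i, Ψ j w with hQ
  have hQd : ∀ i, Differentiable ℂ (Q i) := fun i => by
    have : ∀ j ∈ (Finset.univ.erase i : Finset ι), Differentiable ℂ (Ψ j) :=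
      fun j _ => (hG j).diff
    exact Differentiable.fun_finsetProd this
  set F1 : ℂ → ℂ := fun w => (w - 1) * ∑ i, c i * (deriv (Ψ i) w * Q i w) with hF1
  set F2 : ℂ → ℂ := fun w => ((∑ i, c i * m i) +
    (w - 1) * (∑ i, c i * E i w - LSeries (comb c Λ) w)) * P w with hF2
  have hF1d : DifferentiableOn ℂ F1 U := by
    have h1 : Differentiable ℂ (fun w => ∑ i, c i * (deriv (Ψ i) w * Q i w)) := by
      refine Differentiable.fun_sum (fun i _ => ?_)
      exact (((hG i).diff.deriv).mul (hQd i)).const_mul _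
    have h2 : Differentiable ℂ (fun w : ℂ => w - 1) := by fun_prop
    exact (h2.mul h1).differentiableOn
  have hF2d : DifferentiableOn ℂ F2 U := by
    have h1 : DifferentiableOn ℂ (fun w => ∑ i, c i * E i w) U := by
      refine DifferentiableOn.fun_sum (fun i _ => ?_)
      refine ((hG i).anE.mono ?_).const_mul _
      intro w hw
      have : (1 / 2 : ℝ) < w.re := hw
      show 0 < w.re
      linarith
    have h2 : DifferentiableOn ℂ (fun w : ℂ => w - 1) U := by fun_prop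
    have h3 := comb_diff hS
    exact ((differentiableOn_const _).add (h2.mul (h1.sub h3))).mul hPd.differentiableOn
  have hgen : ∀ w : ℂ, (∀ i, Ψ i w ≠ 0) →
      ∑ i, c i * (deriv (Ψ i) w * Q i w) = (∑ i, c i * logDeriv (Ψ i) w) * P w := by
    intro w hw
    rw [Finset.sum_mul]
    refine Finset.sum_congr rfl (fun i _ => ?_)
    have h1 : P w = Ψ i w * Q i w := by
      rw [hP, hQ]
      exact (Finset.mul_prod_erase Finset.univ (fun j => Ψ j w) (Finset.mem_univ i)).symm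
    rw [h1, logDeriv_apply]
    have := hw i
    field_simp
  have heq1 : ∀ w : ℂ, 1 < w.re → F1 w = F2 w := by
    intro w hw
    have hw1 : w - 1 ≠ 0 := by
      intro h
      have := congrArg Complex.re h
      simp at this
      linarith
    have hnw : ∀ i, Ψ i w ≠ 0 := fun i => (hG i).nz w hw
    simp only [hF1, hF2]
    rw [hgen w hnw, comb_LSeries hG c hw]
    have h2 : ∑ i, c i * logDeriv (Ψ i) w = (∑ i, c i * m i) / (w - 1) + ∑ i, c i * E i w -
        ∑ i, c i * LSeries (Λ i) w := by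
      rw [Finset.sum_div, ← Finset.sum_add_distrib, ← Finset.sum_sub_distrib]
      refine Finset.sum_congr rfl (fun i _ => ?_)
      rw [(hG i).log w hw]
      ring
    rw [h2]
    field_simp
    ring
  have heqOn : Set.EqOn F1 F2 U := by
    have hconv : Convex ℝ U := by
      rw [hU]
      exact convex_halfSpace_re_gt (1 / 2)
    refine AnalyticOnNhd.eqOn_of_preconnected_of_eventuallyEq
      (hF1d.analyticOnNhd hUo) (hF2d.analyticOnNhd hUo) hconv.isPreconnected
      (z₀ := 2) (by simp [hU]; norm_num) ?_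
    filter_upwards [(isOpen_half 1).mem_nhds (show (1 : ℝ) < (2 : ℂ).re by norm_num)] with w hw
    exact heq1 w hw
  have h3 := heqOn hs
  simp only [hF1, hF2] at h3
  rw [hgen s hnz] at h3
  have hPs : P s ≠ 0 := Finset.prod_ne_zero_iff.2 (fun i _ => hnz i)
  have hs1' : s - 1 ≠ 0 := sub_ne_zero.2 hs1
  rw [← mul_assoc] at h3
  have h4 := mul_right_cancel₀ hPs h3
  refine mul_left_cancel₀ hs1' (h4.trans ?_)
  field_simp
  ring

/-- near any point all the completed functions are nonzero, and the combined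
logarithmic derivative has residue `mult`. -/
lemma comb_residue (hG : ∀ i, Good (Ψ i) (Λ i) (m i) (E i)) (c : ι → ℂ) (z : ℂ) :
    Tendsto (fun w => (w - z) * ∑ i, c i * logDeriv (Ψ i) w) (𝓝[≠] z) (𝓝 (mult c Ψ z)) ∧
      ∀ᶠ w in 𝓝[≠] z, ∀ i, Ψ i w ≠ 0 := by
  constructor
  · have h1 : Tendsto (fun w => ∑ i, c i * ((w - z) * logDeriv (Ψ i) w)) (𝓝[≠] z)
        (𝓝 (∑ i, c i * (ord (Ψ i) z : ℂ))) :=
      tendsto_finsetSum _ (fun i _ =>
        (residue_logDeriv (hG i).diff (hG i).ne z).1.const_mul (c i))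
    refine h1.congr (fun w => ?_)
    rw [Finset.mul_sum]
    exact Finset.sum_congr rfl (fun i _ => by ring)
  · exact eventually_all.2 (fun i => (residue_logDeriv (hG i).diff (hG i).ne z).2)

lemma mult_eq_zero_right (hG : ∀ i, Good (Ψ i) (Λ i) (m i) (E i)) (c : ι → ℂ)
    (hS : ∀ s : ℂ, 1 / 2 < s.re → LSeriesSummable (comb c Λ) s) {z : ℂ}
    (hz : 1 / 2 < z.re) (hz1 : z ≠ 1) : mult c Ψ z = 0 := by
  obtain ⟨h1, h2⟩ := comb_residue hG c z
  have hE : ContinuousAt (fun w => (∑ i, c i * m i) / (w - 1) + ∑ i, c i * E i w -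
      LSeries (comb c Λ) w) z := by
    refine ContinuousAt.sub (ContinuousAt.add ?_ ?_) ?_
    · exact continuousAt_const.div (by fun_prop) (sub_ne_zero.2 hz1)
    · refine tendsto_finsetSum _ (fun i _ => ?_)
      refine Tendsto.const_mul _ ?_
      exact ((hG i).anE.differentiableAt ((isOpen_half 0).mem_nhds
        (show (0 : ℝ) < z.re by linarith))).continuousAt
    · exact ((comb_diff hS).differentiableAt ((isOpen_half _).mem_nhds hz)).continuousAt
  have h3 : Tendsto (fun w => (w - z) * ((∑ i, c i * m i) / (w - 1) + ∑ i, c i * E i w -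
      LSeries (comb c Λ) w)) (𝓝[≠] z) (𝓝 0) := by
    have h4 : ContinuousAt (fun w : ℂ => w - z) z := by fun_prop
    have h5 := h4.tendsto.mul hE.tendsto
    rw [sub_self, zero_mul] at h5
    exact h5.mono_left nhdsWithin_le_nhds
  have h6 : ∀ᶠ w in 𝓝[≠] z, (w - z) * ((∑ i, c i * m i) / (w - 1) + ∑ i, c i * E i w -
      LSeries (comb c Λ) w) = (w - z) * ∑ i, c i * logDeriv (Ψ i) w := by
    have ha : ∀ᶠ w in 𝓝[≠] z, (1 / 2 : ℝ) < w.re :=
      nhdsWithin_le_nhds ((isOpen_half _).mem_nhds hz)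
    have hb : ∀ᶠ w in 𝓝[≠] z, w ≠ 1 := nhdsWithin_le_nhds (isOpen_ne.mem_nhds hz1)
    filter_upwards [ha, hb, h2] with w hw hw1 hw2
    rw [key_identity hG c hS hw hw1 hw2]
  exact tendsto_nhds_unique h1 (h3.congr' h6)

lemma mult_symm (hG : ∀ i, Good (Ψ i) (Λ i) (m i) (E i)) (c : ι → ℂ) (z : ℂ) :
    mult c Ψ (1 - (starRingEnd ℂ) z) = mult c Ψ z := by
  unfold mult
  exact Finset.sum_congr rfl (fun i _ => by rw [(hG i).symm z])

lemma mult_eq_zero_off (hG : ∀ i, Good (Ψ i) (Λ i) (m i) (E i)) (c : ι → ℂ)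
    (hS : ∀ s : ℂ, 1 / 2 < s.re → LSeriesSummable (comb c Λ) s) {z : ℂ}
    (hz : z.re ≠ 1 / 2) (hz0 : z ≠ 0) (hz1 : z ≠ 1) : mult c Ψ z = 0 := by
  rcases lt_or_gt_of_ne hz with h | h
  · rw [← mult_symm hG c z]
    refine mult_eq_zero_right hG c hS ?_ ?_
    · simp; linarith
    · intro h1
      apply hz0
      have h2 : (starRingEnd ℂ) z = 0 := by linear_combination -h1
      simpa using h2
  · exact mult_eq_zero_right hG c hS h hz1

lemma mult_line (hG : ∀ i, Good (Ψ i) (Λ i) (m i) (E i)) (c : ι → ℂ)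
    (hS : ∀ s : ℂ, 1 / 2 < s.re → LSeriesSummable (comb c Λ) s) (γ : ℝ) :
    Tendsto (fun δ : ℝ => (δ : ℂ) * LSeries (comb c Λ) (1 / 2 + δ + γ * I)) (𝓝[>] 0)
      (𝓝 (-mult c Ψ (1 / 2 + γ * I))) := by
  set z : ℂ := 1 / 2 + γ * I with hz
  obtain ⟨h1, h2⟩ := comb_residue hG c z
  have hzre : z.re = 1 / 2 := by simp [hz]
  have hz1 : z ≠ 1 := by
    intro h
    have := congrArg Complex.re h
    rw [hzre] at this
    norm_num at this
  have hpath : Tendsto (fun δ : ℝ => z + (δ : ℂ)) (𝓝[>] 0) (𝓝[≠] z) := by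
    refine tendsto_nhdsWithin_iff.2 ⟨?_, ?_⟩
    · have : Continuous (fun δ : ℝ => z + (δ : ℂ)) := by fun_prop
      have h := this.tendsto 0
      simp only [ofReal_zero, add_zero] at h
      exact h.mono_left nhdsWithin_le_nhds
    · filter_upwards [self_mem_nhdsWithin] with δ hδ
      have : (δ : ℂ) ≠ 0 := by exact_mod_cast (ne_of_gt hδ)
      simpa using this
  have h3 := h1.comp hpath
  have h4 := hpath.eventually h2
  have hE : ContinuousAt (fun w => (∑ i, c i * m i) / (w - 1) + ∑ i, c i * E i w) z := by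
    refine ContinuousAt.add ?_ ?_
    · exact continuousAt_const.div (by fun_prop) (sub_ne_zero.2 hz1)
    · refine tendsto_finsetSum _ (fun i _ => ?_)
      refine Tendsto.const_mul _ ?_
      exact ((hG i).anE.differentiableAt ((isOpen_half 0).mem_nhds
        (show (0 : ℝ) < z.re by rw [hzre]; norm_num))).continuousAt
  have h5 : Tendsto (fun δ : ℝ => (δ : ℂ) * ((∑ i, c i * m i) / (z + δ - 1) +
      ∑ i, c i * E i (z + δ))) (𝓝[>] 0) (𝓝 0) := by
    have ha : Tendsto (fun δ : ℝ => (δ : ℂ)) (𝓝[>] 0) (𝓝 0) := by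
      have : Continuous (fun δ : ℝ => (δ : ℂ)) := by fun_prop
      have h := this.tendsto 0
      simp only [ofReal_zero] at h
      exact h.mono_left nhdsWithin_le_nhds
    have hb := (hE.tendsto.mono_left (nhdsWithin_le_nhds (s := {z}ᶜ))).comp hpath
    have hc := ha.mul hb
    rw [zero_mul] at hc
    exact hc
  have h6 := h5.sub h3
  rw [zero_sub] at h6
  refine h6.congr' ?_
  filter_upwards [h4, self_mem_nhdsWithin,
    nhdsWithin_le_nhds (Iio_mem_nhds (show (0 : ℝ) < 1 / 2 by norm_num))] with δ hδ1 hδ2 hδ3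
  have hδ : (0 : ℝ) < δ := hδ2
  have hδ4 : δ < 1 / 2 := hδ3
  have hre : (1 / 2 : ℝ) < (z + δ).re := by simp [hzre]; exact hδ
  have hne1 : z + (δ : ℂ) ≠ 1 := by
    intro h
    have := congrArg Complex.re h
    simp [hzre] at this
    linarith
  simp only [Function.comp]
  have hγ : (1 / 2 + (δ : ℂ) + γ * I) = z + δ := by rw [hz]; ring
  rw [hγ, key_identity hG c hS hre hne1 hδ1]
  ring

end

end Pool.Agent.Selb
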