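import Pool.Agent.Selb.Core

set_option autoImplicit false

open Complex Metric Filter Topology LSeries

namespace Pool.Agent.Selb

lemma LSeries_bound_half {W : ℕ → ℂ} (hW : LSeriesSummable W (1 / 2)) :
    ∃ C : ℝ, ∀ s : ℂ, 1 / 2 ≤ s.re → ‖LSeries W s‖ ≤ C := by
  refine ⟨∑' n, ‖term W (1 / 2) n‖, fun s hs => ?_⟩
  have hterm : ∀ n, ‖term W s n‖ ≤ ‖term W (1 / 2) n‖ := by
    intro n
    exact LSeries.norm_term_le_of_re_le_re W (by simpa using hs) n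
  have hsum : Summable (fun n => ‖term W s n‖) :=
    Summable.of_nonneg_of_le (fun _ => norm_nonneg _) hterm hW.norm
  exact (norm_tsum_le_tsum_norm hsum).trans (Summable.tsum_le_tsum hterm hsum hW.norm)

section

variable {ι : Type*} [Fintype ι] {Ψ : ι → ℂ → ℂ} {Λ : ι → ℕ → ℂ} {m : ι → ℂ} {E : ι → ℂ → ℂ}

/-- the combined Dirichlet series is a bounded prime part at scale `p^{-s-1/2}`, a bounded
prime-square part, and a part converging absolutely at `1/2`. -/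
def Split (f : ℕ → ℂ) (B : ℝ) : Prop :=
  ∃ u v W : ℕ → ℂ, (∀ n, ‖u n‖ ≤ B) ∧ (∀ n, ‖v n‖ ≤ B) ∧ LSeriesSummable W (1 / 2) ∧
    ∀ s : ℂ, 1 / 2 < s.re → LSeriesSummable f s ∧
      LSeries f s = LSeries (pr u) (s + 1 / 2) + LSeries (pr v) (2 * s) + LSeries W s

lemma line_dual (hG : ∀ i, Good (Ψ i) (Λ i) (m i) (E i)) (c : ι → ℂ) {B : ℝ} (hB : 0 ≤ B)
    (hsp : Split (comb c Λ) B) (S : Finset ℝ) (ξ : ℝ → ℂ) {r : ℝ} (hr : 0 < r) :
    ‖∑ γ ∈ S, ξ γ * mult c Ψ (1 / 2 + γ * I)‖ ≤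
      2 * B * ((∑ γ ∈ S, ‖ξ γ‖ ^ 2) / (2 * r) + r / 2) := by
  obtain ⟨u, v, W, hu, hv, hW, hdec⟩ := hsp
  obtain ⟨C, hC⟩ := LSeries_bound_half hW
  have hS : ∀ s : ℂ, 1 / 2 < s.re → LSeriesSummable (comb c Λ) s := fun s hs => (hdec s hs).1
  set K : ℝ := (∑ γ ∈ S, ‖ξ γ‖ ^ 2) / (2 * r) + r / 2 with hK
  -- limit of the combination
  have h1 : Tendsto (fun δ : ℝ => ‖∑ γ ∈ S, ξ γ * ((δ : ℂ) *
      LSeries (comb c Λ) (1 / 2 + δ + γ * I))‖) (𝓝[>] 0)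
      (𝓝 ‖∑ γ ∈ S, ξ γ * (-mult c Ψ (1 / 2 + γ * I))‖) := by
    refine Tendsto.norm ?_
    exact tendsto_finsetSum _ (fun γ _ => (mult_line hG c hS γ).const_mul _)
  have e0 : ‖∑ γ ∈ S, ξ γ * (-mult c Ψ (1 / 2 + γ * I))‖ =
      ‖∑ γ ∈ S, ξ γ * mult c Ψ (1 / 2 + γ * I)‖ := by
    rw [← norm_neg]
    congr 1
    rw [← Finset.sum_neg_distrib]
    exact Finset.sum_congr rfl (fun γ _ => by ring)
  rw [e0] at h1
  -- it is enough to prove the bound up to ε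
  refine le_of_forall_pos_le_add (fun ε hε => ?_)
  refine le_of_tendsto h1 ?_
  have hb1 := bessel_dual u hB hu S ξ hr (ε := ε / 4) (by positivity)
  set S2 : Finset ℝ := S.map ⟨fun γ => 2 * γ, fun a b h => by simpa using h⟩ with hS2
  have hb2 := bessel_dual v hB hv S2 (fun θ => ξ (θ / 2)) hr (ε := ε / 4) (by positivity)
  have hmul2 : Tendsto (fun δ : ℝ => 2 * δ) (𝓝[>] 0) (𝓝[>] 0) := by
    refine tendsto_nhdsWithin_iff.2 ⟨?_, ?_⟩
    · have : Continuous (fun δ : ℝ => 2 * δ) := by fun_prop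
      have h := this.tendsto 0
      simp only [mul_zero] at h
      exact h.mono_left nhdsWithin_le_nhds
    · filter_upwards [self_mem_nhdsWithin] with δ hδ
      have : (0 : ℝ) < δ := hδ
      show (0 : ℝ) < 2 * δ
      linarith
  have hb2' := hmul2.eventually hb2
  set G := ∑ γ ∈ S, ‖ξ γ‖ with hG'
  have hG0 : 0 ≤ G := Finset.sum_nonneg (fun _ _ => norm_nonneg _)
  have hsmall : ∀ᶠ δ : ℝ in 𝓝[>] 0, δ * (G * |C|) < ε / 4 := by
    have h : Tendsto (fun δ : ℝ => δ * (G * |C|)) (𝓝[>] 0) (𝓝 0) := by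
      have h0 : Tendsto (fun δ : ℝ => δ) (𝓝[>] 0) (𝓝 0) := tendsto_id.mono_left nhdsWithin_le_nhds
      simpa using h0.mul_const (G * |C|)
    exact h.eventually (Iio_mem_nhds (by positivity))
  filter_upwards [hb1, hb2', hsmall, self_mem_nhdsWithin] with δ h2 h3 h4 hδ
  have hδ' : 0 < δ := hδ
  have hsum2 : ∑ θ ∈ S2, ‖ξ (θ / 2)‖ ^ 2 = ∑ γ ∈ S, ‖ξ γ‖ ^ 2 := by
    rw [hS2, Finset.sum_map]
    refine Finset.sum_congr rfl (fun γ _ => ?_)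
    change ‖ξ ((2 * γ) / 2)‖ ^ 2 = _
    rw [show (2 * γ) / 2 = γ by ring]
  rw [hsum2, ← hK] at h3
  have e3 : ∑ θ ∈ S2, ξ (θ / 2) * (((2 * δ : ℝ) : ℂ) *
      LSeries (pr v) (1 + (2 * δ : ℝ) + θ * I)) =
      2 * ∑ γ ∈ S, ξ γ * ((δ : ℂ) * LSeries (pr v) (2 * (1 / 2 + δ + γ * I))) := by
    rw [hS2, Finset.sum_map, Finset.mul_sum]
    refine Finset.sum_congr rfl (fun γ _ => ?_)
    change ξ ((2 * γ) / 2) * (((2 * δ : ℝ) : ℂ) *
      LSeries (pr v) (1 + (2 * δ : ℝ) + ((2 * γ : ℝ) : ℂ) * I)) = _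
    rw [show (2 * γ) / 2 = γ by ring]
    have : (1 + ((2 * δ : ℝ) : ℂ) + ((2 * γ : ℝ) : ℂ) * I) = 2 * (1 / 2 + δ + γ * I) := by
      push_cast; ring
    rw [this]
    push_cast
    ring
  rw [e3, norm_mul] at h3
  have h3' : ‖∑ γ ∈ S, ξ γ * ((δ : ℂ) * LSeries (pr v) (2 * (1 / 2 + δ + γ * I)))‖ ≤
      B * K + ε / 4 := by
    have hn : ‖(2 : ℂ)‖ = 2 := by simp
    rw [hn] at h3
    have h5 := norm_nonneg (∑ γ ∈ S, ξ γ * ((δ : ℂ) * LSeries (pr v) (2 * (1 / 2 + δ + γ * I))))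
    linarith
  have h4' : ‖∑ γ ∈ S, ξ γ * ((δ : ℂ) * LSeries W (1 / 2 + δ + γ * I))‖ ≤ ε / 4 := by
    refine (norm_sum_le _ _).trans (le_trans ?_ h4.le)
    have : ∀ γ ∈ S, ‖ξ γ * ((δ : ℂ) * LSeries W (1 / 2 + δ + γ * I))‖ ≤ ‖ξ γ‖ * (δ * |C|) := by
      intro γ _
      rw [norm_mul, norm_mul, Complex.norm_real, Real.norm_eq_abs, abs_of_pos hδ']
      refine mul_le_mul_of_nonneg_left ?_ (norm_nonneg _)
      refine mul_le_mul_of_nonneg_left ?_ hδ'.le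
      refine (hC _ ?_).trans (le_abs_self C)
      simp
      exact hδ'.le
    refine (Finset.sum_le_sum this).trans (le_of_eq ?_)
    rw [← Finset.sum_mul]
    ring
  have e1 : ∑ γ ∈ S, ξ γ * ((δ : ℂ) * LSeries (comb c Λ) (1 / 2 + δ + γ * I)) =
      (∑ γ ∈ S, ξ γ * ((δ : ℂ) * LSeries (pr u) (1 + δ + γ * I))) +
      (∑ γ ∈ S, ξ γ * ((δ : ℂ) * LSeries (pr v) (2 * (1 / 2 + δ + γ * I)))) +
      ∑ γ ∈ S, ξ γ * ((δ : ℂ) * LSeries W (1 / 2 + δ + γ * I)) := by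
    rw [← Finset.sum_add_distrib, ← Finset.sum_add_distrib]
    refine Finset.sum_congr rfl (fun γ _ => ?_)
    have hre : (1 / 2 : ℝ) < (1 / 2 + (δ : ℂ) + γ * I).re := by simp [hδ']
    rw [(hdec _ hre).2]
    have : (1 / 2 + (δ : ℂ) + γ * I + 1 / 2) = 1 + δ + γ * I := by ring
    rw [this]
    ring
  rw [e1]
  rw [← hK] at h2
  refine (norm_add_le _ _).trans ?_
  have := norm_add_le (∑ γ ∈ S, ξ γ * ((δ : ℂ) * LSeries (pr u) (1 + δ + γ * I)))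
      (∑ γ ∈ S, ξ γ * ((δ : ℂ) * LSeries (pr v) (2 * (1 / 2 + δ + γ * I))))
  linarith

lemma line_sq (hG : ∀ i, Good (Ψ i) (Λ i) (m i) (E i)) (c : ι → ℂ) {B : ℝ} (hB : 0 < B)
    (hsp : Split (comb c Λ) B) (S : Finset ℝ) :
    ∑ γ ∈ S, ‖mult c Ψ (1 / 2 + γ * I)‖ ^ 2 ≤ 4 * B ^ 2 := by
  have h := line_dual hG c hB.le hsp S (fun γ => (starRingEnd ℂ) (mult c Ψ (1 / 2 + γ * I)))
    (r := 2 * B) (by positivity)
  set Q := ∑ γ ∈ S, ‖mult c Ψ (1 / 2 + γ * I)‖ ^ 2 with hQ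
  have e1 : ∑ γ ∈ S, (starRingEnd ℂ) (mult c Ψ (1 / 2 + γ * I)) * mult c Ψ (1 / 2 + γ * I) =
      (Q : ℂ) := by
    rw [hQ]
    push_cast
    refine Finset.sum_congr rfl (fun γ _ => ?_)
    rw [mul_comm, Complex.mul_conj, Complex.normSq_eq_norm_sq, Complex.ofReal_pow]
  have e2 : ∑ γ ∈ S, ‖(starRingEnd ℂ) (mult c Ψ (1 / 2 + γ * I))‖ ^ 2 = Q := by
    rw [hQ]
    exact Finset.sum_congr rfl (fun γ _ => by rw [Complex.norm_conj])
  have hQ0 : 0 ≤ Q := Finset.sum_nonneg (fun _ _ => by positivity)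
  rw [e1, e2, Complex.norm_real, Real.norm_eq_abs, abs_of_nonneg hQ0] at h
  have e3 : 2 * B * (Q / (2 * (2 * B)) + 2 * B / 2) = Q / 2 + 2 * B ^ 2 := by
    field_simp
  rw [e3] at h
  linarith

theorem mult_sq_summable (hG : ∀ i, Good (Ψ i) (Λ i) (m i) (E i)) (c : ι → ℂ) {B : ℝ}
    (hB : 0 < B) (hsp : Split (comb c Λ) B) :
    Summable (fun z : ℂ => ‖mult c Ψ z‖ ^ 2) := by
  classical
  have hS : ∀ s : ℂ, 1 / 2 < s.re → LSeriesSummable (comb c Λ) s := by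
    obtain ⟨u, v, W, hu, hv, hW, hdec⟩ := hsp
    exact fun s hs => (hdec s hs).1
  refine summable_of_sum_le (c := 4 * B ^ 2 + (‖mult c Ψ 0‖ ^ 2 + ‖mult c Ψ 1‖ ^ 2))
    (fun z => by positivity) (fun T => ?_)
  have h1 : ∑ z ∈ T, ‖mult c Ψ z‖ ^ 2 =
      ∑ z ∈ T with z.re = 1 / 2, ‖mult c Ψ z‖ ^ 2 +
      ∑ z ∈ T with ¬ z.re = 1 / 2, ‖mult c Ψ z‖ ^ 2 :=
    (Finset.sum_filter_add_sum_filter_not T _ _).symm
  rw [h1]
  refine add_le_add ?_ ?_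
  · set S : Finset ℝ := (T.filter (fun z => z.re = 1 / 2)).image Complex.im with hS'
    have h2 : ∑ z ∈ T with z.re = 1 / 2, ‖mult c Ψ z‖ ^ 2 =
        ∑ γ ∈ S, ‖mult c Ψ (1 / 2 + γ * I)‖ ^ 2 := by
      rw [hS', Finset.sum_image]
      · refine Finset.sum_congr rfl (fun z hz => ?_)
        have hz' := (Finset.mem_filter.1 hz).2
        have : (1 / 2 + (z.im : ℂ) * I) = z := by
          apply Complex.ext
          · simp [hz']
          · simp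
        rw [this]
      · intro a ha b hb hab
        have ha' := (Finset.mem_filter.1 ha).2
        have hb' := (Finset.mem_filter.1 hb).2
        exact Complex.ext (ha'.trans hb'.symm) hab
    rw [h2]
    exact line_sq hG c hB hsp S
  · have h3 : ∑ z ∈ T with ¬ z.re = 1 / 2, ‖mult c Ψ z‖ ^ 2 ≤
        ∑ z ∈ ({0, 1} : Finset ℂ), ‖mult c Ψ z‖ ^ 2 := by
      have h4 : ∑ z ∈ T with ¬ z.re = 1 / 2, ‖mult c Ψ z‖ ^ 2 =
          ∑ z ∈ (T.filter (fun z => ¬ z.re = 1 / 2)).filter (fun z => z = 0 ∨ z = 1),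
            ‖mult c Ψ z‖ ^ 2 := by
        refine (Finset.sum_filter_of_ne (s := T.filter (fun z => ¬ z.re = 1 / 2))
          (f := fun z : ℂ => ‖mult c Ψ z‖ ^ 2) (p := fun z : ℂ => z = 0 ∨ z = 1) ?_).symm
        intro z hz hne
        by_contra h0
        push Not at h0
        have hz' := (Finset.mem_filter.1 hz).2
        exact hne (by rw [mult_eq_zero_off hG c hS hz' h0.1 h0.2]; simp)
      rw [h4]
      refine Finset.sum_le_sum_of_subset_of_nonneg ?_ (fun _ _ _ => by positivity)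
      intro z hz
      have := (Finset.mem_filter.1 hz).2
      simpa using this
    exact h3.trans (le_of_eq
      (Finset.sum_pair (f := fun z : ℂ => ‖mult c Ψ z‖ ^ 2) (zero_ne_one (α := ℂ))))

end

end Pool.Agent.Selb
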