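import Pool.Agent.Selb.D1Main

/-!
# Selb/D1App: integrality of the exponents when at most three of them are not integers
-/

set_option autoImplicit false

open Complex Filter Topology

namespace Pool.Agent.Selb

lemma exists_common_den {J : Type*} [Fintype J] (f : J → ℚ) (hf : ∀ j, 0 ≤ f j) :
    ∃ D : ℕ, 0 < D ∧ ∃ e : J → ℕ, ∀ j, f j * D = e j := by
  classical
  refine ⟨∏ j, (f j).den, Finset.prod_pos (fun j _ => (f j).pos), ?_⟩
  refine ⟨fun j => (f j).num.toNat * ∏ i ∈ Finset.univ.erase j, (f i).den, fun j => ?_⟩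
  have h1 : ∏ i, (f i).den = (f j).den * ∏ i ∈ Finset.univ.erase j, (f i).den :=
    (Finset.mul_prod_erase _ _ (Finset.mem_univ j)).symm
  rw [h1]
  have h2 : (0 : ℤ) ≤ (f j).num := Rat.num_nonneg.2 (hf j)
  have h3 : (((f j).num.toNat : ℕ) : ℚ) = ((f j).num : ℚ) := by
    have : (((f j).num.toNat : ℕ) : ℤ) = (f j).num := Int.toNat_of_nonneg h2
    exact_mod_cast this
  have h4 : f j * ((f j).den : ℚ) = (f j).num := Rat.mul_den_eq_num (f j)
  push_cast
  rw [h3, ← h4]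
  ring

section

variable {q : ℕ} [NeZero q] {J : Type*} [Fintype J] {θ : J → ℝ}
    {X : J → DirichletCharacter ℂ q} {r : J → ℚ}

open Classical in
/-- the class of `j0`: same shift, nonprincipal, same parity -/
noncomputable def cls (θ : J → ℝ) (X : J → DirichletCharacter ℂ q) (j0 : J) : Finset J :=
  Finset.univ.filter (fun j => θ j = θ j0 ∧ X j ≠ 1 ∧ ((X j).Even ↔ (X j0).Even))

lemma mem_cls {j0 j : J} : j ∈ cls θ X j0 ↔ θ j = θ j0 ∧ X j ≠ 1 ∧ ((X j).Even ↔ (X j0).Even) := by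
  unfold cls
  simp

lemma class_int
    (hev : ∀ τ : ℝ, ∀ D : J → Prop, (∀ j, D j ↔ θ j = τ ∧ X j ≠ 1 ∧ (X j).Even) →
      ∀ _ : DecidablePred D, ∃ n : ℕ, ∑ j with D j, r j = n)
    (hod : ∀ τ : ℝ, ∀ D : J → Prop, (∀ j, D j ↔ θ j = τ ∧ (X j).Odd) →
      ∀ _ : DecidablePred D, ∃ n : ℕ, ∑ j with D j, r j = n) (j0 : J) (k : ℤ) :
    ∃ n : ℕ, ∑ j ∈ cls θ X j0, Int.fract (k * r j) = n := by
  classical
  have h1 : ∃ n : ℤ, ∑ j ∈ cls θ X j0, r j = n := by
    rcases (X j0).even_or_odd with he | ho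
    · obtain ⟨n, hn⟩ := hev (θ j0) (fun j => j ∈ cls θ X j0) (fun j => by
        rw [mem_cls]; simp [he]) (Classical.decPred _)
      refine ⟨n, ?_⟩
      rw [Int.cast_natCast, ← hn]
      exact Finset.sum_congr (by ext; simp) (fun _ _ => rfl)
    · obtain ⟨n, hn⟩ := hod (θ j0) (fun j => j ∈ cls θ X j0) (fun j => by
        rw [mem_cls]
        have h0 : ¬ (X j0).Even := fun h => DirichletCharacter.not_even_and_odd (X j0) ⟨h, ho⟩
        constructor
        · rintro ⟨h1, h2, h3⟩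
          exact ⟨h1, (X j).even_or_odd.resolve_left (fun h => h0 (h3.1 h))⟩
        · rintro ⟨h1, h2⟩
          exact ⟨h1, one_not_odd h2, ⟨fun h => absurd ⟨h, h2⟩
            (DirichletCharacter.not_even_and_odd (X j)), fun h => absurd h h0⟩⟩)
        (Classical.decPred _)
      refine ⟨n, ?_⟩
      rw [Int.cast_natCast, ← hn]
      exact Finset.sum_congr (by ext; simp) (fun _ _ => rfl)
  obtain ⟨n, hn⟩ := h1
  have h2 : ∑ j ∈ cls θ X j0, Int.fract (k * r j) =
      ((k * n - ∑ j ∈ cls θ X j0, ⌊(k : ℚ) * r j⌋ : ℤ) : ℚ) := by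
    push_cast
    rw [← hn, Finset.mul_sum, ← Finset.sum_sub_distrib]
    rfl
  have h3 : 0 ≤ k * n - ∑ j ∈ cls θ X j0, ⌊(k : ℚ) * r j⌋ := by
    have : (0 : ℚ) ≤ ∑ j ∈ cls θ X j0, Int.fract (k * r j) :=
      Finset.sum_nonneg (fun j _ => Int.fract_nonneg _)
    rw [h2] at this
    exact_mod_cast this
  obtain ⟨m, hm⟩ := Int.eq_ofNat_of_zero_le h3
  exact ⟨m, by rw [h2, hm]; simp⟩

open Classical in
theorem fract_sum_ne_one (hinj : Function.Injective (fun j => (θ j, X j)))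
    (hev : ∀ τ : ℝ, ∀ D : J → Prop, (∀ j, D j ↔ θ j = τ ∧ X j ≠ 1 ∧ (X j).Even) →
      ∀ _ : DecidablePred D, ∃ n : ℕ, ∑ j with D j, r j = n)
    (hod : ∀ τ : ℝ, ∀ D : J → Prop, (∀ j, D j ↔ θ j = τ ∧ (X j).Odd) →
      ∀ _ : DecidablePred D, ∃ n : ℕ, ∑ j with D j, r j = n)
    (h1 : ∀ j, X j = 1 → ∃ n : ℤ, r j = n)
    (hL : ∀ z : ℂ, ∃ n : ℤ, ∑ j, r j * LOrd (X j) (z + θ j * I) = n) (k : ℤ) :
    ∑ j with X j ≠ 1, Int.fract (k * r j) ≠ 1 := by
  intro hsum
  set f : J → ℚ := fun j => Int.fract (k * r j) with hf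
  have hf0 : ∀ j, 0 ≤ f j := fun j => Int.fract_nonneg _
  have hf1 : ∀ j, f j < 1 := fun j => Int.fract_lt_one _
  have hfp : ∀ j, X j = 1 → f j = 0 := by
    intro j hj
    obtain ⟨n, hn⟩ := h1 j hj
    simp only [hf, hn]
    rw [← Int.cast_mul, Int.fract_intCast]
  have htot : ∑ j, f j = 1 := by
    rw [← hsum, Finset.sum_filter]
    refine Finset.sum_congr rfl (fun j _ => ?_)
    by_cases h : X j = 1
    · rw [if_neg (not_not.2 h), hfp j h]
    · rw [if_pos h]
  obtain ⟨j0, _, hj0⟩ : ∃ j ∈ Finset.univ, f j ≠ 0 := by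
    by_contra h
    push Not at h
    rw [Finset.sum_eq_zero h] at htot
    exact zero_ne_one htot
  have hX0 : X j0 ≠ 1 := fun h => hj0 (hfp j0 h)
  obtain ⟨n, hn⟩ := class_int hev hod j0 k
  have hmem0 : j0 ∈ cls θ X j0 := mem_cls.2 ⟨rfl, hX0, Iff.rfl⟩
  have hpos : 0 < ∑ j ∈ cls θ X j0, f j :=
    Finset.sum_pos' (fun j _ => hf0 j) ⟨j0, hmem0, lt_of_le_of_ne (hf0 j0) (Ne.symm hj0)⟩
  have hn1 : 1 ≤ n := by
    have : (0 : ℚ) < n := by rw [← hn]; exact hpos
    have : 0 < n := by exact_mod_cast this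
    omega
  have hsplit : ∑ j ∈ cls θ X j0, f j + ∑ j ∈ Finset.univ \ cls θ X j0, f j = 1 := by
    rw [← htot, add_comm]
    exact Finset.sum_sdiff (Finset.subset_univ _)
  have hrest : ∑ j ∈ Finset.univ \ cls θ X j0, f j = 0 := by
    have h3 : 0 ≤ ∑ j ∈ Finset.univ \ cls θ X j0, f j := Finset.sum_nonneg (fun j _ => hf0 j)
    have h4 : (1 : ℚ) ≤ n := by exact_mod_cast hn1
    have h5 : ∑ j ∈ cls θ X j0, f j = n := hn
    linarith
  have hout : ∀ j, f j ≠ 0 → j ∈ cls θ X j0 := by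
    intro j hj
    by_contra h
    exact hj ((Finset.sum_eq_zero_iff_of_nonneg (fun j _ => hf0 j)).1 hrest j
      (Finset.mem_sdiff.2 ⟨Finset.mem_univ _, h⟩))
  obtain ⟨D, hD, e, he⟩ := exists_common_den f hf0
  have hDq : (0 : ℚ) < D := by exact_mod_cast hD
  have he0 : ∀ j, e j ≠ 0 → j ∈ cls θ X j0 := by
    intro j hj
    refine hout j (fun h => hj ?_)
    have := he j
    rw [h, zero_mul] at this
    exact_mod_cast this.symm
  have hswap : ∀ g : DirichletCharacter ℂ q → ℤ,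
      ∑ χ, ((∑ j with X j = χ, e j : ℕ) : ℤ) * g χ = ∑ j, (e j : ℤ) * g (X j) := by
    intro g
    rw [← Finset.sum_fiberwise (s := Finset.univ) (g := X) (f := fun j => (e j : ℤ) * g (X j))]
    refine Finset.sum_congr rfl (fun χ _ => ?_)
    push_cast
    rw [Finset.sum_mul]
    refine Finset.sum_congr rfl (fun j hj => ?_)
    rw [(Finset.mem_filter.1 hj).2]
  have hsumD : ∑ j, e j = D := by
    have h3 : ((∑ j, e j : ℕ) : ℚ) = D := by
      push_cast
      rw [← one_mul (D : ℚ), ← htot, Finset.sum_mul]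
      exact Finset.sum_congr rfl (fun j _ => (he j).symm)
    exact_mod_cast h3
  obtain ⟨χ, hχ⟩ := no_degree_one hD (fun χ => ∑ j with X j = χ, e j)
    (by rw [Finset.sum_fiberwise, hsumD]) (by
      have h5 : ∀ χ, ∑ j with X j = χ, e j ≠ 0 → χ ≠ 1 ∧ (χ.Even ↔ (X j0).Even) := by
        intro χ h
        obtain ⟨j, hj, hj'⟩ := Finset.exists_ne_zero_of_sum_ne_zero h
        have h6 := mem_cls.1 (he0 j hj')
        rw [(Finset.mem_filter.1 hj).2] at h6
        exact ⟨h6.2.1, h6.2.2⟩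
      rcases (X j0).even_or_odd with hev0 | hod0
      · exact Or.inl (fun χ h => ⟨(h5 χ h).1, (h5 χ h).2.2 hev0⟩)
      · refine Or.inr (fun χ h => χ.even_or_odd.resolve_left (fun h6 => ?_))
        exact DirichletCharacter.not_even_and_odd (X j0) ⟨(h5 χ h).2.1 h6, hod0⟩)
    (fun z => by
      rw [hswap]
      obtain ⟨n, hn⟩ := hL (z - θ j0 * I)
      refine ⟨k * n - ∑ j, ⌊(k : ℚ) * r j⌋ * LOrd (X j) (z - θ j0 * I + θ j * I), ?_⟩
      have h6 : ((∑ j, (e j : ℤ) * LOrd (X j) z : ℤ) : ℚ) =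
          (((D : ℤ) * (k * n - ∑ j, ⌊(k : ℚ) * r j⌋ * LOrd (X j) (z - θ j0 * I + θ j * I)) : ℤ) : ℚ) := by
        push_cast
        rw [← hn, Finset.mul_sum, ← Finset.sum_sub_distrib, Finset.mul_sum]
        refine Finset.sum_congr rfl (fun j _ => ?_)
        have h7 : (e j : ℚ) * LOrd (X j) z =
            (e j : ℚ) * LOrd (X j) (z - θ j0 * I + θ j * I) := by
          by_cases h8 : e j = 0
          · rw [h8]; simp
          · rw [(mem_cls.1 (he0 j h8)).1, sub_add_cancel]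
        rw [h7, ← he j]
        have h9 : f j = k * r j - ⌊(k : ℚ) * r j⌋ := rfl
        rw [h9]
        ring
      exact_mod_cast h6)
  have h7 : ∑ j with X j = χ, e j ≠ 0 := by rw [hχ]; omega
  obtain ⟨j1, hj1, hj1'⟩ := Finset.exists_ne_zero_of_sum_ne_zero h7
  have h8 : ∑ j with X j = χ, e j = e j1 := by
    refine Finset.sum_eq_single_of_mem j1 hj1 (fun j hj hne => ?_)
    by_contra h9
    apply hne
    apply hinj
    simp only [Prod.mk.injEq]
    exact ⟨by rw [(mem_cls.1 (he0 j h9)).1, (mem_cls.1 (he0 j1 hj1')).1],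
      by rw [(Finset.mem_filter.1 hj).2, (Finset.mem_filter.1 hj1).2]⟩
  have h9 : e j1 = D := by rw [← h8, hχ]
  have h10 := he j1
  rw [h9] at h10
  have h11 := hf1 j1
  nlinarith

/-- at most three nonprincipal pairs with a non-integral exponent: all exponents are integers -/
theorem int_of_three (hinj : Function.Injective (fun j => (θ j, X j)))
    (hev : ∀ τ : ℝ, ∀ D : J → Prop, (∀ j, D j ↔ θ j = τ ∧ X j ≠ 1 ∧ (X j).Even) →
      ∀ _ : DecidablePred D, ∃ n : ℕ, ∑ j with D j, r j = n)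
    (hod : ∀ τ : ℝ, ∀ D : J → Prop, (∀ j, D j ↔ θ j = τ ∧ (X j).Odd) →
      ∀ _ : DecidablePred D, ∃ n : ℕ, ∑ j with D j, r j = n)
    (h1 : ∀ j, X j = 1 → ∃ n : ℤ, r j = n)
    (hL : ∀ z : ℂ, ∃ n : ℤ, ∑ j, r j * LOrd (X j) (z + θ j * I) = n)
    (h3 : {j | X j ≠ 1 ∧ Int.fract (r j) ≠ 0}.ncard ≤ 3) (j : J) : ∃ n : ℤ, r j = n := by
  classical
  set S : Finset J := Finset.univ.filter (fun j => X j ≠ 1 ∧ Int.fract (r j) ≠ 0) with hS
  have hScard : S.card ≤ 3 := by
    have : (S : Set J) = {j | X j ≠ 1 ∧ Int.fract (r j) ≠ 0} := by ext; simp [hS]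
    rw [← this, Set.ncard_coe_finset] at h3
    exact h3
  have hneg : ∀ x : ℚ, Int.fract x + Int.fract (-x) = if Int.fract x = 0 then 0 else 1 := by
    intro x
    by_cases h : Int.fract x = 0
    · rw [if_pos h, h, zero_add, Int.fract_neg_eq_zero.2 h]
    · rw [if_neg h, Int.fract_neg h]
      ring
  have hcls : ∀ j0 ∈ S, ∃ a b : ℕ, 1 ≤ a ∧ 1 ≤ b ∧ ∑ j ∈ cls θ X j0, Int.fract (r j) = a ∧
      ∑ j ∈ cls θ X j0, Int.fract (-r j) = b ∧ a + b = (S ∩ cls θ X j0).card := by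
    intro j0 hj0
    have hj0' := (Finset.mem_filter.1 hj0).2
    have hmem0 : j0 ∈ cls θ X j0 := mem_cls.2 ⟨rfl, hj0'.1, Iff.rfl⟩
    obtain ⟨a, ha⟩ := class_int hev hod j0 1
    obtain ⟨b, hb⟩ := class_int hev hod j0 (-1)
    simp only [Int.cast_one, one_mul, Int.cast_neg, neg_mul] at ha hb
    have ha1 : 0 < ∑ j ∈ cls θ X j0, Int.fract (r j) :=
      Finset.sum_pos' (fun j _ => Int.fract_nonneg _) ⟨j0, hmem0,
        lt_of_le_of_ne (Int.fract_nonneg _) (Ne.symm hj0'.2)⟩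
    have hb1 : 0 < ∑ j ∈ cls θ X j0, Int.fract (-r j) :=
      Finset.sum_pos' (fun j _ => Int.fract_nonneg _) ⟨j0, hmem0,
        lt_of_le_of_ne (Int.fract_nonneg _) (fun h => hj0'.2 (Int.fract_neg_eq_zero.1 h.symm))⟩
    rw [ha] at ha1
    rw [hb] at hb1
    refine ⟨a, b, by exact_mod_cast ha1, by exact_mod_cast hb1, ha, hb, ?_⟩
    have h5 : ((a + b : ℕ) : ℚ) = ((S ∩ cls θ X j0).card : ℚ) := by
      push_cast
      rw [← ha, ← hb, ← Finset.sum_add_distrib, Finset.card_eq_sum_ones, Nat.cast_sum,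
        Finset.inter_comm, ← Finset.filter_mem_eq_inter, Finset.sum_filter]
      refine Finset.sum_congr rfl (fun j hj => ?_)
      rw [hneg]
      have h6 := (mem_cls.1 hj).2.1
      by_cases h : Int.fract (r j) = 0
      · rw [if_pos h, if_neg (fun h7 => (Finset.mem_filter.1 h7).2.2 h)]
      · rw [if_neg h, if_pos (Finset.mem_filter.2 ⟨Finset.mem_univ _, h6, h⟩)]
        simp
    exact_mod_cast h5
  have hempty : S = ∅ := by
    by_contra hne
    obtain ⟨j0, hj0⟩ := Finset.nonempty_iff_ne_empty.2 hne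
    obtain ⟨a, b, ha1, hb1, ha, hb, hab⟩ := hcls j0 hj0
    have hsub : S ⊆ cls θ X j0 := by
      intro j1 hj1
      by_contra hn
      obtain ⟨a', b', ha1', hb1', -, -, hab'⟩ := hcls j1 hj1
      have hdisj : Disjoint (S ∩ cls θ X j0) (S ∩ cls θ X j1) := by
        rw [Finset.disjoint_left]
        intro i hi hi'
        apply hn
        have h5 := mem_cls.1 (Finset.mem_inter.1 hi).2
        have h6 := mem_cls.1 (Finset.mem_inter.1 hi').2
        exact mem_cls.2 ⟨by rw [← h6.1, h5.1], (Finset.mem_filter.1 hj1).2.1,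
          h6.2.2.symm.trans h5.2.2⟩
      have h7 : (S ∩ cls θ X j0).card + (S ∩ cls θ X j1).card ≤ S.card := by
        rw [← Finset.card_union_of_disjoint hdisj]
        exact Finset.card_le_card (Finset.union_subset Finset.inter_subset_left
          Finset.inter_subset_left)
      omega
    have hSc : (S ∩ cls θ X j0).card = S.card := by rw [Finset.inter_eq_left.2 hsub]
    have hout : ∀ (s : ℤ), s = 1 ∨ s = -1 → ∀ j ∉ cls θ X j0, X j ≠ 1 → Int.fract ((s : ℚ) * r j) = 0 := by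
      intro s hs j hj hX
      by_contra h
      apply hj
      apply hsub
      refine Finset.mem_filter.2 ⟨Finset.mem_univ _, hX, fun h8 => h ?_⟩
      rcases hs with rfl | rfl
      · simpa using h8
      · simpa using Int.fract_neg_eq_zero.2 h8
    have htot : ∀ (s : ℤ), s = 1 ∨ s = -1 → ∑ j with X j ≠ 1, Int.fract ((s : ℚ) * r j) =
        ∑ j ∈ cls θ X j0, Int.fract ((s : ℚ) * r j) := by
      intro s hs
      symm
      refine Finset.sum_subset (fun j hj => ?_) (fun j hj hj' => ?_)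
      · exact Finset.mem_filter.2 ⟨Finset.mem_univ _, (mem_cls.1 hj).2.1⟩
      · exact hout s hs j hj' (Finset.mem_filter.1 hj).2
    have h5 := fract_sum_ne_one hinj hev hod h1 hL 1
    have h6 := fract_sum_ne_one hinj hev hod h1 hL (-1)
    rw [htot 1 (Or.inl rfl)] at h5
    rw [htot (-1) (Or.inr rfl)] at h6
    simp only [Int.cast_one, one_mul, Int.cast_neg, neg_mul] at h5 h6
    rw [ha] at h5
    rw [hb] at h6
    have h7 : a ≠ 1 := fun h => h5 (by rw [h]; simp)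
    have h8 : b ≠ 1 := fun h => h6 (by rw [h]; simp)
    omega
  by_cases hj1 : X j = 1
  · exact h1 j hj1
  · have h5 : Int.fract (r j) = 0 := by
      by_contra h
      have : j ∈ S := Finset.mem_filter.2 ⟨Finset.mem_univ _, hj1, h⟩
      rw [hempty] at this
      simp at this
    refine ⟨⌊r j⌋, ?_⟩
    have h6 := Int.floor_add_fract (r j)
    rw [h5, add_zero] at h6
    exact h6.symm

end

end Pool.Agent.Selb
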