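import Mathlib

/-!
# Selb/D1Char: a periodic multiplicative mean of characters is a character
-/

set_option autoImplicit false

namespace Pool.Agent.Selb

lemma per_congr {A : ℕ → ℂ} {m : ℕ} (hper : ∀ n, 1 ≤ n → A (n + m) = A n) {n : ℕ} (hn : 1 ≤ n)
    (k : ℕ) : A (n + k * m) = A n := by
  induction k with
  | zero => simp
  | succ k ih =>
    rw [add_mul, one_mul, ← add_assoc, hper _ (by omega), ih]

lemma per_congr' {A : ℕ → ℂ} {m : ℕ} (hper : ∀ n, 1 ≤ n → A (n + m) = A n) {n n' : ℕ}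
    (hn : 1 ≤ n) (hn' : 1 ≤ n') (h : (n : ZMod m) = n') : A n = A n' := by
  have key : ∀ {n n' : ℕ}, 1 ≤ n → n ≤ n' → (n : ZMod m) = n' → A n = A n' := by
    intro n n' hn hle h
    rw [ZMod.natCast_eq_natCast_iff] at h
    obtain ⟨k, hk⟩ := (Nat.modEq_iff_dvd' hle).1 h
    have : n' = n + k * m := by
      rw [mul_comm] at hk
      omega
    rw [this, per_congr hper hn]
  rcases le_total n n' with h1 | h1
  · exact key hn h1 h
  · exact (key hn' h1 h.symm).symm

theorem norm_one_of_periodic {A : ArithmeticFunction ℂ} (hA : A.IsMultiplicative) {m : ℕ}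
    (hm : 0 < m) (hper : ∀ n, 1 ≤ n → A (n + m) = A n) {p : ℕ} (hp : p.Prime) (hpm : p.Coprime m) :
    ‖A p‖ = 1 := by
  have : NeZero m := ⟨hm.ne'⟩
  have hu : IsUnit (p : ZMod m) := (ZMod.isUnit_iff_coprime p m).2 hpm
  have hinf := Nat.infinite_setOfPred_prime_and_eq_mod hu
  obtain ⟨t, ht, hcard⟩ := hinf.exists_subset_card_eq m.totient
  have htp : ∀ x ∈ t, x.Prime := fun x hx => (ht hx).1
  have h1 : A (∏ x ∈ t, x) = ∏ x ∈ t, A x := hA.map_prod_of_prime t htp
  have h2 : ∏ x ∈ t, A x = A p ^ m.totient := by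
    rw [← hcard, ← Finset.prod_const]
    refine Finset.prod_congr rfl (fun x hx => ?_)
    exact per_congr' hper (htp x hx).one_lt.le hp.one_lt.le (ht hx).2
  have h3 : A (∏ x ∈ t, x) = 1 := by
    rw [← hA.map_one]
    refine per_congr' hper (Nat.pos_of_ne_zero ?_) le_rfl ?_
    · exact Finset.prod_ne_zero_iff.2 (fun x hx => (htp x hx).ne_zero)
    · push_cast
      have h4 : ∏ x ∈ t, (x : ZMod m) = (p : ZMod m) ^ m.totient := by
        rw [← hcard, ← Finset.prod_const]
        exact Finset.prod_congr rfl (fun x hx => (ht hx).2)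
      rw [h4]
      have h5 := ZMod.pow_totient hu.unit
      have h6 : ((hu.unit ^ m.totient : (ZMod m)ˣ) : ZMod m) = 1 := by rw [h5, Units.val_one]
      rw [Units.val_pow_eq_pow_val, IsUnit.unit_spec] at h6
      exact h6
  rw [h1, h2] at h3
  have h7 : ‖A p‖ ^ m.totient = 1 := by rw [← norm_pow, h3, norm_one]
  exact (pow_eq_one_iff_of_nonneg (norm_nonneg _) (Nat.totient_pos.2 hm).ne').1 h7

theorem eq_of_mean {ι : Type*} [Fintype ι] {x : ι → ℂ} {r : ι → ℝ} (hr : ∀ i, 0 < r i)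
    (h1 : ∑ i, r i = 1) (hx : ∀ i, ‖x i‖ ≤ 1) (hm : ‖∑ i, (r i : ℂ) * x i‖ = 1) (i j : ι) :
    x i = x j := by
  set u : ℂ := ∑ i, (r i : ℂ) * x i with hu
  have huu : starRingEnd ℂ u * u = 1 := by
    rw [mul_comm, Complex.mul_conj, Complex.normSq_eq_norm_sq, hm]
    norm_num
  have hre : ∀ i, (starRingEnd ℂ u * x i).re ≤ 1 := by
    intro i
    refine (Complex.re_le_norm _).trans ?_
    rw [norm_mul, RCLike.norm_conj, hm, one_mul]
    exact hx i
  have hsum : ∑ i, r i * (1 - (starRingEnd ℂ u * x i).re) = 0 := by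
    have h2 : ∑ i, r i * (starRingEnd ℂ u * x i).re = 1 := by
      have h3 : (starRingEnd ℂ u * u).re = 1 := by rw [huu]; simp
      rw [← h3]
      conv_rhs => rw [hu, Finset.mul_sum, Complex.re_sum]
      refine Finset.sum_congr rfl (fun i _ => ?_)
      have h4 : starRingEnd ℂ u * ((r i : ℂ) * x i) = (r i : ℂ) * (starRingEnd ℂ u * x i) := by ring
      rw [← hu, h4, Complex.re_ofReal_mul]
    simp_rw [mul_sub, mul_one]
    rw [Finset.sum_sub_distrib, h1, h2, sub_self]
  have hall : ∀ i, x i = u := by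
    intro i
    have h2 := (Finset.sum_eq_zero_iff_of_nonneg (fun i _ =>
      mul_nonneg (hr i).le (sub_nonneg.2 (hre i)))).1 hsum i (Finset.mem_univ _)
    have h3 : (starRingEnd ℂ u * x i).re = 1 := by
      rcases mul_eq_zero.1 h2 with h | h
      · exact absurd h (hr i).ne'
      · linarith
    have h4 : ‖starRingEnd ℂ u * x i‖ ≤ 1 := by
      rw [norm_mul, RCLike.norm_conj, hm, one_mul]
      exact hx i
    have h5 : (starRingEnd ℂ u * x i).im = 0 := by
      have h6 := Complex.normSq_apply (starRingEnd ℂ u * x i)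
      rw [Complex.normSq_eq_norm_sq, h3] at h6
      have h7 : ‖starRingEnd ℂ u * x i‖ ^ 2 ≤ 1 := pow_le_one₀ (norm_nonneg _) h4
      nlinarith [sq_nonneg (starRingEnd ℂ u * x i).im]
    have h6 : starRingEnd ℂ u * x i = 1 := Complex.ext (by simpa using h3) (by simpa using h5)
    calc x i = (starRingEnd ℂ u * u) * x i := by rw [huu, one_mul]
      _ = u * (starRingEnd ℂ u * x i) := by ring
      _ = u := by rw [h6, mul_one]
  rw [hall i, hall j]

theorem char_final {q : ℕ} [NeZero q] {ι : Type*} [Fintype ι] {X : ι → DirichletCharacter ℂ q}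
    {r : ι → ℝ} (hr : ∀ i, 0 < r i) (h1 : ∑ i, r i = 1) {A : ArithmeticFunction ℂ}
    (hA : A.IsMultiplicative)
    (hp : ∀ p : ℕ, p.Prime → p.Coprime q → A p = ∑ i, (r i : ℂ) * X i (p : ZMod q)) {m : ℕ}
    (hm : 0 < m) (hper : ∀ n, 1 ≤ n → A (n + m) = A n) (i j : ι) : X i = X j := by
  refine MulChar.ext (fun u => ?_)
  obtain ⟨p, hpgt, hpp, hpu⟩ := Nat.forall_exists_prime_gt_and_eq_mod u.isUnit (q * m)
  have hq : 0 < q := Nat.pos_of_ne_zero (NeZero.ne q)
  have hcop : ∀ k, 0 < k → k ≤ q * m → p.Coprime k := fun k hk hk' =>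
    (Nat.Prime.coprime_iff_not_dvd hpp).2 (fun h => by
      have := Nat.le_of_dvd hk h
      omega)
  have hpq : p.Coprime q := hcop q hq (Nat.le_mul_of_pos_right q hm)
  have hpm : p.Coprime m := hcop m hm (Nat.le_mul_of_pos_left m hq)
  have h2 := norm_one_of_periodic hA hm hper hpp hpm
  rw [hp p hpp hpq] at h2
  have h3 := eq_of_mean hr h1 (x := fun i => X i (p : ZMod q))
    (fun i => DirichletCharacter.norm_le_one _ _) h2 i j
  rw [← hpu]
  exact h3

end Pool.Agent.Selb
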