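import Pool.Agent.Selb.D1Div

/-!
# Selb/D1Conv: the coefficients of a product of fractional powers of L-functions
-/

set_option autoImplicit false

open Complex

namespace Pool.Agent.Selb

/-- completely multiplicative, bounded by one -/
structure CMul (g : ℕ → ℂ) : Prop where
  one : g 1 = 1
  mul : ∀ m n, g (m * n) = g m * g n
  le : ∀ n, ‖g n‖ ≤ 1

/-- `g n * dr r n` -/
noncomputable def tw (g : ℕ → ℂ) (r : ℝ) : ArithmeticFunction ℂ :=
  ⟨fun n => g n * ((dr r n : ℝ) : ℂ), by simp⟩

/-- the convolution of the `tw (g i) (r i)` -/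
noncomputable def AF {ι : Type*} [Fintype ι] (g : ι → ℕ → ℂ) (r : ι → ℝ) :
    ArithmeticFunction ℂ := ∏ i, tw (g i) (r i)

lemma tw_apply (g : ℕ → ℂ) (r : ℝ) (n : ℕ) : tw g r n = g n * ((dr r n : ℝ) : ℂ) := rfl

theorem tw_mul {g : ℕ → ℂ} (hg : CMul g) (r s : ℝ) : tw g r * tw g s = tw g (r + s) := by
  ext n
  rw [ArithmeticFunction.mul_apply, tw_apply, ← dr_add, ArithmeticFunction.mul_apply]
  push_cast
  rw [Finset.mul_sum]
  refine Finset.sum_congr rfl (fun x hx => ?_)
  have h1 := (Nat.mem_divisorsAntidiagonal.1 hx).1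
  rw [tw_apply, tw_apply, ← h1, hg.mul]
  ring

lemma tw_zero {g : ℕ → ℂ} (hg : CMul g) : tw g 0 = 1 := by
  ext n
  rw [tw_apply, dr_zero]
  by_cases hn : n = 1
  · rw [hn]; simp [hg.one]
  · rw [ArithmeticFunction.one_apply_ne hn, ArithmeticFunction.one_apply_ne hn]; simp

theorem tw_pow {g : ℕ → ℂ} (hg : CMul g) (r : ℝ) (D : ℕ) : tw g r ^ D = tw g (D * r) := by
  induction D with
  | zero => simp [tw_zero hg]
  | succ D ih =>
    rw [pow_succ, ih, tw_mul hg]
    congr 1
    push_cast
    ring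

lemma tw_mult {g : ℕ → ℂ} (hg : CMul g) (r : ℝ) : (tw g r).IsMultiplicative := by
  refine ⟨?_, fun {m n} hmn => ?_⟩
  · rw [tw_apply, hg.one, (dr_mult r).map_one]; simp
  · rw [tw_apply, tw_apply, tw_apply, hg.mul, (dr_mult r).map_mul_of_coprime hmn]
    push_cast
    ring

variable {ι : Type*} [Fintype ι] {g : ι → ℕ → ℂ}

lemma prod_mult (hg : ∀ i, CMul (g i)) (r : ι → ℝ) (s : Finset ι) :
    (∏ i ∈ s, tw (g i) (r i)).IsMultiplicative := by
  classical
  induction s using Finset.induction_on with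
  | empty => simp
  | insert i s hi ih =>
    rw [Finset.prod_insert hi]
    exact (tw_mult (hg i) _).mul ih

theorem AF_mult (hg : ∀ i, CMul (g i)) (r : ι → ℝ) : (AF g r).IsMultiplicative :=
  prod_mult hg r _

lemma prod_norm_le (hg : ∀ i, CMul (g i)) {r : ι → ℝ} (hr : ∀ i, 0 ≤ r i) (s : Finset ι) (n : ℕ) :
    ‖(∏ i ∈ s, tw (g i) (r i)) n‖ ≤ dr (∑ i ∈ s, r i) n := by
  classical
  induction s using Finset.induction_on generalizing n with
  | empty =>
    simp only [Finset.prod_empty, Finset.sum_empty]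
    rw [dr_zero]
    by_cases hn : n = 1
    · rw [hn]; simp
    · rw [ArithmeticFunction.one_apply_ne hn, ArithmeticFunction.one_apply_ne hn]; simp
  | insert i s hi ih =>
    rw [Finset.prod_insert hi, Finset.sum_insert hi, ← dr_add, ArithmeticFunction.mul_apply,
      ArithmeticFunction.mul_apply]
    refine (norm_sum_le _ _).trans (Finset.sum_le_sum (fun x _ => ?_))
    rw [norm_mul]
    refine mul_le_mul ?_ (ih x.2) (norm_nonneg _) (dr_nonneg (hr i) _)
    rw [tw_apply, norm_mul, norm_real, Real.norm_of_nonneg (dr_nonneg (hr i) _)]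
    exact mul_le_of_le_one_left (dr_nonneg (hr i) _) ((hg i).le _)

theorem AF_norm_le (hg : ∀ i, CMul (g i)) {r : ι → ℝ} (hr : ∀ i, 0 ≤ r i) (h1 : ∑ i, r i = 1)
    (n : ℕ) : ‖AF g r n‖ ≤ 1 := by
  refine (prod_norm_le hg hr Finset.univ n).trans ?_
  rw [h1, dr_one]
  split_ifs <;> norm_num

theorem AF_prime (hg : ∀ i, CMul (g i)) (r : ι → ℝ) {p : ℕ} (hp : p.Prime) :
    AF g r p = ∑ i, (r i : ℂ) * g i p := by
  classical
  have key : ∀ s : Finset ι, (∏ i ∈ s, tw (g i) (r i)) p = ∑ i ∈ s, (r i : ℂ) * g i p := by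
    intro s
    induction s using Finset.induction_on with
    | empty =>
      simp only [Finset.prod_empty, Finset.sum_empty]
      exact ArithmeticFunction.one_apply_ne hp.ne_one
    | insert i s hi ih =>
      rw [Finset.prod_insert hi, Finset.sum_insert hi, ArithmeticFunction.mul_apply,
        Nat.sum_divisorsAntidiagonal
          (f := fun x y => tw (g i) (r i) x * (∏ j ∈ s, tw (g j) (r j)) y),
        hp.sum_divisors, Nat.div_self hp.pos, Nat.div_one, ih,
        (tw_mult (hg i) _).map_one, (prod_mult hg r s).map_one, tw_apply, dr_prime _ hp]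
      ring
  exact key _

lemma dr_le_one {r : ℝ} (hr : 0 ≤ r) (hr1 : r ≤ 1) (n : ℕ) : dr r n ≤ 1 := by
  by_cases hn : n = 0
  · rw [hn]; simp
  · rw [dr_apply r hn]
    refine Finset.prod_le_one (fun i _ => cr_nonneg hr _) (fun i _ => ?_)
    refine Finset.prod_le_one (fun j _ => by positivity) (fun j _ => ?_)
    rw [div_le_one (by positivity)]
    linarith

lemma tw_summable {g : ℕ → ℂ} (hg : CMul g) {r : ℝ} (hr : 0 ≤ r) (hr1 : r ≤ 1) {s : ℂ}
    (hs : 1 < s.re) : LSeriesSummable (tw g r) s := by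
  refine LSeriesSummable_of_bounded_of_one_lt_re (m := 1) (fun n _ => ?_) hs
  rw [tw_apply, norm_mul, norm_real, Real.norm_of_nonneg (dr_nonneg hr _)]
  exact mul_le_one₀ (hg.le n) (dr_nonneg hr _) (dr_le_one hr hr1 n)

lemma prod_summable {κ : Type*} (s : Finset κ) (f : κ → ArithmeticFunction ℂ) {z : ℂ}
    (hf : ∀ i ∈ s, LSeriesSummable (f i) z) :
    LSeriesSummable (∏ i ∈ s, f i : ArithmeticFunction ℂ) z ∧
      LSeries (∏ i ∈ s, f i : ArithmeticFunction ℂ) z = ∏ i ∈ s, LSeries (f i) z := by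
  classical
  induction s using Finset.induction_on with
  | empty =>
    simp only [Finset.prod_empty]
    have h0 : ((1 : ArithmeticFunction ℂ) : ℕ → ℂ) = LSeries.delta :=
      ArithmeticFunction.one_eq_delta
    rw [h0]
    constructor
    · refine summable_of_ne_finset_zero (s := {1}) (fun n hn => ?_)
      rw [LSeries.term_delta, if_neg (by simpa using hn)]
    · rw [LSeries_delta]
      rfl
  | insert i s hi ih =>
    obtain ⟨h1, h2⟩ := ih (fun j hj => hf j (Finset.mem_insert_of_mem hj))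
    have h3 := hf i (Finset.mem_insert_self i s)
    rw [Finset.prod_insert hi, Finset.prod_insert hi]
    exact ⟨ArithmeticFunction.LSeriesSummable_mul h3 h1, by
      rw [ArithmeticFunction.LSeries_mul' h3 h1, h2]⟩

lemma pow_summable (f : ArithmeticFunction ℂ) {z : ℂ} (hf : LSeriesSummable f z) (D : ℕ) :
    LSeriesSummable (f ^ D : ArithmeticFunction ℂ) z ∧
      LSeries (f ^ D : ArithmeticFunction ℂ) z = LSeries f z ^ D := by
  have := prod_summable (Finset.range D) (fun _ => f) (z := z) (fun _ _ => hf)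
  simpa using this

theorem LSeries_AF (hg : ∀ i, CMul (g i)) {D : ℕ} (hD : 0 < D) {e : ι → ℕ} (he : ∑ i, e i = D)
    {s : ℂ} (hs : 1 < s.re) :
    LSeries (AF g (fun i => (e i : ℝ) / D)) s ^ D = ∏ i, LSeries (g i) s ^ e i := by
  have hD' : (0 : ℝ) < D := by exact_mod_cast hD
  have hle : ∀ i, (e i : ℝ) / D ≤ 1 := by
    intro i
    rw [div_le_one hD']
    have : e i ≤ D := by
      rw [← he]
      exact Finset.single_le_sum (fun j _ => Nat.zero_le _) (Finset.mem_univ i)
    exact_mod_cast this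
  have h1 := prod_summable Finset.univ (fun i => tw (g i) ((e i : ℝ) / D)) (z := s)
    (fun i _ => tw_summable (hg i) (by positivity) (hle i) hs)
  have h2 : LSeries (AF g (fun i => (e i : ℝ) / D)) s ^ D =
      LSeries (AF g (fun i => (e i : ℝ) / D) ^ D : ArithmeticFunction ℂ) s :=
    (pow_summable _ h1.1 D).2.symm
  have h3 : AF g (fun i => (e i : ℝ) / D) ^ D = ∏ i, tw (g i) 1 ^ e i := by
    unfold AF
    rw [← Finset.prod_pow]
    refine Finset.prod_congr rfl (fun i _ => ?_)
    rw [tw_pow (hg i), tw_pow (hg i)]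
    congr 1
    field_simp
  have h4 : ∀ i, LSeriesSummable (tw (g i) 1) s := fun i =>
    tw_summable (hg i) zero_le_one le_rfl hs
  rw [h2, h3, (prod_summable Finset.univ (fun i => tw (g i) 1 ^ e i)
    (fun i _ => (pow_summable _ (h4 i) _).1)).2]
  refine Finset.prod_congr rfl (fun i _ => ?_)
  rw [(pow_summable _ (h4 i) _).2]
  congr 1
  refine LSeries_congr (fun {n} hn => ?_) s
  rw [tw_apply, dr_one, if_neg hn]
  simp

end Pool.Agent.Selb
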