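import Pool.Agent.Selb.D1Conv

/-!
# Selb/D1Def: degree one data (definition)
-/

set_option autoImplicit false

open Complex

namespace Pool.Agent.Selb

/-- `Φ(s) = Q^{s/2} Γ_ℝ(s + κ) ∑ A(n) n^{-s}` is entire with `Φ(s) = ω conj Φ(1 - conj s)` and decays on
vertical strips -/
structure DegOne (A : ℕ → ℂ) (κ : ℕ) (Q : ℝ) (ω : ℂ) (Φ : ℂ → ℂ) (C : ℝ) : Prop where
  A0 : A 0 = 0
  A1 : A 1 = 1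
  Ale : ∀ n, ‖A n‖ ≤ 1
  kap : κ = 0 ∨ κ = 1
  Qpos : 0 < Q
  om : ‖ω‖ = 1
  diff : Differentiable ℂ Φ
  ser : ∀ s : ℂ, 1 < s.re → Φ s = (Q : ℂ) ^ (s / 2) * Gammaℝ (s + κ) * LSeries A s
  fe : ∀ s : ℂ, Φ s = ω * starRingEnd ℂ (Φ (1 - starRingEnd ℂ s))
  dec : ∀ s : ℂ, -1 ≤ s.re → s.re ≤ 2 → ‖Φ s‖ ≤ C / (1 + s.im ^ 2)

/-- the theta series -/
noncomputable def th (A : ℕ → ℂ) (κ : ℕ) (Q x : ℝ) : ℂ :=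
  ∑' n : ℕ, A n * (n : ℂ) ^ κ * (Real.exp (-(Real.pi * n ^ 2 / Q) * x) : ℂ)

/-- `t ∑ A(n) n^κ / (n² + t²)^{κ+1}` -/
noncomputable def ratS (A : ℕ → ℂ) (κ : ℕ) (t : ℂ) : ℂ :=
  t * ∑' n : ℕ, A n * (n : ℂ) ^ κ / ((n : ℂ) ^ 2 + t ^ 2) ^ (κ + 1)

/-- `∑ conj (A n) n^κ exp (- 2 π n t / Q)` -/
noncomputable def expS (A : ℕ → ℂ) (κ : ℕ) (Q : ℝ) (t : ℂ) : ℂ :=
  ∑' n : ℕ, starRingEnd ℂ (A n) * (n : ℂ) ^ κ * Complex.exp (-(2 * Real.pi * n * t / Q))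

end Pool.Agent.Selb
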