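import Mathlib

/-!
# Selb/D1Div: divisor functions with real index
-/

set_option autoImplicit false

namespace Pool.Agent.Selb

/-- `r (r + 1) ... (r + k - 1) / k!` -/
noncomputable def cr (r : ℝ) (k : ℕ) : ℝ := ∏ i ∈ Finset.range k, (r + i) / (i + 1)

/-- the divisor function of index `r` -/
noncomputable def dr (r : ℝ) : ArithmeticFunction ℝ :=
  ⟨fun n => if n = 0 then 0 else n.factorization.prod (fun _ k => cr r k), by simp⟩

lemma dr_apply (r : ℝ) {n : ℕ} (hn : n ≠ 0) :
    dr r n = n.factorization.prod (fun _ k => cr r k) := if_neg hn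

theorem cr_nonneg {r : ℝ} (hr : 0 ≤ r) (k : ℕ) : 0 ≤ cr r k :=
  Finset.prod_nonneg (fun i _ => by positivity)

lemma cr_zero_right (r : ℝ) : cr r 0 = 1 := by simp [cr]

lemma cr_succ (r : ℝ) (k : ℕ) : (k + 1 : ℝ) * cr r (k + 1) = (r + k) * cr r k := by
  unfold cr
  rw [Finset.prod_range_succ]
  have : (k : ℝ) + 1 ≠ 0 := by positivity
  field_simp

theorem cr_add (r s : ℝ) (k : ℕ) :
    ∑ x ∈ Finset.HasAntidiagonal.antidiagonal k, cr r x.1 * cr s x.2 = cr (r + s) k := by
  induction k with
  | zero => simp [cr_zero_right]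
  | succ k ih =>
    have hk : (k : ℝ) + 1 ≠ 0 := by positivity
    have h1 : (k + 1 : ℝ) * ∑ x ∈ Finset.HasAntidiagonal.antidiagonal (k + 1), cr r x.1 * cr s x.2 =
        (k + 1 : ℝ) * cr (r + s) (k + 1) := by
      rw [cr_succ, ← ih, Finset.mul_sum, Finset.mul_sum]
      have e1 : ∑ x ∈ Finset.HasAntidiagonal.antidiagonal (k + 1),
          (k + 1 : ℝ) * (cr r x.1 * cr s x.2) =
          ∑ x ∈ Finset.HasAntidiagonal.antidiagonal (k + 1),
            ((x.1 : ℝ) * cr r x.1 * cr s x.2 + cr r x.1 * ((x.2 : ℝ) * cr s x.2)) := by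
        refine Finset.sum_congr rfl (fun x hx => ?_)
        have h2 : (x.1 : ℝ) + x.2 = k + 1 := by
          have := Finset.HasAntidiagonal.mem_antidiagonal.1 hx
          exact_mod_cast this
        rw [← h2]
        ring
      have e2 : ∑ x ∈ Finset.HasAntidiagonal.antidiagonal (k + 1),
          (x.1 : ℝ) * cr r x.1 * cr s x.2 =
          ∑ x ∈ Finset.HasAntidiagonal.antidiagonal k, (r + x.1) * cr r x.1 * cr s x.2 := by
        rw [Finset.Nat.sum_antidiagonal_succ]
        simp only [Nat.cast_zero, zero_mul, zero_add]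
        refine Finset.sum_congr rfl (fun x _ => ?_)
        rw [← cr_succ]
        push_cast
        ring
      have e3 : ∑ x ∈ Finset.HasAntidiagonal.antidiagonal (k + 1),
          cr r x.1 * ((x.2 : ℝ) * cr s x.2) =
          ∑ x ∈ Finset.HasAntidiagonal.antidiagonal k, cr r x.1 * ((s + x.2) * cr s x.2) := by
        rw [Finset.Nat.sum_antidiagonal_succ']
        simp only [Nat.cast_zero, zero_mul, mul_zero, zero_add]
        refine Finset.sum_congr rfl (fun x _ => ?_)
        rw [← cr_succ]
        push_cast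
        ring
      rw [e1, Finset.sum_add_distrib, e2, e3, ← Finset.sum_add_distrib]
      refine Finset.sum_congr rfl (fun x hx => ?_)
      have h2 : (x.1 : ℝ) + x.2 = k := by
        have := Finset.HasAntidiagonal.mem_antidiagonal.1 hx
        exact_mod_cast this
      rw [← h2]
      ring
    exact mul_left_cancel₀ hk h1

theorem dr_mult (r : ℝ) : (dr r).IsMultiplicative := by
  rw [ArithmeticFunction.IsMultiplicative.iff_ne_zero]
  refine ⟨by rw [dr_apply r one_ne_zero]; simp, fun {m n} hm hn hmn => ?_⟩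
  rw [dr_apply r (mul_ne_zero hm hn), dr_apply r hm, dr_apply r hn,
    Nat.factorization_mul_of_coprime hmn, Finsupp.prod_add_index_of_disjoint]
  rw [Nat.support_factorization, Nat.support_factorization]
  exact hmn.disjoint_primeFactors

theorem dr_prime_pow (r : ℝ) {p : ℕ} (hp : p.Prime) (k : ℕ) : dr r (p ^ k) = cr r k := by
  rw [dr_apply r (pow_ne_zero _ hp.ne_zero), hp.factorization_pow, Finsupp.prod_single_index]
  exact cr_zero_right r

theorem dr_prime (r : ℝ) {p : ℕ} (hp : p.Prime) : dr r p = r := by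
  have := dr_prime_pow r hp 1
  rw [pow_one] at this
  rw [this]
  simp [cr]

theorem dr_nonneg {r : ℝ} (hr : 0 ≤ r) (n : ℕ) : 0 ≤ dr r n := by
  by_cases hn : n = 0
  · rw [hn]; simp
  · rw [dr_apply r hn]
    exact Finset.prod_nonneg (fun i _ => cr_nonneg hr _)

theorem dr_add (r s : ℝ) : dr r * dr s = dr (r + s) := by
  rw [ArithmeticFunction.IsMultiplicative.eq_iff_eq_on_prime_powers _
    ((dr_mult r).mul (dr_mult s)) _ (dr_mult (r + s))]
  intro p k hp
  rw [dr_prime_pow _ hp, ArithmeticFunction.mul_apply, ← cr_add,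
    Nat.sum_divisorsAntidiagonal (f := fun x y => dr r x * dr s y), Nat.divisors_prime_pow hp,
    Finset.sum_map, Finset.Nat.sum_antidiagonal_eq_sum_range_succ_mk]
  refine Finset.sum_congr rfl (fun i hi => ?_)
  have hi' : i ≤ k := Nat.lt_succ_iff.1 (Finset.mem_range.1 hi)
  simp only [Function.Embedding.coeFn_mk]
  rw [Nat.pow_div hi' hp.pos, dr_prime_pow _ hp, dr_prime_pow _ hp]

theorem dr_zero : dr 0 = 1 := by
  rw [ArithmeticFunction.IsMultiplicative.eq_iff_eq_on_prime_powers _ (dr_mult 0) _
    ArithmeticFunction.isMultiplicative_one]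
  intro p k hp
  rw [dr_prime_pow _ hp]
  cases k with
  | zero => simp [cr_zero_right]
  | succ k =>
    have h1 : p ^ (k + 1) ≠ 1 := by
      have := hp.one_lt
      exact (Nat.one_lt_pow (by omega) this).ne'
    rw [ArithmeticFunction.one_apply_ne h1, cr, Finset.prod_range_succ']
    simp

theorem dr_one (n : ℕ) : dr 1 n = if n = 0 then 0 else 1 := by
  by_cases hn : n = 0
  · rw [hn]; simp
  · rw [dr_apply 1 hn, if_neg hn]
    refine Finset.prod_eq_one (fun i _ => ?_)
    refine Finset.prod_eq_one (fun j _ => ?_)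
    have : (j : ℝ) + 1 ≠ 0 := by positivity
    rw [add_comm, div_self this]

theorem dr_nsmul (r : ℝ) (D : ℕ) : dr r ^ D = dr (D * r) := by
  induction D with
  | zero => simp [dr_zero]
  | succ D ih =>
    rw [pow_succ, ih, dr_add]
    congr 1
    push_cast
    ring

theorem dr_sum {ι : Type*} (s : Finset ι) (r : ι → ℝ) : ∏ i ∈ s, dr (r i) = dr (∑ i ∈ s, r i) := by
  classical
  induction s using Finset.induction_on with
  | empty => simp [dr_zero]
  | insert i s hi ih => rw [Finset.prod_insert hi, ih, dr_add, Finset.sum_insert hi]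

end Pool.Agent.Selb
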