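import Mathlib

/-!
# Selb/D1Glas: an elementary integral

`∫_0^∞ x^(-1/2) exp (-a²/x - b² x) dx = (√π / b) exp (-2 a b)` for `a, b > 0`.

Put `J = ∫_0^∞ exp (-(b u - a/u)²) du`. With `x = u²` (`dx = 2 u du`; e.g.
`MeasureTheory.integral_comp_rpow_Ioi` with exponent `2`, or `integral_image_eq_integral_abs_deriv_smul`) the
integral is `2 exp (-2 a b) J`, as `-a²/u² - b² u² = -(b u - a/u)² - 2 a b`. The substitution `u ↦ a / (b u)` of
`(0, ∞)` gives `J = ∫_0^∞ (a / (b u²)) exp (-(b u - a/u)²) du`, so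
`2 b J = ∫_0^∞ (b + a/u²) exp (-(b u - a/u)²) du = ∫_ℝ exp (-v²) dv = √π` (`v = b u - a/u` is an increasing bijection of
`(0, ∞)` onto `ℝ`, `integral_image_eq_integral_abs_deriv_smul` with image `univ`, `integral_gaussian`). So
`J = √π / (2 b)`.

Integrability (`glas_int`): the integrand is positive, `≤ x^(-1/2) exp (-b² x)` (`Real.GammaIntegral_convergent` /
`integrableOn_rpow_mul_exp_neg_mul_rpow`), measurable.
-/

set_option autoImplicit false

open MeasureTheory Set

namespace Pool.Agent.Selb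

theorem glas_int {a b : ℝ} (ha : 0 < a) (hb : 0 < b) :
    IntegrableOn (fun x : ℝ => x ^ (-(1 / 2) : ℝ) * Real.exp (-(a ^ 2 / x) - b ^ 2 * x)) (Ioi 0) := by
  have h1 : IntegrableOn (fun x : ℝ => x ^ (-(1 / 2) : ℝ) * Real.exp (-(b ^ 2) * x ^ (1 : ℝ)))
      (Ioi 0) :=
    integrableOn_rpow_mul_exp_neg_mul_rpow (by norm_num) one_pos (by positivity)
  refine Integrable.mono' h1 ?_ ?_
  · have : Measurable (fun x : ℝ => x ^ (-(1 / 2) : ℝ) * Real.exp (-(a ^ 2 / x) - b ^ 2 * x)) := by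
      fun_prop
    exact this.aestronglyMeasurable
  · refine ae_restrict_of_forall_mem measurableSet_Ioi fun x hx => ?_
    have hx' : 0 < x := hx
    rw [Real.norm_eq_abs, abs_of_nonneg (by positivity), Real.rpow_one]
    refine mul_le_mul_of_nonneg_left (Real.exp_le_exp.2 ?_) (by positivity)
    have : 0 ≤ a ^ 2 / x := by positivity
    linarith

private theorem rpow_half {x : ℝ} (hx : 0 < x) : x ^ (-(1 / 2) : ℝ) = 1 / Real.sqrt x := by
  rw [Real.rpow_neg hx.le, Real.sqrt_eq_rpow]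
  exact (one_div _).symm

/-- the substitution `x = (a / b)² / y` -/
private theorem glas_inv {a b : ℝ} (ha : 0 < a) (hb : 0 < b) :
    ∫ x in Ioi (0 : ℝ), 1 / (Real.sqrt x * x) * Real.exp (-(a ^ 2 / x) - b ^ 2 * x) =
      b / a * ∫ x in Ioi (0 : ℝ), 1 / Real.sqrt x * Real.exp (-(a ^ 2 / x) - b ^ 2 * x) := by
  have hc : (0 : ℝ) < (a / b) ^ 2 := by positivity
  have him : (fun y : ℝ => (a / b) ^ 2 / y) '' Ioi 0 = Ioi 0 := by
    ext x
    constructor
    · rintro ⟨y, hy, rfl⟩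
      have hy' : 0 < y := hy
      show 0 < (a / b) ^ 2 / y
      positivity
    · intro hx
      have hx' : 0 < x := hx
      refine ⟨(a / b) ^ 2 / x, ?_, ?_⟩
      · show 0 < (a / b) ^ 2 / x
        positivity
      · show (a / b) ^ 2 / ((a / b) ^ 2 / x) = x
        field_simp
  have h1 := integral_image_eq_integral_abs_deriv_smul (s := Ioi (0 : ℝ))
    (f := fun y : ℝ => (a / b) ^ 2 / y) (f' := fun y => -((a / b) ^ 2) / y ^ 2)
    measurableSet_Ioi (fun y hy => by
      have hy' : (0 : ℝ) < y := hy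
      have h2 := (hasDerivAt_inv hy'.ne').const_mul ((a / b) ^ 2)
      have e : (fun y : ℝ => (a / b) ^ 2 / y) = fun y => (a / b) ^ 2 * y⁻¹ := by
        funext y
        exact div_eq_mul_inv _ _
      have h3 : HasDerivAt (fun y : ℝ => (a / b) ^ 2 / y) (-((a / b) ^ 2) / y ^ 2) y := by
        rw [e]
        exact h2.congr_deriv (by field_simp)
      exact h3.hasDerivWithinAt) (fun x hx y hy hxy => by
      have hx' : (0 : ℝ) < x := hx
      have hy' : (0 : ℝ) < y := hy
      have h2 : (a / b) ^ 2 / x = (a / b) ^ 2 / y := hxy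
      rw [div_eq_div_iff hx'.ne' hy'.ne'] at h2
      exact (mul_left_cancel₀ hc.ne' h2).symm)
    (fun x => 1 / (Real.sqrt x * x) * Real.exp (-(a ^ 2 / x) - b ^ 2 * x))
  rw [him] at h1
  rw [h1, ← integral_const_mul]
  refine setIntegral_congr_fun measurableSet_Ioi fun y hy => ?_
  have hy' : (0 : ℝ) < y := hy
  have hsy : 0 < Real.sqrt y := Real.sqrt_pos.2 hy'
  have hsq : Real.sqrt y * Real.sqrt y = y := Real.mul_self_sqrt hy'.le
  have e1 : Real.sqrt ((a / b) ^ 2 / y) = a / b / Real.sqrt y := by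
    rw [Real.sqrt_div hc.le, Real.sqrt_sq (by positivity)]
  have e2 : -(a ^ 2 / ((a / b) ^ 2 / y)) - b ^ 2 * ((a / b) ^ 2 / y) = -(a ^ 2 / y) - b ^ 2 * y := by
    field_simp
    ring
  have e3 : |-((a / b) ^ 2) / y ^ 2| = (a / b) ^ 2 / y ^ 2 := by
    rw [neg_div, abs_neg, abs_of_nonneg (by positivity)]
  simp only [smul_eq_mul]
  rw [e1, e2, e3]
  have e4 : (a / b) ^ 2 / y ^ 2 * (1 / (a / b / Real.sqrt y * ((a / b) ^ 2 / y))) =
      b / a * (1 / Real.sqrt y) := by
    have : y ^ 2 = Real.sqrt y * Real.sqrt y * y := by rw [hsq]; ring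
    rw [this]
    field_simp
  rw [← mul_assoc, e4, mul_assoc]

/-- the substitution `v = b √x - a / √x` -/
private theorem glas_sub {a b : ℝ} (ha : 0 < a) (hb : 0 < b) :
    IntegrableOn (fun x : ℝ => (b / (2 * Real.sqrt x) + a / (2 * (Real.sqrt x * x))) *
        Real.exp (-(b * Real.sqrt x - a / Real.sqrt x) ^ 2)) (Ioi 0) ∧
      ∫ x in Ioi (0 : ℝ), (b / (2 * Real.sqrt x) + a / (2 * (Real.sqrt x * x))) *
        Real.exp (-(b * Real.sqrt x - a / Real.sqrt x) ^ 2) = Real.sqrt Real.pi := by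
  have hmono : ∀ x y : ℝ, 0 < x → x < y →
      b * Real.sqrt x - a / Real.sqrt x < b * Real.sqrt y - a / Real.sqrt y := by
    intro x y hx hxy
    have h1 : Real.sqrt x < Real.sqrt y := Real.sqrt_lt_sqrt hx.le hxy
    have h0 : 0 < Real.sqrt x := Real.sqrt_pos.2 hx
    have h2 : b * Real.sqrt x < b * Real.sqrt y := mul_lt_mul_of_pos_left h1 hb
    have h3 : a / Real.sqrt y < a / Real.sqrt x := div_lt_div_of_pos_left ha h0 h1
    linarith
  have hinj : InjOn (fun x : ℝ => b * Real.sqrt x - a / Real.sqrt x) (Ioi 0) := by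
    intro x hx y hy hxy
    have hx' : (0 : ℝ) < x := hx
    have hy' : (0 : ℝ) < y := hy
    rcases lt_trichotomy x y with h | h | h
    · exact absurd hxy (hmono x y hx' h).ne
    · exact h
    · exact absurd hxy (hmono y x hy' h).ne'
  have him : (fun x : ℝ => b * Real.sqrt x - a / Real.sqrt x) '' Ioi 0 = univ := by
    refine eq_univ_of_forall fun v => ?_
    have h1 : |v| < Real.sqrt (v ^ 2 + 4 * a * b) := by
      rw [← Real.sqrt_sq_eq_abs]
      exact Real.sqrt_lt_sqrt (sq_nonneg v) (by nlinarith [mul_pos ha hb])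
    have h2 : 0 < v + Real.sqrt (v ^ 2 + 4 * a * b) := by
      have := neg_abs_le v
      linarith
    have h3 : Real.sqrt (v ^ 2 + 4 * a * b) ^ 2 = v ^ 2 + 4 * a * b :=
      Real.sq_sqrt (by nlinarith [mul_pos ha hb, sq_nonneg v])
    obtain ⟨R, hR⟩ : ∃ R, R = Real.sqrt (v ^ 2 + 4 * a * b) := ⟨_, rfl⟩
    rw [← hR] at h2 h3
    have hu : 0 < (v + R) / (2 * b) := by positivity
    refine ⟨((v + R) / (2 * b)) ^ 2, ?_, ?_⟩
    · show 0 < ((v + R) / (2 * b)) ^ 2
      positivity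
    · show b * Real.sqrt (((v + R) / (2 * b)) ^ 2) - a / Real.sqrt (((v + R) / (2 * b)) ^ 2) = v
      rw [Real.sqrt_sq hu.le]
      field_simp
      nlinarith [h3]
  have hder : ∀ x ∈ Ioi (0 : ℝ), HasDerivWithinAt (fun x : ℝ => b * Real.sqrt x - a / Real.sqrt x)
      (b / (2 * Real.sqrt x) + a / (2 * (Real.sqrt x * x))) (Ioi 0) x := by
    intro x hx
    have hx' : (0 : ℝ) < x := hx
    have hs : 0 < Real.sqrt x := Real.sqrt_pos.2 hx'
    have hsq : Real.sqrt x ^ 2 = x := Real.sq_sqrt hx'.le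
    have h1 := Real.hasDerivAt_sqrt hx'.ne'
    have h2 := (h1.const_mul b).sub ((h1.inv hs.ne').const_mul a)
    have h3 : HasDerivAt (fun x : ℝ => b * Real.sqrt x - a / Real.sqrt x)
        (b / (2 * Real.sqrt x) + a / (2 * (Real.sqrt x * x))) x := by
      have e : (fun x : ℝ => b * Real.sqrt x - a / Real.sqrt x) =
          (fun y => b * Real.sqrt y) - fun y => a * (fun x => Real.sqrt x)⁻¹ y := by
        funext y
        show b * Real.sqrt y - a / Real.sqrt y = b * Real.sqrt y - a * (Real.sqrt y)⁻¹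
        rw [div_eq_mul_inv]
      rw [e]
      refine h2.congr_deriv ?_
      rw [hsq]
      field_simp
      ring
    exact h3.hasDerivWithinAt
  have hpos : ∀ x ∈ Ioi (0 : ℝ), |b / (2 * Real.sqrt x) + a / (2 * (Real.sqrt x * x))| =
      b / (2 * Real.sqrt x) + a / (2 * (Real.sqrt x * x)) := by
    intro x hx
    have hx' : (0 : ℝ) < x := hx
    exact abs_of_nonneg (by positivity)
  have hg : Integrable (fun v : ℝ => Real.exp (-v ^ 2)) := by
    have h := integrable_exp_neg_mul_sq (b := 1) one_pos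
    simpa using h
  have hgi : ∫ v : ℝ, Real.exp (-v ^ 2) = Real.sqrt Real.pi := by
    have h := integral_gaussian 1
    simpa using h
  constructor
  · have h1 := (integrableOn_image_iff_integrableOn_abs_deriv_smul measurableSet_Ioi hder hinj
      (fun v : ℝ => Real.exp (-v ^ 2))).1 (by rw [him]; exact hg.integrableOn)
    refine h1.congr_fun (fun x hx => ?_) measurableSet_Ioi
    simp only [smul_eq_mul]
    rw [hpos x hx]
  · have h1 := integral_image_eq_integral_abs_deriv_smul measurableSet_Ioi hder hinj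
      (fun v : ℝ => Real.exp (-v ^ 2))
    rw [him, setIntegral_univ, hgi] at h1
    rw [h1]
    refine setIntegral_congr_fun measurableSet_Ioi fun x hx => ?_
    simp only [smul_eq_mul]
    rw [hpos x hx]

theorem glasser {a b : ℝ} (ha : 0 < a) (hb : 0 < b) :
    ∫ x in Ioi (0 : ℝ), x ^ (-(1 / 2) : ℝ) * Real.exp (-(a ^ 2 / x) - b ^ 2 * x) =
      Real.sqrt Real.pi / b * Real.exp (-(2 * a * b)) := by
  obtain ⟨E, hE⟩ : ∃ E : ℝ → ℝ, E = fun x => Real.exp (-(a ^ 2 / x) - b ^ 2 * x) := ⟨_, rfl⟩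
  obtain ⟨h1, h2⟩ := glas_sub ha hb
  have hexp : ∀ x ∈ Ioi (0 : ℝ), (b / (2 * Real.sqrt x) + a / (2 * (Real.sqrt x * x))) *
      Real.exp (-(b * Real.sqrt x - a / Real.sqrt x) ^ 2) =
      Real.exp (2 * a * b) * (b / 2 * (1 / Real.sqrt x * E x) +
        a / 2 * (1 / (Real.sqrt x * x) * E x)) := by
    intro x hx
    have hx' : (0 : ℝ) < x := hx
    have hs : 0 < Real.sqrt x := Real.sqrt_pos.2 hx'
    have hsq : Real.sqrt x ^ 2 = x := Real.sq_sqrt hx'.le
    have e1 : -(b * Real.sqrt x - a / Real.sqrt x) ^ 2 = 2 * a * b + (-(a ^ 2 / x) - b ^ 2 * x) := by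
      have : (b * Real.sqrt x - a / Real.sqrt x) ^ 2 =
          b ^ 2 * Real.sqrt x ^ 2 - 2 * a * b + a ^ 2 / Real.sqrt x ^ 2 := by
        field_simp
        ring
      rw [this, hsq]
      ring
    rw [e1, Real.exp_add, hE]
    field_simp
  have hI : IntegrableOn (fun x : ℝ => 1 / Real.sqrt x * E x) (Ioi 0) := by
    refine (glas_int ha hb).congr_fun (fun x hx => ?_) measurableSet_Ioi
    simp only [hE]
    rw [rpow_half hx]
  have hS : IntegrableOn (fun x : ℝ => Real.exp (2 * a * b) * (b / 2 * (1 / Real.sqrt x * E x) +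
      a / 2 * (1 / (Real.sqrt x * x) * E x))) (Ioi 0) :=
    h1.congr_fun hexp measurableSet_Ioi
  have hK : IntegrableOn (fun x : ℝ => 1 / (Real.sqrt x * x) * E x) (Ioi 0) := by
    have h3 : IntegrableOn (fun x : ℝ => 2 / a * (Real.exp (-(2 * a * b)) *
        (Real.exp (2 * a * b) * (b / 2 * (1 / Real.sqrt x * E x) +
        a / 2 * (1 / (Real.sqrt x * x) * E x))) - b / 2 * (1 / Real.sqrt x * E x))) (Ioi 0) :=
      ((hS.const_mul _).sub (hI.const_mul _)).const_mul _
    refine h3.congr_fun (fun x hx => ?_) measurableSet_Ioi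
    show 2 / a * (Real.exp (-(2 * a * b)) *
        (Real.exp (2 * a * b) * (b / 2 * (1 / Real.sqrt x * E x) +
        a / 2 * (1 / (Real.sqrt x * x) * E x))) - b / 2 * (1 / Real.sqrt x * E x)) = _
    rw [← mul_assoc (Real.exp (-(2 * a * b))), ← Real.exp_add, neg_add_cancel, Real.exp_zero,
      one_mul, add_sub_cancel_left, ← mul_assoc]
    have : 2 / a * (a / 2) = 1 := by field_simp
    rw [this, one_mul]
  have h4 : ∫ x in Ioi (0 : ℝ), (b / (2 * Real.sqrt x) + a / (2 * (Real.sqrt x * x))) *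
      Real.exp (-(b * Real.sqrt x - a / Real.sqrt x) ^ 2) =
      Real.exp (2 * a * b) * (b / 2 * (∫ x in Ioi (0 : ℝ), 1 / Real.sqrt x * E x) +
        a / 2 * ∫ x in Ioi (0 : ℝ), 1 / (Real.sqrt x * x) * E x) := by
    rw [setIntegral_congr_fun measurableSet_Ioi hexp, integral_const_mul,
      integral_add (hI.const_mul _) (hK.const_mul _), integral_const_mul, integral_const_mul]
  have h5 := glas_inv ha hb
  have h6 : ∫ x in Ioi (0 : ℝ), x ^ (-(1 / 2) : ℝ) * Real.exp (-(a ^ 2 / x) - b ^ 2 * x) =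
      ∫ x in Ioi (0 : ℝ), 1 / Real.sqrt x * E x := by
    refine setIntegral_congr_fun measurableSet_Ioi fun x hx => ?_
    simp only [hE]
    rw [rpow_half hx]
  rw [h2] at h4
  have h7 : ∫ x in Ioi (0 : ℝ), 1 / (Real.sqrt x * x) * E x =
      b / a * ∫ x in Ioi (0 : ℝ), 1 / Real.sqrt x * E x := by
    rw [hE]
    exact h5
  rw [h7] at h4
  rw [h6]
  obtain ⟨J, hJ⟩ : ∃ J, J = ∫ x in Ioi (0 : ℝ), 1 / Real.sqrt x * E x := ⟨_, rfl⟩
  rw [← hJ] at h4 ⊢
  have h8 : b / 2 * J + a / 2 * (b / a * J) = b * J := by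
    field_simp
    ring
  rw [h8] at h4
  rw [h4, Real.exp_neg]
  have : Real.exp (2 * a * b) ≠ 0 := (Real.exp_pos _).ne'
  field_simp

end Pool.Agent.Selb
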