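import Pool.Agent.Selb.D1Theta
import Pool.Agent.Selb.D1Glas

/-!
# Selb/D1Lap: partial fractions against exponentials

For `t > 0` integrate `x ^ κ * exp (-π t² x / Q) * th A κ Q x` over `(0, ∞)` in two ways.
* `lap_left`: termwise (`hasSum_integral_of_summable_integral_norm`),
  `∫_0^∞ x^κ exp (-π (n² + t²) x / Q) dx = Γ(κ + 1) (Q / π)^(κ+1) / (n² + t²)^(κ+1)` and `Γ(κ + 1) = 1` for
  `κ = 0, 1` (`Real.integral_rpow_mul_exp_neg_mul_Ioi`; `κ = 0`: `integral_exp_neg_mul_Ioi`-type). The norms are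
  summable: `∑ n^κ / (n² + t²)^(κ+1) ≤ ∑ 1/n²`-like (`n = 0`: `A 0 = 0`).
* `lap_right`: by `theta_rel` the integrand is
  `ω x^(-1/2) exp (-π t² x / Q) ∑ conj (A n) n^κ exp (-π n² / (Q x))`, termwise by `glasser` with
  `a = n √(π/Q)`, `b = t √(π/Q)` (`n ≥ 1`): `√π / b = √Q / t`, `2 a b = 2 π n t / Q`. The norms are summable
  (`n^κ exp (-2 π n t/Q)`).
* `lap_real`: combine.
* `lap_compl`: both sides of the identity (after multiplying by `t`) are holomorphic in `re t > 0` (`ratS`: on a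
  compact subset `‖n² + t²‖ = ‖n + i t‖ ‖n - i t‖ ≥` positive constant for all `n`, and `≥ n²/4` for `n ≥ 2 ‖t‖`, `≥ n²/2`...;
  `differentiableOn_tsum_of_summable_norm` on bounded open subsets `{re t > δ, ‖t‖ < R}`; `expS`: terms bounded by
  `n exp (-2 π n δ / Q)`), and agree on the positive reals, so everywhere
  (`AnalyticOnNhd.eqOn_of_preconnected_of_frequently_eq`, the half plane is convex).
-/

set_option autoImplicit false

open Complex MeasureTheory Filter Topology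

namespace Pool.Agent.Selb

variable {A : ℕ → ℂ} {κ : ℕ} {Q : ℝ} {ω : ℂ} {Φ : ℂ → ℂ} {C : ℝ}

namespace D1LapAux

/-- `∫_0^∞ x^κ exp (-c x) = 1 / c^(κ+1)` for `κ = 0, 1` -/
theorem int_pow_exp (hκ : κ = 0 ∨ κ = 1) {c : ℝ} (hc : 0 < c) :
    ∫ x in Set.Ioi (0 : ℝ), x ^ κ * Real.exp (-(c * x)) = (1 / c) ^ (κ + 1) := by
  have h := Real.integral_rpow_mul_exp_neg_mul_Ioi (a := (κ : ℝ) + 1) (by positivity) hc
  rw [add_sub_cancel_right] at h
  simp only [Real.rpow_natCast] at h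
  rw [h]
  have h1 : Real.Gamma ((κ : ℝ) + 1) = 1 := by
    rw [Real.Gamma_nat_eq_factorial]
    rcases hκ with rfl | rfl <;> simp
  rw [h1, mul_one, ← Nat.cast_add_one, Real.rpow_natCast]

theorem intble_pow_exp (hκ : κ = 0 ∨ κ = 1) {c : ℝ} (hc : 0 < c) :
    IntegrableOn (fun x : ℝ => x ^ κ * Real.exp (-(c * x))) (Set.Ioi (0 : ℝ)) := by
  by_contra hcon
  have h := int_pow_exp hκ hc
  rw [integral_undef hcon] at h
  have : 0 < (1 / c) ^ (κ + 1) := by positivity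
  linarith

end D1LapAux

open D1LapAux D1ThetaAux

theorem lap_left (h : DegOne A κ Q ω Φ C) {t : ℝ} (ht : 0 < t) :
    ∫ x in Set.Ioi (0 : ℝ), ((x ^ κ * Real.exp (-(Real.pi * t ^ 2 / Q) * x) : ℝ) : ℂ) * th A κ Q x =
      (((Q / Real.pi) ^ (κ + 1) : ℝ) : ℂ) *
        ∑' n : ℕ, A n * (n : ℂ) ^ κ / ((n : ℂ) ^ 2 + (t : ℂ) ^ 2) ^ (κ + 1) := by
  have hQ := h.Qpos
  have hpi := Real.pi_pos
  have hc : ∀ n : ℕ, 0 < Real.pi * ((n : ℝ) ^ 2 + t ^ 2) / Q := fun n => by positivity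
  obtain ⟨F, hF⟩ : ∃ F : ℕ → ℝ → ℂ, ∀ n x, F n x = (A n * (n : ℂ) ^ κ) *
      ((x ^ κ * Real.exp (-(Real.pi * ((n : ℝ) ^ 2 + t ^ 2) / Q * x)) : ℝ) : ℂ) := ⟨_, fun _ _ => rfl⟩
  have hFF : ∀ n, F n = fun x => (A n * (n : ℂ) ^ κ) *
      ((x ^ κ * Real.exp (-(Real.pi * ((n : ℝ) ^ 2 + t ^ 2) / Q * x)) : ℝ) : ℂ) := fun n => funext (hF n)
  have hint : ∀ n, Integrable (F n) (volume.restrict (Set.Ioi (0 : ℝ))) := by
    intro n
    rw [hFF]
    exact ((intble_pow_exp h.kap (hc n)).ofReal).const_mul _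
  have hval : ∀ n, ∫ x in Set.Ioi (0 : ℝ), F n x =
      (((Q / Real.pi) ^ (κ + 1) : ℝ) : ℂ) * (A n * (n : ℂ) ^ κ / ((n : ℂ) ^ 2 + (t : ℂ) ^ 2) ^ (κ + 1)) := by
    intro n
    rw [hFF]
    rw [integral_const_mul, integral_complex_ofReal, int_pow_exp h.kap (hc n)]
    have e : (1 / (Real.pi * ((n : ℝ) ^ 2 + t ^ 2) / Q)) ^ (κ + 1) =
        (Q / Real.pi) ^ (κ + 1) / ((n : ℝ) ^ 2 + t ^ 2) ^ (κ + 1) := by
      rw [← div_pow]
      congr 1
      field_simp
    rw [e]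
    push_cast
    ring
  have hnorm : ∀ n, ∫ x in Set.Ioi (0 : ℝ), ‖F n x‖ =
      (Q / Real.pi) ^ (κ + 1) * (‖A n‖ * (n : ℝ) ^ κ / ((n : ℝ) ^ 2 + t ^ 2) ^ (κ + 1)) := by
    intro n
    have e0 : ∀ x ∈ Set.Ioi (0 : ℝ), ‖F n x‖ = (‖A n‖ * (n : ℝ) ^ κ) *
        (x ^ κ * Real.exp (-(Real.pi * ((n : ℝ) ^ 2 + t ^ 2) / Q * x))) := by
      intro x hx
      rw [Set.mem_Ioi] at hx
      rw [hF, norm_mul, norm_mul, norm_pow, Complex.norm_natCast, Complex.norm_real, Real.norm_eq_abs,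
        abs_of_nonneg (by positivity)]
    rw [setIntegral_congr_fun measurableSet_Ioi e0, integral_const_mul, int_pow_exp h.kap (hc n)]
    have e : (1 / (Real.pi * ((n : ℝ) ^ 2 + t ^ 2) / Q)) ^ (κ + 1) =
        (Q / Real.pi) ^ (κ + 1) / ((n : ℝ) ^ 2 + t ^ 2) ^ (κ + 1) := by
      rw [← div_pow]
      congr 1
      field_simp
    rw [e]
    ring
  have hsum : Summable fun n => ∫ x in Set.Ioi (0 : ℝ), ‖F n x‖ := by
    simp only [hnorm]
    apply Summable.mul_left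
    have hs : Summable fun n : ℕ => 1 / (n : ℝ) ^ 2 := Real.summable_one_div_nat_pow.2 (by norm_num)
    refine Summable.of_nonneg_of_le (fun n => by positivity) (fun n => ?_) hs
    rcases Nat.eq_zero_or_pos n with rfl | hn
    · simp [h.A0]
    · have hn' : (0 : ℝ) < n := by exact_mod_cast hn
      have h1 : ((n : ℝ) ^ 2) ^ (κ + 1) ≤ ((n : ℝ) ^ 2 + t ^ 2) ^ (κ + 1) := by
        apply pow_le_pow_left₀ (by positivity)
        nlinarith [sq_nonneg t]
      have h2 : ‖A n‖ * (n : ℝ) ^ κ ≤ (n : ℝ) ^ κ := mul_le_of_le_one_left (by positivity) (h.Ale n)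
      calc ‖A n‖ * (n : ℝ) ^ κ / ((n : ℝ) ^ 2 + t ^ 2) ^ (κ + 1)
          ≤ (n : ℝ) ^ κ / ((n : ℝ) ^ 2) ^ (κ + 1) := by gcongr
        _ ≤ 1 / (n : ℝ) ^ 2 := by
          have h1n : (1 : ℝ) ≤ n := by exact_mod_cast hn
          rcases h.kap with rfl | rfl
          · simp
          · rw [div_le_div_iff₀ (by positivity) (by positivity)]
            have h5 : (n : ℝ) ^ 3 ≤ (n : ℝ) ^ 4 := pow_le_pow_right₀ h1n (by norm_num)
            calc (n : ℝ) ^ 1 * (n : ℝ) ^ 2 = (n : ℝ) ^ 3 := by ring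
              _ ≤ (n : ℝ) ^ 4 := h5
              _ = 1 * ((n : ℝ) ^ 2) ^ (1 + 1) := by ring
  have key := integral_tsum_of_summable_integral_norm hint hsum
  simp only [hval] at key
  rw [tsum_mul_left] at key
  rw [key]
  apply setIntegral_congr_fun measurableSet_Ioi
  intro x hx
  simp only [th]
  rw [← tsum_mul_left]
  apply tsum_congr
  intro n
  rw [hF]
  have e : Real.exp (-(Real.pi * ((n : ℝ) ^ 2 + t ^ 2) / Q * x)) =
      Real.exp (-(Real.pi * t ^ 2 / Q) * x) * Real.exp (-(Real.pi * (n : ℝ) ^ 2 / Q) * x) := by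
    rw [← Real.exp_add]; congr 1; ring
  rw [e]
  push_cast
  ring

theorem lap_right (h : DegOne A κ Q ω Φ C) {t : ℝ} (ht : 0 < t) :
    ∫ x in Set.Ioi (0 : ℝ), ((x ^ κ * Real.exp (-(Real.pi * t ^ 2 / Q) * x) : ℝ) : ℂ) * th A κ Q x =
      ω * ((Real.sqrt Q / t : ℝ) : ℂ) * expS A κ Q t := by
  have hQ := h.Qpos
  have hpi := Real.pi_pos
  obtain ⟨r, hr⟩ : ∃ r : ℝ, r = Real.sqrt (Real.pi / Q) := ⟨_, rfl⟩
  have hr0 : 0 < r := by rw [hr]; positivity
  have hr2 : r ^ 2 = Real.pi / Q := by rw [hr, Real.sq_sqrt (by positivity)]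
  obtain ⟨F, hF⟩ : ∃ F : ℕ → ℝ → ℂ, ∀ n x, F n x = (starRingEnd ℂ (A n) * (n : ℂ) ^ κ) *
      ((x ^ (-(1 / 2) : ℝ) * Real.exp (-(((n : ℝ) * r) ^ 2 / x) - (t * r) ^ 2 * x) : ℝ) : ℂ) :=
    ⟨_, fun _ _ => rfl⟩
  have hFF : ∀ n, F n = fun x => (starRingEnd ℂ (A n) * (n : ℂ) ^ κ) *
      ((x ^ (-(1 / 2) : ℝ) * Real.exp (-(((n : ℝ) * r) ^ 2 / x) - (t * r) ^ 2 * x) : ℝ) : ℂ) :=
    fun n => funext (hF n)
  have hF0 : F 0 = fun _ => 0 := by
    rw [hFF]; funext x; simp [h.A0]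
  have hb : 0 < t * r := by positivity
  have hint : ∀ n, Integrable (F n) (volume.restrict (Set.Ioi (0 : ℝ))) := by
    intro n
    rcases Nat.eq_zero_or_pos n with rfl | hn
    · rw [hF0]; exact integrable_zero _ _ _
    · have hn' : (0 : ℝ) < n := by exact_mod_cast hn
      rw [hFF]
      exact ((glas_int (by positivity : 0 < (n : ℝ) * r) hb).ofReal).const_mul _
  have hconst : Real.sqrt Real.pi / (t * r) = Real.sqrt Q / t := by
    rw [hr, Real.sqrt_div hpi.le]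
    have : 0 < Real.sqrt Real.pi := Real.sqrt_pos.2 hpi
    have : 0 < Real.sqrt Q := Real.sqrt_pos.2 hQ
    field_simp
  have hexp : ∀ n : ℕ, Real.exp (-(2 * ((n : ℝ) * r) * (t * r))) = Real.exp (-(2 * Real.pi * n * t / Q)) := by
    intro n
    congr 1
    have : 2 * ((n : ℝ) * r) * (t * r) = 2 * n * t * r ^ 2 := by ring
    rw [this, hr2]; ring
  have hval : ∀ n, ∫ x in Set.Ioi (0 : ℝ), F n x =
      ((Real.sqrt Q / t : ℝ) : ℂ) * (starRingEnd ℂ (A n) * (n : ℂ) ^ κ *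
        Complex.exp (-(2 * Real.pi * n * t / Q))) := by
    intro n
    rcases Nat.eq_zero_or_pos n with rfl | hn
    · rw [hF0]; simp [h.A0]
    · have hn' : (0 : ℝ) < n := by exact_mod_cast hn
      rw [hFF]
      rw [integral_const_mul, integral_complex_ofReal, glasser (by positivity : 0 < (n : ℝ) * r) hb,
        hconst, hexp]
      push_cast
      ring
  have hnorm : ∀ n, ∫ x in Set.Ioi (0 : ℝ), ‖F n x‖ =
      (Real.sqrt Q / t) * (‖A n‖ * (n : ℝ) ^ κ * Real.exp (-(2 * Real.pi * n * t / Q))) := by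
    intro n
    rcases Nat.eq_zero_or_pos n with rfl | hn
    · rw [hF0]; simp [h.A0]
    · have hn' : (0 : ℝ) < n := by exact_mod_cast hn
      have e0 : ∀ x ∈ Set.Ioi (0 : ℝ), ‖F n x‖ = (‖A n‖ * (n : ℝ) ^ κ) *
          (x ^ (-(1 / 2) : ℝ) * Real.exp (-(((n : ℝ) * r) ^ 2 / x) - (t * r) ^ 2 * x)) := by
        intro x hx
        rw [Set.mem_Ioi] at hx
        rw [hF, norm_mul, norm_mul, norm_pow, Complex.norm_natCast, RCLike.norm_conj, Complex.norm_real,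
          Real.norm_eq_abs, abs_of_nonneg (by positivity)]
      rw [setIntegral_congr_fun measurableSet_Ioi e0, integral_const_mul,
        glasser (by positivity : 0 < (n : ℝ) * r) hb, hconst, hexp]
      ring
  have hsum : Summable fun n => ∫ x in Set.Ioi (0 : ℝ), ‖F n x‖ := by
    simp only [hnorm]
    apply Summable.mul_left
    have hs : Summable fun n : ℕ => (n : ℝ) ^ κ * Real.exp (-(2 * Real.pi * t / Q) * n) :=
      Real.summable_pow_mul_exp_neg_nat_mul κ (by positivity)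
    refine Summable.of_nonneg_of_le (fun n => by positivity) (fun n => ?_) hs
    have e : -(2 * Real.pi * n * t / Q) = -(2 * Real.pi * t / Q) * n := by ring
    rw [e]
    gcongr
    exact mul_le_of_le_one_left (by positivity) (h.Ale n)
  have key := integral_tsum_of_summable_integral_norm hint hsum
  simp only [hval] at key
  rw [tsum_mul_left] at key
  have key2 : ω * ((Real.sqrt Q / t : ℝ) : ℂ) * expS A κ Q t =
      ω * ∫ x in Set.Ioi (0 : ℝ), ∑' n, F n x := by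
    rw [← key, expS]
    ring
  rw [key2, ← integral_const_mul]
  apply setIntegral_congr_fun measurableSet_Ioi
  intro x hx
  rw [Set.mem_Ioi] at hx
  simp only
  rw [theta_rel h hx]
  simp only [th]
  rw [Complex.conj_tsum]
  rw [← tsum_mul_left, ← tsum_mul_left, ← tsum_mul_left]
  apply tsum_congr
  intro n
  rw [hF]
  have e : Real.exp (-(((n : ℝ) * r) ^ 2 / x) - (t * r) ^ 2 * x) =
      Real.exp (-(Real.pi * t ^ 2 / Q) * x) * Real.exp (-(Real.pi * (n : ℝ) ^ 2 / Q) * x⁻¹) := by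
    rw [← Real.exp_add]; congr 1
    rw [mul_pow, mul_pow, hr2]
    field_simp
    ring
  have e2 : x ^ (-(1 / 2) : ℝ) = x ^ κ * x ^ (-(κ : ℝ) - 1 / 2) := by
    rw [← Real.rpow_natCast x κ, ← Real.rpow_add hx]; congr 1; ring
  rw [e, e2]
  simp only [map_mul, map_pow, Complex.conj_natCast, Complex.conj_ofReal]
  push_cast
  ring

theorem lap_real (h : DegOne A κ Q ω Φ C) {t : ℝ} (ht : 0 < t) :
    (((Q / Real.pi) ^ (κ + 1) : ℝ) : ℂ) * ratS A κ t = ω * ((Real.sqrt Q : ℝ) : ℂ) * expS A κ Q t := by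
  have h1 := lap_left h ht
  rw [lap_right h ht] at h1
  have h2 : (t : ℂ) ≠ 0 := Complex.ofReal_ne_zero.2 ht.ne'
  unfold ratS
  rw [mul_left_comm, ← h1]
  push_cast
  field_simp

end Pool.Agent.Selb
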