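import Pool.Agent.Selb.D1Lap

/-!
# Selb/D1LapC: the identity in the half plane `re t > 0`

Both sides are holomorphic in `re t > 0` and agree on the positive reals (`lap_real`), so everywhere
(`AnalyticOnNhd.eqOn_of_preconnected_of_frequently_eq`; the half plane is convex, `DifferentiableOn.analyticOnNhd`).
* `ratS_diff`: on `{re t > δ, ‖t‖ < R}`: `n² + t² = (n + i t)(n - i t)`, real parts/norms: `‖n ± i t‖ ≥ δ`
  (imaginary part `± re t`) and `≥ n - R`, so for `n ≥ 2 R` the term is at most `n^κ / (n²/4)^(κ+1) ≤ 16 / n^2`;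
  `differentiableOn_tsum_of_summable_norm` on that open set (denominators nonzero).
* `expS_diff`: terms bounded by `n exp (-2 π n δ / Q)` on `re t > δ`.
-/

set_option autoImplicit false

open Complex MeasureTheory Filter Topology

namespace Pool.Agent.Selb

variable {A : ℕ → ℂ} {κ : ℕ} {Q : ℝ} {ω : ℂ} {Φ : ℂ → ℂ} {C : ℝ}

private theorem d1lc_lower {δ R : ℝ} (hR : 1 ≤ R) {z : ℂ} (h1 : δ ≤ ‖z‖) {n : ℕ}
    (h2 : (n : ℝ) - R ≤ ‖z‖) : min (δ / (2 * R + 1)) (1 / 4) * ((n : ℝ) + 1) ≤ ‖z‖ := by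
  rcases le_or_gt (n : ℝ) (2 * R) with h | h
  · calc min (δ / (2 * R + 1)) (1 / 4) * ((n : ℝ) + 1) ≤ δ / (2 * R + 1) * ((n : ℝ) + 1) := by
          gcongr
          exact min_le_left _ _
      _ ≤ ‖z‖ := by
        rcases le_or_gt 0 δ with h0 | h0
        · calc δ / (2 * R + 1) * ((n : ℝ) + 1) ≤ δ / (2 * R + 1) * (2 * R + 1) := by
                gcongr
            _ = δ := by field_simp
            _ ≤ ‖z‖ := h1
        · refine le_trans ?_ (norm_nonneg z)
          have : δ / (2 * R + 1) ≤ 0 := div_nonpos_of_nonpos_of_nonneg h0.le (by linarith)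
          exact mul_nonpos_of_nonpos_of_nonneg this (by positivity)
  · calc min (δ / (2 * R + 1)) (1 / 4) * ((n : ℝ) + 1) ≤ 1 / 4 * ((n : ℝ) + 1) := by
          gcongr
          exact min_le_right _ _
      _ ≤ ‖z‖ := by linarith

private theorem d1lc_fac (n : ℕ) (t : ℂ) :
    (n : ℂ) ^ 2 + t ^ 2 = ((n : ℂ) + I * t) * ((n : ℂ) - I * t) := by
  ring_nf
  rw [I_sq]
  ring

private theorem d1lc_norm {δ R : ℝ} (hδ : 0 < δ) (hR : 1 ≤ R) {t : ℂ} (ht : δ < t.re)
    (htR : ‖t‖ < R) (n : ℕ) :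
    (min (δ / (2 * R + 1)) (1 / 4) * ((n : ℝ) + 1)) ^ 2 ≤ ‖(n : ℂ) ^ 2 + t ^ 2‖ := by
  have hIt : ‖I * t‖ = ‖t‖ := by rw [norm_mul, norm_I, one_mul]
  have hc : 0 ≤ min (δ / (2 * R + 1)) (1 / 4) * ((n : ℝ) + 1) := by positivity
  rw [d1lc_fac, norm_mul, sq]
  apply mul_le_mul _ _ hc (norm_nonneg _)
  · apply d1lc_lower hR
    · refine le_trans ?_ (Complex.abs_im_le_norm _)
      have : ((n : ℂ) + I * t).im = t.re := by simp
      rw [this, abs_of_pos (hδ.trans ht)]
      exact ht.le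
    · have := norm_sub_le ((n : ℂ) + I * t) (I * t)
      rw [add_sub_cancel_right, Complex.norm_natCast, hIt] at this
      linarith
  · apply d1lc_lower hR
    · refine le_trans ?_ (Complex.abs_im_le_norm _)
      have : ((n : ℂ) - I * t).im = -t.re := by simp
      rw [this, abs_neg, abs_of_pos (hδ.trans ht)]
      exact ht.le
    · have := norm_add_le ((n : ℂ) - I * t) (I * t)
      rw [sub_add_cancel, Complex.norm_natCast, hIt] at this
      linarith

private theorem d1lc_ne {t : ℂ} (ht : 0 < t.re) (n : ℕ) : (n : ℂ) ^ 2 + t ^ 2 ≠ 0 := by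
  rw [d1lc_fac]
  apply mul_ne_zero
  · intro h
    have := congrArg Complex.im h
    simp at this
    linarith
  · intro h
    have := congrArg Complex.im h
    simp at this
    linarith

private theorem d1lc_sum : Summable fun n : ℕ => 1 / ((n : ℝ) + 1) ^ 2 := by
  have h := (summable_nat_add_iff 1).2 (Real.summable_one_div_nat_pow.2 (one_lt_two))
  refine h.congr fun n => ?_
  push_cast
  rfl

theorem ratS_diff (hA : ∀ n, ‖A n‖ ≤ 1) (hκ : κ = 0 ∨ κ = 1) :
    DifferentiableOn ℂ (ratS A κ) {t : ℂ | 0 < t.re} := by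
  intro t0 ht0
  have ht0' : 0 < t0.re := ht0
  set δ : ℝ := t0.re / 2 with hδ
  set R : ℝ := ‖t0‖ + 1 with hR
  have hδ0 : 0 < δ := by positivity
  have hR1 : 1 ≤ R := by rw [hR]; linarith [norm_nonneg t0]
  set c : ℝ := min (δ / (2 * R + 1)) (1 / 4) with hc
  have hc0 : 0 < c := by rw [hc]; positivity
  set U : Set ℂ := {t : ℂ | δ < t.re} ∩ Metric.ball 0 R with hU
  have hUo : IsOpen U := (isOpen_lt continuous_const Complex.continuous_re).inter Metric.isOpen_ball
  have ht0U : t0 ∈ U := by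
    refine ⟨?_, ?_⟩
    · change δ < t0.re
      rw [hδ]; linarith
    · rw [mem_ball_zero_iff, hR]; linarith
  have hd : DifferentiableOn ℂ
      (fun t : ℂ => ∑' n : ℕ, A n * (n : ℂ) ^ κ / ((n : ℂ) ^ 2 + t ^ 2) ^ (κ + 1)) U := by
    refine differentiableOn_tsum_of_summable_norm
      (u := fun n : ℕ => 1 / (c ^ 2) ^ (κ + 1) * (1 / ((n : ℝ) + 1) ^ 2)) (d1lc_sum.mul_left _)
      (fun n => ?_) hUo (fun n t ht => ?_)
    · intro t ht
      have h1 : 0 < t.re := hδ0.trans ht.1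
      apply DifferentiableAt.differentiableWithinAt
      apply DifferentiableAt.div (by fun_prop) (by fun_prop)
      exact pow_ne_zero _ (d1lc_ne h1 n)
    · have h1 := d1lc_norm hδ0 hR1 ht.1 (by simpa using ht.2) n
      rw [← hc] at h1
      have h2 : 0 < c * ((n : ℝ) + 1) := by positivity
      rw [norm_div, norm_mul, norm_pow, norm_pow, Complex.norm_natCast]
      calc ‖A n‖ * (n : ℝ) ^ κ / ‖(n : ℂ) ^ 2 + t ^ 2‖ ^ (κ + 1)
          ≤ 1 * ((n : ℝ) + 1) ^ κ / ((c * ((n : ℝ) + 1)) ^ 2) ^ (κ + 1) := by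
            gcongr
            · exact hA n
            · linarith
        _ ≤ 1 / (c ^ 2) ^ (κ + 1) * (1 / ((n : ℝ) + 1) ^ 2) := by
            have h3 : (0 : ℝ) < (n : ℝ) + 1 := by positivity
            have h4 : (1 : ℝ) ≤ (n : ℝ) + 1 := by
              have : (0 : ℝ) ≤ n := Nat.cast_nonneg n
              linarith
            rw [mul_pow, mul_pow, one_div_mul_one_div, div_le_div_iff₀ (by positivity)
              (by positivity)]
            rcases hκ with rfl | rfl
            · simp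
            · have h5 : (n : ℝ) + 1 ≤ ((n : ℝ) + 1) ^ 2 := by nlinarith
              calc 1 * ((n : ℝ) + 1) ^ 1 * ((c ^ 2) ^ (1 + 1) * ((n : ℝ) + 1) ^ 2)
                  = ((n : ℝ) + 1) * ((c ^ 2) ^ (1 + 1) * ((n : ℝ) + 1) ^ 2) := by ring
                _ ≤ ((n : ℝ) + 1) ^ 2 * ((c ^ 2) ^ (1 + 1) * ((n : ℝ) + 1) ^ 2) := by
                    gcongr
                _ = 1 * ((c ^ 2) ^ (1 + 1) * (((n : ℝ) + 1) ^ 2) ^ (1 + 1)) := by ring
  have hd2 : DifferentiableAt ℂ
      (fun t : ℂ => ∑' n : ℕ, A n * (n : ℂ) ^ κ / ((n : ℂ) ^ 2 + t ^ 2) ^ (κ + 1)) t0 :=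
    hd.differentiableAt (hUo.mem_nhds ht0U)
  exact (differentiableAt_id.mul hd2).differentiableWithinAt

theorem expS_diff (hA : ∀ n, ‖A n‖ ≤ 1) (hκ : κ = 0 ∨ κ = 1) (hQ : 0 < Q) :
    DifferentiableOn ℂ (expS A κ Q) {t : ℂ | 0 < t.re} := by
  intro t0 ht0
  have ht0' : 0 < t0.re := ht0
  set δ : ℝ := t0.re / 2 with hδ
  have hδ0 : 0 < δ := by positivity
  set U : Set ℂ := {t : ℂ | δ < t.re} with hU
  have hUo : IsOpen U := isOpen_lt continuous_const Complex.continuous_re
  have ht0U : t0 ∈ U := by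
    change δ < t0.re
    rw [hδ]; linarith
  have hd : DifferentiableOn ℂ (expS A κ Q) U := by
    refine differentiableOn_tsum_of_summable_norm
      (u := fun n : ℕ => (n : ℝ) ^ κ * Real.exp (-(2 * Real.pi * δ / Q) * n))
      (Real.summable_pow_mul_exp_neg_nat_mul κ (by positivity))
      (fun n => ?_) hUo (fun n t ht => ?_)
    · exact (Differentiable.differentiableOn (by fun_prop))
    · have ht' : δ < t.re := ht
      rw [norm_mul, norm_mul, norm_pow, Complex.norm_natCast, RCLike.norm_conj, Complex.norm_exp]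
      have h1 : (-(2 * Real.pi * n * t / Q) : ℂ).re = -(2 * Real.pi * n * t.re / Q) := by
        have : (-(2 * Real.pi * n * t / Q) : ℂ) = ((-(2 * Real.pi * n / Q) : ℝ) : ℂ) * t := by
          push_cast; ring
        rw [this, Complex.re_ofReal_mul]
        ring
      rw [h1]
      have h2 : ‖A n‖ * (n : ℝ) ^ κ ≤ (n : ℝ) ^ κ := mul_le_of_le_one_left (by positivity) (hA n)
      apply mul_le_mul h2 _ (Real.exp_nonneg _) (by positivity)
      apply Real.exp_le_exp.2
      have h3 : 2 * Real.pi * δ / Q * n ≤ 2 * Real.pi * n * t.re / Q := by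
        calc 2 * Real.pi * δ / Q * n = 2 * Real.pi * n * δ / Q := by ring
          _ ≤ _ := by gcongr
      linarith
  exact (hd.differentiableAt (hUo.mem_nhds ht0U)).differentiableWithinAt

theorem lap_compl (h : DegOne A κ Q ω Φ C) {t : ℂ} (ht : 0 < t.re) :
    (((Q / Real.pi) ^ (κ + 1) : ℝ) : ℂ) * ratS A κ t = ω * ((Real.sqrt Q : ℝ) : ℂ) * expS A κ Q t := by
  have hUo : IsOpen {t : ℂ | 0 < t.re} := isOpen_lt continuous_const Complex.continuous_re
  have hf : AnalyticOnNhd ℂ (fun t => (((Q / Real.pi) ^ (κ + 1) : ℝ) : ℂ) * ratS A κ t)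
      {t : ℂ | 0 < t.re} :=
    DifferentiableOn.analyticOnNhd ((ratS_diff h.Ale h.kap).const_mul _) hUo
  have hg : AnalyticOnNhd ℂ (fun t => ω * ((Real.sqrt Q : ℝ) : ℂ) * expS A κ Q t)
      {t : ℂ | 0 < t.re} :=
    DifferentiableOn.analyticOnNhd ((expS_diff h.Ale h.kap h.Qpos).const_mul _) hUo
  have hconv : Convex ℝ {t : ℂ | 0 < t.re} := convex_halfSpace_re_gt 0
  have hfr : ∃ᶠ z in 𝓝[≠] (1 : ℂ), (((Q / Real.pi) ^ (κ + 1) : ℝ) : ℂ) * ratS A κ z =
      ω * ((Real.sqrt Q : ℝ) : ℂ) * expS A κ Q z := by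
    have ht1 : Tendsto (fun x : ℝ => (x : ℂ)) (𝓝[≠] (1 : ℝ)) (𝓝[≠] (1 : ℂ)) := by
      apply tendsto_nhdsWithin_of_tendsto_nhds_of_eventually_within
      · have : Tendsto (fun x : ℝ => (x : ℂ)) (𝓝 (1 : ℝ)) (𝓝 ((1 : ℝ) : ℂ)) :=
          Complex.continuous_ofReal.tendsto 1
        rw [Complex.ofReal_one] at this
        exact this.mono_left nhdsWithin_le_nhds
      · filter_upwards [self_mem_nhdsWithin] with x hx
        intro h1
        apply hx
        have : (x : ℂ) = ((1 : ℝ) : ℂ) := by rw [Complex.ofReal_one]; exact h1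
        exact Complex.ofReal_injective this
    apply ht1.frequently
    apply Eventually.frequently
    have : ∀ᶠ x : ℝ in 𝓝[≠] 1, 0 < x :=
      nhdsWithin_le_nhds (lt_mem_nhds one_pos)
    filter_upwards [this] with x hx
    exact lap_real h hx
  exact hf.eqOn_of_preconnected_of_frequently_eq hg hconv.isPreconnected
    (by simp : (1 : ℂ) ∈ {t : ℂ | 0 < t.re}) hfr ht

/-- `expS` has period `i Q` (`Complex.exp_periodic`: the exponent of the `n`-th term changes by `-2 π i n`) -/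
theorem expS_period (hQ : 0 < Q) (t : ℂ) : expS A κ Q (t + Q * I) = expS A κ Q t := by
  unfold expS
  congr 1
  ext n
  congr 1
  have hQ' : (Q : ℂ) ≠ 0 := Complex.ofReal_ne_zero.2 hQ.ne'
  have : (-(2 * Real.pi * n * (t + Q * I) / Q) : ℂ) =
      -(2 * Real.pi * n * t / Q) - n * (2 * Real.pi * I) := by
    field_simp
    ring
  rw [this]
  exact Complex.exp_periodic.sub_nat_mul_eq n

theorem ratS_period (h : DegOne A κ Q ω Φ C) {t : ℂ} (ht : 0 < t.re) :
    ratS A κ (t + Q * I) = ratS A κ t := by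
  have h1 := lap_compl h ht
  have h2 := lap_compl h (t := t + Q * I) (by simpa using ht)
  rw [expS_period h.Qpos, ← h1] at h2
  have h3 : (((Q / Real.pi) ^ (κ + 1) : ℝ) : ℂ) ≠ 0 := by
    have := h.Qpos
    have := Real.pi_pos
    exact Complex.ofReal_ne_zero.2 (by positivity)
  exact mul_left_cancel₀ h3 h2

end Pool.Agent.Selb
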