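import Pool.Agent.Selb.D1Def

/-!
# Selb/D1Lim: boundary behaviour of the partial fraction series

`t = ε + i y`, `y > 0` fixed, `ε → 0+`. Dominated convergence for the whole series
`∑ ε^(κ+1) A n n^κ / (n² + t²)^(κ+1)`: with `n² + t² = (t - i n)(t + i n)`, `‖t - i n‖ ≥ ε`, `‖t - i n‖ ≥ |n - y|`,
`‖t + i n‖ ≥ n + y`.
-/

set_option autoImplicit false

open Complex Filter Topology

namespace Pool.Agent.Selb

/-- the constant in the limit -/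
noncomputable def kc (κ : ℕ) : ℂ := I / (2 * I) ^ (κ + 1)

lemma lim_re_le (x y : ℝ) : |x| ≤ ‖(x : ℂ) + (y : ℂ) * I‖ := by
  have := Complex.abs_re_le_norm ((x : ℂ) + (y : ℂ) * I)
  simpa using this

lemma lim_im_le (x y : ℝ) : |y| ≤ ‖(x : ℂ) + (y : ℂ) * I‖ := by
  have := Complex.abs_im_le_norm ((x : ℂ) + (y : ℂ) * I)
  simpa using this

lemma lim_norm_lower {ε y : ℝ} (hε : 0 < ε) (hy : 0 < y) (n : ℕ) :
    ε * y ≤ ‖(n : ℂ) ^ 2 + (ε + y * I) ^ 2‖ := by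
  have h1 : (n : ℂ) ^ 2 + (ε + y * I) ^ 2 = ((ε : ℂ) + ((y - n : ℝ) : ℂ) * I) *
      ((ε : ℂ) + ((y + n : ℝ) : ℂ) * I) := by
    push_cast
    ring_nf
    rw [I_sq]
    ring
  rw [h1, norm_mul]
  have h2 : ε ≤ ‖(ε : ℂ) + ((y - n : ℝ) : ℂ) * I‖ := by
    have := lim_re_le ε (y - n)
    exact (le_abs_self ε).trans this
  have h3 : y ≤ ‖(ε : ℂ) + ((y + n : ℝ) : ℂ) * I‖ := by
    have := lim_im_le ε (y + n)
    have h4 : y ≤ |y + n| := by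
      rw [abs_of_nonneg (by positivity)]
      have : (0 : ℝ) ≤ n := Nat.cast_nonneg n
      linarith
    exact h4.trans this
  exact mul_le_mul h2 h3 hy.le (norm_nonneg _)

lemma lim_norm_far {ε y : ℝ} (hy : 0 < y) {n : ℕ} (hn : 2 * y ≤ n) :
    (n : ℝ) ^ 2 / 2 ≤ ‖(n : ℂ) ^ 2 + (ε + y * I) ^ 2‖ := by
  have h1 : (n : ℂ) ^ 2 + (ε + y * I) ^ 2 = ((ε : ℂ) + ((y - n : ℝ) : ℂ) * I) *
      ((ε : ℂ) + ((y + n : ℝ) : ℂ) * I) := by
    push_cast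
    ring_nf
    rw [I_sq]
    ring
  rw [h1, norm_mul]
  have h2 : (n : ℝ) / 2 ≤ ‖(ε : ℂ) + ((y - n : ℝ) : ℂ) * I‖ := by
    have := lim_im_le ε (y - n)
    refine le_trans ?_ this
    rw [abs_sub_comm]
    refine le_trans ?_ (le_abs_self _)
    linarith
  have h3 : (n : ℝ) ≤ ‖(ε : ℂ) + ((y + n : ℝ) : ℂ) * I‖ := by
    have := lim_im_le ε (y + n)
    refine le_trans ?_ this
    refine le_trans ?_ (le_abs_self _)
    linarith
  have h0 : (0 : ℝ) ≤ n := Nat.cast_nonneg n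
  have := mul_le_mul h2 h3 h0 (norm_nonneg _)
  calc (n : ℝ) ^ 2 / 2 = n / 2 * n := by ring
    _ ≤ _ := this

/-- dominated convergence -/
lemma lim_tsum {A : ℕ → ℂ} {κ : ℕ} (hA : ∀ n, ‖A n‖ ≤ 1) (hκ : κ = 0 ∨ κ = 1) {y : ℝ}
    (hy : 0 < y) (L : ℕ → ℂ)
    (hL : ∀ n : ℕ, Tendsto (fun ε : ℝ => (ε : ℂ) ^ (κ + 1) * (ε + y * I) *
      (A n * (n : ℂ) ^ κ / ((n : ℂ) ^ 2 + (ε + y * I) ^ 2) ^ (κ + 1))) (𝓝[>] 0) (𝓝 (L n))) :
    Tendsto (fun ε : ℝ => (ε : ℂ) ^ (κ + 1) * ratS A κ (ε + y * I)) (𝓝[>] 0) (𝓝 (∑' n, L n)) := by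
  have he : (fun ε : ℝ => (ε : ℂ) ^ (κ + 1) * ratS A κ (ε + y * I)) = fun ε : ℝ =>
      ∑' n : ℕ, (ε : ℂ) ^ (κ + 1) * (ε + y * I) *
      (A n * (n : ℂ) ^ κ / ((n : ℂ) ^ 2 + (ε + y * I) ^ 2) ^ (κ + 1)) := by
    funext ε
    unfold ratS
    rw [tsum_mul_left, mul_assoc]
  rw [he]
  set K : ℕ := ⌈2 * y⌉₊ + 1 with hK
  set B : ℝ := (1 + y) * (K : ℝ) ^ κ * (1 / y) ^ (κ + 1) with hB
  refine tendsto_tsum_of_dominated_convergence
    (bound := fun n : ℕ => (if n < K then B else 0) + (1 + y) * 4 * (1 / (n : ℝ) ^ 2)) ?_ hL ?_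
  · refine Summable.add ?_ ?_
    · refine summable_of_ne_finset_zero (s := Finset.range K) (fun n hn => ?_)
      rw [if_neg (by simpa using hn)]
    · exact (Real.summable_one_div_nat_pow.2 (by norm_num)).mul_left _
  · filter_upwards [self_mem_nhdsWithin, nhdsWithin_le_nhds (Iio_mem_nhds (zero_lt_one' ℝ))]
      with ε hε hε1 n
    have hε0 : 0 < ε := hε
    have hε1' : ε < 1 := hε1
    have hy1 : ‖(ε : ℂ) + y * I‖ ≤ 1 + y := by
      refine (norm_add_le _ _).trans ?_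
      rw [norm_mul, norm_I, mul_one, norm_real, norm_real, Real.norm_of_nonneg hε0.le,
        Real.norm_of_nonneg hy.le]
      linarith
    have hnn : (0 : ℝ) ≤ n := Nat.cast_nonneg n
    have hBn : 0 ≤ B := by positivity
    rw [norm_mul, norm_mul, norm_pow, norm_real, Real.norm_of_nonneg hε0.le, norm_div, norm_mul,
      norm_pow, norm_pow, norm_natCast]
    by_cases hn : n < K
    · rw [if_pos hn]
      refine le_trans ?_ (le_add_of_nonneg_right (by positivity))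
      have h1 := lim_norm_lower hε0 hy n
      have h2 : ‖A n‖ * (n : ℝ) ^ κ / ‖(n : ℂ) ^ 2 + (ε + y * I) ^ 2‖ ^ (κ + 1) ≤
          (K : ℝ) ^ κ / (ε * y) ^ (κ + 1) := by
        have hnK : (n : ℝ) ≤ K := by exact_mod_cast hn.le
        refine div_le_div₀ (by positivity) ?_ (by positivity) (pow_le_pow_left₀ (by positivity) h1 _)
        calc ‖A n‖ * (n : ℝ) ^ κ ≤ 1 * (K : ℝ) ^ κ :=
              mul_le_mul (hA n) (pow_le_pow_left₀ hnn hnK _) (by positivity) zero_le_one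
          _ = _ := one_mul _
      calc ε ^ (κ + 1) * ‖(ε : ℂ) + y * I‖ * (‖A n‖ * (n : ℝ) ^ κ /
            ‖(n : ℂ) ^ 2 + (ε + y * I) ^ 2‖ ^ (κ + 1))
          ≤ ε ^ (κ + 1) * (1 + y) * ((K : ℝ) ^ κ / (ε * y) ^ (κ + 1)) := by
            gcongr
        _ = B := by
            rw [hB, mul_pow, div_pow, one_pow]
            have : ε ^ (κ + 1) ≠ 0 := by positivity
            have : y ^ (κ + 1) ≠ 0 := by positivity
            field_simp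
    · rw [if_neg hn, zero_add]
      have hn2 : 2 * y ≤ n := by
        have h1 := Nat.le_ceil (2 * y)
        have h2 : ⌈2 * y⌉₊ ≤ n := by omega
        exact h1.trans (by exact_mod_cast h2)
      have hn1 : (1 : ℝ) ≤ n := by
        have : 1 ≤ n := by omega
        exact_mod_cast this
      have h1 := lim_norm_far (ε := ε) hy hn2
      have h2 : ‖A n‖ * (n : ℝ) ^ κ / ‖(n : ℂ) ^ 2 + (ε + y * I) ^ 2‖ ^ (κ + 1) ≤
          4 * (1 / (n : ℝ) ^ 2) := by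
        have h3 : ‖A n‖ * (n : ℝ) ^ κ / ‖(n : ℂ) ^ 2 + (ε + y * I) ^ 2‖ ^ (κ + 1) ≤
            1 * (n : ℝ) ^ κ / ((n : ℝ) ^ 2 / 2) ^ (κ + 1) := by
          have := hA n
          gcongr
        refine h3.trans ?_
        rcases hκ with rfl | rfl
        · simp only [pow_zero, mul_one, zero_add, pow_one]
          rw [one_div_div, mul_one_div]
          gcongr
          norm_num
        · simp only [pow_one, one_mul]
          rw [mul_one_div, div_le_div_iff₀ (by positivity) (by positivity)]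
          have h5 : (n : ℝ) * n ^ 2 ≤ n ^ 4 := by
            have : (n : ℝ) ^ 3 * 1 ≤ n ^ 3 * n := by gcongr
            nlinarith
          nlinarith
      calc ε ^ (κ + 1) * ‖(ε : ℂ) + y * I‖ * (‖A n‖ * (n : ℝ) ^ κ /
            ‖(n : ℂ) ^ 2 + (ε + y * I) ^ 2‖ ^ (κ + 1))
          ≤ 1 * (1 + y) * (4 * (1 / (n : ℝ) ^ 2)) := by
            gcongr
            exact pow_le_one₀ hε0.le hε1'.le
        _ = _ := by ring

lemma lim_zero_term {A : ℕ → ℂ} {κ : ℕ} {y : ℝ} {n : ℕ} (hy : 0 < y) (hn : (n : ℝ) ≠ y) :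
    Tendsto (fun ε : ℝ => (ε : ℂ) ^ (κ + 1) * (ε + y * I) *
      (A n * (n : ℂ) ^ κ / ((n : ℂ) ^ 2 + (ε + y * I) ^ 2) ^ (κ + 1))) (𝓝[>] 0) (𝓝 0) := by
  have hne : ((n : ℂ) ^ 2 + ((0 : ℝ) + y * I) ^ 2) ^ (κ + 1) ≠ 0 := by
    refine pow_ne_zero _ ?_
    have h1 : (n : ℂ) ^ 2 + ((0 : ℝ) + y * I) ^ 2 = (((n : ℝ) - y) * ((n : ℝ) + y) : ℝ) := by
      push_cast
      ring_nf
      rw [I_sq]
      ring
    rw [h1]
    refine Complex.ofReal_ne_zero.2 (mul_ne_zero (sub_ne_zero.2 hn) ?_)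
    have : (0 : ℝ) ≤ n := Nat.cast_nonneg n
    positivity
  have hc : ContinuousAt (fun ε : ℝ => (ε : ℂ) ^ (κ + 1) * (ε + y * I) *
      (A n * (n : ℂ) ^ κ / ((n : ℂ) ^ 2 + (ε + y * I) ^ 2) ^ (κ + 1))) 0 := by
    refine ContinuousAt.mul (by fun_prop) (ContinuousAt.div (by fun_prop) (by fun_prop) hne)
  have h1 := hc.tendsto.mono_left (nhdsWithin_le_nhds (s := Set.Ioi (0 : ℝ)))
  simpa using h1

lemma lim_main_term {A : ℕ → ℂ} {κ : ℕ} {n : ℕ} (hn : 1 ≤ n) :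
    Tendsto (fun ε : ℝ => (ε : ℂ) ^ (κ + 1) * (ε + (n : ℝ) * I) *
      (A n * (n : ℂ) ^ κ / ((n : ℂ) ^ 2 + (ε + (n : ℝ) * I) ^ 2) ^ (κ + 1))) (𝓝[>] 0)
      (𝓝 (kc κ * A n)) := by
  have hn0 : (n : ℂ) ≠ 0 := by exact_mod_cast (by omega : n ≠ 0)
  have hne : ((0 : ℝ) + 2 * n * I : ℂ) ^ (κ + 1) ≠ 0 := by
    refine pow_ne_zero _ ?_
    simp [hn0]
  have hc : ContinuousAt (fun ε : ℝ => ((ε : ℂ) + n * I) *
      (A n * (n : ℂ) ^ κ / ((ε : ℂ) + 2 * n * I) ^ (κ + 1))) 0 := by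
    refine ContinuousAt.mul (by fun_prop) (ContinuousAt.div (by fun_prop) (by fun_prop) hne)
  have h1 := hc.tendsto.mono_left (nhdsWithin_le_nhds (s := Set.Ioi (0 : ℝ)))
  have h2 : (((0 : ℝ) : ℂ) + n * I) * (A n * (n : ℂ) ^ κ / (((0 : ℝ) : ℂ) + 2 * n * I) ^ (κ + 1)) =
      kc κ * A n := by
    unfold kc
    simp only [Complex.ofReal_zero, zero_add]
    have h3 : (2 * I : ℂ) ^ (κ + 1) ≠ 0 := pow_ne_zero _ (by simp)
    have h4 : (n : ℂ) ^ (κ + 1) ≠ 0 := pow_ne_zero _ hn0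
    have h5 : (2 * n * I : ℂ) ^ (κ + 1) = (2 * I) ^ (κ + 1) * (n : ℂ) ^ (κ + 1) := by
      rw [← mul_pow]
      congr 1
      ring
    rw [h5]
    field_simp
    ring
  rw [h2] at h1
  refine h1.congr' ?_
  filter_upwards [self_mem_nhdsWithin] with ε hε
  have hε0 : (ε : ℂ) ≠ 0 := Complex.ofReal_ne_zero.2 (ne_of_gt hε)
  have h3 : (n : ℂ) ^ 2 + (ε + (n : ℝ) * I) ^ 2 = ε * (ε + 2 * n * I) := by
    push_cast
    ring_nf
    rw [I_sq]
    ring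
  rw [h3, mul_pow]
  have h4 : (ε : ℂ) ^ (κ + 1) ≠ 0 := pow_ne_zero _ hε0
  push_cast
  rw [div_mul_eq_div_div, mul_assoc, mul_div_assoc', mul_comm ((ε : ℂ) ^ (κ + 1))]
  field_simp

theorem ratS_lim {A : ℕ → ℂ} {κ : ℕ} (hA : ∀ n, ‖A n‖ ≤ 1) (hκ : κ = 0 ∨ κ = 1) {n : ℕ}
    (hn : 1 ≤ n) :
    Tendsto (fun ε : ℝ => (ε : ℂ) ^ (κ + 1) * ratS A κ (ε + n * I)) (𝓝[>] 0) (𝓝 (kc κ * A n)) := by
  classical
  have hn0 : (0 : ℝ) < n := by exact_mod_cast hn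
  have h1 := lim_tsum hA hκ hn0 (fun m => if m = n then kc κ * A n else 0) (fun m => by
    by_cases h : m = n
    · rw [if_pos h, h]
      exact lim_main_term hn
    · rw [if_neg h]
      exact lim_zero_term hn0 (by exact_mod_cast h))
  rw [tsum_ite_eq] at h1
  exact h1

theorem ratS_lim_zero {A : ℕ → ℂ} {κ : ℕ} (hA : ∀ n, ‖A n‖ ≤ 1) (hκ : κ = 0 ∨ κ = 1) {y : ℝ}
    (hy : 0 < y) (hn : ∀ n : ℕ, (n : ℝ) ≠ y) :
    Tendsto (fun ε : ℝ => (ε : ℂ) ^ (κ + 1) * ratS A κ (ε + y * I)) (𝓝[>] 0) (𝓝 0) := by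
  have h1 := lim_tsum hA hκ hy (fun _ => 0) (fun m => lim_zero_term hy (hn m))
  rw [tsum_zero] at h1
  exact h1

end Pool.Agent.Selb
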