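import Mathlib

set_option autoImplicit false

open Complex Metric Filter Topology

namespace Pool.Agent.Selb

/-- multiplicity of the zero of `f` at `z` -/
noncomputable abbrev ord (f : ℂ → ℂ) (z : ℂ) : ℕ := analyticOrderNatAt f z

lemma order_ne_top {f : ℂ → ℂ} (hf : Differentiable ℂ f) (hne : ∃ z, f z ≠ 0) (ρ : ℂ) :
    analyticOrderAt f ρ ≠ ⊤ := by
  intro h
  have h1 := (AnalyticOnNhd.analyticOrderAt_eq_top_iff_eq_zero ρ
    (fun z => hf.analyticAt z)).1 h
  obtain ⟨z, hz⟩ := hne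
  exact hz (by rw [h1]; rfl)

lemma ord_eq_zero {f : ℂ → ℂ} {z : ℂ} (h : f z ≠ 0) : ord f z = 0 := by
  by_contra h0
  exact h (apply_eq_zero_of_analyticOrderNatAt_ne_zero h0)

lemma ord_pos {f : ℂ → ℂ} (hf : Differentiable ℂ f) (hne : ∃ z, f z ≠ 0) {z : ℂ}
    (h : f z = 0) : 0 < ord f z := by
  rcases Nat.eq_zero_or_pos (ord f z) with h0 | h0
  · exfalso
    have h1 : analyticOrderAt f z = 0 := by
      rw [← Nat.cast_analyticOrderNatAt (order_ne_top hf hne z)]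
      show ((ord f z : ℕ) : ℕ∞) = 0
      rw [h0]; rfl
    exact ((hf.analyticAt z).analyticOrderAt_eq_zero.1 h1) h
  · exact h0

lemma factor_one {f : ℂ → ℂ} (hf : Differentiable ℂ f) (hne : ∃ z, f z ≠ 0) (ρ : ℂ) :
    ∃ g : ℂ → ℂ, Differentiable ℂ g ∧ g ρ ≠ 0 ∧ ∀ z, f z = (z - ρ) ^ ord f ρ * g z := by
  obtain ⟨g0, hg0, hg0ne, heq⟩ :=
    (hf.analyticAt ρ).analyticOrderAt_ne_top.1 (order_ne_top hf hne ρ)
  set n := ord f ρ with hn
  refine ⟨fun z => if z = ρ then g0 ρ else f z / (z - ρ) ^ n, ?_, by simpa using hg0ne, ?_⟩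
  · intro z
    by_cases hz : z = ρ
    · subst hz
      refine (hg0.differentiableAt).congr_of_eventuallyEq ?_
      filter_upwards [heq] with w hw
      by_cases hwz : w = z
      · simp [hwz]
      · simp only [hwz, if_false]
        rw [hw]
        have : (w - z) ^ n ≠ 0 := pow_ne_zero _ (sub_ne_zero.2 hwz)
        simp only [smul_eq_mul]
        field_simp
        exact mul_comm _ _
    · have h1 : DifferentiableAt ℂ (fun w => f w / (w - ρ) ^ n) z := by
        refine (hf z).div (by fun_prop) (pow_ne_zero _ (sub_ne_zero.2 hz))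
      refine h1.congr_of_eventuallyEq ?_
      filter_upwards [isOpen_ne.mem_nhds hz] with w hw
      simp only [if_neg hw]
  · intro z
    by_cases hz : z = ρ
    · subst hz
      have := heq.self_of_nhds
      simpa using this
    · simp only [hz, if_false]
      have : (z - ρ) ^ n ≠ 0 := pow_ne_zero _ (sub_ne_zero.2 hz)
      field_simp

lemma ord_mul {f g : ℂ → ℂ} (hf : Differentiable ℂ f) (hg : Differentiable ℂ g)
    (hfn : ∃ z, f z ≠ 0) (hgn : ∃ z, g z ≠ 0) (z : ℂ) :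
    ord (fun w => f w * g w) z = ord f z + ord g z := by
  have := analyticOrderNatAt_mul (hf.analyticAt z) (hg.analyticAt z)
    (order_ne_top hf hfn z) (order_ne_top hg hgn z)
  exact this

lemma factor_finset {f : ℂ → ℂ} (hf : Differentiable ℂ f) (hne : ∃ z, f z ≠ 0) (S : Finset ℂ) :
    ∃ g : ℂ → ℂ, Differentiable ℂ g ∧ (∀ ρ ∈ S, g ρ ≠ 0) ∧
      ∀ z, f z = (∏ ρ ∈ S, (z - ρ) ^ ord f ρ) * g z := by
  classical
  induction S using Finset.induction_on with
  | empty => exact ⟨f, hf, by simp, by simp⟩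
  | insert ρ S hρ ih =>
    obtain ⟨g, hg, hgne, hfg⟩ := ih
    have hgn : ∃ z, g z ≠ 0 := by
      obtain ⟨z, hz⟩ := hne
      exact ⟨z, fun h => hz (by rw [hfg, h, mul_zero])⟩
    obtain ⟨g', hg', hg'ne, hgg'⟩ := factor_one hg hgn ρ
    have hP : Differentiable ℂ (fun z => ∏ σ ∈ S, (z - σ) ^ ord f σ) := by fun_prop
    have hPρ : (∏ σ ∈ S, (ρ - σ) ^ ord f σ) ≠ 0 := by
      rw [Finset.prod_ne_zero_iff]
      intro σ hσ
      exact pow_ne_zero _ (sub_ne_zero.2 (fun h => hρ (h ▸ hσ)))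
    have hord : ord g ρ = ord f ρ := by
      have h1 : f = fun w => (∏ σ ∈ S, (w - σ) ^ ord f σ) * g w := funext hfg
      have h2 := ord_mul hP hg ⟨ρ, hPρ⟩ hgn ρ
      rw [← h1, ord_eq_zero (f := fun z => ∏ σ ∈ S, (z - σ) ^ ord f σ) hPρ, zero_add] at h2
      exact h2.symm
    refine ⟨g', hg', ?_, ?_⟩
    · intro σ hσ
      rcases Finset.mem_insert.1 hσ with h | h
      · subst h; exact hg'ne
      · intro h0
        have := hgne σ h
        apply this
        rw [hgg', h0, mul_zero]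
    · intro z
      rw [Finset.prod_insert hρ, hfg z, hgg' z, hord]
      ring

/-- The zeros of an entire function in a closed disc, as a finset. -/
lemma zeros_finite {f : ℂ → ℂ} (hf : Differentiable ℂ f) (hne : ∃ z, f z ≠ 0) (R : ℝ) :
    {z : ℂ | f z = 0 ∧ ‖z‖ ≤ R}.Finite := by
  have hcl : IsClosed {z : ℂ | f z = 0} := isClosed_eq hf.continuous continuous_const
  have hK : IsCompact {z : ℂ | f z = 0 ∧ ‖z‖ ≤ R} := by
    have : {z : ℂ | f z = 0 ∧ ‖z‖ ≤ R} = closedBall (0 : ℂ) R ∩ {z : ℂ | f z = 0} := by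
      ext z; simp [and_comm]
    rw [this]
    exact (isCompact_closedBall 0 R).inter_right hcl
  by_contra hinf
  have hinf' : Set.Infinite {z : ℂ | f z = 0 ∧ ‖z‖ ≤ R} := hinf
  obtain ⟨x, hx, hacc⟩ := hinf'.exists_accPt_of_subset_isCompact hK subset_rfl
  have hfr : ∃ᶠ z in 𝓝[≠] x, f z = 0 := by
    have := accPt_iff_frequently_nhdsNE.1 hacc
    exact this.mono (fun z hz => hz.1)
  have h1 := AnalyticOnNhd.eqOn_zero_of_preconnected_of_frequently_eq_zero
    (fun z _ => hf.analyticAt z) isPreconnected_univ (Set.mem_univ x) hfr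
  obtain ⟨z, hz⟩ := hne
  exact hz (h1 (Set.mem_univ z))

noncomputable def zer (f : ℂ → ℂ) (hf : Differentiable ℂ f) (hne : ∃ z, f z ≠ 0) (R : ℝ) :
    Finset ℂ := (zeros_finite hf hne R).toFinset

lemma mem_zer {f : ℂ → ℂ} {hf : Differentiable ℂ f} {hne : ∃ z, f z ≠ 0} {R : ℝ} {z : ℂ} :
    z ∈ zer f hf hne R ↔ f z = 0 ∧ ‖z‖ ≤ R := by
  simp [zer]

/-- Blaschke type majorization -/
lemma blaschke_bound {f : ℂ → ℂ} {S : Finset ℂ} {g : ℂ → ℂ} (n : ℂ → ℕ)
    (hg : Differentiable ℂ g) {R M : ℝ} (hR : 0 < R)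
    (hfg : ∀ z, f z = (∏ ρ ∈ S, (z - ρ) ^ n ρ) * g z)
    (hM : ∀ z, ‖z‖ = R → ‖f z‖ ≤ M) :
    ∀ z, ‖z‖ ≤ R →
      ‖(∏ ρ ∈ S, (((R : ℂ) ^ 2 - (starRingEnd ℂ) ρ * z) / R) ^ n ρ) * g z‖ ≤ M := by
  intro z hz
  set h : ℂ → ℂ := fun z =>
    (∏ ρ ∈ S, (((R : ℂ) ^ 2 - (starRingEnd ℂ) ρ * z) / R) ^ n ρ) * g z with hh
  have hd : Differentiable ℂ h := by
    have : Differentiable ℂ (fun z : ℂ =>
        (∏ ρ ∈ S, (((R : ℂ) ^ 2 - (starRingEnd ℂ) ρ * z) / R) ^ n ρ)) := by fun_prop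
    exact this.mul hg
  have key : ∀ w : ℂ, ‖w‖ = R → ‖h w‖ = ‖f w‖ := by
    intro w hw
    rw [hfg w, hh]
    simp only [norm_mul, norm_prod, norm_pow]
    congr 1
    refine Finset.prod_congr rfl (fun ρ _ => ?_)
    congr 1
    have h1 : (R : ℂ) ^ 2 = (starRingEnd ℂ) w * w := by
      rw [← Complex.normSq_eq_conj_mul_self, Complex.normSq_eq_norm_sq, hw]
      push_cast; rfl
    rw [h1, ← sub_mul, norm_div, norm_mul, ← map_sub, Complex.norm_conj, hw]
    simp [abs_of_pos hR, hR.ne']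
  have hball : DiffContOnCl ℂ h (ball 0 R) := hd.diffContOnCl
  refine Complex.norm_le_of_forall_mem_frontier_norm_le isBounded_ball hball ?_ ?_
  · intro w hw
    rw [frontier_ball (0 : ℂ) hR.ne'] at hw
    have : ‖w‖ = R := by simpa using hw
    rw [key w this]
    exact hM w this
  · rw [closure_ball (0 : ℂ) hR.ne']
    simpa using hz

end Pool.Agent.Selb
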