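import Pool.Agent.Selb.HalfX
import Pool.Agent.Selb.Fac
import Pool.Agent.ZX.LBound

/-!
# Selb/D1W: decay and zeros of the completed L-function

`HalfXAux.W χ s = N ^ (s / 2) * χ.completedLFunction s` (see `Selb/HalfX`: `W_refl`, `W_eq`, `W_ne`,
`norm_rootNumber`, `exists_kappa`).

* `W_diff`: `DirichletCharacter.differentiable_completedLFunction hχ`, `N ^ (s/2)` is entire.
* `W_half`: for `0 < re s`, `LFunction_eq_completed_div_gammaFactor` and `Gammaℝ (s + κ) ≠ 0`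
  (`HalfXAux.gammaR_ne`) give `W χ s = N ^ (s/2) * Gammaℝ (s + κ) * χ.LFunction s`; for `1 < re s` use
  `DirichletCharacter.LFunction_eq_LSeries`.
* `gammaR_decay`: `Gammaℝ s = π ^ (-s/2) * Gamma (s/2)`, `‖π ^ (-s/2)‖ = π ^ (-re s/2) ≤ 1`. For `u = s/2`,
  `1/20 ≤ re u ≤ 2`: `Gamma (u + 6) = (u + 5) ... u * Gamma u` (`Complex.Gamma_add_one` six times),
  `‖Gamma (u + 6)‖ ≤ Gamma (re u + 6) ≤` constant (the norm of the integral is at most the integral of the norm;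
  look for `Complex.norm_Gamma_le` or see how `Selb/Gam.lean` bounds `Gamma`; `Real.Gamma` is bounded on the compact
  interval `[6, 8]`), and each factor has norm `≥ max (1/20) |im u|`, so `≥ (1/20 + |im u|)/2 ≥ (1 + |im s|)/80`.
* `W_decay`: first for `1/10 ≤ re s ≤ 2`. For `|im s| ≤ 1` the function is bounded (continuous on a compact
  set). For `|im s| ≥ 1`: `‖s - 1‖ ≥ 1`, so `ZX.L_bound hp` gives `‖L(s)‖ ≤ C (1 + ‖s‖)^2 ≤ C' (1 + |im s|)^2`, and
  `gammaR_decay` (at `s + κ`, real part in `[1/10, 3]`) gives `(1 + |im s|)^(-6)`. For `-1 ≤ re s < 1/10` use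
  `W_eq` and `‖rootNumber‖ = 1` (from `norm_rootNumber`): `‖W χ s‖ = ‖W χ (1 - conj s)‖`, same imaginary part, real
  part in `(9/10, 2]`.
* `ord_W`: for `0 < re z` the factor `N ^ (s/2) * Gammaℝ (s + κ)` is analytic and nonzero at `z` and `W_half`
  holds near `z` (`analyticOrderNatAt` of a product with a nonvanishing factor: `analyticOrderAt_mul`,
  `analyticOrderAt_eq_zero`). For `re z ≤ 0`: `1 ≤ re (1 - conj z)`, so `χ.LFunction (1 - conj z) ≠ 0`
  (`DirichletCharacter.LFunction_ne_zero_of_one_le_re`), so `W χ (1 - conj z) ≠ 0` and `W χ z ≠ 0` (`W_eq`), `ord_eq_zero`.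
-/

set_option autoImplicit false

open Complex Metric Filter Topology

namespace Pool.Agent.Selb

open HalfXAux

private lemma Gamma_shift {u : ℂ} (hu : 0 < u.re) (n : ℕ) :
    Gamma (u + n) = (∏ k ∈ Finset.range n, (u + k)) * Gamma u := by
  induction n with
  | zero => simp
  | succ n ih =>
    have h0 : u + n ≠ 0 := by
      intro h
      have h1 := congrArg Complex.re h
      rw [Complex.add_re, Complex.natCast_re, Complex.zero_re] at h1
      have h2 : (0 : ℝ) ≤ n := Nat.cast_nonneg n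
      linarith
    rw [Nat.cast_succ, ← add_assoc, Complex.Gamma_add_one _ h0, ih, Finset.prod_range_succ]
    ring

theorem gammaR_decay : ∃ C : ℝ, 0 ≤ C ∧ ∀ s : ℂ, 1 / 10 ≤ s.re → s.re ≤ 3 →
    ‖Gammaℝ s‖ ≤ C / (1 + |s.im|) ^ 6 := by
  obtain ⟨C0, hC0⟩ : ∃ C : ℝ, ∀ x ∈ Set.Icc (6 : ℝ) 8, Real.Gamma x ≤ C := by
    have hc : ContinuousOn Real.Gamma (Set.Icc 6 8) := by
      intro x hx
      refine (Real.differentiableAt_Gamma (fun m => ?_)).continuousAt.continuousWithinAt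
      have h2 : (0 : ℝ) ≤ m := Nat.cast_nonneg m
      have h3 := hx.1
      intro h
      linarith
    obtain ⟨C, hC⟩ := isCompact_Icc.exists_bound_of_continuousOn hc
    exact ⟨C, fun x hx => (le_abs_self _).trans (hC x hx)⟩
  have hC0' : 0 ≤ C0 := by
    have h1 := hC0 6 ⟨le_rfl, by norm_num⟩
    have h2 := Real.Gamma_pos_of_pos (s := 6) (by norm_num)
    linarith
  refine ⟨C0 * 80 ^ 6, by positivity, fun s h1 h2 => ?_⟩
  have hu : 0 < (s / 2).re := by
    rw [Complex.div_ofNat_re]; linarith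
  have hre : (s / 2).re = s.re / 2 := Complex.div_ofNat_re _ _
  have him : (s / 2).im = s.im / 2 := Complex.div_ofNat_im _ _
  have hpi : ‖(Real.pi : ℂ) ^ (-s / 2)‖ ≤ 1 := by
    rw [Complex.norm_cpow_eq_rpow_re_of_pos Real.pi_pos]
    apply Real.rpow_le_one_of_one_le_of_nonpos
    · linarith [Real.pi_gt_three]
    · rw [neg_div, Complex.neg_re, hre]; linarith
  have hfac : ∀ k : ℕ, (1 + |s.im|) / 80 ≤ ‖s / 2 + k‖ := by
    intro k
    have a1 := Complex.abs_re_le_norm (s / 2 + k)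
    have a2 := Complex.abs_im_le_norm (s / 2 + k)
    have a3 : (s / 2 + k).re = s.re / 2 + k := by
      rw [Complex.add_re, hre, Complex.natCast_re]
    have a4 : (s / 2 + k).im = s.im / 2 := by
      rw [Complex.add_im, him, Complex.natCast_im, add_zero]
    rw [a3] at a1
    rw [a4, abs_div, abs_two] at a2
    have a5 : (0 : ℝ) ≤ k := Nat.cast_nonneg k
    have a6 := le_abs_self (s.re / 2 + k)
    linarith
  have hprod : ((1 + |s.im|) / 80) ^ 6 ≤ ∏ k ∈ Finset.range 6, ‖s / 2 + k‖ := by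
    have h := Finset.prod_le_prod (s := Finset.range 6) (f := fun _ => (1 + |s.im|) / 80)
      (g := fun k : ℕ => ‖s / 2 + k‖) (fun _ _ => by positivity) (fun k _ => hfac k)
    rwa [Finset.prod_const, Finset.card_range] at h
  have hG : ‖Gamma (s / 2)‖ * ((1 + |s.im|) / 80) ^ 6 ≤ C0 := by
    have h3 := Gamma_shift hu 6
    have h4 : ‖Gamma (s / 2 + (6 : ℕ))‖ ≤ Real.Gamma (s / 2 + (6 : ℕ)).re := by
      apply norm_Gamma_le
      rw [Complex.add_re, hre, Complex.natCast_re]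
      push_cast
      linarith
    have h5 : Real.Gamma (s / 2 + (6 : ℕ)).re ≤ C0 := by
      apply hC0
      rw [Complex.add_re, hre, Complex.natCast_re]
      push_cast
      constructor <;> linarith
    rw [h3, norm_mul, norm_prod] at h4
    calc ‖Gamma (s / 2)‖ * ((1 + |s.im|) / 80) ^ 6
        ≤ ‖Gamma (s / 2)‖ * ∏ k ∈ Finset.range 6, ‖s / 2 + k‖ :=
          mul_le_mul_of_nonneg_left hprod (norm_nonneg _)
      _ = (∏ k ∈ Finset.range 6, ‖s / 2 + k‖) * ‖Gamma (s / 2)‖ := mul_comm _ _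
      _ ≤ C0 := h4.trans h5
  have hpos : 0 < (1 + |s.im|) ^ 6 := by positivity
  rw [Gammaℝ_def, norm_mul, le_div_iff₀ hpos]
  calc ‖(Real.pi : ℂ) ^ (-s / 2)‖ * ‖Gamma (s / 2)‖ * (1 + |s.im|) ^ 6
      ≤ 1 * ‖Gamma (s / 2)‖ * (1 + |s.im|) ^ 6 := by gcongr
    _ = (‖Gamma (s / 2)‖ * ((1 + |s.im|) / 80) ^ 6) * 80 ^ 6 := by ring
    _ ≤ C0 * 80 ^ 6 := by gcongr

section

variable {N : ℕ} [NeZero N] {χ : DirichletCharacter ℂ N}

theorem W_diff (hχ : χ ≠ 1) : Differentiable ℂ (W χ) := by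
  have hN : (N : ℂ) ≠ 0 := NeZero.ne _
  have h1 : Differentiable ℂ (fun s : ℂ => (N : ℂ) ^ (s / 2)) :=
    (differentiable_id.div_const 2).const_cpow (Or.inl hN)
  exact h1.mul (DirichletCharacter.differentiable_completedLFunction hχ)

theorem W_half {κ : ℕ} (hγ : ∀ s : ℂ, χ.gammaFactor s = Gammaℝ (s + κ)) {s : ℂ} (hs : 0 < s.re) :
    W χ s = (N : ℂ) ^ (s / 2) * Gammaℝ (s + κ) * χ.LFunction s := by
  have hs0 : s ≠ 0 := by
    rintro rfl
    simp at hs
  have hG : Gammaℝ (s + κ) ≠ 0 := by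
    apply Gammaℝ_ne_zero_of_re_pos
    rw [Complex.add_re, Complex.natCast_re]
    have : (0 : ℝ) ≤ κ := Nat.cast_nonneg κ
    linarith
  rw [DirichletCharacter.LFunction_eq_completed_div_gammaFactor χ s (Or.inl hs0), hγ s]
  unfold W
  field_simp

private lemma exists_kappaN {N : ℕ} [NeZero N] (χ : DirichletCharacter ℂ N) :
    ∃ κ : ℕ, κ ≤ 1 ∧ ∀ s : ℂ, χ.gammaFactor s = Gammaℝ (s + κ) := by
  rcases χ.even_or_odd with h | h
  · exact ⟨0, zero_le_one, fun s => by rw [h.gammaFactor_def]; simp⟩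
  · exact ⟨1, le_rfl, fun s => by rw [h.gammaFactor_def]; simp⟩

private lemma W_decay_half (hp : χ.IsPrimitive) (hχ : χ ≠ 1) : ∃ C : ℝ, 0 ≤ C ∧
    ∀ s : ℂ, 1 / 10 ≤ s.re → s.re ≤ 2 → ‖W χ s‖ ≤ C / (1 + s.im ^ 2) := by
  obtain ⟨κ, hκ, hγ⟩ := exists_kappaN χ
  obtain ⟨G, hG0, hG⟩ := gammaR_decay
  obtain ⟨L, hL0, hL⟩ := ZX.L_bound hp
  have hK : IsCompact (Set.Icc (1 / 10 : ℝ) 2 ×ℂ Set.Icc (-1 : ℝ) 1) :=
    isCompact_Icc.reProdIm isCompact_Icc
  obtain ⟨M, hM⟩ := hK.exists_bound_of_continuousOn (f := W χ) (W_diff hχ).continuous.continuousOn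
  have hN1 : (1 : ℝ) ≤ N := by
    exact_mod_cast Nat.one_le_iff_ne_zero.mpr (NeZero.ne N)
  refine ⟨2 * |M| + N * G * (L * 9), by positivity, fun s h1 h2 => ?_⟩
  have hpos : 0 < 1 + s.im ^ 2 := by positivity
  rw [le_div_iff₀ hpos]
  rcases le_total |s.im| 1 with h | h
  · have hm : s ∈ (Set.Icc (1 / 10 : ℝ) 2 ×ℂ Set.Icc (-1 : ℝ) 1) := by
      rw [Complex.mem_reProdIm]
      exact ⟨⟨h1, h2⟩, abs_le.mp h⟩
    have h3 := (hM s hm).trans (le_abs_self M)
    have h4 : s.im ^ 2 ≤ 1 := by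
      rw [← sq_abs]
      exact pow_le_one₀ (abs_nonneg _) h
    have h5 : 0 ≤ N * G * (L * 9) := by positivity
    calc ‖W χ s‖ * (1 + s.im ^ 2) ≤ |M| * (1 + 1) := by gcongr
      _ ≤ 2 * |M| + N * G * (L * 9) := by linarith
  · have hs : 0 < s.re := by linarith
    rw [W_half hγ hs, norm_mul, norm_mul]
    have a1 : ‖(N : ℂ) ^ (s / 2)‖ ≤ N := by
      rw [← Complex.ofReal_natCast, Complex.norm_cpow_eq_rpow_re_of_pos (by linarith),
        Complex.div_ofNat_re]
      calc (N : ℝ) ^ (s.re / 2) ≤ (N : ℝ) ^ (1 : ℝ) :=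
            Real.rpow_le_rpow_of_exponent_le hN1 (by linarith)
        _ = N := Real.rpow_one _
    have hκ' : (κ : ℝ) ≤ 1 := by exact_mod_cast hκ
    have hκ0 : (0 : ℝ) ≤ κ := Nat.cast_nonneg κ
    have a2 : ‖Gammaℝ (s + κ)‖ ≤ G / (1 + |s.im|) ^ 6 := by
      have h3 := hG (s + κ) (by rw [Complex.add_re, Complex.natCast_re]; linarith)
        (by rw [Complex.add_re, Complex.natCast_re]; linarith)
      rwa [Complex.add_im, Complex.natCast_im, add_zero] at h3
    have a3 : ‖χ.LFunction s‖ ≤ L * (9 * (1 + |s.im|) ^ 2) := by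
      have h3 := hL s h1
      rw [norm_mul] at h3
      have h4 : 1 ≤ ‖s - 1‖ := by
        have h5 := Complex.abs_im_le_norm (s - 1)
        rw [Complex.sub_im, Complex.one_im, sub_zero] at h5
        linarith
      have h6 : ‖χ.LFunction s‖ ≤ ‖s - 1‖ * ‖χ.LFunction s‖ :=
        le_mul_of_one_le_left (norm_nonneg _) h4
      have h7 : ‖s‖ ≤ 2 + |s.im| := by
        have h8 := Complex.norm_le_abs_re_add_abs_im s
        rw [abs_of_pos hs] at h8
        linarith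
      have h9 : (1 + ‖s‖) ^ 2 ≤ 9 * (1 + |s.im|) ^ 2 := by
        have h10 : 1 + ‖s‖ ≤ 3 * (1 + |s.im|) := by linarith [abs_nonneg s.im]
        calc (1 + ‖s‖) ^ 2 ≤ (3 * (1 + |s.im|)) ^ 2 := by gcongr
          _ = 9 * (1 + |s.im|) ^ 2 := by ring
      calc ‖χ.LFunction s‖ ≤ ‖s - 1‖ * ‖χ.LFunction s‖ := h6
        _ ≤ L * (1 + ‖s‖) ^ 2 := h3
        _ ≤ L * (9 * (1 + |s.im|) ^ 2) := by gcongr
    have hy : 0 < 1 + |s.im| := by positivity
    have a4 : 1 + s.im ^ 2 ≤ (1 + |s.im|) ^ 4 := by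
      rw [← sq_abs s.im]
      have h0 := abs_nonneg s.im
      have h1 : 1 + |s.im| ^ 2 ≤ (1 + |s.im|) ^ 2 := by nlinarith
      have h2 : (1 : ℝ) ≤ (1 + |s.im|) ^ 2 := by nlinarith
      calc 1 + |s.im| ^ 2 ≤ (1 + |s.im|) ^ 2 * 1 := by linarith
        _ ≤ (1 + |s.im|) ^ 2 * (1 + |s.im|) ^ 2 := by gcongr
        _ = (1 + |s.im|) ^ 4 := by ring
    calc ‖(N : ℂ) ^ (s / 2)‖ * ‖Gammaℝ (s + κ)‖ * ‖χ.LFunction s‖ * (1 + s.im ^ 2)
        ≤ N * (G / (1 + |s.im|) ^ 6) * (L * (9 * (1 + |s.im|) ^ 2)) * (1 + |s.im|) ^ 4 := by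
          gcongr
      _ = N * G * (L * 9) := by
          field_simp
      _ ≤ 2 * |M| + N * G * (L * 9) := by linarith [abs_nonneg M]

theorem W_decay (hp : χ.IsPrimitive) (hχ : χ ≠ 1) : ∃ C : ℝ, 0 ≤ C ∧
    ∀ s : ℂ, -1 ≤ s.re → s.re ≤ 2 → ‖W χ s‖ ≤ C / (1 + s.im ^ 2) := by
  obtain ⟨C, hC0, hC⟩ := W_decay_half hp hχ
  refine ⟨C, hC0, fun s h1 h2 => ?_⟩
  rcases le_or_gt (1 / 10) s.re with h | h
  · exact hC s h h2
  · have hroot : ‖χ.rootNumber‖ = 1 := by
      have h := norm_rootNumber hp hχ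
      rw [Complex.mul_conj] at h
      have h2 : Complex.normSq χ.rootNumber = 1 := by exact_mod_cast h
      rw [Complex.norm_def, h2, Real.sqrt_one]
    have e1 : ‖W χ s‖ = ‖W χ (1 - starRingEnd ℂ s)‖ := by
      rw [W_eq hp hχ s, norm_mul, hroot, one_mul, Complex.norm_conj]
    have e2 : (1 - starRingEnd ℂ s).re = 1 - s.re := by
      rw [Complex.sub_re, Complex.one_re, Complex.conj_re]
    have e3 : (1 - starRingEnd ℂ s).im = s.im := by
      rw [Complex.sub_im, Complex.one_im, Complex.conj_im]; ring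
    have h3 := hC (1 - starRingEnd ℂ s) (by rw [e2]; linarith) (by rw [e2]; linarith)
    rw [e1]
    rwa [e3] at h3

open Classical in
theorem ord_W (hp : χ.IsPrimitive) (hχ : χ ≠ 1) (z : ℂ) :
    ord (W χ) z = if 0 < z.re then ord χ.LFunction z else 0 := by
  split_ifs with hz
  · obtain ⟨κ, hκ, hγ⟩ := exists_kappaN χ
    have hN : (N : ℂ) ≠ 0 := NeZero.ne _
    have hev : W χ =ᶠ[𝓝 z] (fun s => (N : ℂ) ^ (s / 2) * Gammaℝ (s + κ)) * χ.LFunction := by
      have ho : {s : ℂ | 0 < s.re} ∈ 𝓝 z :=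
        (isOpen_lt continuous_const Complex.continuous_re).mem_nhds hz
      filter_upwards [ho] with s hs
      exact W_half hγ hs
    have hG0 : Gammaℝ (z + κ) ≠ 0 := by
      apply Gammaℝ_ne_zero_of_re_pos
      rw [Complex.add_re, Complex.natCast_re]
      have : (0 : ℝ) ≤ κ := Nat.cast_nonneg κ
      linarith
    have hA1 : AnalyticAt ℂ (fun s : ℂ => (N : ℂ) ^ (s / 2)) z :=
      ((differentiable_id.div_const 2).const_cpow (Or.inl hN)).analyticAt z
    have hA2 : AnalyticAt ℂ (fun s : ℂ => Gammaℝ (s + κ)) z := by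
      have h1 : Differentiable ℂ (fun s : ℂ => (Gammaℝ (s + κ))⁻¹) :=
        differentiable_Gammaℝ_inv.comp (differentiable_id.add_const _)
      have h2 := (h1.analyticAt z).inv (inv_ne_zero hG0)
      refine h2.congr (Eventually.of_forall fun s => ?_)
      simp
    have hA : AnalyticAt ℂ (fun s : ℂ => (N : ℂ) ^ (s / 2) * Gammaℝ (s + κ)) z := hA1.mul hA2
    have hL : AnalyticAt ℂ χ.LFunction z :=
      (DirichletCharacter.differentiable_LFunction hχ).analyticAt z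
    have hne : (N : ℂ) ^ (z / 2) * Gammaℝ (z + κ) ≠ 0 := by
      refine mul_ne_zero ?_ hG0
      rw [Complex.cpow_ne_zero_iff]
      exact Or.inl hN
    show analyticOrderNatAt (W χ) z = analyticOrderNatAt χ.LFunction z
    unfold analyticOrderNatAt
    rw [analyticOrderAt_congr hev, analyticOrderAt_mul hA hL,
      (hA.analyticOrderAt_eq_zero).mpr hne, zero_add]
  · apply ord_eq_zero
    have h1 : 1 ≤ (1 - starRingEnd ℂ z).re := by
      rw [Complex.sub_re, Complex.one_re, Complex.conj_re]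
      push Not at hz
      linarith
    obtain ⟨κ, hκ, hγ⟩ := exists_kappaN χ
    have hN : (N : ℂ) ≠ 0 := NeZero.ne _
    have h2 := DirichletCharacter.LFunction_ne_zero_of_one_le_re χ (Or.inl hχ) h1
    have h3 : W χ (1 - starRingEnd ℂ z) ≠ 0 := by
      rw [W_half hγ (by linarith)]
      refine mul_ne_zero (mul_ne_zero ?_ ?_) h2
      · rw [Complex.cpow_ne_zero_iff]
        exact Or.inl hN
      · apply Gammaℝ_ne_zero_of_re_pos
        rw [Complex.add_re, Complex.natCast_re]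
        have : (0 : ℝ) ≤ κ := Nat.cast_nonneg κ
        linarith
    intro h
    apply h3
    rw [W_refl hp hχ z, h, map_zero, mul_zero]

end

end Pool.Agent.Selb
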