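import Pool.Agent.Selb.D1Root
import Pool.Agent.Selb.D1W
import Pool.Agent.Selb.D1Def

/-!
# Selb/D1Phi: construction of the degree one function

Write `g i n = χ i n` (completely multiplicative, bounded by one: `DirichletCharacter.norm_le_one`),
`P s = ∏ i, W (χ i) s ^ e i`.
* `P` is entire (`W_diff`), `P 2 ≠ 0` (`W_ne`), `ord P z = ∑ i, e i * ord (W (χ i)) z` (`ord_mul` and induction over the
  finset / the exponent), which is divisible by `D` by `ord_W` and `hord`. Let `F ^ D = P` (`entire_root`).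
* `Q := exp (∑ i, (e i / D) * log (N i)) > 0`, `((Q : ℂ) ^ (s/2)) ^ D = ∏ i, ((N i : ℂ) ^ (s/2)) ^ e i`
  (both sides `exp` of `(s/2) ∑ e i log (N i)`; `Complex.cpow_def_of_ne_zero`, `Complex.ofReal_log`).
* For `1 < re s`, `P s = ∏ i, ((N i)^(s/2) Gammaℝ(s + κ) L(s, χ i)) ^ e i = ((Q : ℂ)^(s/2) * Gammaℝ (s + κ) * LSeries A s) ^ D` with
  `A = AF g (e / D)` (`W_half`, `LFunction_eq_LSeries`, `LSeries_AF`, `∑ e i = D`, `Finset.prod_pow_eq_pow_sum`). The set
  `{1 < re s}` is open and convex, `LSeries A` is holomorphic there (`LSeries_differentiableOn` /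
  `LSeries_analyticOnNhd`; `A` bounded by one so `abscissaOfAbsConv ≤ 1`), so by `pow_eq_pow_preconn`
  `F = ζ * (...)` there with `ζ ^ D = 1`; put `Φ = ζ⁻¹ F` (`Φ ^ D = P` still).
* Functional equation: `W_eq` for each `i` gives `P s = ε * conj (P (1 - conj s))` with
  `ε = ∏ i, (rootNumber (χ i)) ^ e i`, `‖ε‖ = 1` (`norm_rootNumber`). Take `ω0 ^ D = ε` (`IsAlgClosed.exists_pow_nat_eq`),
  `‖ω0‖ = 1`. Then `(ω0 * conj (Φ (1 - conj s))) ^ D = Φ s ^ D` for all `s`; `s ↦ conj (Φ (1 - conj s))` is entire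
  (`Differentiable` of `conj ∘ f ∘ conj`: `DifferentiableAt.conj_conj`, see `Selb/Glue.lean` `conj_refl_diffAt`), so
  `pow_eq_pow_preconn` on `univ` gives `Φ s = ζ' * (ω0 * conj (...))`; `ω = ζ' ω0`.
* Decay: `‖Φ s‖ ^ D = ∏ i, ‖W (χ i) s‖ ^ e i ≤ ∏ i, (K / (1 + s.im^2)) ^ e i = (K / (1 + s.im^2)) ^ D` with
  `K = ∑ i, C i` (`W_decay`); take `D`-th roots (`pow_le_pow_iff_left₀` / `le_of_pow_le_pow_left₀`).
* `A 0 = 0` (`ArithmeticFunction.map_zero`), `A 1 = 1` (`AF_mult`.1), `‖A n‖ ≤ 1` (`AF_norm_le`).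
-/

set_option autoImplicit false

open Complex Metric Filter Topology

namespace Pool.Agent.Selb

theorem cmul_char {N : ℕ} (χ : DirichletCharacter ℂ N) : CMul (fun n => χ (n : ZMod N)) := by
  exact ⟨by simp, fun m n => by simp, fun n => DirichletCharacter.norm_le_one χ _⟩

section aux

open HalfXAux

private theorem phi_conj {A : ℂ → ℂ} (hA : Differentiable ℂ A) :
    Differentiable ℂ (fun s => starRingEnd ℂ (A (1 - starRingEnd ℂ s))) := by
  intro s
  have h1 : DifferentiableAt ℂ (fun w : ℂ => A (1 - w)) (starRingEnd ℂ s) :=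
    (hA _).comp (starRingEnd ℂ s) (by fun_prop)
  have h2 := h1.conj_conj
  rw [Complex.conj_conj] at h2
  exact h2

private theorem phi_ord_pow {f : ℂ → ℂ} (hf : Differentiable ℂ f) (k : ℕ) (z : ℂ) :
    ord (fun s => f s ^ k) z = k * ord f z := by
  have := analyticOrderNatAt_pow (hf.analyticAt z) k
  rw [smul_eq_mul] at this
  exact this

private theorem phi_ord_prod {ι : Type*} (s : Finset ι) (f : ι → ℂ → ℂ)
    (hf : ∀ i, Differentiable ℂ (f i)) (hne : ∀ i, f i 2 ≠ 0) (z : ℂ) :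
    ord (fun w => ∏ i ∈ s, f i w) z = ∑ i ∈ s, ord (f i) z := by
  classical
  induction s using Finset.induction_on with
  | empty =>
    rw [Finset.sum_empty]
    exact ord_eq_zero (by simp)
  | insert a s ha ih =>
    have e : (fun w => ∏ i ∈ insert a s, f i w) = fun w => f a w * ∏ i ∈ s, f i w := by
      funext w
      rw [Finset.prod_insert ha]
    rw [e, ord_mul (hf a) (Differentiable.fun_finsetProd fun i _ => hf i) ⟨2, hne a⟩
      ⟨2, Finset.prod_ne_zero_iff.2 fun i _ => hne i⟩, ih, Finset.sum_insert ha]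

private theorem phi_gamma {κ : ℕ} {s : ℂ} (hs : 0 < s.re) :
    DifferentiableAt ℂ (fun s : ℂ => Gammaℝ (s + κ)) s := by
  have h1 : DifferentiableAt ℂ (fun s : ℂ => (Gammaℝ (s + κ))⁻¹) s := by
    have h0 : DifferentiableAt ℂ (fun s : ℂ => s + κ) s := by fun_prop
    exact DifferentiableAt.comp (g := fun s : ℂ => (Gammaℝ s)⁻¹) s
      (Complex.differentiable_Gammaℝ_inv (s + κ)) h0
  have h2 : (Gammaℝ (s + κ))⁻¹ ≠ 0 := by
    apply inv_ne_zero
    have := gammaR_ne (κ := (κ : ℝ)) (Nat.cast_nonneg κ) hs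
    rwa [Complex.ofReal_natCast] at this
  have h3 := h1.inv h2
  have e : (fun s : ℂ => (Gammaℝ (s + κ))⁻¹)⁻¹ = fun s : ℂ => Gammaℝ (s + κ) := by
    funext w
    rw [Pi.inv_apply, inv_inv]
  rwa [e] at h3

private theorem phi_Q {ι : Type*} [Fintype ι] (N : ι → ℕ) [∀ i, NeZero (N i)] {D : ℕ}
    (hD : 0 < D) (e : ι → ℕ) (s : ℂ) :
    (((Real.exp (∑ i, ((e i : ℝ) / D) * Real.log (N i)) : ℝ) : ℂ) ^ (s / 2)) ^ D =
      ∏ i, (((N i : ℕ) : ℂ) ^ (s / 2)) ^ e i := by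
  have hD' : (D : ℂ) ≠ 0 := by exact_mod_cast hD.ne'
  have h1 : ((Real.exp (∑ i, ((e i : ℝ) / D) * Real.log (N i)) : ℝ) : ℂ) ≠ 0 := by
    rw [Complex.ofReal_ne_zero]
    exact (Real.exp_pos _).ne'
  rw [Complex.cpow_def_of_ne_zero h1, ← Complex.ofReal_log (Real.exp_pos _).le, Real.log_exp,
    ← Complex.exp_nat_mul]
  have h2 : ∀ i, (((N i : ℕ) : ℂ) ^ (s / 2)) ^ e i =
      Complex.exp ((e i : ℂ) * ((Real.log (N i) : ℝ) * (s / 2))) := by
    intro i
    have h3 : ((N i : ℕ) : ℂ) ≠ 0 := NeZero.ne _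
    rw [Complex.cpow_def_of_ne_zero h3, Complex.exp_nat_mul, Complex.natCast_log]
  rw [Finset.prod_congr rfl (fun i _ => h2 i), ← Complex.exp_sum]
  congr 1
  push_cast
  rw [Finset.sum_mul, Finset.mul_sum]
  refine Finset.sum_congr rfl fun i _ => ?_
  field_simp

end aux

theorem exists_phi {ι : Type*} [Fintype ι] (N : ι → ℕ) [∀ i, NeZero (N i)]
    (χ : ∀ i, DirichletCharacter ℂ (N i)) (hp : ∀ i, (χ i).IsPrimitive) (h1 : ∀ i, χ i ≠ 1)
    {κ : ℕ} (hκ : κ = 0 ∨ κ = 1) (hγ : ∀ i, ∀ s : ℂ, (χ i).gammaFactor s = Gammaℝ (s + κ))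
    {D : ℕ} (hD : 0 < D) (e : ι → ℕ) (he : ∑ i, e i = D)
    (hord : ∀ z : ℂ, 0 < z.re → D ∣ ∑ i, e i * ord (χ i).LFunction z) :
    ∃ (Q : ℝ) (ω : ℂ) (Φ : ℂ → ℂ) (C : ℝ),
      DegOne (AF (fun i n => χ i (n : ZMod (N i))) (fun i => (e i : ℝ) / D)) κ Q ω Φ C := by
  classical
  obtain ⟨P, hP⟩ : ∃ P : ℂ → ℂ, P = fun s => ∏ i, HalfXAux.W (χ i) s ^ e i := ⟨_, rfl⟩
  have hWd : ∀ i, Differentiable ℂ (HalfXAux.W (χ i)) := fun i => W_diff (h1 i)
  have hPd : Differentiable ℂ P := by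
    rw [hP]
    exact Differentiable.fun_finsetProd fun i _ => (hWd i).pow (e i)
  have hP2 : P 2 ≠ 0 := by
    rw [hP]
    exact Finset.prod_ne_zero_iff.2 fun i _ => pow_ne_zero _ (HalfXAux.W_ne (h1 i))
  have hPord : ∀ z, D ∣ ord P z := by
    intro z
    have h2 : ord P z = ∑ i, e i * ord (HalfXAux.W (χ i)) z := by
      rw [hP, phi_ord_prod Finset.univ (fun i s => HalfXAux.W (χ i) s ^ e i)
        (fun i => (hWd i).pow (e i)) (fun i => pow_ne_zero _ (HalfXAux.W_ne (h1 i))) z]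
      exact Finset.sum_congr rfl fun i _ => phi_ord_pow (hWd i) (e i) z
    rw [h2]
    by_cases hz : 0 < z.re
    · have h3 : ∑ i, e i * ord (HalfXAux.W (χ i)) z = ∑ i, e i * ord (χ i).LFunction z := by
        refine Finset.sum_congr rfl fun i _ => ?_
        rw [ord_W (hp i) (h1 i), if_pos hz]
      rw [h3]
      exact hord z hz
    · have h3 : ∑ i, e i * ord (HalfXAux.W (χ i)) z = 0 := by
        refine Finset.sum_eq_zero fun i _ => ?_
        rw [ord_W (hp i) (h1 i), if_neg hz, mul_zero]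
      rw [h3]
      exact dvd_zero _
  obtain ⟨F, hFd, hFD⟩ := entire_root hPd ⟨2, hP2⟩ hD hPord
  obtain ⟨Q, hQ⟩ : ∃ Q : ℝ, Q = Real.exp (∑ i, ((e i : ℝ) / D) * Real.log (N i)) := ⟨_, rfl⟩
  have hQpos : 0 < Q := by rw [hQ]; exact Real.exp_pos _
  obtain ⟨A, hA⟩ : ∃ A, A = AF (fun i n => χ i (n : ZMod (N i))) (fun i => (e i : ℝ) / D) :=
    ⟨_, rfl⟩
  have hg : ∀ i, CMul (fun n => χ i (n : ZMod (N i))) := fun i => cmul_char (χ i)
  have hDr : (D : ℝ) ≠ 0 := by exact_mod_cast hD.ne'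
  have hAle : ∀ n, ‖A n‖ ≤ 1 := by
    intro n
    rw [hA]
    refine AF_norm_le hg (fun i => by positivity) ?_ n
    rw [← Finset.sum_div, ← Nat.cast_sum, he, div_self hDr]
  obtain ⟨G, hG⟩ : ∃ G : ℂ → ℂ, G = fun s => (Q : ℂ) ^ (s / 2) * Gammaℝ (s + κ) * LSeries A s :=
    ⟨_, rfl⟩
  have hPG : ∀ s : ℂ, 1 < s.re → P s = G s ^ D := by
    intro s hs
    have h2 : P s = ∏ i, ((((N i : ℕ) : ℂ) ^ (s / 2)) ^ e i * Gammaℝ (s + κ) ^ e i *
        LSeries (fun n => χ i (n : ZMod (N i))) s ^ e i) := by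
      rw [hP]
      refine Finset.prod_congr rfl fun i _ => ?_
      rw [W_half (hγ i) (by linarith : 0 < s.re), mul_pow, mul_pow,
        DirichletCharacter.LFunction_eq_LSeries (χ i) hs]
    rw [h2, Finset.prod_mul_distrib, Finset.prod_mul_distrib, Finset.prod_pow_eq_pow_sum, he,
      ← LSeries_AF hg hD he hs, ← phi_Q N hD e s, ← hQ, ← hA, hG]
    simp only [mul_pow]
  have hU : IsOpen {s : ℂ | 1 < s.re} := isOpen_lt continuous_const Complex.continuous_re
  have hUc : IsPreconnected {s : ℂ | 1 < s.re} := (convex_halfSpace_re_gt 1).isPreconnected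
  have hAabs : LSeries.abscissaOfAbsConv A ≤ 1 :=
    LSeries.abscissaOfAbsConv_le_of_le_const ⟨1, fun n _ => hAle n⟩
  have hGd : DifferentiableOn ℂ G {s : ℂ | 1 < s.re} := by
    rw [hG]
    intro s hs
    have hs' : 1 < s.re := hs
    have h3 : DifferentiableAt ℂ (fun s : ℂ => (Q : ℂ) ^ (s / 2)) s := by
      apply DifferentiableAt.const_cpow (by fun_prop)
      left
      exact_mod_cast hQpos.ne'
    have h4 : DifferentiableAt ℂ (LSeries A) s := by
      have h5 := LSeries_differentiableOn A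
      have h6 : LSeries.abscissaOfAbsConv A < (s.re : EReal) :=
        lt_of_le_of_lt hAabs (by exact_mod_cast hs')
      refine (h5 s h6).differentiableAt ?_
      have h7 : IsOpen {s : ℂ | LSeries.abscissaOfAbsConv A < (s.re : EReal)} := by
        exact isOpen_lt continuous_const (continuous_coe_real_ereal.comp Complex.continuous_re)
      exact h7.mem_nhds h6
    exact ((h3.mul (phi_gamma (by linarith))).mul h4).differentiableWithinAt
  obtain ⟨ζ, hζ, hFζ⟩ := pow_eq_pow_preconn hU hUc hFd.differentiableOn hGd hD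
    (fun z hz => by rw [hFD, hPG z hz])
  have hζ0 : ζ ≠ 0 := by
    rintro rfl
    rw [zero_pow hD.ne'] at hζ
    exact zero_ne_one hζ
  obtain ⟨Φ, hΦ⟩ : ∃ Φ : ℂ → ℂ, Φ = fun s => ζ⁻¹ * F s := ⟨_, rfl⟩
  have hΦd : Differentiable ℂ Φ := by
    rw [hΦ]
    exact hFd.const_mul _
  have hΦD : ∀ s, Φ s ^ D = P s := by
    intro s
    rw [hΦ]
    dsimp only
    rw [mul_pow, inv_pow, hζ, inv_one, one_mul, hFD]
  -- functional equation
  obtain ⟨ε, hε⟩ : ∃ ε : ℂ, ε = ∏ i, (χ i).rootNumber ^ e i := ⟨_, rfl⟩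
  have hroot : ∀ i, ‖(χ i).rootNumber‖ = 1 := by
    intro i
    have h2 := HalfXAux.norm_rootNumber (hp i) (h1 i)
    have h3 : ‖(χ i).rootNumber‖ * ‖(χ i).rootNumber‖ = 1 := by
      have h4 := congrArg norm h2
      rwa [norm_mul, RCLike.norm_conj, norm_one] at h4
    nlinarith [norm_nonneg (χ i).rootNumber]
  have hεn : ‖ε‖ = 1 := by
    rw [hε, norm_prod]
    refine Finset.prod_eq_one fun i _ => ?_
    rw [norm_pow, hroot i, one_pow]
  have hPfe : ∀ s, P s = ε * starRingEnd ℂ (P (1 - starRingEnd ℂ s)) := by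
    intro s
    rw [hP, hε]
    dsimp only
    rw [map_prod, ← Finset.prod_mul_distrib]
    refine Finset.prod_congr rfl fun i _ => ?_
    rw [map_pow, ← mul_pow, ← HalfXAux.W_eq (hp i) (h1 i) s]
  obtain ⟨ω0, hω0⟩ := IsAlgClosed.exists_pow_nat_eq ε hD
  have hω0n : ‖ω0‖ = 1 := by
    have h2 : ‖ω0‖ ^ D = 1 := by rw [← norm_pow, hω0, hεn]
    exact (pow_eq_one_iff_of_nonneg (norm_nonneg _) hD.ne').1 h2
  obtain ⟨ζ', hζ', hΦζ⟩ := pow_eq_pow_preconn isOpen_univ isPreconnected_univ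
    hΦd.differentiableOn (((phi_conj hΦd).const_mul ω0).differentiableOn) hD
    (fun z _ => by
      rw [mul_pow, ← map_pow, hΦD, hΦD, hω0]
      exact hPfe z)
  -- decay
  have hdec := fun i => W_decay (hp i) (h1 i)
  choose C hC0 hC using hdec
  refine ⟨Q, ζ' * ω0, Φ, ∑ i, C i, ?_⟩
  rw [← hA]
  refine ⟨A.map_zero, ?_, hAle, hκ, hQpos, ?_, hΦd, ?_, ?_, ?_⟩
  · rw [hA]
    exact (AF_mult hg _).1
  · rw [norm_mul, hω0n, Complex.norm_eq_one_of_pow_eq_one hζ' hD.ne', mul_one]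
  · intro s hs
    rw [hΦ]
    dsimp only
    rw [hFζ s hs, ← mul_assoc, inv_mul_cancel₀ hζ0, one_mul, hG]
  · intro s
    rw [mul_assoc]
    exact hΦζ s (Set.mem_univ s)
  · intro s hs1 hs2
    have hb : 0 < 1 + s.im ^ 2 := by positivity
    have hK : 0 ≤ ∑ i, C i := Finset.sum_nonneg fun i _ => hC0 i
    rw [← pow_le_pow_iff_left₀ (norm_nonneg _) (div_nonneg hK hb.le) hD.ne', ← norm_pow, hΦD, hP]
    dsimp only
    rw [norm_prod, ← he, ← Finset.prod_pow_eq_pow_sum]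
    refine Finset.prod_le_prod (fun i _ => norm_nonneg _) fun i _ => ?_
    rw [norm_pow]
    refine pow_le_pow_left₀ (norm_nonneg _) ((hC i s hs1 hs2).trans ?_) _
    exact div_le_div_of_nonneg_right (Finset.single_le_sum (fun i _ => hC0 i)
      (Finset.mem_univ i)) hb.le

end Pool.Agent.Selb
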