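import Pool.Agent.Selb.DirB

/-!
# Selb/DirC: final assembly for combinations of shifted Dirichlet characters
-/

set_option autoImplicit false

open Complex Metric Filter Topology LSeries

namespace Pool.Agent.Selb

section

variable {q : ℕ} [NeZero q] {J : Type*} [Fintype J] {θ : J → ℝ}
    {X : J → DirichletCharacter ℂ q} {r : J → ℚ}

lemma rat_sum_cast {c : J → ℂ} (hcr : ∀ j, c j = (r j : ℂ)) (D : J → Prop) [DecidablePred D] {n : ℕ}
    (h : ∑ j with D j, c j = n) : ∑ j with D j, r j = n := by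
  have e1 : ((∑ j with D j, r j : ℚ) : ℂ) = ((n : ℚ) : ℂ) := by
    push_cast
    rw [← h]
    exact Finset.sum_congr rfl (fun j _ => (hcr j).symm)
  exact_mod_cast e1

lemma one_not_odd {χ : DirichletCharacter ℂ q} (h : χ.Odd) : χ ≠ 1 := by
  intro h1
  rw [h1] at h
  have h3 : (1 : DirichletCharacter ℂ q) (-1) = 1 := MulChar.one_apply isUnit_one.neg
  unfold DirichletCharacter.Odd at h
  rw [h3] at h
  norm_num at h

/-- at most one nonprincipal character of each parity for each shift: all exponents are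
integers -/
theorem int_of_parity (h1 : ∀ j, X j = 1 → ∃ n : ℤ, r j = n)
    (hev : ∀ τ : ℝ, ∀ D : J → Prop, (∀ j, D j ↔ θ j = τ ∧ X j ≠ 1 ∧ (X j).Even) →
      ∀ _ : DecidablePred D, ∃ n : ℕ, ∑ j with D j, r j = n)
    (hod : ∀ τ : ℝ, ∀ D : J → Prop, (∀ j, D j ↔ θ j = τ ∧ (X j).Odd) →
      ∀ _ : DecidablePred D, ∃ n : ℕ, ∑ j with D j, r j = n)
    (hop : ∀ i j, θ i = θ j → X i ≠ 1 → X j ≠ 1 → r i ≠ 0 → r j ≠ 0 →
      ((X i).Even ↔ (X j).Even) → i = j) (j : J) : ∃ n : ℤ, r j = n := by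
  classical
  by_cases h0 : r j = 0
  · exact ⟨0, by simp [h0]⟩
  by_cases hj1 : X j = 1
  · exact h1 j hj1
  rcases (X j).even_or_odd with he | ho
  · obtain ⟨n, hn⟩ := hev (θ j) (fun i => θ i = θ j ∧ X i ≠ 1 ∧ (X i).Even) (fun _ => Iff.rfl)
      (Classical.decPred _)
    refine ⟨n, ?_⟩
    have e1 : ∑ i with (θ i = θ j ∧ X i ≠ 1 ∧ (X i).Even), r i = r j := by
      refine Finset.sum_eq_single j (fun i hi hne => ?_) (fun hn => ?_)
      · by_contra hi0
        have hi' := (Finset.mem_filter.1 hi).2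
        exact hne (hop i j hi'.1 hi'.2.1 hj1 hi0 h0 ⟨fun _ => he, fun _ => hi'.2.2⟩)
      · exact absurd (Finset.mem_filter.2 ⟨Finset.mem_univ _, rfl, hj1, he⟩) hn
    rw [← e1]
    have e2 : ((n : ℤ) : ℚ) = (n : ℚ) := by simp
    rw [e2, ← hn]
    exact Finset.sum_congr (by ext; simp) (fun _ _ => rfl)
  · obtain ⟨n, hn⟩ := hod (θ j) (fun i => θ i = θ j ∧ (X i).Odd) (fun _ => Iff.rfl)
      (Classical.decPred _)
    refine ⟨n, ?_⟩
    have e1 : ∑ i with (θ i = θ j ∧ (X i).Odd), r i = r j := by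
      refine Finset.sum_eq_single j (fun i hi hne => ?_) (fun hn => ?_)
      · by_contra hi0
        have hi' := (Finset.mem_filter.1 hi).2
        refine hne (hop i j hi'.1 (one_not_odd hi'.2) hj1 hi0 h0 ⟨fun h3 => ?_, fun h3 => ?_⟩)
        · exact absurd ⟨h3, hi'.2⟩ (DirichletCharacter.not_even_and_odd (X i))
        · exact absurd ⟨h3, ho⟩ (DirichletCharacter.not_even_and_odd (X j))
      · exact absurd (Finset.mem_filter.2 ⟨Finset.mem_univ _, rfl, ho⟩) hn
    rw [← e1]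
    have e2 : ((n : ℤ) : ℚ) = (n : ℚ) := by simp
    rw [e2, ← hn]
    exact Finset.sum_congr (by ext; simp) (fun _ _ => rfl)

omit [NeZero q] in
/-- separation by lattice vectors -/
theorem int_of_lattice {L : AddSubgroup (J → ℤ)}
    (hL : ∀ v ∈ L, ∃ n : ℤ, ∑ j, r j * v j = n)
    (hsep : ∀ j, r j ≠ 0 → ∃ v ∈ L, v j = 1 ∧ ∀ i, i ≠ j → r i ≠ 0 → v i = 0) (j : J) :
    ∃ n : ℤ, r j = n := by
  classical
  by_cases h0 : r j = 0
  · exact ⟨0, by simp [h0]⟩
  obtain ⟨v, hv, hvj, hvi⟩ := hsep j h0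
  obtain ⟨n, hn⟩ := hL v hv
  refine ⟨n, ?_⟩
  rw [← hn, Finset.sum_eq_single j]
  · rw [hvj]; simp
  · intro i _ hne
    by_cases hi : r i = 0
    · rw [hi, zero_mul]
    · rw [hvi i hne hi]; simp
  · intro h
    exact absurd (Finset.mem_univ _) h

/-- cyclic unit group and rational Euler factors: every unit vector is in the lattice -/
theorem lattice_of_cyclic {b : ℕ → ℂ} (hinj : Function.Injective (fun j => (θ j, X j)))
    (hcyc : IsCyclic (ZMod q)ˣ) (hrat : ∀ p : ℕ, p.Prime → p.Coprime q → RatAt b p) (j : J) :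
    ∃ v ∈ AddSubgroup.closure (Gen b θ X), v j = 1 ∧ ∀ i, i ≠ j → v i = 0 := by
  classical
  obtain ⟨p, hp, hpq, hsep⟩ := cyclic_sep hinj hcyc
  refine ⟨fun i => if X i (p : ZMod q) * osc (θ i) p = X j (p : ZMod q) * osc (θ j) p then 1 else 0,
    AddSubgroup.subset_closure (Or.inr ⟨p, _, hp, hpq, hrat p hp hpq, fun i => rfl⟩), ?_, ?_⟩
  · simp
  · intro i hi
    exact if_neg (fun h => hi (hsep i j h))

end

end Pool.Agent.Selb
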