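import Pool.Agent.Selb.D1Per
import Pool.Agent.Selb.D1Phi
import Pool.Agent.Selb.D1Char
import Pool.Agent.Selb.DirC

/-!
# Selb/D1Main: a product of fractional powers of Dirichlet L-functions of total degree one
-/

set_option autoImplicit false

open Complex Filter Topology

namespace Pool.Agent.Selb

section

variable {q : ℕ} [NeZero q]

lemma LOrd_entire {χ : DirichletCharacter ℂ q} (h : χ ≠ 1) (z : ℂ) [NeZero χ.conductor] :
    LOrd χ z = (ord χ.primitiveCharacter.LFunction z : ℤ) := by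
  classical
  rw [LOrd_eq, if_neg h, sub_zero, entL_ne_one h]

theorem no_degree_one {D : ℕ} (hD : 0 < D) (e : DirichletCharacter ℂ q → ℕ)
    (hsum : ∑ χ, e χ = D)
    (hpar : (∀ χ, e χ ≠ 0 → χ ≠ 1 ∧ χ.Even) ∨ (∀ χ, e χ ≠ 0 → χ.Odd))
    (hord : ∀ z : ℂ, (D : ℤ) ∣ ∑ χ, (e χ : ℤ) * LOrd χ z) : ∃ χ, e χ = D := by
  classical
  let ι := {χ : DirichletCharacter ℂ q // e χ ≠ 0}
  have hN : ∀ i : ι, NeZero i.1.conductor := fun i => ⟨i.1.conductor_ne_zero⟩
  have hne1 : ∀ i : ι, i.1 ≠ 1 := by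
    intro i
    rcases hpar with h | h
    · exact (h i.1 i.2).1
    · exact one_not_odd (h i.1 i.2)
  have hsub : ∀ {M : Type} [AddCommMonoid M] (f : DirichletCharacter ℂ q → M),
      (∀ χ, e χ = 0 → f χ = 0) → ∑ i : ι, f i.1 = ∑ χ, f χ := by
    intro M _ f hf
    rw [← Finset.sum_subtype (Finset.univ.filter (fun χ => e χ ≠ 0)) (by simp) f]
    refine Finset.sum_subset (Finset.subset_univ _) (fun χ _ h => hf χ ?_)
    simpa using h
  have hκ : ∃ κ : ℕ, (κ = 0 ∨ κ = 1) ∧
      ∀ i : ι, ∀ s : ℂ, i.1.primitiveCharacter.gammaFactor s = Gammaℝ (s + κ) := by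
    rcases hpar with h | h
    · exact ⟨0, Or.inl rfl, fun i s => by rw [(prim_even (h i.1 i.2).2).gammaFactor_def]; simp⟩
    · exact ⟨1, Or.inr rfl, fun i s => by rw [(prim_odd (h i.1 i.2)).gammaFactor_def]; simp⟩
  obtain ⟨κ, hκ01, hγ⟩ := hκ
  have he : ∑ i : ι, e i.1 = D := by rw [hsub e (fun χ h => h), hsum]
  obtain ⟨Q, ω, Φ, C, hP⟩ := exists_phi (fun i : ι => i.1.conductor)
    (fun i => i.1.primitiveCharacter) (fun i => i.1.primitiveCharacter_isPrimitive)
    (fun i => prim_ne_one (hne1 i)) hκ01 hγ hD (fun i => e i.1) he (fun z _ => by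
      have h1 := hord z
      rw [← hsub (fun χ => (e χ : ℤ) * LOrd χ z) (fun χ h => by simp [h])] at h1
      have h2 : ∑ i : ι, (e i.1 : ℤ) * LOrd i.1 z =
          ((∑ i : ι, e i.1 * ord i.1.primitiveCharacter.LFunction z : ℕ) : ℤ) := by
        push_cast
        exact Finset.sum_congr rfl (fun i _ => by rw [LOrd_entire (hne1 i)])
      rw [h2] at h1
      exact_mod_cast h1)
  obtain ⟨m, hm, hper⟩ := A_period hP
  have hcm : ∀ i : ι, CMul (fun n => i.1.primitiveCharacter (n : ZMod i.1.conductor)) :=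
    fun i => cmul_char _
  have hD' : (0 : ℝ) < D := by exact_mod_cast hD
  have hall := char_final (X := fun i : ι => i.1) (r := fun i => (e i.1 : ℝ) / D)
    (fun i => by
      have : (0 : ℝ) < e i.1 := by exact_mod_cast Nat.pos_of_ne_zero i.2
      positivity)
    (by
      rw [← Finset.sum_div, div_eq_one_iff_eq hD'.ne']
      exact_mod_cast he)
    (AF_mult hcm _) (fun p hp hpq => by
      rw [AF_prime hcm _ hp]
      refine Finset.sum_congr rfl (fun i _ => ?_)
      rw [prim_apply i.1 hpq]) hm hper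
  have hne : Nonempty ι := by
    by_contra h
    rw [not_nonempty_iff] at h
    rw [Finset.sum_of_isEmpty] at he
    omega
  obtain ⟨i⟩ := hne
  refine ⟨i.1, ?_⟩
  rw [← hsum]
  symm
  refine Finset.sum_eq_single i.1 (fun χ _ hχ => ?_) (fun h => absurd (Finset.mem_univ _) h)
  by_contra h
  exact hχ (hall ⟨χ, h⟩ i)

end

end Pool.Agent.Selb
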