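import Pool.Agent.Selb.D1LapC
import Pool.Agent.Selb.D1Lim

/-!
# Selb/D1Per: the coefficients of a degree one function are periodic
-/

set_option autoImplicit false

open Complex Filter Topology

namespace Pool.Agent.Selb

variable {A : ℕ → ℂ} {κ : ℕ} {Q : ℝ} {ω : ℂ} {Φ : ℂ → ℂ} {C : ℝ}

lemma kc_ne (κ : ℕ) : kc κ ≠ 0 := by
  unfold kc
  exact div_ne_zero I_ne_zero (pow_ne_zero _ (by simp))

theorem shift_lim (h : DegOne A κ Q ω Φ C) (n : ℕ) (hn : 1 ≤ n) :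
    Tendsto (fun ε : ℝ => (ε : ℂ) ^ (κ + 1) * ratS A κ (ε + ((n : ℝ) + Q : ℝ) * I)) (𝓝[>] 0)
      (𝓝 (kc κ * A n)) := by
  refine (ratS_lim h.Ale h.kap hn).congr' ?_
  filter_upwards [self_mem_nhdsWithin] with ε hε
  have hε' : 0 < ε := hε
  have h1 := ratS_period h (t := ε + n * I) (by simpa using hε')
  rw [← h1]
  congr 2
  push_cast
  ring

theorem Q_nat (h : DegOne A κ Q ω Φ C) : ∃ m : ℕ, 0 < m ∧ Q = m := by
  have h1 := shift_lim h 1 le_rfl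
  by_cases h2 : ∃ n : ℕ, (n : ℝ) = ((1 : ℕ) : ℝ) + Q
  · obtain ⟨n, hn⟩ := h2
    have hQ := h.Qpos
    have hn1 : 1 < n := by
      have : (1 : ℝ) < n := by rw [hn]; push_cast; linarith
      exact_mod_cast this
    refine ⟨n - 1, by omega, ?_⟩
    rw [Nat.cast_sub hn1.le, hn]
    push_cast
    ring
  · push Not at h2
    have h3 := ratS_lim_zero h.Ale h.kap (y := ((1 : ℕ) : ℝ) + Q)
      (by have := h.Qpos; push_cast; linarith) h2
    have h4 := tendsto_nhds_unique h1 h3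
    rw [h.A1, mul_one] at h4
    exact absurd h4 (kc_ne κ)

theorem A_period (h : DegOne A κ Q ω Φ C) : ∃ m : ℕ, 0 < m ∧ ∀ n, 1 ≤ n → A (n + m) = A n := by
  obtain ⟨m, hm, hQ⟩ := Q_nat h
  refine ⟨m, hm, fun n hn => ?_⟩
  have h1 := shift_lim h n hn
  have h2 := ratS_lim h.Ale h.kap (n := n + m) (by omega)
  have h3 : (fun ε : ℝ => (ε : ℂ) ^ (κ + 1) * ratS A κ (ε + ((n : ℝ) + Q : ℝ) * I)) =
      fun ε : ℝ => (ε : ℂ) ^ (κ + 1) * ratS A κ (ε + ((n + m : ℕ) : ℂ) * I) := by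
    funext ε
    rw [hQ]
    push_cast
    rfl
  rw [h3] at h1
  have h4 := tendsto_nhds_unique h1 h2
  exact (mul_left_cancel₀ (kc_ne κ) h4).symm

end Pool.Agent.Selb
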