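import Pool.Agent.Selb.Fac

/-!
# Selb/D1Root: entire `D`-th roots

`ord f z = analyticOrderNatAt f z` (see `Selb/Fac`, imported: `factor_finset`, `zeros_finite`, `mem_zer`,
`ord_eq_zero`, `ord_pos`, `ord_mul`).

* `pow_eq_pow_preconn`. If `U = ∅` take `ζ = 1`. Let `z0 ∈ U`. By
  `IsPrimitiveRoot.pow_sub_pow_eq_prod_sub_mul` (with `Complex.isPrimitiveRoot_exp D hD`),
  `0 = f z ^ D - g z ^ D = ∏ ζ ∈ nthRootsFinset D, (f z - ζ * g z)` on `U`. For every `z ∈ U` one factor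
  vanishes; the set of factors is finite, so for one `ζ` the equality `f z - ζ * g z = 0` holds frequently in
  `𝓝[≠] z0` (`Filter.frequently_bUnion_finset`-like argument, or: if every factor were eventually nonzero in
  `𝓝[≠] z0` then so would be the product). `AnalyticOnNhd.eqOn_zero_of_preconnected_of_frequently_eq_zero`
  gives `f = ζ g` on `U`.
* `ball_root`. Let `S` be the finite set of zeros of `P` in the closed ball of radius `R` (`zeros_finite`),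
  `P z = (∏ ρ ∈ S, (z - ρ) ^ ord P ρ) * g z` (`factor_finset`); `g` has no zero in `ball 0 R` (if `z ∈ S` by
  `factor_finset`, otherwise `P z ≠ 0`). On the ball `deriv g / g` is holomorphic, so it has a primitive `h`
  (`DifferentiableOn.isExactOn_ball`, see Mathlib/Analysis/Complex/HasPrimitives), the derivative of
  `g * exp (-h)` is `0` on the ball, so `g = c * exp h` there (`(convex_ball _ _).isPreconnected` /
  `IsOpen.is_const_of_deriv_eq_zero`), `c ≠ 0` (if `R ≤ 0` the ball is empty: trivial). Take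
  `f z = (∏ ρ ∈ S, (z - ρ) ^ (ord P ρ / D)) * c1 * exp (h z / D)` with `c1 ^ D = c`
  (`IsAlgClosed.exists_pow_nat_eq`).
* `entire_root`. Fix `z0` with `P z0 ≠ 0` and `w0 ^ D = P z0`. For every `n : ℕ` with `‖z0‖ < n`, multiplying the
  root `f_n` on `ball 0 n` by a `D`-th root of unity we may assume `f_n z0 = w0` (`(w0 / f_n z0) ^ D = 1`). For
  `n ≤ m`, `f_n = ζ f_m` on `ball 0 n` by `pow_eq_pow_preconn` and `ζ = 1` by the value at `z0` (`w0 ≠ 0`). Put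
  `F z = f_{k(z)} z` with `k(z) = ⌈‖z‖⌉₊ + ⌈‖z0‖⌉₊ + 2`; near a point `z1`, `F = f_m` for
  `m = ⌈‖z1‖⌉₊ + ⌈‖z0‖⌉₊ + 4`. Hence `F` is differentiable and `F ^ D = P`.
-/

set_option autoImplicit false

open Complex Metric Filter Topology

namespace Pool.Agent.Selb

theorem pow_eq_pow_preconn {U : Set ℂ} (hU : IsOpen U) (hc : IsPreconnected U) {f g : ℂ → ℂ}
    (hf : DifferentiableOn ℂ f U) (hg : DifferentiableOn ℂ g U) {D : ℕ} (hD : 0 < D)
    (h : ∀ z ∈ U, f z ^ D = g z ^ D) : ∃ ζ : ℂ, ζ ^ D = 1 ∧ ∀ z ∈ U, f z = ζ * g z := by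
  rcases U.eq_empty_or_nonempty with rfl | ⟨z0, hz0⟩
  · exact ⟨1, one_pow D, fun z hz => absurd hz (Set.notMem_empty z)⟩
  have hp := Complex.isPrimitiveRoot_exp D hD.ne'
  have hprod : ∀ z ∈ U, ∏ ζ ∈ Polynomial.nthRootsFinset D (1 : ℂ), (f z - ζ * g z) = 0 := by
    intro z hz
    rw [← hp.pow_sub_pow_eq_prod_sub_mul _ _ hD, h z hz, sub_self]
  by_contra hcon
  push Not at hcon
  have hev : ∀ ζ ∈ Polynomial.nthRootsFinset D (1 : ℂ), ∀ᶠ z in 𝓝[≠] z0, f z - ζ * g z ≠ 0 := by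
    intro ζ hζ
    by_contra hne
    rw [Filter.not_eventually] at hne
    have hfreq : ∃ᶠ z in 𝓝[≠] z0, f z - ζ * g z = 0 := by simpa using hne
    have han : AnalyticOnNhd ℂ (fun z => f z - ζ * g z) U :=
      (hf.sub (hg.const_mul ζ)).analyticOnNhd hU
    have h1 := han.eqOn_zero_of_preconnected_of_frequently_eq_zero hc hz0 hfreq
    obtain ⟨z, hz, hz'⟩ := hcon ζ ((Polynomial.mem_nthRootsFinset hD _).1 hζ)
    exact hz' (sub_eq_zero.1 (h1 hz))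
  have h2 : ∀ᶠ z in 𝓝[≠] z0, ∀ ζ ∈ Polynomial.nthRootsFinset D (1 : ℂ), f z - ζ * g z ≠ 0 :=
    (Finset.eventually_all _).2 hev
  have h3 : ∀ᶠ z in 𝓝[≠] z0, z ∈ U := nhdsWithin_le_nhds (hU.mem_nhds hz0)
  obtain ⟨z, hz1, hz2⟩ := (h2.and h3).exists
  obtain ⟨ζ, hζ, h4⟩ := Finset.prod_eq_zero_iff.1 (hprod z hz2)
  exact hz1 ζ hζ h4

theorem ball_root {P : ℂ → ℂ} (hP : Differentiable ℂ P) (hne : ∃ z, P z ≠ 0) {D : ℕ} (hD : 0 < D)
    (hord : ∀ z, D ∣ ord P z) (R : ℝ) :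
    ∃ f : ℂ → ℂ, DifferentiableOn ℂ f (ball 0 R) ∧ ∀ z ∈ ball (0 : ℂ) R, f z ^ D = P z := by
  classical
  obtain ⟨g, hg, hgS, hfac⟩ := factor_finset hP hne (zer P hP hne R)
  have hg0 : ∀ z ∈ ball (0 : ℂ) R, g z ≠ 0 := by
    intro z hz
    by_cases hzS : z ∈ zer P hP hne R
    · exact hgS z hzS
    · intro h0
      apply hzS
      rw [mem_zer]
      refine ⟨?_, ?_⟩
      · rw [hfac z, h0, mul_zero]
      · rw [mem_ball_zero_iff] at hz
        exact hz.le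
  have hdg : DifferentiableOn ℂ (deriv g) Set.univ := hg.differentiableOn.deriv isOpen_univ
  have hd : DifferentiableOn ℂ (fun z => deriv g z / g z) (ball 0 R) :=
    (hdg.mono (Set.subset_univ _)).div hg.differentiableOn hg0
  obtain ⟨h, hh⟩ := hd.isExactOn_ball
  have hφ : ∀ z ∈ ball (0 : ℂ) R, HasDerivAt (fun z => g z * Complex.exp (-h z)) 0 z := by
    intro z hz
    have h1 := (hg z).hasDerivAt.mul ((hh z hz).neg.cexp)
    refine h1.congr_deriv ?_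
    have h2 := hg0 z hz
    field_simp
    ring
  obtain ⟨c, hc⟩ := isOpen_ball.exists_is_const_of_deriv_eq_zero
    (f := fun z => g z * Complex.exp (-h z)) (convex_ball (0 : ℂ) R).isPreconnected
    (fun z hz => (hφ z hz).differentiableAt.differentiableWithinAt)
    (fun z hz => (hφ z hz).deriv)
  have hgc : ∀ z ∈ ball (0 : ℂ) R, g z = c * Complex.exp (h z) := by
    intro z hz
    rw [← hc z hz, mul_assoc, ← Complex.exp_add]
    simp
  obtain ⟨c1, hc1⟩ := IsAlgClosed.exists_pow_nat_eq c hD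
  refine ⟨fun z => (∏ ρ ∈ zer P hP hne R, (z - ρ) ^ (ord P ρ / D)) *
    (c1 * Complex.exp (h z / D)), ?_, ?_⟩
  · have h1 : Differentiable ℂ (fun z : ℂ => ∏ ρ ∈ zer P hP hne R, (z - ρ) ^ (ord P ρ / D)) := by
      fun_prop
    have h2 : DifferentiableOn ℂ h (ball 0 R) := fun z hz =>
      (hh z hz).differentiableAt.differentiableWithinAt
    exact h1.differentiableOn.mul ((h2.div_const _).cexp.const_mul c1)
  · intro z hz
    have hD0 : (D : ℂ) ≠ 0 := by exact_mod_cast hD.ne'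
    rw [mul_pow, mul_pow, hc1, ← Complex.exp_nat_mul, mul_div_cancel₀ _ hD0, ← hgc z hz,
      ← Finset.prod_pow, hfac z]
    congr 1
    apply Finset.prod_congr rfl
    intro ρ _
    rw [← pow_mul, Nat.div_mul_cancel (hord ρ)]

theorem entire_root {P : ℂ → ℂ} (hP : Differentiable ℂ P) (hne : ∃ z, P z ≠ 0) {D : ℕ} (hD : 0 < D)
    (hord : ∀ z, D ∣ ord P z) : ∃ F : ℂ → ℂ, Differentiable ℂ F ∧ ∀ z, F z ^ D = P z := by
  obtain ⟨z0, hz0⟩ := id hne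
  obtain ⟨w0, hw0⟩ := IsAlgClosed.exists_pow_nat_eq (P z0) hD
  have hw0' : w0 ≠ 0 := by
    intro h0
    rw [h0, zero_pow hD.ne'] at hw0
    exact hz0 hw0.symm
  have key : ∀ n : ℕ, ∃ f : ℂ → ℂ, ‖z0‖ < n → (DifferentiableOn ℂ f (ball 0 n) ∧
      (∀ z ∈ ball (0 : ℂ) n, f z ^ D = P z) ∧ f z0 = w0) := by
    intro n
    obtain ⟨f, hf1, hf2⟩ := ball_root hP hne hD hord n
    refine ⟨fun z => w0 / f z0 * f z, fun hn => ?_⟩
    have hzb : z0 ∈ ball (0 : ℂ) n := by rwa [mem_ball_zero_iff]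
    have h1 := hf2 z0 hzb
    have h2 : f z0 ≠ 0 := by
      intro h0
      rw [h0, zero_pow hD.ne'] at h1
      exact hz0 h1.symm
    refine ⟨hf1.const_mul _, fun z hz => ?_, div_mul_cancel₀ _ h2⟩
    rw [mul_pow, div_pow, h1, hw0, div_self hz0, one_mul, hf2 z hz]
  choose f hf using key
  have cons : ∀ n m : ℕ, n ≤ m → ‖z0‖ < n → ∀ z ∈ ball (0 : ℂ) n, f n z = f m z := by
    intro n m hnm hn
    have hnm' : (n : ℝ) ≤ m := by exact_mod_cast hnm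
    obtain ⟨a1, a2, a3⟩ := hf n hn
    obtain ⟨b1, b2, b3⟩ := hf m (lt_of_lt_of_le hn hnm')
    have hsub : ball (0 : ℂ) n ⊆ ball (0 : ℂ) m := ball_subset_ball hnm'
    obtain ⟨ζ, hζ1, hζ2⟩ := pow_eq_pow_preconn isOpen_ball (convex_ball (0 : ℂ) n).isPreconnected
      a1 (b1.mono hsub) hD (fun z hz => by rw [a2 z hz, b2 z (hsub hz)])
    have h1 := hζ2 z0 (by rwa [mem_ball_zero_iff])
    rw [a3, b3] at h1
    have h2 : ζ = 1 := by
      have : (ζ - 1) * w0 = 0 := by linear_combination -h1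
      rcases mul_eq_zero.1 this with h3 | h3
      · exact sub_eq_zero.1 h3
      · exact absurd h3 hw0'
    intro z hz
    rw [hζ2 z hz, h2, one_mul]
  have hk : ∀ z : ℂ, ‖z‖ < ((⌈‖z‖⌉₊ + ⌈‖z0‖⌉₊ + 2 : ℕ) : ℝ) ∧
      ‖z0‖ < ((⌈‖z‖⌉₊ + ⌈‖z0‖⌉₊ + 2 : ℕ) : ℝ) := by
    intro z
    have h1 := Nat.le_ceil ‖z‖
    have h2 := Nat.le_ceil ‖z0‖
    have h3 : (0 : ℝ) ≤ (⌈‖z‖⌉₊ : ℝ) := Nat.cast_nonneg _
    have h4 : (0 : ℝ) ≤ (⌈‖z0‖⌉₊ : ℝ) := Nat.cast_nonneg _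
    push_cast
    constructor <;> linarith
  have hF : ∀ m : ℕ, ‖z0‖ < m → ∀ z ∈ ball (0 : ℂ) m,
      f (⌈‖z‖⌉₊ + ⌈‖z0‖⌉₊ + 2) z = f m z := by
    intro m hm z hz
    obtain ⟨h1, h2⟩ := hk z
    rcases le_total (⌈‖z‖⌉₊ + ⌈‖z0‖⌉₊ + 2) m with h | h
    · exact cons _ _ h h2 z (by rwa [mem_ball_zero_iff])
    · exact (cons _ _ h hm z hz).symm
  refine ⟨fun z => f (⌈‖z‖⌉₊ + ⌈‖z0‖⌉₊ + 2) z, fun z1 => ?_, fun z => ?_⟩
  · obtain ⟨h1, h2⟩ := hk z1
    have hz1 : z1 ∈ ball (0 : ℂ) ((⌈‖z1‖⌉₊ + ⌈‖z0‖⌉₊ + 2 : ℕ) : ℝ) := by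
      rwa [mem_ball_zero_iff]
    have h3 : DifferentiableAt ℂ (f (⌈‖z1‖⌉₊ + ⌈‖z0‖⌉₊ + 2)) z1 :=
      (hf _ h2).1.differentiableAt (isOpen_ball.mem_nhds hz1)
    refine h3.congr_of_eventuallyEq ?_
    filter_upwards [isOpen_ball.mem_nhds hz1] with z hz
    exact hF _ h2 z hz
  · obtain ⟨h1, h2⟩ := hk z
    exact (hf _ h2).2.1 z (by rwa [mem_ball_zero_iff])

end Pool.Agent.Selb
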