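import Pool.Agent.Selb.D1Def
import Pool.Agent.ZC.Strip

/-!
# Selb/D1Theta: the theta relation

`h : DegOne A κ Q ω Φ C`.
* `th_mellin`: for `1 < re s`, `mellin (th A κ Q) ((s + κ) / 2) = Q ^ (κ / 2) * Φ s`. Mathlib:
  `hasSum_mellin_pi_mul_sq` (Mathlib/NumberTheory/LSeries/MellinEqDirichlet) with `a n = A n * n ^ κ`,
  `r n = n / √Q`, its `s` being `s + κ`: the sum is `∑ Gammaℝ (s + κ) * (A n * n ^ κ) / (n / √Q) ^ (s + κ)
  = Gammaℝ (s + κ) * Q ^ ((s + κ)/2) * ∑ A n / n ^ s`. (For `n = 0` both sides vanish as `A 0 = 0`.)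
* `th_conv`: for `1 < re s` (real `s` suffices) `MellinConvergent (th A κ Q) ((s + κ)/2)`: `th` is a sum of functions
  whose Mellin integrands have summable `L¹` norms (`∫ x^(c-1) exp (-π n² x / Q) = Γ(c) (π n²/Q)^(-c)`); e.g.
  `MeasureTheory.hasSum_integral_of_summable_integral_norm` together with
  `MeasureTheory.integrable_of_summable_norm_...`, or bounds `‖th x‖ ≤ ∑ n exp (-π n² x/Q)`; for `x ≥ 1` this is
  `O(exp (-π x / (2 Q)))`, for `x ≤ 1` use `exp (-u) ≤ K u^(-c')` termwise with `c'` slightly less than `c`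
  (`mellinConvergent_of_isBigO_rpow_exp`).
* `th_cont`: `th` is continuous on `Ioi 0` (`continuousOn_tsum` on each `Ioi δ`, Weierstrass test).
* `theta_rel`: by `mellinInv_mellin_eq` with `σ = 1 + κ/2` (that is `re s = 2`; vertical integrability from
  `h.dec`), `th x = (1/(2π)) ∫ x^(-w) Q^(κ/2) Φ(2 w - κ)` over `w = 1 + κ/2 + i y`. Move the line to
  `re w = κ/2 - 1/2` (that is `re s = -1`) by `ZC.strip_shift` (`‖x^(-w)‖` is bounded on the strip, the decay is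
  `h.dec` with `im s = 2 im w`). There `w = κ + 1/2 - conj v` with `re v = 1 + κ/2`, `im v = im w`, and
  `Φ(2 w - κ) = ω conj (Φ (1 - conj (2 w - κ))) = ω conj (Φ (2 v - κ))`, `x^(-w) = x^(-κ-1/2) conj (x^v)`; so the
  integral is `ω x^(-κ-1/2) conj ((1/(2π)) ∫ (x⁻¹)^(-v) Q^(κ/2) Φ(2 v - κ)) = ω x^(-κ-1/2) conj (th (x⁻¹))`
  (`integral_conj`, mellin inversion again at `x⁻¹`).
-/

set_option autoImplicit false

open Complex MeasureTheory Filter Topology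

namespace Pool.Agent.Selb

variable {A : ℕ → ℂ} {κ : ℕ} {Q : ℝ} {ω : ℂ} {Φ : ℂ → ℂ} {C : ℝ}

namespace D1ThetaAux

theorem term_norm_le (h : DegOne A κ Q ω Φ C) (x : ℝ) (n : ℕ) :
    ‖A n * (n : ℂ) ^ κ * (Real.exp (-(Real.pi * n ^ 2 / Q) * x) : ℂ)‖ ≤
      (n : ℝ) ^ κ * Real.exp (-(Real.pi * n ^ 2 / Q) * x) := by
  rw [norm_mul, norm_mul, norm_pow, Complex.norm_natCast, Complex.norm_real, Real.norm_eq_abs,
    Real.abs_exp]
  have := h.Ale n
  have h2 : (0 : ℝ) ≤ (n : ℝ) ^ κ := by positivity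
  have h3 : ‖A n‖ * (n : ℝ) ^ κ ≤ (n : ℝ) ^ κ := mul_le_of_le_one_left h2 this
  exact mul_le_mul_of_nonneg_right h3 (Real.exp_nonneg _)

theorem term_norm_le' (h : DegOne A κ Q ω Φ C) {δ x : ℝ} (hδ : 0 < δ) (hx : δ ≤ x) (n : ℕ) :
    ‖A n * (n : ℂ) ^ κ * (Real.exp (-(Real.pi * n ^ 2 / Q) * x) : ℂ)‖ ≤
      (n : ℝ) ^ κ * Real.exp (-(Real.pi * δ / Q) * n) := by
  refine (term_norm_le h x n).trans ?_
  apply mul_le_mul_of_nonneg_left _ (by positivity)
  apply Real.exp_le_exp.2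
  have hQ := h.Qpos
  have h1 : (n : ℝ) ≤ (n : ℝ) ^ 2 := by
    have : n ≤ n ^ 2 := by nlinarith [Nat.zero_le n, sq_nonneg ((n : ℤ) - 1)]
    exact_mod_cast this
  have h2 : Real.pi * δ / Q * n ≤ Real.pi * n ^ 2 / Q * x := by
    calc Real.pi * δ / Q * n = Real.pi / Q * (n * δ) := by ring
      _ ≤ Real.pi / Q * (n ^ 2 * x) := by
          have := Real.pi_pos
          gcongr
      _ = _ := by ring
  linarith

theorem summable_bd (h : DegOne A κ Q ω Φ C) {δ : ℝ} (hδ : 0 < δ) :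
    Summable fun n : ℕ => (n : ℝ) ^ κ * Real.exp (-(Real.pi * δ / Q) * n) :=
  Real.summable_pow_mul_exp_neg_nat_mul κ (by have := h.Qpos; positivity)

theorem summable_term (h : DegOne A κ Q ω Φ C) {x : ℝ} (hx : 0 < x) :
    Summable fun n : ℕ => A n * (n : ℂ) ^ κ * (Real.exp (-(Real.pi * n ^ 2 / Q) * x) : ℂ) :=
  Summable.of_norm_bounded (summable_bd h hx) (fun n => term_norm_le' h hx le_rfl n)

end D1ThetaAux

open D1ThetaAux

theorem th_mellin (h : DegOne A κ Q ω Φ C) {s : ℂ} (hs : 1 < s.re) :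
    mellin (th A κ Q) ((s + κ) / 2) = ((Q ^ ((κ : ℝ) / 2) : ℝ) : ℂ) * Φ s := by
  have hQ := h.Qpos
  have hpi := Real.pi_pos
  have hre : ((s + κ) / 2).re = (s.re + κ) / 2 := by simp
  have hk0 : (0 : ℝ) ≤ κ := Nat.cast_nonneg κ
  have hw : 0 < ((s + κ) / 2).re := by rw [hre]; linarith
  have hmain := hasSum_mellin (a := fun n : ℕ => A n * (n : ℂ) ^ κ)
    (p := fun n : ℕ => Real.pi * n ^ 2 / Q) (F := th A κ Q) (s := (s + κ) / 2) ?_ hw ?_ ?_
  · rw [h.ser s hs]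
    have h1 : HasSum (fun n : ℕ => Complex.Gamma ((s + κ) / 2) * (A n * (n : ℂ) ^ κ) /
        ((Real.pi * n ^ 2 / Q : ℝ) : ℂ) ^ ((s + κ) / 2))
        (((Q ^ ((κ : ℝ) / 2) : ℝ) : ℂ) * ((Q : ℂ) ^ (s / 2) * Gammaℝ (s + κ) * LSeries A s)) := by
      have hsum : LSeriesSummable A s := by
        refine LSeriesSummable_of_le_const_mul_rpow (x := 1) hs ⟨1, fun n _ => ?_⟩
        simpa using h.Ale n
      have h2 : HasSum (fun n : ℕ => ((Q ^ ((κ : ℝ) / 2) : ℝ) : ℂ) *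
          ((Q : ℂ) ^ (s / 2) * Gammaℝ (s + κ)) * LSeries.term A s n)
          (((Q ^ ((κ : ℝ) / 2) : ℝ) : ℂ) * ((Q : ℂ) ^ (s / 2) * Gammaℝ (s + κ) * LSeries A s)) := by
        have h3 := hsum.hasSum.mul_left (((Q ^ ((κ : ℝ) / 2) : ℝ) : ℂ) *
          ((Q : ℂ) ^ (s / 2) * Gammaℝ (s + κ)))
        rw [mul_assoc (((Q ^ ((κ : ℝ) / 2) : ℝ) : ℂ))] at h3
        exact h3
      refine Eq.mp (congrArg (fun f => HasSum f _) (funext fun n => ?_)) h2
      symm
      rcases Nat.eq_zero_or_pos n with rfl | hn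
      · simp [h.A0]
      · rw [LSeries.term_of_ne_zero (by omega)]
        have hn' : (0 : ℝ) < n := by exact_mod_cast hn
        have hnc : (n : ℂ) ≠ 0 := by exact_mod_cast hn'.ne'
        have e1 : ((Real.pi * n ^ 2 / Q : ℝ) : ℂ) ^ ((s + κ) / 2) =
            (Real.pi : ℂ) ^ ((s + κ) / 2) * ((n : ℂ) ^ s * (n : ℂ) ^ κ) /
              (((Q : ℂ) ^ (s / 2)) * ((Q ^ ((κ : ℝ) / 2) : ℝ) : ℂ)) := by
          have e2 : ((Real.pi * n ^ 2 / Q : ℝ) : ℂ) =
            ((Real.pi : ℝ) : ℂ) * (((n : ℝ) ^ 2 * Q⁻¹ : ℝ) : ℂ) := by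
            push_cast; ring
          rw [e2, Complex.mul_cpow_ofReal_nonneg hpi.le (by positivity)]
          have e3 : (((n : ℝ) ^ 2 * Q⁻¹ : ℝ) : ℂ) = (((n : ℝ) ^ 2 : ℝ) : ℂ) * ((Q⁻¹ : ℝ) : ℂ) := by
            push_cast; ring
          rw [e3, Complex.mul_cpow_ofReal_nonneg (by positivity) (by positivity)]
          have e4 : ((((n : ℝ) ^ 2 : ℝ) : ℂ)) ^ ((s + κ) / 2) = (n : ℂ) ^ s * (n : ℂ) ^ κ := by
            have e5 : ((((n : ℝ) ^ 2 : ℝ) : ℂ)) ^ ((s + κ) / 2) = (n : ℂ) ^ (s + κ) := by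
              rw [show ((((n : ℝ) ^ 2 : ℝ) : ℂ)) = (n : ℂ) ^ (2 : ℕ) by push_cast; ring]
              rw [← Complex.cpow_nat_mul']
              · congr 1; push_cast; ring
              · rw [Complex.natCast_arg]; simpa using hpi
              · rw [Complex.natCast_arg]; simpa using hpi.le
            rw [e5, Complex.cpow_add _ _ hnc, Complex.cpow_natCast]
          have e6 : ((Q⁻¹ : ℝ) : ℂ) ^ ((s + κ) / 2) =
              (((Q : ℂ) ^ (s / 2)) * ((Q ^ ((κ : ℝ) / 2) : ℝ) : ℂ))⁻¹ := by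
            have hQc : (Q : ℂ) ≠ 0 := by exact_mod_cast hQ.ne'
            rw [Complex.ofReal_inv, Complex.inv_cpow _ _ (by
              rw [Complex.arg_ofReal_of_nonneg hQ.le]; exact hpi.ne)]
            congr 1
            rw [Complex.ofReal_cpow hQ.le, ← Complex.cpow_add _ _ hQc]
            congr 1
            push_cast; ring
          rw [e4, e6]
          rw [div_eq_mul_inv]; ring
        rw [e1, Gammaℝ_def]
        have hpic : (Real.pi : ℂ) ≠ 0 := by exact_mod_cast hpi.ne'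
        have hpc : (Real.pi : ℂ) ^ ((s + κ) / 2) ≠ 0 := by
          rw [Ne, Complex.cpow_eq_zero_iff]; tauto
        have hnsc : (n : ℂ) ^ s ≠ 0 := by
          rw [Ne, Complex.cpow_eq_zero_iff]; tauto
        have hnk : (n : ℂ) ^ κ ≠ 0 := pow_ne_zero _ hnc
        have hQc : (Q : ℂ) ≠ 0 := by exact_mod_cast hQ.ne'
        have hQs : (Q : ℂ) ^ (s / 2) ≠ 0 := by
          rw [Ne, Complex.cpow_eq_zero_iff]; tauto
        have hQk : ((Q ^ ((κ : ℝ) / 2) : ℝ) : ℂ) ≠ 0 := by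
          exact_mod_cast (Real.rpow_pos_of_pos hQ _).ne'
        rw [neg_div, Complex.cpow_neg]
        field_simp
    exact hmain.unique h1
  · intro n
    rcases Nat.eq_zero_or_pos n with rfl | hn
    · left; simp [h.A0]
    · right
      have hn' : (0 : ℝ) < n := by exact_mod_cast hn
      positivity
  · intro t ht
    have := (summable_term h (Set.mem_Ioi.1 ht)).hasSum
    exact this
  · rw [hre]
    have hsr : Summable fun n : ℕ => (Real.pi / Q) ^ (-((s.re + κ) / 2)) * (n : ℝ) ^ (-s.re) :=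
      (Real.summable_nat_rpow.2 (by linarith)).mul_left _
    refine Summable.of_nonneg_of_le (fun n => by positivity) (fun n => ?_) hsr
    rcases Nat.eq_zero_or_pos n with rfl | hn
    · simp only [h.A0]
      simp only [zero_mul, norm_zero, zero_div]
      positivity
    · have hn' : (0 : ℝ) < n := by exact_mod_cast hn
      have e1 : (Real.pi * (n : ℝ) ^ 2 / Q) ^ ((s.re + κ) / 2) =
          (Real.pi / Q) ^ ((s.re + κ) / 2) * ((n : ℝ) ^ s.re * (n : ℝ) ^ κ) := by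
        rw [show Real.pi * (n : ℝ) ^ 2 / Q = (Real.pi / Q) * (n : ℝ) ^ 2 by ring,
          Real.mul_rpow (by positivity) (by positivity), ← Real.rpow_natCast (n : ℝ) 2,
          ← Real.rpow_mul hn'.le, ← Real.rpow_natCast (n : ℝ) κ, ← Real.rpow_add hn']
        congr 2
        push_cast; ring
      rw [e1, norm_mul, norm_pow, Complex.norm_natCast, Real.rpow_neg (by positivity),
        Real.rpow_neg hn'.le]
      have hp1 : 0 < (Real.pi / Q) ^ ((s.re + κ) / 2) := by positivity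
      have hp2 : 0 < (n : ℝ) ^ s.re := by positivity
      have hp3 : 0 < (n : ℝ) ^ κ := by positivity
      rw [div_le_iff₀ (by positivity)]
      calc ‖A n‖ * (n : ℝ) ^ κ ≤ 1 * (n : ℝ) ^ κ := by gcongr; exact h.Ale n
        _ = _ := by field_simp

theorem th_cont (h : DegOne A κ Q ω Φ C) : ContinuousOn (th A κ Q) (Set.Ioi 0) := by
  intro x hx
  rw [Set.mem_Ioi] at hx
  apply ContinuousAt.continuousWithinAt
  have h1 : ContinuousOn (th A κ Q) (Set.Ioi (x / 2)) := by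
    apply continuousOn_tsum (u := fun n : ℕ => (n : ℝ) ^ κ * Real.exp (-(Real.pi * (x / 2) / Q) * n))
    · intro n
      have : Continuous fun y : ℝ =>
          A n * (n : ℂ) ^ κ * (Real.exp (-(Real.pi * n ^ 2 / Q) * y) : ℂ) := by fun_prop
      exact this.continuousOn
    · exact summable_bd h (by linarith)
    · intro n y hy
      exact term_norm_le' h (by linarith) (Set.mem_Ioi.1 hy).le n
  exact h1.continuousAt (Ioi_mem_nhds (by linarith))

namespace D1ThetaAux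

theorem exp_le_rpow {b u : ℝ} (hb : 0 < b) (hu : 0 < u) :
    Real.exp (-u) ≤ b ^ b * u ^ (-b) := by
  have h1 : u / b ≤ Real.exp (u / b) := by
    have := Real.add_one_le_exp (u / b)
    linarith
  have h2 : (u / b) ^ b ≤ Real.exp u := by
    calc (u / b) ^ b ≤ (Real.exp (u / b)) ^ b := Real.rpow_le_rpow (by positivity) h1 hb.le
      _ = Real.exp u := by
          rw [← Real.exp_mul]; congr 1; field_simp
  rw [Real.exp_neg, Real.rpow_neg hu.le]
  have h3 : (u / b) ^ b = u ^ b / b ^ b := Real.div_rpow hu.le hb.le _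
  rw [h3] at h2
  have hub : 0 < u ^ b := by positivity
  have hbb : 0 < b ^ b := by positivity
  have h4 : (Real.exp u)⁻¹ ≤ (u ^ b / b ^ b)⁻¹ := inv_anti₀ (by positivity) h2
  calc (Real.exp u)⁻¹ ≤ (u ^ b / b ^ b)⁻¹ := h4
    _ = b ^ b * (u ^ b)⁻¹ := by field_simp

theorem th_top (h : DegOne A κ Q ω Φ C) :
    th A κ Q =O[atTop] fun t => Real.exp (-(Real.pi / (2 * Q)) * t) := by
  have hQ := h.Qpos
  have hpi := Real.pi_pos
  have hs : Summable fun n : ℕ => (n : ℝ) ^ κ * Real.exp (-(Real.pi * (1 / 2) / Q) * n) :=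
    summable_bd h (by norm_num)
  refine Asymptotics.IsBigO.of_bound
    (∑' n : ℕ, (n : ℝ) ^ κ * Real.exp (-(Real.pi * (1 / 2) / Q) * n)) ?_
  filter_upwards [eventually_ge_atTop 1] with x hx
  rw [Real.norm_eq_abs, Real.abs_exp, ← tsum_mul_right]
  have hs2 := hs.mul_right (Real.exp (-(Real.pi / (2 * Q)) * x))
  apply tsum_of_norm_bounded hs2.hasSum
  intro n
  rcases Nat.eq_zero_or_pos n with rfl | hn
  · simp only [h.A0, zero_mul, norm_zero]
    positivity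
  · refine (term_norm_le h x n).trans ?_
    rw [mul_assoc, ← Real.exp_add]
    apply mul_le_mul_of_nonneg_left _ (by positivity)
    apply Real.exp_le_exp.2
    have hn' : (1 : ℝ) ≤ n := by exact_mod_cast hn
    have h1 : ((n : ℝ) + x) / 2 ≤ (n : ℝ) ^ 2 * x := by
      have h0 : (n : ℝ) ≤ (n : ℝ) ^ 2 := by nlinarith
      have h2 : (n : ℝ) ≤ (n : ℝ) ^ 2 * x := by nlinarith
      have h3 : x ≤ (n : ℝ) ^ 2 * x := by
        have : (1 : ℝ) ≤ (n : ℝ) ^ 2 := by linarith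
        nlinarith
      linarith
    have h4 : Real.pi / Q * (((n : ℝ) + x) / 2) ≤ Real.pi / Q * ((n : ℝ) ^ 2 * x) := by gcongr
    calc -(Real.pi * (n : ℝ) ^ 2 / Q) * x = -(Real.pi / Q * ((n : ℝ) ^ 2 * x)) := by ring
      _ ≤ -(Real.pi / Q * (((n : ℝ) + x) / 2)) := by linarith
      _ = _ := by field_simp; ring

theorem th_bot (h : DegOne A κ Q ω Φ C) {b : ℝ} (hb : (1 + κ) / 2 < b) :
    th A κ Q =O[𝓝[>] 0] (fun x : ℝ => x ^ (-b)) := by
  have hQ := h.Qpos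
  have hpi := Real.pi_pos
  have hk0 : (0 : ℝ) ≤ κ := Nat.cast_nonneg κ
  have hb0 : 0 < b := by linarith
  have hs : Summable fun n : ℕ => (b ^ b * (Real.pi / Q) ^ (-b)) * (n : ℝ) ^ ((κ : ℝ) - 2 * b) :=
    (Real.summable_nat_rpow.2 (by linarith)).mul_left _
  refine Asymptotics.IsBigO.of_bound
    (∑' n : ℕ, (b ^ b * (Real.pi / Q) ^ (-b)) * (n : ℝ) ^ ((κ : ℝ) - 2 * b)) ?_
  filter_upwards [self_mem_nhdsWithin] with x hx
  rw [Set.mem_Ioi] at hx
  rw [Real.norm_eq_abs, abs_of_nonneg (by positivity : (0 : ℝ) ≤ x ^ (-b)), ← tsum_mul_right]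
  have hs2 := hs.mul_right (x ^ (-b))
  apply tsum_of_norm_bounded hs2.hasSum
  intro n
  rcases Nat.eq_zero_or_pos n with rfl | hn
  · simp only [h.A0, zero_mul, norm_zero]
    positivity
  · refine (term_norm_le h x n).trans ?_
    have hn' : (0 : ℝ) < n := by exact_mod_cast hn
    have h1 := exp_le_rpow hb0 (show 0 < Real.pi * (n : ℝ) ^ 2 / Q * x by positivity)
    have h2 : (Real.pi * (n : ℝ) ^ 2 / Q * x) ^ (-b) =
        (Real.pi / Q) ^ (-b) * (n : ℝ) ^ (-(2 * b)) * x ^ (-b) := by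
      rw [show Real.pi * (n : ℝ) ^ 2 / Q * x = (Real.pi / Q) * (n : ℝ) ^ 2 * x by ring,
        Real.mul_rpow (by positivity) hx.le, Real.mul_rpow (by positivity) (by positivity),
        ← Real.rpow_natCast (n : ℝ) 2, ← Real.rpow_mul hn'.le]
      congr 3
      push_cast; ring
    rw [h2] at h1
    rw [show -(Real.pi * (n : ℝ) ^ 2 / Q) * x = -(Real.pi * (n : ℝ) ^ 2 / Q * x) by ring]
    calc (n : ℝ) ^ κ * Real.exp (-(Real.pi * (n : ℝ) ^ 2 / Q * x))
        ≤ (n : ℝ) ^ κ * (b ^ b * ((Real.pi / Q) ^ (-b) * (n : ℝ) ^ (-(2 * b)) * x ^ (-b))) := by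
          gcongr
      _ = b ^ b * (Real.pi / Q) ^ (-b) * ((n : ℝ) ^ κ * (n : ℝ) ^ (-(2 * b))) * x ^ (-b) := by ring
      _ = b ^ b * (Real.pi / Q) ^ (-b) * (n : ℝ) ^ ((κ : ℝ) - 2 * b) * x ^ (-b) := by
          rw [← Real.rpow_natCast (n : ℝ) κ, ← Real.rpow_add hn', sub_eq_add_neg]

end D1ThetaAux

theorem th_conv (h : DegOne A κ Q ω Φ C) {c : ℝ} (hc : (1 + κ) / 2 < c) :
    MellinConvergent (th A κ Q) (c : ℂ) := by
  have hQ := h.Qpos
  have hpi := Real.pi_pos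
  refine mellinConvergent_of_isBigO_rpow_exp (a := Real.pi / (2 * Q))
    (b := ((1 + κ) / 2 + c) / 2) (by positivity)
    ((th_cont h).locallyIntegrableOn measurableSet_Ioi) (th_top h) (th_bot h (by linarith)) ?_
  rw [Complex.ofReal_re]
  linarith

namespace D1ThetaAux

/-- the integrand -/
noncomputable def FF (κ : ℕ) (Q : ℝ) (Φ : ℂ → ℂ) (x : ℝ) (w : ℂ) : ℂ :=
  (x : ℂ) ^ (-w) * (((Q ^ ((κ : ℝ) / 2) : ℝ) : ℂ) * Φ (2 * w - κ))

theorem norm_cpow_le {x : ℝ} (hx : 0 < x) {a b : ℝ} {w : ℂ} (ha : a ≤ w.re) (hb : w.re ≤ b) :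
    ‖(x : ℂ) ^ (-w)‖ ≤ x ^ (-a) + x ^ (-b) := by
  rw [Complex.norm_cpow_eq_rpow_re_of_pos hx, Complex.neg_re]
  have h1 : 0 < x ^ (-a) := by positivity
  have h2 : 0 < x ^ (-b) := by positivity
  rcases le_total 1 x with h | h
  · have := Real.rpow_le_rpow_of_exponent_le h (show -w.re ≤ -a by linarith)
    linarith
  · have := Real.rpow_le_rpow_of_exponent_ge hx h (show -b ≤ -w.re by linarith)
    linarith

theorem FF_diff (h : DegOne A κ Q ω Φ C) {x : ℝ} (hx : 0 < x) : Differentiable ℂ (FF κ Q Φ x) := by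
  unfold FF
  have hx' : (x : ℂ) ≠ 0 := by exact_mod_cast hx.ne'
  have h1 : Differentiable ℂ fun w : ℂ => (x : ℂ) ^ (-w) := fun w =>
    (differentiableAt_id.neg).const_cpow (Or.inl hx')
  have h2 : Differentiable ℂ fun w : ℂ => Φ (2 * w - κ) :=
    h.diff.comp ((differentiable_id.const_mul 2).sub_const _)
  exact h1.mul (h2.const_mul _)

theorem C_nonneg (h : DegOne A κ Q ω Φ C) : 0 ≤ C := by
  have := (norm_nonneg _).trans (h.dec 0 (by simp) (by simp))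
  simpa using this

theorem FF_bound (h : DegOne A κ Q ω Φ C) {x : ℝ} (hx : 0 < x) {w : ℂ}
    (h1 : (κ : ℝ) / 2 - 1 / 2 ≤ w.re) (h2 : w.re ≤ 1 + (κ : ℝ) / 2) :
    ‖FF κ Q Φ x w‖ ≤ ((x ^ (-((κ : ℝ) / 2 - 1 / 2)) + x ^ (-(1 + (κ : ℝ) / 2))) *
      (Q ^ ((κ : ℝ) / 2) * C)) / (1 + w.im ^ 2) := by
  have hQ := h.Qpos
  have hC := C_nonneg h
  have hb := norm_cpow_le hx h1 h2
  have hd := h.dec (2 * w - κ) (by simp; linarith) (by simp; linarith)
  have him : (2 * w - (κ : ℂ)).im = 2 * w.im := by simp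
  rw [him] at hd
  have hd2 : ‖Φ (2 * w - κ)‖ ≤ C / (1 + w.im ^ 2) := by
    refine hd.trans ?_
    apply div_le_div_of_nonneg_left hC (by positivity)
    nlinarith [sq_nonneg w.im]
  unfold FF
  rw [norm_mul, norm_mul, Complex.norm_real, Real.norm_eq_abs,
    abs_of_nonneg (by positivity : (0 : ℝ) ≤ Q ^ ((κ : ℝ) / 2))]
  calc ‖(x : ℂ) ^ (-w)‖ * (Q ^ ((κ : ℝ) / 2) * ‖Φ (2 * w - κ)‖)
      ≤ (x ^ (-((κ : ℝ) / 2 - 1 / 2)) + x ^ (-(1 + (κ : ℝ) / 2))) *
        (Q ^ ((κ : ℝ) / 2) * (C / (1 + w.im ^ 2))) := by gcongr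
    _ = _ := by ring

theorem mellin_line (h : DegOne A κ Q ω Φ C) (y : ℝ) :
    mellin (th A κ Q) (((1 + (κ : ℝ) / 2 : ℝ) : ℂ) + y * I) =
      ((Q ^ ((κ : ℝ) / 2) : ℝ) : ℂ) * Φ (2 * (((1 + (κ : ℝ) / 2 : ℝ) : ℂ) + y * I) - κ) := by
  have h1 := th_mellin h (s := 2 * (((1 + (κ : ℝ) / 2 : ℝ) : ℂ) + y * I) - κ) (by
    simp; linarith)
  rw [← h1]
  congr 1
  ring

theorem th_eq (h : DegOne A κ Q ω Φ C) {x : ℝ} (hx : 0 < x) :
    th A κ Q x = (1 / (2 * Real.pi) : ℝ) • ∫ y : ℝ,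
      FF κ Q Φ x (((1 + (κ : ℝ) / 2 : ℝ) : ℂ) + y * I) := by
  have hQ := h.Qpos
  have hC := C_nonneg h
  have hconv : MellinConvergent (th A κ Q) ((1 + (κ : ℝ) / 2 : ℝ) : ℂ) := th_conv h (by linarith)
  have hvert : VerticalIntegrable (mellin (th A κ Q)) (1 + (κ : ℝ) / 2) := by
    unfold VerticalIntegrable
    have h2 : Integrable fun y : ℝ => (fun w : ℂ => ((Q ^ ((κ : ℝ) / 2) : ℝ) : ℂ) *
        Φ (2 * w - κ)) (((1 + (κ : ℝ) / 2 : ℝ) : ℂ) + y * I) := by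
      refine Pool.Agent.ZC.line_integrable (a := 1 + (κ : ℝ) / 2) (F := fun w : ℂ =>
        ((Q ^ ((κ : ℝ) / 2) : ℝ) : ℂ) * Φ (2 * w - κ)) (C := Q ^ ((κ : ℝ) / 2) * C) ?_ ?_
      · intro τ
        have : Differentiable ℂ fun w : ℂ => ((Q ^ ((κ : ℝ) / 2) : ℝ) : ℂ) * Φ (2 * w - κ) :=
          (h.diff.comp ((differentiable_id.const_mul 2).sub_const _)).const_mul _
        exact (this _).continuousAt
      · intro τ
        have hd := h.dec (2 * (((1 + (κ : ℝ) / 2 : ℝ) : ℂ) + τ * I) - κ) (by simp; linarith)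
          (by simp; linarith)
        have him : (2 * (((1 + (κ : ℝ) / 2 : ℝ) : ℂ) + τ * I) - (κ : ℂ)).im = 2 * τ := by simp
        rw [him] at hd
        have hd2 : ‖Φ (2 * (((1 + (κ : ℝ) / 2 : ℝ) : ℂ) + τ * I) - κ)‖ ≤ C / (1 + τ ^ 2) := by
          refine hd.trans ?_
          apply div_le_div_of_nonneg_left hC (by positivity)
          nlinarith [sq_nonneg τ]
        rw [norm_mul, Complex.norm_real, Real.norm_eq_abs,
          abs_of_nonneg (by positivity : (0 : ℝ) ≤ Q ^ ((κ : ℝ) / 2))]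
        calc Q ^ ((κ : ℝ) / 2) * ‖Φ (2 * (((1 + (κ : ℝ) / 2 : ℝ) : ℂ) + τ * I) - κ)‖
            ≤ Q ^ ((κ : ℝ) / 2) * (C / (1 + τ ^ 2)) := by gcongr
          _ = _ := by ring
    refine h2.congr (Filter.Eventually.of_forall fun y => ?_)
    exact (mellin_line h y).symm
  have hinv := mellinInv_mellin_eq (1 + (κ : ℝ) / 2) (th A κ Q) hx hconv hvert
    ((th_cont h).continuousAt (Ioi_mem_nhds hx))
  rw [← hinv, mellinInv]
  congr 1
  apply integral_congr_ae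
  refine Filter.Eventually.of_forall fun y => ?_
  simp only [smul_eq_mul]
  rw [mellin_line h y]
  rfl

end D1ThetaAux

theorem theta_rel (h : DegOne A κ Q ω Φ C) {x : ℝ} (hx : 0 < x) :
    th A κ Q x = ω * ((x ^ (-(κ : ℝ) - 1 / 2) : ℝ) : ℂ) * starRingEnd ℂ (th A κ Q x⁻¹) := by
  have hQ := h.Qpos
  have hxi : 0 < x⁻¹ := by positivity
  have hshift : ∫ y : ℝ, FF κ Q Φ x ((((κ : ℝ) / 2 - 1 / 2 : ℝ) : ℂ) + y * I) =
      ∫ y : ℝ, FF κ Q Φ x (((1 + (κ : ℝ) / 2 : ℝ) : ℂ) + y * I) :=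
    Pool.Agent.ZC.strip_shift (by linarith) (fun s _ _ => (FF_diff h hx) s)
      (fun s h1 h2 => FF_bound h hx h1 h2)
  have hpt : ∀ y : ℝ, FF κ Q Φ x ((((κ : ℝ) / 2 - 1 / 2 : ℝ) : ℂ) + y * I) =
      (ω * ((x ^ (-(κ : ℝ) - 1 / 2) : ℝ) : ℂ)) *
        starRingEnd ℂ (FF κ Q Φ x⁻¹ (((1 + (κ : ℝ) / 2 : ℝ) : ℂ) + y * I)) := by
    intro y
    unfold FF
    have hxc : (x : ℂ) ≠ 0 := by exact_mod_cast hx.ne'
    have e1 : Φ (2 * ((((κ : ℝ) / 2 - 1 / 2 : ℝ) : ℂ) + y * I) - κ) =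
        ω * starRingEnd ℂ (Φ (2 * (((1 + (κ : ℝ) / 2 : ℝ) : ℂ) + y * I) - κ)) := by
      rw [h.fe]
      congr 3
      simp only [map_sub, map_mul, map_add, Complex.conj_ofReal, Complex.conj_I, map_natCast,
        map_ofNat]
      push_cast
      ring
    have e2 : (x : ℂ) ^ (-((((κ : ℝ) / 2 - 1 / 2 : ℝ) : ℂ) + y * I)) =
        ((x ^ (-(κ : ℝ) - 1 / 2) : ℝ) : ℂ) *
          starRingEnd ℂ (((x⁻¹ : ℝ) : ℂ) ^ (-(((1 + (κ : ℝ) / 2 : ℝ) : ℂ) + y * I))) := by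
      have harg : (x : ℂ).arg ≠ Real.pi := by
        rw [Complex.arg_ofReal_of_nonneg hx.le]; exact Real.pi_pos.ne
      have e3 : ∀ v : ℂ, ((x⁻¹ : ℝ) : ℂ) ^ (-v) = (x : ℂ) ^ v := by
        intro v
        rw [Complex.ofReal_inv, Complex.inv_cpow _ _ harg, Complex.cpow_neg, inv_inv]
      have e4 : ∀ v : ℂ, starRingEnd ℂ ((x : ℂ) ^ v) = (x : ℂ) ^ (starRingEnd ℂ v) := by
        intro v
        rw [Complex.cpow_conj _ _ harg, Complex.conj_ofReal]
      rw [e3, e4, Complex.ofReal_cpow hx.le, ← Complex.cpow_add _ _ hxc]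
      congr 1
      simp only [map_add, map_mul, Complex.conj_ofReal, Complex.conj_I]
      push_cast
      ring
    rw [e1, e2]
    simp only [map_mul, Complex.conj_ofReal]
    ring
  rw [th_eq h hx, ← hshift, th_eq h hxi]
  simp_rw [hpt]
  rw [integral_const_mul, integral_conj]
  rw [Complex.real_smul, Complex.real_smul, map_mul, Complex.conj_ofReal]
  ring

end Pool.Agent.Selb
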