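import Pool.Agent.Selb.Fin0

/-!
# Selb/Fin1: integrality of the exponents, and periodic functions
-/

set_option autoImplicit false

open Complex Metric Filter Topology LSeries

namespace Pool.Agent.Selb

lemma rat_int_of {r : ℚ} {n : ℤ} {z : ℂ} (h : z = (r : ℂ)) (h' : z = (n : ℂ)) : r = n := by
  have : (r : ℂ) = ((n : ℚ) : ℂ) := by rw [← h, h']; simp
  exact_mod_cast this

/-- fibre sums of the exponents are integers when the Euler factor is rational -/
theorem fibre_sum {b : ℕ → ℂ} {q : ℕ} [NeZero q] (c : DirichletCharacter ℂ q → ℂ)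
    (hs : ∀ n : ℕ, b n * (Real.log n : ℂ) = ∑ χ, c χ * starL χ n) {r : ℕ} (hr : r.Prime)
    (hrq : r.Coprime q) (S T : Multiset ℂ)
    (hST : ∀ k : ℕ, 1 ≤ k → (k : ℂ) * b (r ^ k) =
      (S.map (fun y => y ^ k)).sum - (T.map (fun y => y ^ k)).sum)
    (χ : DirichletCharacter ℂ q) (D : DirichletCharacter ℂ q → Prop)
    (hD : ∀ ψ, D ψ ↔ ψ (r : ZMod q) = χ (r : ZMod q)) (hdec : DecidablePred D) :
    ∃ n : ℤ, ∑ ψ with D ψ, c ψ = n := by
  classical
  set V : Finset ℂ := Finset.univ.image (fun ψ : DirichletCharacter ℂ q => ψ (r : ZMod q)) with hV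
  set cV : V → ℂ := fun y => ∑ ψ with ψ (r : ZMod q) = (y : ℂ), c ψ with hcV
  have hru : IsUnit (r : ZMod q) := (ZMod.isUnit_iff_coprime r q).2 hrq
  have hne : ∀ y : V, (y : ℂ) ≠ 0 := by
    intro y
    obtain ⟨ψ, -, hψ⟩ := Finset.mem_image.1 y.2
    rw [← hψ]
    exact (hru.map ψ).ne_zero
  have hlog : (Real.log r : ℂ) ≠ 0 := by
    have h8 : (1 : ℝ) < r := by exact_mod_cast hr.one_lt
    exact_mod_cast (Real.log_pos h8).ne'
  have hpow : ∀ k : ℕ, 1 ≤ k → ∑ y : V, cV y * (y : ℂ) ^ k =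
      (S.map (fun y => y ^ k)).sum - (T.map (fun y => y ^ k)).sum := by
    intro k hk
    rw [← hST k hk]
    have h1 := hs (r ^ k)
    have h2 : (Real.log (r ^ k : ℕ) : ℂ) = (k : ℂ) * (Real.log r : ℂ) := by
      push_cast
      rw [Real.log_pow]
      push_cast
      ring
    rw [h2] at h1
    have h3 : ∑ ψ, c ψ * starL ψ (r ^ k) = (∑ ψ, c ψ * ψ (r : ZMod q) ^ k) * (Real.log r : ℂ) := by
      rw [Finset.sum_mul]
      exact Finset.sum_congr rfl (fun ψ _ => by
        rw [starL_pow ψ hr hrq (by omega)]; ring)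
    rw [h3] at h1
    have h4 : (k : ℂ) * b (r ^ k) = ∑ ψ, c ψ * ψ (r : ZMod q) ^ k := by
      refine mul_right_cancel₀ hlog ?_
      rw [← h1]; ring
    rw [h4]
    have h5 : ∑ y : V, cV y * (y : ℂ) ^ k = ∑ y ∈ V,
        ∑ ψ with ψ (r : ZMod q) = y, c ψ * ψ (r : ZMod q) ^ k := by
      rw [← Finset.sum_coe_sort V (fun y => ∑ ψ with ψ (r : ZMod q) = y, c ψ * ψ (r : ZMod q) ^ k)]
      refine Finset.sum_congr rfl (fun y _ => ?_)
      rw [hcV]
      simp only
      rw [Finset.sum_mul]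
      refine Finset.sum_congr rfl (fun ψ hψ => ?_)
      rw [(Finset.mem_filter.1 hψ).2]
    rw [h5]
    exact Finset.sum_fiberwise_of_maps_to (s := Finset.univ) (t := V)
      (g := fun ψ : DirichletCharacter ℂ q => ψ (r : ZMod q))
      (fun ψ hψ => Finset.mem_image_of_mem _ hψ) (fun ψ => c ψ * ψ (r : ZMod q) ^ k)
  obtain ⟨n, hn⟩ := int_of_power_sums (fun y : V => (y : ℂ)) Subtype.val_injective hne cV S T hpow
    ⟨χ (r : ZMod q), Finset.mem_image_of_mem _ (Finset.mem_univ χ)⟩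
  refine ⟨n, ?_⟩
  rw [← hn, hcV]
  simp only
  refine Finset.sum_congr ?_ (fun _ _ => rfl)
  ext ψ
  simp only [Finset.mem_filter, Finset.mem_univ, true_and]
  exact hD ψ

/-- for `q ∣ 4` or `q ∣ 6` there is at most one nonprincipal character -/
lemma unique_char {q : ℕ} [NeZero q] (hq : q ∣ 4 ∨ q ∣ 6) (χ ψ : DirichletCharacter ℂ q)
    (hχ : χ ≠ 1) (hψ : ψ ≠ 1) : χ = ψ := by
  classical
  have hcard : Fintype.card (DirichletCharacter ℂ q) ≤ 2 := by
    rw [← Nat.card_eq_fintype_card, DirichletCharacter.card_eq_totient_of_hasEnoughRootsOfUnity]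
    have h1 : q ≤ 6 := by
      rcases hq with h | h
      · exact (Nat.le_of_dvd (by norm_num) h).trans (by norm_num)
      · exact Nat.le_of_dvd (by norm_num) h
    have h0 : q ≠ 0 := NeZero.ne q
    have h5 : q ≠ 5 := by
      rintro rfl
      rcases hq with h | h <;> revert h <;> decide
    interval_cases q <;> first | (exfalso; omega) | decide
  by_contra hne
  have h3 : ({1, χ, ψ} : Finset (DirichletCharacter ℂ q)).card = 3 := by
    rw [Finset.card_insert_of_notMem, Finset.card_insert_of_notMem, Finset.card_singleton]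
    · simpa using hne
    · simp only [Finset.mem_insert, Finset.mem_singleton, not_or]
      exact ⟨fun h => hχ h.symm, fun h => hψ h.symm⟩
  have h4 := Finset.card_le_univ ({1, χ, ψ} : Finset (DirichletCharacter ℂ q))
  omega

end Pool.Agent.Selb
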