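import Pool.Agent.Selb.MertAP
import Pool.Agent.Selb.CharF

/-!
# Selb/OscA: sums over primes with characters and oscillation `p ^ (-iθ)`

`uap a` (in `MertAP.lean`) is the indicator of the primes `≡ a`, `logMul (uap a) = prc a`. `osc θ n = n ^ (-(θ I))`
(`Bessel.lean`).

* `uap_osc`: copy of `uap_main` with `1 + x` replaced by `1 + x + θ I`: with `κ = if θ = 0 then 1/φ(q) else 0` the function
  `Φ x = LSeries (uap a) (1 + x + θ I) + κ log x` has derivative `- LSeries (prc a) (1 + x + θ I) + κ / x`, bounded on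
  `(0, 1]` (for `θ ≠ 0`: `LFunctionResidueClassAux a` is continuous on `re ≥ 1`, hence bounded on the segment
  `1 + x + θ I`, `0 ≤ x ≤ 1`, and `(q.totient)⁻¹ / (x + θ I)` is bounded by `1 / |θ|`), so
  `‖Φ δ - Φ 1‖ ≤ C` (mean value inequality, `Convex.norm_image_sub_le_of_norm_hasDerivWithin_le`, also for values in `ℂ`).
* `char_osc`: for `0 < δ`, `∑_{p prime} χ(p) p ^ (-iθ) p ^ (-(1+δ)) = ∑_{a unit} χ(a) LSeries (uap a) (1 + δ + θ I)` (`χ(p) = 0` if
  `p` divides `q`; all series converge absolutely), then `uap_osc` and `∑_{a unit} χ(a) = φ(q)` if `χ = 1`, `0` otherwise.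
* `pair_sum`: expand `‖∑ j, c j χ_j(p) p ^ (-i θ_j)‖ ^ 2 = ∑_{i,j} c i conj (c j) (χ_i χ_j⁻¹)(p) p ^ (-i(θ_i - θ_j))` for
  primes `p` not dividing `q` (`conj (χ_j p) = χ_j⁻¹ p`, `osc_mul_conj`), both sides vanish if `p ∣ q`; by `char_osc` the pair
  `(i, j)` contributes `O(1)` unless `χ_i = χ_j` and `θ_i = θ_j`, i.e. `i = j` by injectivity, when it contributes
  `|c i| ^ 2 log (1/δ) + O(1)`.
* `pair_mertens`: `tauber` with `w n = ‖∑ j, c j * χ_j n * osc (θ_j) n‖ ^ 2` for `n` prime (`w n = 0` otherwise: note that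
  `osc θ 0` may be junk, so use a `w` vanishing at non-primes), `|w n| ≤ (∑ ‖c j‖) ^ 2`.
* `pair_indep`: if all the sums vanish at the primes `p` not dividing `q` then, by `pair_sum`, `(∑ |c j| ^ 2) log (1/δ)` is bounded as
  `δ → 0`, so `∑ |c j| ^ 2 = 0`.
-/

set_option autoImplicit false

open Complex Metric Filter Topology LSeries

namespace Pool.Agent.Selb

namespace OscAAux

theorem re_pt (x θ : ℝ) : ((1 : ℂ) + x + θ * I).re = 1 + x := by simp

theorem prc_near {q : ℕ} [NeZero q] {a : ZMod q} (ha : IsUnit a) (θ : ℝ) :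
    ∃ C : ℝ, 0 ≤ C ∧ ∀ x : ℝ, 0 < x → x ≤ 1 →
      ‖LSeries (prc a) (1 + x + θ * I) - (if θ = 0 then (1 / (q.totient : ℂ)) else 0) / x‖ ≤ C := by
  obtain ⟨C, hC⟩ := prc_bound a
  have hcont : ContinuousOn (fun x : ℝ =>
      ArithmeticFunction.vonMangoldt.LFunctionResidueClassAux a (1 + x + θ * I)) (Set.Icc 0 1) := by
    have h0 := ArithmeticFunction.vonMangoldt.continuousOn_LFunctionResidueClassAux a
    refine h0.comp (by fun_prop) ?_
    intro x hx
    show 1 ≤ ((1 : ℂ) + x + θ * I).re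
    rw [re_pt]
    linarith [hx.1]
  obtain ⟨D, hD⟩ := isCompact_Icc.exists_bound_of_continuousOn hcont
  have hbd : ∀ x : ℝ, 0 < x → x ≤ 1 →
      ‖LSeries (prc a) (1 + x + θ * I) - (q.totient : ℂ)⁻¹ / (x + θ * I)‖ ≤ C + D := by
    intro x hx0 hx1
    have hre : (1 : ℝ) < ((1 : ℂ) + x + θ * I).re := by rw [re_pt]; linarith
    have h1 := (hC (1 + x + θ * I) hre).2
    have h2 := hD x ⟨hx0.le, hx1⟩
    have h3 : ArithmeticFunction.vonMangoldt.LFunctionResidueClassAux a (1 + x + θ * I) =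
        LSeries (fun n => (ArithmeticFunction.vonMangoldt.residueClass a n : ℂ)) (1 + x + θ * I) -
          (q.totient : ℂ)⁻¹ / (x + θ * I) := by
      have := ArithmeticFunction.vonMangoldt.eqOn_LFunctionResidueClassAux ha
        (x := 1 + x + θ * I) hre
      rw [this]
      congr 2
      ring
    rw [h3] at h2
    calc ‖LSeries (prc a) (1 + x + θ * I) - (q.totient : ℂ)⁻¹ / (x + θ * I)‖ =
        ‖(LSeries (prc a) (1 + x + θ * I) -
            LSeries (fun n => (ArithmeticFunction.vonMangoldt.residueClass a n : ℂ))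
              (1 + x + θ * I)) +
          (LSeries (fun n => (ArithmeticFunction.vonMangoldt.residueClass a n : ℂ))
              (1 + x + θ * I) - (q.totient : ℂ)⁻¹ / (x + θ * I))‖ := by congr 1; ring
      _ ≤ _ := (norm_add_le _ _).trans (add_le_add h1 h2)
  by_cases hθ : θ = 0
  · refine ⟨|C + D|, abs_nonneg _, fun x hx0 hx1 => ?_⟩
    have h := (hbd x hx0 hx1).trans (le_abs_self _)
    rw [if_pos hθ]
    have e : ((x : ℂ) + θ * I) = x := by rw [hθ]; simp
    rw [e] at h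
    rwa [one_div]
  · refine ⟨|C + D| + (q.totient : ℝ)⁻¹ / |θ|, by positivity, fun x hx0 hx1 => ?_⟩
    have h := (hbd x hx0 hx1).trans (le_abs_self _)
    rw [if_neg hθ, zero_div, sub_zero]
    have h4 : ‖(q.totient : ℂ)⁻¹ / (x + θ * I)‖ ≤ (q.totient : ℝ)⁻¹ / |θ| := by
      rw [norm_div, norm_inv, Complex.norm_natCast]
      refine div_le_div_of_nonneg_left (by positivity) (abs_pos.mpr hθ) ?_
      have := Complex.abs_im_le_norm ((x : ℂ) + θ * I)
      simpa using this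
    calc ‖LSeries (prc a) (1 + x + θ * I)‖ = ‖(LSeries (prc a) (1 + x + θ * I) -
        (q.totient : ℂ)⁻¹ / (x + θ * I)) + (q.totient : ℂ)⁻¹ / (x + θ * I)‖ := by congr 1; ring
      _ ≤ _ := (norm_add_le _ _).trans (add_le_add h h4)

end OscAAux

open OscAAux

theorem uap_osc {q : ℕ} [NeZero q] {a : ZMod q} (ha : IsUnit a) (θ : ℝ) :
    ∃ C : ℝ, ∀ δ : ℝ, 0 < δ → δ ≤ 1 →
      ‖LSeries (uap a) (1 + δ + θ * I) -
        (if θ = 0 then (1 / (q.totient : ℂ)) * (Real.log (1 / δ) : ℂ) else 0)‖ ≤ C := by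
  obtain ⟨C, hC0, hbd⟩ := prc_near ha θ
  obtain ⟨κ, hκ⟩ : ∃ κ : ℂ, κ = if θ = 0 then (1 / (q.totient : ℂ)) else 0 := ⟨_, rfl⟩
  rw [← hκ] at hbd
  set F : ℝ → ℂ := fun x => LSeries (uap a) (1 + x + θ * I) + κ * (Real.log x : ℂ) with hF
  have hderiv : ∀ x : ℝ, 0 < x → HasDerivAt F
      (-LSeries (prc a) (1 + x + θ * I) + κ * ((x⁻¹ : ℝ) : ℂ)) x := by
    intro x hx
    have h1 : HasDerivAt (LSeries (uap a)) (-LSeries (prc a) (1 + x + θ * I)) (1 + x + θ * I) := by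
      rw [← logMul_uap a]
      apply LSeries_hasDerivAt
      refine (uap_absc a).trans_lt ?_
      rw [re_pt]
      exact_mod_cast (show (1 : ℝ) < 1 + x by linarith)
    have h2 : HasDerivAt (fun y : ℝ => LSeries (uap a) (1 + y + θ * I))
        (-LSeries (prc a) (1 + x + θ * I)) x := by
      have h3 : HasDerivAt (fun y : ℂ => LSeries (uap a) (1 + y + θ * I))
          (-LSeries (prc a) (1 + x + θ * I)) (x : ℂ) := by
        have h4 : HasDerivAt (fun y : ℂ => 1 + y + θ * I) 1 (x : ℂ) :=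
          ((hasDerivAt_id _).const_add 1).add_const _
        have := HasDerivAt.comp (x : ℂ) h1 h4
        rw [mul_one] at this
        exact this
      exact h3.comp_ofReal
    exact h2.add (((Real.hasDerivAt_log hx.ne').ofReal_comp).const_mul _)
  refine ⟨C + ‖F 1‖, fun δ hδ0 hδ1 => ?_⟩
  have hmv : ‖F δ - F 1‖ ≤ C * ‖δ - 1‖ := by
    have := (convex_Icc δ 1).norm_image_sub_le_of_norm_hasDerivWithin_le (f := F)
      (f' := fun x => (-LSeries (prc a) (1 + x + θ * I) + κ * ((x⁻¹ : ℝ) : ℂ))) (C := C)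
      (x := 1) (y := δ)
      (fun x hx => (hderiv x (hδ0.trans_le hx.1)).hasDerivWithinAt)
      (fun x hx => ?_) ⟨hδ1, le_rfl⟩ ⟨le_rfl, hδ1⟩
    · exact this
    · have hx0 : 0 < x := hδ0.trans_le hx.1
      have h6 := hbd x hx0 hx.2
      have h7 : (-LSeries (prc a) (1 + x + θ * I) + κ * ((x⁻¹ : ℝ) : ℂ)) =
          -(LSeries (prc a) (1 + x + θ * I) - κ / x) := by
        push_cast
        ring
      rw [h7, norm_neg]
      exact h6
  have h9 : ‖δ - 1‖ ≤ 1 := by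
    rw [Real.norm_eq_abs, abs_le]; constructor <;> linarith
  have h10 : LSeries (uap a) (1 + δ + θ * I) -
      (if θ = 0 then (1 / (q.totient : ℂ)) * (Real.log (1 / δ) : ℂ) else 0) = F δ := by
    simp only [hF, hκ, one_div, Real.log_inv]
    split_ifs <;> push_cast <;> ring
  rw [h10]
  have h11 : ‖F δ‖ ≤ ‖F δ - F 1‖ + ‖F 1‖ := by
    have := norm_add_le (F δ - F 1) (F 1)
    simpa using this
  have h12 : C * ‖δ - 1‖ ≤ C * 1 := mul_le_mul_of_nonneg_left h9 hC0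
  linarith

namespace OscAAux

theorem uap_summable {q : ℕ} (a : ZMod q) {δ : ℝ} (hδ : 0 < δ) (θ : ℝ) :
    LSeriesSummable (uap a) (1 + δ + θ * I) := by
  refine LSeriesSummable_of_abscissaOfAbsConv_lt_re ((uap_absc a).trans_lt ?_)
  rw [re_pt]
  exact_mod_cast (show (1 : ℝ) < 1 + δ by linarith)

theorem cpow_pt {n : ℕ} (hn : 0 < n) (δ θ : ℝ) :
    1 / (n : ℂ) ^ ((1 : ℂ) + δ + θ * I) = osc θ n * (((n : ℝ) ^ (-(1 + δ)) : ℝ) : ℂ) := by
  have hn0 : (n : ℂ) ≠ 0 := by exact_mod_cast hn.ne'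
  unfold osc
  rw [Complex.ofReal_cpow (Nat.cast_nonneg n), one_div, ← Complex.cpow_neg, Complex.ofReal_natCast,
    ← Complex.cpow_add _ _ hn0]
  congr 1
  push_cast
  ring

theorem char_series {q : ℕ} [NeZero q] (χ : DirichletCharacter ℂ q) (θ : ℝ) {δ : ℝ}
    (hδ : 0 < δ) :
    (∑' n : ℕ, (if n.Prime then χ (n : ZMod q) * osc θ n * (((n : ℝ) ^ (-(1 + δ)) : ℝ) : ℂ)
          else 0)) = ∑ a : ZMod q, χ a * LSeries (uap a) (1 + δ + θ * I) := by
  have h1 : ∀ a : ZMod q, χ a * LSeries (uap a) (1 + δ + θ * I) =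
      ∑' n : ℕ, χ a * LSeries.term (uap a) (1 + δ + θ * I) n := fun a => by
    unfold LSeries
    rw [tsum_mul_left]
  simp only [h1]
  rw [← Summable.tsum_finsetSum (fun a _ => (uap_summable a hδ θ).mul_left (χ a))]
  apply tsum_congr
  intro n
  by_cases hn : n.Prime
  · have hn0 : n ≠ 0 := hn.ne_zero
    rw [if_pos hn]
    have h2 : ∀ a : ZMod q, χ a * LSeries.term (uap a) (1 + δ + θ * I) n =
        if (n : ZMod q) = a then χ a * (osc θ n * (((n : ℝ) ^ (-(1 + δ)) : ℝ) : ℂ)) else 0 := by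
      intro a
      rw [LSeries.term_of_ne_zero hn0, ← cpow_pt hn.pos]
      unfold uap
      rw [if_pos hn]
      split_ifs <;> simp
    simp only [h2]
    rw [Finset.sum_ite_eq, if_pos (Finset.mem_univ _)]
    ring
  · rw [if_neg hn]
    symm
    apply Finset.sum_eq_zero
    intro a _
    rcases eq_or_ne n 0 with rfl | hn0
    · simp
    · rw [LSeries.term_of_ne_zero hn0]
      unfold uap
      rw [if_neg hn, zero_div, mul_zero]

theorem sum_char {q : ℕ} [NeZero q] (χ : DirichletCharacter ℂ q) [Decidable (χ = 1)] :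
    ∑ a : ZMod q, χ a = if χ = 1 then (q.totient : ℂ) else 0 := by
  split_ifs with h
  · rw [h, MulChar.sum_one_eq_card_units, ZMod.card_units_eq_totient]
  · exact χ.sum_eq_zero_of_ne_one h

end OscAAux

theorem char_osc {q : ℕ} [NeZero q] (χ : DirichletCharacter ℂ q) (θ : ℝ) [Decidable (χ = 1 ∧ θ = 0)] :
    ∃ C : ℝ, ∀ δ : ℝ, 0 < δ → δ ≤ 1 →
      ‖(∑' n : ℕ, (if n.Prime then χ (n : ZMod q) * osc θ n * (((n : ℝ) ^ (-(1 + δ)) : ℝ) : ℂ)
          else 0)) - (if χ = 1 ∧ θ = 0 then (Real.log (1 / δ) : ℂ) else 0)‖ ≤ C := by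
  classical
  have h : ∀ a : ZMod q, ∃ C : ℝ, ∀ δ : ℝ, 0 < δ → δ ≤ 1 →
      ‖χ a * LSeries (uap a) (1 + δ + θ * I) -
        χ a * (if θ = 0 then (1 / (q.totient : ℂ)) * (Real.log (1 / δ) : ℂ) else 0)‖ ≤ C := by
    intro a
    by_cases ha : IsUnit a
    · obtain ⟨C, hC⟩ := uap_osc ha θ
      refine ⟨‖χ a‖ * C, fun δ h0 h1 => ?_⟩
      rw [← mul_sub, norm_mul]
      exact mul_le_mul_of_nonneg_left (hC δ h0 h1) (norm_nonneg _)
    · refine ⟨0, fun δ _ _ => ?_⟩
      rw [MulChar.map_nonunit χ ha, zero_mul, zero_mul, sub_zero, norm_zero]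
  choose C hC using h
  refine ⟨∑ a, C a, fun δ h0 h1 => ?_⟩
  have hq : (q.totient : ℂ) ≠ 0 :=
    Nat.cast_ne_zero.mpr (Nat.totient_pos.mpr (Nat.pos_of_ne_zero (NeZero.ne q))).ne'
  have e : (if χ = 1 ∧ θ = 0 then (Real.log (1 / δ) : ℂ) else 0) =
      ∑ a : ZMod q, χ a *
        (if θ = 0 then (1 / (q.totient : ℂ)) * (Real.log (1 / δ) : ℂ) else 0) := by
    rw [← Finset.sum_mul, sum_char]
    by_cases h1 : χ = 1 <;> by_cases h2 : θ = 0
    · rw [if_pos ⟨h1, h2⟩, if_pos h1, if_pos h2]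
      field_simp
    · rw [if_neg (fun h => h2 h.2), if_neg h2, mul_zero]
    · rw [if_neg (fun h => h1 h.1), if_neg h1, zero_mul]
    · rw [if_neg (fun h => h1 h.1), if_neg h1, zero_mul]
  rw [char_series χ θ h0, e, ← Finset.sum_sub_distrib]
  exact (norm_sum_le _ _).trans (Finset.sum_le_sum fun a _ => hC a δ h0 h1)

section
variable {q : ℕ} [NeZero q] {J : Type*} [Fintype J] {θ : J → ℝ}
  {X : J → DirichletCharacter ℂ q}

namespace OscAAux

theorem sq_expand (c : J → ℂ) {n : ℕ} (hn : 0 < n) :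
    ((‖∑ j, c j * X j (n : ZMod q) * osc (θ j) n‖ ^ 2 : ℝ) : ℂ) =
      ∑ i, ∑ j, c i * (starRingEnd ℂ) (c j) *
        ((X i * (X j)⁻¹) (n : ZMod q) * osc (θ i - θ j) n) := by
  have h1 : ((‖∑ j, c j * X j (n : ZMod q) * osc (θ j) n‖ ^ 2 : ℝ) : ℂ) =
      (∑ j, c j * X j (n : ZMod q) * osc (θ j) n) *
        (starRingEnd ℂ) (∑ j, c j * X j (n : ZMod q) * osc (θ j) n) := by
    rw [Complex.mul_conj, Complex.normSq_eq_norm_sq]
  rw [h1, map_sum, Finset.sum_mul_sum]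
  refine Finset.sum_congr rfl fun i _ => Finset.sum_congr rfl fun j _ => ?_
  rw [← osc_mul_conj (θ i) (θ j) hn, map_mul, map_mul, MulChar.mul_apply]
  have h2 : (starRingEnd ℂ) (X j (n : ZMod q)) = (X j)⁻¹ (n : ZMod q) :=
    MulChar.star_apply' (X j) (n : ZMod q)
  rw [h2]
  ring

theorem norm_char_le (χ : DirichletCharacter ℂ q) (a : ZMod q) : ‖χ a‖ ≤ 1 :=
  DirichletCharacter.norm_le_one χ a

theorem term_norm (χ : DirichletCharacter ℂ q) (t δ : ℝ) (n : ℕ) :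
    ‖(if n.Prime then χ (n : ZMod q) * osc t n * (((n : ℝ) ^ (-(1 + δ)) : ℝ) : ℂ) else 0)‖ ≤
      (n : ℝ) ^ (-(1 + δ)) := by
  have h0 : (0 : ℝ) ≤ (n : ℝ) ^ (-(1 + δ)) := Real.rpow_nonneg (Nat.cast_nonneg n) _
  split_ifs with hn
  · rw [norm_mul, norm_mul, norm_osc t hn.pos, mul_one, Complex.norm_real, Real.norm_of_nonneg h0]
    exact mul_le_of_le_one_left h0 (norm_char_le χ _)
  · rw [norm_zero]; exact h0

theorem term_summable (χ : DirichletCharacter ℂ q) (t : ℝ) {δ : ℝ} (hδ : 0 < δ) :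
    Summable (fun n : ℕ => (if n.Prime then χ (n : ZMod q) * osc t n *
      (((n : ℝ) ^ (-(1 + δ)) : ℝ) : ℂ) else 0)) := by
  refine Summable.of_norm_bounded (g := fun n : ℕ => (n : ℝ) ^ (-(1 + δ))) ?_
    (fun n => term_norm χ t δ n)
  rw [Real.summable_nat_rpow]
  linarith

end OscAAux

theorem pair_sum (hinj : Function.Injective (fun j => (θ j, X j))) (c : J → ℂ) :
    ∃ C : ℝ, ∀ δ : ℝ, 0 < δ → δ ≤ 1 →
      |(∑' n : ℕ, (if n.Prime then ‖∑ j, c j * X j (n : ZMod q) * osc (θ j) n‖ ^ 2 *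
          (n : ℝ) ^ (-(1 + δ)) else 0)) - (∑ j, ‖c j‖ ^ 2) * Real.log (1 / δ)| ≤ C := by
  classical
  choose D hD using fun i j : J => char_osc (X i * (X j)⁻¹) (θ i - θ j)
  refine ⟨∑ i, ∑ j, ‖c i * (starRingEnd ℂ) (c j)‖ * D i j, fun δ h0 h1 => ?_⟩
  have e1 : (((∑' n : ℕ, (if n.Prime then ‖∑ j, c j * X j (n : ZMod q) * osc (θ j) n‖ ^ 2 *
          (n : ℝ) ^ (-(1 + δ)) else 0)) : ℝ) : ℂ) =
      ∑ i, ∑ j, c i * (starRingEnd ℂ) (c j) *
        ∑' n : ℕ, (if n.Prime then (X i * (X j)⁻¹) (n : ZMod q) * osc (θ i - θ j) n *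
          (((n : ℝ) ^ (-(1 + δ)) : ℝ) : ℂ) else 0) := by
    have e3 : ∀ i j : J, c i * (starRingEnd ℂ) (c j) *
        ∑' n : ℕ, (if n.Prime then (X i * (X j)⁻¹) (n : ZMod q) * osc (θ i - θ j) n *
          (((n : ℝ) ^ (-(1 + δ)) : ℝ) : ℂ) else 0) = ∑' n : ℕ, c i * (starRingEnd ℂ) (c j) *
        (if n.Prime then (X i * (X j)⁻¹) (n : ZMod q) * osc (θ i - θ j) n *
          (((n : ℝ) ^ (-(1 + δ)) : ℝ) : ℂ) else 0) := fun i j => by rw [tsum_mul_left]
    have e4 : ∀ i j : J, Summable (fun n : ℕ => c i * (starRingEnd ℂ) (c j) *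
        (if n.Prime then (X i * (X j)⁻¹) (n : ZMod q) * osc (θ i - θ j) n *
          (((n : ℝ) ^ (-(1 + δ)) : ℝ) : ℂ) else 0)) := fun i j =>
      (term_summable (X i * (X j)⁻¹) (θ i - θ j) h0).mul_left _
    simp only [e3]
    have e5 : ∀ i : J, ∑ j, ∑' n : ℕ, c i * (starRingEnd ℂ) (c j) *
        (if n.Prime then (X i * (X j)⁻¹) (n : ZMod q) * osc (θ i - θ j) n *
          (((n : ℝ) ^ (-(1 + δ)) : ℝ) : ℂ) else 0) = ∑' n : ℕ, ∑ j, c i * (starRingEnd ℂ) (c j) *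
        (if n.Prime then (X i * (X j)⁻¹) (n : ZMod q) * osc (θ i - θ j) n *
          (((n : ℝ) ^ (-(1 + δ)) : ℝ) : ℂ) else 0) := fun i =>
      (Summable.tsum_finsetSum (fun j _ => e4 i j)).symm
    simp only [e5]
    rw [← Summable.tsum_finsetSum (fun i _ => summable_sum fun j _ => e4 i j), Complex.ofReal_tsum]
    apply tsum_congr
    intro n
    by_cases hn : n.Prime
    · simp only [if_pos hn]
      rw [Complex.ofReal_mul, sq_expand c hn.pos, Finset.sum_mul]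
      refine Finset.sum_congr rfl fun i _ => ?_
      rw [Finset.sum_mul]
      refine Finset.sum_congr rfl fun j _ => ?_
      ring
    · simp only [if_neg hn, mul_zero, Finset.sum_const_zero, Complex.ofReal_zero]
  have e2 : (((∑ j, ‖c j‖ ^ 2) * Real.log (1 / δ) : ℝ) : ℂ) =
      ∑ i, ∑ j, c i * (starRingEnd ℂ) (c j) *
        (if X i * (X j)⁻¹ = 1 ∧ θ i - θ j = 0 then (Real.log (1 / δ) : ℂ) else 0) := by
    rw [Complex.ofReal_mul, Complex.ofReal_sum, Finset.sum_mul]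
    refine Finset.sum_congr rfl fun i _ => ?_
    rw [Finset.sum_eq_single i]
    · rw [if_pos ⟨mul_inv_cancel _, sub_self _⟩, Complex.mul_conj, Complex.normSq_eq_norm_sq]
    · intro j _ hj
      rw [if_neg, mul_zero]
      rintro ⟨h2, h3⟩
      apply hj
      apply hinj
      show (θ j, X j) = (θ i, X i)
      rw [mul_inv_eq_one] at h2
      rw [h2, (sub_eq_zero.mp h3)]
    · intro h; exact absurd (Finset.mem_univ i) h
  rw [← Real.norm_eq_abs, ← Complex.norm_real, Complex.ofReal_sub, e1, e2,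
    ← Finset.sum_sub_distrib]
  refine (norm_sum_le _ _).trans (Finset.sum_le_sum fun i _ => ?_)
  rw [← Finset.sum_sub_distrib]
  refine (norm_sum_le _ _).trans (Finset.sum_le_sum fun j _ => ?_)
  rw [← mul_sub, norm_mul]
  exact mul_le_mul_of_nonneg_left (hD i j δ h0 h1) (norm_nonneg _)

theorem pair_mertens (hinj : Function.Injective (fun j => (θ j, X j))) (c : J → ℂ) :
    ∃ C : ℝ, ∀ Y : ℝ, 3 ≤ Y →
      |∑ p ∈ (Finset.range (⌊Y⌋₊ + 1)).filter Nat.Prime,
          ‖∑ j, c j * X j (p : ZMod q) * osc (θ j) p‖ ^ 2 / (p : ℝ) -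
        (∑ j, ‖c j‖ ^ 2) * Real.log (Real.log Y)| ≤ C := by
  obtain ⟨C, hC⟩ := pair_sum hinj c
  obtain ⟨C', hC'⟩ := tauber (w := fun n : ℕ => if n.Prime then
      ‖∑ j, c j * X j (n : ZMod q) * osc (θ j) n‖ ^ 2 else 0) (B := (∑ j, ‖c j‖) ^ 2)
    (κ := ∑ j, ‖c j‖ ^ 2) (C := C) (by
      intro n
      show |if n.Prime then ‖∑ j, c j * X j (n : ZMod q) * osc (θ j) n‖ ^ 2 else 0| ≤ _
      split_ifs with hn
      · rw [abs_of_nonneg (by positivity)]
        refine pow_le_pow_left₀ (norm_nonneg _) ?_ 2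
        refine (norm_sum_le _ _).trans (Finset.sum_le_sum fun j _ => ?_)
        rw [norm_mul, norm_mul, norm_osc (θ j) hn.pos, mul_one]
        exact mul_le_of_le_one_right (norm_nonneg _) (norm_char_le (X j) _)
      · rw [abs_zero]; positivity) (by
      intro δ h0 h1
      have h2 := hC δ h0 h1
      have e : ∀ n : ℕ, (if n.Prime then (if n.Prime then
          ‖∑ j, c j * X j (n : ZMod q) * osc (θ j) n‖ ^ 2 else 0) * (n : ℝ) ^ (-(1 + δ)) else 0) =
          (if n.Prime then ‖∑ j, c j * X j (n : ZMod q) * osc (θ j) n‖ ^ 2 *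
            (n : ℝ) ^ (-(1 + δ)) else 0) := fun n => by
        split_ifs <;> rfl
      simp only [e]
      exact h2)
  refine ⟨C', fun Y hY => ?_⟩
  have h3 := hC' Y hY
  have e : ∑ p ∈ (Finset.range (⌊Y⌋₊ + 1)).filter Nat.Prime,
      (if p.Prime then ‖∑ j, c j * X j (p : ZMod q) * osc (θ j) p‖ ^ 2 else 0) / (p : ℝ) =
      ∑ p ∈ (Finset.range (⌊Y⌋₊ + 1)).filter Nat.Prime,
        ‖∑ j, c j * X j (p : ZMod q) * osc (θ j) p‖ ^ 2 / (p : ℝ) := by
    refine Finset.sum_congr rfl fun p hp => ?_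
    rw [if_pos (Finset.mem_filter.mp hp).2]
  rw [← e]
  exact h3

theorem pair_indep (hinj : Function.Injective (fun j => (θ j, X j))) (c : J → ℂ)
    (h : ∀ p : ℕ, p.Prime → p.Coprime q → ∑ j, c j * X j (p : ZMod q) * osc (θ j) p = 0) (j : J) :
    c j = 0 := by
  obtain ⟨C, hC⟩ := pair_sum hinj c
  have h0 : ∀ n : ℕ, (if n.Prime then ‖∑ j, c j * X j (n : ZMod q) * osc (θ j) n‖ ^ 2 else 0) =
      (0 : ℝ) := by
    intro n
    split_ifs with hn
    · by_cases hq : n.Coprime q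
      · rw [h n hn hq, norm_zero]; norm_num
      · have : ∀ j, c j * X j (n : ZMod q) * osc (θ j) n = 0 := fun j => by
          rw [MulChar.map_nonunit (X j) (fun hu => hq ((ZMod.isUnit_iff_coprime n q).mp hu)),
            mul_zero, zero_mul]
        simp [this]
    · rfl
  have h1 : ∀ δ : ℝ, 0 < δ → δ ≤ 1 → (∑ j, ‖c j‖ ^ 2) * Real.log (1 / δ) ≤ C := by
    intro δ hδ0 hδ1
    have h2 := hC δ hδ0 hδ1
    have e : ∀ n : ℕ, (if n.Prime then ‖∑ j, c j * X j (n : ZMod q) * osc (θ j) n‖ ^ 2 *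
            (n : ℝ) ^ (-(1 + δ)) else 0) = 0 := fun n => by
      have h3 := h0 n
      split_ifs with hn
      · rw [if_pos hn] at h3
        rw [h3, zero_mul]
      · rfl
    simp only [e] at h2
    rw [tsum_zero, zero_sub, abs_neg] at h2
    exact (le_abs_self _).trans h2
  have h2 : ∑ j, ‖c j‖ ^ 2 = 0 := by
    by_contra hne
    have hpos : 0 < ∑ j, ‖c j‖ ^ 2 :=
      lt_of_le_of_ne (Finset.sum_nonneg fun j _ => by positivity) (Ne.symm hne)
    have hC0 : 0 ≤ C := by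
      have := h1 1 one_pos le_rfl
      simpa using this
    have h3 := h1 (Real.exp (-((C + 1) / ∑ j, ‖c j‖ ^ 2))) (Real.exp_pos _)
      (Real.exp_le_one_iff.mpr (neg_nonpos.mpr (by positivity)))
    rw [one_div, Real.log_inv, Real.log_exp, neg_neg, mul_div_cancel₀ _ hne] at h3
    linarith
  have h3 := (Finset.sum_eq_zero_iff_of_nonneg (fun j _ => by positivity)).mp h2 j
    (Finset.mem_univ j)
  simpa using h3

end

end Pool.Agent.Selb
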