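import Pool.Agent.Selb.Core

/-!
# Selb/Resid: a relation between logarithmic derivatives gives a relation between orders

As in `Core.key_identity`: multiply the relation by `P = ∏ H j`: the entire function
`F w = ∑ i, d i * (deriv (H i) w * ∏ j ≠ i, H j w)` vanishes for `1 < re w`, hence everywhere. So
`∑ i, d i * logDeriv (H i) w = 0` at every `w` where all `H i w ≠ 0`. Near `z` (punctured
neighbourhood) all `H i` are nonzero and `(w - z) * logDeriv (H i) w → ord (H i) z`
(`residue_logDeriv`); uniqueness of limits.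
-/

set_option autoImplicit false

open Complex Metric Filter Topology LSeries

namespace Pool.Agent.Selb

theorem ord_relation {κ : Type*} [Fintype κ] {H : κ → ℂ → ℂ}
    (hd : ∀ i, Differentiable ℂ (H i)) (hne : ∀ i, ∀ s : ℂ, 1 < s.re → H i s ≠ 0) (d : κ → ℂ)
    (h : ∀ s : ℂ, 1 < s.re → ∑ i, d i * logDeriv (H i) s = 0) (z : ℂ) :
    ∑ i, d i * (ord (H i) z : ℂ) = 0 := by
  classical
  set P : ℂ → ℂ := fun w => ∏ j, H j w with hP
  set Q : κ → ℂ → ℂ := fun i w => ∏ j ∈ Finset.univ.erase i, H j w with hQ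
  have hQd : ∀ i, Differentiable ℂ (Q i) := fun i => by
    have : ∀ j ∈ (Finset.univ.erase i : Finset κ), Differentiable ℂ (H j) :=
      fun j _ => hd j
    exact Differentiable.fun_finsetProd this
  set F : ℂ → ℂ := fun w => ∑ i, d i * (deriv (H i) w * Q i w) with hF
  have hFd : Differentiable ℂ F := by
    refine Differentiable.fun_sum (fun i _ => ?_)
    exact (((hd i).deriv).mul (hQd i)).const_mul _
  have hgen : ∀ w : ℂ, (∀ i, H i w ≠ 0) → F w = (∑ i, d i * logDeriv (H i) w) * P w := by
    intro w hw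
    simp only [hF]
    rw [Finset.sum_mul]
    refine Finset.sum_congr rfl (fun i _ => ?_)
    have h1 : P w = H i w * Q i w := by
      rw [hP, hQ]
      exact (Finset.mul_prod_erase Finset.univ (fun j => H j w) (Finset.mem_univ i)).symm
    rw [h1, logDeriv_apply]
    have := hw i
    field_simp
  have hF0 : Set.EqOn F (fun _ => 0) Set.univ := by
    refine AnalyticOnNhd.eqOn_of_preconnected_of_eventuallyEq
      (hFd.differentiableOn.analyticOnNhd isOpen_univ)
      ((differentiable_const (0 : ℂ)).differentiableOn.analyticOnNhd isOpen_univ)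
      isPreconnected_univ (z₀ := 2) (Set.mem_univ _) ?_
    filter_upwards [(isOpen_half 1).mem_nhds (show (1 : ℝ) < (2 : ℂ).re by norm_num)] with w hw
    rw [hgen w (fun i => hne i w hw), h w hw, zero_mul]
  have hrel : ∀ w : ℂ, (∀ i, H i w ≠ 0) → ∑ i, d i * logDeriv (H i) w = 0 := by
    intro w hw
    have h1 := hgen w hw
    rw [show F w = 0 from hF0 (Set.mem_univ w)] at h1
    have hPs : P w ≠ 0 := Finset.prod_ne_zero_iff.2 (fun i _ => hw i)
    rcases mul_eq_zero.1 h1.symm with h2 | h2
    · exact h2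
    · exact absurd h2 hPs
  have hne' : ∀ i, ∃ z, H i z ≠ 0 := fun i => ⟨2, hne i 2 (by norm_num)⟩
  have h1 : Tendsto (fun w => ∑ i, d i * ((w - z) * logDeriv (H i) w)) (𝓝[≠] z)
      (𝓝 (∑ i, d i * (ord (H i) z : ℂ))) :=
    tendsto_finsetSum _ (fun i _ => (residue_logDeriv (hd i) (hne' i) z).1.const_mul (d i))
  have h2 : ∀ᶠ w in 𝓝[≠] z, ∀ i, H i w ≠ 0 :=
    eventually_all.2 (fun i => (residue_logDeriv (hd i) (hne' i) z).2)
  have h3 : Tendsto (fun w => ∑ i, d i * ((w - z) * logDeriv (H i) w)) (𝓝[≠] z) (𝓝 0) := by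
    refine tendsto_const_nhds.congr' ?_
    filter_upwards [h2] with w hw
    rw [← mul_zero (w - z), ← hrel w hw, Finset.mul_sum]
    exact Finset.sum_congr rfl (fun i _ => by ring)
  exact tendsto_nhds_unique h1 h3

end Pool.Agent.Selb
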