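import Pool.Agent.Selb.Core

/-!
# Selb/TrivZ: the first trivial zeros of Dirichlet L-functions are simple

`ord f z = analyticOrderNatAt f z`. `ord_pos`, `ord_eq_zero` in `Fac.lean`. `LFunction χ s = completedLFunction χ s /
gammaFactor χ s` (`LFunction_eq_completed_div_gammaFactor`, `N ≠ 1` because `χ ≠ 1`), i.e.
`LFunction χ = completedLFunction χ * (gammaFactor χ)⁻¹`, and `(Gammaℝ s)⁻¹` is entire
(`differentiable_Gammaℝ_inv`), with a simple zero at `s = 0` (`Gammaℝ_residue_zero : s * Gammaℝ s → 2`),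
nonzero at `s = 1` (`Gammaℝ_one`) and at `s = -1` (`Gammaℝ_eq_zero_iff`; note that `Gammaℝ_eq_zero_iff` says that
Lean's `Gammaℝ s` is `0` exactly at `s = - 2 n`). Orders add under multiplication (`ord_mul` in `Fac.lean`).
* `completedLFunction χ 0 ≠ 0`: by `IsPrimitive.completedLFunction_one_sub` with `s = 1`, applied to `χ⁻¹`
  if convenient: `completedLFunction χ 0 = N ^ (1/2) * rootNumber χ * completedLFunction χ⁻¹ 1`, and
  `completedLFunction χ⁻¹ 1 = gammaFactor * LFunction χ⁻¹ 1 ≠ 0` (`LFunction_apply_one_ne_zero`); the root number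
  is nonzero: otherwise `completedLFunction χ (1 - s) = 0` for all `s`, contradicting
  `completedLFunction χ 2 ≠ 0`.
* `completedLFunction χ (-1) ≠ 0`: the same with `s = 2`.
* even `χ`: `gammaFactor χ s = Gammaℝ s`: order `1` at `0`, order `0` at `-1`. odd `χ`: `gammaFactor χ s = Gammaℝ (s + 1)`:
  order `1` at `-1`, order `0` at `0`.
`ord_zeta`: `LFunctionTrivChar₁ 1 s = (s - 1) ζ (s)` for `s ≠ 1`: `ζ 0 = -1/2` (`riemannZeta_zero`), `ζ (-1) ≠ 0`
(e.g. `riemannZeta_one_sub` at `s = 2`, or `riemannZeta_neg_nat_eq_bernoulli`), and the value at `1` is nonzero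
(`LFunctionTrivChar₁_apply_one_ne_zero`).
-/

set_option autoImplicit false

open Complex Metric Filter Topology LSeries

namespace Pool.Agent.Selb

section

private lemma tend_gam (a : ℂ) : Tendsto (fun s => (s + a) * Gammaℝ (s + a)) (𝓝[≠] (-a)) (𝓝 2) := by
  have h1 : Tendsto (fun s : ℂ => s + a) (𝓝[≠] (-a)) (𝓝[≠] 0) := by
    rw [tendsto_nhdsWithin_iff]
    constructor
    · have h2 : Tendsto (fun s : ℂ => s + a) (𝓝 (-a)) (𝓝 (-a + a)) :=
        (continuous_id.add continuous_const).tendsto _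
      rw [neg_add_cancel] at h2
      exact h2.mono_left nhdsWithin_le_nhds
    · filter_upwards [self_mem_nhdsWithin] with s hs
      intro h0
      exact hs (by rw [Set.mem_singleton_iff] at h0 ⊢; exact eq_neg_of_add_eq_zero_left h0)
  exact Gammaℝ_residue_zero.comp h1

private lemma diff_gam (a : ℂ) : Differentiable ℂ (fun s => (Gammaℝ (s + a))⁻¹) :=
  differentiable_Gammaℝ_inv.comp (differentiable_id.add (differentiable_const a))

private lemma ord_gam (a : ℂ) : ord (fun s => (Gammaℝ (s + a))⁻¹) (-a) = 1 := by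
  set f : ℂ → ℂ := fun s => (Gammaℝ (s + a))⁻¹ with hf
  have hd : Differentiable ℂ f := diff_gam a
  have hev : ∀ᶠ s in 𝓝[≠] (-a), (s + a) * Gammaℝ (s + a) ≠ 0 :=
    (tend_gam a).eventually_ne (by norm_num)
  have hne : ∃ z, f z ≠ 0 := by
    obtain ⟨z, hz⟩ := hev.exists
    exact ⟨z, inv_ne_zero (right_ne_zero_of_mul hz)⟩
  have hf0 : f (-a) = 0 := by
    rw [hf]
    simp only [neg_add_cancel]
    rw [Gammaℝ_eq_zero_iff.2 ⟨0, by simp⟩, inv_zero]
  have hpos : 0 < ord f (-a) := ord_pos hd hne hf0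
  obtain ⟨g, hg, hg0, hfg⟩ := factor_one hd hne (-a)
  by_contra hc
  obtain ⟨k, hk⟩ : ∃ k, ord f (-a) = k + 2 := ⟨ord f (-a) - 2, by omega⟩
  rw [hk] at hfg
  have h1 : Tendsto (fun s => (s + a) ^ (k + 1) * g s * ((s + a) * Gammaℝ (s + a)))
      (𝓝[≠] (-a)) (𝓝 ((-a + a) ^ (k + 1) * g (-a) * 2)) := by
    refine Tendsto.mul ?_ (tend_gam a)
    have hc2 : Continuous (fun s : ℂ => (s + a) ^ (k + 1) * g s) := by
      have := hg.continuous
      fun_prop
    exact (hc2.tendsto (-a)).mono_left nhdsWithin_le_nhds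
  have h2 : Tendsto (fun s => (s + a) ^ (k + 1) * g s * ((s + a) * Gammaℝ (s + a)))
      (𝓝[≠] (-a)) (𝓝 1) := by
    apply tendsto_const_nhds.congr'
    filter_upwards [hev] with s hs
    have h3 : Gammaℝ (s + a) ≠ 0 := right_ne_zero_of_mul hs
    have h4 : f s * Gammaℝ (s + a) = 1 := inv_mul_cancel₀ h3
    rw [hfg s, sub_neg_eq_add] at h4
    rw [← h4]
    ring
  have h5 := tendsto_nhds_unique h1 h2
  rw [neg_add_cancel, zero_pow (by omega), zero_mul, zero_mul] at h5
  exact zero_ne_one h5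

variable {N : ℕ} [NeZero N] {χ : DirichletCharacter ℂ N}

private lemma lf_eq (hχ : χ ≠ 1) (s : ℂ) :
    χ.LFunction s = χ.completedLFunction s / χ.gammaFactor s :=
  χ.LFunction_eq_completed_div_gammaFactor s (Or.inr (hχ ∘ DirichletCharacter.level_one' _))

private lemma comp_ne (hχ : χ ≠ 1) {s : ℂ} (hs : 1 ≤ s.re) : χ.completedLFunction s ≠ 0 := by
  intro h0
  apply χ.LFunction_ne_zero_of_one_le_re (Or.inl hχ) hs
  rw [lf_eq hχ, h0, zero_div]

omit [NeZero N] in
private lemma inv_ne (hχ : χ ≠ 1) : χ⁻¹ ≠ 1 := by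
  intro h
  exact hχ (inv_eq_one.1 h)

private lemma root_ne (hp : χ.IsPrimitive) (hχ : χ ≠ 1) : χ.rootNumber ≠ 0 := by
  intro h0
  have h := hp.completedLFunction_one_sub (-1)
  rw [h0, mul_zero, zero_mul] at h
  refine comp_ne hχ ?_ h
  norm_num

private lemma comp_ne' (hp : χ.IsPrimitive) (hχ : χ ≠ 1) {s : ℂ} (hs : 1 ≤ s.re) :
    χ.completedLFunction (1 - s) ≠ 0 := by
  rw [hp.completedLFunction_one_sub s]
  refine mul_ne_zero (mul_ne_zero ?_ (root_ne hp hχ)) (comp_ne (inv_ne hχ) hs)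
  rw [Ne, cpow_eq_zero_iff, not_and_or]
  left
  exact_mod_cast NeZero.ne N

private lemma comp_zero (hp : χ.IsPrimitive) (hχ : χ ≠ 1) : χ.completedLFunction 0 ≠ 0 := by
  have := comp_ne' hp hχ (s := 1) (by norm_num)
  rwa [sub_self] at this

private lemma comp_neg (hp : χ.IsPrimitive) (hχ : χ ≠ 1) : χ.completedLFunction (-1) ≠ 0 := by
  have := comp_ne' hp hχ (s := 2) (by norm_num)
  have e : (1 : ℂ) - 2 = -1 := by norm_num
  rwa [e] at this

omit [NeZero N] in
private lemma odd_ne (ho : χ.Odd) : χ ≠ 1 := by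
  rintro rfl
  have h : (1 : DirichletCharacter ℂ N) (-1) = -1 := ho
  rw [MulChar.one_apply (isUnit_one.neg)] at h
  norm_num at h

theorem ord_even_zero (hp : χ.IsPrimitive) (hχ : χ ≠ 1) (he : χ.Even) : ord χ.LFunction 0 = 1 := by
  have e : χ.LFunction = fun s => χ.completedLFunction s * (Gammaℝ (s + 0))⁻¹ := by
    funext s
    rw [lf_eq hχ, he.gammaFactor_def, add_zero, div_eq_mul_inv]
  have h1 := ord_gam 0
  rw [neg_zero] at h1
  rw [e, ord_mul (DirichletCharacter.differentiable_completedLFunction hχ) (diff_gam 0)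
    ⟨0, comp_zero hp hχ⟩ ⟨1, ?_⟩ 0, ord_eq_zero (comp_zero hp hχ), h1]
  rw [add_zero, Gammaℝ_one, inv_one]
  exact one_ne_zero

theorem ord_even_neg_one (hp : χ.IsPrimitive) (hχ : χ ≠ 1) (he : χ.Even) :
    ord χ.LFunction (-1) = 0 := by
  apply ord_eq_zero
  rw [lf_eq hχ, he.gammaFactor_def]
  apply div_ne_zero (comp_neg hp hχ)
  intro h0
  obtain ⟨n, hn⟩ := Gammaℝ_eq_zero_iff.1 h0
  have h1 : (1 : ℂ) = ((2 * n : ℕ) : ℂ) := by push_cast; linear_combination -hn
  have h2 : (1 : ℕ) = 2 * n := by exact_mod_cast h1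
  omega

theorem ord_odd_zero (hp : χ.IsPrimitive) (ho : χ.Odd) : ord χ.LFunction 0 = 0 := by
  have hχ := odd_ne ho
  apply ord_eq_zero
  rw [lf_eq hχ, ho.gammaFactor_def, zero_add, Gammaℝ_one, div_one]
  exact comp_zero hp hχ

theorem ord_odd_neg_one (hp : χ.IsPrimitive) (ho : χ.Odd) : ord χ.LFunction (-1) = 1 := by
  have hχ := odd_ne ho
  have e : χ.LFunction = fun s => χ.completedLFunction s * (Gammaℝ (s + 1))⁻¹ := by
    funext s
    rw [lf_eq hχ, ho.gammaFactor_def, div_eq_mul_inv]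
  rw [e, ord_mul (DirichletCharacter.differentiable_completedLFunction hχ) (diff_gam 1)
    ⟨0, comp_zero hp hχ⟩ ⟨0, ?_⟩ (-1), ord_eq_zero (comp_neg hp hχ), ord_gam 1]
  rw [zero_add, Gammaℝ_one, inv_one]
  exact one_ne_zero

theorem ord_one (hχ : χ ≠ 1) : ord χ.LFunction 1 = 0 := by
  apply ord_eq_zero
  exact χ.LFunction_ne_zero_of_one_le_re (Or.inl hχ) (by norm_num)

end

theorem ord_zeta (z : ℂ) (hz : z = 0 ∨ z = -1 ∨ z = 1) :
    ord (DirichletCharacter.LFunctionTrivChar₁ 1) z = 0 := by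
  apply ord_eq_zero
  have key : ∀ w : ℂ, w ≠ 1 → riemannZeta w ≠ 0 →
      DirichletCharacter.LFunctionTrivChar₁ 1 w ≠ 0 := by
    intro w hw h0
    unfold DirichletCharacter.LFunctionTrivChar₁
    rw [Function.update_of_ne hw]
    apply mul_ne_zero (sub_ne_zero.2 hw)
    rw [DirichletCharacter.LFunctionTrivChar, DirichletCharacter.LFunction_modOne_eq]
    exact h0
  rcases hz with rfl | rfl | rfl
  · apply key _ zero_ne_one
    rw [riemannZeta_zero]
    norm_num
  · apply key _ (by norm_num)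
    have h := riemannZeta_neg_nat_eq_bernoulli' 1
    rw [Nat.cast_one] at h
    rw [h]
    norm_num [bernoulli'_two]
  · exact DirichletCharacter.LFunctionTrivChar₁_apply_one_ne_zero 1

end Pool.Agent.Selb
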