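import Pool.Agent.Selb.Star
import Pool.Agent.Selb.Resid
import Pool.Agent.Selb.TrivZ

/-!
# Selb/Integ: integrality relations from the point `1` and the first trivial zeros
-/

set_option autoImplicit false

open Complex Metric Filter Topology LSeries

namespace Pool.Agent.Selb

lemma star_neg_one {q : ℕ} (χ : DirichletCharacter ℂ q) :
    χ.primitiveCharacter (-1) = χ (-1) := by
  have h : IsCoprime (-1 : ℤ) (q : ℤ) := isCoprime_one_left.neg_left
  have h1 := DirichletCharacter.primitiveCharacter_apply_of_isCoprime (χ := χ) h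
  push_cast at h1
  exact h1

/-- the entire function attached to `χ`: `(s - 1) ζ(s)` if `χ = 1`, and `L(s, χ*)` otherwise. -/
noncomputable def entL {q : ℕ} [NeZero q] (χ : DirichletCharacter ℂ q) : ℂ → ℂ :=
  haveI : NeZero χ.conductor := ⟨χ.conductor_ne_zero⟩
  haveI := Classical.dec (χ = 1)
  if χ = 1 then DirichletCharacter.LFunctionTrivChar₁ 1 else χ.primitiveCharacter.LFunction

/-- the integral relations between the exponents -/
theorem integer_relations {a b : ℕ → ℂ} {m : ℕ} {G : ℂ → ℂ} {Q : ℝ} {k : ℕ} {lam : Fin k → ℝ}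
    {μ : Fin k → ℂ} {ω : ℂ} (h : Arith a b) (h' : Anal a m G Q lam μ ω) {q : ℕ} [NeZero q]
    (c : DirichletCharacter ℂ q → ℂ)
    (hs : ∀ n : ℕ, b n * (Real.log n : ℂ) = ∑ χ, c χ * starL χ n) (z : ℂ) :
    (ord G z : ℂ) = ((m : ℂ) - c 1) * (ord (fun s : ℂ => s - 1) z : ℂ) +
      ∑ χ, c χ * (ord (entL χ) z : ℂ) := by
  classical
  set H : Option (Option (DirichletCharacter ℂ q)) → ℂ → ℂ := fun o =>
    o.elim G (fun o' => o'.elim (fun s : ℂ => s - 1) entL) with hH
  set d : Option (Option (DirichletCharacter ℂ q)) → ℂ := fun o =>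
    o.elim 1 (fun o' => o'.elim (-((m : ℂ) - c 1)) (fun χ => -c χ)) with hd
  have hhalf := half_sel h h'
  have hone : ∀ s : ℂ, 1 < s.re → s ≠ 1 := by
    intro s hs1 h0
    rw [h0] at hs1
    simp at hs1
  have hP : ∀ s : ℂ, 1 < s.re → DirichletCharacter.LFunctionTrivChar₁ 1 s =
      (s - 1) * riemannZeta s := by
    intro s hs1
    rw [DirichletCharacter.LFunctionTrivChar₁, Function.update_of_ne (hone s hs1),
      DirichletCharacter.LFunctionTrivChar, DirichletCharacter.LFunction_modOne_eq]
  have hentd : ∀ χ : DirichletCharacter ℂ q, Differentiable ℂ (entL χ) := by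
    intro χ
    by_cases h1 : χ = 1
    · simp only [entL, h1, if_true]
      exact DirichletCharacter.differentiable_LFunctionTrivChar₁ 1
    · simp only [entL, h1, if_false]
      have : NeZero χ.conductor := ⟨χ.conductor_ne_zero⟩
      refine DirichletCharacter.differentiable_LFunction ?_
      intro h2
      apply h1
      have h3 := χ.primitiveCharacter_isPrimitive
      rw [DirichletCharacter.isPrimitive_def, h2, DirichletCharacter.conductor_one] at h3
      rw [DirichletCharacter.eq_one_iff_conductor_eq_one]
      exact h3.symm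
  have hentn : ∀ χ : DirichletCharacter ℂ q, ∀ s : ℂ, 1 < s.re → entL χ s ≠ 0 := by
    intro χ s hs1
    by_cases h1 : χ = 1
    · simp only [entL, h1, if_true]
      rw [hP s hs1]
      exact mul_ne_zero (sub_ne_zero.2 (hone s hs1)) (riemannZeta_ne_zero_of_one_le_re hs1.le)
    · simp only [entL, h1, if_false]
      have : NeZero χ.conductor := ⟨χ.conductor_ne_zero⟩
      exact DirichletCharacter.LFunction_ne_zero_of_one_le_re _ (Or.inr (hone s hs1)) hs1.le
  have hentl : ∀ χ : DirichletCharacter ℂ q, ∀ s : ℂ, 1 < s.re →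
      logDeriv (entL χ) s = (if χ = 1 then 1 / (s - 1) else 0) - LSeries (starL χ) s := by
    intro χ s hs1
    by_cases h1 : χ = 1
    · subst h1
      simp only [entL, if_true]
      have e : starL (1 : DirichletCharacter ℂ q) =
          fun n => (ArithmeticFunction.vonMangoldt n : ℂ) := by
        funext n
        rw [starL, star_one, one_mul]
      have h2 : DirichletCharacter.LFunctionTrivChar₁ 1 =ᶠ[𝓝 s]
          fun w => (w - 1) * riemannZeta w := by
        filter_upwards [(isOpen_half 1).mem_nhds (show (1 : ℝ) < s.re from hs1)] with w hw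
        exact hP w hw
      have hz0 : riemannZeta s ≠ 0 := riemannZeta_ne_zero_of_one_le_re hs1.le
      have hs0 : s - 1 ≠ 0 := sub_ne_zero.2 (hone s hs1)
      have hzd : DifferentiableAt ℂ riemannZeta s := differentiableAt_riemannZeta (hone s hs1)
      rw [logDeriv_apply, h2.deriv_eq, hP s hs1, ← logDeriv_apply (fun w => (w - 1) * riemannZeta w),
        logDeriv_mul (f := fun w : ℂ => w - 1) s hs0 hz0 (by fun_prop) hzd, e,
        ArithmeticFunction.LSeries_vonMangoldt_eq_deriv_riemannZeta_div hs1, logDeriv_apply,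
        logDeriv_apply]
      simp only [deriv_sub_const, deriv_id'']
      ring
    · simp only [entL, h1, if_false]
      have : NeZero χ.conductor := ⟨χ.conductor_ne_zero⟩
      rw [zero_sub, logDeriv_apply, DirichletCharacter.deriv_LFunction_eq_deriv_LSeries _ hs1,
        DirichletCharacter.LFunction_eq_LSeries _ hs1]
      have h2 := DirichletCharacter.LSeries_twist_vonMangoldt_eq χ.primitiveCharacter hs1
      have e : starL χ = (fun n : ℕ => χ.primitiveCharacter (n : ZMod χ.conductor)) *
          (fun n : ℕ => (ArithmeticFunction.vonMangoldt n : ℂ)) := rfl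
      rw [e, h2]
      ring
  have key := ord_relation (H := H) ?_ ?_ d ?_ z
  · simp only [Fintype.sum_option, hd, hH, Option.elim] at key
    have h2 : ∑ x, -c x * (ord (entL x) z : ℂ) = -∑ χ, c χ * (ord (entL χ) z : ℂ) := by
      rw [← Finset.sum_neg_distrib]
      exact Finset.sum_congr rfl (fun χ _ => by ring)
    rw [h2] at key
    linear_combination key
  · rintro (_ | _ | χ)
    · exact h'.diff
    · show Differentiable ℂ (fun s : ℂ => s - 1)
      fun_prop
    · exact hentd χ
  · rintro (_ | _ | χ) s hs1
    · show G s ≠ 0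
      rw [h'.cont s hs1]
      exact mul_ne_zero (pow_ne_zero _ (sub_ne_zero.2 (hone s hs1))) (hhalf.nz s hs1)
    · exact sub_ne_zero.2 (hone s hs1)
    · exact hentn χ s hs1
  · intro s hs1
    simp only [Fintype.sum_option, hd, hH, Option.elim]
    have hs0 : s - 1 ≠ 0 := sub_ne_zero.2 (hone s hs1)
    have hLd : DifferentiableAt ℂ (LSeries a) s := by
      have habs : abscissaOfAbsConv a < s.re := by
        have h1 : abscissaOfAbsConv a ≤ ((1 : ℝ) : EReal) := by
          refine abscissaOfAbsConv_le_of_forall_lt_LSeriesSummable (fun y hy => ?_)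
          exact hhalf.suma y (by simpa using hy)
        exact h1.trans_lt (by exact_mod_cast hs1)
      exact (LSeries_hasDerivAt habs).differentiableAt
    have hG : logDeriv G s = (m : ℂ) / (s - 1) - LSeries (fun n => b n * (Real.log n : ℂ)) s := by
      have h2 : G =ᶠ[𝓝 s] fun w => (w - 1) ^ m * LSeries a w := by
        filter_upwards [(isOpen_half 1).mem_nhds (show (1 : ℝ) < s.re from hs1)] with w hw
        exact h'.cont w hw
      rw [logDeriv_apply, h2.deriv_eq, h'.cont s hs1,
        ← logDeriv_apply (fun w => (w - 1) ^ m * LSeries a w),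
        logDeriv_mul (f := fun w : ℂ => (w - 1) ^ m) s (pow_ne_zero _ hs0) (hhalf.nz s hs1)
          (by fun_prop) hLd, hhalf.ld s hs1, logDeriv_fun_pow (by fun_prop), logDeriv_apply]
      simp only [deriv_sub_const, deriv_id'']
      ring
    have hX : logDeriv (fun s : ℂ => s - 1) s = 1 / (s - 1) := by
      rw [logDeriv_apply]
      simp
    have hL : LSeries (fun n => b n * (Real.log n : ℂ)) s = ∑ χ, c χ * LSeries (starL χ) s := by
      have e1 : (fun n : ℕ => b n * (Real.log n : ℂ)) = ∑ χ, c χ • starL χ := by
        funext n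
        simp only [Finset.sum_apply, Pi.smul_apply, smul_eq_mul]
        exact hs n
      have hsum : ∀ χ : DirichletCharacter ℂ q, LSeriesSummable (starL χ) s := by
        intro χ
        obtain ⟨Ψ, m1, E, hΨ⟩ := good_star χ
        exact hΨ.summ s hs1
      rw [e1, LSeries_sum (fun χ _ => (hsum χ).smul (c χ))]
      exact Finset.sum_congr rfl (fun χ _ => by rw [LSeries_smul])
    rw [hG, hX, hL]
    have h3 : ∑ χ, -c χ * logDeriv (entL χ) s =
        -(c 1 * (1 / (s - 1))) + ∑ χ, c χ * LSeries (starL χ) s := by
      have h4 : ∀ χ : DirichletCharacter ℂ q, -c χ * logDeriv (entL χ) s =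
          (if χ = 1 then -(c 1 * (1 / (s - 1))) else 0) + c χ * LSeries (starL χ) s := by
        intro χ
        rw [hentl χ s hs1]
        split_ifs with h5
        · rw [h5]; ring
        · ring
      simp only [h4, Finset.sum_add_distrib, Finset.sum_ite_eq', Finset.mem_univ, if_true]
    rw [h3]
    ring

end Pool.Agent.Selb
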