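import Pool.Agent.Selb.MertAP

/-!
# Selb/PerSum: sums of squares of asymptotically periodic prime coefficients

`‖g p‖ ^ 2 = ‖f p‖ ^ 2 + O (1 / √p)` (`f` takes finitely many values: `‖f a‖ ≤ F` for all `a : ZMod q`, so
`|‖g p‖² - ‖f p‖²| ≤ ‖g p - f p‖ (‖g p‖ + ‖f p‖) ≤ (B / √p) (2 F + B)`), and `∑_p 1 / (p √p)` converges
(`p ^ (-3/2)`), so the error contributes `O(1)`. Next `‖f p‖ ^ 2 / p = ∑ a : (ZMod q), ‖f a‖ ^ 2 * (if p = a then 1 else 0) / p`;
for `a` a unit use `mertens_ap`; for `a` not a unit there are only finitely many primes `p` with `p ≡ a`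
(they divide `q`), total contribution `O(1)`. The sum over the units `(ZMod q)ˣ` is the sum over the `a` with
`IsUnit a`.
-/

set_option autoImplicit false

open Complex Metric Filter Topology LSeries

namespace Pool.Agent.Selb

private theorem res_sum {q : ℕ} [NeZero q] (a : ZMod q) :
    ∃ C : ℝ, ∀ X : ℝ, 3 ≤ X →
      |∑ p ∈ (Finset.range (⌊X⌋₊ + 1)).filter Nat.Prime,
          (if (p : ZMod q) = a then (1 : ℝ) else 0) / (p : ℝ) -
        (if IsUnit a then (1 / (q.totient : ℝ)) else 0) * Real.log (Real.log X)| ≤ C := by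
  classical
  by_cases ha : IsUnit a
  · obtain ⟨C, hC⟩ := mertens_ap ha
    refine ⟨C, fun X hX => ?_⟩
    rw [if_pos ha]
    exact hC X hX
  · refine ⟨(q.primeFactors.card : ℝ), fun X _ => ?_⟩
    rw [if_neg ha, zero_mul, sub_zero, abs_of_nonneg (Finset.sum_nonneg fun p _ => by
      split_ifs <;> positivity)]
    calc ∑ p ∈ (Finset.range (⌊X⌋₊ + 1)).filter Nat.Prime,
          (if (p : ZMod q) = a then (1 : ℝ) else 0) / (p : ℝ)
        ≤ ∑ p ∈ (Finset.range (⌊X⌋₊ + 1)).filter Nat.Prime,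
          (if p ∈ q.primeFactors then (1 : ℝ) else 0) := by
          refine Finset.sum_le_sum fun p hp => ?_
          have hpp : p.Prime := (Finset.mem_filter.1 hp).2
          by_cases hpa : (p : ZMod q) = a
          · have hmem : p ∈ q.primeFactors := by
              rw [Nat.mem_primeFactors]
              refine ⟨hpp, ?_, NeZero.ne q⟩
              by_contra hnd
              apply ha
              rw [← hpa, ZMod.isUnit_iff_coprime]
              exact (Nat.Prime.coprime_iff_not_dvd hpp).2 hnd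
            rw [if_pos hpa, if_pos hmem, div_le_one (by exact_mod_cast hpp.pos)]
            exact_mod_cast hpp.one_lt.le
          · rw [if_neg hpa, zero_div]
            split_ifs <;> norm_num
      _ = (((Finset.range (⌊X⌋₊ + 1)).filter Nat.Prime).filter (· ∈ q.primeFactors)).card := by
          rw [← Finset.sum_filter, Finset.sum_const, nsmul_eq_mul, mul_one]
      _ ≤ (q.primeFactors.card : ℝ) := by
          have : ((Finset.range (⌊X⌋₊ + 1)).filter Nat.Prime).filter (· ∈ q.primeFactors) ⊆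
              q.primeFactors := fun p hp => (Finset.mem_filter.1 hp).2
          exact_mod_cast Finset.card_le_card this

theorem periodic_sum {q : ℕ} [NeZero q] (f : ZMod q → ℂ) {g : ℕ → ℂ} {B : ℝ}
    (hg : ∀ p : ℕ, p.Prime → ‖g p - f (p : ZMod q)‖ ≤ B / Real.sqrt p) :
    ∃ C : ℝ, ∀ X : ℝ, 3 ≤ X →
      |∑ p ∈ (Finset.range (⌊X⌋₊ + 1)).filter Nat.Prime, ‖g p‖ ^ 2 / (p : ℝ) -
        ((1 / (q.totient : ℝ)) * ∑ u : (ZMod q)ˣ, ‖f (u : ZMod q)‖ ^ 2) *
          Real.log (Real.log X)| ≤ C := by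
  classical
  choose Ca hCa using fun a : ZMod q => res_sum a
  have hB : 0 ≤ B := by
    have h1 := (norm_nonneg _).trans (hg 2 Nat.prime_two)
    have h2 : (0 : ℝ) < Real.sqrt ((2 : ℕ) : ℝ) := Real.sqrt_pos.2 (by norm_num)
    rcases lt_or_ge B 0 with h | h
    · exact absurd h1 (not_le.2 (div_neg_of_neg_of_pos h h2))
    · exact h
  set F : ℝ := ∑ a : ZMod q, ‖f a‖ with hF
  have hfF : ∀ a, ‖f a‖ ≤ F := fun a =>
    Finset.single_le_sum (f := fun a => ‖f a‖) (fun b _ => norm_nonneg (f b)) (Finset.mem_univ a)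
  have hF0 : 0 ≤ F := Finset.sum_nonneg fun b _ => norm_nonneg (f b)
  have hsummable : Summable fun n : ℕ => 1 / (n : ℝ) ^ (3 / 2 : ℝ) :=
    Real.summable_one_div_nat_rpow.2 (by norm_num)
  set Z : ℝ := ∑' n : ℕ, 1 / (n : ℝ) ^ (3 / 2 : ℝ) with hZ
  refine ⟨B * (2 * F + B) * Z + ∑ a : ZMod q, ‖f a‖ ^ 2 * Ca a, fun X hX => ?_⟩
  set P := (Finset.range (⌊X⌋₊ + 1)).filter Nat.Prime with hP
  have hprime : ∀ p ∈ P, p.Prime := fun p hp => (Finset.mem_filter.1 hp).2
  -- the error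
  have h1 : |∑ p ∈ P, (‖g p‖ ^ 2 / (p : ℝ) - ‖f (p : ZMod q)‖ ^ 2 / (p : ℝ))| ≤
      B * (2 * F + B) * Z := by
    calc |∑ p ∈ P, (‖g p‖ ^ 2 / (p : ℝ) - ‖f (p : ZMod q)‖ ^ 2 / (p : ℝ))|
        ≤ ∑ p ∈ P, |‖g p‖ ^ 2 / (p : ℝ) - ‖f (p : ZMod q)‖ ^ 2 / (p : ℝ)| :=
          Finset.abs_sum_le_sum_abs _ _
      _ ≤ ∑ p ∈ P, B * (2 * F + B) * (1 / (p : ℝ) ^ (3 / 2 : ℝ)) := by
          refine Finset.sum_le_sum fun p hp => ?_
          have hpp := hprime p hp
          have hp0 : (0 : ℝ) < p := by exact_mod_cast hpp.pos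
          have hp1 : (1 : ℝ) ≤ p := by exact_mod_cast hpp.one_lt.le
          have hs1 : 1 ≤ Real.sqrt p := by
            rw [Real.one_le_sqrt]
            exact hp1
          have hs0 : 0 < Real.sqrt p := lt_of_lt_of_le one_pos hs1
          have hgf := hg p hpp
          have hBs : B / Real.sqrt p ≤ B := div_le_self hB hs1
          have h2 : |‖g p‖ - ‖f (p : ZMod q)‖| ≤ B / Real.sqrt p :=
            (abs_norm_sub_norm_le _ _).trans hgf
          have h3 : ‖g p‖ + ‖f (p : ZMod q)‖ ≤ 2 * F + B := by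
            have h4 := (abs_le.1 h2).2
            have h5 := hfF (p : ZMod q)
            linarith
          have h4 : ‖g p‖ ^ 2 / (p : ℝ) - ‖f (p : ZMod q)‖ ^ 2 / (p : ℝ) =
              (‖g p‖ - ‖f (p : ZMod q)‖) * (‖g p‖ + ‖f (p : ZMod q)‖) / p := by
            ring
          have h5 : (p : ℝ) ^ (3 / 2 : ℝ) = Real.sqrt p * p := by
            have h6 : (p : ℝ) ^ (3 / 2 : ℝ) = (p : ℝ) ^ (1 / 2 : ℝ) * (p : ℝ) ^ (1 : ℝ) := by
              rw [← Real.rpow_add hp0]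
              norm_num
            rw [h6, Real.rpow_one, Real.sqrt_eq_rpow]
          rw [h4, abs_div, abs_mul, abs_of_pos hp0,
            abs_of_nonneg (add_nonneg (norm_nonneg (g p)) (norm_nonneg (f (p : ZMod q)))), h5]
          calc |‖g p‖ - ‖f (p : ZMod q)‖| * (‖g p‖ + ‖f (p : ZMod q)‖) / p
              ≤ (B / Real.sqrt p) * (2 * F + B) / p := by
                gcongr
            _ = B * (2 * F + B) * (1 / (Real.sqrt p * p)) := by
                field_simp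
      _ = B * (2 * F + B) * ∑ p ∈ P, 1 / (p : ℝ) ^ (3 / 2 : ℝ) := (Finset.mul_sum _ _ _).symm
      _ ≤ B * (2 * F + B) * Z := by
          refine mul_le_mul_of_nonneg_left ?_ (by positivity)
          exact hsummable.sum_le_tsum _ fun n _ => by positivity
  -- the periodic part
  have h2 : ∑ p ∈ P, ‖f (p : ZMod q)‖ ^ 2 / (p : ℝ) =
      ∑ a : ZMod q, ‖f a‖ ^ 2 * ∑ p ∈ P, (if (p : ZMod q) = a then (1 : ℝ) else 0) / (p : ℝ) := by
    simp_rw [Finset.mul_sum]
    rw [Finset.sum_comm]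
    refine Finset.sum_congr rfl fun p _ => ?_
    rw [Finset.sum_eq_single (p : ZMod q)]
    · rw [if_pos rfl]
      ring
    · intro b _ hb
      rw [if_neg (Ne.symm hb)]
      ring
    · intro h
      exact absurd (Finset.mem_univ _) h
  have h3 : (1 / (q.totient : ℝ)) * ∑ u : (ZMod q)ˣ, ‖f (u : ZMod q)‖ ^ 2 =
      ∑ a : ZMod q, ‖f a‖ ^ 2 * (if IsUnit a then (1 / (q.totient : ℝ)) else 0) := by
    have hset : (Finset.univ.filter fun a : ZMod q => IsUnit a) =
        (Finset.univ : Finset (ZMod q)ˣ).map ⟨Units.val, Units.val_injective⟩ := by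
      ext a
      simp only [Finset.mem_filter, Finset.mem_univ, true_and, Finset.mem_map,
        Function.Embedding.coeFn_mk]
      exact Iff.rfl
    have h4 : ∀ a : ZMod q, ‖f a‖ ^ 2 * (if IsUnit a then (1 / (q.totient : ℝ)) else 0) =
        if IsUnit a then ‖f a‖ ^ 2 * (1 / (q.totient : ℝ)) else 0 := by
      intro a
      split_ifs <;> simp
    simp_rw [h4]
    rw [← Finset.sum_filter, hset, Finset.sum_map, Finset.mul_sum]
    refine Finset.sum_congr rfl fun u _ => ?_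
    show 1 / (q.totient : ℝ) * ‖f (u : ZMod q)‖ ^ 2 = ‖f (u : ZMod q)‖ ^ 2 * (1 / (q.totient : ℝ))
    ring
  have h4 : |∑ p ∈ P, ‖f (p : ZMod q)‖ ^ 2 / (p : ℝ) -
      ((1 / (q.totient : ℝ)) * ∑ u : (ZMod q)ˣ, ‖f (u : ZMod q)‖ ^ 2) *
        Real.log (Real.log X)| ≤ ∑ a : ZMod q, ‖f a‖ ^ 2 * Ca a := by
    rw [h2, h3, Finset.sum_mul, ← Finset.sum_sub_distrib]
    refine (Finset.abs_sum_le_sum_abs _ _).trans (Finset.sum_le_sum fun a _ => ?_)
    rw [mul_assoc, ← mul_sub, abs_mul, abs_of_nonneg (sq_nonneg ‖f a‖)]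
    exact mul_le_mul_of_nonneg_left (hCa a X hX) (sq_nonneg _)
  have h5 : ∑ p ∈ P, ‖g p‖ ^ 2 / (p : ℝ) -
        ((1 / (q.totient : ℝ)) * ∑ u : (ZMod q)ˣ, ‖f (u : ZMod q)‖ ^ 2) *
          Real.log (Real.log X) =
      (∑ p ∈ P, (‖g p‖ ^ 2 / (p : ℝ) - ‖f (p : ZMod q)‖ ^ 2 / (p : ℝ))) +
      (∑ p ∈ P, ‖f (p : ZMod q)‖ ^ 2 / (p : ℝ) -
      ((1 / (q.totient : ℝ)) * ∑ u : (ZMod q)ˣ, ‖f (u : ZMod q)‖ ^ 2) *
        Real.log (Real.log X)) := by
    rw [Finset.sum_sub_distrib]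
    ring
  rw [h5]
  exact (abs_add_le _ _).trans (add_le_add h1 h4)

end Pool.Agent.Selb
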