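import Pool.Agent.Selb.Ratl
import Pool.Agent.Selb.Integ
import Pool.Agent.Selb.PerSum

/-!
# Selb/Fin0: assembly
-/

set_option autoImplicit false

open Complex Metric Filter Topology LSeries

namespace Pool.Agent.Selb

lemma entL_ne_one {q : ℕ} [NeZero q] {χ : DirichletCharacter ℂ q} (h : χ ≠ 1) [NeZero χ.conductor] :
    entL χ = χ.primitiveCharacter.LFunction := by
  simp only [entL, h, if_false]

lemma prim_ne_one {q : ℕ} [NeZero q] {χ : DirichletCharacter ℂ q} (h : χ ≠ 1) :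
    χ.primitiveCharacter ≠ 1 := by
  have : NeZero χ.conductor := ⟨χ.conductor_ne_zero⟩
  intro h2
  apply h
  have h3 := χ.primitiveCharacter_isPrimitive
  rw [DirichletCharacter.isPrimitive_def, h2, DirichletCharacter.conductor_one] at h3
  rw [DirichletCharacter.eq_one_iff_conductor_eq_one]
  exact h3.symm

lemma prim_even {q : ℕ} {χ : DirichletCharacter ℂ q} (h : χ.Even) : χ.primitiveCharacter.Even := by
  unfold DirichletCharacter.Even at h ⊢
  rw [star_neg_one, h]

lemma prim_odd {q : ℕ} {χ : DirichletCharacter ℂ q} (h : χ.Odd) : χ.primitiveCharacter.Odd := by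
  unfold DirichletCharacter.Odd at h ⊢
  rw [star_neg_one, h]

lemma entL_zero {q : ℕ} [NeZero q] (χ : DirichletCharacter ℂ q) [Decidable (χ ≠ 1 ∧ χ.Even)] :
    ord (entL χ) 0 = if χ ≠ 1 ∧ χ.Even then 1 else 0 := by
  have : NeZero χ.conductor := ⟨χ.conductor_ne_zero⟩
  by_cases h : χ = 1
  · rw [if_neg (by tauto)]
    simp only [entL, h, if_true]
    exact ord_zeta 0 (Or.inl rfl)
  · rw [entL_ne_one h]
    rcases χ.even_or_odd with he | ho
    · rw [if_pos ⟨h, he⟩]
      exact ord_even_zero χ.primitiveCharacter_isPrimitive (prim_ne_one h) (prim_even he)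
    · rw [if_neg (fun h1 => DirichletCharacter.not_even_and_odd χ ⟨h1.2, ho⟩)]
      exact ord_odd_zero χ.primitiveCharacter_isPrimitive (prim_odd ho)

lemma entL_neg_one {q : ℕ} [NeZero q] (χ : DirichletCharacter ℂ q) [Decidable χ.Odd] :
    ord (entL χ) (-1) = if χ.Odd then 1 else 0 := by
  have : NeZero χ.conductor := ⟨χ.conductor_ne_zero⟩
  by_cases h : χ = 1
  · have hno : ¬ χ.Odd := by
      rw [h]
      intro ho
      have h1 : (1 : DirichletCharacter ℂ q) (-1) = 1 := by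
        exact MulChar.one_apply isUnit_one.neg
      unfold DirichletCharacter.Odd at ho
      rw [h1] at ho
      norm_num at ho
    rw [if_neg hno]
    simp only [entL, h, if_true]
    exact ord_zeta (-1) (Or.inr (Or.inl rfl))
  · rw [entL_ne_one h]
    rcases χ.even_or_odd with he | ho
    · rw [if_neg (fun h1 => DirichletCharacter.not_even_and_odd χ ⟨he, h1⟩)]
      exact ord_even_neg_one χ.primitiveCharacter_isPrimitive (prim_ne_one h) (prim_even he)
    · rw [if_pos ho]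
      exact ord_odd_neg_one χ.primitiveCharacter_isPrimitive (prim_odd ho)

lemma entL_one {q : ℕ} [NeZero q] (χ : DirichletCharacter ℂ q) : ord (entL χ) 1 = 0 := by
  have : NeZero χ.conductor := ⟨χ.conductor_ne_zero⟩
  by_cases h : χ = 1
  · simp only [entL, h, if_true]
    exact ord_zeta 1 (Or.inr (Or.inr rfl))
  · rw [entL_ne_one h]
    exact ord_one (prim_ne_one h)

lemma ord_sub_one (z : ℂ) : ord (fun s : ℂ => s - 1) z = if z = 1 then 1 else 0 := by
  have ha : AnalyticAt ℂ (fun s : ℂ => s - 1) z := by fun_prop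
  split_ifs with h
  · subst h
    have : analyticOrderAt (fun s : ℂ => s - 1) 1 = ((1 : ℕ) : ℕ∞) := by
      rw [ha.analyticOrderAt_eq_natCast]
      exact ⟨fun _ => 1, analyticAt_const, one_ne_zero, Eventually.of_forall (fun w => by simp)⟩
    unfold ord analyticOrderNatAt
    rw [this]
    rfl
  · have : analyticOrderAt (fun s : ℂ => s - 1) z = 0 := by
      rw [ha.analyticOrderAt_eq_zero]
      exact sub_ne_zero.2 h
    unfold ord analyticOrderNatAt
    rw [this]
    rfl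

/-- Main assembly, for prime coefficients close to a combination of characters. -/
theorem main_chars {a b : ℕ → ℂ} {m : ℕ} {G : ℂ → ℂ} {Q : ℝ} {k : ℕ} {lam : Fin k → ℝ}
    {μ : Fin k → ℂ} {ω : ℂ} (h : Arith a b) (h' : Anal a m G Q lam μ ω) {q : ℕ} [NeZero q]
    (c : DirichletCharacter ℂ q → ℂ) {B : ℝ}
    (h1 : ∀ p : ℕ, p.Prime → ‖a p - ∑ χ, c χ * χ (p : ZMod q)‖ ≤ B / Real.sqrt p)
    (h2 : ∀ p : ℕ, p.Prime → ‖a (p ^ 2)‖ ≤ B) :
    (∀ n : ℕ, b n * (Real.log n : ℂ) = ∑ χ, c χ * starL χ n) ∧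
    (∀ χ, ∃ r : ℚ, c χ = r) ∧
    (∃ n₁ : ℤ, c 1 = n₁) ∧
    (∀ D : DirichletCharacter ℂ q → Prop, (∀ χ, D χ ↔ χ ≠ 1 ∧ χ.Even) →
      ∀ _ : DecidablePred D, ∃ n₂ : ℕ, ∑ χ with D χ, c χ = n₂) ∧
    (∀ D : DirichletCharacter ℂ q → Prop, (∀ χ, D χ ↔ χ.Odd) →
      ∀ _ : DecidablePred D, ∃ n₃ : ℕ, ∑ χ with D χ, c χ = n₃) ∧
    (∃ C : ℝ, ∀ X : ℝ, 3 ≤ X →
      |∑ p ∈ (Finset.range (⌊X⌋₊ + 1)).filter Nat.Prime, ‖a p‖ ^ 2 / (p : ℝ) -
        (∑ χ, ‖c χ‖ ^ 2) * Real.log (Real.log X)| ≤ C) := by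
  classical
  have hs := struct_main h h' c h1 h2
  have hrel := integer_relations h h' c hs
  refine ⟨hs, exponents_rational h h' c hs, ?_, ?_, ?_, ?_⟩
  · have h3 := hrel 1
    simp only [ord_sub_one, if_true, entL_one, Nat.cast_zero, mul_zero, Finset.sum_const_zero,
      add_zero, Nat.cast_one, mul_one] at h3
    refine ⟨(m : ℤ) - (ord G 1 : ℤ), ?_⟩
    push_cast
    rw [h3]
    ring
  · intro D hD hdec
    have h3 := hrel 0
    have e0 : (0 : ℂ) ≠ 1 := zero_ne_one
    simp only [ord_sub_one, e0, if_false, Nat.cast_zero, mul_zero, zero_add] at h3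
    refine ⟨ord G 0, ?_⟩
    rw [h3, Finset.sum_filter]
    refine Finset.sum_congr rfl (fun χ _ => ?_)
    rw [entL_zero]
    by_cases h4 : χ ≠ 1 ∧ χ.Even
    · rw [if_pos h4, if_pos ((hD χ).2 h4)]; simp
    · rw [if_neg h4, if_neg (fun h5 => h4 ((hD χ).1 h5))]; simp
  · intro D hD hdec
    have h3 := hrel (-1)
    have e0 : (-1 : ℂ) ≠ 1 := by norm_num
    simp only [ord_sub_one, e0, if_false, Nat.cast_zero, mul_zero, zero_add] at h3
    refine ⟨ord G (-1), ?_⟩
    rw [h3, Finset.sum_filter]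
    refine Finset.sum_congr rfl (fun χ _ => ?_)
    rw [entL_neg_one]
    by_cases h4 : χ.Odd
    · rw [if_pos h4, if_pos ((hD χ).2 h4)]; simp
    · rw [if_neg h4, if_neg (fun h5 => h4 ((hD χ).1 h5))]; simp
  · obtain ⟨C, hC⟩ := periodic_sum (fun x : ZMod q => ∑ χ, c χ * χ x) h1
    refine ⟨C, fun X hX => ?_⟩
    have h3 := hC X hX
    rwa [parseval c] at h3

end Pool.Agent.Selb
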