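import Pool.Agent.Selb.TrivZ
import Pool.Agent.Selb.Fin0

/-!
# Selb/TrivL: `L(s, χ*)` does not vanish on `re s = 1`, nor at the non-real points of `re s = 0`, `re s = -1`

`entL χ` (in `Integ.lean`) is `LFunctionTrivChar₁ 1 = (s - 1) ζ(s)` if `χ = 1`, and `χ.primitiveCharacter.LFunction`
otherwise (`entL_ne_one` in `Fin0.lean`, `prim_ne_one`). `ord f z = 0` as soon as `f z ≠ 0` (`ord_eq_zero` in `Fac.lean`,
`f` analytic at `z`).
* `ord_line_one`: `LFunction_ne_zero_of_one_le_re`, `riemannZeta_ne_zero_of_one_le_re`; at `s = 1` use `entL_one`.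
* `ord_line_zero` (`t ≠ 0`): `L(s, χ*) = completedLFunction s / gammaFactor s`, `gammaFactor s` is `Gammaℝ s` or `Gammaℝ (s + 1)`, nonzero
  at non-real `s` (`Gammaℝ_eq_zero_iff`; in Lean `x / 0 = 0`, so it is important that it is `≠ 0`), and
  `completedLFunction (t I) ≠ 0` by `IsPrimitive.completedLFunction_one_sub` at `1 - t I` and
  `completedLFunction χ⁻¹ (1 - t I) ≠ 0` (see the private lemmas `comp_ne`, `root_ne`, `comp_ne'` of `TrivZ.lean`:
  `comp_ne'` is exactly `completedLFunction (1 - s) ≠ 0` for `1 ≤ re s`; copy them). For `χ = 1`: `riemannZeta s = completedRiemannZeta s / Gammaℝ s`,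
  `completedRiemannZeta_one_sub`, `riemannZeta_ne_zero_of_one_le_re`, and `s - 1 ≠ 0`.
* `ord_line_neg` (`t ≠ 0`): the same with `s = -1 + t I`, `1 - s = 2 - t I`.
-/

set_option autoImplicit false

open Complex Metric Filter Topology LSeries

namespace Pool.Agent.Selb

section

variable {N : ℕ} [NeZero N] {χ : DirichletCharacter ℂ N}

private lemma trl_lf_eq (hχ : χ ≠ 1) (s : ℂ) :
    χ.LFunction s = χ.completedLFunction s / χ.gammaFactor s :=
  χ.LFunction_eq_completed_div_gammaFactor s (Or.inr (hχ ∘ DirichletCharacter.level_one' _))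

private lemma trl_comp_ne (hχ : χ ≠ 1) {s : ℂ} (hs : 1 ≤ s.re) : χ.completedLFunction s ≠ 0 := by
  intro h0
  apply χ.LFunction_ne_zero_of_one_le_re (Or.inl hχ) hs
  rw [trl_lf_eq hχ, h0, zero_div]

omit [NeZero N] in
private lemma trl_inv_ne (hχ : χ ≠ 1) : χ⁻¹ ≠ 1 := by
  intro h
  exact hχ (inv_eq_one.1 h)

private lemma trl_root_ne (hp : χ.IsPrimitive) (hχ : χ ≠ 1) : χ.rootNumber ≠ 0 := by
  intro h0
  have h := hp.completedLFunction_one_sub (-1)
  rw [h0, mul_zero, zero_mul] at h
  refine trl_comp_ne hχ ?_ h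
  norm_num

private lemma trl_comp_ne' (hp : χ.IsPrimitive) (hχ : χ ≠ 1) {s : ℂ} (hs : 1 ≤ s.re) :
    χ.completedLFunction (1 - s) ≠ 0 := by
  rw [hp.completedLFunction_one_sub s]
  refine mul_ne_zero (mul_ne_zero ?_ (trl_root_ne hp hχ)) (trl_comp_ne (trl_inv_ne hχ) hs)
  rw [Ne, cpow_eq_zero_iff, not_and_or]
  left
  exact_mod_cast NeZero.ne N

private lemma trl_gam_ne {s : ℂ} (hs : s.im ≠ 0) : Gammaℝ s ≠ 0 := by
  intro h0
  obtain ⟨n, hn⟩ := Gammaℝ_eq_zero_iff.1 h0
  apply hs
  rw [hn]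
  simp

private lemma trl_lf_ne (hp : χ.IsPrimitive) (hχ : χ ≠ 1) {z : ℂ} (hz : z.re ≤ 0)
    (hz' : z.im ≠ 0) : χ.LFunction z ≠ 0 := by
  have h1 : χ.completedLFunction z ≠ 0 := by
    have := trl_comp_ne' hp hχ (s := 1 - z) (by
      rw [Complex.sub_re, Complex.one_re]
      linarith)
    rwa [sub_sub_cancel] at this
  rw [trl_lf_eq hχ]
  refine div_ne_zero h1 ?_
  rcases χ.even_or_odd with he | ho
  · rw [he.gammaFactor_def]
    exact trl_gam_ne hz'
  · rw [ho.gammaFactor_def]
    apply trl_gam_ne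
    rw [Complex.add_im, Complex.one_im, add_zero]
    exact hz'

end

private lemma trl_zeta_ne {z : ℂ} (hz : z.re ≤ 0) (hz' : z.im ≠ 0) : riemannZeta z ≠ 0 := by
  have hz0 : z ≠ 0 := by
    rintro rfl
    exact hz' rfl
  have h1z : 1 - z ≠ 0 := by
    intro h
    apply hz'
    have : z = 1 := (sub_eq_zero.1 h).symm
    rw [this]
    rfl
  have h1 : riemannZeta (1 - z) ≠ 0 := by
    apply riemannZeta_ne_zero_of_one_le_re
    rw [Complex.sub_re, Complex.one_re]
    linarith
  rw [riemannZeta_def_of_ne_zero h1z, completedRiemannZeta_one_sub] at h1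
  rw [riemannZeta_def_of_ne_zero hz0]
  refine div_ne_zero (fun h => h1 (by rw [h, zero_div])) (trl_gam_ne hz')

private lemma trl_triv_ne {w : ℂ} (hw : w ≠ 1) (hz : riemannZeta w ≠ 0) :
    DirichletCharacter.LFunctionTrivChar₁ 1 w ≠ 0 := by
  intro h0
  unfold DirichletCharacter.LFunctionTrivChar₁ at h0
  rw [Function.update_of_ne hw] at h0
  revert h0
  apply mul_ne_zero (sub_ne_zero.2 hw)
  rw [DirichletCharacter.LFunctionTrivChar, DirichletCharacter.LFunction_modOne_eq]
  exact hz

private lemma trl_left {q : ℕ} [NeZero q] (χ : DirichletCharacter ℂ q) {z : ℂ} (hz : z.re ≤ 0)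
    (hz' : z.im ≠ 0) : ord (entL χ) z = 0 := by
  have : NeZero χ.conductor := ⟨χ.conductor_ne_zero⟩
  by_cases h : χ = 1
  · simp only [entL, h, if_true]
    apply ord_eq_zero
    apply trl_triv_ne _ (trl_zeta_ne hz hz')
    rintro rfl
    exact hz' rfl
  · rw [entL_ne_one h]
    apply ord_eq_zero
    exact trl_lf_ne χ.primitiveCharacter_isPrimitive (prim_ne_one h) hz hz'

private lemma trl_hone {s : ℂ} (hs1 : 1 < s.re) : s ≠ 1 := by
  intro h0
  rw [h0] at hs1
  simp at hs1

private lemma trl_hP {s : ℂ} (hs1 : 1 < s.re) : DirichletCharacter.LFunctionTrivChar₁ 1 s =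
    (s - 1) * riemannZeta s := by
  rw [DirichletCharacter.LFunctionTrivChar₁, Function.update_of_ne (trl_hone hs1),
    DirichletCharacter.LFunctionTrivChar, DirichletCharacter.LFunction_modOne_eq]

variable {q : ℕ} [NeZero q]

theorem ord_line_one (χ : DirichletCharacter ℂ q) {z : ℂ} (hz : z.re = 1) :
    ord (entL χ) z = 0 := by
  have : NeZero χ.conductor := ⟨χ.conductor_ne_zero⟩
  by_cases h1 : z = 1
  · rw [h1]
    exact entL_one χ
  · by_cases h : χ = 1
    · simp only [entL, h, if_true]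
      apply ord_eq_zero
      exact trl_triv_ne h1 (riemannZeta_ne_zero_of_one_le_re hz.ge)
    · rw [entL_ne_one h]
      apply ord_eq_zero
      exact DirichletCharacter.LFunction_ne_zero_of_one_le_re _ (Or.inl (prim_ne_one h)) hz.ge

theorem ord_line_zero (χ : DirichletCharacter ℂ q) {z : ℂ} (hz : z.re = 0) (hz' : z.im ≠ 0) :
    ord (entL χ) z = 0 := by
  exact trl_left χ hz.le hz'

theorem ord_line_neg (χ : DirichletCharacter ℂ q) {z : ℂ} (hz : z.re = -1) (hz' : z.im ≠ 0) :
    ord (entL χ) z = 0 := by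
  exact trl_left χ (by rw [hz]; norm_num) hz'

theorem entL_diff (χ : DirichletCharacter ℂ q) : Differentiable ℂ (entL χ) := by
  have : NeZero χ.conductor := ⟨χ.conductor_ne_zero⟩
  by_cases h1 : χ = 1
  · simp only [entL, h1, if_true]
    exact DirichletCharacter.differentiable_LFunctionTrivChar₁ 1
  · rw [entL_ne_one h1]
    exact DirichletCharacter.differentiable_LFunction (prim_ne_one h1)

theorem entL_ne (χ : DirichletCharacter ℂ q) {s : ℂ} (hs : 1 < s.re) : entL χ s ≠ 0 := by
  have : NeZero χ.conductor := ⟨χ.conductor_ne_zero⟩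
  by_cases h1 : χ = 1
  · simp only [entL, h1, if_true]
    rw [trl_hP hs]
    exact mul_ne_zero (sub_ne_zero.2 (trl_hone hs)) (riemannZeta_ne_zero_of_one_le_re hs.le)
  · rw [entL_ne_one h1]
    exact DirichletCharacter.LFunction_ne_zero_of_one_le_re _ (Or.inr (trl_hone hs)) hs.le

open Classical in
theorem entL_logDeriv (χ : DirichletCharacter ℂ q) {s : ℂ} (hs : 1 < s.re) :
    logDeriv (entL χ) s = (if χ = 1 then 1 / (s - 1) else 0) - LSeries (starL χ) s := by
  by_cases h1 : χ = 1
  · subst h1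
    simp only [entL, if_true]
    have e : starL (1 : DirichletCharacter ℂ q) =
        fun n => (ArithmeticFunction.vonMangoldt n : ℂ) := by
      funext n
      rw [starL, star_one, one_mul]
    have h2 : DirichletCharacter.LFunctionTrivChar₁ 1 =ᶠ[𝓝 s]
        fun w => (w - 1) * riemannZeta w := by
      filter_upwards [(isOpen_half 1).mem_nhds (show (1 : ℝ) < s.re from hs)] with w hw
      exact trl_hP hw
    have hz0 : riemannZeta s ≠ 0 := riemannZeta_ne_zero_of_one_le_re hs.le
    have hs0 : s - 1 ≠ 0 := sub_ne_zero.2 (trl_hone hs)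
    have hzd : DifferentiableAt ℂ riemannZeta s := differentiableAt_riemannZeta (trl_hone hs)
    rw [logDeriv_apply, h2.deriv_eq, trl_hP hs, ← logDeriv_apply (fun w => (w - 1) * riemannZeta w),
      logDeriv_mul (f := fun w : ℂ => w - 1) s hs0 hz0 (by fun_prop) hzd, e,
      ArithmeticFunction.LSeries_vonMangoldt_eq_deriv_riemannZeta_div hs, logDeriv_apply,
      logDeriv_apply]
    simp only [deriv_sub_const, deriv_id'']
    ring
  · have : NeZero χ.conductor := ⟨χ.conductor_ne_zero⟩
    rw [entL_ne_one h1, if_neg h1, zero_sub, logDeriv_apply,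
      DirichletCharacter.deriv_LFunction_eq_deriv_LSeries _ hs,
      DirichletCharacter.LFunction_eq_LSeries _ hs]
    have h2 := DirichletCharacter.LSeries_twist_vonMangoldt_eq χ.primitiveCharacter hs
    have e : starL χ = (fun n : ℕ => χ.primitiveCharacter (n : ZMod χ.conductor)) *
        (fun n : ℕ => (ArithmeticFunction.vonMangoldt n : ℂ)) := rfl
    rw [e, h2]
    ring

end Pool.Agent.Selb
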