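import Pool.Agent.Selb.SpanS
import Pool.Agent.Selb.OscA
import Pool.Agent.Selb.TrivL
import Pool.Agent.Selb.Fin1

/-!
# Selb/DirA: combinations of shifted Dirichlet characters
-/

set_option autoImplicit false

open Complex Metric Filter Topology LSeries

namespace Pool.Agent.Selb

section

variable {q : ℕ} [NeZero q]

/-- order of `L(s, χ*)` at `z` -/
noncomputable def LOrd (χ : DirichletCharacter ℂ q) (z : ℂ) : ℤ :=
  haveI : NeZero χ.conductor := ⟨χ.conductor_ne_zero⟩
  (meromorphicOrderAt χ.primitiveCharacter.LFunction z).untop₀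

lemma modOne_LFunction {N : ℕ} [NeZero N] (hN : N = 1) (χ : DirichletCharacter ℂ N) :
    χ.LFunction = riemannZeta := by
  subst hN
  funext s
  rw [DirichletCharacter.LFunction_modOne_eq]

lemma mero_of_ord {f : ℂ → ℂ} (hf : Differentiable ℂ f) (hne : ∃ z, f z ≠ 0) (z : ℂ) :
    meromorphicOrderAt f z = ((ord f z : ℤ) : WithTop ℤ) := by
  have h1 := order_ne_top hf hne z
  have h2 : analyticOrderAt f z = ((ord f z : ℕ) : ℕ∞) := by
    unfold ord analyticOrderNatAt
    exact (ENat.natCast_toNat h1).symm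
  rw [(hf.analyticAt z).meromorphicOrderAt_eq, h2]
  rfl

open Classical in
lemma LOrd_eq (χ : DirichletCharacter ℂ q) (z : ℂ) :
    LOrd χ z = (ord (entL χ) z : ℤ) -
      (if χ = 1 then (ord (fun s : ℂ => s - 1) z : ℤ) else 0) := by
  have : NeZero χ.conductor := ⟨χ.conductor_ne_zero⟩
  by_cases h : χ = 1
  · have hN : χ.conductor = 1 := by rw [h, DirichletCharacter.conductor_one]
    have e1 : χ.primitiveCharacter.LFunction = riemannZeta := modOne_LFunction hN _
    rw [if_pos h, LOrd, e1]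
    have e2 : entL χ = DirichletCharacter.LFunctionTrivChar₁ 1 := by
      simp only [entL, h, if_true]
    have hd : Differentiable ℂ (fun s : ℂ => s - 1) := by fun_prop
    have e3 : riemannZeta =ᶠ[𝓝[≠] z]
        (entL χ * (fun s : ℂ => s - 1)⁻¹) := by
      have hz : ∀ᶠ w in 𝓝[≠] z, w ≠ 1 := by
        by_cases hz1 : z = 1
        · rw [hz1]
          exact self_mem_nhdsWithin
        · exact nhdsWithin_le_nhds (isOpen_ne.mem_nhds hz1)
      filter_upwards [hz] with w hw
      rw [Pi.mul_apply, Pi.inv_apply, e2, DirichletCharacter.LFunctionTrivChar₁,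
        Function.update_of_ne hw, DirichletCharacter.LFunctionTrivChar,
        DirichletCharacter.LFunction_modOne_eq]
      have := sub_ne_zero.2 hw
      field_simp
    have hne : ∃ w : ℂ, entL χ w ≠ 0 := ⟨2, entL_ne χ (by norm_num)⟩
    have hne' : ∃ w : ℂ, (fun s : ℂ => s - 1) w ≠ 0 := ⟨2, by norm_num⟩
    have hm1 := ((entL_diff χ).analyticAt z).meromorphicAt
    have hm2 := (hd.analyticAt z).meromorphicAt
    rw [meromorphicOrderAt_congr e3, meromorphicOrderAt_mul hm1 hm2.inv, meromorphicOrderAt_inv,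
      mero_of_ord (entL_diff χ) hne, mero_of_ord hd hne']
    rfl
  · rw [if_neg h, sub_zero, LOrd, ← entL_ne_one h, mero_of_ord (entL_diff χ) ⟨2, entL_ne χ (by norm_num)⟩]
    rfl

open Classical in
lemma cont_starL (χ : DirichletCharacter ℂ q) :
    Cont (starL χ) (if χ = 1 then 1 else 0) (entL χ) := by
  refine ⟨entL_diff χ, fun s hs => entL_ne χ hs, fun s hs => ?_⟩
  rw [entL_logDeriv χ hs]
  split_ifs <;> simp

lemma sys_starL (χ : DirichletCharacter ℂ q) : Sys (starL χ) := by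
  obtain ⟨Ψ, m, E, hG⟩ := good_star χ
  exact ⟨⟨_, _, _, _, hG.toP⟩, fun n hn => starL_supp χ n hn, starL_high χ⟩

variable {J : Type*} [Fintype J] {θ : J → ℝ} {X : J → DirichletCharacter ℂ q} {c : J → ℂ}

lemma norm_comb_le (θ : J → ℝ) (X : J → DirichletCharacter ℂ q) (c : J → ℂ) {p : ℕ}
    (hp : p.Prime) : ‖∑ j, c j * (X j (p : ZMod q) * osc (θ j) p)‖ ≤ ∑ j, ‖c j‖ := by
  refine (norm_sum_le _ _).trans (Finset.sum_le_sum (fun j _ => ?_))
  rw [norm_mul, norm_mul, norm_osc _ hp.pos, mul_one]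
  exact mul_le_of_le_one_right (norm_nonneg _) (DirichletCharacter.norm_le_one _ _)

theorem dir_relation {a b : ℕ → ℂ} (hF : InS a b)
    (h1 : SmallAt (1 / 2) (fun p => a p - ∑ j, c j * (X j (p : ZMod q) * osc (θ j) p)))
    (h2 : SmallAt 1 (fun p => a (p ^ 2))) (n : ℕ) :
    b n * (Real.log n : ℂ) = ∑ j, c j * starT (X j) (θ j) n := by
  classical
  set L : Option J → ℕ → ℂ := fun o => o.elim (fun n => b n * (Real.log n : ℂ))
    (fun j => starT (X j) (θ j)) with hL
  set cc : Option J → ℂ := fun o => o.elim 1 (fun j => -c j) with hcc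
  have hS : ∀ o, Sys (L o) := by
    rintro (_ | j)
    · exact hF.sys
    · exact sys_starT (X j) (θ j)
  have hcomb : ∀ n, comb cc L n = b n * (Real.log n : ℂ) - ∑ j, c j * starT (X j) (θ j) n := by
    intro n
    simp only [comb, Fintype.sum_option, hcc, hL, Option.elim]
    rw [one_mul, sub_eq_add_neg, ← Finset.sum_neg_distrib]
    congr 1
    exact Finset.sum_congr rfl (fun j _ => by ring)
  have hlog : ∀ p : ℕ, p.Prime → (Real.log p : ℂ) ≠ 0 := by
    intro p hp
    have h8 : (1 : ℝ) < p := by exact_mod_cast hp.one_lt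
    exact_mod_cast (Real.log_pos h8).ne'
  set x : ℕ → ℂ := fun p => a p - ∑ j, c j * (X j (p : ZMod q) * osc (θ j) p) with hx
  set x' : ℕ → ℂ := fun p => comb cc L p / (Real.log p : ℂ) with hx'
  set y' : ℕ → ℂ := fun p => comb cc L (p ^ 2) / (Real.log p : ℂ) with hy'
  have hx1 : SmallAt (1 / 2) x' := by
    refine h1.of_eq_off (NeZero.ne q) (fun p hp hpq => ?_)
    have hpc : p.Coprime q := (Nat.Prime.coprime_iff_not_dvd hp).2 hpq
    simp only [hx']
    rw [hcomb p, div_eq_iff (hlog p hp), ← hF.arith.at_prime hp, sub_mul, Finset.sum_mul]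
    congr 1
    exact Finset.sum_congr rfl (fun j _ => by rw [starT_prime _ _ hp hpc]; ring)
  have hy1 : SmallAt 1 y' := by
    have hw : SmallAt 1 (fun p : ℕ => -∑ j, c j * starT (X j) (θ j) (p ^ 2) / (Real.log p : ℂ)) := by
      refine smallAt_of_bounded (R := ∑ j, ‖c j‖) (fun p hp => ?_)
      rw [norm_neg]
      refine (norm_sum_le _ _).trans (Finset.sum_le_sum (fun j _ => ?_))
      have hl : 0 < Real.log p := Real.log_pos (by exact_mod_cast hp.one_lt)
      rw [norm_div, norm_mul, Complex.norm_real, Real.norm_of_nonneg hl.le, div_le_iff₀ hl]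
      refine mul_le_mul_of_nonneg_left ?_ (norm_nonneg _)
      refine (norm_starT_le _ _ _).trans (le_of_eq ?_)
      rw [ArithmeticFunction.vonMangoldt_apply_pow two_ne_zero,
        ArithmeticFunction.vonMangoldt_apply_prime hp]
    have hsq := smallAt_sq (x := x) h1 (f := fun p => ∑ j, c j * (X j (p : ZMod q) * osc (θ j) p))
      (R := ∑ j, ‖c j‖) (fun p hp => norm_comb_le θ X c hp)
    refine (((h2.const_mul 2).add (hsq.const_mul (-1))).add hw).congr (fun p hp => ?_)
    simp only [hy', hx]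
    rw [hcomb (p ^ 2), hF.arith.at_sq hp, hF.arith.at_prime hp]
    have : (Real.log ((p ^ 2 : ℕ) : ℝ) : ℂ) = 2 * (Real.log p : ℂ) := by
      push_cast
      rw [Real.log_pow]
      push_cast
      ring
    rw [this, ← Finset.sum_div]
    have h0 := hlog p hp
    field_simp
    ring
  have key := rigid_small hS cc (x := x') (y := y')
    (fun p hp => by simp only [hx']; rw [div_mul_cancel₀ _ (hlog p hp)])
    (fun p hp => by simp only [hy']; rw [div_mul_cancel₀ _ (hlog p hp)]) hx1 hy1 n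
  rw [hcomb n] at key
  exact sub_eq_zero.1 key

theorem dir_prime {a b : ℕ → ℂ} (hF : InS a b)
    (hs : ∀ n : ℕ, b n * (Real.log n : ℂ) = ∑ j, c j * starT (X j) (θ j) n) {p : ℕ}
    (hp : p.Prime) (hpq : p.Coprime q) : a p = ∑ j, c j * X j (p : ZMod q) * osc (θ j) p := by
  have hl : (Real.log p : ℂ) ≠ 0 := by
    have h8 : (1 : ℝ) < p := by exact_mod_cast hp.one_lt
    exact_mod_cast (Real.log_pos h8).ne'
  refine mul_right_cancel₀ hl ?_
  rw [hF.arith.at_prime hp, hs p, Finset.sum_mul]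
  exact Finset.sum_congr rfl (fun j _ => by rw [starT_prime _ _ hp hpq]; ring)

theorem dir_asym (hinj : Function.Injective (fun j => (θ j, X j))) {a b : ℕ → ℂ} (hF : InS a b)
    (hs : ∀ n : ℕ, b n * (Real.log n : ℂ) = ∑ j, c j * starT (X j) (θ j) n) :
    ∃ C : ℝ, ∀ Y : ℝ, 3 ≤ Y →
      |∑ p ∈ (Finset.range (⌊Y⌋₊ + 1)).filter Nat.Prime, ‖a p‖ ^ 2 / (p : ℝ) -
        (∑ j, ‖c j‖ ^ 2) * Real.log (Real.log Y)| ≤ C := by
  obtain ⟨C, hC⟩ := pair_mertens hinj c
  set D : ℝ := ∑ p ∈ Finset.range (q + 1), (‖a p‖ ^ 2 / (p : ℝ) +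
    ‖∑ j, c j * X j (p : ZMod q) * osc (θ j) p‖ ^ 2 / (p : ℝ)) with hD
  refine ⟨C + D, fun Y hY => ?_⟩
  have h1 := hC Y hY
  set S : Finset ℕ := (Finset.range (⌊Y⌋₊ + 1)).filter Nat.Prime with hS
  have h2 : |∑ p ∈ S, ‖a p‖ ^ 2 / (p : ℝ) -
      ∑ p ∈ S, ‖∑ j, c j * X j (p : ZMod q) * osc (θ j) p‖ ^ 2 / (p : ℝ)| ≤ D := by
    rw [← Finset.sum_sub_distrib]
    refine (Finset.abs_sum_le_sum_abs _ _).trans ?_
    have h3 : ∑ p ∈ S, |‖a p‖ ^ 2 / (p : ℝ) -
        ‖∑ j, c j * X j (p : ZMod q) * osc (θ j) p‖ ^ 2 / (p : ℝ)| =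
        ∑ p ∈ S.filter (fun p => p ∣ q), |‖a p‖ ^ 2 / (p : ℝ) -
        ‖∑ j, c j * X j (p : ZMod q) * osc (θ j) p‖ ^ 2 / (p : ℝ)| := by
      refine (Finset.sum_filter_of_ne (fun p hp hne => ?_)).symm
      by_contra hpq
      have hpp := (Finset.mem_filter.1 hp).2
      apply hne
      rw [dir_prime hF hs hpp ((Nat.Prime.coprime_iff_not_dvd hpp).2 hpq), sub_self, abs_zero]
    rw [h3, hD]
    refine (Finset.sum_le_sum (fun p _ => ?_)).trans
      (Finset.sum_le_sum_of_subset_of_nonneg (s := S.filter (fun p => p ∣ q))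
        (t := Finset.range (q + 1)) ?_ (fun p _ _ => by positivity))
    · have e1 : 0 ≤ ‖a p‖ ^ 2 / (p : ℝ) := by positivity
      have e2 : 0 ≤ ‖∑ j, c j * X j (p : ZMod q) * osc (θ j) p‖ ^ 2 / (p : ℝ) := by positivity
      rw [abs_le]
      constructor <;> linarith
    · intro p hp
      have h4 := (Finset.mem_filter.1 hp).2
      have := Nat.le_of_dvd (Nat.pos_of_ne_zero (NeZero.ne q)) h4
      exact Finset.mem_range.2 (by omega)
  have h3 := abs_le.1 h1
  have h4 := abs_le.1 h2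
  rw [abs_le]
  constructor <;> linarith

theorem dir_rational (hinj : Function.Injective (fun j => (θ j, X j))) {a b : ℕ → ℂ} (hF : InS a b)
    (hs : ∀ n : ℕ, b n * (Real.log n : ℂ) = ∑ j, c j * starT (X j) (θ j) n) (j : J) :
    ∃ r : ℚ, c j = r := by
  refine rational_sys (Λ := fun j => starT (X j) (θ j)) hF.sys
    (fun j => sys_starT (X j) (θ j)) (c := c) hs (fun d hd => ?_) j
  refine pair_indep hinj d (fun p hp hpq => ?_)
  have h1 := hd p hp
  have h2 : ∑ i, d i * starT (X i) (θ i) p =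
      (∑ j, d j * X j (p : ZMod q) * osc (θ j) p) * (Real.log p : ℂ) := by
    rw [Finset.sum_mul]
    exact Finset.sum_congr rfl (fun j _ => by rw [starT_prime _ _ hp hpq]; ring)
  rw [h2] at h1
  refine (mul_eq_zero.1 h1).resolve_right ?_
  have : Real.log p ≠ 0 := by
    have h8 : (1 : ℝ) < p := by exact_mod_cast hp.one_lt
    exact (Real.log_pos h8).ne'
  exact_mod_cast this

/-- the orders -/
theorem dir_order {a b : ℕ → ℂ} (hF : InS a b) {m : ℕ} {G : ℂ → ℂ}
    (hd : Differentiable ℂ G) (hc : ∀ s : ℂ, 1 < s.re → G s = (s - 1) ^ m * LSeries a s)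
    (hs : ∀ n : ℕ, b n * (Real.log n : ℂ) = ∑ j, c j * starT (X j) (θ j) n) (z : ℂ) :
    (ord G z : ℂ) - (m : ℂ) * (ord (fun s : ℂ => s - 1) z : ℂ) =
      ∑ j, c j * (LOrd (X j) (z + θ j * I) : ℂ) := by
  classical
  rw [order_relation (Λ := fun j => starL (X j)) (fun j => sys_starL (X j)) (hF.cont hd hc)
    (fun j => cont_starL (X j)) (c := c) (θ := θ) hs z]
  refine Finset.sum_congr rfl (fun j _ => ?_)
  rw [LOrd_eq]
  push_cast
  split_ifs <;> simp

lemma ord_sub_one_ne {z : ℂ} (h : z ≠ 1) : ord (fun s : ℂ => s - 1) z = 0 := by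
  classical
  rw [ord_sub_one, if_neg h]

open Classical in
lemma LOrd_line_one (χ : DirichletCharacter ℂ q) {z : ℂ} (hz : z.re = 1) :
    LOrd χ z = if χ = 1 ∧ z = 1 then -1 else 0 := by
  rw [LOrd_eq, ord_line_one χ hz]
  by_cases h : χ = 1
  · by_cases h' : z = 1
    · rw [if_pos h, if_pos ⟨h, h'⟩, h', ord_sub_one, if_pos rfl]
      norm_num
    · rw [if_pos h, if_neg (fun h3 => h' h3.2), ord_sub_one, if_neg h']
      norm_num
  · rw [if_neg h, if_neg (fun h3 => h h3.1)]
    norm_num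

open Classical in
lemma LOrd_line_zero (χ : DirichletCharacter ℂ q) {z : ℂ} (hz : z.re = 0) :
    LOrd χ z = if z = 0 ∧ χ ≠ 1 ∧ χ.Even then 1 else 0 := by
  have h1 : z ≠ 1 := by
    intro h
    rw [h] at hz
    norm_num at hz
  rw [LOrd_eq, ord_sub_one_ne h1]
  by_cases h : z = 0
  · rw [h, entL_zero]
    split_ifs <;> simp_all
  · have him : z.im ≠ 0 := fun h2 => h (Complex.ext hz h2)
    rw [ord_line_zero χ hz him, if_neg (fun h3 : z = 0 ∧ χ ≠ 1 ∧ χ.Even => h h3.1)]
    simp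

open Classical in
lemma LOrd_line_neg (χ : DirichletCharacter ℂ q) {z : ℂ} (hz : z.re = -1) :
    LOrd χ z = if z = -1 ∧ χ.Odd then 1 else 0 := by
  have h1 : z ≠ 1 := by
    intro h
    rw [h] at hz
    norm_num at hz
  rw [LOrd_eq, ord_sub_one_ne h1]
  by_cases h : z = -1
  · rw [h, entL_neg_one]
    split_ifs <;> simp_all
  · have him : z.im ≠ 0 := fun h2 => h (Complex.ext (by simpa using hz) (by simpa using h2))
    rw [ord_line_neg χ hz him, if_neg (fun h3 : z = -1 ∧ χ.Odd => h h3.1)]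
    simp

/-- principal characters have integral exponents -/
theorem dir_pole (hinj : Function.Injective (fun j => (θ j, X j))) {a b : ℕ → ℂ} (hF : InS a b)
    (hs : ∀ n : ℕ, b n * (Real.log n : ℂ) = ∑ j, c j * starT (X j) (θ j) n) {j0 : J}
    (hj : X j0 = 1) : ∃ n : ℤ, c j0 = n ∧ (θ j0 ≠ 0 → n ≤ 0) := by
  classical
  obtain ⟨m, G, Q, k, lam, μ, ω, h'⟩ := hF.anal
  have h1 := dir_order hF h'.diff h'.cont hs (1 - θ j0 * I)
  have hre : ∀ j, (1 - (θ j0 : ℂ) * I + θ j * I).re = 1 := fun j => by simp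
  have h2 : ∑ j, c j * (LOrd (X j) (1 - θ j0 * I + θ j * I) : ℂ) = -c j0 := by
    rw [Finset.sum_eq_single j0]
    · rw [LOrd_line_one _ (hre j0), if_pos ⟨hj, by ring⟩]
      push_cast
      ring
    · intro j _ hne
      rw [LOrd_line_one _ (hre j), if_neg]
      · simp
      · rintro ⟨h3, h4⟩
        apply hne
        apply hinj
        have h5 : θ j = θ j0 := by
          have h6 := congrArg Complex.im h4
          simp at h6
          linarith
        simp only [Prod.mk.injEq]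
        exact ⟨h5, by rw [h3, hj]⟩
    · intro h3
      exact absurd (Finset.mem_univ _) h3
  rw [h2, ord_sub_one] at h1
  refine ⟨(m : ℤ) * (if (1 - (θ j0 : ℂ) * I) = 1 then 1 else 0) - (ord G (1 - θ j0 * I) : ℤ), ?_, ?_⟩
  · split_ifs at h1 ⊢ <;> push_cast at h1 ⊢ <;> linear_combination h1
  · intro hθ
    have h3 : (1 - (θ j0 : ℂ) * I) ≠ 1 := by
      intro h4
      have h5 := congrArg Complex.im h4
      simp at h5
      exact hθ h5
    rw [if_neg h3]
    have := Int.natCast_nonneg (ord G (1 - θ j0 * I))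
    omega

theorem dir_even {a b : ℕ → ℂ} (hF : InS a b)
    (hs : ∀ n : ℕ, b n * (Real.log n : ℂ) = ∑ j, c j * starT (X j) (θ j) n) (τ : ℝ)
    (D : J → Prop) (hD : ∀ j, D j ↔ θ j = τ ∧ X j ≠ 1 ∧ (X j).Even) (_ : DecidablePred D) :
    ∃ n : ℕ, ∑ j with D j, c j = n := by
  classical
  obtain ⟨m, G, Q, k, lam, μ, ω, h'⟩ := hF.anal
  have h1 := dir_order hF h'.diff h'.cont hs (-(τ * I))
  have hre : ∀ j, (-(τ * I) + (θ j : ℂ) * I).re = 0 := fun j => by simp
  have h0 : (-(τ * I : ℂ)) ≠ 1 := by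
    intro h
    have := congrArg Complex.re h
    simp at this
  rw [ord_sub_one_ne h0] at h1
  refine ⟨ord G (-(τ * I)), ?_⟩
  rw [Nat.cast_zero, mul_zero, sub_zero] at h1
  rw [h1, Finset.sum_filter]
  refine Finset.sum_congr rfl (fun j _ => ?_)
  rw [LOrd_line_zero _ (hre j)]
  have hiff : (-(τ * I) + (θ j : ℂ) * I = 0) ↔ θ j = τ := by
    constructor
    · intro h
      have := congrArg Complex.im h
      simp at this
      linarith
    · intro h
      rw [h]
      ring
  by_cases h2 : D j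
  · have h3 := (hD j).1 h2
    rw [if_pos h2, if_pos ⟨hiff.2 h3.1, h3.2⟩]
    simp
  · rw [if_neg h2, if_neg (fun h3 => h2 ((hD j).2 ⟨hiff.1 h3.1, h3.2⟩))]
    simp

theorem dir_odd {a b : ℕ → ℂ} (hF : InS a b)
    (hs : ∀ n : ℕ, b n * (Real.log n : ℂ) = ∑ j, c j * starT (X j) (θ j) n) (τ : ℝ)
    (D : J → Prop) (hD : ∀ j, D j ↔ θ j = τ ∧ (X j).Odd) (_ : DecidablePred D) :
    ∃ n : ℕ, ∑ j with D j, c j = n := by
  classical
  obtain ⟨m, G, Q, k, lam, μ, ω, h'⟩ := hF.anal
  have h1 := dir_order hF h'.diff h'.cont hs (-1 - τ * I)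
  have hre : ∀ j, (-1 - τ * I + (θ j : ℂ) * I).re = -1 := fun j => by simp
  have h0 : (-1 - (τ * I : ℂ)) ≠ 1 := by
    intro h
    have := congrArg Complex.re h
    simp at this
    linarith
  rw [ord_sub_one_ne h0] at h1
  refine ⟨ord G (-1 - τ * I), ?_⟩
  rw [Nat.cast_zero, mul_zero, sub_zero] at h1
  rw [h1, Finset.sum_filter]
  refine Finset.sum_congr rfl (fun j _ => ?_)
  rw [LOrd_line_neg _ (hre j)]
  have hiff : (-1 - τ * I + (θ j : ℂ) * I = -1) ↔ θ j = τ := by
    constructor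
    · intro h
      have := congrArg Complex.im h
      simp at this
      linarith
    · intro h
      rw [h]
      ring
  by_cases h2 : D j
  · have h3 := (hD j).1 h2
    rw [if_pos h2, if_pos ⟨hiff.2 h3.1, h3.2⟩]
    simp
  · rw [if_neg h2, if_neg (fun h3 => h2 ((hD j).2 ⟨hiff.1 h3.1, h3.2⟩))]
    simp

/-- fibre sums of the exponents are integers when the Euler factor is rational -/
theorem dir_fibre {b : ℕ → ℂ}
    (hs : ∀ n : ℕ, b n * (Real.log n : ℂ) = ∑ j, c j * starT (X j) (θ j) n) {r : ℕ} (hr : r.Prime)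
    (hrq : r.Coprime q) (S T : Multiset ℂ)
    (hST : ∀ k : ℕ, 1 ≤ k → (k : ℂ) * b (r ^ k) =
      (S.map (fun y => y ^ k)).sum - (T.map (fun y => y ^ k)).sum)
    (y0 : ℂ) (D : J → Prop) (hD : ∀ j, D j ↔ X j (r : ZMod q) * osc (θ j) r = y0)
    (hdec : DecidablePred D) : ∃ n : ℤ, ∑ j with D j, c j = n := by
  classical
  set x : J → ℂ := fun j => X j (r : ZMod q) * osc (θ j) r with hx
  set V : Finset ℂ := Finset.univ.image x with hV
  by_cases hy0 : y0 ∈ V
  swap
  · refine ⟨0, ?_⟩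
    rw [Finset.sum_eq_zero]
    · simp
    · intro j hj
      exfalso
      apply hy0
      rw [← (hD j).1 (Finset.mem_filter.1 hj).2]
      exact Finset.mem_image_of_mem x (Finset.mem_univ j)
  set cV : V → ℂ := fun y => ∑ j with x j = (y : ℂ), c j with hcV
  have hru : IsUnit (r : ZMod q) := (ZMod.isUnit_iff_coprime r q).2 hrq
  have hne : ∀ y : V, (y : ℂ) ≠ 0 := by
    intro y
    obtain ⟨j, -, hj⟩ := Finset.mem_image.1 y.2
    rw [← hj]
    refine mul_ne_zero (hru.map (X j)).ne_zero ?_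
    intro h0
    have h1 := norm_osc (θ j) hr.pos
    rw [h0, norm_zero] at h1
    exact zero_ne_one h1
  have hlog : (Real.log r : ℂ) ≠ 0 := by
    have h8 : (1 : ℝ) < r := by exact_mod_cast hr.one_lt
    exact_mod_cast (Real.log_pos h8).ne'
  have hpow : ∀ k : ℕ, 1 ≤ k → ∑ y : V, cV y * (y : ℂ) ^ k =
      (S.map (fun y => y ^ k)).sum - (T.map (fun y => y ^ k)).sum := by
    intro k hk
    rw [← hST k hk]
    have h1 := hs (r ^ k)
    have h2 : (Real.log (r ^ k : ℕ) : ℂ) = (k : ℂ) * (Real.log r : ℂ) := by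
      push_cast
      rw [Real.log_pow]
      push_cast
      ring
    rw [h2] at h1
    have h3 : ∑ j, c j * starT (X j) (θ j) (r ^ k) = (∑ j, c j * x j ^ k) * (Real.log r : ℂ) := by
      rw [Finset.sum_mul]
      exact Finset.sum_congr rfl (fun j _ => by
        rw [starT_pow (X j) (θ j) hr hrq (by omega)]; ring)
    rw [h3] at h1
    have h4 : (k : ℂ) * b (r ^ k) = ∑ j, c j * x j ^ k := by
      refine mul_right_cancel₀ hlog ?_
      rw [← h1]; ring
    rw [h4]
    have h5 : ∑ y : V, cV y * (y : ℂ) ^ k = ∑ y ∈ V,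
        ∑ j with x j = y, c j * x j ^ k := by
      rw [← Finset.sum_coe_sort V (fun y => ∑ j with x j = y, c j * x j ^ k)]
      refine Finset.sum_congr rfl (fun y _ => ?_)
      rw [hcV]
      simp only
      rw [Finset.sum_mul]
      refine Finset.sum_congr rfl (fun j hj => ?_)
      rw [(Finset.mem_filter.1 hj).2]
    rw [h5]
    exact Finset.sum_fiberwise_of_maps_to (s := Finset.univ) (t := V)
      (g := x) (fun j _ => Finset.mem_image_of_mem _ (Finset.mem_univ j))
      (fun j => c j * x j ^ k)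
  obtain ⟨n, hn⟩ := int_of_power_sums (fun y : V => (y : ℂ)) Subtype.val_injective hne cV S T hpow
    ⟨y0, hy0⟩
  refine ⟨n, ?_⟩
  rw [← hn, hcV]
  simp only
  refine Finset.sum_congr ?_ (fun _ _ => rfl)
  ext j
  simp only [Finset.mem_filter, Finset.mem_univ, true_and]
  exact hD j

end

end Pool.Agent.Selb
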