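import Pool.Agent.Selb.DirA

/-!
# Selb/DirB: integrality for combinations of shifted Dirichlet characters
-/

set_option autoImplicit false

open Complex Metric Filter Topology LSeries

namespace Pool.Agent.Selb

section

variable {q : ℕ} [NeZero q] {J : Type*} [Fintype J] {θ : J → ℝ}
    {X : J → DirichletCharacter ℂ q}

/-- the Euler factor at `r` is a quotient of finite products of factors `1 - y r^{-s}` -/
def RatAt (b : ℕ → ℂ) (r : ℕ) : Prop :=
  ∃ S T : Multiset ℂ, ∀ k : ℕ, 1 ≤ k → (k : ℂ) * b (r ^ k) =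
    (S.map (fun y => y ^ k)).sum - (T.map (fun y => y ^ k)).sum

open Classical in
/-- generators of the lattice of known integral relations -/
def Gen (b : ℕ → ℂ) (θ : J → ℝ) (X : J → DirichletCharacter ℂ q) : Set (J → ℤ) :=
  {v | (∃ z : ℂ, ∀ j, v j = LOrd (X j) (z + θ j * I)) ∨
    ∃ (r : ℕ) (y : ℂ), r.Prime ∧ r.Coprime q ∧ RatAt b r ∧
      ∀ j, v j = if X j (r : ZMod q) * osc (θ j) r = y then 1 else 0}

theorem gen_integral {a b : ℕ → ℂ} (hF : InS a b) {c : J → ℂ}
    (hs : ∀ n : ℕ, b n * (Real.log n : ℂ) = ∑ j, c j * starT (X j) (θ j) n) {v : J → ℤ}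
    (hv : v ∈ AddSubgroup.closure (Gen b θ X)) : ∃ n : ℤ, ∑ j, c j * (v j : ℂ) = n := by
  classical
  induction hv using AddSubgroup.closure_induction with
  | mem v hv =>
    rcases hv with ⟨z, hz⟩ | ⟨r, y, hr, hrq, ⟨S, T, hST⟩, hv⟩
    · obtain ⟨m, G, Q, k, lam, μ, ω, h'⟩ := hF.anal
      have h1 := dir_order hF h'.diff h'.cont hs z
      refine ⟨(ord G z : ℤ) - (m : ℤ) * (ord (fun s : ℂ => s - 1) z : ℤ), ?_⟩
      push_cast
      rw [h1]
      exact Finset.sum_congr rfl (fun j _ => by rw [hz j])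
    · obtain ⟨n, hn⟩ := dir_fibre hs hr hrq S T hST y
        (fun j => X j (r : ZMod q) * osc (θ j) r = y) (fun _ => Iff.rfl) (Classical.decPred _)
      refine ⟨n, ?_⟩
      rw [← hn, Finset.sum_filter]
      refine Finset.sum_congr rfl (fun j _ => ?_)
      rw [hv j]
      by_cases h : X j (r : ZMod q) * osc (θ j) r = y
      · rw [if_pos h, if_pos h]; simp
      · rw [if_neg h, if_neg h]; simp
  | zero => exact ⟨0, by simp⟩
  | add v w _ _ ihv ihw =>
    obtain ⟨n, hn⟩ := ihv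
    obtain ⟨k, hk⟩ := ihw
    refine ⟨n + k, ?_⟩
    push_cast
    rw [← hn, ← hk, ← Finset.sum_add_distrib]
    refine Finset.sum_congr rfl (fun j _ => ?_)
    rw [Pi.add_apply]
    push_cast
    ring
  | neg v _ ih =>
    obtain ⟨n, hn⟩ := ih
    refine ⟨-n, ?_⟩
    push_cast
    rw [← hn, ← Finset.sum_neg_distrib]
    refine Finset.sum_congr rfl (fun j _ => ?_)
    rw [Pi.neg_apply]
    push_cast
    ring

/-- if `p ^ (i u)` and `p' ^ (i u)` are both `N`-th roots of unity for two primes, `u = 0` -/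
lemma two_primes {u : ℝ} {N : ℕ} (hN : N ≠ 0) {p p' : ℕ} (hp : p.Prime) (hp' : p'.Prime)
    (hne : p ≠ p') (h : osc u p ^ N = 1) (h' : osc u p' ^ N = 1) : u = 0 := by
  by_contra hu
  have key : ∀ p : ℕ, p.Prime → osc u p ^ N = 1 → ∃ k : ℤ, (N : ℝ) * u * Real.log p = k * (2 * Real.pi) := by
    intro p hp h
    have hp0 : (p : ℂ) ≠ 0 := by exact_mod_cast hp.ne_zero
    unfold osc at h
    rw [← Complex.cpow_nat_mul, Complex.cpow_def_of_ne_zero hp0, Complex.exp_eq_one_iff] at h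
    obtain ⟨k, hk⟩ := h
    refine ⟨-k, ?_⟩
    have h2 := congrArg Complex.im hk
    have h3 : (Complex.log (p : ℂ)).re = Real.log p := by
      rw [Complex.log_re, Complex.norm_natCast]
    simp [h3] at h2
    push_cast
    nlinarith [h2]
  obtain ⟨k, hk⟩ := key p hp h
  obtain ⟨k', hk'⟩ := key p' hp' h'
  have hpl : 0 < Real.log p := Real.log_pos (by exact_mod_cast hp.one_lt)
  have hpl' : 0 < Real.log p' := Real.log_pos (by exact_mod_cast hp'.one_lt)
  have hN0 : (N : ℝ) ≠ 0 := by exact_mod_cast hN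
  have hk0 : k ≠ 0 := by
    rintro rfl
    rw [Int.cast_zero, zero_mul] at hk
    exact mul_ne_zero (mul_ne_zero hN0 hu) hpl.ne' hk
  have hrel : (k' : ℝ) * Real.log p = (k : ℝ) * Real.log p' := by
    have h1 : (k' : ℝ) * (2 * Real.pi) * ((N : ℝ) * u * Real.log p) =
        (k : ℝ) * (2 * Real.pi) * ((N : ℝ) * u * Real.log p') := by
      rw [hk, hk']; ring
    have h2 : (2 * Real.pi * (N * u)) * ((k' : ℝ) * Real.log p) =
        (2 * Real.pi * (N * u)) * ((k : ℝ) * Real.log p') := by linarith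
    refine mul_left_cancel₀ ?_ h2
    have := Real.pi_pos.ne'
    positivity
  -- take absolute values
  have hrel' : ((k'.natAbs : ℕ) : ℝ) * Real.log p = ((k.natAbs : ℕ) : ℝ) * Real.log p' := by
    have h1 := congrArg abs hrel
    rw [abs_mul, abs_mul, abs_of_pos hpl, abs_of_pos hpl'] at h1
    rw [Nat.cast_natAbs, Nat.cast_natAbs]
    push_cast
    exact h1
  have h3 : p ^ k'.natAbs = p' ^ k.natAbs := by
    have h4 : Real.log ((p ^ k'.natAbs : ℕ) : ℝ) = Real.log ((p' ^ k.natAbs : ℕ) : ℝ) := by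
      push_cast
      rw [Real.log_pow, Real.log_pow]
      exact hrel'
    have h5 := Real.log_injOn_pos (by
      show (0 : ℝ) < ((p ^ k'.natAbs : ℕ) : ℝ)
      exact_mod_cast pow_pos hp.pos _) (by
      show (0 : ℝ) < ((p' ^ k.natAbs : ℕ) : ℝ)
      exact_mod_cast pow_pos hp'.pos _) h4
    exact_mod_cast h5
  have h6 : k.natAbs ≠ 0 := Int.natAbs_ne_zero.2 hk0
  have h7 : p' ∣ p ^ k'.natAbs := by
    rw [h3]
    exact dvd_pow_self p' h6
  have h8 := hp'.dvd_of_dvd_pow h7
  exact hne ((Nat.prime_dvd_prime_iff_eq hp' hp).1 h8).symm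

lemma osc_zero (p : ℕ) : osc 0 p = 1 := by
  simp [osc]

/-- if `(ℤ/q)ˣ` is cyclic, some prime separates all the pairs -/
theorem cyclic_sep (hinj : Function.Injective (fun j => (θ j, X j)))
    (hcyc : IsCyclic (ZMod q)ˣ) : ∃ r : ℕ, r.Prime ∧ r.Coprime q ∧
      ∀ i j, X i (r : ZMod q) * osc (θ i) r = X j (r : ZMod q) * osc (θ j) r → i = j := by
  classical
  obtain ⟨g, hg⟩ := hcyc.exists_generator
  have hinf := Nat.infinite_setOfPred_prime_and_eq_mod g.isUnit
  set P : Set ℕ := {p : ℕ | p.Prime ∧ (p : ZMod q) = (g : ZMod q)} with hP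
  set Bad : J × J → Set ℕ := fun ij => {p | p ∈ P ∧ ij.1 ≠ ij.2 ∧
    X ij.1 (p : ZMod q) * osc (θ ij.1) p = X ij.2 (p : ZMod q) * osc (θ ij.2) p} with hBad
  have hchar : ∀ χ ψ : DirichletCharacter ℂ q, χ (g : ZMod q) = ψ (g : ZMod q) → χ = ψ := by
    intro χ ψ h
    apply MulChar.ext
    intro u
    obtain ⟨k, hk⟩ := Subgroup.mem_zpowers_iff.1 (hg u)
    have h1 : χ.toUnitHom g = ψ.toUnitHom g := by
      apply Units.ext
      rw [MulChar.coe_toUnitHom, MulChar.coe_toUnitHom]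
      exact h
    rw [← hk, ← MulChar.coe_toUnitHom, ← MulChar.coe_toUnitHom, map_zpow, map_zpow, h1]
  have hfin : ∀ ij, (Bad ij).Finite := by
    rintro ⟨i, j⟩
    refine Set.Subsingleton.finite ?_
    rintro p ⟨hpP, hij, hp⟩ p' ⟨hpP', -, hp'⟩
    by_contra hne
    have hN : Fintype.card (ZMod q)ˣ ≠ 0 := Fintype.card_ne_zero
    have key : ∀ p : ℕ, p ∈ P → X i (p : ZMod q) * osc (θ i) p = X j (p : ZMod q) * osc (θ j) p →
        osc (θ i - θ j) p ^ Fintype.card (ZMod q)ˣ = 1 ∧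
        (θ i = θ j → X i (g : ZMod q) = X j (g : ZMod q)) := by
      intro p hp h
      have hp0 := hp.1.pos
      rw [hp.2] at h
      have h1 : X i (g : ZMod q) * osc (θ i - θ j) p = X j (g : ZMod q) := by
        have h2 := congrArg (fun x => x * (starRingEnd ℂ) (osc (θ j) p)) h
        rw [mul_assoc, mul_assoc, osc_mul_conj _ _ hp0, osc_mul_conj _ _ hp0, sub_self, osc_zero,
          mul_one] at h2
        exact h2
      have hpow : ∀ χ : DirichletCharacter ℂ q, χ (g : ZMod q) ^ Fintype.card (ZMod q)ˣ = 1 := by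
        intro χ
        rw [← map_pow, ← Units.val_pow_eq_pow_val, pow_card_eq_one]
        simp
      constructor
      · have h2 := congrArg (fun x => x ^ Fintype.card (ZMod q)ˣ) h1
        rwa [mul_pow, hpow, hpow, one_mul] at h2
      · intro h3
        rw [h3, sub_self, osc_zero, mul_one] at h1
        exact h1
    obtain ⟨k1, k2⟩ := key p hpP hp
    obtain ⟨k3, -⟩ := key p' hpP' hp'
    have h4 := two_primes hN hpP.1 hpP'.1 hne k1 k3
    have h5 : θ i = θ j := sub_eq_zero.1 h4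
    apply hij
    apply hinj
    simp only [Prod.mk.injEq]
    exact ⟨h5, hchar _ _ (k2 h5)⟩
  have hU : (⋃ ij, Bad ij).Finite := Set.finite_iUnion hfin
  obtain ⟨r, hr, hr'⟩ := hinf.exists_notMem_finite hU
  refine ⟨r, hr.1, ?_, fun i j hij => ?_⟩
  · rw [← ZMod.isUnit_iff_coprime, hr.2]
    exact g.isUnit
  · by_contra hne
    exact hr' (Set.mem_iUnion.2 ⟨(i, j), hr, hne, hij⟩)

end

end Pool.Agent.Selb
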