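import Pool.Agent.Selb.Had3

set_option autoImplicit false

open Complex Metric Filter Topology

namespace Pool.Agent.Selb

lemma norm_Gamma_le {s : ℂ} (hs : 0 < s.re) : ‖Complex.Gamma s‖ ≤ Real.Gamma s.re := by
  rw [Complex.Gamma_eq_integral hs, Real.Gamma_eq_integral hs, Complex.GammaIntegral]
  refine (MeasureTheory.norm_integral_le_integral_norm _).trans (le_of_eq ?_)
  refine MeasureTheory.setIntegral_congr_fun measurableSet_Ioi (fun x hx => ?_)
  have hx0 : 0 < x := hx
  simp only [norm_mul, Complex.norm_real, Real.norm_eq_abs, abs_of_pos (Real.exp_pos _)]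
  rw [Complex.norm_cpow_eq_rpow_re_of_pos hx0]
  simp

lemma Gamma_growth {a : ℝ} (ha : 0 < a) :
    ∃ C : ℝ, 0 ≤ C ∧ ∀ x : ℝ, a ≤ x → Real.Gamma x ≤ Real.exp (C * gr x) := by
  -- bounded on the compact part
  have hcont : ContinuousOn Real.Gamma (Set.Icc a 2) := by
    intro x hx
    exact ((Real.differentiableOn_Gamma_Ioi x (lt_of_lt_of_le ha hx.1)).differentiableAt
      (Ioi_mem_nhds (lt_of_lt_of_le ha hx.1))).continuousAt.continuousWithinAt
  obtain ⟨B, hB⟩ := isCompact_Icc.exists_bound_of_continuousOn hcont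
  refine ⟨|B| + 4, by positivity, fun x hx => ?_⟩
  have hx0 : 0 < x := lt_of_lt_of_le ha hx
  have hgr := one_le_gr hx0.le
  rcases le_or_gt x 2 with h2 | h2
  · have h1 := hB x ⟨hx, h2⟩
    have h3 : Real.Gamma x ≤ |B| := (le_abs_self _).trans (by
      rw [← Real.norm_eq_abs]; exact h1.trans (le_abs_self B))
    have h4 : |B| ≤ Real.exp |B| := by
      have := Real.add_one_le_exp |B|
      linarith
    refine h3.trans (h4.trans (Real.exp_le_exp.2 ?_))
    nlinarith [abs_nonneg B]
  · set n := ⌈x⌉₊ with hn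
    have hxn : x ≤ n := Nat.le_ceil x
    have hnx : (n : ℝ) < x + 1 := Nat.ceil_lt_add_one hx0.le
    have h1 : Real.Gamma x ≤ Real.Gamma (n + 1) := by
      refine Real.Gamma_strictMonoOn_Ici.monotoneOn (Set.mem_Ici.2 h2.le) ?_ (by linarith)
      exact Set.mem_Ici.2 (by linarith)
    rw [Real.Gamma_nat_eq_factorial] at h1
    have h3 : ((n.factorial : ℕ) : ℝ) ≤ (n : ℝ) ^ n := by exact_mod_cast Nat.factorial_le_pow n
    have hnpos : 0 < (n : ℝ) := by linarith
    have h4 : (n : ℝ) ^ n = Real.exp (n * Real.log n) := by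
      rw [← Real.exp_log (pow_pos hnpos n), Real.log_pow]
    have h5 : Real.log n ≤ 2 * Real.sqrt (1 + x) := by
      have h6 : Real.log n = 2 * Real.log (Real.sqrt n) := by
        rw [Real.log_sqrt hnpos.le]; ring
      have h7 : Real.log (Real.sqrt n) ≤ Real.sqrt n :=
        (Real.log_le_sub_one_of_pos (Real.sqrt_pos.2 hnpos)).trans (by linarith)
      have h8 : Real.sqrt n ≤ Real.sqrt (1 + x) := Real.sqrt_le_sqrt (by linarith)
      rw [h6]; linarith
    refine h1.trans (h3.trans ?_)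
    rw [h4]
    refine Real.exp_le_exp.2 ?_
    have h9 : (n : ℝ) * Real.log n ≤ (1 + x) * (2 * Real.sqrt (1 + x)) := by
      refine mul_le_mul (by linarith) h5 (Real.log_nonneg ?_) (by linarith)
      linarith
    have h10 : (1 + x) * (2 * Real.sqrt (1 + x)) = 2 * gr x := by unfold gr; ring
    rw [h10] at h9
    nlinarith [abs_nonneg B]

lemma local_log {h : ℂ → ℂ} {c : ℂ} {R M : ℝ} (hR : 0 < R)
    (hd : DifferentiableOn ℂ h (ball c R)) (hne : ∀ z ∈ ball c R, h z ≠ 0)
    (hM : ∀ z ∈ ball c R, ‖h z‖ ≤ Real.exp M) :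
    ‖deriv (logDeriv h) c‖ ≤ 16 * (|M - Real.log ‖h c‖| + 1) / R ^ 2 := by
  set H : ℂ → ℂ := fun z => h (z + c) with hH
  have hmem : ∀ z : ℂ, z ∈ ball (0 : ℂ) R → z + c ∈ ball c R := by
    intro z hz
    simpa [dist_eq_norm] using hz
  have hHd : DifferentiableOn ℂ H (ball 0 R) :=
    hd.comp (by fun_prop) hmem
  have hHda : ∀ z ∈ ball (0 : ℂ) R, DifferentiableAt ℂ H z := fun z hz =>
    hHd.differentiableAt (isOpen_ball.mem_nhds hz)
  have hHne : ∀ z ∈ ball (0 : ℂ) R, H z ≠ 0 := fun z hz => hne _ (hmem z hz)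
  have hL' : DifferentiableOn ℂ (fun z => deriv H z / H z) (ball 0 R) :=
    (hHd.deriv isOpen_ball).div hHd hHne
  obtain ⟨L, hL0, hL⟩ := (hL'.isExactOn_ball).with_val_at 0 0
  have hexp : ∀ z ∈ ball (0 : ℂ) R, H z = H 0 * Complex.exp (L z) := by
    have hc : ∀ z ∈ ball (0 : ℂ) R, H z * Complex.exp (-L z) = H 0 * Complex.exp (-L 0) := by
      intro z hz
      refine (convex_ball (0 : ℂ) R).is_const_of_fderivWithin_eq_zero (𝕜 := ℂ)
        (f := fun z => H z * Complex.exp (-L z)) ?_ ?_ hz (mem_ball_self hR)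
      · intro w hw
        exact ((hHda w hw).mul ((hL w hw).differentiableAt.neg.cexp)).differentiableWithinAt
      · intro w hw
        have h1 : HasDerivAt (fun z => H z * Complex.exp (-L z))
            (deriv H w * Complex.exp (-L w) + H w * (Complex.exp (-L w) * -(deriv H w / H w))) w :=
          (hHda w hw).hasDerivAt.mul ((hL w hw).neg.cexp)
        have h2 : deriv H w * Complex.exp (-L w) +
            H w * (Complex.exp (-L w) * -(deriv H w / H w)) = 0 := by
          have := hHne w hw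
          field_simp
          ring
        rw [h2] at h1
        have h3 := h1.hasFDerivAt.hasFDerivWithinAt (s := ball (0:ℂ) R)
        rw [h3.fderivWithin (isOpen_ball.uniqueDiffWithinAt hw)]
        ext
        simp
    intro z hz
    have := hc z hz
    rw [hL0, neg_zero, Complex.exp_zero, mul_one] at this
    rw [← this, mul_assoc, ← Complex.exp_add]
    simp
  have hH0 : H 0 = h c := by simp [hH]
  have hHpos : 0 < ‖H 0‖ := norm_pos_iff.2 (hHne 0 (mem_ball_self hR))
  set A : ℝ := |M - Real.log ‖h c‖| + 1 with hA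
  have hApos : 0 < A := by positivity
  have hre : Set.MapsTo L (ball 0 R) {z | z.re ≤ A} := by
    intro z hz
    have h1 : ‖H z‖ ≤ Real.exp M := hM _ (hmem z hz)
    rw [hexp z hz, norm_mul, Complex.norm_exp] at h1
    have h3 : Real.log (‖H 0‖ * Real.exp (L z).re) ≤ M := by
      rw [← Real.log_exp M]
      exact Real.log_le_log (by positivity) h1
    rw [Real.log_mul hHpos.ne' (Real.exp_pos _).ne', Real.log_exp, hH0] at h3
    show (L z).re ≤ A
    have := le_abs_self (M - Real.log ‖h c‖)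
    linarith
  have hLd : DifferentiableOn ℂ L (ball 0 R) := fun z hz =>
    (hL z hz).differentiableAt.differentiableWithinAt
  have hLb : ∀ z : ℂ, ‖z‖ ≤ R / 2 → ‖L z‖ ≤ 2 * A := by
    intro z hz
    have hzR : ‖z‖ < R := by linarith
    have := Complex.borelCaratheodory_zero hApos hLd hre hR (by simpa using hzR) hL0
    refine this.trans ?_
    rw [div_le_iff₀ (by linarith)]
    nlinarith [norm_nonneg z]
  have hdc : DiffContOnCl ℂ L (ball 0 (R / 2)) := by
    refine DifferentiableOn.diffContOnCl ?_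
    rw [closure_ball (0 : ℂ) (by positivity)]
    refine hLd.mono (fun z hz => ?_)
    have : ‖z‖ ≤ R / 2 := by simpa using hz
    simp only [mem_ball, dist_zero_right]
    linarith
  have hL2 : ‖iteratedDeriv 2 L 0‖ ≤ 16 * A / R ^ 2 := by
    have := Complex.norm_iteratedDeriv_le_of_forall_mem_sphere_norm_le (C := 2 * A) 2
      (by positivity : 0 < R / 2) hdc
      (fun z hz => hLb z (by
        have : ‖z‖ = R / 2 := by simpa using hz
        exact this.le))
    refine this.trans (le_of_eq ?_)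
    simp only [Nat.factorial]
    field_simp
    norm_num
  have hLder : ∀ᶠ z in 𝓝 (0 : ℂ), deriv L z = logDeriv H z := by
    filter_upwards [isOpen_ball.mem_nhds (mem_ball_self hR)] with z hz
    exact (hL z hz).deriv
  have hiter : iteratedDeriv 2 L 0 = deriv (logDeriv H) 0 := by
    rw [iteratedDeriv_succ, iteratedDeriv_one]
    exact Filter.EventuallyEq.deriv_eq hLder
  have h2 : deriv (logDeriv H) 0 = deriv (logDeriv h) c := by
    have e1 : logDeriv H = fun w => logDeriv h (w + c) := by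
      ext w
      simp only [logDeriv_apply, hH]
      rw [deriv_comp_add_const]
    rw [e1, deriv_comp_add_const, zero_add]
  rw [← h2, ← hiter]
  exact hL2

lemma Gamma_ne {s : ℂ} (hs : 0 < s.re) : Complex.Gamma s ≠ 0 := Complex.Gamma_ne_zero_of_re_pos hs

lemma not_neg_nat {s : ℂ} (hs : 0 < s.re) (m : ℕ) : s ≠ -(m : ℂ) := by
  intro h
  rw [h] at hs
  simp at hs
  linarith [Nat.cast_nonneg (α := ℝ) m]

lemma deriv_digamma_add_one {z : ℂ} (hz : 0 < z.re) :
    deriv digamma z = deriv digamma (z + 1) + 1 / z ^ 2 := by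
  have hz0 : z ≠ 0 := by intro h; rw [h] at hz; simp at hz
  have h1 : ∀ᶠ w in 𝓝 z, digamma w = digamma (w + 1) - w⁻¹ := by
    have : ∀ᶠ w : ℂ in 𝓝 z, 0 < w.re :=
      (isOpen_lt continuous_const Complex.continuous_re).mem_nhds hz
    filter_upwards [this] with w hw
    rw [digamma_apply_add_one w (not_neg_nat hw)]
    ring
  have hdiff : DifferentiableAt ℂ digamma (z + 1) := by
    have hz1 : 0 < (z + 1).re := by simp; linarith
    rw [digamma_def]
    have : DifferentiableOn ℂ (logDeriv Complex.Gamma) {w : ℂ | 0 < w.re} := by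
      have hG : DifferentiableOn ℂ Complex.Gamma {w : ℂ | 0 < w.re} := fun w hw =>
        (Complex.differentiableAt_Gamma w (not_neg_nat hw)).differentiableWithinAt
      have hopen : IsOpen {w : ℂ | 0 < w.re} := isOpen_lt continuous_const Complex.continuous_re
      exact (hG.deriv hopen).div hG (fun w hw => Gamma_ne hw)
    exact this.differentiableAt ((isOpen_lt continuous_const Complex.continuous_re).mem_nhds hz1)
  rw [Filter.EventuallyEq.deriv_eq h1]
  have h2 : HasDerivAt (fun w : ℂ => digamma (w + 1)) (deriv digamma (z + 1)) z := by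
    have := hdiff.hasDerivAt.comp_add_const z 1
    exact this
  have h3 := h2.sub (hasDerivAt_inv hz0)
  have h4 : deriv (fun w : ℂ => digamma (w + 1) - w⁻¹) z =
      deriv digamma (z + 1) - -(z ^ 2)⁻¹ := h3.deriv
  rw [h4]
  ring

lemma deriv_digamma_sum {z : ℂ} (hz : 0 < z.re) (N : ℕ) :
    deriv digamma z = (∑ k ∈ Finset.range N, 1 / (z + k) ^ 2) + deriv digamma (z + N) := by
  induction N with
  | zero => simp
  | succ N ih =>
    have hN : 0 < (z + N).re := by
      simp only [add_re, natCast_re]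
      have := Nat.cast_nonneg (α := ℝ) N
      linarith
    rw [Finset.sum_range_succ, ih, deriv_digamma_add_one hN]
    push_cast
    ring_nf

lemma tendsto_digamma_far {z : ℂ} (hz : 0 < z.re) :
    Tendsto (fun N : ℕ => deriv digamma (z + N)) atTop (𝓝 0) := by
  obtain ⟨C, hC, hCb⟩ := Gamma_growth (a := z.re / 2) (by positivity)
  -- lower bound at the center
  have hlow : ∃ c : ℝ, 0 < c ∧ c ≤ 1 ∧ ∀ N : ℕ, c ≤ ‖Complex.Gamma (z + N)‖ := by
    set c0 : ℝ := min 1 (min ‖Complex.Gamma z‖ (‖z‖ * ‖Complex.Gamma z‖)) with hc0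
    have hz0 : z ≠ 0 := by intro h; rw [h] at hz; simp at hz
    have hzpos : 0 < ‖z‖ := norm_pos_iff.2 hz0
    have hGpos : 0 < ‖Complex.Gamma z‖ := norm_pos_iff.2 (Gamma_ne hz)
    refine ⟨c0, by positivity, min_le_left _ _, ?_⟩
    have hstep : ∀ N : ℕ, c0 ≤ ‖Complex.Gamma (z + (N + 1 : ℕ))‖ := by
      intro N
      induction N with
      | zero =>
        have : z + ((0 + 1 : ℕ) : ℂ) = z + 1 := by push_cast; ring
        rw [this, Complex.Gamma_add_one z hz0, norm_mul]
        exact (min_le_right _ _).trans (min_le_right _ _)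
      | succ N ih =>
        have hne : z + ((N + 1 : ℕ) : ℂ) ≠ 0 := by
          intro h
          have := congrArg Complex.re h
          simp at this
          have := Nat.cast_nonneg (α := ℝ) N
          linarith
        have e : z + ((N + 1 + 1 : ℕ) : ℂ) = (z + ((N + 1 : ℕ) : ℂ)) + 1 := by push_cast; ring
        rw [e, Complex.Gamma_add_one _ hne, norm_mul]
        have h1 : 1 ≤ ‖z + ((N + 1 : ℕ) : ℂ)‖ := by
          have h2 := Complex.re_le_norm (z + ((N + 1 : ℕ) : ℂ))
          simp at h2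
          have := Nat.cast_nonneg (α := ℝ) N
          push_cast
          linarith
        nlinarith [norm_nonneg (Complex.Gamma (z + ((N + 1 : ℕ) : ℂ)))]
    intro N
    cases N with
    | zero =>
      have h0 : c0 ≤ ‖Complex.Gamma z‖ := (min_le_right _ _).trans (min_le_left _ _)
      simpa using h0
    | succ N => exact hstep N
  obtain ⟨c, hc, hc1, hcb⟩ := hlow
  have hb : ∀ᶠ N : ℕ in atTop, ‖deriv digamma (z + N)‖ ≤
      64 * ((2 * (C * (3 + ‖z‖) ^ 2) + |Real.log c| + 1)) * (gr N / (N : ℝ) ^ 2) := by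
    filter_upwards [eventually_ge_atTop 1] with N hN
    have hN1 : (1 : ℝ) ≤ N := by exact_mod_cast hN
    have hNpos : (0 : ℝ) < N := by linarith
    have hball : ∀ w ∈ ball (z + N) ((N : ℝ) / 2), z.re / 2 ≤ w.re ∧ w.re ≤ (3 + ‖z‖) * N := by
      intro w hw
      have h1 : ‖w - (z + N)‖ < N / 2 := by simpa [dist_eq_norm] using hw
      have h2 := Complex.abs_re_le_norm (w - (z + N))
      have h3 := abs_le.1 (h2.trans h1.le)
      simp only [sub_re, add_re, natCast_re] at h3
      have h4 := Complex.re_le_norm z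
      constructor
      · linarith [h3.1]
      · nlinarith [h3.2, norm_nonneg z]
    have h1 := local_log (h := Complex.Gamma) (c := z + N) (R := (N : ℝ) / 2)
      (M := C * gr ((3 + ‖z‖) * N)) (by positivity)
      (fun w hw => (Complex.differentiableAt_Gamma w
        (not_neg_nat (by linarith [(hball w hw).1]))).differentiableWithinAt)
      (fun w hw => Gamma_ne (by linarith [(hball w hw).1]))
      (fun w hw => by
        have hw1 := hball w hw
        refine (norm_Gamma_le (by linarith)).trans ((hCb _ hw1.1).trans ?_)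
        exact Real.exp_le_exp.2 (mul_le_mul_of_nonneg_left
          (gr_mono (by linarith) hw1.2) hC))
    have h2 : |C * gr ((3 + ‖z‖) * N) - Real.log ‖Complex.Gamma (z + N)‖| + 1 ≤
        (C * (3 + ‖z‖) ^ 2 + |Real.log c| + 1) * gr N + |Real.log ‖Complex.Gamma (z + N)‖|
          - |Real.log c| := by
      have h3 : gr ((3 + ‖z‖) * N) ≤ (3 + ‖z‖) ^ 2 * gr N :=
        gr_scale (by linarith [norm_nonneg z]) hNpos.le
      have h4 := one_le_gr hNpos.le
      have h5 : |C * gr ((3 + ‖z‖) * N) - Real.log ‖Complex.Gamma (z + N)‖| ≤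
          C * gr ((3 + ‖z‖) * N) + |Real.log ‖Complex.Gamma (z + N)‖| := by
        refine (abs_sub _ _).trans ?_
        rw [abs_of_nonneg (mul_nonneg hC (gr_nonneg (by positivity)))]
      have h6 : C * gr ((3 + ‖z‖) * N) ≤ C * ((3 + ‖z‖) ^ 2 * gr N) :=
        mul_le_mul_of_nonneg_left h3 hC
      have h7 : |Real.log c| ≤ |Real.log c| * gr N := le_mul_of_one_le_right (abs_nonneg _) h4
      nlinarith
    -- bound of the central logarithm
    have h8 : |Real.log ‖Complex.Gamma (z + N)‖| ≤ |Real.log c| + C * (3 + ‖z‖) ^ 2 * gr N := by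
      have hzN : 0 < (z + N).re := by simp only [add_re, natCast_re]; linarith
      have h9 : ‖Complex.Gamma (z + N)‖ ≤ Real.exp (C * ((3 + ‖z‖) ^ 2 * gr N)) := by
        have hw1 := hball (z + N) (mem_ball_self (by positivity))
        refine (norm_Gamma_le hzN).trans ((hCb _ hw1.1).trans ?_)
        refine Real.exp_le_exp.2 (mul_le_mul_of_nonneg_left ?_ hC)
        exact (gr_mono (by linarith) hw1.2).trans
          (gr_scale (by linarith [norm_nonneg z]) hNpos.le)
      have h10 : Real.log ‖Complex.Gamma (z + N)‖ ≤ C * ((3 + ‖z‖) ^ 2 * gr N) := by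
        rw [← Real.log_exp (C * ((3 + ‖z‖) ^ 2 * gr N))]
        exact Real.log_le_log (norm_pos_iff.2 (Gamma_ne hzN)) h9
      have h11 : Real.log c ≤ Real.log ‖Complex.Gamma (z + N)‖ := Real.log_le_log hc (hcb N)
      have h12 := neg_abs_le (Real.log c)
      have h13 : 0 ≤ C * ((3 + ‖z‖) ^ 2 * gr N) := by
        have := gr_nonneg hNpos.le
        positivity
      rw [abs_le]
      constructor
      · nlinarith [abs_nonneg (Real.log c)]
      · nlinarith [abs_nonneg (Real.log c)]
    rw [digamma_def]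
    refine h1.trans ?_
    have h14 : 0 < (N : ℝ) ^ 2 := by positivity
    have h15 : 16 * (|C * gr ((3 + ‖z‖) * N) - Real.log ‖Complex.Gamma (z + N)‖| + 1) ≤
        16 * ((2 * (C * (3 + ‖z‖) ^ 2) + |Real.log c| + 1) * gr N) := by nlinarith
    have e : ((N : ℝ) / 2) ^ 2 = (N : ℝ) ^ 2 / 4 := by ring
    rw [e]
    calc 16 * (|C * gr ((3 + ‖z‖) * N) - Real.log ‖Complex.Gamma (z + N)‖| + 1) /
          ((N : ℝ) ^ 2 / 4)
        ≤ 16 * ((2 * (C * (3 + ‖z‖) ^ 2) + |Real.log c| + 1) * gr N) / ((N : ℝ) ^ 2 / 4) :=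
          div_le_div_of_nonneg_right h15 (by positivity)
      _ = _ := by field_simp; ring
  have hlim : Tendsto (fun N : ℕ => 64 * ((2 * (C * (3 + ‖z‖) ^ 2) + |Real.log c| + 1)) *
      (gr N / (N : ℝ) ^ 2)) atTop (𝓝 0) := by
    have := (tendsto_gr_div.comp tendsto_natCast_atTop_atTop).const_mul
      (64 * ((2 * (C * (3 + ‖z‖) ^ 2) + |Real.log c| + 1)))
    simpa using this
  exact squeeze_zero_norm' hb hlim

/-- trigamma series bound -/
lemma hasSum_trigamma {z : ℂ} (hz : 0 < z.re) :
    Tendsto (fun N : ℕ => ∑ k ∈ Finset.range N, 1 / (z + k) ^ 2) atTop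
      (𝓝 (deriv digamma z)) := by
  have h1 := tendsto_digamma_far hz
  have h2 : (fun N : ℕ => ∑ k ∈ Finset.range N, 1 / (z + k) ^ 2) =
      fun N : ℕ => deriv digamma z - deriv digamma (z + N) := by
    funext N
    rw [deriv_digamma_sum hz N]
    ring
  rw [h2]
  simpa using tendsto_const_nhds.sub h1

lemma norm_trigamma_le {x y : ℝ} (hx : 0 < x) (hy : 1 ≤ |y|) :
    ‖deriv digamma (x + y * I)‖ ≤ 8 / |y| := by
  have hz : 0 < ((x : ℂ) + y * I).re := by simpa using hx
  have hy0 : 0 < |y| := by linarith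
  refine le_of_tendsto (hasSum_trigamma hz).norm (Eventually.of_forall (fun N => ?_))
  refine (norm_sum_le _ _).trans ?_
  -- each term is at most 4 (1/(k+|y|) - 1/(k+1+|y|))
  have hterm : ∀ k : ℕ, ‖1 / ((x : ℂ) + y * I + k) ^ 2‖ ≤
      4 * ((k + |y|)⁻¹ - ((k + 1 : ℕ) + |y|)⁻¹) := by
    intro k
    have hk : (0 : ℝ) ≤ k := Nat.cast_nonneg k
    have h1 : ‖(x : ℂ) + y * I + k‖ ^ 2 = (x + k) ^ 2 + y ^ 2 := by
      rw [← Complex.normSq_eq_norm_sq, Complex.normSq_apply]
      simp
      ring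
    rw [norm_div, norm_one, norm_pow, h1]
    have h2 : (k + |y|) ^ 2 ≤ 2 * ((x + k) ^ 2 + y ^ 2) := by
      have h3 : |y| ^ 2 = y ^ 2 := sq_abs y
      nlinarith [sq_nonneg (k - |y|)]
    have hpos : 0 < (x + k) ^ 2 + y ^ 2 := by positivity
    have h4 : (k + |y|)⁻¹ - ((k + 1 : ℕ) + |y|)⁻¹ = 1 / ((k + |y|) * (k + 1 + |y|)) := by
      push_cast
      have a1 : (k : ℝ) + |y| ≠ 0 := by positivity
      have a2 : (k : ℝ) + 1 + |y| ≠ 0 := by positivity
      field_simp
      ring
    rw [h4, mul_one_div, div_le_div_iff₀ hpos (by positivity)]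
    have h5 : (k : ℝ) + 1 + |y| ≤ 2 * (k + |y|) := by linarith
    nlinarith [mul_le_mul_of_nonneg_left h5 (by positivity : (0:ℝ) ≤ k + |y|)]
  calc ∑ k ∈ Finset.range N, ‖1 / ((x : ℂ) + y * I + k) ^ 2‖
      ≤ ∑ k ∈ Finset.range N, 4 * ((k + |y|)⁻¹ - ((k + 1 : ℕ) + |y|)⁻¹) :=
        Finset.sum_le_sum (fun k _ => hterm k)
    _ = 4 * (|y|⁻¹ - (N + |y|)⁻¹) := by
        rw [← Finset.mul_sum]
        congr 1
        rw [Finset.sum_range_sub' (fun k : ℕ => ((k : ℝ) + |y|)⁻¹) N]
        simp
    _ ≤ 8 / |y| := by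
        have : 0 ≤ ((N : ℝ) + |y|)⁻¹ := by positivity
        have h6 : 8 / |y| = 8 * |y|⁻¹ := rfl
        rw [h6]
        have : 0 ≤ |y|⁻¹ := by positivity
        linarith

end Pool.Agent.Selb
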