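import Pool.Agent.Selb.Sdef

/-!
# Selb/Glue: gluing a half plane with its reflection

`exists_glue`: put `Ψ s = A s` if `0 < s.re` and `Ψ s = ω * conj (A (1 - conj s))` otherwise.
Both formulas agree on `0 < s.re < 1` by `hfe`, so `Ψ` agrees with `A` on the open set `{0 < re}` and
with the second formula on the open set `{re < 1}` (for `s.re ≤ 0` by definition, for
`0 < s.re < 1` by `hfe`); each formula is differentiable on its open set (for the second one:
`DifferentiableAt.conj_conj`, or `HasDerivAt` of `z ↦ conj (g (conj z))` with `g w = A (1 - w)`),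
and the two open sets cover `ℂ`.
Functional equation for `Ψ`: for `0 < re s < 1` it is `hfe`; for `re s ≤ 0` we have
`re (1 - conj s) ≥ 1 > 0`, so it is the definition; for `re s ≥ 1`, `re (1 - conj s) ≤ 0`, so
`Ψ (1 - conj s) = ω * conj (A s)` and `ω * conj (ω * conj (A s)) = ω * conj ω * A s = A s`.

`ord_symm_of_fe`: `ord f z = analyticOrderNatAt f z`. If `k = ord Ψ (1 - conj z)` and
`Ψ w = (w - (1 - conj z)) ^ k * g w` near `1 - conj z` with `g (1 - conj z) ≠ 0`, then near `z`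
`Ψ s = ω * conj (Ψ (1 - conj s)) = (z - s) ^ k * (ω * conj (g (1 - conj s)))`, whose order is `k`.
If `Ψ = 0` identically the statement is trivial (both sides are the junk value `0`: order `⊤`).
(`Fac.lean` has `factor_one : f w = (w - z) ^ ord f z * g w` for entire `f ≠ 0`, and
`AnalyticAt.analyticOrderNatAt_eq_iff`/`analyticOrderAt_eq_natCast` for the converse.)

`ord32_of_half`: for `re s < 1/2` apply `hb` to `1 - conj s`:
`‖Ψ s‖ = ‖Ψ (1 - conj s)‖ ≤ exp (K * gr (1 + ‖s‖)) ≤ exp (4 * K * gr ‖s‖)` because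
`gr (1 + x) ≤ gr (2 * x + 2)`... (`gr x = (1 + x) * √(1 + x)`, so `gr (1 + x) = (2 + x) √(2 + x) ≤
2 (1 + x) * √2 √(1 + x) ≤ 4 * gr x`).
-/

set_option autoImplicit false

open Complex Metric Filter Topology LSeries

namespace Pool.Agent.Selb

private theorem conj_refl_diffAt {A : ℂ → ℂ} {s : ℂ}
    (hA : DifferentiableAt ℂ A (1 - starRingEnd ℂ s)) :
    DifferentiableAt ℂ (fun s => starRingEnd ℂ (A (1 - starRingEnd ℂ s))) s := by
  have h1 : DifferentiableAt ℂ (fun w : ℂ => A (1 - w)) (starRingEnd ℂ s) :=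
    hA.comp (starRingEnd ℂ s) (by fun_prop)
  have h2 := h1.conj_conj
  rw [Complex.conj_conj] at h2
  exact h2

private theorem refl_refl (s : ℂ) : 1 - starRingEnd ℂ (1 - starRingEnd ℂ s) = s := by
  rw [map_sub, map_one, Complex.conj_conj]
  ring

private theorem om_conj {ω : ℂ} (hω : ‖ω‖ = 1) : ω * starRingEnd ℂ ω = 1 := by
  rw [Complex.mul_conj, Complex.normSq_eq_norm_sq, hω]
  norm_num

theorem exists_glue {A : ℂ → ℂ} {ω : ℂ} (hω : ‖ω‖ = 1)
    (hA : DifferentiableOn ℂ A {s | 0 < s.re})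
    (hfe : ∀ s : ℂ, 0 < s.re → s.re < 1 → A s = ω * starRingEnd ℂ (A (1 - starRingEnd ℂ s))) :
    ∃ Ψ : ℂ → ℂ, Differentiable ℂ Ψ ∧
      (∀ s, Ψ s = ω * starRingEnd ℂ (Ψ (1 - starRingEnd ℂ s))) ∧
      ∀ s : ℂ, 0 < s.re → Ψ s = A s := by
  classical
  obtain ⟨Ψ, h1, h0⟩ : ∃ Ψ : ℂ → ℂ, (∀ s : ℂ, 0 < s.re → Ψ s = A s) ∧
      ∀ s : ℂ, s.re ≤ 0 → Ψ s = ω * starRingEnd ℂ (A (1 - starRingEnd ℂ s)) :=
    ⟨fun s => if 0 < s.re then A s else ω * starRingEnd ℂ (A (1 - starRingEnd ℂ s)),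
      fun s hs => if_pos hs, fun s hs => if_neg (not_lt.2 hs)⟩
  have h2 : ∀ s : ℂ, s.re < 1 → Ψ s = ω * starRingEnd ℂ (A (1 - starRingEnd ℂ s)) := by
    intro s hs
    rcases lt_or_ge 0 s.re with h | h
    · rw [h1 s h]; exact hfe s h hs
    · exact h0 s h
  have hre : ∀ s : ℂ, (1 - starRingEnd ℂ s).re = 1 - s.re := by
    intro s
    simp
  have hop1 : IsOpen {s : ℂ | 0 < s.re} := isOpen_lt continuous_const Complex.continuous_re
  have hop2 : IsOpen {s : ℂ | s.re < 1} := isOpen_lt Complex.continuous_re continuous_const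
  refine ⟨Ψ, ?_, ?_, h1⟩
  · intro s
    rcases lt_or_ge 0 s.re with h | h
    · refine (hA.differentiableAt (hop1.mem_nhds h)).congr_of_eventuallyEq ?_
      filter_upwards [hop1.mem_nhds h] with w hw
      exact h1 w hw
    · have hs1 : s.re < 1 := by linarith
      have h3 : DifferentiableAt ℂ A (1 - starRingEnd ℂ s) := by
        refine hA.differentiableAt (hop1.mem_nhds ?_)
        show 0 < (1 - starRingEnd ℂ s).re
        rw [hre]
        linarith
      refine ((conj_refl_diffAt h3).const_mul ω).congr_of_eventuallyEq ?_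
      filter_upwards [hop2.mem_nhds hs1] with w hw
      exact h2 w hw
  · intro s
    rcases lt_or_ge s.re 1 with h | h
    · rw [h2 s h, h1 (1 - starRingEnd ℂ s) (by rw [hre]; linarith)]
    · rw [h0 (1 - starRingEnd ℂ s) (by rw [hre]; linarith), refl_refl, map_mul,
        Complex.conj_conj, ← mul_assoc, om_conj hω, one_mul]
      exact h1 s (by linarith)

theorem ord_symm_of_fe {Ψ : ℂ → ℂ} {ω : ℂ} (hω : ‖ω‖ = 1) (hd : Differentiable ℂ Ψ)
    (hfe : ∀ s, Ψ s = ω * starRingEnd ℂ (Ψ (1 - starRingEnd ℂ s))) (z : ℂ) :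
    ord Ψ (1 - starRingEnd ℂ z) = ord Ψ z := by
  have hω0 : ω ≠ 0 := by
    intro h
    rw [h, norm_zero] at hω
    exact zero_ne_one hω
  by_cases hne : ∃ w, Ψ w ≠ 0
  · obtain ⟨g, hg, hgne, hfg⟩ := factor_one hd hne (1 - starRingEnd ℂ z)
    symm
    rw [AnalyticAt.analyticOrderNatAt_eq_iff (hd.analyticAt z) (order_ne_top hd hne z)]
    refine ⟨fun s => ω * (-1) ^ (ord Ψ (1 - starRingEnd ℂ z)) *
      starRingEnd ℂ (g (1 - starRingEnd ℂ s)), ?_, ?_, ?_⟩
    · have h1 : Differentiable ℂ (fun s => ω * (-1) ^ (ord Ψ (1 - starRingEnd ℂ z)) *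
          starRingEnd ℂ (g (1 - starRingEnd ℂ s))) := fun s =>
        (conj_refl_diffAt (hg _)).const_mul _
      exact h1.analyticAt z
    · refine mul_ne_zero (mul_ne_zero hω0 (pow_ne_zero _ (by norm_num))) ?_
      intro h
      exact hgne ((map_eq_zero _).1 h)
    · refine Filter.Eventually.of_forall (fun s => ?_)
      rw [hfe s, hfg (1 - starRingEnd ℂ s), map_mul, map_pow, smul_eq_mul]
      have h1 : starRingEnd ℂ (1 - starRingEnd ℂ s - (1 - starRingEnd ℂ z)) = (-1) * (s - z) := by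
        simp only [map_sub, map_one, Complex.conj_conj]
        ring
      rw [h1, mul_pow]
      ring
  · have h0 : Ψ = fun _ => 0 := by
      funext w
      by_contra h
      exact hne ⟨w, h⟩
    have h1 : ∀ w, ord Ψ w = 0 := by
      intro w
      show (analyticOrderAt Ψ w).toNat = 0
      have h2 : analyticOrderAt Ψ w = ⊤ := by
        rw [analyticOrderAt_eq_top, h0]
        exact Filter.Eventually.of_forall (fun _ => rfl)
      rw [h2]
      rfl
    rw [h1, h1]

theorem ord32_of_half {Ψ : ℂ → ℂ} {ω : ℂ} (hω : ‖ω‖ = 1)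
    (hfe : ∀ s, Ψ s = ω * starRingEnd ℂ (Ψ (1 - starRingEnd ℂ s)))
    {K : ℝ} (hK : 0 ≤ K) (hb : ∀ s : ℂ, 1 / 2 ≤ s.re → ‖Ψ s‖ ≤ Real.exp (K * gr ‖s‖)) :
    Ord32 Ψ := by
  have hgr4 : ∀ x : ℝ, 0 ≤ x → gr (1 + x) ≤ 4 * gr x := by
    intro x hx
    unfold gr
    have h1 : Real.sqrt (1 + (1 + x)) ≤ 2 * Real.sqrt (1 + x) := by
      rw [Real.sqrt_le_left (by positivity), mul_pow, Real.sq_sqrt (by linarith)]
      linarith
    calc (1 + (1 + x)) * Real.sqrt (1 + (1 + x)) ≤ (2 * (1 + x)) * (2 * Real.sqrt (1 + x)) :=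
          mul_le_mul (by linarith) h1 (Real.sqrt_nonneg _) (by linarith)
      _ = 4 * ((1 + x) * Real.sqrt (1 + x)) := by ring
  refine ⟨4 * K, by positivity, fun s => ?_⟩
  have hg0 : 0 ≤ gr ‖s‖ := gr_nonneg (norm_nonneg _)
  rcases le_or_gt (1 / 2) s.re with h | h
  · refine (hb s h).trans (Real.exp_le_exp.2 ?_)
    nlinarith [mul_nonneg hK hg0]
  · have hre : (1 - starRingEnd ℂ s).re = 1 - s.re := by simp
    have h1 := hb (1 - starRingEnd ℂ s) (by rw [hre]; linarith)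
    have h2 : ‖Ψ s‖ = ‖Ψ (1 - starRingEnd ℂ s)‖ := by
      rw [hfe s, norm_mul, hω, one_mul, Complex.norm_conj]
    rw [h2]
    refine h1.trans (Real.exp_le_exp.2 ?_)
    have h3 : ‖1 - starRingEnd ℂ s‖ ≤ 1 + ‖s‖ := by
      refine (norm_sub_le _ _).trans ?_
      rw [norm_one, Complex.norm_conj]
    have h4 := (gr_mono (norm_nonneg _) h3).trans (hgr4 ‖s‖ (norm_nonneg _))
    calc K * gr ‖1 - starRingEnd ℂ s‖ ≤ K * (4 * gr ‖s‖) := mul_le_mul_of_nonneg_left h4 hK
      _ = 4 * K * gr ‖s‖ := by ring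

end Pool.Agent.Selb
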