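import Pool.Agent.Selb.Fac

set_option autoImplicit false

open Complex Metric Filter Topology

namespace Pool.Agent.Selb

lemma count_bound {f : ℂ → ℂ} (hf : Differentiable ℂ f) (hf0 : f 0 ≠ 0) {R M : ℝ} (hR : 0 < R)
    (hM : ∀ z, ‖z‖ = 2 * R → ‖f z‖ ≤ M) :
    (2 : ℝ) ^ (∑ ρ ∈ zer f hf ⟨0, hf0⟩ R, ord f ρ) * ‖f 0‖ ≤ M := by
  obtain ⟨g, hg, hgne, hfg⟩ := factor_finset hf ⟨0, hf0⟩ (zer f hf ⟨0, hf0⟩ R)
  have h2R : 0 < 2 * R := by linarith
  have hb := blaschke_bound (ord f) hg h2R hfg hM 0 (by simp [h2R.le])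
  rw [norm_mul, norm_prod] at hb
  have e1 : ∏ ρ ∈ zer f hf ⟨0, hf0⟩ R,
      ‖(((2 * R : ℝ) : ℂ) ^ 2 - (starRingEnd ℂ) ρ * 0) / ((2 * R : ℝ) : ℂ)‖ ^ ord f ρ
      = ∏ ρ ∈ zer f hf ⟨0, hf0⟩ R, (2 ^ ord f ρ * R ^ ord f ρ) := by
    refine Finset.prod_congr rfl (fun ρ _ => ?_)
    rw [mul_zero, sub_zero, norm_div, norm_pow, Complex.norm_real, Real.norm_eq_abs,
      abs_of_pos h2R, pow_two, mul_div_assoc, div_self h2R.ne', mul_one, mul_pow]
  simp only [norm_pow] at hb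
  rw [e1, Finset.prod_mul_distrib, Finset.prod_pow_eq_pow_sum] at hb
  refine le_trans ?_ hb
  rw [mul_assoc]
  refine mul_le_mul_of_nonneg_left ?_ (by positivity)
  rw [hfg 0, norm_mul, norm_prod]
  refine mul_le_mul_of_nonneg_right ?_ (norm_nonneg _)
  refine Finset.prod_le_prod (fun _ _ => norm_nonneg _) (fun ρ hρ => ?_)
  rw [norm_pow, zero_sub, norm_neg]
  exact pow_le_pow_left₀ (norm_nonneg _) (mem_zer.1 hρ).2 _

lemma second_log {f : ℂ → ℂ} (hf : Differentiable ℂ f) (hf0 : f 0 ≠ 0) {s : ℂ} (hs : f s ≠ 0)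
    {R M : ℝ} (hR : 0 < R) (hsR : 4 * ‖s‖ ≤ R) (hM : ∀ z, ‖z‖ = R → ‖f z‖ ≤ Real.exp M) :
    ‖deriv (logDeriv f) s + ∑ ρ ∈ zer f hf ⟨0, hf0⟩ R, (ord f ρ : ℂ) / (s - ρ) ^ 2‖ ≤
      64 * (|M - Real.log ‖f 0‖| + 1) / R ^ 2 +
        2 * (∑ ρ ∈ zer f hf ⟨0, hf0⟩ R, (ord f ρ : ℝ)) / R ^ 2 := by
  obtain ⟨g, hg, hgne, hfg⟩ := factor_finset hf ⟨0, hf0⟩ (zer f hf ⟨0, hf0⟩ R)
  set S := zer f hf ⟨0, hf0⟩ R with hS
  have hSR : ∀ ρ ∈ S, ‖ρ‖ ≤ R := fun ρ hρ => (mem_zer.1 hρ).2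
  have hbl := blaschke_bound (ord f) hg hR hfg hM
  set h : ℂ → ℂ := fun z =>
    (∏ ρ ∈ S, (((R : ℂ) ^ 2 - (starRingEnd ℂ) ρ * z) / R) ^ ord f ρ) * g z with hh
  have hd : Differentiable ℂ h := by
    have : Differentiable ℂ (fun z : ℂ =>
        (∏ ρ ∈ S, (((R : ℂ) ^ 2 - (starRingEnd ℂ) ρ * z) / R) ^ ord f ρ)) := by fun_prop
    exact this.mul hg
  have hRC : (R : ℂ) ≠ 0 := by exact_mod_cast hR.ne'
  have hfac : ∀ ρ ∈ S, ∀ z : ℂ, ‖z‖ < R → (R : ℂ) ^ 2 - (starRingEnd ℂ) ρ * z ≠ 0 := by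
    intro ρ hρ z hz h0
    have h1 : (R : ℂ) ^ 2 = (starRingEnd ℂ) ρ * z := sub_eq_zero.1 h0
    have h2 : R ^ 2 = ‖ρ‖ * ‖z‖ := by
      have := congrArg norm h1
      rwa [norm_pow, Complex.norm_real, Real.norm_eq_abs, abs_of_pos hR, norm_mul,
        Complex.norm_conj] at this
    have h3 : ‖ρ‖ * ‖z‖ ≤ R * ‖z‖ := mul_le_mul_of_nonneg_right (hSR ρ hρ) (norm_nonneg _)
    nlinarith
  have hgb : ∀ z : ℂ, ‖z‖ ≤ R → g z ≠ 0 := by
    intro z hz h0
    have hfz : f z = 0 := by rw [hfg, h0, mul_zero]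
    exact hgne z (mem_zer.2 ⟨hfz, hz⟩) h0
  have hhne : ∀ z : ℂ, ‖z‖ < R → h z ≠ 0 := by
    intro z hz
    rw [hh]
    refine mul_ne_zero ?_ (hgb z hz.le)
    rw [Finset.prod_ne_zero_iff]
    intro ρ hρ
    exact pow_ne_zero _ (div_ne_zero (hfac ρ hρ z hz) hRC)
  have hh0 : ‖f 0‖ ≤ ‖h 0‖ := by
    rw [hfg 0, hh]
    simp only [norm_mul, norm_prod, norm_pow]
    refine mul_le_mul_of_nonneg_right ?_ (norm_nonneg _)
    refine Finset.prod_le_prod (fun _ _ => by positivity) (fun ρ hρ => ?_)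
    refine pow_le_pow_left₀ (norm_nonneg _) ?_ _
    rw [zero_sub, norm_neg, mul_zero, sub_zero, norm_div, norm_pow, Complex.norm_real,
      Real.norm_eq_abs, abs_of_pos hR, pow_two, mul_div_assoc, div_self hR.ne', mul_one]
    exact hSR ρ hρ
  have hf0pos : 0 < ‖f 0‖ := norm_pos_iff.2 hf0
  have hh0pos : 0 < ‖h 0‖ := lt_of_lt_of_le hf0pos hh0
  -- the logarithm
  have hL' : DifferentiableOn ℂ (fun z => deriv h z / h z) (ball 0 R) := by
    intro z hz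
    have hz' : ‖z‖ < R := by simpa using hz
    exact ((hd.deriv z).div (hd z) (hhne z hz')).differentiableWithinAt
  obtain ⟨L, hL0, hL⟩ := (hL'.isExactOn_ball).with_val_at 0 0
  have hexp : ∀ z ∈ ball (0 : ℂ) R, h z = h 0 * Complex.exp (L z) := by
    have hc : ∀ z ∈ ball (0 : ℂ) R, h z * Complex.exp (-L z) = h 0 * Complex.exp (-L 0) := by
      intro z hz
      refine (convex_ball (0 : ℂ) R).is_const_of_fderivWithin_eq_zero (𝕜 := ℂ)
        (f := fun z => h z * Complex.exp (-L z)) ?_ ?_ hz (mem_ball_self hR)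
      · intro w hw
        exact ((hd w).mul ((hL w hw).differentiableAt.neg.cexp)).differentiableWithinAt
      · intro w hw
        have hw' : ‖w‖ < R := by simpa using hw
        have h1 : HasDerivAt (fun z => h z * Complex.exp (-L z))
            (deriv h w * Complex.exp (-L w) + h w * (Complex.exp (-L w) * -(deriv h w / h w))) w :=
          (hd w).hasDerivAt.mul ((hL w hw).neg.cexp)
        have h2 : deriv h w * Complex.exp (-L w) +
            h w * (Complex.exp (-L w) * -(deriv h w / h w)) = 0 := by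
          have := hhne w hw'
          field_simp
          ring
        rw [h2] at h1
        have h3 := h1.hasFDerivAt.hasFDerivWithinAt (s := ball (0:ℂ) R)
        rw [h3.fderivWithin (isOpen_ball.uniqueDiffWithinAt hw)]
        ext
        simp
    intro z hz
    have := hc z hz
    rw [hL0, neg_zero, Complex.exp_zero, mul_one] at this
    rw [← this, mul_assoc, ← Complex.exp_add]
    simp
  set A : ℝ := |M - Real.log ‖f 0‖| + 1 with hA
  have hApos : 0 < A := by positivity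
  have hre : Set.MapsTo L (ball 0 R) {z | z.re ≤ A} := by
    intro z hz
    have hz' : ‖z‖ < R := by simpa using hz
    have h1 : ‖h z‖ ≤ Real.exp M := hbl z hz'.le
    rw [hexp z hz, norm_mul, Complex.norm_exp] at h1
    have h2 : ‖f 0‖ * Real.exp (L z).re ≤ Real.exp M :=
      le_trans (mul_le_mul_of_nonneg_right hh0 (Real.exp_pos _).le) h1
    have h3 : Real.log (‖f 0‖ * Real.exp (L z).re) ≤ M := by
      rw [← Real.log_exp M]
      exact Real.log_le_log (by positivity) h2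
    rw [Real.log_mul hf0pos.ne' (Real.exp_pos _).ne', Real.log_exp] at h3
    show (L z).re ≤ A
    have := le_abs_self (M - Real.log ‖f 0‖)
    linarith
  have hLd : DifferentiableOn ℂ L (ball 0 R) := fun z hz =>
    (hL z hz).differentiableAt.differentiableWithinAt
  have hLb : ∀ z : ℂ, ‖z‖ ≤ R / 2 → ‖L z‖ ≤ 2 * A := by
    intro z hz
    have hzR : ‖z‖ < R := by linarith
    have := Complex.borelCaratheodory_zero hApos hLd hre hR (by simpa using hzR) hL0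
    refine this.trans ?_
    rw [div_le_iff₀ (by linarith)]
    nlinarith [norm_nonneg z]
  have hsR' : ‖s‖ < R := by linarith [norm_nonneg s]
  have hball : ∀ z ∈ closedBall s (R / 4), ‖z‖ ≤ R / 2 := by
    intro z hz
    have h1 : ‖z - s‖ ≤ R / 4 := by simpa [dist_eq_norm] using hz
    calc ‖z‖ = ‖(z - s) + s‖ := by ring_nf
      _ ≤ ‖z - s‖ + ‖s‖ := norm_add_le _ _
      _ ≤ R / 2 := by linarith
  have hdc : DiffContOnCl ℂ L (ball s (R / 4)) := by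
    refine DifferentiableOn.diffContOnCl ?_
    rw [closure_ball s (by positivity)]
    refine hLd.mono (fun z hz => ?_)
    have := hball z hz
    simp only [mem_ball, dist_zero_right]
    linarith
  have hL2 : ‖iteratedDeriv 2 L s‖ ≤ 64 * A / R ^ 2 := by
    have := Complex.norm_iteratedDeriv_le_of_forall_mem_sphere_norm_le (C := 2 * A) 2
      (by positivity : 0 < R / 4) hdc
      (fun z hz => hLb z (hball z (sphere_subset_closedBall hz)))
    refine this.trans (le_of_eq ?_)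
    simp only [Nat.factorial]
    field_simp
    norm_num
  -- identification of the second derivative
  have hnear : ∀ᶠ z in 𝓝 s, ‖z‖ < R := by
    exact (isOpen_lt continuous_norm continuous_const).mem_nhds hsR'
  have hfnear : ∀ᶠ z in 𝓝 s, f z ≠ 0 := hf.continuous.continuousAt.eventually_ne hs
  have hLder : ∀ᶠ z in 𝓝 s, deriv L z = deriv h z / h z := by
    filter_upwards [hnear] with z hz
    exact (hL z (by simpa using hz)).deriv
  have hiter : iteratedDeriv 2 L s = deriv (fun z => deriv h z / h z) s := by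
    rw [iteratedDeriv_succ, iteratedDeriv_one]
    exact Filter.EventuallyEq.deriv_eq hLder
  set u : ℂ → ℂ := fun z => ∑ ρ ∈ S, (ord f ρ : ℂ) *
    ((z - ρ)⁻¹ + (starRingEnd ℂ) ρ / ((R : ℂ) ^ 2 - (starRingEnd ℂ) ρ * z)) with hu
  have hlog : ∀ᶠ z in 𝓝 s, logDeriv f z = deriv h z / h z + u z := by
    filter_upwards [hnear, hfnear] with z hz hfz
    have hz1 : ∀ ρ ∈ S, z - ρ ≠ 0 := by
      intro ρ hρ h0
      have : z = ρ := sub_eq_zero.1 h0
      exact hfz (this ▸ (mem_zer.1 hρ).1)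
    have e1 : logDeriv f z = ∑ ρ ∈ S, (ord f ρ : ℂ) * (z - ρ)⁻¹ + logDeriv g z := by
      have hfe : f = fun w => (∏ ρ ∈ S, (w - ρ) ^ ord f ρ) * g w := funext hfg
      conv_lhs => rw [hfe]
      rw [logDeriv_mul (f := fun w => (∏ ρ ∈ S, (w - ρ) ^ ord f ρ)) z
        (Finset.prod_ne_zero_iff.2 (fun ρ hρ => pow_ne_zero _ (hz1 ρ hρ))) (hgb z hz.le)
        (by fun_prop) (hg z)]
      congr 1
      rw [logDeriv_prod (f := fun (ρ : ℂ) (w : ℂ) => (w - ρ) ^ ord f ρ)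
        (fun ρ hρ => pow_ne_zero _ (hz1 ρ hρ)) (fun ρ _ => by fun_prop)]
      refine Finset.sum_congr rfl (fun ρ hρ => ?_)
      rw [logDeriv_fun_pow (by fun_prop), logDeriv_apply]
      simp
    have e2 : deriv h z / h z = ∑ ρ ∈ S, (ord f ρ : ℂ) *
        (-(starRingEnd ℂ) ρ / ((R : ℂ) ^ 2 - (starRingEnd ℂ) ρ * z)) + logDeriv g z := by
      have : deriv h z / h z = logDeriv h z := rfl
      rw [this, hh]
      rw [logDeriv_mul (f := fun z =>
        (∏ ρ ∈ S, (((R : ℂ) ^ 2 - (starRingEnd ℂ) ρ * z) / R) ^ ord f ρ)) z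
        (Finset.prod_ne_zero_iff.2 (fun ρ hρ => pow_ne_zero _
          (div_ne_zero (hfac ρ hρ z hz) hRC))) (hgb z hz.le)
        (by fun_prop) (hg z)]
      congr 1
      rw [logDeriv_prod (f := fun (ρ : ℂ) (z : ℂ) =>
        (((R : ℂ) ^ 2 - (starRingEnd ℂ) ρ * z) / R) ^ ord f ρ)
        (fun ρ hρ => pow_ne_zero _ (div_ne_zero (hfac ρ hρ z hz) hRC))
        (fun ρ _ => by fun_prop)]
      refine Finset.sum_congr rfl (fun ρ hρ => ?_)
      rw [logDeriv_fun_pow (by fun_prop), logDeriv_apply]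
      congr 1
      have hd1 : HasDerivAt (fun z : ℂ => ((R : ℂ) ^ 2 - (starRingEnd ℂ) ρ * z) / R)
          (-(starRingEnd ℂ) ρ / R) z := by
        have := (((hasDerivAt_id z).const_mul ((starRingEnd ℂ) ρ)).const_sub
          ((R : ℂ) ^ 2)).div_const (R : ℂ)
        simpa using this
      rw [hd1.deriv]
      have := hfac ρ hρ z hz
      field_simp
    rw [e1, e2, hu]
    simp only [mul_add, Finset.sum_add_distrib]
    have : ∑ ρ ∈ S, (ord f ρ : ℂ) *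
        (-(starRingEnd ℂ) ρ / ((R : ℂ) ^ 2 - (starRingEnd ℂ) ρ * z)) =
        - ∑ ρ ∈ S, (ord f ρ : ℂ) *
        ((starRingEnd ℂ) ρ / ((R : ℂ) ^ 2 - (starRingEnd ℂ) ρ * z)) := by
      rw [← Finset.sum_neg_distrib]
      refine Finset.sum_congr rfl (fun ρ _ => by ring)
    rw [this]
    ring
  have hsρ : ∀ ρ ∈ S, s - ρ ≠ 0 := by
    intro ρ hρ h0
    have : s = ρ := sub_eq_zero.1 h0
    exact hs (this ▸ (mem_zer.1 hρ).1)
  have hud : HasDerivAt u (∑ ρ ∈ S, (ord f ρ : ℂ) *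
      (-1 / (s - ρ) ^ 2 + (starRingEnd ℂ) ρ ^ 2 /
        ((R : ℂ) ^ 2 - (starRingEnd ℂ) ρ * s) ^ 2)) s := by
    rw [hu]
    refine HasDerivAt.fun_sum (fun ρ hρ => ?_)
    refine HasDerivAt.const_mul _ ?_
    refine HasDerivAt.add ?_ ?_
    · have := ((hasDerivAt_id s).sub_const ρ).fun_inv (hsρ ρ hρ)
      simpa using this
    · have h1 : HasDerivAt (fun z : ℂ => ((R : ℂ) ^ 2 - (starRingEnd ℂ) ρ * z))
          (-(starRingEnd ℂ) ρ) s := by
        have := (((hasDerivAt_id s).const_mul ((starRingEnd ℂ) ρ)).const_sub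
          ((R : ℂ) ^ 2))
        simpa using this
      have h2 := (hasDerivAt_const s ((starRingEnd ℂ) ρ)).fun_div h1 (hfac ρ hρ s hsR')
      have h3 : (0 * ((R : ℂ) ^ 2 - (starRingEnd ℂ) ρ * s) -
          (starRingEnd ℂ) ρ * -(starRingEnd ℂ) ρ) / ((R : ℂ) ^ 2 - (starRingEnd ℂ) ρ * s) ^ 2
          = (starRingEnd ℂ) ρ ^ 2 / ((R : ℂ) ^ 2 - (starRingEnd ℂ) ρ * s) ^ 2 := by ring
      rw [h3] at h2
      exact h2
  have hhd : HasDerivAt (fun z => deriv h z / h z) (iteratedDeriv 2 L s) s := by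
    rw [hiter]
    have : DifferentiableAt ℂ (fun z => deriv h z / h z) s :=
      (hL' s (by simpa using hsR')).differentiableAt (isOpen_ball.mem_nhds (by simpa using hsR'))
    exact this.hasDerivAt
  have hfin : deriv (logDeriv f) s = iteratedDeriv 2 L s + ∑ ρ ∈ S, (ord f ρ : ℂ) *
      (-1 / (s - ρ) ^ 2 + (starRingEnd ℂ) ρ ^ 2 /
        ((R : ℂ) ^ 2 - (starRingEnd ℂ) ρ * s) ^ 2) := by
    rw [Filter.EventuallyEq.deriv_eq hlog]
    exact (hhd.add hud).deriv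
  have hrew : deriv (logDeriv f) s + ∑ ρ ∈ S, (ord f ρ : ℂ) / (s - ρ) ^ 2 =
      iteratedDeriv 2 L s + ∑ ρ ∈ S, (ord f ρ : ℂ) * ((starRingEnd ℂ) ρ ^ 2 /
        ((R : ℂ) ^ 2 - (starRingEnd ℂ) ρ * s) ^ 2) := by
    rw [hfin, add_assoc, ← Finset.sum_add_distrib]
    congr 1
    refine Finset.sum_congr rfl (fun ρ _ => ?_)
    ring
  rw [hrew]
  refine (norm_add_le _ _).trans (add_le_add hL2 ?_)
  refine (norm_sum_le _ _).trans ?_
  rw [mul_div_assoc, Finset.sum_div, Finset.mul_sum]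
  refine Finset.sum_le_sum (fun ρ hρ => ?_)
  rw [norm_mul, Complex.norm_natCast, norm_div, norm_pow, norm_pow, Complex.norm_conj]
  have h1 : ‖ρ‖ ≤ R := hSR ρ hρ
  have h2 : 3 / 4 * R ^ 2 ≤ ‖(R : ℂ) ^ 2 - (starRingEnd ℂ) ρ * s‖ := by
    have h3 : ‖(R : ℂ) ^ 2‖ = R ^ 2 := by
      rw [norm_pow, Complex.norm_real, Real.norm_eq_abs, abs_of_pos hR]
    have h4 : ‖(starRingEnd ℂ) ρ * s‖ ≤ R * (R / 4) := by
      rw [norm_mul, Complex.norm_conj]
      exact mul_le_mul h1 (by linarith) (norm_nonneg _) hR.le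
    have h5 := norm_sub_norm_le ((R : ℂ) ^ 2) ((starRingEnd ℂ) ρ * s)
    nlinarith
  have h6 : ‖ρ‖ ^ 2 / ‖(R : ℂ) ^ 2 - (starRingEnd ℂ) ρ * s‖ ^ 2 ≤ 2 / R ^ 2 := by
    have hpos : 0 < 3 / 4 * R ^ 2 := by positivity
    have h7 : (3 / 4 * R ^ 2) ^ 2 ≤ ‖(R : ℂ) ^ 2 - (starRingEnd ℂ) ρ * s‖ ^ 2 :=
      pow_le_pow_left₀ hpos.le h2 2
    have hpos2 : 0 < ‖(R : ℂ) ^ 2 - (starRingEnd ℂ) ρ * s‖ ^ 2 := lt_of_lt_of_le (by positivity) h7
    rw [div_le_div_iff₀ hpos2 (by positivity)]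
    have h8 : ‖ρ‖ ^ 2 ≤ R ^ 2 := pow_le_pow_left₀ (norm_nonneg _) h1 2
    nlinarith [sq_nonneg R]
  calc (ord f ρ : ℝ) * (‖ρ‖ ^ 2 / ‖(R : ℂ) ^ 2 - (starRingEnd ℂ) ρ * s‖ ^ 2)
      ≤ (ord f ρ : ℝ) * (2 / R ^ 2) := mul_le_mul_of_nonneg_left h6 (Nat.cast_nonneg _)
    _ = 2 * ((ord f ρ : ℝ) / R ^ 2) := by ring

end Pool.Agent.Selb
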