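import Pool.Agent.Selb.Had

set_option autoImplicit false

open Complex Metric Filter Topology

namespace Pool.Agent.Selb

/-- growth function of order 3/2 -/
noncomputable def gr (x : ℝ) : ℝ := (1 + x) * Real.sqrt (1 + x)

lemma gr_nonneg {x : ℝ} (hx : 0 ≤ x) : 0 ≤ gr x := by unfold gr; positivity

lemma one_le_gr {x : ℝ} (hx : 0 ≤ x) : 1 ≤ gr x := by
  unfold gr
  have h1 : 1 ≤ 1 + x := by linarith
  have h2 : 1 ≤ Real.sqrt (1 + x) := by
    rw [Real.one_le_sqrt]; exact h1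
  nlinarith

lemma gr_mono {x y : ℝ} (hx : 0 ≤ x) (hxy : x ≤ y) : gr x ≤ gr y := by
  unfold gr
  have h1 : Real.sqrt (1 + x) ≤ Real.sqrt (1 + y) := Real.sqrt_le_sqrt (by linarith)
  exact mul_le_mul (by linarith) h1 (Real.sqrt_nonneg _) (by linarith)

lemma gr_scale {c x : ℝ} (hc : 1 ≤ c) (hx : 0 ≤ x) : gr (c * x) ≤ c ^ 2 * gr x := by
  unfold gr
  have h1 : 1 + c * x ≤ c * (1 + x) := by nlinarith
  have h2 : Real.sqrt (1 + c * x) ≤ c * Real.sqrt (1 + x) := by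
    have h3 : Real.sqrt (c * (1 + x)) ≤ c * Real.sqrt (1 + x) := by
      rw [Real.sqrt_mul (by linarith)]
      refine mul_le_mul_of_nonneg_right ?_ (Real.sqrt_nonneg _)
      rw [Real.sqrt_le_left (by linarith)]
      nlinarith
    exact (Real.sqrt_le_sqrt h1).trans h3
  calc (1 + c * x) * Real.sqrt (1 + c * x) ≤ (c * (1 + x)) * (c * Real.sqrt (1 + x)) :=
        mul_le_mul h1 h2 (Real.sqrt_nonneg _) (by positivity)
    _ = c ^ 2 * ((1 + x) * Real.sqrt (1 + x)) := by ring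

/-- an entire function of growth at most `exp (K |z|^{3/2})` -/
def Ord32 (f : ℂ → ℂ) : Prop := ∃ K : ℝ, 0 ≤ K ∧ ∀ z, ‖f z‖ ≤ Real.exp (K * gr ‖z‖)

lemma count_gr {f : ℂ → ℂ} (hf : Differentiable ℂ f) (hf0 : f 0 ≠ 0) (hg : Ord32 f) :
    ∃ C : ℝ, 0 ≤ C ∧ ∀ R : ℝ, 0 < R →
      (∑ ρ ∈ zer f hf ⟨0, hf0⟩ R, (ord f ρ : ℝ)) ≤ C * gr R := by
  obtain ⟨K, hK, hKb⟩ := hg
  refine ⟨(4 * K + |Real.log ‖f 0‖|) / Real.log 2, ?_, ?_⟩
  · have : 0 < Real.log 2 := Real.log_pos (by norm_num)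
    positivity
  · intro R hR
    have hlog2 : 0 < Real.log 2 := Real.log_pos (by norm_num)
    have h1 := count_bound (M := Real.exp (K * gr (2 * R))) hf hf0 hR
      (fun z hz => by rw [← hz]; exact hKb z)
    have hf0pos : 0 < ‖f 0‖ := norm_pos_iff.2 hf0
    have h2 := Real.log_le_log (by positivity) h1
    rw [Real.log_mul (by positivity) hf0pos.ne', Real.log_exp, Real.log_pow] at h2
    have h3 : gr (2 * R) ≤ 2 ^ 2 * gr R := gr_scale (by norm_num) hR.le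
    have h4 := one_le_gr hR.le
    have h5 := neg_abs_le (Real.log ‖f 0‖)
    have h6 : 0 ≤ |Real.log ‖f 0‖| := abs_nonneg _
    rw [div_mul_eq_mul_div, le_div_iff₀ hlog2]
    push_cast at h2
    have h7 : K * gr (2 * R) ≤ K * (2 ^ 2 * gr R) := mul_le_mul_of_nonneg_left h3 hK
    have h8 : |Real.log ‖f 0‖| ≤ |Real.log ‖f 0‖| * gr R := le_mul_of_one_le_right h6 h4
    nlinarith

lemma gr_pow_two (k : ℕ) : gr ((2 : ℝ) ^ (k + 1)) ≤ 8 * (Real.sqrt 2 * 2) ^ k := by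
  unfold gr
  have h1 : 1 + (2 : ℝ) ^ (k + 1) ≤ 4 * 2 ^ k := by
    have : (1 : ℝ) ≤ 2 ^ k := one_le_pow₀ (by norm_num)
    rw [pow_succ]; linarith
  have h2 : Real.sqrt (1 + (2 : ℝ) ^ (k + 1)) ≤ 2 * Real.sqrt 2 ^ k := by
    rw [Real.sqrt_le_left (by positivity)]
    refine h1.trans (le_of_eq ?_)
    rw [mul_pow, ← pow_mul, mul_comm k 2, pow_mul, Real.sq_sqrt (by norm_num)]
    norm_num
  calc (1 + (2 : ℝ) ^ (k + 1)) * Real.sqrt (1 + (2 : ℝ) ^ (k + 1))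
      ≤ (4 * 2 ^ k) * (2 * Real.sqrt 2 ^ k) :=
        mul_le_mul h1 h2 (Real.sqrt_nonneg _) (by positivity)
    _ = 8 * (Real.sqrt 2 * 2) ^ k := by rw [mul_pow]; ring

lemma summable_ord0 {f : ℂ → ℂ} (hf : Differentiable ℂ f) (hf0 : f 0 ≠ 0) (hg : Ord32 f) :
    Summable (fun z : ℂ => (ord f z : ℝ) / (1 + ‖z‖) ^ 2) := by
  classical
  obtain ⟨C, hC, hCb⟩ := count_gr hf hf0 hg
  have hq : Real.sqrt 2 * 2 / 4 < 1 := by
    have : Real.sqrt 2 < 2 := by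
      rw [Real.sqrt_lt' (by norm_num)]; norm_num
    linarith
  have hq0 : 0 ≤ Real.sqrt 2 * 2 / 4 := by positivity
  have hgeo : Summable (fun k : ℕ => 8 * C * (Real.sqrt 2 * 2 / 4) ^ k) :=
    (summable_geometric_of_lt_one hq0 hq).mul_left _
  refine summable_of_sum_le (c := ∑' k : ℕ, 8 * C * (Real.sqrt 2 * 2 / 4) ^ k)
    (fun z => by positivity) (fun T => ?_)
  set κ : ℂ → ℕ := fun z => Nat.log 2 ⌊1 + ‖z‖⌋₊ with hκ
  have hκ1 : ∀ z : ℂ, (2 : ℝ) ^ κ z ≤ 1 + ‖z‖ := by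
    intro z
    have h1 : (⌊1 + ‖z‖⌋₊ : ℝ) ≤ 1 + ‖z‖ := Nat.floor_le (by positivity)
    have h2 : ⌊1 + ‖z‖⌋₊ ≠ 0 := by
      have : 1 ≤ ⌊1 + ‖z‖⌋₊ := Nat.le_floor (by push_cast; linarith [norm_nonneg z])
      omega
    have h3 : 2 ^ κ z ≤ ⌊1 + ‖z‖⌋₊ := Nat.pow_log_le_self 2 h2
    have h4 : ((2 ^ κ z : ℕ) : ℝ) ≤ ⌊1 + ‖z‖⌋₊ := by exact_mod_cast h3
    push_cast at h4
    exact h4.trans h1
  have hκ2 : ∀ z : ℂ, ‖z‖ ≤ (2 : ℝ) ^ (κ z + 1) := by
    intro z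
    have h1 : 1 + ‖z‖ < ⌊1 + ‖z‖⌋₊ + 1 := Nat.lt_floor_add_one _
    have h2 : ⌊1 + ‖z‖⌋₊ < 2 ^ (κ z + 1) := Nat.lt_pow_succ_log_self (by norm_num) _
    have h3 : ((⌊1 + ‖z‖⌋₊ : ℕ) : ℝ) < ((2 ^ (κ z + 1) : ℕ) : ℝ) := by exact_mod_cast h2
    push_cast at h3
    linarith
  set N := T.sup κ + 1 with hN
  have hmaps : ∀ z ∈ T, κ z ∈ Finset.range N := by
    intro z hz
    rw [Finset.mem_range, hN]
    have := Finset.le_sup (f := κ) hz
    omega
  calc ∑ z ∈ T, (ord f z : ℝ) / (1 + ‖z‖) ^ 2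
      ≤ ∑ z ∈ T, (ord f z : ℝ) / 4 ^ κ z := by
        refine Finset.sum_le_sum (fun z _ => ?_)
        refine div_le_div_of_nonneg_left (Nat.cast_nonneg _) (by positivity) ?_
        have := pow_le_pow_left₀ (by positivity) (hκ1 z) 2
        calc (4 : ℝ) ^ κ z = (2 ^ κ z) ^ 2 := by
              rw [← pow_mul, mul_comm, pow_mul]; norm_num
          _ ≤ _ := this
    _ = ∑ k ∈ Finset.range N, ∑ z ∈ T with κ z = k, (ord f z : ℝ) / 4 ^ κ z :=
        (Finset.sum_fiberwise_of_maps_to hmaps _).symm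
    _ ≤ ∑ k ∈ Finset.range N, 8 * C * (Real.sqrt 2 * 2 / 4) ^ k := by
        refine Finset.sum_le_sum (fun k _ => ?_)
        have h1 : ∑ z ∈ T with κ z = k, (ord f z : ℝ) / 4 ^ κ z =
            (∑ z ∈ T with κ z = k, (ord f z : ℝ)) / 4 ^ k := by
          rw [Finset.sum_div]
          refine Finset.sum_congr rfl (fun z hz => ?_)
          rw [(Finset.mem_filter.1 hz).2]
        have h2 : (∑ z ∈ T with κ z = k, (ord f z : ℝ)) ≤
            ∑ ρ ∈ zer f hf ⟨0, hf0⟩ ((2 : ℝ) ^ (k + 1)), (ord f ρ : ℝ) := by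
          have h3 : (∑ z ∈ T with κ z = k, (ord f z : ℝ)) =
              ∑ z ∈ (T.filter (fun z => κ z = k)).filter (fun z => f z = 0), (ord f z : ℝ) := by
            refine (Finset.sum_filter_of_ne (s := T.filter (fun z => κ z = k))
              (p := fun z => f z = 0) ?_).symm
            intro z _ hz
            by_contra h0
            exact hz (by rw [ord_eq_zero h0]; simp)
          rw [h3]
          refine Finset.sum_le_sum_of_subset_of_nonneg ?_ (fun _ _ _ => Nat.cast_nonneg _)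
          intro z hz
          rw [Finset.mem_filter, Finset.mem_filter] at hz
          refine mem_zer.2 ⟨hz.2, ?_⟩
          have := hκ2 z
          rwa [hz.1.2] at this
        have h4 := hCb ((2 : ℝ) ^ (k + 1)) (by positivity)
        have h5 := gr_pow_two k
        rw [h1, div_le_iff₀ (by positivity)]
        calc (∑ z ∈ T with κ z = k, (ord f z : ℝ)) ≤ C * gr (2 ^ (k + 1)) := h2.trans h4
          _ ≤ C * (8 * (Real.sqrt 2 * 2) ^ k) := mul_le_mul_of_nonneg_left h5 hC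
          _ = 8 * C * (Real.sqrt 2 * 2 / 4) ^ k * 4 ^ k := by
            rw [div_pow]
            field_simp
    _ ≤ ∑' k : ℕ, 8 * C * (Real.sqrt 2 * 2 / 4) ^ k :=
        hgeo.sum_le_tsum _ (fun k _ => by positivity)

end Pool.Agent.Selb
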