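import Pool.Agent.Selb.Had2

set_option autoImplicit false

open Complex Metric Filter Topology

namespace Pool.Agent.Selb

lemma tendsto_gr_div : Tendsto (fun R : ℝ => gr R / R ^ 2) atTop (𝓝 0) := by
  have h1 : ∀ᶠ R : ℝ in atTop, gr R / R ^ 2 ≤ 4 * (Real.sqrt R)⁻¹ := by
    filter_upwards [eventually_ge_atTop (1 : ℝ)] with R hR
    have hR0 : 0 < R := by linarith
    have h2 : gr R ≤ (2 * R) * (2 * Real.sqrt R) := by
      unfold gr
      refine mul_le_mul (by linarith) ?_ (Real.sqrt_nonneg _) (by linarith)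
      rw [Real.sqrt_le_left (by positivity), mul_pow, Real.sq_sqrt hR0.le]
      linarith
    have hs : 0 < Real.sqrt R := Real.sqrt_pos.2 hR0
    rw [div_le_iff₀ (by positivity)]
    refine h2.trans (le_of_eq ?_)
    have h3 : R = Real.sqrt R * Real.sqrt R := (Real.mul_self_sqrt hR0.le).symm
    have h4 : (Real.sqrt R)⁻¹ * Real.sqrt R = 1 := inv_mul_cancel₀ hs.ne'
    calc (2 * R) * (2 * Real.sqrt R) = 4 * R * Real.sqrt R := by ring
      _ = 4 * R * Real.sqrt R * ((Real.sqrt R)⁻¹ * Real.sqrt R) := by rw [h4, mul_one]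
      _ = 4 * (Real.sqrt R)⁻¹ * R * (Real.sqrt R * Real.sqrt R) := by ring
      _ = 4 * (Real.sqrt R)⁻¹ * R ^ 2 := by rw [← h3]; ring
  have h2 : ∀ᶠ R : ℝ in atTop, 0 ≤ gr R / R ^ 2 := by
    filter_upwards [eventually_ge_atTop (0 : ℝ)] with R hR
    exact div_nonneg (gr_nonneg hR) (by positivity)
  have h3 : Tendsto (fun R : ℝ => 4 * (Real.sqrt R)⁻¹) atTop (𝓝 0) := by
    have := (tendsto_inv_atTop_zero.comp Real.tendsto_sqrt_atTop).const_mul 4
    simpa using this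
  exact tendsto_of_tendsto_of_tendsto_of_le_of_le' tendsto_const_nhds h3 h2 h1

lemma summable_sq_aux {n : ℂ → ℝ} (hn : ∀ z, 0 ≤ n z)
    (hs : Summable (fun z : ℂ => n z / (1 + ‖z‖) ^ 2)) (s : ℂ) {δ : ℝ} (hδ : 0 < δ)
    (hfar : ∀ z, n z ≠ 0 → δ ≤ ‖s - z‖) :
    Summable (fun z : ℂ => n z / ‖s - z‖ ^ 2) := by
  set c : ℝ := 1 + (1 + ‖s‖) / δ with hc
  have hc1 : 0 < c := by positivity
  refine Summable.of_nonneg_of_le (fun z => div_nonneg (hn z) (by positivity))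
    (fun z => ?_) (hs.mul_left (c ^ 2))
  by_cases h0 : n z = 0
  · simp [h0]
  · have h1 : δ ≤ ‖s - z‖ := hfar z h0
    have h2 : 1 + ‖z‖ ≤ c * ‖s - z‖ := by
      have h3 : ‖z‖ ≤ ‖s - z‖ + ‖s‖ := by
        calc ‖z‖ = ‖s - (s - z)‖ := by ring_nf
          _ ≤ ‖s‖ + ‖s - z‖ := norm_sub_le _ _
          _ = _ := add_comm _ _
      have h4 : (1 + ‖s‖) ≤ (1 + ‖s‖) / δ * ‖s - z‖ := by
        rw [div_mul_eq_mul_div, le_div_iff₀ hδ]
        exact mul_le_mul_of_nonneg_left h1 (by positivity)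
      rw [hc]
      nlinarith
    have h5 : 0 < ‖s - z‖ := lt_of_lt_of_le hδ h1
    rw [mul_div_assoc', div_le_div_iff₀ (by positivity) (by positivity)]
    have h6 : (1 + ‖z‖) ^ 2 ≤ (c * ‖s - z‖) ^ 2 := pow_le_pow_left₀ (by positivity) h2 2
    calc n z * (1 + ‖z‖) ^ 2 ≤ n z * (c * ‖s - z‖) ^ 2 := mul_le_mul_of_nonneg_left h6 (hn z)
      _ = c ^ 2 * n z * ‖s - z‖ ^ 2 := by ring

lemma exists_far {f : ℂ → ℂ} (hf : Differentiable ℂ f) {s : ℂ} (hs : f s ≠ 0) :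
    ∃ δ : ℝ, 0 < δ ∧ ∀ z, (ord f z : ℝ) ≠ 0 → δ ≤ ‖s - z‖ := by
  have h1 : ∀ᶠ z in 𝓝 s, f z ≠ 0 := hf.continuous.continuousAt.eventually_ne hs
  obtain ⟨δ, hδ, hb⟩ := Metric.eventually_nhds_iff.1 h1
  refine ⟨δ, hδ, fun z hz => ?_⟩
  by_contra hlt
  push Not at hlt
  have : f z ≠ 0 := hb (by rw [dist_comm, dist_eq_norm]; exact hlt)
  exact hz (by rw [ord_eq_zero this]; simp)

lemma formula0 {f : ℂ → ℂ} (hf : Differentiable ℂ f) (hf0 : f 0 ≠ 0) (hg : Ord32 f) {s : ℂ}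
    (hs : f s ≠ 0) :
    HasSum (fun z : ℂ => (ord f z : ℂ) / (s - z) ^ 2) (- deriv (logDeriv f) s) := by
  classical
  obtain ⟨C, hC, hCb⟩ := count_gr hf hf0 hg
  obtain ⟨K, hK, hKb⟩ := hg
  have hsum0 := summable_ord0 hf hf0 ⟨K, hK, hKb⟩
  obtain ⟨δ, hδ, hfar⟩ := exists_far hf hs
  have hsum1 := summable_sq_aux (n := fun z => (ord f z : ℝ)) (fun z => Nat.cast_nonneg _)
    hsum0 s hδ hfar
  have hsum : Summable (fun z : ℂ => (ord f z : ℂ) / (s - z) ^ 2) := by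
    refine Summable.of_norm ?_
    refine hsum1.congr (fun z => ?_)
    rw [norm_div, Complex.norm_natCast, norm_pow]
  have hT := hsum.hasSum
  -- partial sums over zeros in discs
  have hlim1 : Tendsto (fun R : ℝ => ∑ ρ ∈ zer f hf ⟨0, hf0⟩ R, (ord f ρ : ℂ) / (s - ρ) ^ 2) atTop
      (𝓝 (∑' z : ℂ, (ord f z : ℂ) / (s - z) ^ 2)) := by
    rw [Metric.tendsto_atTop]
    intro ε hε
    have hT' := hT
    rw [HasSum] at hT'
    have hT2 : Tendsto (fun T : Finset ℂ => ∑ z ∈ T, (ord f z : ℂ) / (s - z) ^ 2) atTop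
      (𝓝 (∑' z : ℂ, (ord f z : ℂ) / (s - z) ^ 2)) := by simpa using hT'
    obtain ⟨T0, hT0⟩ := (Metric.tendsto_atTop.1 hT2) ε hε
    refine ⟨∑ z ∈ T0, ‖z‖, fun R hR => ?_⟩
    have h1 := hT0 (T0 ∪ zer f hf ⟨0, hf0⟩ R) Finset.subset_union_left
    have h2 : ∑ z ∈ T0 ∪ zer f hf ⟨0, hf0⟩ R, (ord f z : ℂ) / (s - z) ^ 2 =
        ∑ ρ ∈ zer f hf ⟨0, hf0⟩ R, (ord f ρ : ℂ) / (s - ρ) ^ 2 := by
      refine (Finset.sum_subset Finset.subset_union_right ?_).symm
      intro z hz hz2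
      have hzT : z ∈ T0 := by
        rcases Finset.mem_union.1 hz with h | h
        · exact h
        · exact absurd h hz2
      have hzR : ‖z‖ ≤ R := by
        refine le_trans ?_ hR
        exact Finset.single_le_sum (f := fun z : ℂ => ‖z‖) (fun i _ => norm_nonneg i) hzT
      have hfz : f z ≠ 0 := fun h0 => hz2 (mem_zer.2 ⟨h0, hzR⟩)
      rw [ord_eq_zero hfz]; simp
    rw [h2] at h1
    exact h1
  have hlim2 : Tendsto (fun R : ℝ => deriv (logDeriv f) s +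
      ∑ ρ ∈ zer f hf ⟨0, hf0⟩ R, (ord f ρ : ℂ) / (s - ρ) ^ 2) atTop (𝓝 0) := by
    have hb : ∀ᶠ R : ℝ in atTop, ‖deriv (logDeriv f) s +
        ∑ ρ ∈ zer f hf ⟨0, hf0⟩ R, (ord f ρ : ℂ) / (s - ρ) ^ 2‖ ≤
        (64 * (K + |Real.log ‖f 0‖| + 1) + 2 * C) * (gr R / R ^ 2) := by
      filter_upwards [eventually_ge_atTop (1 : ℝ), eventually_ge_atTop (4 * ‖s‖)] with R hR1 hR2
      have hR : 0 < R := by linarith
      have h1 := second_log hf hf0 hs hR hR2 (M := K * gr R) (fun z hz => by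
        rw [← hz]; exact hKb z)
      refine h1.trans ?_
      have h2 := hCb R hR
      have h3 := one_le_gr hR.le
      have h4 : |K * gr R - Real.log ‖f 0‖| + 1 ≤ (K + |Real.log ‖f 0‖| + 1) * gr R := by
        have h5 : |K * gr R - Real.log ‖f 0‖| ≤ |K * gr R| + |Real.log ‖f 0‖| := abs_sub _ _
        rw [abs_of_nonneg (mul_nonneg hK (gr_nonneg hR.le))] at h5
        have h6 : 0 ≤ |Real.log ‖f 0‖| := abs_nonneg _
        nlinarith
      have h7 : 0 < R ^ 2 := by positivity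
      calc _ ≤ 64 * ((K + |Real.log ‖f 0‖| + 1) * gr R) / R ^ 2 + 2 * (C * gr R) / R ^ 2 := by
            gcongr
        _ = _ := by ring
    have h2 : Tendsto (fun R : ℝ => (64 * (K + |Real.log ‖f 0‖| + 1) + 2 * C) * (gr R / R ^ 2))
        atTop (𝓝 0) := by
      simpa using tendsto_gr_div.const_mul (64 * (K + |Real.log ‖f 0‖| + 1) + 2 * C)
    exact squeeze_zero_norm' hb h2
  have hlim3 := (tendsto_const_nhds (x := deriv (logDeriv f) s)).add hlim1
  have huniq := tendsto_nhds_unique hlim2 hlim3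
  have : ∑' z : ℂ, (ord f z : ℂ) / (s - z) ^ 2 = - deriv (logDeriv f) s := by
    linear_combination -huniq
  rw [← this]
  exact hT

lemma ord_shift (f : ℂ → ℂ) (c z : ℂ) : ord (fun w => f (w + c)) z = ord f (z + c) := by
  unfold ord analyticOrderNatAt
  congr 1
  have hg : AnalyticAt ℂ (fun w : ℂ => w + c) z := by fun_prop
  have hd : deriv (fun w : ℂ => w + c) z ≠ 0 := by simp
  have := analyticOrderAt_comp_of_deriv_ne_zero (f := f) hg hd
  exact this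

lemma ord32_shift {f : ℂ → ℂ} (hg : Ord32 f) (c : ℂ) : Ord32 (fun w => f (w + c)) := by
  obtain ⟨K, hK, hKb⟩ := hg
  refine ⟨K * (1 + ‖c‖) ^ 2, by positivity, fun z => ?_⟩
  refine (hKb (z + c)).trans (Real.exp_le_exp.2 ?_)
  rw [mul_assoc]
  refine mul_le_mul_of_nonneg_left ?_ hK
  have h1 : gr ‖z + c‖ ≤ gr (‖z‖ + ‖c‖) := gr_mono (norm_nonneg _) (norm_add_le _ _)
  refine h1.trans ?_
  unfold gr
  have h2 : 1 + (‖z‖ + ‖c‖) ≤ (1 + ‖c‖) * (1 + ‖z‖) := by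
    nlinarith [norm_nonneg z, norm_nonneg c]
  have h3 : Real.sqrt (1 + (‖z‖ + ‖c‖)) ≤ (1 + ‖c‖) * Real.sqrt (1 + ‖z‖) := by
    refine (Real.sqrt_le_sqrt h2).trans ?_
    rw [Real.sqrt_mul (by positivity)]
    refine mul_le_mul_of_nonneg_right ?_ (Real.sqrt_nonneg _)
    rw [Real.sqrt_le_left (by positivity)]
    nlinarith [norm_nonneg c]
  calc (1 + (‖z‖ + ‖c‖)) * Real.sqrt (1 + (‖z‖ + ‖c‖))
      ≤ ((1 + ‖c‖) * (1 + ‖z‖)) * ((1 + ‖c‖) * Real.sqrt (1 + ‖z‖)) :=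
        mul_le_mul h2 h3 (Real.sqrt_nonneg _) (by positivity)
    _ = _ := by ring

/-- **second-derivative form of the Hadamard factorisation** for entire functions of growth
at most `exp (K |z|^{3/2})`. -/
theorem hadamard_two {f : ℂ → ℂ} (hf : Differentiable ℂ f) (hg : Ord32 f) {s : ℂ}
    (hs : f s ≠ 0) :
    HasSum (fun z : ℂ => (ord f z : ℂ) / (s - z) ^ 2) (- deriv (logDeriv f) s) := by
  set F : ℂ → ℂ := fun w => f (w + s) with hF
  have hFd : Differentiable ℂ F := by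
    intro z
    exact (hf (z + s)).comp z (by fun_prop)
  have hF0 : F 0 ≠ 0 := by simpa [hF] using hs
  have h1 := formula0 hFd hF0 (ord32_shift hg s) hF0
  have h2 : deriv (logDeriv F) 0 = deriv (logDeriv f) s := by
    have e1 : logDeriv F = fun w => logDeriv f (w + s) := by
      ext w
      simp only [logDeriv_apply, hF]
      rw [deriv_comp_add_const]
    rw [e1, deriv_comp_add_const, zero_add]
  rw [h2] at h1
  have h3 := (Equiv.subRight s).hasSum_iff.2 h1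
  have h4 : (fun z : ℂ => (ord f z : ℂ) / (s - z) ^ 2) =
      (fun z : ℂ => (ord F z : ℂ) / (0 - z) ^ 2) ∘ (Equiv.subRight s) := by
    funext z
    simp only [Function.comp, Equiv.subRight_apply, hF]
    rw [ord_shift, sub_add_cancel]
    congr 1
    ring
  rw [h4]
  exact h3

theorem summable_ord {f : ℂ → ℂ} (hf : Differentiable ℂ f) (hne : ∃ z, f z ≠ 0) (hg : Ord32 f) :
    Summable (fun z : ℂ => (ord f z : ℝ) / (1 + ‖z‖) ^ 2) := by
  obtain ⟨c, hc⟩ := hne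
  set F : ℂ → ℂ := fun w => f (w + c) with hF
  have hFd : Differentiable ℂ F := by
    intro z
    exact (hf (z + c)).comp z (by fun_prop)
  have hF0 : F 0 ≠ 0 := by simpa [hF] using hc
  have h1 := summable_ord0 hFd hF0 (ord32_shift hg c)
  have h3 := (Equiv.subRight c).summable_iff.2 h1
  refine Summable.of_nonneg_of_le (fun z => by positivity) (fun z => ?_)
    (h3.mul_left ((1 + ‖c‖) ^ 2))
  simp only [Function.comp, Equiv.subRight_apply, hF]
  rw [ord_shift, sub_add_cancel, mul_div_assoc', div_le_div_iff₀ (by positivity) (by positivity)]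
  have h4 : 1 + ‖z - c‖ ≤ (1 + ‖c‖) * (1 + ‖z‖) := by
    have := norm_sub_le z c
    nlinarith [norm_nonneg z, norm_nonneg c]
  have h5 : (1 + ‖z - c‖) ^ 2 ≤ ((1 + ‖c‖) * (1 + ‖z‖)) ^ 2 :=
    pow_le_pow_left₀ (by positivity) h4 2
  calc (ord f z : ℝ) * (1 + ‖z - c‖) ^ 2 ≤ (ord f z : ℝ) * ((1 + ‖c‖) * (1 + ‖z‖)) ^ 2 :=
        mul_le_mul_of_nonneg_left h5 (Nat.cast_nonneg _)
    _ = _ := by ring

end Pool.Agent.Selb
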