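import Pool.Agent.Selb.Sdef

/-!
# Selb/HalfL: the logarithmic derivative of the completed function

`cE` is the archimedean part. For `re s > 1` all factors of `cA m G Q lam μ s` are nonzero (`s ≠ 0`,
`Q ≠ 0`, `Gamma_ne`, `G s = (s - 1) ^ m * LSeries a s ≠ 0`), and near `s` (an open set)
`cA s = s ^ m * Q ^ s * ∏ Γ (lam j s + μ j) * ((s - 1) ^ m * LSeries a s)`; take `logDeriv` of
the product (`logDeriv_mul`, `logDeriv_prod`, `logDeriv_comp`, `Complex.digamma = logDeriv Gamma`),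
`logDeriv (fun s => (Q : ℂ) ^ s) = log Q`, and `h.ld`. `LSeries a` is differentiable at
`s`, `re s > 1`, because its abscissa of absolute convergence is `≤ 1` by `h.suma`
(`LSeries_differentiableOn`, `abscissaOfAbsConv_le_of_forall_lt_LSeriesSummable`, as in
`Core.comb_diff`).

`cE_decay`: for `w = 2 + t I`, `deriv cE w = - m / w ^ 2 + ∑ (lam j) ^ 2 * deriv digamma (lam j w + μ j)` and
`norm_trigamma_le : 0 < x → 1 ≤ |y| → ‖deriv digamma (x + y * I)‖ ≤ 8 / |y|` with
`x = 2 lam j + re μ j`, `y = lam j t + im μ j`, which tends to infinity.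
`cE_diff`: `digamma` is differentiable on `re > 0` (`logDeriv Gamma = deriv Gamma / Gamma`, `Gamma`
is analytic and nonzero there).
-/

set_option autoImplicit false

open Complex Metric Filter Topology LSeries

namespace Pool.Agent.Selb

/-- the archimedean part of the logarithmic derivative of `cA` -/
noncomputable def cE (m : ℕ) (Q : ℝ) {k : ℕ} (lam : Fin k → ℝ) (μ : Fin k → ℂ) (s : ℂ) : ℂ :=
  (m : ℂ) / s + (Real.log Q : ℂ) + ∑ j, (lam j : ℂ) * digamma ((lam j : ℂ) * s + μ j)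

variable {a Λ : ℕ → ℂ} {m : ℕ} {G : ℂ → ℂ} {Q : ℝ} {k : ℕ} {lam : Fin k → ℝ}
    {μ : Fin k → ℂ} {ω : ℂ}

theorem half_arg_re (h : Half a Λ m G Q lam μ ω) {s : ℂ} (hs : 0 < s.re) (j : Fin k) :
    0 < ((lam j : ℂ) * s + μ j).re := by
  have h1 := h.lampos j
  have h2 := h.mure j
  have h3 : ((lam j : ℂ) * s + μ j).re = lam j * s.re + (μ j).re := by simp
  rw [h3]
  have := mul_pos h1 hs
  linarith

theorem cA_ne (h : Half a Λ m G Q lam μ ω) {s : ℂ} (hs : 1 < s.re) :
    cA m G Q lam μ s ≠ 0 := by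
  have hs0 : s ≠ 0 := by
    rintro rfl
    simp at hs
    linarith
  have hs1 : s - 1 ≠ 0 := by
    intro h1
    have := congrArg Complex.re h1
    simp at this
    linarith
  have hQ : (Q : ℂ) ≠ 0 := by
    exact_mod_cast h.Qpos.ne'
  unfold cA
  refine mul_ne_zero (mul_ne_zero (mul_ne_zero (pow_ne_zero _ hs0) ?_) ?_) ?_
  · rw [Complex.cpow_def_of_ne_zero hQ]
    exact Complex.exp_ne_zero _
  · exact Finset.prod_ne_zero_iff.mpr fun j _ => Gamma_ne (half_arg_re h (by linarith) j)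
  · rw [h.cont s hs]
    exact mul_ne_zero (pow_ne_zero _ hs1) (h.nz s hs)

theorem half_LSeries_diff (h : Half a Λ m G Q lam μ ω) {s : ℂ} (hs : 1 < s.re) :
    DifferentiableAt ℂ (LSeries a) s := by
  have habs : abscissaOfAbsConv a ≤ ((1 : ℝ) : EReal) := by
    refine abscissaOfAbsConv_le_of_forall_lt_LSeriesSummable (fun y hy => ?_)
    exact h.suma y (by simpa using hy)
  have h1 : abscissaOfAbsConv a < s.re := habs.trans_lt (by exact_mod_cast hs)
  exact (LSeries_hasDerivAt h1).differentiableAt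

theorem half_logDeriv_G (h : Half a Λ m G Q lam μ ω) {s : ℂ} (hs : 1 < s.re) :
    logDeriv G s = (m : ℂ) / (s - 1) - LSeries Λ s := by
  have hs1 : s - 1 ≠ 0 := by
    intro h1
    have := congrArg Complex.re h1
    simp at this
    linarith
  have hev : G =ᶠ[𝓝 s] fun z => (z - 1) ^ m * LSeries a z := by
    have : ∀ᶠ w : ℂ in 𝓝 s, 1 < w.re := (isOpen_lt continuous_const Complex.continuous_re).mem_nhds hs
    filter_upwards [this] with w hw
    exact h.cont w hw
  rw [(logDeriv_congr_nhds hev).eq_of_nhds]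
  rw [logDeriv_mul (f := fun z : ℂ => (z - 1) ^ m) (g := LSeries a) s (pow_ne_zero _ hs1)
    (h.nz s hs) (by fun_prop) (half_LSeries_diff h hs),
    h.ld s hs, logDeriv_fun_pow (f := fun z : ℂ => z - 1) (by fun_prop)]
  have h2 : logDeriv (fun z : ℂ => z - 1) s = 1 / (s - 1) := by
    rw [logDeriv_apply]
    simp
  rw [h2]
  ring

theorem half_G_diff (h : Half a Λ m G Q lam μ ω) {s : ℂ} (hs : 0 < s.re) :
    DifferentiableAt ℂ G s :=
  (h.diff s hs).differentiableAt ((isOpen_lt continuous_const Complex.continuous_re).mem_nhds hs)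

theorem half_Gamma_diff {z : ℂ} (hz : 0 < z.re) : DifferentiableAt ℂ Complex.Gamma z :=
  Complex.differentiableAt_Gamma _ (not_neg_nat hz)

theorem cA_log (h : Half a Λ m G Q lam μ ω) {s : ℂ} (hs : 1 < s.re) :
    logDeriv (cA m G Q lam μ) s = (m : ℂ) / (s - 1) + cE m Q lam μ s - LSeries Λ s := by
  have hs0 : s ≠ 0 := by
    rintro rfl
    simp at hs
    linarith
  have hs1 : s - 1 ≠ 0 := by
    intro h1
    have := congrArg Complex.re h1
    simp at this
    linarith
  have hQ : (Q : ℂ) ≠ 0 := by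
    exact_mod_cast h.Qpos.ne'
  have hQs : (Q : ℂ) ^ s ≠ 0 := by
    rw [Complex.cpow_def_of_ne_zero hQ]
    exact Complex.exp_ne_zero _
  have hre : ∀ j, 0 < ((lam j : ℂ) * s + μ j).re := half_arg_re h (by linarith)
  have hprod : ∏ j, Complex.Gamma ((lam j : ℂ) * s + μ j) ≠ 0 :=
    Finset.prod_ne_zero_iff.mpr fun j _ => Gamma_ne (hre j)
  have hGne : G s ≠ 0 := by
    rw [h.cont s hs]
    exact mul_ne_zero (pow_ne_zero _ hs1) (h.nz s hs)
  have dQ : HasDerivAt (fun z : ℂ => (Q : ℂ) ^ z) ((Q : ℂ) ^ s * Complex.log Q) s := by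
    have := (hasDerivAt_id s).const_cpow (Or.inl hQ)
    simpa using this
  have dg : ∀ j, DifferentiableAt ℂ (fun z : ℂ => Complex.Gamma ((lam j : ℂ) * z + μ j)) s := by
    intro j
    exact (half_Gamma_diff (hre j)).comp s (by fun_prop)
  have dP : DifferentiableAt ℂ (fun z : ℂ => ∏ j, Complex.Gamma ((lam j : ℂ) * z + μ j)) s := by
    exact DifferentiableAt.fun_finsetProd fun j _ => dg j
  have e1 : logDeriv (fun z : ℂ => ∏ j, Complex.Gamma ((lam j : ℂ) * z + μ j)) s =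
      ∑ j, (lam j : ℂ) * digamma ((lam j : ℂ) * s + μ j) := by
    rw [logDeriv_prod (s := Finset.univ) (f := fun (j : Fin k) (z : ℂ) =>
      Complex.Gamma ((lam j : ℂ) * z + μ j)) (fun j _ => Gamma_ne (hre j)) (fun j _ => dg j)]
    refine Finset.sum_congr rfl fun j _ => ?_
    have e2 : (fun z : ℂ => Complex.Gamma ((lam j : ℂ) * z + μ j)) =
        Complex.Gamma ∘ (fun z : ℂ => (lam j : ℂ) * z + μ j) := rfl
    rw [e2, logDeriv_comp (f := Complex.Gamma) (g := fun z : ℂ => (lam j : ℂ) * z + μ j) (x := s)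
      (half_Gamma_diff (hre j)) (by fun_prop), ← digamma_def]
    have e3 : deriv (fun z : ℂ => (lam j : ℂ) * z + μ j) s = (lam j : ℂ) := by
      have : HasDerivAt (fun z : ℂ => (lam j : ℂ) * z + μ j) ((lam j : ℂ) * 1) s :=
        ((hasDerivAt_id s).const_mul _).add_const _
      rw [this.deriv, mul_one]
    rw [e3]
    ring
  have e4 : logDeriv (fun z : ℂ => (Q : ℂ) ^ z) s = (Real.log Q : ℂ) := by
    rw [logDeriv_apply, dQ.deriv, mul_div_cancel_left₀ _ hQs, Complex.ofReal_log h.Qpos.le]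
  have e5 : logDeriv (fun z : ℂ => z ^ m) s = (m : ℂ) / s := logDeriv_pow s m
  have hcA : cA m G Q lam μ = fun z : ℂ => z ^ m * (Q : ℂ) ^ z *
      (∏ j, Complex.Gamma ((lam j : ℂ) * z + μ j)) * G z := rfl
  rw [hcA]
  have d1 : DifferentiableAt ℂ (fun z : ℂ => z ^ m) s := by fun_prop
  have n1 : s ^ m ≠ 0 := pow_ne_zero _ hs0
  rw [logDeriv_mul (f := fun z : ℂ => z ^ m * (Q : ℂ) ^ z *
      (∏ j, Complex.Gamma ((lam j : ℂ) * z + μ j))) (g := G) s
      (mul_ne_zero (mul_ne_zero n1 hQs) hprod) hGne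
      ((d1.mul dQ.differentiableAt).mul dP) (half_G_diff h (by linarith)),
    logDeriv_mul (f := fun z : ℂ => z ^ m * (Q : ℂ) ^ z)
      (g := fun z : ℂ => ∏ j, Complex.Gamma ((lam j : ℂ) * z + μ j)) s
      (mul_ne_zero n1 hQs) hprod (d1.mul dQ.differentiableAt) dP,
    logDeriv_mul (f := fun z : ℂ => z ^ m) (g := fun z : ℂ => (Q : ℂ) ^ z) s n1 hQs d1
      dQ.differentiableAt, e1, e4, e5, half_logDeriv_G h hs]
  unfold cE
  ring

theorem digamma_diffAt {z : ℂ} (hz : 0 < z.re) : DifferentiableAt ℂ digamma z := by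
  have hopen : IsOpen {w : ℂ | 0 < w.re} := isOpen_lt continuous_const Complex.continuous_re
  have h1 : DifferentiableOn ℂ Complex.Gamma {w : ℂ | 0 < w.re} := fun w hw =>
    (half_Gamma_diff hw).differentiableWithinAt
  have h2 : DifferentiableOn ℂ (deriv Complex.Gamma) {w : ℂ | 0 < w.re} := h1.deriv hopen
  have h3 : DifferentiableOn ℂ (fun w => deriv Complex.Gamma w / Complex.Gamma w)
      {w : ℂ | 0 < w.re} := h2.div h1 fun w hw => Gamma_ne hw
  exact (h3 z hz).differentiableAt (hopen.mem_nhds hz)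

theorem cE_arg_re (hlam : ∀ j, 0 < lam j) (hmu : ∀ j, 0 ≤ (μ j).re) {s : ℂ} (hs : 0 < s.re)
    (j : Fin k) : 0 < ((lam j : ℂ) * s + μ j).re := by
  have h3 : ((lam j : ℂ) * s + μ j).re = lam j * s.re + (μ j).re := by simp
  rw [h3]
  have := mul_pos (hlam j) hs
  have := hmu j
  linarith

theorem cE_hasDeriv (m : ℕ) (Q : ℝ) (hlam : ∀ j, 0 < lam j) (hmu : ∀ j, 0 ≤ (μ j).re) {s : ℂ}
    (hs : 0 < s.re) : HasDerivAt (cE m Q lam μ)
      (-(m : ℂ) / s ^ 2 + ∑ j, (lam j : ℂ) ^ 2 * deriv digamma ((lam j : ℂ) * s + μ j)) s := by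
  have hs0 : s ≠ 0 := by
    rintro rfl
    simp at hs
  have h1 : HasDerivAt (fun z : ℂ => (m : ℂ) / z) (-(m : ℂ) / s ^ 2) s := by
    have := (hasDerivAt_const s (m : ℂ)).fun_div (hasDerivAt_id' s) hs0
    exact this.congr_deriv (by ring)
  have h2 : ∀ j ∈ (Finset.univ : Finset (Fin k)),
      HasDerivAt (fun z : ℂ => (lam j : ℂ) * digamma ((lam j : ℂ) * z + μ j))
        ((lam j : ℂ) ^ 2 * deriv digamma ((lam j : ℂ) * s + μ j)) s := by
    intro j _
    have ha : HasDerivAt (fun z : ℂ => (lam j : ℂ) * z + μ j) ((lam j : ℂ) * 1) s :=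
      ((hasDerivAt_id s).const_mul _).add_const _
    have hb : HasDerivAt digamma (deriv digamma ((lam j : ℂ) * s + μ j)) ((lam j : ℂ) * s + μ j) :=
      (digamma_diffAt (cE_arg_re hlam hmu hs j)).hasDerivAt
    have hc := (hb.comp s ha).const_mul (lam j : ℂ)
    exact hc.congr_deriv (by ring)
  have h3 := (h1.add_const (Real.log Q : ℂ)).add (HasDerivAt.fun_sum h2)
  exact h3

theorem cE_diff (m : ℕ) (Q : ℝ) (hlam : ∀ j, 0 < lam j) (hmu : ∀ j, 0 ≤ (μ j).re) :
    DifferentiableOn ℂ (cE m Q lam μ) {s | 0 < s.re} := by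
  intro s hs
  exact (cE_hasDeriv m Q hlam hmu hs).differentiableAt.differentiableWithinAt

theorem cE_decay (m : ℕ) (Q : ℝ) (hlam : ∀ j, 0 < lam j) (hmu : ∀ j, 0 ≤ (μ j).re) :
    Tendsto (fun t : ℝ => deriv (cE m Q lam μ) (2 + t * I)) atTop (𝓝 0) := by
  have hre : ∀ t : ℝ, 0 < ((2 : ℂ) + t * I).re := by intro t; simp
  have e1 : (fun t : ℝ => deriv (cE m Q lam μ) (2 + t * I)) = fun t : ℝ =>
      (-(m : ℂ) / ((2 : ℂ) + t * I) ^ 2 +
        ∑ j, (lam j : ℂ) ^ 2 * deriv digamma ((lam j : ℂ) * (2 + t * I) + μ j)) := by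
    funext t
    exact (cE_hasDeriv m Q hlam hmu (hre t)).deriv
  rw [e1]
  have z1 : Tendsto (fun t : ℝ => -(m : ℂ) / ((2 : ℂ) + t * I) ^ 2) atTop (𝓝 0) := by
    have hb : ∀ᶠ t : ℝ in atTop, ‖-(m : ℂ) / ((2 : ℂ) + t * I) ^ 2‖ ≤ (m : ℝ) * t⁻¹ := by
      filter_upwards [eventually_ge_atTop (1 : ℝ)] with t ht
      have h1 : t ≤ ‖(2 : ℂ) + t * I‖ := by
        have := Complex.abs_im_le_norm ((2 : ℂ) + t * I)
        simp at this
        exact (le_abs_self t).trans this
      rw [norm_div, norm_neg, norm_pow, Complex.norm_natCast, div_eq_mul_inv]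
      refine mul_le_mul_of_nonneg_left ?_ (Nat.cast_nonneg m)
      apply inv_anti₀ (by linarith)
      nlinarith
    refine squeeze_zero_norm' hb ?_
    have : Tendsto (fun t : ℝ => (m : ℝ) * t⁻¹) atTop (𝓝 ((m : ℝ) * 0)) :=
      tendsto_inv_atTop_zero.const_mul _
    simpa using this
  have z2 : ∀ j ∈ (Finset.univ : Finset (Fin k)), Tendsto (fun t : ℝ =>
      (lam j : ℂ) ^ 2 * deriv digamma ((lam j : ℂ) * (2 + t * I) + μ j)) atTop (𝓝 0) := by
    intro j _
    have hj := hlam j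
    have harg : ∀ t : ℝ, (lam j : ℂ) * (2 + t * I) + μ j =
        ((lam j * 2 + (μ j).re : ℝ) : ℂ) + ((lam j * t + (μ j).im : ℝ) : ℂ) * I := by
      intro t
      apply Complex.ext <;> simp
    have hx : 0 < lam j * 2 + (μ j).re := by
      have := hmu j
      linarith
    have hlin : Tendsto (fun t : ℝ => lam j * t + (μ j).im) atTop atTop :=
      tendsto_atTop_add_const_right _ _ (tendsto_id.const_mul_atTop hj)
    have hb : ∀ᶠ t : ℝ in atTop, ‖deriv digamma ((lam j : ℂ) * (2 + t * I) + μ j)‖ ≤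
        8 / (lam j * t + (μ j).im) := by
      filter_upwards [hlin.eventually_ge_atTop 1] with t ht
      rw [harg t]
      have h1 := norm_trigamma_le (x := lam j * 2 + (μ j).re) (y := lam j * t + (μ j).im) hx
        (ht.trans (le_abs_self _))
      rwa [abs_of_pos (by linarith)] at h1
    have h2 : Tendsto (fun t : ℝ => deriv digamma ((lam j : ℂ) * (2 + t * I) + μ j)) atTop (𝓝 0) :=
      squeeze_zero_norm' hb (tendsto_const_nhds.div_atTop hlin)
    simpa using h2.const_mul ((lam j : ℂ) ^ 2)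
  have := z1.add (tendsto_finsetSum _ z2)
  simpa using this

end Pool.Agent.Selb
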