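import Pool.Agent.Selb.Sdef

/-!
# Selb/HalfR: the completed function to the right of `re s = 2`

`cA m G Q lam μ s = s ^ m * Q ^ s * ∏ j, Γ (lam j s + μ j) * G s` (see `Sdef`).
* `cA_diff`: products; for `re s > 0`, `re (lam j s + μ j) > 0`, so `Complex.Gamma` is
  differentiable there (`Complex.differentiableAt_Gamma`, with `not_neg_nat` of `Gam.lean`);
  `(Q : ℂ) ^ s` is differentiable as `Q ≠ 0`.
* `cA_line`: on `s = 2 + t I`: `‖Q ^ s‖ = Q ^ 2`, `‖Γ (lam j s + μ j)‖ ≤ Real.Gamma (2 lam j + re μ j)` by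
  `norm_Gamma_le`, `G s = (s - 1) ^ m * LSeries a s` (`h.cont`), `‖s - 1‖ ≤ ‖s‖` (`‖1 + t I‖ ≤ ‖2 + t I‖`),
  `‖LSeries a s‖ ≤ ∑' ‖term a 2 n‖` (`LSeries.norm_term_le_of_re_le_re`, `h.suma 2`).
* `cA_right`: for `σ = re s ≥ 2`: `‖s‖ ^ m ≤ exp (m * ‖s‖)`, `‖Q ^ s‖ = Q ^ σ ≤ exp (|log Q| * ‖s‖)`,
  `‖Γ (lam j s + μ j)‖ ≤ Real.Gamma (lam j σ + re μ j) ≤ exp (C_j * gr (lam j σ + re μ j))` by
  `norm_Gamma_le` and `Gamma_growth` (with `a = 2 lam j`), and `lam j σ + re μ j ≤ c_j * ‖s‖` with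
  `c_j = 1 + lam j + re μ j` (as `‖s‖ ≥ σ ≥ 2`), so `gr (..) ≤ c_j ^ 2 * gr ‖s‖` (`gr_mono`,
  `gr_scale`); `‖G s‖ ≤ (1 + ‖s‖) ^ m * S ≤ exp (m * ‖s‖ + S)` with `S = ∑' ‖term a 2 n‖`; finally
  `‖s‖ ≤ gr ‖s‖` and `1 ≤ gr ‖s‖`.
-/

set_option autoImplicit false

open Complex Metric Filter Topology LSeries

namespace Pool.Agent.Selb

variable {a Λ : ℕ → ℂ} {m : ℕ} {G : ℂ → ℂ} {Q : ℝ} {k : ℕ} {lam : Fin k → ℝ}
    {μ : Fin k → ℂ} {ω : ℂ}

private lemma hr_re {lam' : ℝ} {μ' s : ℂ} : ((lam' : ℂ) * s + μ').re = lam' * s.re + μ'.re := by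
  rw [add_re, Complex.re_ofReal_mul]

private lemma hr_series (h : Half a Λ m G Q lam μ ω) :
    ∃ S : ℝ, 0 ≤ S ∧ ∀ s : ℂ, 2 ≤ s.re → ‖G s‖ ≤ ‖s - 1‖ ^ m * S := by
  have h2 : Summable (term a 2) := h.suma 2 (by norm_num)
  refine ⟨∑' n, ‖term a 2 n‖, tsum_nonneg fun n => norm_nonneg _, fun s hs => ?_⟩
  have hs1 : Summable (term a s) := h.suma s (by linarith)
  rw [h.cont s (by linarith), norm_mul, norm_pow]
  refine mul_le_mul_of_nonneg_left ?_ (by positivity)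
  calc ‖LSeries a s‖ ≤ ∑' n, ‖term a s n‖ := norm_tsum_le_tsum_norm hs1.norm
    _ ≤ ∑' n, ‖term a 2 n‖ := by
      refine Summable.tsum_le_tsum (fun n => ?_) hs1.norm h2.norm
      exact norm_term_le_of_re_le_re a (by simpa using hs) n

theorem cA_diff (h : Half a Λ m G Q lam μ ω) :
    DifferentiableOn ℂ (cA m G Q lam μ) {s | 0 < s.re} := by
  have hQ : (Q : ℂ) ≠ 0 := by exact_mod_cast h.Qpos.ne'
  unfold cA
  refine DifferentiableOn.mul (DifferentiableOn.mul (DifferentiableOn.mul ?_ ?_) ?_) h.diff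
  · exact (differentiable_id.pow m).differentiableOn
  · intro s _
    exact (differentiableAt_id.const_cpow (Or.inl hQ)).differentiableWithinAt
  · intro s hs
    have hs' : 0 < s.re := hs
    have hj : ∀ j : Fin k, DifferentiableAt ℂ (fun s : ℂ => Complex.Gamma ((lam j : ℂ) * s + μ j)) s := by
      intro j
      have h1 : 0 < ((lam j : ℂ) * s + μ j).re := by
        rw [hr_re]
        have := mul_pos (h.lampos j) hs'
        have := h.mure j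
        linarith
      have h2 := Complex.differentiableAt_Gamma _ (not_neg_nat h1)
      have h3 : DifferentiableAt ℂ (fun s : ℂ => (lam j : ℂ) * s + μ j) s := by fun_prop
      exact h2.comp s h3
    refine DifferentiableAt.differentiableWithinAt ?_
    exact DifferentiableAt.fun_finsetProd fun j _ => hj j

theorem cA_line (h : Half a Λ m G Q lam μ ω) :
    ∃ C : ℝ, ∀ t : ℝ, ‖cA m G Q lam μ (2 + t * I)‖ ≤ C * ‖(2 + t * I : ℂ)‖ ^ (2 * m) := by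
  obtain ⟨S, hS0, hS⟩ := hr_series h
  refine ⟨Q ^ (2 : ℝ) * (∏ j, Real.Gamma (lam j * 2 + (μ j).re)) * S, fun t => ?_⟩
  have hre : (2 + t * I : ℂ).re = 2 := by simp
  have h1 : ‖(Q : ℂ) ^ (2 + t * I : ℂ)‖ = Q ^ (2 : ℝ) := by
    rw [Complex.norm_cpow_eq_rpow_re_of_pos h.Qpos, hre]
  have h2 : ‖∏ j, Complex.Gamma ((lam j : ℂ) * (2 + t * I) + μ j)‖ ≤
      ∏ j, Real.Gamma (lam j * 2 + (μ j).re) := by
    rw [norm_prod]
    refine Finset.prod_le_prod (fun j _ => norm_nonneg _) fun j _ => ?_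
    have e : ((lam j : ℂ) * (2 + t * I) + μ j).re = lam j * 2 + (μ j).re := by rw [hr_re, hre]
    have h3 : 0 < ((lam j : ℂ) * (2 + t * I) + μ j).re := by
      rw [e]
      have := h.lampos j
      have := h.mure j
      linarith
    have h4 := norm_Gamma_le h3
    rwa [e] at h4
  have h3 : ‖(2 + t * I : ℂ) - 1‖ ≤ ‖(2 + t * I : ℂ)‖ := by
    have e1 : (2 + t * I : ℂ) - 1 = 1 + t * I := by ring
    rw [e1]
    refine (sq_le_sq₀ (norm_nonneg _) (norm_nonneg _)).1 ?_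
    rw [← Complex.normSq_eq_norm_sq, ← Complex.normSq_eq_norm_sq, Complex.normSq_apply,
      Complex.normSq_apply]
    simp
    nlinarith
  have h4 := hS (2 + t * I) (by rw [hre])
  have h5 : ‖G (2 + t * I)‖ ≤ ‖(2 + t * I : ℂ)‖ ^ m * S :=
    h4.trans (mul_le_mul_of_nonneg_right (pow_le_pow_left₀ (norm_nonneg _) h3 m) hS0)
  have hP : 0 ≤ ∏ j, Real.Gamma (lam j * 2 + (μ j).re) := (norm_nonneg _).trans h2
  unfold cA
  rw [norm_mul, norm_mul, norm_mul, norm_pow, h1]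
  have hQ2 : 0 ≤ Q ^ (2 : ℝ) := Real.rpow_nonneg h.Qpos.le _
  calc ‖(2 + t * I : ℂ)‖ ^ m * Q ^ (2 : ℝ) *
        ‖∏ j, Complex.Gamma ((lam j : ℂ) * (2 + t * I) + μ j)‖ * ‖G (2 + t * I)‖
      ≤ ‖(2 + t * I : ℂ)‖ ^ m * Q ^ (2 : ℝ) * (∏ j, Real.Gamma (lam j * 2 + (μ j).re)) *
        (‖(2 + t * I : ℂ)‖ ^ m * S) := by
        apply mul_le_mul _ h5 (norm_nonneg _) (by positivity)
        exact mul_le_mul_of_nonneg_left h2 (by positivity)
    _ = _ := by ring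

private lemma hr_le_gr {x : ℝ} (hx : 0 ≤ x) : x ≤ gr x := by
  have h1 : 1 ≤ Real.sqrt (1 + x) := Real.one_le_sqrt.2 (by linarith)
  unfold gr
  nlinarith

theorem cA_right (h : Half a Λ m G Q lam μ ω) :
    ∃ K : ℝ, 0 ≤ K ∧ ∀ s : ℂ, 2 ≤ s.re → ‖cA m G Q lam μ s‖ ≤ Real.exp (K * gr ‖s‖) := by
  obtain ⟨S, hS0, hS⟩ := hr_series h
  have hC : ∀ j : Fin k, ∃ C : ℝ, 0 ≤ C ∧ ∀ x : ℝ, 2 * lam j ≤ x →
      Real.Gamma x ≤ Real.exp (C * gr x) := fun j =>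
    Gamma_growth (by have := h.lampos j; linarith)
  choose C hC0 hC using hC
  have hKj : ∀ j, 0 ≤ C j * (1 + lam j + (μ j).re) ^ 2 := fun j =>
    mul_nonneg (hC0 j) (sq_nonneg _)
  have hSum : 0 ≤ ∑ j, C j * (1 + lam j + (μ j).re) ^ 2 := Finset.sum_nonneg fun j _ => hKj j
  refine ⟨m + |Real.log Q| + ∑ j, C j * (1 + lam j + (μ j).re) ^ 2 + (m + S), by positivity,
    fun s hs => ?_⟩
  have hsn : s.re ≤ ‖s‖ := Complex.re_le_norm s
  have hs0 : 0 ≤ ‖s‖ := norm_nonneg s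
  have hg1 := one_le_gr hs0
  have hg2 := hr_le_gr hs0
  have hg0 := gr_nonneg hs0
  have b1 : ‖s‖ ^ m ≤ Real.exp (m * gr ‖s‖) := by
    have h1 : ‖s‖ ≤ Real.exp (gr ‖s‖) := by
      have := Real.add_one_le_exp (gr ‖s‖)
      linarith
    calc ‖s‖ ^ m ≤ Real.exp (gr ‖s‖) ^ m := pow_le_pow_left₀ hs0 h1 m
      _ = _ := by rw [← Real.exp_nat_mul]
  have b2 : ‖(Q : ℂ) ^ s‖ ≤ Real.exp (|Real.log Q| * gr ‖s‖) := by
    rw [Complex.norm_cpow_eq_rpow_re_of_pos h.Qpos, Real.rpow_def_of_pos h.Qpos]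
    apply Real.exp_le_exp.2
    calc Real.log Q * s.re ≤ |Real.log Q| * s.re :=
          mul_le_mul_of_nonneg_right (le_abs_self _) (by linarith)
      _ ≤ |Real.log Q| * gr ‖s‖ := mul_le_mul_of_nonneg_left (by linarith) (abs_nonneg _)
  have b3 : ‖∏ j, Complex.Gamma ((lam j : ℂ) * s + μ j)‖ ≤
      Real.exp ((∑ j, C j * (1 + lam j + (μ j).re) ^ 2) * gr ‖s‖) := by
    rw [norm_prod, Finset.sum_mul, Real.exp_sum]
    refine Finset.prod_le_prod (fun j _ => norm_nonneg _) fun j _ => ?_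
    have l0 := h.lampos j
    have m0 := h.mure j
    have h3 : 0 < ((lam j : ℂ) * s + μ j).re := by
      rw [hr_re]
      have := mul_pos l0 (by linarith : 0 < s.re)
      linarith
    have h4 := norm_Gamma_le h3
    rw [hr_re] at h4
    have h5 : 2 * lam j ≤ lam j * s.re + (μ j).re := by nlinarith
    refine h4.trans ((hC j _ h5).trans (Real.exp_le_exp.2 ?_))
    have h6 : lam j * s.re + (μ j).re ≤ (1 + lam j + (μ j).re) * ‖s‖ := by nlinarith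
    have h7 := (gr_mono (by nlinarith : 0 ≤ lam j * s.re + (μ j).re) h6).trans
      (gr_scale (by linarith) hs0)
    calc C j * gr (lam j * s.re + (μ j).re) ≤ C j * ((1 + lam j + (μ j).re) ^ 2 * gr ‖s‖) :=
          mul_le_mul_of_nonneg_left h7 (hC0 j)
      _ = _ := by ring
  have b4 : ‖G s‖ ≤ Real.exp ((m + S) * gr ‖s‖) := by
    have h1 : ‖s - 1‖ ≤ Real.exp (gr ‖s‖) := by
      have h2 : ‖s - 1‖ ≤ ‖s‖ + 1 := by
        have := norm_sub_le s 1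
        rwa [norm_one] at this
      have := Real.add_one_le_exp (gr ‖s‖)
      linarith
    have h2 : ‖s - 1‖ ^ m ≤ Real.exp (m * gr ‖s‖) := by
      calc ‖s - 1‖ ^ m ≤ Real.exp (gr ‖s‖) ^ m := pow_le_pow_left₀ (norm_nonneg _) h1 m
        _ = _ := by rw [← Real.exp_nat_mul]
    have h3 : S ≤ Real.exp (S * gr ‖s‖) := by
      have h4 := Real.add_one_le_exp (S * gr ‖s‖)
      have h5 : S * 1 ≤ S * gr ‖s‖ := mul_le_mul_of_nonneg_left hg1 hS0
      linarith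
    calc ‖G s‖ ≤ ‖s - 1‖ ^ m * S := hS s hs
      _ ≤ Real.exp (m * gr ‖s‖) * Real.exp (S * gr ‖s‖) :=
        mul_le_mul h2 h3 hS0 (Real.exp_pos _).le
      _ = _ := by rw [← Real.exp_add]; ring_nf
  unfold cA
  rw [norm_mul, norm_mul, norm_mul, norm_pow]
  calc ‖s‖ ^ m * ‖(Q : ℂ) ^ s‖ * ‖∏ j, Complex.Gamma ((lam j : ℂ) * s + μ j)‖ * ‖G s‖
      ≤ Real.exp (m * gr ‖s‖) * Real.exp (|Real.log Q| * gr ‖s‖) *
        Real.exp ((∑ j, C j * (1 + lam j + (μ j).re) ^ 2) * gr ‖s‖) *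
        Real.exp ((m + S) * gr ‖s‖) := by
        gcongr
    _ = _ := by
      rw [← Real.exp_add, ← Real.exp_add, ← Real.exp_add]
      congr 1
      ring

end Pool.Agent.Selb
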