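import Pool.Agent.Selb.Sdef

/-!
# Selb/Strip: Phragmen-Lindelöf in a symmetric vertical strip

Let `f s = Ψ s / (s + 3) ^ N` on the strip `-1 ≤ re s ≤ 2` (there `re (s + 3) ≥ 2`, so the
denominator does not vanish; `f` is `DiffContOnCl` on `re ⁻¹' Ioo (-1) 2`).
* On `re s = 2`, `s = 2 + t I`: `‖f s‖ ≤ C * ‖2 + t I‖ ^ N / ‖5 + t I‖ ^ N ≤ C` (note `0 ≤ C`, from
  the hypothesis at `t = 0`).
* On `re s = -1`, `s = -1 + t I`: `1 - conj s = 2 + t I`, so `‖Ψ s‖ = ‖Ψ (2 + t I)‖ ≤ C ‖2 + t I‖ ^ N` and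
  `s + 3 = 2 + t I`, so `‖f s‖ ≤ C`.
* Growth inside: for `1/2 ≤ re s ≤ 2`, `‖Ψ s‖ ≤ |C'| exp ((1 + ‖s‖) ^ B)`; for `-1 ≤ re s ≤ 1/2` use the
  functional equation and `‖1 - conj s‖ ≤ 1 + ‖s‖`: `‖Ψ s‖ ≤ |C'| exp ((2 + ‖s‖) ^ |B|)`. In the strip
  `‖s‖ ≤ 2 + |im s|`, so `‖f s‖ ≤ |C'| exp ((4 + |im s|) ^ |B|) = O (exp (1 * exp (c * |im s|)))`
  with `c = 1/2 < π / 3` (`(4 + x) ^ |B| ≤ K + exp (x / 2)` for a constant `K`:
  a power is `o` of an exponential).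
`PhragmenLindelof.vertical_strip` gives `‖f s‖ ≤ C` in the whole strip, hence for
`1/2 ≤ re s ≤ 2`: `‖Ψ s‖ ≤ C * ‖s + 3‖ ^ N ≤ C * 3 ^ N * (1 + ‖s‖) ^ N`.
-/

set_option autoImplicit false

open Complex Metric Filter Topology LSeries

namespace Pool.Agent.Selb

theorem strip_pow_exp (b : ℝ) : ∀ᶠ x : ℝ in atTop, (4 + x) ^ b ≤ Real.exp (1 / 2 * x) := by
  have h1 := (isLittleO_rpow_exp_pos_mul_atTop b (show (0 : ℝ) < 1 / 2 by norm_num)).bound
    (Real.exp_pos (-2))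
  have h2 : Tendsto (fun x : ℝ => 4 + x) atTop atTop := tendsto_atTop_add_const_left _ _ tendsto_id
  filter_upwards [h2.eventually h1, eventually_ge_atTop 0] with x hx hx0
  rw [Real.norm_eq_abs, abs_of_nonneg (Real.rpow_nonneg (by linarith) _), Real.norm_eq_abs,
    abs_of_pos (Real.exp_pos _), ← Real.exp_add] at hx
  refine hx.trans (le_of_eq ?_)
  congr 1
  ring

theorem strip_norm_re {s : ℂ} (h : 0 ≤ s.re) : ‖s‖ ≤ ‖s + 3‖ := by
  apply le_of_sq_le_sq _ (norm_nonneg _)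
  rw [Complex.sq_norm, Complex.sq_norm, Complex.normSq_apply, Complex.normSq_apply]
  simp only [Complex.add_re, Complex.add_im, Complex.re_ofNat, Complex.im_ofNat, add_zero]
  nlinarith

theorem strip_bound {Ψ : ℂ → ℂ} {ω : ℂ} (hω : ‖ω‖ = 1) (hd : Differentiable ℂ Ψ)
    (hfe : ∀ s, Ψ s = ω * starRingEnd ℂ (Ψ (1 - starRingEnd ℂ s)))
    {N : ℕ} {C : ℝ} (hline : ∀ t : ℝ, ‖Ψ (2 + t * I)‖ ≤ C * ‖(2 + t * I : ℂ)‖ ^ N)
    {C' B : ℝ} (hfin : ∀ s : ℂ, 1 / 2 ≤ s.re → s.re ≤ 2 →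
      ‖Ψ s‖ ≤ C' * Real.exp ((1 + ‖s‖) ^ B)) :
    ∃ D : ℝ, ∀ s : ℂ, 1 / 2 ≤ s.re → s.re ≤ 2 → ‖Ψ s‖ ≤ D * (1 + ‖s‖) ^ N := by
  have hC : 0 ≤ C := by
    by_contra hc
    push Not at hc
    have h1 := hline 0
    have h2 : (2 + ((0 : ℝ) : ℂ) * I) = 2 := by simp
    rw [h2] at h1
    have h3 : 0 < ‖(2 : ℂ)‖ ^ N := by
      rw [Complex.norm_ofNat]
      positivity
    have h4 : C * ‖(2 : ℂ)‖ ^ N < 0 := mul_neg_of_neg_of_pos hc h3
    linarith [norm_nonneg (Ψ 2)]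
  have hsym : ∀ s, ‖Ψ s‖ = ‖Ψ (1 - starRingEnd ℂ s)‖ := by
    intro s
    conv_lhs => rw [hfe s]
    rw [norm_mul, hω, one_mul, RCLike.norm_conj]
  have hden : ∀ s : ℂ, -1 ≤ s.re → 2 ≤ ‖s + 3‖ := by
    intro s hs
    have h1 := Complex.re_le_norm (s + 3)
    simp only [Complex.add_re, Complex.re_ofNat] at h1
    linarith
  have hden0 : ∀ s : ℂ, -1 ≤ s.re → s + 3 ≠ 0 := by
    intro s hs h0
    have := hden s hs
    rw [h0, norm_zero] at this
    linarith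
  have hdenN : ∀ s : ℂ, -1 ≤ s.re → 1 ≤ ‖s + 3‖ ^ N := fun s hs =>
    one_le_pow₀ (by linarith [hden s hs])
  -- growth
  have hgr1 : ∀ s : ℂ, 1 / 2 ≤ s.re → s.re ≤ 2 → ‖Ψ s‖ ≤ |C'| * Real.exp ((1 + ‖s‖) ^ |B|) := by
    intro s h1 h2
    refine (hfin s h1 h2).trans ?_
    refine mul_le_mul (le_abs_self _) ?_ (Real.exp_pos _).le (abs_nonneg _)
    apply Real.exp_le_exp.2
    exact Real.rpow_le_rpow_of_exponent_le (by linarith [norm_nonneg s]) (le_abs_self B)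
  have hgr2 : ∀ s : ℂ, -1 ≤ s.re → s.re ≤ 2 → ‖Ψ s‖ ≤ |C'| * Real.exp ((4 + |s.im|) ^ |B|) := by
    intro s h1 h2
    have h3 : ‖s‖ ≤ 2 + |s.im| := by
      refine (Complex.norm_le_abs_re_add_abs_im s).trans ?_
      have : |s.re| ≤ 2 := abs_le.2 ⟨by linarith, h2⟩
      linarith
    have hmono : ∀ x : ℝ, 0 ≤ x → x ≤ 4 + |s.im| →
        |C'| * Real.exp (x ^ |B|) ≤ |C'| * Real.exp ((4 + |s.im|) ^ |B|) := by
      intro x hx0 hx
      refine mul_le_mul_of_nonneg_left ?_ (abs_nonneg _)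
      apply Real.exp_le_exp.2
      exact Real.rpow_le_rpow hx0 hx (abs_nonneg _)
    rcases le_total (1 / 2) s.re with h4 | h4
    · exact (hgr1 s h4 h2).trans (hmono _ (by positivity) (by linarith))
    · rw [hsym s]
      have h5 : (1 - starRingEnd ℂ s).re = 1 - s.re := by simp
      have h6 : ‖1 - starRingEnd ℂ s‖ ≤ 1 + ‖s‖ := by
        refine (norm_sub_le _ _).trans ?_
        rw [norm_one, RCLike.norm_conj]
      exact (hgr1 _ (by rw [h5]; linarith) (by rw [h5]; linarith)).trans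
        (hmono _ (by positivity) (by linarith))
  -- Phragmen-Lindelof
  have key : ∀ s : ℂ, -1 ≤ s.re → s.re ≤ 2 → ‖Ψ s / (s + 3) ^ N‖ ≤ C := by
    intro s hs1 hs2
    refine PhragmenLindelof.vertical_strip (f := fun s => Ψ s / (s + 3) ^ N) (a := -1) (b := 2)
      ?_ ?_ ?_ ?_ hs1 hs2
    · apply DifferentiableOn.diffContOnCl
      have hcl : closure (re ⁻¹' Set.Ioo (-1 : ℝ) 2) ⊆ re ⁻¹' Set.Icc (-1 : ℝ) 2 :=
        closure_minimal (Set.preimage_mono Set.Ioo_subset_Icc_self)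
          (isClosed_Icc.preimage Complex.continuous_re)
      intro z hz
      have hz1 := (hcl hz).1
      apply DifferentiableAt.differentiableWithinAt
      exact (hd z).div ((differentiableAt_id.add_const 3).pow N) (pow_ne_zero _ (hden0 z hz1))
    · refine ⟨1 / 2, ?_, 1, ?_⟩
      · have := Real.pi_gt_three
        rw [show (2 : ℝ) - -1 = 3 by norm_num]
        linarith
      · refine Asymptotics.IsBigO.of_bound |C'| ?_
        rw [eventually_inf_principal]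
        have h1 : ∀ᶠ z : ℂ in comap (_root_.abs ∘ im) atTop,
            (4 + |z.im|) ^ |B| ≤ Real.exp (1 / 2 * |z.im|) :=
          tendsto_comap.eventually (strip_pow_exp |B|)
        filter_upwards [h1] with z hz hz2
        have hz3 : -1 ≤ z.re := le_of_lt hz2.1
        have hz4 : z.re ≤ 2 := le_of_lt hz2.2
        rw [norm_div, norm_pow]
        have h2 : ‖Ψ z‖ / ‖z + 3‖ ^ N ≤ ‖Ψ z‖ := div_le_self (norm_nonneg _) (hdenN z hz3)
        refine h2.trans ((hgr2 z hz3 hz4).trans ?_)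
        rw [Real.norm_eq_abs, abs_of_pos (Real.exp_pos _), one_mul]
        exact mul_le_mul_of_nonneg_left (Real.exp_le_exp.2 hz) (abs_nonneg _)
    · intro z hz
      have h1 : 1 - starRingEnd ℂ z = 2 + (z.im : ℂ) * I := by
        apply Complex.ext
        · simp [hz]; norm_num
        · simp
      have h2 : z + 3 = 2 + (z.im : ℂ) * I := by
        apply Complex.ext
        · simp [hz]; norm_num
        · simp
      show ‖Ψ z / (z + 3) ^ N‖ ≤ C
      have h3 := hdenN z hz.ge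
      rw [norm_div, norm_pow, div_le_iff₀ (by linarith), hsym z, h1, h2]
      exact hline z.im
    · intro z hz
      have h2 : z = 2 + (z.im : ℂ) * I := by
        apply Complex.ext
        · simp [hz]
        · simp
      show ‖Ψ z / (z + 3) ^ N‖ ≤ C
      have h3 := hdenN z (by rw [hz]; norm_num)
      rw [norm_div, norm_pow, div_le_iff₀ (by linarith)]
      have h4 := hline z.im
      rw [← h2] at h4
      refine h4.trans (mul_le_mul_of_nonneg_left ?_ hC)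
      exact pow_le_pow_left₀ (norm_nonneg _) (strip_norm_re (by rw [hz]; norm_num)) N
  refine ⟨C * 3 ^ N, fun s hs1 hs2 => ?_⟩
  have h1 := key s (by linarith) hs2
  have h3 := hdenN s (by linarith)
  rw [norm_div, norm_pow, div_le_iff₀ (by linarith)] at h1
  refine h1.trans ?_
  rw [mul_assoc, ← mul_pow]
  refine mul_le_mul_of_nonneg_left ?_ hC
  refine pow_le_pow_left₀ (norm_nonneg _) ?_ N
  refine (norm_add_le _ _).trans ?_
  rw [Complex.norm_ofNat]
  linarith [norm_nonneg s]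

end Pool.Agent.Selb
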