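import Pool.Agent.Selb.Glue
import Pool.Agent.Selb.Strip
import Pool.Agent.Selb.HalfR
import Pool.Agent.Selb.HalfL

/-!
# Selb/HalfG: half-plane data give `Good` data (assembled from the stubs)
-/

set_option autoImplicit false

open Complex Metric Filter Topology LSeries

namespace Pool.Agent.Selb

variable {a Λ : ℕ → ℂ} {m : ℕ} {G : ℂ → ℂ} {Q : ℝ} {k : ℕ} {lam : Fin k → ℝ}
    {μ : Fin k → ℂ} {ω : ℂ}

theorem good_of_half (h : Half a Λ m G Q lam μ ω) :
    ∃ Ψ : ℂ → ℂ, Good Ψ Λ (m : ℂ) (cE m Q lam μ) ∧ ∀ s : ℂ, 0 < s.re → Ψ s = cA m G Q lam μ s := by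
  obtain ⟨Ψ, hd, hfe, hA⟩ := exists_glue h.om (cA_diff h) h.fe
  obtain ⟨C, hC⟩ := cA_line h
  obtain ⟨K, hK, hKb⟩ := cA_right h
  obtain ⟨C', B, hfin⟩ := h.fin
  have hre2 : ∀ t : ℝ, (0 : ℝ) < (2 + t * I : ℂ).re := fun t => by simp
  obtain ⟨D, hD⟩ := strip_bound (N := 2 * m) (C := C) h.om hd hfe
    (fun t => by rw [hA _ (hre2 t)]; exact hC t)
    (C' := C') (B := B) (fun s h1 h2 => by rw [hA s (by linarith)]; exact hfin s h1 h2)
  refine ⟨Ψ, ⟨hd, ?_, ord_symm_of_fe h.om hd hfe, ?_, h.sumL, ?_, cE_diff m Q h.lampos h.mure,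
    cE_decay m Q h.lampos h.mure⟩, hA⟩
  · -- growth
    refine ord32_of_half h.om hfe (K := K + (|D| + 2 * m)) (by positivity) (fun s hs => ?_)
    have hg0 : 0 ≤ gr ‖s‖ := gr_nonneg (norm_nonneg s)
    have hg1 : 1 ≤ gr ‖s‖ := one_le_gr (norm_nonneg s)
    rcases le_or_gt s.re 2 with h2 | h2
    · refine (hD s hs h2).trans ?_
      have e1 : D ≤ Real.exp (|D| * gr ‖s‖) := by
        have h3 : |D| ≤ |D| * gr ‖s‖ := le_mul_of_one_le_right (abs_nonneg _) hg1
        have h4 := Real.add_one_le_exp (|D| * gr ‖s‖)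
        have h5 := le_abs_self D
        linarith
      have e2 : (1 + ‖s‖) ^ (2 * m) ≤ Real.exp ((2 * m) * gr ‖s‖) := by
        have h6 : 1 + ‖s‖ ≤ Real.exp (gr ‖s‖) := by
          have h7 : ‖s‖ ≤ gr ‖s‖ := by
            unfold gr
            have h8 : 1 ≤ Real.sqrt (1 + ‖s‖) := by
              rw [Real.one_le_sqrt]
              linarith [norm_nonneg s]
            nlinarith [norm_nonneg s]
          have h9 := Real.add_one_le_exp (gr ‖s‖)
          linarith
        calc (1 + ‖s‖) ^ (2 * m) ≤ (Real.exp (gr ‖s‖)) ^ (2 * m) :=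
              pow_le_pow_left₀ (by positivity) h6 _
          _ = Real.exp ((2 * m) * gr ‖s‖) := by
              rw [← Real.exp_nat_mul]
              push_cast
              ring_nf
      calc D * (1 + ‖s‖) ^ (2 * m) ≤ Real.exp (|D| * gr ‖s‖) * Real.exp ((2 * m) * gr ‖s‖) :=
            mul_le_mul e1 e2 (by positivity) (Real.exp_pos _).le
        _ ≤ Real.exp ((K + (|D| + 2 * m)) * gr ‖s‖) := by
            rw [← Real.exp_add]
            apply Real.exp_le_exp.2
            nlinarith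
    · rw [hA s (by linarith)]
      refine (hKb s h2.le).trans (Real.exp_le_exp.2 ?_)
      have : 0 ≤ (|D| + 2 * m) * gr ‖s‖ := by positivity
      nlinarith
  · intro s hs
    rw [hA s (by linarith)]
    exact cA_ne h hs
  · intro s hs
    rw [← cA_log h hs]
    have h1 : Ψ =ᶠ[𝓝 s] cA m G Q lam μ := by
      filter_upwards [(isOpen_half 0).mem_nhds (show (0 : ℝ) < s.re by linarith)] with w hw
      exact hA w hw
    rw [logDeriv_apply, logDeriv_apply, h1.deriv_eq, hA s (by linarith)]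

end Pool.Agent.Selb
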