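import Pool.Agent.Selb.CoefD

/-!
# Selb/HalfS: an element of the Selberg class gives half-plane data

Fields of `Half a (fun n => b n * log n) m G Q lam μ ω`:
* `diff`, `cont`, `Qpos`, `lampos`, `mure`, `om`: from `h'`.
* `fe`: for `0 < re s < 1`: `s ≠ 0`, `s ≠ 1`, and `re (lam j s + μ j) > 0`, `re (lam j (1 - conj s) + μ j) > 0`,
  so `h'.fe` applies. With `Φ s = Q ^ s * ∏ Γ * (G s / (s - 1) ^ m)` we have `cA s = (s (s - 1)) ^ m * Φ s`
  and `cA (1 - conj s) = ((1 - conj s) * (- conj s)) ^ m * Φ (1 - conj s)`, and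
  `conj ((1 - conj s) * (- conj s)) = (1 - s) * (- s) = s (s - 1)`.
* `fin`: for `1/2 ≤ re s ≤ 2`: `‖Q ^ s‖ = Q ^ (re s) ≤ (1 + Q) ^ 2`... (bounded), `‖Γ (lam j s + μ j)‖ ≤
  Real.Gamma (lam j re s + re μ j)` (`norm_Gamma_le`), bounded since `Real.Gamma` is continuous on the
  compact `[lam j / 2 + re μ j, 2 lam j + re μ j] ⊆ (0, ∞)`; `‖s‖ ^ m ≤ (1 + ‖s‖) ^ m` and
  `‖G s‖ ≤ A exp (‖s‖ ^ B)` with `‖s‖ ^ B ≤ 2 ^ |B| * (1 + ‖s‖) ^ |B|` (as `1/2 ≤ ‖s‖ ≤ 1 + ‖s‖`).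
  Everything is `≤ C * exp ((1 + ‖s‖) ^ B')` with e.g. `B' = |B| + 2`
  (`m log (1 + x) + 2 ^ |B| (1 + x) ^ |B| ≤ K + (1 + x) ^ (|B| + 2)` for `x ≥ 0`: the left side is
  `≤ (m + 2 ^ |B|) (1 + x) ^ (|B| + 1)`, and `c y ≤ c ^ 2 + y ^ 2`... with `K = (m + 2^|B|) ^ (|B| + 2)` works too:
  if `1 + x ≥ c` then `c (1+x)^(|B|+1) ≤ (1+x)^(|B|+2)`, else it is `≤ c ^ (|B| + 2)`).
* `suma`, `sumL`: `h.summable_a`, `h.summable_L`. `nz`: `h.euler`, `exp ≠ 0`.
* `ld`: on `{1 < re}` `LSeries a = exp (LSeries b)`; `LSeries b` is differentiable there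
  (`h.summable_b`, abscissa `≤ 1`), `logDeriv (LSeries a) s = deriv (LSeries b) s = - LSeries (logMul b) s`
  (`LSeries_deriv`), and `logMul b n = log n * b n`.
-/

set_option autoImplicit false

open Complex Metric Filter Topology LSeries

namespace Pool.Agent.Selb

variable {a b : ℕ → ℂ} {m : ℕ} {G : ℂ → ℂ} {Q : ℝ} {k : ℕ} {lam : Fin k → ℝ}
    {μ : Fin k → ℂ} {ω : ℂ}

namespace HalfSAux

theorem re_lin (l : ℝ) (z s : ℂ) : ((l : ℂ) * s + z).re = l * s.re + z.re := by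
  simp

theorem gamma_strip {l : ℝ} {z : ℂ} (hl : 0 < l) (hz : 0 ≤ z.re) :
    ∃ K : ℝ, 0 ≤ K ∧ ∀ s : ℂ, 1 / 2 ≤ s.re → s.re ≤ 2 →
      ‖Complex.Gamma ((l : ℂ) * s + z)‖ ≤ K := by
  have hc : ContinuousOn Real.Gamma (Set.Icc (l / 2 + z.re) (2 * l + z.re)) := by
    intro x hx
    refine (Real.differentiableAt_Gamma fun n => ?_).continuousAt.continuousWithinAt
    have h1 : 0 < x := lt_of_lt_of_le (by positivity) hx.1
    have h2 : -(n : ℝ) ≤ 0 := neg_nonpos.mpr (Nat.cast_nonneg n)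
    linarith
  obtain ⟨K, hK⟩ := isCompact_Icc.exists_bound_of_continuousOn hc
  refine ⟨|K|, abs_nonneg K, fun s h1 h2 => ?_⟩
  have hre := re_lin l z s
  have hpos : 0 < ((l : ℂ) * s + z).re := by
    rw [hre]
    have : 0 < l * s.re := mul_pos hl (by linarith)
    linarith
  have h3 := norm_Gamma_le hpos
  rw [hre] at h3
  have h4 := hK (l * s.re + z.re) ⟨by nlinarith, by nlinarith⟩
  rw [Real.norm_eq_abs] at h4
  exact h3.trans ((le_abs_self _).trans (h4.trans (le_abs_self K)))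

theorem exp_bound (m : ℕ) {β X : ℝ} (hβ : 0 ≤ β) (hX : 1 ≤ X) :
    (m : ℝ) * X + (2 : ℝ) ^ β * X ^ β ≤
      ((m : ℝ) + (2 : ℝ) ^ β) ^ (β + 2) + X ^ (β + 2) := by
  set c : ℝ := (m : ℝ) + (2 : ℝ) ^ β with hc
  have h2 : (0 : ℝ) < (2 : ℝ) ^ β := by positivity
  have hc0 : 0 < c := by positivity
  have hX0 : 0 < X := by linarith
  have h3 : X ≤ X ^ (β + 1) := by
    calc X = X ^ (1 : ℝ) := (Real.rpow_one X).symm
      _ ≤ X ^ (β + 1) := Real.rpow_le_rpow_of_exponent_le hX (by linarith)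
  have h4 : X ^ β ≤ X ^ (β + 1) := Real.rpow_le_rpow_of_exponent_le hX (by linarith)
  have h5 : (m : ℝ) * X + (2 : ℝ) ^ β * X ^ β ≤ c * X ^ (β + 1) := by
    rw [hc, add_mul]
    exact add_le_add (mul_le_mul_of_nonneg_left h3 (Nat.cast_nonneg m))
      (mul_le_mul_of_nonneg_left h4 h2.le)
  have e : ∀ y : ℝ, 0 < y → y * y ^ (β + 1) = y ^ (β + 2) := fun y hy => by
    rw [show β + 2 = 1 + (β + 1) by ring, Real.rpow_add hy 1 (β + 1), Real.rpow_one]
  rcases le_total c X with h | h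
  · have h6 : c * X ^ (β + 1) ≤ X ^ (β + 2) := by
      rw [← e X hX0]
      exact mul_le_mul_of_nonneg_right h (by positivity)
    have h7 : 0 ≤ c ^ (β + 2) := by positivity
    linarith
  · have h6 : c * X ^ (β + 1) ≤ c ^ (β + 2) := by
      rw [← e c hc0]
      exact mul_le_mul_of_nonneg_left (Real.rpow_le_rpow hX0.le h (by linarith)) hc0.le
    have h7 : 0 ≤ X ^ (β + 2) := by positivity
    linarith

theorem rpow_bound {x B : ℝ} (hx : 1 / 2 ≤ x) :
    x ^ B ≤ (2 : ℝ) ^ |B| * (1 + x) ^ |B| := by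
  have hx0 : 0 < x := by linarith
  have h1 : (1 : ℝ) ≤ (1 + x) ^ |B| := Real.one_le_rpow (by linarith) (abs_nonneg B)
  have h2 : (1 : ℝ) ≤ (2 : ℝ) ^ |B| := Real.one_le_rpow (by norm_num) (abs_nonneg B)
  rcases le_total 0 B with h | h
  · rw [abs_of_nonneg h] at *
    calc x ^ B ≤ (1 + x) ^ B := Real.rpow_le_rpow hx0.le (by linarith) h
      _ ≤ (2 : ℝ) ^ B * (1 + x) ^ B := le_mul_of_one_le_left (by positivity) h2
  · calc x ^ B ≤ (1 / 2 : ℝ) ^ B := Real.rpow_le_rpow_of_nonpos (by norm_num) hx h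
      _ = (2 : ℝ) ^ |B| := by
        rw [abs_of_nonpos h, one_div, Real.inv_rpow (by norm_num), Real.rpow_neg (by norm_num)]
      _ ≤ (2 : ℝ) ^ |B| * (1 + x) ^ |B| := le_mul_of_one_le_right (by positivity) h1

theorem cA_Phi {s : ℂ} (hs : s ≠ 1) :
    cA m G Q lam μ s = s ^ m * (s - 1) ^ m * ((Q : ℂ) ^ s *
      (∏ j, Complex.Gamma ((lam j : ℂ) * s + μ j)) * (G s / (s - 1) ^ m)) := by
  have h : (s - 1) ^ m ≠ 0 := pow_ne_zero _ (sub_ne_zero.mpr hs)
  unfold cA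
  generalize (∏ j, Complex.Gamma ((lam j : ℂ) * s + μ j)) = g
  field_simp

end HalfSAux

open HalfSAux

theorem half_sel (h : Arith a b) (h' : Anal a m G Q lam μ ω) :
    Half a (fun n => b n * (Real.log n : ℂ)) m G Q lam μ ω := by
  refine
    { diff := h'.diff.differentiableOn
      cont := h'.cont
      Qpos := h'.Qpos
      lampos := h'.lampos
      mure := h'.mure
      om := h'.om
      fe := ?_
      fin := ?_
      suma := fun s hs => h.summable_a hs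
      sumL := fun s hs => h.summable_L hs
      nz := fun s hs => by rw [h.euler s hs]; exact Complex.exp_ne_zero _
      ld := ?_ }
  · intro s h0 h1
    have e1 : (1 - starRingEnd ℂ s).re = 1 - s.re := by simp
    have hs0 : s ≠ 0 := by rintro rfl; simp at h0
    have hs1 : s ≠ 1 := by rintro rfl; simp at h1
    have hs1' : 1 - starRingEnd ℂ s ≠ 1 := by
      intro h2
      have : (1 - starRingEnd ℂ s).re = 1 := by rw [h2, Complex.one_re]
      rw [e1] at this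
      linarith
    have hne : ∀ (z : ℂ), 0 < z.re → ∀ j, ∀ t : ℕ, (lam j : ℂ) * z + μ j ≠ -(t : ℂ) := by
      intro z hz j t h2
      have h3 : ((lam j : ℂ) * z + μ j).re = (-(t : ℂ)).re := by rw [h2]
      rw [re_lin, Complex.neg_re, Complex.natCast_re] at h3
      have h4 := mul_pos (h'.lampos j) hz
      have h5 := h'.mure j
      have h6 : (0 : ℝ) ≤ t := Nat.cast_nonneg t
      linarith
    have hfe := h'.fe s hs1 hs0 (hne s h0) (hne _ (by rw [e1]; linarith))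
    rw [cA_Phi hs1, cA_Phi hs1', hfe, map_mul (starRingEnd ℂ) ((1 - starRingEnd ℂ s) ^ m * _)]
    have e2 : starRingEnd ℂ ((1 - starRingEnd ℂ s) ^ m * ((1 - starRingEnd ℂ s) - 1) ^ m) =
        s ^ m * (s - 1) ^ m := by
      rw [map_mul, map_pow, map_pow, map_sub, map_sub, map_sub, Complex.conj_conj, map_one,
        ← mul_pow, ← mul_pow]
      congr 1
      ring
    rw [e2]
    ring
  · obtain ⟨A, B, hAB⟩ := h'.order
    choose K hK0 hK using fun j => gamma_strip (h'.lampos j) (h'.mure j)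
    have hQ := h'.Qpos
    set c : ℝ := (m : ℝ) + (2 : ℝ) ^ |B| with hc
    refine ⟨(Q ^ (1 / 2 : ℝ) + Q ^ (2 : ℝ)) * (∏ j, K j) * |A| * Real.exp (c ^ (|B| + 2)),
      |B| + 2, fun s h1 h2 => ?_⟩
    have hsn : 1 / 2 ≤ ‖s‖ := h1.trans ((le_abs_self _).trans (Complex.abs_re_le_norm s))
    have hX : (1 : ℝ) ≤ 1 + ‖s‖ := by linarith
    have hQs : ‖(Q : ℂ) ^ s‖ ≤ Q ^ (1 / 2 : ℝ) + Q ^ (2 : ℝ) := by
      rw [Complex.norm_cpow_eq_rpow_re_of_pos hQ]
      rcases le_total 1 Q with h3 | h3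
      · exact (Real.rpow_le_rpow_of_exponent_le h3 h2).trans
          (le_add_of_nonneg_left (Real.rpow_nonneg hQ.le _))
      · exact (Real.rpow_le_rpow_of_exponent_ge hQ h3 h1).trans
          (le_add_of_nonneg_right (Real.rpow_nonneg hQ.le _))
    have hprod : ‖∏ j, Complex.Gamma ((lam j : ℂ) * s + μ j)‖ ≤ ∏ j, K j := by
      rw [norm_prod]
      exact Finset.prod_le_prod (fun j _ => norm_nonneg _) (fun j _ => hK j s h1 h2)
    have hG : ‖G s‖ ≤ |A| * Real.exp ((2 : ℝ) ^ |B| * (1 + ‖s‖) ^ |B|) := by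
      refine (hAB s).trans (mul_le_mul (le_abs_self A) ?_ (Real.exp_pos _).le (abs_nonneg A))
      exact Real.exp_le_exp.mpr (rpow_bound hsn)
    have hs : ‖s ^ m‖ ≤ Real.exp ((m : ℝ) * (1 + ‖s‖)) := by
      rw [norm_pow, Real.exp_nat_mul]
      refine pow_le_pow_left₀ (norm_nonneg _) ?_ m
      have := Real.add_one_le_exp (1 + ‖s‖)
      linarith
    have hK' : 0 ≤ ∏ j, K j := Finset.prod_nonneg fun j _ => hK0 j
    have hQ' : 0 ≤ Q ^ (1 / 2 : ℝ) + Q ^ (2 : ℝ) := by positivity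
    have hE := exp_bound m (abs_nonneg B) hX
    unfold cA
    rw [norm_mul, norm_mul, norm_mul]
    calc ‖s ^ m‖ * ‖(Q : ℂ) ^ s‖ * ‖∏ j, Complex.Gamma ((lam j : ℂ) * s + μ j)‖ * ‖G s‖
        ≤ Real.exp ((m : ℝ) * (1 + ‖s‖)) * (Q ^ (1 / 2 : ℝ) + Q ^ (2 : ℝ)) * (∏ j, K j) *
          (|A| * Real.exp ((2 : ℝ) ^ |B| * (1 + ‖s‖) ^ |B|)) := by
          refine mul_le_mul (mul_le_mul (mul_le_mul hs hQs (norm_nonneg _) (Real.exp_pos _).le)
            hprod (norm_nonneg _) (by positivity)) hG (norm_nonneg _) (by positivity)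
      _ = (Q ^ (1 / 2 : ℝ) + Q ^ (2 : ℝ)) * (∏ j, K j) * |A| *
          Real.exp ((m : ℝ) * (1 + ‖s‖) + (2 : ℝ) ^ |B| * (1 + ‖s‖) ^ |B|) := by
          rw [Real.exp_add]; ring
      _ ≤ (Q ^ (1 / 2 : ℝ) + Q ^ (2 : ℝ)) * (∏ j, K j) * |A| *
          Real.exp (c ^ (|B| + 2) + (1 + ‖s‖) ^ (|B| + 2)) := by
          refine mul_le_mul_of_nonneg_left (Real.exp_le_exp.mpr hE) (by positivity)
      _ = (Q ^ (1 / 2 : ℝ) + Q ^ (2 : ℝ)) * (∏ j, K j) * |A| * Real.exp (c ^ (|B| + 2)) *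
          Real.exp ((1 + ‖s‖) ^ (|B| + 2)) := by
          rw [Real.exp_add]; ring
  · intro s hs
    have hopen : IsOpen {z : ℂ | 1 < z.re} := isOpen_lt continuous_const Complex.continuous_re
    have hev : LSeries a =ᶠ[𝓝 s] fun z => Complex.exp (LSeries b z) := by
      filter_upwards [hopen.mem_nhds hs] with z hz
      exact h.euler z hz
    have hab : abscissaOfAbsConv b < s.re := by
      obtain ⟨x, hx1, hx2⟩ := exists_between hs
      have h1 : LSeriesSummable b (x : ℂ) := h.summable_b (by simpa using hx1)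
      have h2 := h1.abscissaOfAbsConv_le
      rw [Complex.ofReal_re] at h2
      exact lt_of_le_of_lt h2 (by exact_mod_cast hx2)
    have hd := (LSeries_hasDerivAt hab).cexp
    rw [logDeriv_apply, hev.deriv_eq, hd.deriv, hev.eq_of_nhds]
    have hne := Complex.exp_ne_zero (LSeries b s)
    rw [mul_div_cancel_left₀ _ hne]
    congr 1
    refine LSeries_congr (fun {n} _ => ?_) s
    simp only [logMul]
    rw [mul_comm, Complex.ofReal_log (Nat.cast_nonneg n), Complex.ofReal_natCast]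

end Pool.Agent.Selb
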