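import Pool.Agent.Selb.MelB
import Pool.Agent.Selb.ConjL

/-!
# Selb/HalfX: half-plane data of a primitive Dirichlet L-function

`G = χ.LFunction`, `m = 0`, `Q = (N / π) ^ (1/2)` (real), `lam = fun _ => 1/2`, `μ = fun _ => κ / 2` with
`κ = 0` for even, `1` for odd `χ` (`χ.even_or_odd`). For `0 < re s`:
`cA s = Q ^ s * Γ ((s + κ) / 2) * L (s, χ) = N ^ (s/2) * π ^ (κ/2) * completedLFunction χ s`
(`Gammaℝ (s + κ) = π ^ (-(s + κ)/2) Γ ((s + κ)/2)`, `LFunction_eq_completed_div_gammaFactor`,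
`Gammaℝ_ne_zero_of_re_pos`). Let `W s = N ^ (s/2) * completedLFunction χ s` (entire). By
`IsPrimitive.completedLFunction_one_sub` (at `conj s`) and `completedLFunction_conj`:
`W (1 - conj s) = N ^ ((1 - conj s)/2) * N ^ (conj s - 1/2) * ε * completedLFunction χ⁻¹ (conj s)
= ε * N ^ (conj s / 2) * conj (completedLFunction χ s) = ε * conj (W s)`, with `ε = rootNumber χ`. So
`conj (W (1 - conj s)) = conj ε * W s` for all `s`. Applying this twice, `W s = conj ε * ε * W s`; at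
`s = 2`, `W 2 ≠ 0` (`LFunction_ne_zero_of_one_le_re`), so `‖ε‖ = 1` and `W s = ε * conj (W (1 - conj s))`: take
`ω = ε`.
* `fin`: `completedL_strip hχ (1/2) 2` and `‖N ^ (s/2)‖ ≤ N`; a constant is `≤ C * exp (..)`, as `exp ≥ 1` on
  nonnegative arguments.
* `cont`: `LFunction_eq_LSeries`; `suma`: `LSeriesSummable_of_one_lt_re`; `sumL`, `ld`:
  `LSeriesSummable_twist_vonMangoldt`, `LSeries_twist_vonMangoldt_eq`; `nz`: `LSeries_ne_zero_of_one_lt_re`.
-/

set_option autoImplicit false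

open Complex Metric Filter Topology LSeries

namespace Pool.Agent.Selb

namespace HalfXAux

/-- `N ^ (s / 2) * Λ(s, χ)` -/
noncomputable def W {N : ℕ} [NeZero N] (χ : DirichletCharacter ℂ N) (s : ℂ) : ℂ :=
  (N : ℂ) ^ (s / 2) * χ.completedLFunction s

theorem conj_natCast_cpow (N : ℕ) (s : ℂ) :
    starRingEnd ℂ ((N : ℂ) ^ s) = (N : ℂ) ^ (starRingEnd ℂ s) := by
  have h := Complex.cpow_conj (N : ℂ) s (by
    rw [Complex.natCast_arg]; exact Real.pi_pos.ne)
  rw [h, Complex.conj_natCast]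

theorem W_refl {N : ℕ} [NeZero N] {χ : DirichletCharacter ℂ N} (hp : χ.IsPrimitive)
    (hχ : χ ≠ 1) (s : ℂ) :
    W χ (1 - starRingEnd ℂ s) = χ.rootNumber * starRingEnd ℂ (W χ s) := by
  have hN : (N : ℂ) ≠ 0 := NeZero.ne _
  unfold W
  rw [DirichletCharacter.IsPrimitive.completedLFunction_one_sub hp, completedLFunction_conj hχ,
    map_mul, conj_natCast_cpow, map_div₀, Complex.conj_ofNat]
  have e : (N : ℂ) ^ ((1 - starRingEnd ℂ s) / 2) * (N : ℂ) ^ (starRingEnd ℂ s - 1 / 2) =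
      (N : ℂ) ^ (starRingEnd ℂ s / 2) := by
    rw [← Complex.cpow_add _ _ hN]
    congr 1
    ring
  rw [← e]
  ring

theorem gammaR_ne {κ : ℝ} (hκ : 0 ≤ κ) {s : ℂ} (hs : 0 < s.re) : Gammaℝ (s + κ) ≠ 0 := by
  apply Gammaℝ_ne_zero_of_re_pos
  rw [Complex.add_re, Complex.ofReal_re]
  linarith

theorem exists_kappa {N : ℕ} [NeZero N] (χ : DirichletCharacter ℂ N) :
    ∃ κ : ℝ, 0 ≤ κ ∧ ∀ s : ℂ, χ.gammaFactor s = Gammaℝ (s + κ) := by
  rcases χ.even_or_odd with h | h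
  · exact ⟨0, le_rfl, fun s => by rw [h.gammaFactor_def]; simp⟩
  · exact ⟨1, zero_le_one, fun s => by rw [h.gammaFactor_def]; simp⟩

theorem W_ne {N : ℕ} [NeZero N] {χ : DirichletCharacter ℂ N} (hχ : χ ≠ 1) : W χ 2 ≠ 0 := by
  have hN : (N : ℂ) ≠ 0 := NeZero.ne _
  unfold W
  refine mul_ne_zero ?_ ?_
  · rw [Complex.cpow_ne_zero_iff]
    exact Or.inl hN
  · intro h0
    have h1 := DirichletCharacter.LFunction_ne_zero_of_one_le_re χ (s := 2) (Or.inl hχ) (by simp)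
    apply h1
    rw [DirichletCharacter.LFunction_eq_completed_div_gammaFactor χ 2
      (Or.inl (by norm_num)), h0, zero_div]

theorem norm_rootNumber {N : ℕ} [NeZero N] {χ : DirichletCharacter ℂ N} (hp : χ.IsPrimitive)
    (hχ : χ ≠ 1) : χ.rootNumber * starRingEnd ℂ χ.rootNumber = 1 := by
  have h1 := W_refl hp hχ 2
  have h2 := W_refl hp hχ (1 - starRingEnd ℂ 2)
  rw [h1] at h2
  have e : 1 - starRingEnd ℂ (1 - starRingEnd ℂ (2 : ℂ)) = 2 := by
    simp [Complex.conj_ofNat]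
  rw [e, map_mul, Complex.conj_conj, ← mul_assoc] at h2
  have h3 := W_ne hχ
  have : (χ.rootNumber * starRingEnd ℂ χ.rootNumber - 1) * W χ 2 = 0 := by
    rw [sub_mul, one_mul, ← h2, sub_self]
  rcases mul_eq_zero.mp this with h | h
  · exact sub_eq_zero.mp h
  · exact absurd h h3

theorem W_eq {N : ℕ} [NeZero N] {χ : DirichletCharacter ℂ N} (hp : χ.IsPrimitive)
    (hχ : χ ≠ 1) (s : ℂ) :
    W χ s = χ.rootNumber * starRingEnd ℂ (W χ (1 - starRingEnd ℂ s)) := by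
  rw [W_refl hp hχ s, map_mul, Complex.conj_conj, ← mul_assoc, norm_rootNumber hp hχ, one_mul]

theorem cA_eq {N : ℕ} [NeZero N] {χ : DirichletCharacter ℂ N} {κ : ℝ} (hκ : 0 ≤ κ)
    (hγ : ∀ s : ℂ, χ.gammaFactor s = Gammaℝ (s + κ)) {s : ℂ} (hs : 0 < s.re) :
    cA 0 χ.LFunction (Real.sqrt (N / Real.pi)) (fun _ : Fin 1 => (1 / 2 : ℝ))
      (fun _ : Fin 1 => ((κ / 2 : ℝ) : ℂ)) s = ((Real.pi ^ (κ / 2) : ℝ) : ℂ) * W χ s := by
  have hN : (0 : ℝ) < N := Nat.cast_pos.mpr (Nat.pos_of_ne_zero (NeZero.ne N))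
  have hπ : (0 : ℝ) < Real.pi := Real.pi_pos
  have hπc : (Real.pi : ℂ) ≠ 0 := Complex.ofReal_ne_zero.mpr hπ.ne'
  have hs0 : s ≠ 0 := by
    rintro rfl
    simp at hs
  have hG := gammaR_ne hκ hs
  have hQ : ((Real.sqrt (N / Real.pi) : ℝ) : ℂ) ^ s =
      (N : ℂ) ^ (s / 2) * (Real.pi : ℂ) ^ (-(s / 2)) := by
    have e1 : ((Real.sqrt (N / Real.pi) : ℝ) : ℂ) = ((N / Real.pi : ℝ) : ℂ) ^ ((1 / 2 : ℝ) : ℂ) := by
      rw [Real.sqrt_eq_rpow, Complex.ofReal_cpow (by positivity)]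
    rw [e1]
    have e2 : (((N / Real.pi : ℝ) : ℂ) ^ ((1 / 2 : ℝ) : ℂ)) ^ s =
        ((N / Real.pi : ℝ) : ℂ) ^ (s / 2) := by
      rw [← Complex.cpow_mul]
      · congr 1
        push_cast
        ring
      · rw [← Complex.ofReal_log (by positivity), ← Complex.ofReal_mul, Complex.ofReal_im]
        exact neg_lt_zero.mpr hπ
      · rw [← Complex.ofReal_log (by positivity), ← Complex.ofReal_mul, Complex.ofReal_im]
        exact hπ.le
    rw [e2, div_eq_mul_inv, Complex.ofReal_mul,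
      Complex.mul_cpow_ofReal_nonneg hN.le (by positivity), Complex.ofReal_natCast]
    congr 1
    rw [Complex.ofReal_inv, Complex.inv_cpow _ _ (by
      rw [Complex.arg_ofReal_of_nonneg hπ.le]; exact hπ.ne), Complex.cpow_neg]
  unfold cA W
  rw [pow_zero, one_mul, hQ, Fin.prod_univ_one,
    DirichletCharacter.LFunction_eq_completed_div_gammaFactor χ s (Or.inl hs0), hγ s]
  have hG2 : Gammaℝ (s + κ) = (Real.pi : ℂ) ^ (-(s + κ) / 2) * Gamma ((s + κ) / 2) := by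
    rw [Gammaℝ_def]
  have e3 : ((1 / 2 : ℝ) : ℂ) * s + ((κ / 2 : ℝ) : ℂ) = (s + κ) / 2 := by
    push_cast
    ring
  rw [e3]
  have hG3 : Gamma ((s + κ) / 2) ≠ 0 := by
    intro h
    apply hG
    rw [hG2, h, mul_zero]
  have e4 : (Real.pi : ℂ) ^ (-(s / 2)) = (Real.pi : ℂ) ^ (-(s + κ) / 2) *
      ((Real.pi ^ (κ / 2) : ℝ) : ℂ) := by
    rw [Complex.ofReal_cpow hπ.le, ← Complex.cpow_add _ _ hπc]
    congr 1
    push_cast
    ring
  have hP : (Real.pi : ℂ) ^ (-(s + κ) / 2) ≠ 0 := by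
    rw [Complex.cpow_ne_zero_iff]
    exact Or.inl hπc
  rw [hG2, e4]
  field_simp

end HalfXAux

open HalfXAux

theorem half_chi {N : ℕ} [NeZero N] {χ : DirichletCharacter ℂ N} (hp : χ.IsPrimitive)
    (hχ : χ ≠ 1) : ∃ (Q : ℝ) (lam : Fin 1 → ℝ) (μ : Fin 1 → ℂ) (ω : ℂ),
    Half (fun n => χ n) (fun n => χ n * (ArithmeticFunction.vonMangoldt n : ℂ)) 0
      χ.LFunction Q lam μ ω := by
  have hN : (0 : ℝ) < N := Nat.cast_pos.mpr (Nat.pos_of_ne_zero (NeZero.ne N))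
  have hN1 : (1 : ℝ) ≤ N := by
    exact_mod_cast Nat.one_le_iff_ne_zero.mpr (NeZero.ne N)
  have hπ : (0 : ℝ) < Real.pi := Real.pi_pos
  obtain ⟨κ, hκ, hγ⟩ := exists_kappa χ
  refine ⟨Real.sqrt (N / Real.pi), fun _ => 1 / 2, fun _ => ((κ / 2 : ℝ) : ℂ), χ.rootNumber, ?_⟩
  refine
    { diff := (DirichletCharacter.differentiable_LFunction hχ).differentiableOn
      cont := ?_
      Qpos := Real.sqrt_pos.mpr (by positivity)
      lampos := fun _ => by norm_num
      mure := fun _ => by rw [Complex.ofReal_re]; positivity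
      om := ?_
      fe := ?_
      fin := ?_
      suma := ?_
      sumL := ?_
      nz := ?_
      ld := ?_ }
  · intro s hs
    rw [pow_zero, one_mul]
    exact DirichletCharacter.LFunction_eq_LSeries χ hs
  · have h := norm_rootNumber hp hχ
    rw [Complex.mul_conj] at h
    have h2 : Complex.normSq χ.rootNumber = 1 := by exact_mod_cast h
    rw [Complex.norm_def, h2, Real.sqrt_one]
  · intro s h0 h1
    have h1' : 0 < (1 - starRingEnd ℂ s).re := by
      rw [Complex.sub_re, Complex.one_re, Complex.conj_re]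
      linarith
    rw [cA_eq hκ hγ h0, cA_eq hκ hγ h1', map_mul, Complex.conj_ofReal, W_eq hp hχ s]
    ring
  · obtain ⟨C, hC⟩ := completedL_strip hχ (1 / 2) 2
    refine ⟨Real.pi ^ (κ / 2) * ((N : ℝ) * |C|), 0, fun s h1 h2 => ?_⟩
    have h0 : 0 < s.re := by linarith
    rw [cA_eq hκ hγ h0, norm_mul, Complex.norm_real, Real.norm_of_nonneg (by positivity)]
    have hW : ‖W χ s‖ ≤ (N : ℝ) * |C| := by
      unfold W
      rw [norm_mul]
      refine mul_le_mul ?_ ((hC s h1 h2).trans (le_abs_self C)) (norm_nonneg _) hN.le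
      rw [Complex.norm_natCast_cpow_of_pos (Nat.pos_of_ne_zero (NeZero.ne N))]
      have h3 : (s / 2).re ≤ 1 := by
        have : (s / 2).re = s.re / 2 := by simp
        rw [this]
        linarith
      calc (N : ℝ) ^ (s / 2).re ≤ (N : ℝ) ^ (1 : ℝ) := Real.rpow_le_rpow_of_exponent_le hN1 h3
        _ = N := Real.rpow_one _
    have hE : 1 ≤ Real.exp ((1 + ‖s‖) ^ (0 : ℝ)) := by
      rw [Real.rpow_zero]
      exact Real.one_le_exp zero_le_one
    calc Real.pi ^ (κ / 2) * ‖W χ s‖ ≤ Real.pi ^ (κ / 2) * ((N : ℝ) * |C|) :=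
          mul_le_mul_of_nonneg_left hW (by positivity)
      _ ≤ Real.pi ^ (κ / 2) * ((N : ℝ) * |C|) * Real.exp ((1 + ‖s‖) ^ (0 : ℝ)) :=
          le_mul_of_one_le_right (by positivity) hE
  · intro s hs
    exact DirichletCharacter.LSeriesSummable_of_one_lt_re χ hs
  · intro s hs
    exact DirichletCharacter.LSeriesSummable_twist_vonMangoldt χ hs
  · intro s hs
    exact DirichletCharacter.LSeries_ne_zero_of_one_lt_re χ hs
  · intro s hs
    have h : LSeries (fun n => χ n * (ArithmeticFunction.vonMangoldt n : ℂ)) s =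
        -deriv (LSeries fun n => χ n) s / LSeries (fun n => χ n) s :=
      DirichletCharacter.LSeries_twist_vonMangoldt_eq χ hs
    rw [logDeriv_apply, h, neg_div, neg_neg]

end Pool.Agent.Selb
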