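import Pool.Agent.Selb.MelB
import Pool.Agent.Selb.ConjL

/-!
# Selb/HalfZ: half-plane data of the Riemann zeta function

Take `G = LFunctionTrivChar₁ 1` (`(s - 1) ζ (s)`, value `1` at `s = 1`; entire:
`DirichletCharacter.differentiable_LFunctionTrivChar₁`; for `s ≠ 1`, `LFunctionTrivChar 1 = riemannZeta`
by `LFunction_modOne_eq`), or `Function.update (fun s => (s - 1) * riemannZeta s) 1 1`,
`Q = π ^ (-1/2)`, `lam = fun _ => 1/2`, `μ = fun _ => 0`, `m = 1`, `ω = 1`.
For `0 < re s`, `s ≠ 1`: `Q ^ s * Γ (s/2) = Gammaℝ s` and `Gammaℝ s * ζ s = completedRiemannZeta s`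
(`riemannZeta_def_of_ne_zero`), so `cA s = s * (s - 1) * completedRiemannZeta s =
s * (s - 1) * completedRiemannZeta₀ s + 1` (`completedRiemannZeta_eq`); by continuity (or directly: at `s = 1`
both sides are `1`: `Gammaℝ 1 = 1`) this also holds at `s = 1`.
* `fe`: `completedRiemannZeta₀_one_sub`, `completedZeta0_conj`; `s (s - 1)` is invariant under `s ↦ 1 - s`.
* `fin`: `‖s (s - 1)‖ * C + 1 ≤ (1 + ‖s‖) ^ 2 * C + 1` by `even_strip 0` (`completedRiemannZeta₀ = completedHurwitzZetaEven₀ 0`),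
  and `(1 + x) ^ 2 ≤ exp ((1 + x) ^ 2)` (take `B = 2`, rpow).
* `cont`: `LSeries 1 s = riemannZeta s` for `re s > 1` (`LSeries_one_eq_riemannZeta`). `suma`:
  `LSeriesSummable_one_iff`. `sumL`, `ld`: `LSeriesSummable_vonMangoldt`, `LSeries_vonMangoldt_eq`. `nz`:
  `LSeries_one_ne_zero_of_one_lt_re`.
-/

set_option autoImplicit false

open Complex Metric Filter Topology LSeries

namespace Pool.Agent.Selb

private lemma triv_one : DirichletCharacter.LFunctionTrivChar₁ 1 1 = 1 := by
  unfold DirichletCharacter.LFunctionTrivChar₁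
  rw [Function.update_self]
  simp

private lemma triv_ne {s : ℂ} (hs : s ≠ 1) :
    DirichletCharacter.LFunctionTrivChar₁ 1 s = (s - 1) * riemannZeta s := by
  unfold DirichletCharacter.LFunctionTrivChar₁
  rw [Function.update_of_ne hs, DirichletCharacter.LFunctionTrivChar,
    DirichletCharacter.LFunction_modOne_eq]

private lemma q_cpow (s : ℂ) :
    (((Real.pi ^ (-(1 / 2) : ℝ) : ℝ)) : ℂ) ^ s = (Real.pi : ℂ) ^ (-s / 2) := by
  rw [Complex.ofReal_cpow Real.pi_pos.le, ← Complex.cpow_mul]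
  · congr 1
    push_cast
    ring
  · rw [← Complex.ofReal_log Real.pi_pos.le, ← Complex.ofReal_mul, Complex.ofReal_im]
    linarith [Real.pi_pos]
  · rw [← Complex.ofReal_log Real.pi_pos.le, ← Complex.ofReal_mul, Complex.ofReal_im]
    exact Real.pi_pos.le

private lemma cA_eq {s : ℂ} (hs : 0 < s.re) :
    cA 1 (DirichletCharacter.LFunctionTrivChar₁ 1) (Real.pi ^ (-(1 / 2) : ℝ))
      (fun _ : Fin 1 => (1 / 2 : ℝ)) (fun _ : Fin 1 => (0 : ℂ)) s =
      s * (s - 1) * completedRiemannZeta₀ s + 1 := by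
  have hs0 : s ≠ 0 := by
    rintro rfl
    simp at hs
  have e1 : cA 1 (DirichletCharacter.LFunctionTrivChar₁ 1) (Real.pi ^ (-(1 / 2) : ℝ))
      (fun _ : Fin 1 => (1 / 2 : ℝ)) (fun _ : Fin 1 => (0 : ℂ)) s =
      s * (Gammaℝ s * DirichletCharacter.LFunctionTrivChar₁ 1 s) := by
    unfold cA
    rw [q_cpow, Gammaℝ_def, Fin.prod_univ_one, pow_one]
    have h1 : ((1 / 2 : ℝ) : ℂ) * s + 0 = s / 2 := by push_cast; ring
    rw [h1]
    ring
  rw [e1]
  by_cases h1 : s = 1
  · rw [h1, triv_one, Gammaℝ_one]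
    ring
  · have hG : Gammaℝ s ≠ 0 := Gammaℝ_ne_zero_of_re_pos hs
    have hs1 : 1 - s ≠ 0 := sub_ne_zero.2 (Ne.symm h1)
    rw [triv_ne h1, riemannZeta_def_of_ne_zero hs0, completedRiemannZeta_eq]
    field_simp
    ring

theorem half_zeta : ∃ (G : ℂ → ℂ) (Q : ℝ) (lam : Fin 1 → ℝ) (μ : Fin 1 → ℂ),
    Half (fun _ => 1) (fun n => (ArithmeticFunction.vonMangoldt n : ℂ)) 1 G Q lam μ 1 := by
  refine ⟨DirichletCharacter.LFunctionTrivChar₁ 1, Real.pi ^ (-(1 / 2) : ℝ),
    fun _ => (1 / 2 : ℝ), fun _ => 0, ?_⟩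
  exact
  { diff := (DirichletCharacter.differentiable_LFunctionTrivChar₁ 1).differentiableOn
    cont := by
      intro s hs
      have h1 : s ≠ 1 := by
        rintro rfl
        simp at hs
      rw [triv_ne h1, pow_one]
      congr 1
      exact (LSeries_one_eq_riemannZeta hs).symm
    Qpos := Real.rpow_pos_of_pos Real.pi_pos _
    lampos := fun _ => by norm_num
    mure := fun _ => by simp
    om := norm_one
    fe := by
      intro s hs hs1
      have h2 : 0 < (1 - starRingEnd ℂ s).re := by simp; linarith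
      rw [cA_eq hs, cA_eq h2, one_mul, completedRiemannZeta₀_one_sub, completedZeta0_conj]
      simp only [map_add, map_mul, map_sub, map_one, conj_conj]
      ring
    fin := by
      obtain ⟨C, hC⟩ := even_strip 0 (1 / 2) 2
      refine ⟨|C| + 1, 2, fun s hs hs2 => ?_⟩
      rw [cA_eq (by linarith)]
      have h1 : ‖completedRiemannZeta₀ s‖ ≤ |C| := le_trans (hC s hs hs2) (le_abs_self C)
      have h2 : ‖s - 1‖ ≤ 1 + ‖s‖ := by
        have := norm_sub_le s 1
        rw [norm_one] at this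
        linarith
      have h3 : ‖s‖ ≤ 1 + ‖s‖ := by linarith
      have h4 : ‖s * (s - 1) * completedRiemannZeta₀ s‖ ≤ (1 + ‖s‖) * (1 + ‖s‖) * |C| := by
        rw [norm_mul, norm_mul]
        exact mul_le_mul (mul_le_mul h3 h2 (norm_nonneg _) (by positivity)) h1 (norm_nonneg _)
          (by positivity)
      have h5 : ‖s * (s - 1) * completedRiemannZeta₀ s + 1‖ ≤
          (1 + ‖s‖) * (1 + ‖s‖) * |C| + 1 := by
        refine le_trans (norm_add_le _ _) ?_
        rw [norm_one]
        linarith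
      have h6 : (1 + ‖s‖) ^ (2 : ℝ) = (1 + ‖s‖) * (1 + ‖s‖) := by
        rw [Real.rpow_two, sq]
      rw [h6]
      set x : ℝ := (1 + ‖s‖) * (1 + ‖s‖) with hx
      have hx1 : 1 ≤ x := by
        rw [hx]
        nlinarith [norm_nonneg s]
      have h7 : x + 1 ≤ Real.exp x := Real.add_one_le_exp x
      have h8 : x * |C| ≤ |C| * Real.exp x := by
        rw [mul_comm]
        exact mul_le_mul_of_nonneg_left (by linarith) (abs_nonneg C)
      linarith
    suma := fun s hs => LSeriesSummable_one_iff.2 hs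
    sumL := fun s hs => ArithmeticFunction.LSeriesSummable_vonMangoldt hs
    nz := fun s hs => LSeries_one_ne_zero_of_one_lt_re hs
    ld := by
      intro s hs
      have h1 := ArithmeticFunction.LSeries_vonMangoldt_eq hs
      have h2 : LSeries (fun n => (ArithmeticFunction.vonMangoldt n : ℂ)) s =
          -deriv (LSeries 1) s / LSeries 1 s := h1
      rw [h2, logDeriv_apply]
      show deriv (LSeries 1) s / LSeries 1 s = _
      ring }

end Pool.Agent.Selb
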