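import Pool.Agent.Selb.Core2

set_option autoImplicit false

open Complex Metric Filter Topology LSeries MeasureTheory

namespace Pool.Agent.Selb

/-- average over `[0,T]` -/
noncomputable def av (g : ℝ → ℂ) (T : ℝ) : ℂ := (T : ℂ)⁻¹ * ∫ t in (0 : ℝ)..T, g t

lemma av_tendsto_zero {g : ℝ → ℂ} (hg : Continuous g) (h0 : Tendsto g atTop (𝓝 0)) :
    Tendsto (av g) atTop (𝓝 0) := by
  rw [Metric.tendsto_atTop]
  intro ε hε
  obtain ⟨T0, hT0⟩ := (Metric.tendsto_atTop.1 h0) (ε / 2) (by positivity)
  set T1 := max T0 1 with hT1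
  have hT1pos : 0 < T1 := lt_of_lt_of_le one_pos (le_max_right _ _)
  set I0 := ‖∫ t in (0 : ℝ)..T1, g t‖ with hI0
  refine ⟨max (T1 + 1) (2 * I0 / ε + 1), fun T hT => ?_⟩
  have hTT1 : T1 ≤ T := by
    have := (le_max_left _ _).trans hT
    linarith
  have hTI : 2 * I0 / ε + 1 ≤ T := (le_max_right _ _).trans hT
  have hTpos : 0 < T := by linarith
  rw [dist_zero_right, av, norm_mul, norm_inv, Complex.norm_real, Real.norm_eq_abs,
    abs_of_pos hTpos]
  have hsplit : ∫ t in (0 : ℝ)..T, g t = (∫ t in (0 : ℝ)..T1, g t) + ∫ t in T1..T, g t :=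
    (intervalIntegral.integral_add_adjacent_intervals (hg.intervalIntegrable _ _)
      (hg.intervalIntegrable _ _)).symm
  have h2 : ‖∫ t in T1..T, g t‖ ≤ (ε / 2) * |T - T1| := by
    refine intervalIntegral.norm_integral_le_of_norm_le_const (fun t ht => ?_)
    rw [Set.uIoc_of_le hTT1] at ht
    have := hT0 t ((le_max_left _ _).trans ht.1.le)
    rw [dist_zero_right] at this
    exact this.le
  rw [abs_of_nonneg (by linarith)] at h2
  have h3 : ‖∫ t in (0 : ℝ)..T, g t‖ ≤ I0 + (ε / 2) * (T - T1) := by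
    rw [hsplit]
    exact (norm_add_le _ _).trans (add_le_add le_rfl h2)
  rw [inv_mul_lt_iff₀ hTpos]
  have h4 : 2 * I0 < ε * T := by
    have : 2 * I0 / ε < T := by linarith
    rw [div_lt_iff₀ hε] at this
    linarith
  have hI0' : 0 ≤ I0 := norm_nonneg _
  nlinarith

lemma cpow_it {n : ℕ} (hn : 0 < n) (t : ℝ) :
    (n : ℂ) ^ ((t : ℂ) * I) = Complex.exp ((Real.log n : ℂ) * I * t) := by
  have hn0 : (n : ℂ) ≠ 0 := by exact_mod_cast hn.ne'
  rw [Complex.cpow_def_of_ne_zero hn0, Complex.natCast_log]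
  congr 1
  ring

lemma term_shift (f : ℕ → ℂ) {n m : ℕ} (hn : 0 < n) (t : ℝ) :
    (n : ℂ) ^ ((t : ℂ) * I) * term f (2 + t * I) m =
      term f 2 m * Complex.exp (((Real.log n : ℂ) - (Real.log m : ℂ)) * I * t) := by
  rcases Nat.eq_zero_or_pos m with h0 | hm
  · subst h0; simp
  · have hm0 : (m : ℂ) ≠ 0 := by exact_mod_cast hm.ne'
    rw [term_of_ne_zero hm.ne', term_of_ne_zero hm.ne', Complex.cpow_add _ _ hm0, cpow_it hn,
      cpow_it hm]
    have e1 : Complex.exp (((Real.log n : ℂ) - (Real.log m : ℂ)) * I * t) =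
        Complex.exp ((Real.log n : ℂ) * I * t) / Complex.exp ((Real.log m : ℂ) * I * t) := by
      rw [← Complex.exp_sub]
      congr 1
      ring
    rw [e1]
    have := Complex.exp_ne_zero ((Real.log m : ℂ) * I * t)
    field_simp

lemma norm_exp_it (c : ℝ) (t : ℝ) : ‖Complex.exp ((c : ℂ) * I * t)‖ = 1 := by
  rw [Complex.norm_exp]
  simp

lemma av_exp_bound {c : ℝ} (hc : c ≠ 0) {T : ℝ} (hT : 0 < T) :
    ‖av (fun t => Complex.exp ((c : ℂ) * I * t)) T‖ ≤ 2 / |c| * T⁻¹ := by
  have hcI : (c : ℂ) * I ≠ 0 := by simp [hc]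
  rw [av, integral_exp_mul_complex hcI, norm_mul, norm_inv, Complex.norm_real, Real.norm_eq_abs,
    abs_of_pos hT, mul_comm]
  refine mul_le_mul_of_nonneg_right ?_ (by positivity)
  rw [norm_div, norm_mul, Complex.norm_I, mul_one, Complex.norm_real, Real.norm_eq_abs]
  refine div_le_div_of_nonneg_right ?_ (abs_nonneg _)
  refine (norm_sub_le _ _).trans ?_
  have h1 := norm_exp_it c T
  have h2 := norm_exp_it c 0
  rw [h1]
  rw [h2]
  norm_num

/-- coefficient extraction by vertical averages -/
lemma av_LSeries {f : ℕ → ℂ} (hf : LSeriesSummable f 2) {n : ℕ} (hn : 0 < n) :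
    Tendsto (av (fun t => (n : ℂ) ^ ((t : ℂ) * I) * LSeries f (2 + t * I))) atTop
      (𝓝 (term f 2 n)) := by
  set c : ℕ → ℝ := fun m => Real.log n - Real.log m with hc
  have hcc : ∀ m : ℕ, ((Real.log n : ℂ) - (Real.log m : ℂ)) = (c m : ℂ) := fun m => by
    simp [hc]
  have hfun : ∀ t : ℝ, (n : ℂ) ^ ((t : ℂ) * I) * LSeries f (2 + t * I) =
      ∑' m, term f 2 m * Complex.exp ((c m : ℂ) * I * t) := by
    intro t
    rw [LSeries, ← tsum_mul_left]
    exact tsum_congr (fun m => by rw [term_shift f hn t, hcc])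
  have hev : ∀ T : ℝ, 0 < T →
      av (fun t => (n : ℂ) ^ ((t : ℂ) * I) * LSeries f (2 + t * I)) T =
      ∑' m, term f 2 m * av (fun t => Complex.exp ((c m : ℂ) * I * t)) T := by
    intro T hT
    have hcont : ∀ m : ℕ, Continuous (fun t : ℝ => term f 2 m * Complex.exp ((c m : ℂ) * I * t)) :=
      fun m => by fun_prop
    have h1 : HasSum (fun m => ∫ t in (0 : ℝ)..T, term f 2 m * Complex.exp ((c m : ℂ) * I * t))
        (∫ t in (0 : ℝ)..T, ∑' m, term f 2 m * Complex.exp ((c m : ℂ) * I * t)) := by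
      refine intervalIntegral.hasSum_integral_of_dominated_convergence
        (fun m _ => ‖term f 2 m‖) (fun m => (hcont m).aestronglyMeasurable)
        (fun m => Eventually.of_forall (fun t _ => ?_))
        (Eventually.of_forall (fun t _ => hf.norm)) intervalIntegrable_const
        (Eventually.of_forall (fun t _ => ?_))
      · rw [norm_mul, norm_exp_it, mul_one]
      · have : Summable (fun m => term f 2 m * Complex.exp ((c m : ℂ) * I * t)) := by
          refine Summable.of_norm ?_
          refine hf.norm.congr (fun m => ?_)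
          rw [norm_mul, norm_exp_it, mul_one]
        exact this.hasSum
    unfold av
    rw [show (fun t : ℝ => (n : ℂ) ^ ((t : ℂ) * I) * LSeries f (2 + t * I)) =
      fun t : ℝ => ∑' m, term f 2 m * Complex.exp ((c m : ℂ) * I * t) from funext hfun]
    rw [← h1.tsum_eq, ← tsum_mul_left]
    refine tsum_congr (fun m => ?_)
    rw [intervalIntegral.integral_const_mul]
    ring
  have hlim : Tendsto (fun T : ℝ => ∑' m, term f 2 m *
      av (fun t => Complex.exp ((c m : ℂ) * I * t)) T) atTop
      (𝓝 (∑' m, (if m = n then term f 2 n else 0))) := by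
    refine tendsto_tsum_of_dominated_convergence (bound := fun m => ‖term f 2 m‖) hf.norm ?_ ?_
    · intro m
      by_cases hmn : m = n
      · subst hmn
        simp only [if_true]
        have : Tendsto (fun T : ℝ => term f 2 m * av (fun t => Complex.exp ((c m : ℂ) * I * t)) T)
            atTop (𝓝 (term f 2 m * 1)) := by
          refine Tendsto.const_mul _ ?_
          refine Tendsto.congr' ?_ tendsto_const_nhds
          filter_upwards [eventually_gt_atTop (0 : ℝ)] with T hT
          have hT0 : (T : ℂ) ≠ 0 := by exact_mod_cast hT.ne'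
          simp [av, hc, hT0]
        simpa using this
      · simp only [if_neg hmn]
        rcases Nat.eq_zero_or_pos m with h0 | hm
        · subst h0; simp
        · have hcm : c m ≠ 0 := by
            simp only [hc]
            intro h
            have h1 : Real.log n = Real.log m := by linarith
            have hn' : (0 : ℝ) < n := by exact_mod_cast hn
            have hm' : (0 : ℝ) < m := by exact_mod_cast hm
            have h2 := Real.log_injOn_pos (Set.mem_Ioi.2 hn') (Set.mem_Ioi.2 hm') h1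
            exact hmn (by exact_mod_cast h2.symm)
          have h3 : Tendsto (fun T : ℝ => av (fun t => Complex.exp ((c m : ℂ) * I * t)) T)
              atTop (𝓝 0) := by
            have hb : ∀ᶠ T : ℝ in atTop,
                ‖av (fun t => Complex.exp ((c m : ℂ) * I * t)) T‖ ≤ 2 / |c m| * T⁻¹ := by
              filter_upwards [eventually_gt_atTop (0 : ℝ)] with T hT
              exact av_exp_bound hcm hT
            refine squeeze_zero_norm' hb ?_
            simpa using tendsto_inv_atTop_zero.const_mul (2 / |c m|)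
          simpa using h3.const_mul (term f 2 m)
    · filter_upwards [eventually_gt_atTop (0 : ℝ)] with T hT m
      rw [norm_mul]
      refine mul_le_of_le_one_right (norm_nonneg _) ?_
      rw [av, norm_mul, norm_inv, Complex.norm_real, Real.norm_eq_abs, abs_of_pos hT,
        inv_mul_le_iff₀ hT, mul_one]
      have := intervalIntegral.norm_integral_le_of_norm_le_const (a := 0) (b := T) (C := 1)
        (f := fun t : ℝ => Complex.exp ((c m : ℂ) * I * t)) (fun t _ => (norm_exp_it _ t).le)
      rwa [sub_zero, abs_of_pos hT, one_mul] at this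
  rw [tsum_ite_eq] at hlim
  refine hlim.congr' ?_
  filter_upwards [eventually_gt_atTop (0 : ℝ)] with T hT
  exact (hev T hT).symm

/-- the kernel average -/
noncomputable def kav (y T : ℝ) : ℝ := T⁻¹ * ∫ t in (0 : ℝ)..T, 1 / (1 + (t - y) ^ 2)

lemma kint_le_pi (y : ℝ) {T : ℝ} : ∫ t in (0 : ℝ)..T, 1 / (1 + (t - y) ^ 2) ≤ Real.pi := by
  rw [intervalIntegral.integral_comp_sub_right (fun x => 1 / (1 + x ^ 2)) y,
    integral_one_div_one_add_sq]
  have h1 := Real.arctan_lt_pi_div_two (T - y)
  have h2 := Real.neg_pi_div_two_lt_arctan (0 - y)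
  linarith

lemma kint_nonneg (y : ℝ) {T : ℝ} (hT : 0 ≤ T) : 0 ≤ ∫ t in (0 : ℝ)..T, 1 / (1 + (t - y) ^ 2) :=
  intervalIntegral.integral_nonneg hT (fun t _ => by positivity)

lemma kav_nonneg (y : ℝ) {T : ℝ} (hT : 0 < T) : 0 ≤ kav y T :=
  mul_nonneg (by positivity) (kint_nonneg y hT.le)

lemma kav_tendsto (y : ℝ) : Tendsto (kav y) atTop (𝓝 0) := by
  have h1 : ∀ᶠ T : ℝ in atTop, kav y T ≤ T⁻¹ * Real.pi := by
    filter_upwards [eventually_gt_atTop (0 : ℝ)] with T hT
    exact mul_le_mul_of_nonneg_left (kint_le_pi y) (by positivity)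
  have h2 : ∀ᶠ T : ℝ in atTop, 0 ≤ kav y T := by
    filter_upwards [eventually_gt_atTop (0 : ℝ)] with T hT
    exact kav_nonneg y hT
  have h3 : Tendsto (fun T : ℝ => T⁻¹ * Real.pi) atTop (𝓝 0) := by
    simpa using tendsto_inv_atTop_zero.mul_const Real.pi
  exact tendsto_of_tendsto_of_tendsto_of_le_of_le' tendsto_const_nhds h3 h2 h1

lemma kav_le (y : ℝ) {T : ℝ} (hT : 1 ≤ T) : kav y T ≤ 12 / (1 + |y|) := by
  have hTpos : 0 < T := by linarith
  have hy : 0 ≤ |y| := abs_nonneg y
  rcases le_or_gt T (|y| / 2) with h | h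
  · -- far away
    have h1 : ∫ t in (0 : ℝ)..T, 1 / (1 + (t - y) ^ 2) ≤ ∫ t in (0 : ℝ)..T, 4 / (1 + |y|) := by
      refine intervalIntegral.integral_mono_on hTpos.le ?_ ?_ (fun t ht => ?_)
      · exact (by
          have : Continuous (fun t : ℝ => 1 / (1 + (t - y) ^ 2)) := by
            refine continuous_const.div (by fun_prop) (fun t => by positivity)
          exact this.intervalIntegrable _ _)
      · exact intervalIntegrable_const
      · have h2 : |y| / 2 ≤ |t - y| := by
          have h3 : |y| ≤ |t - y| + |t| := by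
            have := abs_sub_abs_le_abs_sub y t
            rw [abs_sub_comm y t] at this
            linarith
          have h4 : |t| ≤ |y| / 2 := by rw [abs_of_nonneg ht.1]; linarith [ht.2]
          linarith
        have h5 : (|y| / 2) ^ 2 ≤ (t - y) ^ 2 := by
          rw [← sq_abs (t - y)]
          exact pow_le_pow_left₀ (by positivity) h2 2
        rw [div_le_div_iff₀ (by positivity) (by positivity)]
        nlinarith [sq_nonneg (|y| - 1)]
    rw [intervalIntegral.integral_const, sub_zero, smul_eq_mul] at h1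
    unfold kav
    calc T⁻¹ * ∫ t in (0 : ℝ)..T, 1 / (1 + (t - y) ^ 2) ≤ T⁻¹ * (T * (4 / (1 + |y|))) :=
          mul_le_mul_of_nonneg_left h1 (by positivity)
      _ = 4 / (1 + |y|) := by rw [← mul_assoc, inv_mul_cancel₀ hTpos.ne', one_mul]
      _ ≤ 12 / (1 + |y|) := div_le_div_of_nonneg_right (by norm_num) (by positivity)
  · have h1 : kav y T ≤ T⁻¹ * Real.pi :=
      mul_le_mul_of_nonneg_left (kint_le_pi y) (by positivity)
    refine h1.trans ?_
    have h2 : (1 + |y|) / 3 ≤ T := by
      rcases le_or_gt |y| 2 with h3 | h3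
      · linarith
      · linarith
    have hpi : Real.pi ≤ 4 := Real.pi_le_four
    rw [inv_mul_le_iff₀ hTpos, mul_div_assoc', le_div_iff₀ (by positivity)]
    nlinarith [Real.pi_pos]

end Pool.Agent.Selb
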