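import Pool.Agent.Selb.Land

/-!
# Selb/Limit: extraction of the combined coefficients
-/

set_option autoImplicit false

open Complex Metric Filter Topology LSeries MeasureTheory

namespace Pool.Agent.Selb

section

variable {ι : Type*} [Fintype ι] {Ψ : ι → ℂ → ℂ} {Λ : ι → ℕ → ℂ} {m : ι → ℂ} {E : ι → ℂ → ℂ}

lemma re_two_it (t : ℝ) : (2 + (t : ℂ) * I).re = 2 := by simp

lemma Good.deriv_log {Ψ : ℂ → ℂ} {Λ : ℕ → ℂ} {m : ℂ} {E : ℂ → ℂ} (h : Good Ψ Λ m E) {s : ℂ}
    (hs : 1 < s.re) :
    deriv (logDeriv Ψ) s = - m / (s - 1) ^ 2 + deriv E s + LSeries (logMul Λ) s := by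
  have hs1 : s - 1 ≠ 0 := by
    intro h0
    have := congrArg Complex.re h0
    simp at this
    linarith
  have habs : abscissaOfAbsConv Λ < s.re := by
    have h1 : abscissaOfAbsConv Λ ≤ ((1 : ℝ) : EReal) := by
      refine abscissaOfAbsConv_le_of_forall_lt_LSeriesSummable (fun y hy => ?_)
      exact h.summ y (by simpa using hy)
    exact h1.trans_lt (by exact_mod_cast hs)
  have h1 : logDeriv Ψ =ᶠ[𝓝 s] fun w => m / (w - 1) + E w - LSeries Λ w := by
    filter_upwards [(isOpen_half 1).mem_nhds (show (1 : ℝ) < s.re from hs)] with w hw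
    exact h.log w hw
  rw [h1.deriv_eq]
  have hE : DifferentiableAt ℂ E s := h.anE.differentiableAt ((isOpen_half 0).mem_nhds
    (show (0 : ℝ) < s.re by linarith))
  have hL : HasDerivAt (LSeries Λ) (-LSeries (logMul Λ) s) s := LSeries_hasDerivAt habs
  have hm : HasDerivAt (fun w : ℂ => m / (w - 1)) (- m / (s - 1) ^ 2) s := by
    have h2 : HasDerivAt (fun w : ℂ => w - 1) 1 s := (hasDerivAt_id s).sub_const 1
    have h3 : HasDerivAt (fun w : ℂ => m / (w - 1)) ((0 * (s - 1) - m * 1) / (s - 1) ^ 2) s :=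
      (hasDerivAt_const s m).div h2 hs1
    rwa [zero_mul, zero_sub, mul_one] at h3
  have h4 : HasDerivAt (fun w => m / (w - 1) + E w - LSeries Λ w)
      (- m / (s - 1) ^ 2 + deriv E s - -LSeries (logMul Λ) s) s := (hm.add hE.hasDerivAt).sub hL
  rw [h4.deriv]
  ring

lemma comb_hadamard (hG : ∀ i, Good (Ψ i) (Λ i) (m i) (E i)) (c : ι → ℂ) {s : ℂ}
    (hs : 1 < s.re) :
    HasSum (fun z : ℂ => mult c Ψ z / (s - z) ^ 2)
      ((∑ i, c i * m i) / (s - 1) ^ 2 - ∑ i, c i * deriv (E i) s -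
        LSeries (logMul (comb c Λ)) s) := by
  have h1 : HasSum (fun z : ℂ => ∑ i, c i * ((ord (Ψ i) z : ℂ) / (s - z) ^ 2))
      (∑ i, c i * (- deriv (logDeriv (Ψ i)) s)) :=
    hasSum_sum (fun i _ => (hadamard_two (hG i).diff (hG i).gro ((hG i).nz s hs)).mul_left (c i))
  have h2 : (fun z : ℂ => ∑ i, c i * ((ord (Ψ i) z : ℂ) / (s - z) ^ 2)) =
      fun z : ℂ => mult c Ψ z / (s - z) ^ 2 := by
    funext z
    rw [mult, Finset.sum_div]
    exact Finset.sum_congr rfl (fun i _ => by ring)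
  rw [h2] at h1
  have h3 : ∑ i, c i * (- deriv (logDeriv (Ψ i)) s) = (∑ i, c i * m i) / (s - 1) ^ 2 -
      ∑ i, c i * deriv (E i) s - LSeries (logMul (comb c Λ)) s := by
    have h4 : LSeries (logMul (comb c Λ)) s = ∑ i, c i * LSeries (logMul (Λ i)) s := by
      have e1 : logMul (comb c Λ) = ∑ i, c i • logMul (Λ i) := by
        funext n
        simp only [logMul, comb, Finset.sum_apply, Pi.smul_apply, smul_eq_mul, Finset.mul_sum]
        exact Finset.sum_congr rfl (fun i _ => by ring)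
      have hsum : ∀ i, LSeriesSummable (logMul (Λ i)) s := by
        intro i
        refine LSeriesSummable_logMul_of_lt_re ?_
        have h1 : abscissaOfAbsConv (Λ i) ≤ ((1 : ℝ) : EReal) := by
          refine abscissaOfAbsConv_le_of_forall_lt_LSeriesSummable (fun y hy => ?_)
          exact (hG i).summ y (by simpa using hy)
        exact h1.trans_lt (by exact_mod_cast hs)
      rw [e1, LSeries_sum (fun i _ => (hsum i).smul (c i))]
      exact Finset.sum_congr rfl (fun i _ => by rw [LSeries_smul])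
    rw [h4, Finset.sum_div, ← Finset.sum_sub_distrib, ← Finset.sum_sub_distrib]
    refine Finset.sum_congr rfl (fun i _ => ?_)
    rw [(hG i).deriv_log hs]
    ring
  rwa [h3] at h1

lemma norm_sub_sq_ge {z : ℂ} (hz : z.re ≤ 1) (t : ℝ) :
    1 + (t - z.im) ^ 2 ≤ ‖(2 + (t : ℂ) * I - z)‖ ^ 2 := by
  rw [← Complex.normSq_eq_norm_sq, Complex.normSq_apply]
  simp only [sub_re, add_re, sub_im, add_im, re_ofNat, im_ofNat, mul_re, mul_im, ofReal_re,
    ofReal_im, I_re, I_im]
  nlinarith

lemma norm_kernel_le {z : ℂ} (hz : z.re ≤ 1) (w : ℂ) (t : ℝ) :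
    ‖w / (2 + (t : ℂ) * I - z) ^ 2‖ ≤ ‖w‖ * (1 / (1 + (t - z.im) ^ 2)) := by
  rw [norm_div, norm_pow, mul_one_div]
  exact div_le_div_of_nonneg_left (norm_nonneg _) (by positivity) (norm_sub_sq_ge hz t)

lemma norm_cpow_it {n : ℕ} (hn : 0 < n) (t : ℝ) : ‖(n : ℂ) ^ ((t : ℂ) * I)‖ = 1 := by
  rw [Complex.norm_natCast_cpow_of_pos hn]
  simp

lemma cont_cpow_it {n : ℕ} (hn : 0 < n) : Continuous (fun t : ℝ => (n : ℂ) ^ ((t : ℂ) * I)) := by
  have : (n : ℂ) ≠ 0 := by exact_mod_cast hn.ne'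
  have h : Continuous (fun t : ℝ => ((t : ℂ) * I)) := by fun_prop
  exact h.const_cpow (Or.inl this)

/-- the zero sum disappears in the average -/
lemma av_zero_sum {M : ℂ → ℂ} (hre : ∀ z, M z ≠ 0 → 0 ≤ z.re ∧ z.re ≤ 1)
    (hs : Summable (fun z : ℂ => ‖M z‖ / (1 + ‖z‖))) {n : ℕ} (hn : 0 < n) {Z : ℝ → ℂ}
    (hZ : ∀ t : ℝ, HasSum (fun z : ℂ => M z / (2 + (t : ℂ) * I - z) ^ 2) (Z t)) :
    Tendsto (av (fun t => (n : ℂ) ^ ((t : ℂ) * I) * Z t)) atTop (𝓝 0) := by
  set U : Set ℂ := Function.support M with hU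
  have hUc : U.Countable := by
    have h1 := hs.countable_support
    refine h1.mono (fun z hz => ?_)
    have hz' : M z ≠ 0 := hz
    have : ‖M z‖ / (1 + ‖z‖) ≠ 0 := div_ne_zero (norm_ne_zero_iff.2 hz') (by positivity)
    exact this
  have : Countable U := hUc.to_subtype
  set F : U → ℝ → ℂ := fun z t => (n : ℂ) ^ ((t : ℂ) * I) * (M z / (2 + (t : ℂ) * I - z) ^ 2) with hF
  have hre1 : ∀ z : U, (z : ℂ).re ≤ 1 := fun z => (hre z z.2).2
  have hre0 : ∀ z : U, 0 ≤ (z : ℂ).re := fun z => (hre z z.2).1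
  have hFn : ∀ (z : U) (t : ℝ), ‖F z t‖ ≤ ‖M z‖ * (1 / (1 + (t - (z : ℂ).im) ^ 2)) := by
    intro z t
    simp only [hF]
    rw [norm_mul, norm_cpow_it hn, one_mul]
    exact norm_kernel_le (hre1 z) _ t
  have hFc : ∀ z : U, Continuous (F z) := by
    intro z
    refine (cont_cpow_it hn).mul (continuous_const.div (by fun_prop) (fun t => ?_))
    have h1 := norm_sub_sq_ge (hre1 z) t
    intro h0
    have h2 : ‖(2 + (t : ℂ) * I - (z : ℂ))‖ ^ 2 = 0 := by rw [← norm_pow, h0, norm_zero]
    rw [h2] at h1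
    nlinarith [sq_nonneg (t - (z : ℂ).im)]
  have hFs : ∀ t : ℝ, HasSum (fun z : U => F z t) ((n : ℂ) ^ ((t : ℂ) * I) * Z t) := by
    intro t
    have h1 : HasSum ((fun z : ℂ => M z / (2 + (t : ℂ) * I - z) ^ 2) ∘ ((↑) : U → ℂ)) (Z t) := by
      rw [hasSum_subtype_iff_of_support_subset]
      · exact hZ t
      · intro z hz
        have hz' : M z / (2 + (t : ℂ) * I - z) ^ 2 ≠ 0 := hz
        have : M z ≠ 0 := fun h => hz' (by rw [h, zero_div])
        exact this
    exact h1.mul_left _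
  have hsU : Summable (fun z : U => ‖M z‖ / (1 + ‖(z : ℂ)‖)) := hs.subtype U
  have hzb : ∀ z : U, 1 + ‖(z : ℂ)‖ ≤ 2 * (1 + |(z : ℂ).im|) := by
    intro z
    have h1 := Complex.norm_le_abs_re_add_abs_im (z : ℂ)
    rw [abs_of_nonneg (hre0 z)] at h1
    have := hre1 z
    have h2 := abs_nonneg (z : ℂ).im
    linarith
  -- interchange
  have hint : ∀ T : ℝ, 0 < T → av (fun t => (n : ℂ) ^ ((t : ℂ) * I) * Z t) T =
      ∑' z : U, av (F z) T := by
    intro T hT
    set K : ℝ := 4 * (1 + T) ^ 2 with hK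
    have hKb : ∀ (z : U) (t : ℝ), t ∈ Set.uIoc 0 T →
        ‖F z t‖ ≤ K * (‖M z‖ / (1 + ‖(z : ℂ)‖)) := by
      intro z t ht
      rw [Set.uIoc_of_le hT.le] at ht
      refine (hFn z t).trans ?_
      have h1 : 1 + |(z : ℂ).im| ≤ 2 * (1 + T) * (1 + (t - (z : ℂ).im) ^ 2) := by
        have h2 : |(z : ℂ).im| ≤ T + |t - (z : ℂ).im| := by
          have h3 := abs_sub_abs_le_abs_sub (z : ℂ).im t
          rw [abs_sub_comm (z : ℂ).im t, abs_of_pos ht.1] at h3
          linarith [ht.2]
        have h4 : |t - (z : ℂ).im| ≤ (1 + (t - (z : ℂ).im) ^ 2) / 2 := by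
          rw [← sq_abs (t - (z : ℂ).im)]
          nlinarith [sq_nonneg (|t - (z : ℂ).im| - 1)]
        nlinarith [sq_nonneg (t - (z : ℂ).im)]
      have h5 : 1 + ‖(z : ℂ)‖ ≤ K * (1 + (t - (z : ℂ).im) ^ 2) := by
        have h6 := hzb z
        have h7 : 2 * (1 + |(z : ℂ).im|) ≤ 4 * (1 + T) * (1 + (t - (z : ℂ).im) ^ 2) := by linarith
        have h8 : 4 * (1 + T) ≤ K := by
          rw [hK]
          nlinarith
        have h9 : 4 * (1 + T) * (1 + (t - (z : ℂ).im) ^ 2) ≤ K * (1 + (t - (z : ℂ).im) ^ 2) :=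
          mul_le_mul_of_nonneg_right h8 (by positivity)
        linarith
      rw [mul_one_div, mul_div_assoc', div_le_div_iff₀ (by positivity) (by positivity)]
      have h10 := mul_le_mul_of_nonneg_left h5 (norm_nonneg (M z))
      nlinarith
    have h1 : HasSum (fun z : U => ∫ t in (0 : ℝ)..T, F z t)
        (∫ t in (0 : ℝ)..T, (n : ℂ) ^ ((t : ℂ) * I) * Z t) := by
      refine intervalIntegral.hasSum_integral_of_dominated_convergence
        (fun z _ => K * (‖M z‖ / (1 + ‖(z : ℂ)‖))) (fun z => (hFc z).aestronglyMeasurable)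
        (fun z => Eventually.of_forall (fun t ht => hKb z t ht))
        (Eventually.of_forall (fun t _ => hsU.mul_left K)) intervalIntegrable_const
        (Eventually.of_forall (fun t _ => hFs t))
    unfold av
    rw [← h1.tsum_eq, ← tsum_mul_left]
  have hlim : Tendsto (fun T : ℝ => ∑' z : U, av (F z) T) atTop (𝓝 (∑' _ : U, (0 : ℂ))) := by
    have hbd : ∀ (z : U) (T : ℝ), 0 < T → ‖av (F z) T‖ ≤ ‖M z‖ * kav (z : ℂ).im T := by
      intro z T hT
      unfold av kav
      rw [norm_mul, norm_inv, Complex.norm_real, Real.norm_eq_abs, abs_of_pos hT,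
        mul_left_comm]
      refine mul_le_mul_of_nonneg_left ?_ (by positivity)
      rw [← intervalIntegral.integral_const_mul]
      refine intervalIntegral.norm_integral_le_of_norm_le hT.le
        (Eventually.of_forall (fun t _ => hFn z t)) ?_
      have : Continuous (fun t : ℝ => ‖M z‖ * (1 / (1 + (t - (z : ℂ).im) ^ 2))) := by
        refine continuous_const.mul (continuous_const.div (by fun_prop) (fun t => by positivity))
      exact this.intervalIntegrable _ _
    refine tendsto_tsum_of_dominated_convergence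
      (bound := fun z : U => 24 * (‖M z‖ / (1 + ‖(z : ℂ)‖))) (hsU.mul_left 24) ?_ ?_
    · intro z
      have h1 : Tendsto (fun T : ℝ => ‖M z‖ * kav (z : ℂ).im T) atTop (𝓝 (‖M z‖ * 0)) :=
        (kav_tendsto _).const_mul _
      rw [mul_zero] at h1
      refine squeeze_zero_norm' ?_ h1
      filter_upwards [eventually_gt_atTop (0 : ℝ)] with T hT
      exact hbd z T hT
    · filter_upwards [eventually_ge_atTop (1 : ℝ)] with T hT z
      refine (hbd z T (by linarith)).trans ?_
      have h1 := kav_le (z : ℂ).im hT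
      have h2 : 12 / (1 + |(z : ℂ).im|) ≤ 24 / (1 + ‖(z : ℂ)‖) := by
        rw [div_le_div_iff₀ (by positivity) (by positivity)]
        linarith [hzb z]
      calc ‖M z‖ * kav (z : ℂ).im T ≤ ‖M z‖ * (24 / (1 + ‖(z : ℂ)‖)) :=
            mul_le_mul_of_nonneg_left (h1.trans h2) (norm_nonneg _)
        _ = 24 * (‖M z‖ / (1 + ‖(z : ℂ)‖)) := by ring
  rw [tsum_zero] at hlim
  refine hlim.congr' ?_
  filter_upwards [eventually_gt_atTop (0 : ℝ)] with T hT
  exact (hint T hT).symm

/-- **coefficient extraction**: if the combined multiplicities are summable against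
`1 / (1 + |z|)` and supported in `Re z ≤ 1`, all combined coefficients vanish. -/
theorem coeff_zero_of_summable (hG : ∀ i, Good (Ψ i) (Λ i) (m i) (E i)) (c : ι → ℂ)
    (hre : ∀ z, mult c Ψ z ≠ 0 → z.re ≤ 1)
    (hs : Summable (fun z : ℂ => ‖mult c Ψ z‖ / (1 + ‖z‖))) {n : ℕ} (hn : 2 ≤ n) :
    comb c Λ n = 0 := by
  have hn0 : 0 < n := by omega
  have hre' : ∀ z, mult c Ψ z ≠ 0 → 0 ≤ z.re ∧ z.re ≤ 1 := by
    intro z hz
    refine ⟨?_, hre z hz⟩
    have h1 : mult c Ψ (1 - (starRingEnd ℂ) z) ≠ 0 := by rwa [mult_symm hG c z]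
    have h2 := hre _ h1
    simp at h2
    exact h2
  set M0 : ℂ := ∑ i, c i * m i with hM0
  set D : ℝ → ℂ := fun t => M0 / (2 + (t : ℂ) * I - 1) ^ 2 -
    ∑ i, c i * deriv (E i) (2 + (t : ℂ) * I) with hD
  set Z : ℝ → ℂ := fun t => D t - LSeries (logMul (comb c Λ)) (2 + (t : ℂ) * I) with hZ
  have h1 : ∀ t : ℝ, HasSum (fun z : ℂ => mult c Ψ z / (2 + (t : ℂ) * I - z) ^ 2) (Z t) := by
    intro t
    exact comb_hadamard hG c (by rw [re_two_it]; norm_num)
  have h2 := av_zero_sum hre' hs hn0 h1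
  -- the elementary part
  have hne : ∀ t : ℝ, (2 + (t : ℂ) * I - 1) ≠ 0 := by
    intro t h0
    have := congrArg Complex.re h0
    simp at this
    norm_num at this
  have hDc : Continuous D := by
    refine Continuous.sub (continuous_const.div (by fun_prop) (fun t => pow_ne_zero _ (hne t)))
      (continuous_finsetSum _ (fun i _ => continuous_const.mul ?_))
    have h3 : ContinuousOn (deriv (E i)) {s : ℂ | 0 < s.re} :=
      ((hG i).anE.deriv (isOpen_half 0)).continuousOn
    exact h3.comp_continuous (by fun_prop) (fun t => by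
      show (0 : ℝ) < (2 + (t : ℂ) * I).re
      rw [re_two_it]; norm_num)
  have hD0 : Tendsto D atTop (𝓝 0) := by
    have h3 : Tendsto (fun t : ℝ => M0 / (2 + (t : ℂ) * I - 1) ^ 2) atTop (𝓝 0) := by
      have hb : ∀ᶠ t : ℝ in atTop, ‖M0 / (2 + (t : ℂ) * I - 1) ^ 2‖ ≤ ‖M0‖ * t⁻¹ := by
        filter_upwards [eventually_ge_atTop (1 : ℝ)] with t ht
        rw [norm_div, norm_pow, div_eq_mul_inv]
        refine mul_le_mul_of_nonneg_left ?_ (norm_nonneg _)
        refine inv_anti₀ (by linarith) ?_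
        have h4 : ‖(2 + (t : ℂ) * I - 1)‖ ^ 2 = 1 + t ^ 2 := by
          rw [← Complex.normSq_eq_norm_sq, Complex.normSq_apply]
          simp
          ring
        rw [h4]
        nlinarith
      refine squeeze_zero_norm' hb ?_
      simpa using tendsto_inv_atTop_zero.const_mul ‖M0‖
    have h4 : Tendsto (fun t : ℝ => ∑ i, c i * deriv (E i) (2 + (t : ℂ) * I)) atTop
        (𝓝 (∑ i, c i * 0)) :=
      tendsto_finsetSum _ (fun i _ => ((hG i).decay).const_mul _)
    have h5 := h3.sub h4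
    simpa using h5
  have h3 : Tendsto (av (fun t => (n : ℂ) ^ ((t : ℂ) * I) * D t)) atTop (𝓝 0) := by
    refine av_tendsto_zero ((cont_cpow_it hn0).mul hDc) ?_
    refine squeeze_zero_norm (a := fun t => ‖D t‖) (fun t => ?_) (by simpa using hD0.norm)
    rw [norm_mul, norm_cpow_it hn0, one_mul]
  -- the Dirichlet series part
  have hsumm : LSeriesSummable (logMul (comb c Λ)) 2 := by
    refine LSeriesSummable_logMul_of_lt_re ?_
    have h1 : abscissaOfAbsConv (comb c Λ) ≤ ((1 : ℝ) : EReal) := by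
      refine abscissaOfAbsConv_le_of_forall_lt_LSeriesSummable (fun y hy => ?_)
      have h1 : comb c Λ = ∑ i, c i • Λ i := by
        funext n
        simp [comb, Finset.sum_apply]
      rw [h1]
      exact LSeriesSummable.sum (fun i _ => ((hG i).summ y (by simpa using hy)).smul (c i))
    exact h1.trans_lt (by norm_num; exact_mod_cast (one_lt_two : (1 : ℝ) < 2))
  have h4 := av_LSeries hsumm hn0
  have hLc : Continuous (fun t : ℝ => LSeries (logMul (comb c Λ)) (2 + (t : ℂ) * I)) := by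
    have h5 : (fun t : ℝ => LSeries (logMul (comb c Λ)) (2 + (t : ℂ) * I)) = fun t => D t - Z t := by
      funext t
      simp only [hZ]
      ring
    have habs : abscissaOfAbsConv (logMul (comb c Λ)) < ((2 : ℝ) : EReal) := by
      rw [abscissaOfAbsConv_logMul]
      have h1 : abscissaOfAbsConv (comb c Λ) ≤ ((1 : ℝ) : EReal) := by
        refine abscissaOfAbsConv_le_of_forall_lt_LSeriesSummable (fun y hy => ?_)
        have h1 : comb c Λ = ∑ i, c i • Λ i := by
          funext n
          simp [comb, Finset.sum_apply]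
        rw [h1]
        exact LSeriesSummable.sum (fun i _ => ((hG i).summ y (by simpa using hy)).smul (c i))
      exact h1.trans_lt (by exact_mod_cast (one_lt_two : (1 : ℝ) < 2))
    have h6 : ContinuousOn (LSeries (logMul (comb c Λ)))
        {s | abscissaOfAbsConv (logMul (comb c Λ)) < s.re} :=
      (LSeries_differentiableOn _).continuousOn
    exact h6.comp_continuous (by fun_prop) (fun t => by
      show abscissaOfAbsConv (logMul (comb c Λ)) < ((2 + (t : ℂ) * I).re : EReal)
      rw [re_two_it]; exact habs)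
  have h5 : Tendsto (av (fun t => (n : ℂ) ^ ((t : ℂ) * I) *
      LSeries (logMul (comb c Λ)) (2 + t * I))) atTop (𝓝 0) := by
    have h6 := h3.sub h2
    rw [sub_zero] at h6
    refine h6.congr' ?_
    filter_upwards with T
    unfold av
    have hZc : Continuous Z := hDc.sub hLc
    rw [← mul_sub, ← intervalIntegral.integral_sub]
    · congr 1
      refine intervalIntegral.integral_congr (fun t _ => ?_)
      simp only [hZ]
      ring
    · exact ((cont_cpow_it hn0).mul hDc).intervalIntegrable _ _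
    · exact ((cont_cpow_it hn0).mul hZc).intervalIntegrable _ _
  have h6 := tendsto_nhds_unique h4 h5
  rw [term_of_ne_zero hn0.ne', div_eq_zero_iff] at h6
  have hlog : Complex.log n ≠ 0 := by
    rw [← Complex.natCast_log]
    have : Real.log n ≠ 0 := by
      have h7 : (1 : ℝ) < n := by exact_mod_cast (by omega : 1 < n)
      exact (Real.log_pos h7).ne'
    exact_mod_cast this
  rcases h6 with h6 | h6
  · rw [logMul] at h6
    exact (mul_eq_zero.1 h6).resolve_left hlog
  · exfalso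
    have hn1 : (n : ℂ) ≠ 0 := by exact_mod_cast hn0.ne'
    rw [Complex.cpow_eq_zero_iff] at h6
    exact hn1 h6.1

end

end Pool.Agent.Selb
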