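import Pool.Agent.Selb.Sdef

/-!
# Selb/MelB: completed L-functions are bounded in vertical strips

If the Mellin transform of `f` converges at `x` and `y` (`MellinConvergent f s` is integrability of
`t ^ (s - 1) • f t` on `Ioi 0`), then for `x ≤ re s ≤ y`
`‖mellin f s‖ ≤ ∫ t ^ (re s - 1) ‖f t‖ ≤ ∫ (t ^ (x - 1) + t ^ (y - 1)) ‖f t‖`.
`completedHurwitzZetaEven₀ a s = ((hurwitzEvenFEPair a).Λ₀ (s / 2)) / 2`, `WeakFEPair.Λ₀ = mellin f_modif`, which
converges everywhere (`P.isStrongFEPair_toStrongFEPair.hasMellin s`, `toStrongFEPair.f = f_modif`);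
`completedHurwitzZetaOdd a s = ((hurwitzOddFEPair a).Λ ((s + 1) / 2)) / 2`, a strong pair, `Λ = mellin f`
(`IsStrongFEPair.Λ_eq`, `.hasMellin`).
`completedL_strip`: `ZMod.completedLFunction_eq` and `ZMod.completedLFunction₀`: for `χ ≠ 1` we have
`χ 0 = 0` (`χ.map_zero'`, as `N ≠ 1`) and `∑ j, χ j = 0`, so `completedLFunction χ s = completedLFunction₀ χ s =
N ^ (-s) * ∑ ...`, and `‖N ^ (-s)‖ = N ^ (- re s)` is bounded for `x ≤ re s ≤ y`.
-/

set_option autoImplicit false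

open Complex Metric Filter Topology LSeries

namespace Pool.Agent.Selb

open MeasureTheory in
theorem mellin_strip {f : ℝ → ℂ} {x y : ℝ} (hx : MellinConvergent f (x : ℂ))
    (hy : MellinConvergent f (y : ℂ)) : ∃ C : ℝ, ∀ s : ℂ, x ≤ s.re → s.re ≤ y →
    ‖mellin f s‖ ≤ C := by
  refine ⟨∫ t in Set.Ioi (0 : ℝ), (‖(t : ℂ) ^ ((x : ℂ) - 1) • f t‖ +
    ‖(t : ℂ) ^ ((y : ℂ) - 1) • f t‖), fun s h1 h2 => ?_⟩
  unfold mellin
  refine norm_integral_le_of_norm_le (hx.norm.add hy.norm) ?_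
  rw [ae_restrict_iff' measurableSet_Ioi]
  refine Filter.Eventually.of_forall fun t ht => ?_
  have ht : 0 < t := ht
  simp only [norm_smul]
  rw [Complex.norm_cpow_eq_rpow_re_of_pos ht, Complex.norm_cpow_eq_rpow_re_of_pos ht,
    Complex.norm_cpow_eq_rpow_re_of_pos ht, ← add_mul]
  refine mul_le_mul_of_nonneg_right ?_ (norm_nonneg _)
  simp only [Complex.sub_re, Complex.one_re, Complex.ofReal_re]
  rcases le_total 1 t with h | h
  · exact (Real.rpow_le_rpow_of_exponent_le h (by linarith)).trans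
      (le_add_of_nonneg_left (Real.rpow_nonneg ht.le _))
  · exact (Real.rpow_le_rpow_of_exponent_ge ht h (by linarith)).trans
      (le_add_of_nonneg_right (Real.rpow_nonneg ht.le _))

theorem even_strip (a : UnitAddCircle) (x y : ℝ) : ∃ C : ℝ, ∀ s : ℂ, x ≤ s.re → s.re ≤ y →
    ‖HurwitzZeta.completedHurwitzZetaEven₀ a s‖ ≤ C := by
  set P := HurwitzZeta.hurwitzEvenFEPair a with hP
  have hM : ∀ s : ℂ, MellinConvergent P.f_modif s := fun s =>
    (P.isStrongFEPair_toStrongFEPair.hasMellin s).1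
  obtain ⟨C, hC⟩ := mellin_strip (hM ((x / 2 : ℝ) : ℂ)) (hM ((y / 2 : ℝ) : ℂ))
  refine ⟨C / 2, fun s h1 h2 => ?_⟩
  have e : (s / 2).re = s.re / 2 := by simp
  have h := hC (s / 2) (by rw [e]; linarith) (by rw [e]; linarith)
  have e2 : HurwitzZeta.completedHurwitzZetaEven₀ a s = mellin P.f_modif (s / 2) / 2 := rfl
  rw [e2, norm_div, Complex.norm_ofNat]
  linarith

theorem odd_strip (a : UnitAddCircle) (x y : ℝ) : ∃ C : ℝ, ∀ s : ℂ, x ≤ s.re → s.re ≤ y →
    ‖HurwitzZeta.completedHurwitzZetaOdd a s‖ ≤ C := by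
  set P := HurwitzZeta.hurwitzOddFEPair a with hP
  have hM : ∀ s : ℂ, MellinConvergent P.f s := fun s =>
    ((HurwitzZeta.isStrong_hurwitzOddFEPair a).hasMellin s).1
  obtain ⟨C, hC⟩ := mellin_strip (hM (((x + 1) / 2 : ℝ) : ℂ)) (hM (((y + 1) / 2 : ℝ) : ℂ))
  refine ⟨C / 2, fun s h1 h2 => ?_⟩
  have e : ((s + 1) / 2).re = (s.re + 1) / 2 := by simp
  have h := hC ((s + 1) / 2) (by rw [e]; linarith) (by rw [e]; linarith)
  have e2 : HurwitzZeta.completedHurwitzZetaOdd a s = mellin P.f ((s + 1) / 2) / 2 := by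
    rw [HurwitzZeta.completedHurwitzZetaOdd, (HurwitzZeta.isStrong_hurwitzOddFEPair a).Λ_eq]
  rw [e2, norm_div, Complex.norm_ofNat]
  linarith

theorem completedL_strip {N : ℕ} [NeZero N] {χ : DirichletCharacter ℂ N} (hχ : χ ≠ 1) (x y : ℝ) :
    ∃ C : ℝ, ∀ s : ℂ, x ≤ s.re → s.re ≤ y → ‖χ.completedLFunction s‖ ≤ C := by
  have hN0 : 0 < N := Nat.pos_of_ne_zero (NeZero.ne N)
  have hN : (1 : ℝ) ≤ N := by exact_mod_cast hN0
  have hN1 : N ≠ 1 := fun h => hχ (DirichletCharacter.level_one' χ h)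
  have h0 : χ 0 = 0 := χ.map_zero' hN1
  have hs : ∑ j, χ j = 0 := χ.sum_eq_zero_of_ne_one hχ
  choose A hA using fun j : ZMod N => even_strip (ZMod.toAddCircle j) x y
  choose B hB using fun j : ZMod N => odd_strip (ZMod.toAddCircle j) x y
  refine ⟨(N : ℝ) ^ (-x) * (∑ j : ZMod N, ‖χ j‖ * A j) +
    (N : ℝ) ^ (-x) * (∑ j : ZMod N, ‖χ j‖ * B j), fun s h1 h2 => ?_⟩
  have e : χ.completedLFunction s = ZMod.completedLFunction₀ (fun j => χ j) s := by
    have := ZMod.completedLFunction_eq (fun j => χ j) s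
    rw [h0, hs] at this
    simp only [mul_zero, zero_div, sub_zero] at this
    exact this
  rw [e, ZMod.completedLFunction₀]
  have hn : ‖(N : ℂ) ^ (-s)‖ ≤ (N : ℝ) ^ (-x) := by
    rw [Complex.norm_natCast_cpow_of_pos hN0, Complex.neg_re]
    exact Real.rpow_le_rpow_of_exponent_le hN (by linarith)
  refine (norm_add_le _ _).trans (add_le_add ?_ ?_)
  · rw [norm_mul]
    refine mul_le_mul hn ?_ (norm_nonneg _) (Real.rpow_nonneg (by linarith) _)
    refine (norm_sum_le _ _).trans (Finset.sum_le_sum fun j _ => ?_)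
    rw [norm_mul]
    exact mul_le_mul_of_nonneg_left (hA j s h1 h2) (norm_nonneg _)
  · rw [norm_mul]
    refine mul_le_mul hn ?_ (norm_nonneg _) (Real.rpow_nonneg (by linarith) _)
    refine (norm_sum_le _ _).trans (Finset.sum_le_sum fun j _ => ?_)
    rw [norm_mul]
    exact mul_le_mul_of_nonneg_left (hB j s h1 h2) (norm_nonneg _)

end Pool.Agent.Selb
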