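import Mathlib
import Pool.Agent.PalSieve.Mertens
import Pool.Agent.FZ.DMert

/-!
# Selb/Tauber: a bounded Tauberian comparison over primes

Mertens (`Pool.Agent.Sv.abs_sum_inv_sub_le`, for `2 ≤ n ≤ m`):
`|∑ p ∈ primes of [n, m), 1/p - (log log m - log log n)| ≤ 9 / log n`.
Put `L = log X ≥ log 3 > 1`, `δ = 1 / L ∈ (0, 1]`, so `κ * log (1/δ) = κ * log log X` and
`p ^ (-(1 + δ)) = p ^ (-δ) / p`. It is enough to bound
`∑_{p ≤ X} (1 - p ^ (-δ)) / p` and `∑_{p > X} p ^ (-1-δ)` by absolute constants (times `B`).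
* `1 - p ^ (-δ) = 1 - exp (- δ log p) ≤ δ log p`, so the first sum is `≤ (1 / L) ∑_{p ≤ X} log p / p`, and
  `∑_{p ≤ X} log p / p ≤ A * L`: split `[2, X]` into the ranges `X ^ (1/2^(j+1)) < p ≤ X ^ (1/2^j)`: there
  `log p ≤ L / 2 ^ j` and `∑ 1/p ≤ log 2 + O(1)` by Mertens (or: use any Chebyshev/Mertens bound in
  `Mathlib`/`Pool.Agent`: `ZC.mertens`/`FZ.mertens_prime` in `Pool/Agent/FZ/DMert.lean` gives
  `∑_{p ≤ e^b} log p / p ≤ b + C` directly).
* second sum: for `j ≥ 0` and `X ^ (2^j) < p ≤ X ^ (2^(j+1))`: `p ^ (-δ) ≤ exp (- 2 ^ j)` and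
  `∑ 1/p ≤ log 2 + 9 / log 3 + 1` by Mertens, and `∑_j exp (- 2 ^ j) < ∞` (`exp (-2^j) ≤ 2^(-j)`). (Or, with the
  previous bound, by partial summation.) The summability of `p ↦ w p * p ^ (-(1 + δ))` follows from the
  summability of `n ^ (-(1 + δ))`.
-/

set_option autoImplicit false

namespace Pool.Agent.Selb

/-- one block `k L < log p ≤ (k+1) L` of the tail. -/
lemma tauber_block {C0 : ℝ} (hM : ∀ a b : ℝ, 0 ≤ a → a ≤ b →
    |(∑ p ∈ FZ.prs a b, Real.log p / (p : ℝ)) - (b - a)| ≤ C0) (hC0 : 0 < C0)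
    {L : ℝ} (hL : 1 ≤ L) (k : ℕ) (hk : 1 ≤ k) :
    ∑ p ∈ FZ.prs (k * L) ((k + 1) * L), (p : ℝ) ^ (-(1 + 1 / L)) ≤ (1 + C0) * (1 / 2) ^ k := by
  have hk' : (1 : ℝ) ≤ k := by exact_mod_cast hk
  have hL0 : 0 < L := by linarith
  have h1 : ∀ p ∈ FZ.prs (k * L) ((k + 1) * L),
      (p : ℝ) ^ (-(1 + 1 / L)) ≤ (1 / 2) ^ k / L * (Real.log p / p) := by
    intro p hp
    rw [FZ.mem_prs] at hp
    obtain ⟨hp1, hp2, -⟩ := hp
    have hp0 : (0 : ℝ) < p := by exact_mod_cast hp1.pos
    have h2 : (p : ℝ) ^ (-(1 + 1 / L)) = (p : ℝ) ^ (-(1 / L)) / p := by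
      rw [neg_add, Real.rpow_add hp0, Real.rpow_neg_one]
      field_simp
    have h3 : (p : ℝ) ^ (-(1 / L)) ≤ (1 / 2) ^ k := by
      rw [Real.rpow_def_of_pos hp0]
      have h4 : Real.log p * -(1 / L) ≤ -(k : ℝ) := by
        rw [mul_neg, neg_le_neg_iff, mul_one_div, le_div_iff₀ hL0]
        exact hp2.le
      refine (Real.exp_le_exp.2 h4).trans ?_
      have h5 : Real.exp (-(k : ℝ)) = (Real.exp (-1)) ^ k := by
        rw [← Real.exp_nat_mul]
        congr 1
        ring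
      rw [h5]
      apply pow_le_pow_left₀ (Real.exp_pos _).le
      have h6 : Real.exp (-1) ≤ 1 / 2 := by
        rw [Real.exp_neg, one_div]
        apply inv_anti₀ (by norm_num)
        have := Real.add_one_le_exp (1 : ℝ)
        linarith
      exact h6
    have h7 : 1 ≤ Real.log p / L := by
      rw [le_div_iff₀ hL0, one_mul]
      nlinarith
    rw [h2]
    calc (p : ℝ) ^ (-(1 / L)) / p ≤ (1 / 2) ^ k / p := by gcongr
      _ = (1 / 2) ^ k / p * 1 := by ring
      _ ≤ (1 / 2) ^ k / p * (Real.log p / L) := by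
        apply mul_le_mul_of_nonneg_left h7; positivity
      _ = (1 / 2) ^ k / L * (Real.log p / p) := by ring
  refine (Finset.sum_le_sum h1).trans ?_
  rw [← Finset.mul_sum]
  have h8 := (abs_le.1 (hM (k * L) ((k + 1) * L) (by positivity) (by nlinarith))).2
  have h9 : ∑ p ∈ FZ.prs (k * L) ((k + 1) * L), Real.log p / (p : ℝ) ≤ (1 + C0) * L := by
    nlinarith
  calc (1 / 2) ^ k / L * ∑ p ∈ FZ.prs (k * L) ((k + 1) * L), Real.log p / (p : ℝ)
      ≤ (1 / 2) ^ k / L * ((1 + C0) * L) := by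
        apply mul_le_mul_of_nonneg_left h9; positivity
    _ = (1 + C0) * (1 / 2) ^ k := by field_simp

lemma tauber_tail {C0 : ℝ} (hM : ∀ a b : ℝ, 0 ≤ a → a ≤ b →
    |(∑ p ∈ FZ.prs a b, Real.log p / (p : ℝ)) - (b - a)| ≤ C0) (hC0 : 0 < C0)
    {L : ℝ} (hL : 1 ≤ L) (K : ℕ) :
    ∑ p ∈ FZ.prs L ((K + 1) * L), (p : ℝ) ^ (-(1 + 1 / L)) ≤ (1 + C0) * (1 - (1 / 2) ^ K) := by
  have hL0 : 0 < L := by linarith
  induction K with
  | zero =>
    have : FZ.prs L (((0 : ℕ) + 1 : ℝ) * L) = ∅ := by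
      ext p
      rw [FZ.mem_prs]
      simp only [Nat.cast_zero, zero_add, one_mul, Finset.notMem_empty, iff_false]
      rintro ⟨-, h1, h2⟩
      linarith
    rw [this]
    simp
  | succ K ih =>
    have h1 : L ≤ ((K : ℝ) + 1) * L := by
      have : (0 : ℝ) ≤ K := Nat.cast_nonneg K
      nlinarith
    rw [FZ.prs_split (a := L) (b := (K + 1) * L) (c := ((K + 1 : ℕ) + 1) * L) h1
      (by push_cast; nlinarith)]
    have h2 := tauber_block hM hC0 hL (K + 1) (by omega)
    push_cast at h2 ⊢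
    refine (add_le_add ih h2).trans (le_of_eq ?_)
    rw [pow_succ]
    ring

theorem tauber {w : ℕ → ℝ} {B : ℝ} (hw : ∀ n, |w n| ≤ B) {κ C : ℝ}
    (h : ∀ δ : ℝ, 0 < δ → δ ≤ 1 →
      |∑' n : ℕ, (if n.Prime then w n * (n : ℝ) ^ (-(1 + δ)) else 0) - κ * Real.log (1 / δ)| ≤ C) :
    ∃ C' : ℝ, ∀ X : ℝ, 3 ≤ X →
      |∑ p ∈ (Finset.range (⌊X⌋₊ + 1)).filter Nat.Prime, w p / (p : ℝ) -
        κ * Real.log (Real.log X)| ≤ C' := by
  obtain ⟨C0, hC0, hM⟩ := FZ.mertens_prime
  have hB : 0 ≤ B := (abs_nonneg _).trans (hw 0)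
  refine ⟨C + (B * (1 + Real.log 4) + B * (1 + C0)), fun X hX => ?_⟩
  have hX0 : 0 < X := by linarith
  set L := Real.log X with hL
  have hL1 : 1 ≤ L := by
    rw [hL, Real.le_log_iff_exp_le hX0]
    have := Real.exp_one_lt_d9
    linarith
  have hL0 : 0 < L := by linarith
  have hδ : 0 < 1 / L := by positivity
  have h1 := h (1 / L) hδ (by rw [div_le_one hL0]; exact hL1)
  rw [one_div_one_div] at h1
  obtain ⟨N, hN⟩ : ∃ N, N = ⌊X⌋₊ + 1 := ⟨_, rfl⟩
  rw [← hN]
  set f : ℕ → ℝ := fun n => if n.Prime then w n * (n : ℝ) ^ (-(1 + 1 / L)) else 0 with hf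
  have hsum0 : Summable fun n : ℕ => B * (n : ℝ) ^ (-(1 + 1 / L)) := by
    apply Summable.mul_left
    rw [Real.summable_nat_rpow]
    linarith
  have hfle : ∀ n, ‖f n‖ ≤ B * (n : ℝ) ^ (-(1 + 1 / L)) := by
    intro n
    simp only [hf]
    split_ifs
    · rw [Real.norm_eq_abs, abs_mul, abs_of_nonneg (a := (n : ℝ) ^ (-(1 + 1 / L))) (by positivity)]
      apply mul_le_mul_of_nonneg_right (hw n) (by positivity)
    · rw [norm_zero]
      positivity
  have hsf : Summable f := Summable.of_norm_bounded hsum0 hfle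
  have hsplit := hsf.sum_add_tsum_nat_add N
  -- the tail
  have htail : |∑' n, f (n + N)| ≤ B * (1 + C0) := by
    have hs1 : Summable fun n => ‖f (n + N)‖ :=
      (summable_nat_add_iff (f := fun n => ‖f n‖) N).2 hsf.norm
    refine (norm_tsum_le_tsum_norm hs1).trans ?_
    apply Real.tsum_le_of_sum_range_le (fun n => norm_nonneg _)
    intro M
    obtain ⟨K, hK⟩ := exists_nat_ge (Real.log (M + N) / L)
    have hK' : Real.log (M + N) ≤ (K + 1) * L := by
      rw [div_le_iff₀ hL0] at hK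
      linarith
    have h2 : ∑ n ∈ Finset.range M, ‖f (n + N)‖ ≤
        ∑ p ∈ FZ.prs L ((K + 1) * L), B * (p : ℝ) ^ (-(1 + 1 / L)) := by
      have h3 : ∑ n ∈ Finset.range M, ‖f (n + N)‖ =
          ∑ p ∈ (Finset.range M).image (fun n => n + N), ‖f p‖ := by
        rw [Finset.sum_image]
        intro a _ b _ hab
        simpa using hab
      rw [h3]
      have h4 : ∑ p ∈ (Finset.range M).image (fun n => n + N), ‖f p‖ =
          ∑ p ∈ ((Finset.range M).image (fun n => n + N)).filter Nat.Prime, ‖f p‖ := by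
        rw [Finset.sum_filter]
        apply Finset.sum_congr rfl
        intro p _
        by_cases hp : p.Prime
        · rw [if_pos hp]
        · rw [if_neg hp]
          simp only [hf, if_neg hp, norm_zero]
      rw [h4]
      refine (Finset.sum_le_sum_of_subset_of_nonneg (?_ : _ ⊆ FZ.prs L ((K + 1) * L))
        (fun _ _ _ => norm_nonneg _)).trans (Finset.sum_le_sum fun p _ => hfle p)
      intro p hp
      rw [Finset.mem_filter, Finset.mem_image] at hp
      obtain ⟨⟨n, hn, hnp⟩, hp⟩ := hp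
      rw [Finset.mem_range] at hn
      rw [FZ.mem_prs]
      have hp0 : (0 : ℝ) < p := by exact_mod_cast hp.pos
      refine ⟨hp, ?_, ?_⟩
      · rw [hL]
        apply Real.log_lt_log hX0
        have : X < (N : ℝ) := by
          rw [hN]; push_cast; exact Nat.lt_floor_add_one X
        refine this.trans_le ?_
        rw [← hnp]
        push_cast
        have : (0 : ℝ) ≤ n := Nat.cast_nonneg n
        linarith
      · refine le_trans (Real.log_le_log hp0 ?_) hK'
        rw [← hnp]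
        push_cast
        have : (n : ℝ) ≤ M := by exact_mod_cast hn.le
        linarith
    refine h2.trans ?_
    rw [← Finset.mul_sum]
    apply mul_le_mul_of_nonneg_left _ hB
    refine (tauber_tail hM hC0 hL1 K).trans ?_
    have : (0 : ℝ) ≤ (1 / 2) ^ K := by positivity
    nlinarith
  -- the head
  have hhead : |∑ p ∈ (Finset.range N).filter Nat.Prime, w p / (p : ℝ) -
      ∑ n ∈ Finset.range N, f n| ≤ B * (1 + Real.log 4) := by
    have h2 : ∑ n ∈ Finset.range N, f n =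
        ∑ p ∈ (Finset.range N).filter Nat.Prime, w p * (p : ℝ) ^ (-(1 + 1 / L)) := by
      rw [Finset.sum_filter]
    rw [h2, ← Finset.sum_sub_distrib]
    refine (Finset.abs_sum_le_sum_abs _ _).trans ?_
    have h3 : ∀ p ∈ (Finset.range N).filter Nat.Prime,
        |w p / (p : ℝ) - w p * (p : ℝ) ^ (-(1 + 1 / L))| ≤ B / L * (Real.log p / p) := by
      intro p hp
      rw [Finset.mem_filter] at hp
      have hp0 : (0 : ℝ) < p := by exact_mod_cast hp.2.pos
      have hp1 : (1 : ℝ) ≤ p := by exact_mod_cast hp.2.one_lt.le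
      have h4 : (p : ℝ) ^ (-(1 + 1 / L)) = (p : ℝ) ^ (-(1 / L)) / p := by
        rw [neg_add, Real.rpow_add hp0, Real.rpow_neg_one]
        field_simp
      have h5 : w p / (p : ℝ) - w p * (p : ℝ) ^ (-(1 + 1 / L)) =
          w p * ((1 - (p : ℝ) ^ (-(1 / L))) / p) := by
        rw [h4]; ring
      have h6 : 1 - (p : ℝ) ^ (-(1 / L)) ≤ Real.log p / L := by
        rw [Real.rpow_def_of_pos hp0]
        have := Real.add_one_le_exp (Real.log p * -(1 / L))
        have h7 : Real.log p * -(1 / L) = -(Real.log p / L) := by ring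
        rw [h7] at this ⊢
        linarith
      have h8 : 0 ≤ 1 - (p : ℝ) ^ (-(1 / L)) := by
        have : (p : ℝ) ^ (-(1 / L)) ≤ 1 :=
          Real.rpow_le_one_of_one_le_of_nonpos hp1 (by linarith)
        linarith
      rw [h5, abs_mul, abs_of_nonneg (div_nonneg h8 hp0.le)]
      calc |w p| * ((1 - (p : ℝ) ^ (-(1 / L))) / p) ≤ B * ((Real.log p / L) / p) := by
            apply mul_le_mul (hw p) _ (div_nonneg h8 hp0.le) hB
            exact div_le_div_of_nonneg_right h6 hp0.le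
        _ = B / L * (Real.log p / p) := by ring
    refine (Finset.sum_le_sum h3).trans ?_
    rw [← Finset.mul_sum]
    have hfl : 1 ≤ ⌊X⌋₊ := by
      rw [Nat.one_le_floor_iff]
      linarith
    have h9 := Sv.A_le ⌊X⌋₊ hfl
    unfold Sv.A at h9
    have h10 : Real.log (⌊X⌋₊ : ℝ) ≤ L := by
      apply Real.log_le_log (by exact_mod_cast hfl)
      exact Nat.floor_le hX0.le
    have h11 : ∑ p ∈ (Finset.range N).filter Nat.Prime, Real.log p / (p : ℝ) ≤
        (1 + Real.log 4) * L := by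
      have h12 : 0 ≤ Real.log 4 := Real.log_nonneg (by norm_num)
      rw [hN]
      nlinarith
    calc B / L * ∑ p ∈ (Finset.range N).filter Nat.Prime, Real.log p / (p : ℝ)
        ≤ B / L * ((1 + Real.log 4) * L) := by
          apply mul_le_mul_of_nonneg_left h11; positivity
      _ = B * (1 + Real.log 4) := by field_simp
  have hT : (∑' n : ℕ, (if n.Prime then w n * (n : ℝ) ^ (-(1 + 1 / L)) else 0)) = ∑' n, f n := rfl
  rw [hT, ← hsplit] at h1
  rw [abs_le] at h1 htail hhead ⊢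
  constructor <;> linarith [h1.1, h1.2, htail.1, htail.2, hhead.1, hhead.2]

end Pool.Agent.Selb
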