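import Pool.Agent.Selb.Core
import Pool.Agent.Selb.Tauber

/-!
# Selb/MertAP: Mertens' theorem in arithmetic progressions (with bounded error)

From `Bessel.lean`: `prc a n = if n.Prime then residueClass a n else 0`, where `residueClass a n = Λ n` if
`n ≡ a mod q` and `0` otherwise, and `prc_bound a : ∃ C, ∀ s, 1 < re s → LSeriesSummable (prc a) s ∧
‖LSeries (prc a) s - LSeries (residueClass a) s‖ ≤ C`. Mathlib (`PrimesInAP.lean`) shows for `IsUnit a` that
`LSeries (residueClass a) s - (q.totient)⁻¹ / (s - 1)` extends continuously to `re s ≥ 1`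
(`continuousOn_LFunctionResidueClassAux`, `eqOn_LFunctionResidueClassAux`; see the proof of `prc_tendsto`), so for
`s = 1 + δ`, `0 < δ ≤ 1`:
`S(δ) = ∑_{p ≡ a} log p * p ^ (-(1 + δ)) = 1 / (φ(q) δ) + O(1)` with a uniform constant `C₁` (compactness of `[1, 2]`).
Integrate from `δ` to `1`: `∫_δ^1 log p * p ^ (-(1 + t)) dt = p ^ (-(1 + δ)) - p ^ (-2)`, so (interchange of sum and integral,
all terms nonnegative; `hasSum_integral_of_summable_integral_norm` or `MeasureTheory.integral_tsum`)
`∑_{p ≡ a} p ^ (-(1 + δ)) - ∑_{p ≡ a} p ^ (-2) = (1/φ(q)) log (1/δ) + O(C₁)`.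
Then `tauber` with `w n = if (n : ZMod q) = a then 1 else 0`, `B = 1`, `κ = 1/φ(q)`.
(An alternative to the integration: `F(δ) = ∑_{p ≡ a} p ^ (-(1 + δ))` is differentiable on `(0, ∞)` with
`F' = - S`, mean value inequality for `F(δ) + (1/φ) log δ`.)
-/

set_option autoImplicit false

open Complex Metric Filter Topology LSeries

namespace Pool.Agent.Selb

/-- the indicator of the primes congruent to `a` -/
noncomputable def uap {q : ℕ} (a : ZMod q) : ℕ → ℂ := fun n =>
  if n.Prime then (if (n : ZMod q) = a then 1 else 0) else 0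

lemma uap_norm {q : ℕ} (a : ZMod q) (n : ℕ) : ‖uap a n‖ ≤ 1 := by
  unfold uap
  split_ifs <;> simp

lemma uap_absc {q : ℕ} (a : ZMod q) : abscissaOfAbsConv (uap a) ≤ 1 :=
  abscissaOfAbsConv_le_of_le_const ⟨1, fun n _ => uap_norm a n⟩

lemma logMul_uap {q : ℕ} (a : ZMod q) : LSeries.logMul (uap a) = prc a := by
  funext n
  unfold LSeries.logMul uap prc
  by_cases hn : n.Prime
  · rw [if_pos hn, if_pos hn]
    unfold ArithmeticFunction.vonMangoldt.residueClass
    by_cases ha : (n : ZMod q) = a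
    · rw [if_pos ha, Set.indicator_of_mem (by exact ha), ArithmeticFunction.vonMangoldt_apply_prime hn,
        mul_one, Complex.natCast_log]
    · rw [if_neg ha, Set.indicator_of_notMem (by exact ha), mul_zero, Complex.ofReal_zero]
  · rw [if_neg hn, if_neg hn, mul_zero]

lemma uap_series {q : ℕ} (a : ZMod q) (δ : ℝ) :
    LSeries (uap a) (1 + δ) = ((∑' n : ℕ, (if n.Prime then
      (if (n : ZMod q) = a then (1 : ℝ) else 0) * (n : ℝ) ^ (-(1 + δ)) else 0) : ℝ) : ℂ) := by
  unfold LSeries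
  rw [Complex.ofReal_tsum]
  apply tsum_congr
  intro n
  by_cases hn : n.Prime
  · have hn0 : n ≠ 0 := hn.ne_zero
    rw [LSeries.term_of_ne_zero hn0, if_pos hn]
    unfold uap
    rw [if_pos hn]
    have h1 : (n : ℂ) ^ (1 + (δ : ℂ)) = (((n : ℝ) ^ (1 + δ) : ℝ) : ℂ) := by
      rw [Complex.ofReal_cpow (by positivity)]
      push_cast
      rfl
    rw [h1, Real.rpow_neg (by positivity)]
    push_cast
    split_ifs <;> simp
  · rw [if_neg hn, Complex.ofReal_zero]
    rcases eq_or_ne n 0 with rfl | hn0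
    · simp
    · rw [LSeries.term_of_ne_zero hn0]
      unfold uap
      rw [if_neg hn, zero_div]

lemma uap_main {q : ℕ} [NeZero q] {a : ZMod q} (ha : IsUnit a) :
    ∃ C : ℝ, ∀ δ : ℝ, 0 < δ → δ ≤ 1 →
      |(LSeries (uap a) (1 + δ)).re - (1 / (q.totient : ℝ)) * Real.log (1 / δ)| ≤ C := by
  obtain ⟨C, hC⟩ := prc_bound a
  -- bound of the continuous part
  have hcont : ContinuousOn (fun x : ℝ => ArithmeticFunction.vonMangoldt.LFunctionResidueClassAux a (1 + x))
      (Set.Icc 0 1) := by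
    have h0 := ArithmeticFunction.vonMangoldt.continuousOn_LFunctionResidueClassAux a
    refine h0.comp (by fun_prop) ?_
    intro x hx
    show 1 ≤ ((1 : ℂ) + x).re
    simp
    exact hx.1
  obtain ⟨D, hD⟩ := isCompact_Icc.exists_bound_of_continuousOn hcont
  have hbd : ∀ x : ℝ, 0 < x → x ≤ 1 →
      ‖LSeries (prc a) (1 + x) - (q.totient : ℂ)⁻¹ / x‖ ≤ C + D := by
    intro x hx0 hx1
    have h1 := (hC (1 + x) (by simp; exact hx0)).2
    have h2 := hD x ⟨hx0.le, hx1⟩
    have h3 : ArithmeticFunction.vonMangoldt.LFunctionResidueClassAux a (1 + x) =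
        LSeries (fun n => (ArithmeticFunction.vonMangoldt.residueClass a n : ℂ)) (1 + x) - (q.totient : ℂ)⁻¹ / x := by
      have := ArithmeticFunction.vonMangoldt.eqOn_LFunctionResidueClassAux ha (x := 1 + x)
        (show 1 < ((1 : ℂ) + x).re by simp; exact hx0)
      rw [this]
      simp
    rw [h3] at h2
    calc ‖LSeries (prc a) (1 + x) - (q.totient : ℂ)⁻¹ / x‖ =
        ‖(LSeries (prc a) (1 + x) - LSeries (fun n => (ArithmeticFunction.vonMangoldt.residueClass a n : ℂ)) (1 + x)) +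
          (LSeries (fun n => (ArithmeticFunction.vonMangoldt.residueClass a n : ℂ)) (1 + x) -
            (q.totient : ℂ)⁻¹ / x)‖ := by congr 1; ring
      _ ≤ _ := (norm_add_le _ _).trans (add_le_add h1 h2)
  set F : ℝ → ℝ := fun x => (LSeries (uap a) (1 + x)).re + (1 / (q.totient : ℝ)) * Real.log x
    with hF
  have hderiv : ∀ x : ℝ, 0 < x → HasDerivAt F
      ((-LSeries (prc a) (1 + x)).re + (1 / (q.totient : ℝ)) * x⁻¹) x := by
    intro x hx
    have h1 : HasDerivAt (LSeries (uap a)) (-LSeries (prc a) (1 + x)) (1 + x) := by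
      rw [← logMul_uap a]
      apply LSeries_hasDerivAt
      refine (uap_absc a).trans_lt ?_
      simp
      exact_mod_cast (show (1 : ℝ) < 1 + x by linarith)
    have h2 : HasDerivAt (fun y : ℝ => LSeries (uap a) (1 + y)) (-LSeries (prc a) (1 + x)) x := by
      have h3 : HasDerivAt (fun y : ℂ => LSeries (uap a) (1 + y)) (-LSeries (prc a) (1 + x)) (x : ℂ) := by
        have h4 : HasDerivAt (fun y : ℂ => 1 + y) 1 (x : ℂ) := (hasDerivAt_id _).const_add 1
        have := HasDerivAt.comp (x : ℂ) h1 h4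
        rw [mul_one] at this
        exact this
      exact h3.comp_ofReal
    have h5 : HasDerivAt (fun y : ℝ => (LSeries (uap a) (1 + y)).re)
        ((-LSeries (prc a) (1 + x)).re) x := by
      exact (Complex.reCLM.hasFDerivAt.comp_hasDerivAt x h2)
    exact h5.add ((Real.hasDerivAt_log hx.ne').const_mul _)
  refine ⟨(C + D) + |F 1|, fun δ hδ0 hδ1 => ?_⟩
  have hCD : 0 ≤ C + D := (norm_nonneg _).trans (hbd 1 one_pos le_rfl)
  have hmv : |F δ - F 1| ≤ (C + D) * |δ - 1| := by
    have := (convex_Icc δ 1).norm_image_sub_le_of_norm_hasDerivWithin_le (f := F)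
      (f' := fun x => (-LSeries (prc a) (1 + x)).re + (1 / (q.totient : ℝ)) * x⁻¹) (C := C + D)
      (x := 1) (y := δ)
      (fun x hx => (hderiv x (hδ0.trans_le hx.1)).hasDerivWithinAt)
      (fun x hx => ?_) ⟨hδ1, le_rfl⟩ ⟨le_rfl, hδ1⟩
    · simpa [Real.norm_eq_abs] using this
    · have hx0 : 0 < x := hδ0.trans_le hx.1
      have h6 := hbd x hx0 hx.2
      have h7 : (-LSeries (prc a) (1 + x)).re + (1 / (q.totient : ℝ)) * x⁻¹ =
          -(LSeries (prc a) (1 + x) - (q.totient : ℂ)⁻¹ / x).re := by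
        have h8 : ((q.totient : ℂ)⁻¹ / x).re = (q.totient : ℝ)⁻¹ / x := by
          have : ((q.totient : ℂ)⁻¹ / x) = (((q.totient : ℝ)⁻¹ / x : ℝ) : ℂ) := by push_cast; rfl
          rw [this, Complex.ofReal_re]
        rw [Complex.sub_re, h8, Complex.neg_re]
        ring
      rw [h7, norm_neg, Real.norm_eq_abs]
      exact (Complex.abs_re_le_norm _).trans h6
  have h9 : |δ - 1| ≤ 1 := by
    rw [abs_le]; constructor <;> linarith
  have h10 : (LSeries (uap a) (1 + δ)).re - (1 / (q.totient : ℝ)) * Real.log (1 / δ) = F δ := by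
    simp only [hF, one_div, Real.log_inv]
    ring
  rw [h10]
  have h11 : |F δ| ≤ |F δ - F 1| + |F 1| := by
    have := abs_add_le (F δ - F 1) (F 1)
    simpa using this
  nlinarith [abs_nonneg (F 1)]

theorem mertens_ap {q : ℕ} [NeZero q] {a : ZMod q} (ha : IsUnit a) :
    ∃ C : ℝ, ∀ X : ℝ, 3 ≤ X →
      |∑ p ∈ (Finset.range (⌊X⌋₊ + 1)).filter Nat.Prime,
          (if (p : ZMod q) = a then (1 : ℝ) else 0) / (p : ℝ) -
        (1 / (q.totient : ℝ)) * Real.log (Real.log X)| ≤ C := by
  obtain ⟨C, hC⟩ := uap_main ha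
  refine tauber (w := fun n => if (n : ZMod q) = a then (1 : ℝ) else 0) (B := 1) ?_ (C := C) ?_
  · intro n
    split_ifs <;> simp
  · intro δ hδ0 hδ1
    have h1 := hC δ hδ0 hδ1
    rw [uap_series, Complex.ofReal_re] at h1
    exact h1

end Pool.Agent.Selb
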