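import Pool.Agent.Selb.Core2

/-!
# Selb/PCore: the core argument for data with a pole anywhere on the line `re s = 1`
-/

set_option autoImplicit false

open Complex Metric Filter Topology LSeries

namespace Pool.Agent.Selb

/-- Analytic data attached to an `L`-function with its pole at `po`, `re po = 1`. -/
structure GoodP (Ψ : ℂ → ℂ) (Λ : ℕ → ℂ) (m po : ℂ) (E : ℂ → ℂ) : Prop where
  diff : Differentiable ℂ Ψ
  gro : Ord32 Ψ
  symm : ∀ z, ord Ψ (1 - (starRingEnd ℂ) z) = ord Ψ z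
  nz : ∀ s : ℂ, 1 < s.re → Ψ s ≠ 0
  summ : ∀ s : ℂ, 1 < s.re → LSeriesSummable Λ s
  pore : po.re = 1
  log : ∀ s : ℂ, 1 < s.re → logDeriv Ψ s = m / (s - po) + E s - LSeries Λ s
  anE : DifferentiableOn ℂ E {s | 0 < s.re}
  decay : Tendsto (fun t : ℝ => deriv E (2 + t * I)) atTop (𝓝 0)

lemma GoodP.ne {Ψ : ℂ → ℂ} {Λ : ℕ → ℂ} {m po : ℂ} {E : ℂ → ℂ} (h : GoodP Ψ Λ m po E) :
    ∃ z, Ψ z ≠ 0 := ⟨2, h.nz 2 (by norm_num)⟩

section

variable {ι : Type*} [Fintype ι] {Ψ : ι → ℂ → ℂ} {Λ : ι → ℕ → ℂ} {m po : ι → ℂ} {E : ι → ℂ → ℂ}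

lemma comb_LSeriesP (hG : ∀ i, GoodP (Ψ i) (Λ i) (m i) (po i) (E i)) (c : ι → ℂ) {s : ℂ}
    (hs : 1 < s.re) : LSeries (comb c Λ) s = ∑ i, c i * LSeries (Λ i) s := by
  have h1 : comb c Λ = ∑ i, c i • Λ i := by
    funext n
    simp [comb, Finset.sum_apply]
  rw [h1]
  rw [LSeries_sum (fun i _ => ((hG i).summ s hs).smul (c i))]
  refine Finset.sum_congr rfl (fun i _ => ?_)
  rw [LSeries_smul]

/-- the polar part of the combination -/
noncomputable def polar (c m po : ι → ℂ) (s : ℂ) : ℂ := ∑ i, c i * (m i / (s - po i))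

/-- the denominators -/
noncomputable def den (po : ι → ℂ) (s : ℂ) : ℂ := ∏ i, (s - po i)

lemma den_diff (po : ι → ℂ) : Differentiable ℂ (den po) := by
  have : ∀ j ∈ (Finset.univ : Finset ι), Differentiable ℂ (fun s : ℂ => s - po j) :=
    fun j _ => by fun_prop
  exact Differentiable.fun_finsetProd this

lemma den_ne {po : ι → ℂ} {s : ℂ} (h : ∀ i, s ≠ po i) : den po s ≠ 0 :=
  Finset.prod_ne_zero_iff.2 (fun i _ => sub_ne_zero.2 (h i))

/-- the polar part times the denominators, as an entire function -/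
noncomputable def polD [DecidableEq ι] (c m po : ι → ℂ) (s : ℂ) : ℂ :=
  ∑ i, c i * (m i * ∏ j ∈ Finset.univ.erase i, (s - po j))

lemma polD_diff [DecidableEq ι] (c m po : ι → ℂ) : Differentiable ℂ (polD c m po) := by
  refine Differentiable.fun_sum (fun i _ => ?_)
  have : ∀ j ∈ (Finset.univ.erase i : Finset ι), Differentiable ℂ (fun s : ℂ => s - po j) :=
    fun j _ => by fun_prop
  exact ((Differentiable.fun_finsetProd this).const_mul _).const_mul _

lemma polD_eq [DecidableEq ι] (c m po : ι → ℂ) {s : ℂ} (h : ∀ i, s ≠ po i) :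
    polD c m po s = den po s * polar c m po s := by
  unfold polD den polar
  rw [Finset.mul_sum]
  refine Finset.sum_congr rfl (fun i _ => ?_)
  rw [← Finset.mul_prod_erase Finset.univ (fun j => s - po j) (Finset.mem_univ i)]
  have := sub_ne_zero.2 (h i)
  field_simp

/-- the general key identity on a half plane `x < re s` -/
lemma key_identityP (hG : ∀ i, GoodP (Ψ i) (Λ i) (m i) (po i) (E i)) (c : ι → ℂ) {x : ℝ}
    (hx : 0 ≤ x) (hx1 : x < 1) {L : ℂ → ℂ} (hL : DifferentiableOn ℂ L {s | x < s.re})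
    (hL1 : ∀ s : ℂ, 1 < s.re → LSeries (comb c Λ) s = L s) {s : ℂ}
    (hs : x < s.re) (hs1 : ∀ i, s ≠ po i) (hnz : ∀ i, Ψ i s ≠ 0) :
    ∑ i, c i * logDeriv (Ψ i) s = polar c m po s + ∑ i, c i * E i s - L s := by
  classical
  set U : Set ℂ := {s | x < s.re} with hU
  have hUo : IsOpen U := isOpen_half _
  set P : ℂ → ℂ := fun w => ∏ j, Ψ j w with hP
  have hPd : Differentiable ℂ P := by
    have : ∀ j ∈ (Finset.univ : Finset ι), Differentiable ℂ (Ψ j) := fun j _ => (hG j).diff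
    exact Differentiable.fun_finsetProd this
  set Q : ι → ℂ → ℂ := fun i w => ∏ j ∈ Finset.univ.erase i, Ψ j w with hQ
  have hQd : ∀ i, Differentiable ℂ (Q i) := fun i => by
    have : ∀ j ∈ (Finset.univ.erase i : Finset ι), Differentiable ℂ (Ψ j) :=
      fun j _ => (hG j).diff
    exact Differentiable.fun_finsetProd this
  set F1 : ℂ → ℂ := fun w => den po w * ∑ i, c i * (deriv (Ψ i) w * Q i w) with hF1
  set F2 : ℂ → ℂ := fun w => (polD c m po w + den po w * (∑ i, c i * E i w - L w)) * P w with hF2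
  have hF1d : DifferentiableOn ℂ F1 U := by
    have h1 : Differentiable ℂ (fun w => ∑ i, c i * (deriv (Ψ i) w * Q i w)) := by
      refine Differentiable.fun_sum (fun i _ => ?_)
      exact (((hG i).diff.deriv).mul (hQd i)).const_mul _
    exact ((den_diff po).mul h1).differentiableOn
  have hF2d : DifferentiableOn ℂ F2 U := by
    have h1 : DifferentiableOn ℂ (fun w => ∑ i, c i * E i w) U := by
      refine DifferentiableOn.fun_sum (fun i _ => ?_)
      refine ((hG i).anE.mono ?_).const_mul _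
      intro w hw
      have : x < w.re := hw
      show 0 < w.re
      linarith
    exact ((polD_diff c m po).differentiableOn.add
      ((den_diff po).differentiableOn.mul (h1.sub hL))).mul hPd.differentiableOn
  have hgen : ∀ w : ℂ, (∀ i, Ψ i w ≠ 0) →
      ∑ i, c i * (deriv (Ψ i) w * Q i w) = (∑ i, c i * logDeriv (Ψ i) w) * P w := by
    intro w hw
    rw [Finset.sum_mul]
    refine Finset.sum_congr rfl (fun i _ => ?_)
    have h1 : P w = Ψ i w * Q i w := by
      rw [hP, hQ]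
      exact (Finset.mul_prod_erase Finset.univ (fun j => Ψ j w) (Finset.mem_univ i)).symm
    rw [h1, logDeriv_apply]
    have := hw i
    field_simp
  have heq1 : ∀ w : ℂ, 1 < w.re → F1 w = F2 w := by
    intro w hw
    have hw1 : ∀ i, w ≠ po i := by
      intro i h
      have := (hG i).pore
      rw [← h] at this
      linarith
    have hnw : ∀ i, Ψ i w ≠ 0 := fun i => (hG i).nz w hw
    simp only [hF1, hF2]
    rw [hgen w hnw, ← hL1 w hw, comb_LSeriesP hG c hw, polD_eq c m po hw1]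
    have h2 : ∑ i, c i * logDeriv (Ψ i) w = polar c m po w + ∑ i, c i * E i w -
        ∑ i, c i * LSeries (Λ i) w := by
      unfold polar
      rw [← Finset.sum_add_distrib, ← Finset.sum_sub_distrib]
      refine Finset.sum_congr rfl (fun i _ => ?_)
      rw [(hG i).log w hw]
      ring
    rw [h2]
    ring
  have heqOn : Set.EqOn F1 F2 U := by
    have hconv : Convex ℝ U := by
      rw [hU]
      exact convex_halfSpace_re_gt x
    refine AnalyticOnNhd.eqOn_of_preconnected_of_eventuallyEq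
      (hF1d.analyticOnNhd hUo) (hF2d.analyticOnNhd hUo) hconv.isPreconnected
      (z₀ := 2) (by simp [hU]; linarith) ?_
    filter_upwards [(isOpen_half 1).mem_nhds (show (1 : ℝ) < (2 : ℂ).re by norm_num)] with w hw
    exact heq1 w hw
  have h3 := heqOn hs
  simp only [hF1, hF2] at h3
  rw [hgen s hnz, polD_eq c m po hs1] at h3
  have hPs : P s ≠ 0 := Finset.prod_ne_zero_iff.2 (fun i _ => hnz i)
  have hd := den_ne hs1
  rw [← mul_assoc] at h3
  have h4 := mul_right_cancel₀ hPs h3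
  rw [← mul_add] at h4
  have h5 := mul_left_cancel₀ hd h4
  rw [h5]
  ring

lemma comb_residueP (hG : ∀ i, GoodP (Ψ i) (Λ i) (m i) (po i) (E i)) (c : ι → ℂ) (z : ℂ) :
    Tendsto (fun w => (w - z) * ∑ i, c i * logDeriv (Ψ i) w) (𝓝[≠] z) (𝓝 (mult c Ψ z)) ∧
      ∀ᶠ w in 𝓝[≠] z, ∀ i, Ψ i w ≠ 0 := by
  constructor
  · have h1 : Tendsto (fun w => ∑ i, c i * ((w - z) * logDeriv (Ψ i) w)) (𝓝[≠] z)
        (𝓝 (∑ i, c i * (ord (Ψ i) z : ℂ))) :=
      tendsto_finsetSum _ (fun i _ =>
        (residue_logDeriv (hG i).diff (hG i).ne z).1.const_mul (c i))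
    refine h1.congr (fun w => ?_)
    rw [Finset.mul_sum]
    exact Finset.sum_congr rfl (fun i _ => by ring)
  · exact eventually_all.2 (fun i => (residue_logDeriv (hG i).diff (hG i).ne z).2)

lemma polar_cont (c m po : ι → ℂ) {z : ℂ} (hz : ∀ i, z ≠ po i) : ContinuousAt (polar c m po) z := by
  refine tendsto_finsetSum _ (fun i _ => ?_)
  refine Tendsto.const_mul _ ?_
  have : ContinuousAt (fun s : ℂ => m i / (s - po i)) z :=
    continuousAt_const.div (by fun_prop) (sub_ne_zero.2 (hz i))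
  exact this

lemma mult_eq_zero_rightP (hG : ∀ i, GoodP (Ψ i) (Λ i) (m i) (po i) (E i)) (c : ι → ℂ) {x : ℝ}
    (hx : 0 ≤ x) (hx1 : x < 1) {L : ℂ → ℂ} (hL : DifferentiableOn ℂ L {s | x < s.re})
    (hL1 : ∀ s : ℂ, 1 < s.re → LSeries (comb c Λ) s = L s) {z : ℂ}
    (hz : x < z.re) (hz1 : ∀ i, z ≠ po i) : mult c Ψ z = 0 := by
  obtain ⟨h1, h2⟩ := comb_residueP hG c z
  have hE : ContinuousAt (fun w => polar c m po w + ∑ i, c i * E i w - L w) z := by
    refine ContinuousAt.sub (ContinuousAt.add (polar_cont c m po hz1) ?_) ?_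
    · refine tendsto_finsetSum _ (fun i _ => ?_)
      refine Tendsto.const_mul _ ?_
      exact ((hG i).anE.differentiableAt ((isOpen_half 0).mem_nhds
        (show (0 : ℝ) < z.re by linarith))).continuousAt
    · exact (hL.differentiableAt ((isOpen_half _).mem_nhds hz)).continuousAt
  have h3 : Tendsto (fun w => (w - z) * (polar c m po w + ∑ i, c i * E i w - L w))
      (𝓝[≠] z) (𝓝 0) := by
    have h4 : ContinuousAt (fun w : ℂ => w - z) z := by fun_prop
    have h5 := h4.tendsto.mul hE.tendsto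
    rw [sub_self, zero_mul] at h5
    exact h5.mono_left nhdsWithin_le_nhds
  have h6 : ∀ᶠ w in 𝓝[≠] z, (w - z) * (polar c m po w + ∑ i, c i * E i w - L w) =
      (w - z) * ∑ i, c i * logDeriv (Ψ i) w := by
    have ha : ∀ᶠ w in 𝓝[≠] z, x < w.re :=
      nhdsWithin_le_nhds ((isOpen_half _).mem_nhds hz)
    have hb : ∀ᶠ w in 𝓝[≠] z, ∀ i, w ≠ po i :=
      nhdsWithin_le_nhds (eventually_all.2 (fun i => isOpen_ne.mem_nhds (hz1 i)))
    filter_upwards [ha, hb, h2] with w hw hw1 hw2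
    rw [key_identityP hG c hx hx1 hL hL1 hw hw1 hw2]
  exact tendsto_nhds_unique h1 (h3.congr' h6)

lemma mult_symmP (hG : ∀ i, GoodP (Ψ i) (Λ i) (m i) (po i) (E i)) (c : ι → ℂ) (z : ℂ) :
    mult c Ψ (1 - (starRingEnd ℂ) z) = mult c Ψ z := by
  unfold mult
  exact Finset.sum_congr rfl (fun i _ => by rw [(hG i).symm z])

/-- the exceptional points -/
def exc (po : ι → ℂ) : Set ℂ := Set.range po ∪ Set.range (fun i => 1 - (starRingEnd ℂ) (po i))

lemma exc_finite (po : ι → ℂ) : (exc po).Finite :=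
  (Set.finite_range _).union (Set.finite_range _)

lemma exc_re (hG : ∀ i, GoodP (Ψ i) (Λ i) (m i) (po i) (E i)) {z : ℂ} (hz : z ∈ exc po) :
    z.re = 0 ∨ z.re = 1 := by
  rcases hz with ⟨i, rfl⟩ | ⟨i, rfl⟩
  · exact Or.inr (hG i).pore
  · left
    simp [(hG i).pore]

lemma mult_eq_zero_offP (hG : ∀ i, GoodP (Ψ i) (Λ i) (m i) (po i) (E i)) (c : ι → ℂ)
    (hS : ∀ s : ℂ, 1 / 2 < s.re → LSeriesSummable (comb c Λ) s) {z : ℂ}
    (hz : z.re ≠ 1 / 2) (hz0 : z ∉ exc po) : mult c Ψ z = 0 := by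
  have hd := comb_diff hS
  have hright : ∀ w : ℂ, 1 / 2 < w.re → (∀ i, w ≠ po i) → mult c Ψ w = 0 := fun w hw hw1 =>
    mult_eq_zero_rightP hG c (x := 1 / 2) (by norm_num) (by norm_num) hd (fun s _ => rfl) hw hw1
  rcases lt_or_gt_of_ne hz with h | h
  · rw [← mult_symmP hG c z]
    refine hright _ ?_ ?_
    · simp; linarith
    · intro i h1
      apply hz0
      right
      refine ⟨i, ?_⟩
      simp only
      rw [← h1]
      simp
  · exact hright z h (fun i hi => hz0 (Or.inl ⟨i, hi.symm⟩))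

lemma mult_lineP (hG : ∀ i, GoodP (Ψ i) (Λ i) (m i) (po i) (E i)) (c : ι → ℂ)
    (hS : ∀ s : ℂ, 1 / 2 < s.re → LSeriesSummable (comb c Λ) s) (γ : ℝ) :
    Tendsto (fun δ : ℝ => (δ : ℂ) * LSeries (comb c Λ) (1 / 2 + δ + γ * I)) (𝓝[>] 0)
      (𝓝 (-mult c Ψ (1 / 2 + γ * I))) := by
  set z : ℂ := 1 / 2 + γ * I with hz
  obtain ⟨h1, h2⟩ := comb_residueP hG c z
  have hzre : z.re = 1 / 2 := by simp [hz]
  have hz1 : ∀ i, z ≠ po i := by
    intro i h
    have := (hG i).pore
    rw [← h, hzre] at this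
    norm_num at this
  have hpath : Tendsto (fun δ : ℝ => z + (δ : ℂ)) (𝓝[>] 0) (𝓝[≠] z) := by
    refine tendsto_nhdsWithin_iff.2 ⟨?_, ?_⟩
    · have : Continuous (fun δ : ℝ => z + (δ : ℂ)) := by fun_prop
      have h := this.tendsto 0
      simp only [ofReal_zero, add_zero] at h
      exact h.mono_left nhdsWithin_le_nhds
    · filter_upwards [self_mem_nhdsWithin] with δ hδ
      have : (δ : ℂ) ≠ 0 := by exact_mod_cast (ne_of_gt hδ)
      simpa using this
  have h3 := h1.comp hpath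
  have h4 := hpath.eventually h2
  have hE : ContinuousAt (fun w => polar c m po w + ∑ i, c i * E i w) z := by
    refine ContinuousAt.add (polar_cont c m po hz1) ?_
    refine tendsto_finsetSum _ (fun i _ => ?_)
    refine Tendsto.const_mul _ ?_
    exact ((hG i).anE.differentiableAt ((isOpen_half 0).mem_nhds
      (show (0 : ℝ) < z.re by rw [hzre]; norm_num))).continuousAt
  have h5 : Tendsto (fun δ : ℝ => (δ : ℂ) * (polar c m po (z + δ) +
      ∑ i, c i * E i (z + δ))) (𝓝[>] 0) (𝓝 0) := by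
    have ha : Tendsto (fun δ : ℝ => (δ : ℂ)) (𝓝[>] 0) (𝓝 0) := by
      have : Continuous (fun δ : ℝ => (δ : ℂ)) := by fun_prop
      have h := this.tendsto 0
      simp only [ofReal_zero] at h
      exact h.mono_left nhdsWithin_le_nhds
    have hb := (hE.tendsto.mono_left (nhdsWithin_le_nhds (s := {z}ᶜ))).comp hpath
    have hc := ha.mul hb
    rw [zero_mul] at hc
    exact hc
  have h6 := h5.sub h3
  rw [zero_sub] at h6
  refine h6.congr' ?_
  filter_upwards [h4, self_mem_nhdsWithin,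
    nhdsWithin_le_nhds (Iio_mem_nhds (show (0 : ℝ) < 1 / 2 by norm_num))] with δ hδ1 hδ2 hδ3
  have hδ : (0 : ℝ) < δ := hδ2
  have hδ4 : δ < 1 / 2 := hδ3
  have hre : (1 / 2 : ℝ) < (z + δ).re := by simp [hzre]; exact hδ
  have hne1 : ∀ i, z + (δ : ℂ) ≠ po i := by
    intro i h
    have := (hG i).pore
    rw [← h] at this
    simp [hzre] at this
    linarith
  simp only [Function.comp]
  have hγ : (1 / 2 + (δ : ℂ) + γ * I) = z + δ := by rw [hz]; ring
  rw [hγ, key_identityP hG c (x := 1 / 2) (by norm_num) (by norm_num) (comb_diff hS)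
    (fun s _ => rfl) hre hne1 hδ1]
  ring

end

end Pool.Agent.Selb
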