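import Pool.Agent.Selb.Land
import Pool.Agent.Selb.Gam

/-!
# Selb/Sdef: the axioms of the Selberg class and analytic half-plane data (definitions only)
-/

set_option autoImplicit false

open Complex Metric Filter Topology LSeries

namespace Pool.Agent.Selb

/-- The arithmetic axioms of the Selberg class (normalisation, Ramanujan bound, Euler product). -/
structure Arith (a b : ℕ → ℂ) : Prop where
  one : a 1 = 1
  ram : ∀ ε : ℝ, 0 < ε → ∃ C : ℝ, ∀ n : ℕ, 1 ≤ n → ‖a n‖ ≤ C * (n : ℝ) ^ ε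
  supp : ∀ n : ℕ, ¬ IsPrimePow n → b n = 0
  bd : ∃ θ : ℝ, θ < 1 / 2 ∧ ∃ C : ℝ, ∀ n : ℕ, ‖b n‖ ≤ C * (n : ℝ) ^ θ
  euler : ∀ s : ℂ, 1 < s.re → LSeries a s = Complex.exp (LSeries b s)

/-- The analytic axioms of the Selberg class (continuation of finite order, functional
equation), for given data. -/
structure Anal (a : ℕ → ℂ) (m : ℕ) (G : ℂ → ℂ) (Q : ℝ) {k : ℕ} (lam : Fin k → ℝ)
    (μ : Fin k → ℂ) (ω : ℂ) : Prop where
  diff : Differentiable ℂ G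
  order : ∃ A B : ℝ, ∀ z : ℂ, ‖G z‖ ≤ A * Real.exp (‖z‖ ^ B)
  cont : ∀ s : ℂ, 1 < s.re → G s = (s - 1) ^ m * LSeries a s
  Qpos : 0 < Q
  lampos : ∀ j, 0 < lam j
  mure : ∀ j, 0 ≤ (μ j).re
  om : ‖ω‖ = 1
  fe : ∀ s : ℂ, s ≠ 1 → s ≠ 0 →
    (∀ j, ∀ t : ℕ, (lam j : ℂ) * s + μ j ≠ -(t : ℂ)) →
    (∀ j, ∀ t : ℕ, (lam j : ℂ) * (1 - starRingEnd ℂ s) + μ j ≠ -(t : ℂ)) →
    (Q : ℂ) ^ s * (∏ j, Complex.Gamma ((lam j : ℂ) * s + μ j)) * (G s / (s - 1) ^ m) =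
      ω * starRingEnd ℂ ((Q : ℂ) ^ (1 - starRingEnd ℂ s) *
        (∏ j, Complex.Gamma ((lam j : ℂ) * (1 - starRingEnd ℂ s) + μ j)) *
        (G (1 - starRingEnd ℂ s) / ((1 - starRingEnd ℂ s) - 1) ^ m))

/-- the completed function, with the poles at `0` and `1` removed -/
noncomputable def cA (m : ℕ) (G : ℂ → ℂ) (Q : ℝ) {k : ℕ} (lam : Fin k → ℝ)
    (μ : Fin k → ℂ) (s : ℂ) : ℂ :=
  s ^ m * (Q : ℂ) ^ s * (∏ j, Complex.Gamma ((lam j : ℂ) * s + μ j)) * G s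

/-- Analytic data of an `L`-function on the half plane `Re s > 0`; `Λ` are the coefficients of
`-F'/F`. -/
structure Half (a Λ : ℕ → ℂ) (m : ℕ) (G : ℂ → ℂ) (Q : ℝ) {k : ℕ} (lam : Fin k → ℝ)
    (μ : Fin k → ℂ) (ω : ℂ) : Prop where
  diff : DifferentiableOn ℂ G {s | 0 < s.re}
  cont : ∀ s : ℂ, 1 < s.re → G s = (s - 1) ^ m * LSeries a s
  Qpos : 0 < Q
  lampos : ∀ j, 0 < lam j
  mure : ∀ j, 0 ≤ (μ j).re
  om : ‖ω‖ = 1
  fe : ∀ s : ℂ, 0 < s.re → s.re < 1 →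
    cA m G Q lam μ s = ω * starRingEnd ℂ (cA m G Q lam μ (1 - starRingEnd ℂ s))
  fin : ∃ C B : ℝ, ∀ s : ℂ, 1 / 2 ≤ s.re → s.re ≤ 2 →
    ‖cA m G Q lam μ s‖ ≤ C * Real.exp ((1 + ‖s‖) ^ B)
  suma : ∀ s : ℂ, 1 < s.re → LSeriesSummable a s
  sumL : ∀ s : ℂ, 1 < s.re → LSeriesSummable Λ s
  nz : ∀ s : ℂ, 1 < s.re → LSeries a s ≠ 0
  ld : ∀ s : ℂ, 1 < s.re → logDeriv (LSeries a) s = - LSeries Λ s

/-- `n` is a prime power `p ^ k` with `k ≥ 3` -/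
def High (n : ℕ) : Prop := ∃ p k : ℕ, p.Prime ∧ 3 ≤ k ∧ p ^ k = n

open Classical in
/-- the part of `Λ` on prime powers with exponent at least three -/
noncomputable def high (Λ : ℕ → ℂ) : ℕ → ℂ := fun n => if High n then Λ n else 0

end Pool.Agent.Selb
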