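import Pool.Agent.Selb.PCore2
import Pool.Agent.Selb.Limit
import Pool.Agent.Selb.Sdef

/-!
# Selb/PLimit: extraction of the combined coefficients and rigidity, general poles
-/

set_option autoImplicit false

open Complex Metric Filter Topology LSeries MeasureTheory

namespace Pool.Agent.Selb

section

variable {ι : Type*} [Fintype ι] {Ψ : ι → ℂ → ℂ} {Λ : ι → ℕ → ℂ} {m po : ι → ℂ} {E : ι → ℂ → ℂ}

lemma GoodP.deriv_log {Ψ : ℂ → ℂ} {Λ : ℕ → ℂ} {m po : ℂ} {E : ℂ → ℂ} (h : GoodP Ψ Λ m po E) {s : ℂ}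
    (hs : 1 < s.re) :
    deriv (logDeriv Ψ) s = - m / (s - po) ^ 2 + deriv E s + LSeries (logMul Λ) s := by
  have hs1 : s - po ≠ 0 := by
    intro h0
    have h1 := h.pore
    rw [← sub_eq_zero.1 h0] at h1
    linarith
  have habs : abscissaOfAbsConv Λ < s.re := by
    have h1 : abscissaOfAbsConv Λ ≤ ((1 : ℝ) : EReal) := by
      refine abscissaOfAbsConv_le_of_forall_lt_LSeriesSummable (fun y hy => ?_)
      exact h.summ y (by simpa using hy)
    exact h1.trans_lt (by exact_mod_cast hs)
  have h1 : logDeriv Ψ =ᶠ[𝓝 s] fun w => m / (w - po) + E w - LSeries Λ w := by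
    filter_upwards [(isOpen_half 1).mem_nhds (show (1 : ℝ) < s.re from hs)] with w hw
    exact h.log w hw
  rw [h1.deriv_eq]
  have hE : DifferentiableAt ℂ E s := h.anE.differentiableAt ((isOpen_half 0).mem_nhds
    (show (0 : ℝ) < s.re by linarith))
  have hL : HasDerivAt (LSeries Λ) (-LSeries (logMul Λ) s) s := LSeries_hasDerivAt habs
  have hm : HasDerivAt (fun w : ℂ => m / (w - po)) (- m / (s - po) ^ 2) s := by
    have h2 : HasDerivAt (fun w : ℂ => w - po) 1 s := (hasDerivAt_id s).sub_const po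
    have h3 : HasDerivAt (fun w : ℂ => m / (w - po)) ((0 * (s - po) - m * 1) / (s - po) ^ 2) s :=
      (hasDerivAt_const s m).div h2 hs1
    rwa [zero_mul, zero_sub, mul_one] at h3
  have h4 : HasDerivAt (fun w => m / (w - po) + E w - LSeries Λ w)
      (- m / (s - po) ^ 2 + deriv E s - -LSeries (logMul Λ) s) s := (hm.add hE.hasDerivAt).sub hL
  rw [h4.deriv]
  ring

lemma abs_comb_le (hG : ∀ i, GoodP (Ψ i) (Λ i) (m i) (po i) (E i)) (c : ι → ℂ) :
    abscissaOfAbsConv (comb c Λ) ≤ ((1 : ℝ) : EReal) := by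
  refine abscissaOfAbsConv_le_of_forall_lt_LSeriesSummable (fun y hy => ?_)
  have h1 : comb c Λ = ∑ i, c i • Λ i := by
    funext n
    simp [comb, Finset.sum_apply]
  rw [h1]
  exact LSeriesSummable.sum (fun i _ => ((hG i).summ y (by simpa using hy)).smul (c i))

lemma comb_hadamardP (hG : ∀ i, GoodP (Ψ i) (Λ i) (m i) (po i) (E i)) (c : ι → ℂ) {s : ℂ}
    (hs : 1 < s.re) :
    HasSum (fun z : ℂ => mult c Ψ z / (s - z) ^ 2)
      (∑ i, c i * (m i / (s - po i) ^ 2) - ∑ i, c i * deriv (E i) s -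
        LSeries (logMul (comb c Λ)) s) := by
  have h1 : HasSum (fun z : ℂ => ∑ i, c i * ((ord (Ψ i) z : ℂ) / (s - z) ^ 2))
      (∑ i, c i * (- deriv (logDeriv (Ψ i)) s)) :=
    hasSum_sum (fun i _ => (hadamard_two (hG i).diff (hG i).gro ((hG i).nz s hs)).mul_left (c i))
  have h2 : (fun z : ℂ => ∑ i, c i * ((ord (Ψ i) z : ℂ) / (s - z) ^ 2)) =
      fun z : ℂ => mult c Ψ z / (s - z) ^ 2 := by
    funext z
    rw [mult, Finset.sum_div]
    exact Finset.sum_congr rfl (fun i _ => by ring)
  rw [h2] at h1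
  have h3 : ∑ i, c i * (- deriv (logDeriv (Ψ i)) s) = ∑ i, c i * (m i / (s - po i) ^ 2) -
      ∑ i, c i * deriv (E i) s - LSeries (logMul (comb c Λ)) s := by
    have h4 : LSeries (logMul (comb c Λ)) s = ∑ i, c i * LSeries (logMul (Λ i)) s := by
      have e1 : logMul (comb c Λ) = ∑ i, c i • logMul (Λ i) := by
        funext n
        simp only [logMul, comb, Finset.sum_apply, Pi.smul_apply, smul_eq_mul, Finset.mul_sum]
        exact Finset.sum_congr rfl (fun i _ => by ring)
      have hsum : ∀ i, LSeriesSummable (logMul (Λ i)) s := by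
        intro i
        refine LSeriesSummable_logMul_of_lt_re ?_
        have h1 : abscissaOfAbsConv (Λ i) ≤ ((1 : ℝ) : EReal) := by
          refine abscissaOfAbsConv_le_of_forall_lt_LSeriesSummable (fun y hy => ?_)
          exact (hG i).summ y (by simpa using hy)
        exact h1.trans_lt (by exact_mod_cast hs)
      rw [e1, LSeries_sum (fun i _ => (hsum i).smul (c i))]
      exact Finset.sum_congr rfl (fun i _ => by rw [LSeries_smul])
    rw [h4, ← Finset.sum_sub_distrib, ← Finset.sum_sub_distrib]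
    refine Finset.sum_congr rfl (fun i _ => ?_)
    rw [(hG i).deriv_log hs]
    ring
  rwa [h3] at h1

/-- **coefficient extraction**, general poles -/
theorem coeff_zero_of_summableP (hG : ∀ i, GoodP (Ψ i) (Λ i) (m i) (po i) (E i)) (c : ι → ℂ)
    (hre : ∀ z, mult c Ψ z ≠ 0 → z.re ≤ 1)
    (hs : Summable (fun z : ℂ => ‖mult c Ψ z‖ / (1 + ‖z‖))) {n : ℕ} (hn : 2 ≤ n) :
    comb c Λ n = 0 := by
  have hn0 : 0 < n := by omega
  have hre' : ∀ z, mult c Ψ z ≠ 0 → 0 ≤ z.re ∧ z.re ≤ 1 := by
    intro z hz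
    refine ⟨?_, hre z hz⟩
    have h1 : mult c Ψ (1 - (starRingEnd ℂ) z) ≠ 0 := by rwa [mult_symmP hG c z]
    have h2 := hre _ h1
    simp at h2
    exact h2
  set D : ℝ → ℂ := fun t => ∑ i, c i * (m i / (2 + (t : ℂ) * I - po i) ^ 2) -
    ∑ i, c i * deriv (E i) (2 + (t : ℂ) * I) with hD
  set Z : ℝ → ℂ := fun t => D t - LSeries (logMul (comb c Λ)) (2 + (t : ℂ) * I) with hZ
  have h1 : ∀ t : ℝ, HasSum (fun z : ℂ => mult c Ψ z / (2 + (t : ℂ) * I - z) ^ 2) (Z t) := by
    intro t
    exact comb_hadamardP hG c (by rw [re_two_it]; norm_num)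
  have h2 := av_zero_sum hre' hs hn0 h1
  -- the elementary part
  have hnorm : ∀ (i : ι) (t : ℝ), ‖(2 + (t : ℂ) * I - po i)‖ ^ 2 = 1 + (t - (po i).im) ^ 2 := by
    intro i t
    rw [← Complex.normSq_eq_norm_sq, Complex.normSq_apply]
    simp [(hG i).pore]
    ring
  have hne : ∀ (i : ι) (t : ℝ), (2 + (t : ℂ) * I - po i) ≠ 0 := by
    intro i t h0
    have := hnorm i t
    rw [h0, norm_zero] at this
    nlinarith [sq_nonneg (t - (po i).im)]
  have hDc : Continuous D := by
    refine Continuous.sub (continuous_finsetSum _ (fun i _ => continuous_const.mul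
      (continuous_const.div (by fun_prop) (fun t => pow_ne_zero _ (hne i t)))))
      (continuous_finsetSum _ (fun i _ => continuous_const.mul ?_))
    have h3 : ContinuousOn (deriv (E i)) {s : ℂ | 0 < s.re} :=
      ((hG i).anE.deriv (isOpen_half 0)).continuousOn
    exact h3.comp_continuous (by fun_prop) (fun t => by
      show (0 : ℝ) < (2 + (t : ℂ) * I).re
      rw [re_two_it]; norm_num)
  have hD0 : Tendsto D atTop (𝓝 0) := by
    have h3 : Tendsto (fun t : ℝ => ∑ i, c i * (m i / (2 + (t : ℂ) * I - po i) ^ 2)) atTop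
        (𝓝 (∑ i, c i * 0)) := by
      refine tendsto_finsetSum _ (fun i _ => Tendsto.const_mul _ ?_)
      have hb : ∀ᶠ t : ℝ in atTop, ‖m i / (2 + (t : ℂ) * I - po i) ^ 2‖ ≤
          ‖m i‖ * (t - (po i).im)⁻¹ := by
        filter_upwards [eventually_ge_atTop (1 + (po i).im)] with t ht
        rw [norm_div, norm_pow, div_eq_mul_inv]
        refine mul_le_mul_of_nonneg_left ?_ (norm_nonneg _)
        refine inv_anti₀ (by linarith) ?_
        rw [hnorm i t]
        nlinarith
      have hlim : Tendsto (fun t : ℝ => ‖m i‖ * (t - (po i).im)⁻¹) atTop (𝓝 0) := by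
        have h4 : Tendsto (fun t : ℝ => t - (po i).im) atTop atTop :=
          tendsto_atTop_add_const_right _ _ tendsto_id
        simpa using (tendsto_inv_atTop_zero.comp h4).const_mul ‖m i‖
      exact squeeze_zero_norm' hb hlim
    have h4 : Tendsto (fun t : ℝ => ∑ i, c i * deriv (E i) (2 + (t : ℂ) * I)) atTop
        (𝓝 (∑ i, c i * 0)) :=
      tendsto_finsetSum _ (fun i _ => ((hG i).decay).const_mul _)
    have h5 := h3.sub h4
    simpa using h5
  have h3 : Tendsto (av (fun t => (n : ℂ) ^ ((t : ℂ) * I) * D t)) atTop (𝓝 0) := by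
    refine av_tendsto_zero ((cont_cpow_it hn0).mul hDc) ?_
    refine squeeze_zero_norm (a := fun t => ‖D t‖) (fun t => ?_) (by simpa using hD0.norm)
    rw [norm_mul, norm_cpow_it hn0, one_mul]
  -- the Dirichlet series part
  have hsumm : LSeriesSummable (logMul (comb c Λ)) 2 := by
    refine LSeriesSummable_logMul_of_lt_re ?_
    exact (abs_comb_le hG c).trans_lt (by norm_num; exact_mod_cast (one_lt_two : (1 : ℝ) < 2))
  have h4 := av_LSeries hsumm hn0
  have hLc : Continuous (fun t : ℝ => LSeries (logMul (comb c Λ)) (2 + (t : ℂ) * I)) := by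
    have habs : abscissaOfAbsConv (logMul (comb c Λ)) < ((2 : ℝ) : EReal) := by
      rw [abscissaOfAbsConv_logMul]
      exact (abs_comb_le hG c).trans_lt (by exact_mod_cast (one_lt_two : (1 : ℝ) < 2))
    have h6 : ContinuousOn (LSeries (logMul (comb c Λ)))
        {s | abscissaOfAbsConv (logMul (comb c Λ)) < s.re} :=
      (LSeries_differentiableOn _).continuousOn
    exact h6.comp_continuous (by fun_prop) (fun t => by
      show abscissaOfAbsConv (logMul (comb c Λ)) < ((2 + (t : ℂ) * I).re : EReal)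
      rw [re_two_it]; exact habs)
  have h5 : Tendsto (av (fun t => (n : ℂ) ^ ((t : ℂ) * I) *
      LSeries (logMul (comb c Λ)) (2 + t * I))) atTop (𝓝 0) := by
    have h6 := h3.sub h2
    rw [sub_zero] at h6
    refine h6.congr' ?_
    filter_upwards with T
    unfold av
    have hZc : Continuous Z := hDc.sub hLc
    rw [← mul_sub, ← intervalIntegral.integral_sub]
    · congr 1
      refine intervalIntegral.integral_congr (fun t _ => ?_)
      simp only [hZ]
      ring
    · exact ((cont_cpow_it hn0).mul hDc).intervalIntegrable _ _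
    · exact ((cont_cpow_it hn0).mul hZc).intervalIntegrable _ _
  have h6 := tendsto_nhds_unique h4 h5
  rw [term_of_ne_zero hn0.ne', div_eq_zero_iff] at h6
  have hlog : Complex.log n ≠ 0 := by
    rw [← Complex.natCast_log]
    have : Real.log n ≠ 0 := by
      have h7 : (1 : ℝ) < n := by exact_mod_cast (by omega : 1 < n)
      exact (Real.log_pos h7).ne'
    exact_mod_cast this
  rcases h6 with h6 | h6
  · rw [logMul] at h6
    exact (mul_eq_zero.1 h6).resolve_left hlog
  · exfalso
    have hn1 : (n : ℂ) ≠ 0 := by exact_mod_cast hn0.ne'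
    rw [Complex.cpow_eq_zero_iff] at h6
    exact hn1 h6.1

/-- **linear rigidity**, general poles -/
theorem comb_zero_of_splitP (hG : ∀ i, GoodP (Ψ i) (Λ i) (m i) (po i) (E i)) (c : ι → ℂ) {B : ℝ}
    (hsp : Split (comb c Λ) B) {n : ℕ} (hn : 2 ≤ n) : comb c Λ n = 0 := by
  have hsp' : Split (comb c Λ) (max B 1) := by
    obtain ⟨u, v, W, hu, hv, hW, hdec⟩ := hsp
    exact ⟨u, v, W, fun n => (hu n).trans (le_max_left _ _),
      fun n => (hv n).trans (le_max_left _ _), hW, hdec⟩
  have hB : 0 < max B 1 := lt_of_lt_of_le one_pos (le_max_right _ _)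
  have hS : ∀ s : ℂ, 1 / 2 < s.re → LSeriesSummable (comb c Λ) s := by
    obtain ⟨u, v, W, hu, hv, hW, hdec⟩ := hsp
    exact fun s hs => (hdec s hs).1
  have hsq := mult_sq_summableP hG c hB hsp'
  refine coeff_zero_of_summableP hG c (fun z hz => ?_) ?_ hn
  · by_contra hre
    push Not at hre
    refine hz (mult_eq_zero_offP hG c hS ?_ ?_)
    · intro h; linarith
    · intro h
      rcases exc_re hG h with h1 | h1 <;> linarith
  · have h1 : Summable (fun z : ℂ => ∑ i, (ord (Ψ i) z : ℝ) / (1 + ‖z‖) ^ 2) :=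
      summable_sum (fun i _ => summable_ord (hG i).diff (hG i).ne (hG i).gro)
    refine Summable.of_nonneg_of_le (fun z => by positivity) (fun z => ?_) (hsq.add h1)
    by_cases h0 : mult c Ψ z = 0
    · rw [h0]
      simp only [norm_zero, zero_div]
      positivity
    · have h2 : (1 : ℝ) ≤ ∑ i, (ord (Ψ i) z : ℝ) := by
        have h3 : ∃ i, ord (Ψ i) z ≠ 0 := by
          by_contra h4
          push Not at h4
          apply h0
          unfold mult
          exact Finset.sum_eq_zero (fun i _ => by rw [h4 i]; simp)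
        obtain ⟨i, hi⟩ := h3
        have h4 : (1 : ℝ) ≤ (ord (Ψ i) z : ℝ) := by exact_mod_cast Nat.one_le_iff_ne_zero.2 hi
        exact h4.trans (Finset.single_le_sum (f := fun i => (ord (Ψ i) z : ℝ))
          (fun j _ => Nat.cast_nonneg _) (Finset.mem_univ i))
      rw [← Finset.sum_div]
      have h5 : (1 : ℝ) / (1 + ‖z‖) ^ 2 ≤ (∑ i, (ord (Ψ i) z : ℝ)) / (1 + ‖z‖) ^ 2 :=
        div_le_div_of_nonneg_right h2 (by positivity)
      have h6 : ‖mult c Ψ z‖ / (1 + ‖z‖) ≤ ‖mult c Ψ z‖ ^ 2 + (1 : ℝ) / (1 + ‖z‖) ^ 2 := by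
        set x := ‖mult c Ψ z‖
        set y := (1 + ‖z‖)⁻¹ with hy
        have e1 : x / (1 + ‖z‖) = x * y := by rw [hy]; rfl
        have e2 : (1 : ℝ) / (1 + ‖z‖) ^ 2 = y ^ 2 := by rw [hy, one_div, inv_pow]
        rw [e1, e2]
        nlinarith [sq_nonneg (x - y), sq_nonneg x, sq_nonneg y]
      linarith

/-- If all combined multiplicities away from the exceptional points vanish, the combined
coefficients vanish. -/
theorem comb_zero_of_multP (hG : ∀ i, GoodP (Ψ i) (Λ i) (m i) (po i) (E i)) (c : ι → ℂ)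
    (h : ∀ z : ℂ, z ∉ exc po → mult c Ψ z = 0) {n : ℕ} (hn : 2 ≤ n) : comb c Λ n = 0 := by
  classical
  refine coeff_zero_of_summableP hG c (fun z hz => ?_) ?_ hn
  · by_contra hre
    push Not at hre
    refine hz (h z (fun h5 => ?_))
    rcases exc_re hG h5 with h1 | h1 <;> linarith
  · refine summable_of_ne_finset_zero (s := (exc_finite po).toFinset) (fun z hz => ?_)
    rw [h z (fun h5 => hz (by simpa using h5))]
    simp

/-- If the combined coefficients vanish, so do the combined multiplicities away from the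
exceptional points. -/
theorem mult_zero_of_combP (hG : ∀ i, GoodP (Ψ i) (Λ i) (m i) (po i) (E i)) (c : ι → ℂ)
    (h : ∀ n, 1 ≤ n → comb c Λ n = 0) {z : ℂ} (hz : z ∉ exc po) : mult c Ψ z = 0 := by
  have hL : ∀ s : ℂ, 1 < s.re → LSeries (comb c Λ) s = (fun _ => (0 : ℂ)) s := by
    intro s _
    have h1 : LSeries.term (comb c Λ) s = fun _ => 0 := by
      funext n
      rcases Nat.eq_zero_or_pos n with h0 | hn
      · rw [h0, term_zero]
      · rw [term_of_ne_zero hn.ne', h n hn, zero_div]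
    rw [LSeries, h1, tsum_zero]
  have hright : ∀ w : ℂ, 0 < w.re → (∀ i, w ≠ po i) → mult c Ψ w = 0 := fun w hw hw1 =>
    mult_eq_zero_rightP hG c le_rfl (by norm_num) (differentiableOn_const (0 : ℂ)) hL hw hw1
  rcases lt_or_ge 0 z.re with h1 | h1
  · exact hright z h1 (fun i hi => hz (Or.inl ⟨i, hi.symm⟩))
  · rw [← mult_symmP hG c z]
    refine hright _ ?_ ?_
    · simp; linarith
    · intro i h1
      apply hz
      right
      refine ⟨i, ?_⟩
      simp only
      rw [← h1]
      simp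

end

end Pool.Agent.Selb
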