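import Pool.Agent.Selb.Sdef

/-!
# Selb/SplitC: splitting a combination into primes, prime squares and the rest

With `g = comb c Λ` (`comb c Λ n = ∑ i, c i * Λ i n`), `u p = √p * g p / log p`, `v p = g (p ^ 2) / log p` for
primes `p` (and `u n = v n = 0` for other `n`), `W = high g`: `‖u n‖ ≤ B`, `‖v n‖ ≤ B` (if `B < 0` the hypotheses
are contradictory at `p = 2`, so `0 ≤ B`), `LSeriesSummable W (1/2)` (finite combination of the
`high (Λ i)`: `high g = ∑ i, c i • high (Λ i)`). For `re s > 1/2`:
`term g s n = term (pr u) (s + 1/2) n` for `n` prime (`u p * log p / p ^ (s + 1/2) = g p / p ^ s`),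
`term g s (p ^ 2) = term (pr v) (2 * s) p`, `term g s n = term W s n` for `n = p ^ k`, `k ≥ 3`, and `0`
otherwise. `pr u` at `s + 1/2` and `pr v` at `2 * s` are summable as `re > 1` and `u`, `v` are bounded
(`A_eq_tsum`/`summable_wt` in `Bessel.lean`, or `‖u n log n‖ ≤ C n ^ ε`), `W` is summable at `s` since it is at
`1/2` (`LSeriesSummable.of_re_le_re`). The sum over `n = p ^ 2` is transported by the injection
`n ↦ n ^ 2`. `pr` is defined in `Bessel.lean`: `pr x n = if n.Prime then x n * log n else 0`.
-/

set_option autoImplicit false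

open Complex Metric Filter Topology LSeries

namespace Pool.Agent.Selb

lemma spc_pr_summable {x : ℕ → ℂ} {B : ℝ} (hx : ∀ n, ‖x n‖ ≤ B) {s : ℂ} (hs : 1 < s.re) :
    LSeriesSummable (pr x) s := by
  obtain ⟨C, hC⟩ := prc_bound (1 : ZMod 1)
  have h1 := (hC s hs).1
  rw [← pr_one_eq] at h1
  refine Summable.of_norm_bounded (h1.norm.mul_left B) fun n => ?_
  rcases Nat.eq_zero_or_pos n with h0 | hn
  · subst h0; simp
  · rw [term_of_ne_zero hn.ne', term_of_ne_zero hn.ne', norm_div, norm_div, ← mul_div_assoc]
    refine div_le_div_of_nonneg_right ?_ (norm_nonneg _)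
    unfold pr
    split_ifs with hp
    · rw [norm_mul, one_mul]
      exact mul_le_mul_of_nonneg_right (hx n) (norm_nonneg _)
    · simp

/-- Prime squares. -/
def SpcSq (n : ℕ) : Prop := ∃ p : ℕ, p.Prime ∧ p ^ 2 = n

lemma spc_not_prime_sq {n : ℕ} (h : SpcSq n) : ¬ n.Prime := by
  rintro hn
  obtain ⟨p, hp, rfl⟩ := h
  exact Nat.Prime.not_prime_pow (by norm_num) hn

lemma spc_not_high_prime {n : ℕ} (h : High n) : ¬ n.Prime := by
  rintro hn
  obtain ⟨p, k, hp, hk, rfl⟩ := h
  exact Nat.Prime.not_prime_pow (by omega) hn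

lemma spc_not_high_sq {n : ℕ} (h : High n) : ¬ SpcSq n := by
  rintro ⟨q, hq, hqn⟩
  obtain ⟨p, k, hp, hk, rfl⟩ := h
  have h1 : q ∣ p ^ k := by
    rw [← hqn]
    exact dvd_pow_self q (by norm_num)
  have h2 : q = p := (Nat.prime_dvd_prime_iff_eq hq hp).1 (hq.dvd_of_dvd_pow h1)
  subst h2
  have h3 := Nat.pow_right_injective hq.two_le hqn
  omega

lemma spc_cases {n : ℕ} (h : IsPrimePow n) : n.Prime ∨ SpcSq n ∨ High n := by
  rw [isPrimePow_nat_iff] at h
  obtain ⟨p, k, hp, hk, rfl⟩ := h
  rcases Nat.lt_or_ge k 3 with h3 | h3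
  · have : k = 1 ∨ k = 2 := by omega
    rcases this with rfl | rfl
    · left
      rwa [pow_one]
    · right; left
      exact ⟨p, hp, rfl⟩
  · right; right
    exact ⟨p, k, hp, h3, rfl⟩

lemma spc_sq_iff (n : ℕ) : SpcSq (n ^ 2) ↔ n.Prime := by
  constructor
  · rintro ⟨p, hp, hpn⟩
    have : p = n := Nat.pow_left_injective (by norm_num : 2 ≠ 0) hpn
    rwa [← this]
  · intro h
    exact ⟨n, h, rfl⟩

theorem split_of {ι : Type*} [Fintype ι] {Λ : ι → ℕ → ℂ} (c : ι → ℂ)
    (hsupp : ∀ i n, ¬ IsPrimePow n → Λ i n = 0)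
    (hhigh : ∀ i, LSeriesSummable (high (Λ i)) (1 / 2)) {B : ℝ}
    (h1 : ∀ p : ℕ, p.Prime → ‖∑ i, c i * Λ i p‖ ≤ B * Real.log p / Real.sqrt p)
    (h2 : ∀ p : ℕ, p.Prime → ‖∑ i, c i * Λ i (p ^ 2)‖ ≤ B * Real.log p) :
    Split (comb c Λ) B := by
  classical
  set g : ℕ → ℂ := comb c Λ with hg
  have hg0 : ∀ n, ¬ IsPrimePow n → g n = 0 := by
    intro n hn
    simp only [hg, comb]
    exact Finset.sum_eq_zero fun i _ => by rw [hsupp i n hn, mul_zero]
  have hB : 0 ≤ B := by
    have h := h2 2 Nat.prime_two
    have h3 : (0 : ℝ) < Real.log (2 : ℕ) := Real.log_pos (by norm_num)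
    have h4 := (norm_nonneg _).trans h
    by_contra h5
    push Not at h5
    nlinarith
  set u : ℕ → ℂ := fun n => if n.Prime then ((Real.sqrt n : ℝ) : ℂ) * g n / ((Real.log n : ℝ) : ℂ)
    else 0 with hu
  set v : ℕ → ℂ := fun n => if n.Prime then g (n ^ 2) / ((Real.log n : ℝ) : ℂ) else 0 with hv
  have hlogp : ∀ p : ℕ, p.Prime → 0 < Real.log p := fun p hp =>
    Real.log_pos (by exact_mod_cast hp.one_lt)
  have hub : ∀ n, ‖u n‖ ≤ B := by
    intro n
    simp only [hu]
    split_ifs with hp
    · have hl := hlogp n hp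
      have hn : (0 : ℝ) < n := by exact_mod_cast hp.pos
      have hs : 0 < Real.sqrt n := Real.sqrt_pos.2 hn
      rw [norm_div, norm_mul, Complex.norm_real, Complex.norm_real, Real.norm_of_nonneg hs.le,
        Real.norm_of_nonneg hl.le, div_le_iff₀ hl]
      have := mul_le_mul_of_nonneg_left (h1 n hp) hs.le
      calc Real.sqrt n * ‖g n‖ ≤ Real.sqrt n * (B * Real.log n / Real.sqrt n) := this
        _ = B * Real.log n := by field_simp
    · simpa using hB
  have hvb : ∀ n, ‖v n‖ ≤ B := by
    intro n
    simp only [hv]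
    split_ifs with hp
    · have hl := hlogp n hp
      rw [norm_div, Complex.norm_real, Real.norm_of_nonneg hl.le, div_le_iff₀ hl]
      exact h2 n hp
    · simpa using hB
  have hW : LSeriesSummable (high g) (1 / 2) := by
    have h3 : high g = ∑ i, c i • high (Λ i) := by
      funext n
      rw [Finset.sum_apply]
      simp only [Pi.smul_apply, smul_eq_mul, high, hg, comb]
      split_ifs with h
      · rfl
      · simp
    rw [h3]
    exact LSeriesSummable.sum fun i _ => (hhigh i).smul (c i)
  refine ⟨u, v, high g, hub, hvb, hW, fun s hs => ?_⟩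
  have hWs : LSeriesSummable (high g) s := hW.of_re_le_re (by simpa using hs.le)
  have hus : LSeriesSummable (pr u) (s + 1 / 2) := spc_pr_summable hub (by
    rw [Complex.add_re]
    norm_num
    linarith)
  have hvs : LSeriesSummable (pr v) (2 * s) := spc_pr_summable hvb (by
    rw [Complex.mul_re]
    norm_num
    linarith)
  -- the prime part
  have hA : ∀ n, term (pr u) (s + 1 / 2) n = if n.Prime then term g s n else 0 := by
    intro n
    rcases Nat.eq_zero_or_pos n with h0 | hn
    · subst h0; simp
    · rw [term_of_ne_zero hn.ne', term_of_ne_zero hn.ne', pr]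
      split_ifs with hp
      · have hn0 : (n : ℂ) ≠ 0 := by exact_mod_cast hn.ne'
        have hl : ((Real.log n : ℝ) : ℂ) ≠ 0 := by exact_mod_cast (hlogp n hp).ne'
        have hsq : ((Real.sqrt n : ℝ) : ℂ) = (n : ℂ) ^ (1 / 2 : ℂ) := by
          rw [Real.sqrt_eq_rpow, Complex.ofReal_cpow (Nat.cast_nonneg n)]
          push_cast
          rfl
        have hsne : (n : ℂ) ^ (1 / 2 : ℂ) ≠ 0 := by
          rw [Ne, Complex.cpow_eq_zero_iff]; tauto
        have hsne2 : (n : ℂ) ^ s ≠ 0 := by
          rw [Ne, Complex.cpow_eq_zero_iff]; tauto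
        rw [Complex.cpow_add _ _ hn0]
        simp only [hu, if_pos hp]
        rw [hsq]
        field_simp
      · simp
  -- the prime squares
  set C : ℕ → ℂ := fun n => if SpcSq n then term g s n else 0 with hC
  have hinj : Function.Injective (fun n : ℕ => n ^ 2) := Nat.pow_left_injective (by norm_num)
  have hCc : ∀ n, C (n ^ 2) = term (pr v) (2 * s) n := by
    intro n
    rcases Nat.eq_zero_or_pos n with h0 | hn
    · subst h0
      simp [hC]
    · simp only [hC]
      rw [term_of_ne_zero hn.ne', pr]
      by_cases hp : n.Prime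
      · rw [if_pos ((spc_sq_iff n).2 hp), if_pos hp, term_of_ne_zero (by positivity)]
        have hl : ((Real.log n : ℝ) : ℂ) ≠ 0 := by exact_mod_cast (hlogp n hp).ne'
        simp only [hv, if_pos hp]
        have h5 : ((n ^ 2 : ℕ) : ℂ) ^ s = (n : ℂ) ^ (2 * s) := by
          have := Complex.natCast_cpow_natCast_mul n 2 s
          push_cast at this ⊢
          rw [this]
        rw [h5, div_mul_cancel₀ _ hl]
      · rw [if_neg (fun h => hp ((spc_sq_iff n).1 h)), if_neg hp, zero_div]
  have hCout : ∀ n, n ∉ Set.range (fun n : ℕ => n ^ 2) → C n = 0 := by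
    intro n hn
    simp only [hC]
    rw [if_neg]
    rintro ⟨p, -, hp⟩
    exact hn ⟨p, hp⟩
  have hCsum : Summable C := by
    rw [← hinj.summable_iff hCout]
    refine hvs.congr fun n => ?_
    exact (hCc n).symm
  have hCt : ∑' n, C n = LSeries (pr v) (2 * s) := by
    rw [LSeries, ← hinj.tsum_eq (f := C)]
    · exact tsum_congr hCc
    · intro n hn
      by_contra h
      exact hn (hCout n h)
  -- the decomposition
  have hdec : ∀ n, term g s n = term (pr u) (s + 1 / 2) n + C n + term (high g) s n := by
    intro n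
    rcases Nat.eq_zero_or_pos n with h0 | hn
    · subst h0
      simp [hC]
    · rw [hA]
      by_cases hpp : IsPrimePow n
      · rcases spc_cases hpp with hp | hp | hp
        · have n1 : ¬ SpcSq n := fun h => spc_not_prime_sq h hp
          have n2 : ¬ High n := fun h => spc_not_high_prime h hp
          have e1 : term (high g) s n = 0 := by
            rw [term_of_ne_zero hn.ne', high, if_neg n2, zero_div]
          simp only [hC]
          rw [if_pos hp, if_neg n1, e1, add_zero, add_zero]
        · have n1 : ¬ n.Prime := spc_not_prime_sq hp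
          have n2 : ¬ High n := fun h => spc_not_high_sq h hp
          have e1 : term (high g) s n = 0 := by
            rw [term_of_ne_zero hn.ne', high, if_neg n2, zero_div]
          simp only [hC]
          rw [if_neg n1, if_pos hp, e1, add_zero, zero_add]
        · have n1 : ¬ n.Prime := spc_not_high_prime hp
          have n2 : ¬ SpcSq n := spc_not_high_sq hp
          have e1 : term (high g) s n = term g s n := by
            rw [term_of_ne_zero hn.ne', term_of_ne_zero hn.ne', high, if_pos hp]
          simp only [hC]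
          rw [if_neg n1, if_neg n2, e1, zero_add, zero_add]
      · have e0 : g n = 0 := hg0 n hpp
        have e2 : term g s n = 0 := by rw [term_of_ne_zero hn.ne', e0, zero_div]
        have e1 : term (high g) s n = 0 := by
          rw [term_of_ne_zero hn.ne', high]
          split_ifs
          · rw [e0, zero_div]
          · rw [zero_div]
        simp only [hC]
        rw [e1, e2]
        simp
  have s1 : Summable (term (pr u) (s + 1 / 2)) := hus
  have s2 : Summable (term (high g) s) := hWs
  have s3 : Summable fun n => term (pr u) (s + 1 / 2) n + C n := s1.add hCsum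
  have s4 : Summable fun n => term (pr u) (s + 1 / 2) n + C n + term (high g) s n := s3.add s2
  have hgs : LSeriesSummable g s := by
    have e : term g s = fun n => term (pr u) (s + 1 / 2) n + C n + term (high g) s n :=
      funext hdec
    unfold LSeriesSummable
    rw [e]
    exact s4
  refine ⟨hgs, ?_⟩
  have e1 : LSeries g s = ∑' n, (term (pr u) (s + 1 / 2) n + C n + term (high g) s n) :=
    tsum_congr hdec
  rw [e1, s3.tsum_add s2, s1.tsum_add hCsum, hCt]
  rfl

end Pool.Agent.Selb
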