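import Pool.Agent.Selb.Limit
import Pool.Agent.Selb.Sdef

/-!
# Selb/Rigid: linear rigidity of prime coefficients
-/

set_option autoImplicit false

open Complex Metric Filter Topology LSeries MeasureTheory

namespace Pool.Agent.Selb

section

variable {ι : Type*} [Fintype ι] {Ψ : ι → ℂ → ℂ} {Λ : ι → ℕ → ℂ} {m : ι → ℂ} {E : ι → ℂ → ℂ}

lemma Split.mono {f : ℕ → ℂ} {B B' : ℝ} (h : Split f B) (hB : B ≤ B') : Split f B' := by
  obtain ⟨u, v, W, hu, hv, hW, hdec⟩ := h
  exact ⟨u, v, W, fun n => (hu n).trans hB, fun n => (hv n).trans hB, hW, hdec⟩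

/-- **linear rigidity**: a combination of `-F'/F` coefficients which splits into bounded pieces
vanishes identically. -/
theorem comb_zero_of_split (hG : ∀ i, Good (Ψ i) (Λ i) (m i) (E i)) (c : ι → ℂ) {B : ℝ}
    (hsp : Split (comb c Λ) B) {n : ℕ} (hn : 2 ≤ n) : comb c Λ n = 0 := by
  have hsp' : Split (comb c Λ) (max B 1) := hsp.mono (le_max_left _ _)
  have hB : 0 < max B 1 := lt_of_lt_of_le one_pos (le_max_right _ _)
  have hS : ∀ s : ℂ, 1 / 2 < s.re → LSeriesSummable (comb c Λ) s := by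
    obtain ⟨u, v, W, hu, hv, hW, hdec⟩ := hsp
    exact fun s hs => (hdec s hs).1
  have hsq := mult_sq_summable hG c hB hsp'
  refine coeff_zero_of_summable hG c (fun z hz => ?_) ?_ hn
  · by_contra hre
    push Not at hre
    refine hz (mult_eq_zero_off hG c hS ?_ ?_ ?_)
    · intro h; linarith
    · intro h; rw [h] at hre; simp at hre; linarith
    · intro h; rw [h] at hre; simp at hre
  · have h1 : Summable (fun z : ℂ => ∑ i, (ord (Ψ i) z : ℝ) / (1 + ‖z‖) ^ 2) :=
      summable_sum (fun i _ => summable_ord (hG i).diff (hG i).ne (hG i).gro)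
    refine Summable.of_nonneg_of_le (fun z => by positivity) (fun z => ?_) (hsq.add h1)
    by_cases h0 : mult c Ψ z = 0
    · rw [h0]
      simp only [norm_zero, zero_div]
      positivity
    · have h2 : (1 : ℝ) ≤ ∑ i, (ord (Ψ i) z : ℝ) := by
        have h3 : ∃ i, ord (Ψ i) z ≠ 0 := by
          by_contra h4
          push Not at h4
          apply h0
          unfold mult
          exact Finset.sum_eq_zero (fun i _ => by rw [h4 i]; simp)
        obtain ⟨i, hi⟩ := h3
        have h4 : (1 : ℝ) ≤ (ord (Ψ i) z : ℝ) := by exact_mod_cast Nat.one_le_iff_ne_zero.2 hi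
        exact h4.trans (Finset.single_le_sum (f := fun i => (ord (Ψ i) z : ℝ))
          (fun j _ => Nat.cast_nonneg _) (Finset.mem_univ i))
      rw [← Finset.sum_div]
      have h5 : (1 : ℝ) / (1 + ‖z‖) ^ 2 ≤ (∑ i, (ord (Ψ i) z : ℝ)) / (1 + ‖z‖) ^ 2 :=
        div_le_div_of_nonneg_right h2 (by positivity)
      have h6 : ‖mult c Ψ z‖ / (1 + ‖z‖) ≤ ‖mult c Ψ z‖ ^ 2 + (1 : ℝ) / (1 + ‖z‖) ^ 2 := by
        set x := ‖mult c Ψ z‖
        set y := (1 + ‖z‖)⁻¹ with hy
        have e1 : x / (1 + ‖z‖) = x * y := by rw [hy]; rfl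
        have e2 : (1 : ℝ) / (1 + ‖z‖) ^ 2 = y ^ 2 := by rw [hy, one_div, inv_pow]
        rw [e1, e2]
        nlinarith [sq_nonneg (x - y), sq_nonneg x, sq_nonneg y]
      linarith

/-- If all combined multiplicities away from `0` and `1` vanish, the combined coefficients
vanish. -/
theorem comb_zero_of_mult (hG : ∀ i, Good (Ψ i) (Λ i) (m i) (E i)) (c : ι → ℂ)
    (h : ∀ z : ℂ, z ≠ 0 → z ≠ 1 → mult c Ψ z = 0) {n : ℕ} (hn : 2 ≤ n) : comb c Λ n = 0 := by
  classical
  refine coeff_zero_of_summable hG c (fun z hz => ?_) ?_ hn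
  · by_contra hre
    push Not at hre
    refine hz (h z ?_ ?_)
    · intro h; rw [h] at hre; simp at hre; linarith
    · intro h; rw [h] at hre; simp at hre
  · refine summable_of_ne_finset_zero (s := ({0, 1} : Finset ℂ)) (fun z hz => ?_)
    simp only [Finset.mem_insert, Finset.mem_singleton, not_or] at hz
    rw [h z hz.1 hz.2]
    simp

lemma key_identity0 (hG : ∀ i, Good (Ψ i) (Λ i) (m i) (E i)) (c : ι → ℂ)
    (hL : ∀ s : ℂ, 1 < s.re → LSeriesHasSum (comb c Λ) s 0) {s : ℂ}
    (hs : 0 < s.re) (hs1 : s ≠ 1) (hnz : ∀ i, Ψ i s ≠ 0) :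
    (∑ i, c i * m i) / (s - 1) + ∑ i, c i * E i s = ∑ i, c i * logDeriv (Ψ i) s := by
  classical
  set U : Set ℂ := {s | (0 : ℝ) < s.re} with hU
  have hUo : IsOpen U := isOpen_half _
  set P : ℂ → ℂ := fun w => ∏ j, Ψ j w with hP
  have hPd : Differentiable ℂ P := by
    have : ∀ j ∈ (Finset.univ : Finset ι), Differentiable ℂ (Ψ j) := fun j _ => (hG j).diff
    exact Differentiable.fun_finsetProd this
  set Q : ι → ℂ → ℂ := fun i w => ∏ j ∈ Finset.univ.erase i, Ψ j w with hQ
  have hQd : ∀ i, Differentiable ℂ (Q i) := fun i => by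
    have : ∀ j ∈ (Finset.univ.erase i : Finset ι), Differentiable ℂ (Ψ j) :=
      fun j _ => (hG j).diff
    exact Differentiable.fun_finsetProd this
  set F1 : ℂ → ℂ := fun w => (w - 1) * ∑ i, c i * (deriv (Ψ i) w * Q i w) with hF1
  set F2 : ℂ → ℂ := fun w => ((∑ i, c i * m i) +
    (w - 1) * (∑ i, c i * E i w)) * P w with hF2
  have hF1d : DifferentiableOn ℂ F1 U := by
    have h1 : Differentiable ℂ (fun w => ∑ i, c i * (deriv (Ψ i) w * Q i w)) := by
      refine Differentiable.fun_sum (fun i _ => ?_)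
      exact (((hG i).diff.deriv).mul (hQd i)).const_mul _
    have h2 : Differentiable ℂ (fun w : ℂ => w - 1) := by fun_prop
    exact (h2.mul h1).differentiableOn
  have hF2d : DifferentiableOn ℂ F2 U := by
    have h1 : DifferentiableOn ℂ (fun w => ∑ i, c i * E i w) U := by
      refine DifferentiableOn.fun_sum (fun i _ => ?_)
      exact ((hG i).anE).const_mul _
    have h2 : DifferentiableOn ℂ (fun w : ℂ => w - 1) U := by fun_prop
    exact ((differentiableOn_const _).add (h2.mul h1)).mul hPd.differentiableOn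
  have hgen : ∀ w : ℂ, (∀ i, Ψ i w ≠ 0) →
      ∑ i, c i * (deriv (Ψ i) w * Q i w) = (∑ i, c i * logDeriv (Ψ i) w) * P w := by
    intro w hw
    rw [Finset.sum_mul]
    refine Finset.sum_congr rfl (fun i _ => ?_)
    have h1 : P w = Ψ i w * Q i w := by
      rw [hP, hQ]
      exact (Finset.mul_prod_erase Finset.univ (fun j => Ψ j w) (Finset.mem_univ i)).symm
    rw [h1, logDeriv_apply]
    have := hw i
    field_simp
  have heq1 : ∀ w : ℂ, 1 < w.re → F1 w = F2 w := by
    intro w hw
    have hw1 : w - 1 ≠ 0 := by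
      intro h
      have := congrArg Complex.re h
      simp at this
      linarith
    have hnw : ∀ i, Ψ i w ≠ 0 := fun i => (hG i).nz w hw
    simp only [hF1, hF2]
    have h0 : ∑ i, c i * LSeries (Λ i) w = 0 := by
      rw [← comb_LSeries hG c hw]
      exact (hL w hw).LSeries_eq
    have h2 : ∑ i, c i * logDeriv (Ψ i) w = (∑ i, c i * m i) / (w - 1) + ∑ i, c i * E i w := by
      have h3 : ∑ i, c i * logDeriv (Ψ i) w = (∑ i, c i * m i) / (w - 1) + ∑ i, c i * E i w -
          ∑ i, c i * LSeries (Λ i) w := by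
        rw [Finset.sum_div, ← Finset.sum_add_distrib, ← Finset.sum_sub_distrib]
        refine Finset.sum_congr rfl (fun i _ => ?_)
        rw [(hG i).log w hw]
        ring
      rw [h3, h0, sub_zero]
    rw [hgen w hnw, h2]
    field_simp
  have heqOn : Set.EqOn F1 F2 U := by
    have hconv : Convex ℝ U := by
      rw [hU]
      exact convex_halfSpace_re_gt 0
    refine AnalyticOnNhd.eqOn_of_preconnected_of_eventuallyEq
      (hF1d.analyticOnNhd hUo) (hF2d.analyticOnNhd hUo) hconv.isPreconnected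
      (z₀ := 2) (by simp [hU]) ?_
    filter_upwards [(isOpen_half 1).mem_nhds (show (1 : ℝ) < (2 : ℂ).re by norm_num)] with w hw
    exact heq1 w hw
  have h3 := heqOn hs
  simp only [hF1, hF2] at h3
  rw [hgen s hnz] at h3
  have hPs : P s ≠ 0 := Finset.prod_ne_zero_iff.2 (fun i _ => hnz i)
  have hs1' : s - 1 ≠ 0 := sub_ne_zero.2 hs1
  rw [← mul_assoc] at h3
  have h4 := mul_right_cancel₀ hPs h3
  refine mul_left_cancel₀ hs1' (Eq.trans ?_ h4.symm)
  field_simp

/-- If the combined coefficients vanish, so do the combined multiplicities away from `0`, `1`. -/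
theorem mult_zero_of_comb (hG : ∀ i, Good (Ψ i) (Λ i) (m i) (E i)) (c : ι → ℂ)
    (h : ∀ n, 1 ≤ n → comb c Λ n = 0) {z : ℂ} (hz0 : z ≠ 0) (hz1 : z ≠ 1) : mult c Ψ z = 0 := by
  have hL : ∀ s : ℂ, LSeriesHasSum (comb c Λ) s 0 := by
    intro s
    have h1 : LSeries.term (comb c Λ) s = fun _ => 0 := by
      funext n
      rcases Nat.eq_zero_or_pos n with h0 | hn
      · rw [h0, term_zero]
      · rw [term_of_ne_zero hn.ne', h n hn, zero_div]
    unfold LSeriesHasSum
    rw [h1]
    exact hasSum_zero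
  -- right half-plane
  have hright : ∀ w : ℂ, 0 < w.re → w ≠ 1 → mult c Ψ w = 0 := by
    intro w hw hw1
    obtain ⟨h1, h2⟩ := comb_residue hG c w
    set Ec : ℂ → ℂ := fun w => (∑ i, c i * m i) / (w - 1) + ∑ i, c i * E i w with hEc
    have hE : ContinuousAt Ec w := by
      refine ContinuousAt.add ?_ ?_
      · exact continuousAt_const.div (by fun_prop) (sub_ne_zero.2 hw1)
      · refine tendsto_finsetSum _ (fun i _ => ?_)
        refine Tendsto.const_mul _ ?_
        exact ((hG i).anE.differentiableAt ((isOpen_half 0).mem_nhds hw)).continuousAt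
    have h3 : Tendsto (fun s => (s - w) * Ec s) (𝓝[≠] w) (𝓝 0) := by
      have h4 : ContinuousAt (fun s : ℂ => s - w) w := by fun_prop
      have h5 := h4.tendsto.mul hE.tendsto
      rw [sub_self, zero_mul] at h5
      exact h5.mono_left nhdsWithin_le_nhds
    have h6 : ∀ᶠ s in 𝓝[≠] w, (s - w) * Ec s = (s - w) * ∑ i, c i * logDeriv (Ψ i) s := by
      have ha : ∀ᶠ s in 𝓝[≠] w, (0 : ℝ) < s.re :=
        nhdsWithin_le_nhds ((isOpen_half _).mem_nhds hw)
      have hb : ∀ᶠ s in 𝓝[≠] w, s ≠ 1 := nhdsWithin_le_nhds (isOpen_ne.mem_nhds hw1)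
      filter_upwards [ha, hb, h2] with s hs hs1 hs2
      exact congrArg (fun x => (s - w) * x) (key_identity0 hG c (fun s _ => hL s) hs hs1 hs2)
    exact tendsto_nhds_unique h1 (h3.congr' h6)
  rcases lt_or_ge 0 z.re with h1 | h1
  · exact hright z h1 hz1
  · rw [← mult_symm hG c z]
    refine hright _ ?_ ?_
    · simp; linarith
    · intro h1
      apply hz0
      have h2 : (starRingEnd ℂ) z = 0 := by linear_combination -h1
      simpa using h2

end

end Pool.Agent.Selb
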