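import Pool.Agent.Selb.HalfG
import Pool.Agent.Selb.HalfZ
import Pool.Agent.Selb.HalfX
import Pool.Agent.Selb.HalfS
import Pool.Agent.Selb.SplitC
import Pool.Agent.Selb.CharF
import Pool.Agent.Selb.Rigid

/-!
# Selb/Star: the primitive characters attached to the characters modulo `q`
-/

set_option autoImplicit false

open Complex Metric Filter Topology LSeries

namespace Pool.Agent.Selb

/-- coefficients of `-L'/L` for the primitive character inducing `χ` -/
noncomputable def starL {q : ℕ} (χ : DirichletCharacter ℂ q) : ℕ → ℂ := fun n =>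
  χ.primitiveCharacter (n : ZMod χ.conductor) * (ArithmeticFunction.vonMangoldt n : ℂ)

lemma star_one {q : ℕ} [NeZero q] (n : ZMod (1 : DirichletCharacter ℂ q).conductor) :
    (1 : DirichletCharacter ℂ q).primitiveCharacter n = 1 := by
  have hsub : Subsingleton (ZMod (1 : DirichletCharacter ℂ q).conductor) := by
    rw [DirichletCharacter.conductor_one]
    infer_instance
  rw [DirichletCharacter.primitiveCharacter_one]
  exact MulChar.one_apply (isUnit_of_subsingleton _)

theorem good_star {q : ℕ} [NeZero q] (χ : DirichletCharacter ℂ q) :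
    ∃ (Ψ : ℂ → ℂ) (m : ℂ) (E : ℂ → ℂ), Good Ψ (starL χ) m E := by
  by_cases h : χ = 1
  · subst h
    obtain ⟨G, Q, lam, μ, hh⟩ := half_zeta
    obtain ⟨Ψ, hΨ, -⟩ := good_of_half hh
    have e : starL (1 : DirichletCharacter ℂ q) =
        fun n => (ArithmeticFunction.vonMangoldt n : ℂ) := by
      funext n
      rw [starL, star_one, one_mul]
    rw [e]
    exact ⟨Ψ, _, _, hΨ⟩
  · have : NeZero χ.conductor := ⟨χ.conductor_ne_zero⟩
    have hne : χ.primitiveCharacter ≠ 1 := by
      intro h1
      apply h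
      have h2 := χ.primitiveCharacter_isPrimitive
      rw [DirichletCharacter.isPrimitive_def, h1, DirichletCharacter.conductor_one] at h2
      rw [DirichletCharacter.eq_one_iff_conductor_eq_one]
      exact h2.symm
    obtain ⟨Q, lam, μ, ω, hh⟩ := half_chi χ.primitiveCharacter_isPrimitive hne
    obtain ⟨Ψ, hΨ, -⟩ := good_of_half hh
    exact ⟨Ψ, _, _, hΨ⟩

lemma norm_star_le {q : ℕ} (χ : DirichletCharacter ℂ q) (n : ZMod χ.conductor) :
    ‖χ.primitiveCharacter n‖ ≤ 1 := DirichletCharacter.norm_le_one _ _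

lemma norm_starL_le {q : ℕ} (χ : DirichletCharacter ℂ q) (n : ℕ) :
    ‖starL χ n‖ ≤ ArithmeticFunction.vonMangoldt n := by
  rw [starL, norm_mul, Complex.norm_real, Real.norm_eq_abs,
    abs_of_nonneg ArithmeticFunction.vonMangoldt_nonneg]
  exact mul_le_of_le_one_left ArithmeticFunction.vonMangoldt_nonneg (norm_star_le χ _)

lemma starL_supp {q : ℕ} (χ : DirichletCharacter ℂ q) (n : ℕ) (hn : ¬ IsPrimePow n) :
    starL χ n = 0 := by
  rw [starL, ArithmeticFunction.vonMangoldt_eq_zero_iff.2 hn]
  simp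

lemma starL_high {q : ℕ} (χ : DirichletCharacter ℂ q) :
    LSeriesSummable (high (starL χ)) (1 / 2) := by
  refine high_log (C := 1) (fun n => ?_)
  rw [one_mul]
  exact (norm_starL_le χ n).trans ArithmeticFunction.vonMangoldt_le_log

lemma starL_prime {q : ℕ} (χ : DirichletCharacter ℂ q) {p : ℕ} (hp : p.Prime)
    (hpq : p.Coprime q) : starL χ p = χ (p : ZMod q) * (Real.log p : ℂ) := by
  rw [starL, prim_apply χ hpq, ArithmeticFunction.vonMangoldt_apply_prime hp]

lemma starL_pow {q : ℕ} (χ : DirichletCharacter ℂ q) {p : ℕ} (hp : p.Prime)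
    (hpq : p.Coprime q) {k : ℕ} (hk : k ≠ 0) :
    starL χ (p ^ k) = χ (p : ZMod q) ^ k * (Real.log p : ℂ) := by
  rw [starL, prim_apply χ (hpq.pow_left k), ArithmeticFunction.vonMangoldt_apply_pow hk,
    ArithmeticFunction.vonMangoldt_apply_prime hp]
  push_cast
  rw [map_pow]

/-- The structure theorem: if the prime coefficients of `F` agree up to `O(p^{-1/2})` with a
combination of characters, then `F` is the corresponding product of Dirichlet `L`-functions. -/
theorem struct_main {a b : ℕ → ℂ} {m : ℕ} {G : ℂ → ℂ} {Q : ℝ} {k : ℕ} {lam : Fin k → ℝ}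
    {μ : Fin k → ℂ} {ω : ℂ} (h : Arith a b) (h' : Anal a m G Q lam μ ω) {q : ℕ} [NeZero q]
    (c : DirichletCharacter ℂ q → ℂ) {B : ℝ}
    (h1 : ∀ p : ℕ, p.Prime → ‖a p - ∑ χ, c χ * χ (p : ZMod q)‖ ≤ B / Real.sqrt p)
    (h2 : ∀ p : ℕ, p.Prime → ‖a (p ^ 2)‖ ≤ B) (n : ℕ) :
    b n * (Real.log n : ℂ) = ∑ χ, c χ * starL χ n := by
  classical
  rcases Nat.lt_or_ge n 2 with hn | hn
  · have hnp : ¬ IsPrimePow n := fun hh => by have := hh.two_le; omega
    rw [h.supp n hnp, zero_mul]
    exact (Finset.sum_eq_zero (fun χ _ => by rw [starL_supp χ n hnp, mul_zero])).symm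
  obtain ⟨Ψ0, hΨ0, -⟩ := good_of_half (half_sel h h')
  choose Ψ1 m1 E1 hΨ1 using fun χ : DirichletCharacter ℂ q => good_star χ
  set Ψ : Option (DirichletCharacter ℂ q) → ℂ → ℂ := fun o => o.elim Ψ0 Ψ1 with hΨ
  set L : Option (DirichletCharacter ℂ q) → ℕ → ℂ :=
    fun o => o.elim (fun n => b n * (Real.log n : ℂ)) starL with hL
  set mm : Option (DirichletCharacter ℂ q) → ℂ := fun o => o.elim (m : ℂ) m1 with hmm
  set EE : Option (DirichletCharacter ℂ q) → ℂ → ℂ := fun o => o.elim (cE m Q lam μ) E1 with hEE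
  set cc : Option (DirichletCharacter ℂ q) → ℂ := fun o => o.elim 1 (fun χ => -c χ) with hcc
  have hG : ∀ o, Good (Ψ o) (L o) (mm o) (EE o) := by
    rintro (_ | χ)
    · exact hΨ0
    · exact hΨ1 χ
  have hcomb : ∀ n, comb cc L n = b n * (Real.log n : ℂ) - ∑ χ, c χ * starL χ n := by
    intro n
    simp only [comb, Fintype.sum_option, hcc, hL, Option.elim]
    rw [one_mul, sub_eq_add_neg, ← Finset.sum_neg_distrib]
    congr 1
    exact Finset.sum_congr rfl (fun χ _ => by ring)
  set S : ℝ := ∑ χ, ‖c χ‖ with hS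
  have hS0 : 0 ≤ S := Finset.sum_nonneg (fun _ _ => norm_nonneg _)
  have hB0 : 0 ≤ B := (norm_nonneg _).trans (h2 2 Nat.prime_two)
  have hq1 : (1 : ℝ) ≤ q := by exact_mod_cast Nat.one_le_iff_ne_zero.2 (NeZero.ne q)
  have hchar : ∀ x : ZMod q, ‖∑ χ, c χ * χ x‖ ≤ S := by
    intro x
    refine (norm_sum_le _ _).trans (Finset.sum_le_sum (fun χ _ => ?_))
    rw [norm_mul]
    exact mul_le_of_le_one_right (norm_nonneg _) (DirichletCharacter.norm_le_one _ _)
  have hstar : ∀ n, ‖∑ χ, c χ * starL χ n‖ ≤ S * ArithmeticFunction.vonMangoldt n := by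
    intro n
    rw [hS, Finset.sum_mul]
    refine (norm_sum_le _ _).trans (Finset.sum_le_sum (fun χ _ => ?_))
    rw [norm_mul]
    exact mul_le_mul_of_nonneg_left (norm_starL_le χ n) (norm_nonneg _)
  have hap : ∀ p : ℕ, p.Prime → ‖a p‖ ≤ B + S := by
    intro p hp
    have hsq : 1 ≤ Real.sqrt p := by
      rw [Real.one_le_sqrt]; exact_mod_cast hp.one_le
    have e1 : B / Real.sqrt p ≤ B := div_le_self hB0 hsq
    calc ‖a p‖ = ‖(a p - ∑ χ, c χ * χ (p : ZMod q)) + ∑ χ, c χ * χ (p : ZMod q)‖ := by ring_nf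
      _ ≤ ‖a p - ∑ χ, c χ * χ (p : ZMod q)‖ + ‖∑ χ, c χ * χ (p : ZMod q)‖ := norm_add_le _ _
      _ ≤ B + S := add_le_add ((h1 p hp).trans e1) (hchar _)
  set B1 : ℝ := B + (B + 2 * S) * Real.sqrt q + (2 * (B + (B + S) ^ 2) + S) with hB1
  have hsp : Split (comb cc L) B1 := by
    refine split_of cc ?_ ?_ ?_ ?_
    · rintro (_ | χ) n hnp
      · simp only [hL, Option.elim]
        rw [h.supp n hnp, zero_mul]
      · exact starL_supp χ n hnp
    · rintro (_ | χ)
      · exact h.high_L
      · exact starL_high χ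
    · intro p hp
      have hlog : 0 ≤ Real.log p := Real.log_natCast_nonneg p
      have hsqpos : 0 < Real.sqrt p := Real.sqrt_pos.2 (by exact_mod_cast hp.pos)
      have e0 : ∑ o, cc o * L o p = comb cc L p := rfl
      rw [e0, hcomb p, ← h.at_prime hp]
      have hgoal : ‖a p * (Real.log p : ℂ) - ∑ χ, c χ * starL χ p‖ ≤
          (B + (B + 2 * S) * Real.sqrt q) * Real.log p / Real.sqrt p := by
        by_cases hpq : p.Coprime q
        · have e1 : a p * (Real.log p : ℂ) - ∑ χ, c χ * starL χ p =
              (a p - ∑ χ, c χ * χ (p : ZMod q)) * (Real.log p : ℂ) := by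
            rw [sub_mul, Finset.sum_mul]
            congr 1
            exact Finset.sum_congr rfl (fun χ _ => by rw [starL_prime χ hp hpq]; ring)
          rw [e1, norm_mul, Complex.norm_real, Real.norm_eq_abs, abs_of_nonneg hlog]
          have e2 := mul_le_mul_of_nonneg_right (h1 p hp) hlog
          refine e2.trans ?_
          rw [div_mul_eq_mul_div]
          refine div_le_div_of_nonneg_right (mul_le_mul_of_nonneg_right ?_ hlog) hsqpos.le
          have : 0 ≤ (B + 2 * S) * Real.sqrt q := by positivity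
          linarith
        · have hpdvd : p ∣ q := by
            by_contra hnd
            exact hpq ((Nat.Prime.coprime_iff_not_dvd hp).2 hnd)
          have hple : (p : ℝ) ≤ q := by
            exact_mod_cast Nat.le_of_dvd (Nat.pos_of_ne_zero (NeZero.ne q)) hpdvd
          have hsq : Real.sqrt p ≤ Real.sqrt q := Real.sqrt_le_sqrt hple
          have e1 : ‖a p * (Real.log p : ℂ) - ∑ χ, c χ * starL χ p‖ ≤
              (B + S) * Real.log p + S * Real.log p := by
            refine (norm_sub_le _ _).trans (add_le_add ?_ ?_)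
            · rw [norm_mul, Complex.norm_real, Real.norm_eq_abs, abs_of_nonneg hlog]
              exact mul_le_mul_of_nonneg_right (hap p hp) hlog
            · have := hstar p
              rwa [ArithmeticFunction.vonMangoldt_apply_prime hp] at this
          refine e1.trans ?_
          rw [le_div_iff₀ hsqpos]
          have e2 : ((B + S) * Real.log p + S * Real.log p) * Real.sqrt p ≤
              ((B + S) * Real.log p + S * Real.log p) * Real.sqrt q :=
            mul_le_mul_of_nonneg_left hsq (by positivity)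
          refine e2.trans ?_
          have e3 : 0 ≤ B * Real.log p := by positivity
          nlinarith
      refine hgoal.trans (div_le_div_of_nonneg_right (mul_le_mul_of_nonneg_right ?_ hlog) hsqpos.le)
      have : 0 ≤ 2 * (B + (B + S) ^ 2) + S := by positivity
      linarith
    · intro p hp
      have hlog : 0 ≤ Real.log p := Real.log_natCast_nonneg p
      have e0 : ∑ o, cc o * L o (p ^ 2) = comb cc L (p ^ 2) := rfl
      rw [e0, hcomb (p ^ 2)]
      have e1 : ‖b (p ^ 2)‖ ≤ B + (B + S) ^ 2 := by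
        have e2 := h.at_sq hp
        have e3 : b (p ^ 2) = a (p ^ 2) - b p ^ 2 / 2 := by rw [e2]; ring
        rw [e3, ← h.at_prime hp]
        refine (norm_sub_le _ _).trans (add_le_add (h2 p hp) ?_)
        rw [norm_div, norm_pow]
        have e4 : ‖a p‖ ^ 2 ≤ (B + S) ^ 2 := pow_le_pow_left₀ (norm_nonneg _) (hap p hp) 2
        have e5 : ‖(2 : ℂ)‖ = 2 := by simp
        rw [e5]
        have := sq_nonneg ‖a p‖
        linarith
      have e2 : ‖b (p ^ 2) * (Real.log (p ^ 2 : ℕ) : ℂ)‖ ≤
          (B + (B + S) ^ 2) * (2 * Real.log p) := by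
        rw [norm_mul, Complex.norm_real, Real.norm_eq_abs]
        have e3 : Real.log (p ^ 2 : ℕ) = 2 * Real.log p := by
          push_cast
          rw [Real.log_pow]
          push_cast
          ring
        rw [e3, abs_of_nonneg (by positivity)]
        exact mul_le_mul_of_nonneg_right e1 (by positivity)
      have e3 := hstar (p ^ 2)
      rw [ArithmeticFunction.vonMangoldt_apply_pow two_ne_zero,
        ArithmeticFunction.vonMangoldt_apply_prime hp] at e3
      refine (norm_sub_le _ _).trans ((add_le_add e2 e3).trans ?_)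
      have e4 : 0 ≤ (B + (B + 2 * S) * Real.sqrt q) * Real.log p := by positivity
      rw [hB1]
      nlinarith
  have hfin := comb_zero_of_split hG cc hsp hn
  rw [hcomb n] at hfin
  exact sub_eq_zero.1 hfin

end Pool.Agent.Selb
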