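import Pool.Agent.Selb.PLimit
import Pool.Agent.Selb.Star

/-!
# Selb/PShift: vertical shifts, thin exceptional sets
-/

set_option autoImplicit false

open Complex Metric Filter Topology LSeries

namespace Pool.Agent.Selb

lemma Good.toP {Ψ : ℂ → ℂ} {Λ : ℕ → ℂ} {m : ℂ} {E : ℂ → ℂ} (h : Good Ψ Λ m E) :
    GoodP Ψ Λ m 1 E :=
  ⟨h.diff, h.gro, h.symm, h.nz, h.summ, by simp, h.log, h.anE, h.decay⟩

/-- shifted coefficients -/
noncomputable def twist (θ : ℝ) (Λ : ℕ → ℂ) : ℕ → ℂ := fun n => Λ n * osc θ n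

lemma term_twist (θ : ℝ) (Λ : ℕ → ℂ) (s : ℂ) (n : ℕ) :
    term (twist θ Λ) s n = term Λ (s + θ * I) n := by
  rcases Nat.eq_zero_or_pos n with h0 | hn
  · subst h0; simp
  · have hn0 : (n : ℂ) ≠ 0 := by exact_mod_cast hn.ne'
    rw [term_of_ne_zero hn.ne', term_of_ne_zero hn.ne', twist, osc, Complex.cpow_add _ _ hn0,
      Complex.cpow_neg]
    field_simp

lemma summable_twist {θ : ℝ} {Λ : ℕ → ℂ} {s : ℂ} :
    LSeriesSummable (twist θ Λ) s ↔ LSeriesSummable Λ (s + θ * I) := by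
  unfold LSeriesSummable
  have : term (twist θ Λ) s = term Λ (s + θ * I) := funext (term_twist θ Λ s)
  rw [this]

lemma LSeries_twist (θ : ℝ) (Λ : ℕ → ℂ) (s : ℂ) :
    LSeries (twist θ Λ) s = LSeries Λ (s + θ * I) := by
  unfold LSeries
  exact tsum_congr (term_twist θ Λ s)

lemma GoodP.shift {Ψ : ℂ → ℂ} {Λ : ℕ → ℂ} {m po : ℂ} {E : ℂ → ℂ} (h : GoodP Ψ Λ m po E) (θ : ℝ) :
    GoodP (fun s => Ψ (s + θ * I)) (twist θ Λ) m (po - θ * I) (fun s => E (s + θ * I)) where
  diff := fun z => (h.diff (z + θ * I)).comp z (by fun_prop)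
  gro := ord32_shift h.gro _
  symm := fun z => by
    rw [ord_shift, ord_shift, ← h.symm (z + θ * I)]
    congr 1
    simp
    ring
  nz := fun s hs => h.nz _ (by simpa using hs)
  summ := fun s hs => summable_twist.2 (h.summ _ (by simpa using hs))
  pore := by simp [h.pore]
  log := fun s hs => by
    have h1 := h.log (s + θ * I) (by simpa using hs)
    rw [LSeries_twist]
    have h2 : logDeriv (fun s => Ψ (s + θ * I)) s = logDeriv Ψ (s + θ * I) := by
      simp only [logDeriv_apply]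
      rw [deriv_comp_add_const]
    rw [h2, h1]
    congr 3
    ring
  anE := by
    intro s hs
    have hs' : (0 : ℝ) < (s + θ * I).re := by simpa using hs
    have h1 : DifferentiableAt ℂ E (s + θ * I) := h.anE.differentiableAt
      ((isOpen_half 0).mem_nhds hs')
    exact (h1.comp s (by fun_prop)).differentiableWithinAt
  decay := by
    have h1 : (fun t : ℝ => deriv (fun s => E (s + θ * I)) (2 + t * I)) =
        (fun t : ℝ => deriv E (2 + t * I)) ∘ (fun t : ℝ => t + θ) := by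
      funext t
      simp only [Function.comp]
      rw [deriv_comp_add_const]
      congr 1
      push_cast
      ring
    rw [h1]
    exact h.decay.comp (tendsto_atTop_add_const_right _ _ tendsto_id)

/-- coefficients of `-L'/L (s + iθ, χ*)` -/
noncomputable def starT {q : ℕ} (χ : DirichletCharacter ℂ q) (θ : ℝ) : ℕ → ℂ := twist θ (starL χ)

theorem goodP_star {q : ℕ} [NeZero q] (χ : DirichletCharacter ℂ q) (θ : ℝ) :
    ∃ (Ψ : ℂ → ℂ) (m po : ℂ) (E : ℂ → ℂ), GoodP Ψ (starT χ θ) m po E := by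
  obtain ⟨Ψ, m, E, h⟩ := good_star χ
  exact ⟨_, _, _, _, h.toP.shift θ⟩

lemma norm_osc_le (θ : ℝ) {n : ℕ} (hn : n ≠ 0) : ‖osc θ n‖ = 1 :=
  norm_osc θ (Nat.pos_of_ne_zero hn)

lemma norm_starT_le {q : ℕ} (χ : DirichletCharacter ℂ q) (θ : ℝ) (n : ℕ) :
    ‖starT χ θ n‖ ≤ ArithmeticFunction.vonMangoldt n := by
  rcases Nat.eq_zero_or_pos n with h0 | hn
  · subst h0
    rw [starT, twist, starL_supp χ 0 not_isPrimePow_zero, zero_mul, norm_zero]
    exact ArithmeticFunction.vonMangoldt_nonneg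
  · rw [starT, twist, norm_mul, norm_osc θ hn, mul_one]
    exact norm_starL_le χ n

lemma starT_supp {q : ℕ} (χ : DirichletCharacter ℂ q) (θ : ℝ) (n : ℕ) (hn : ¬ IsPrimePow n) :
    starT χ θ n = 0 := by
  rw [starT, twist, starL_supp χ n hn, zero_mul]

lemma starT_high {q : ℕ} (χ : DirichletCharacter ℂ q) (θ : ℝ) :
    LSeriesSummable (high (starT χ θ)) (1 / 2) := by
  refine high_log (C := 1) (fun n => ?_)
  rw [one_mul]
  exact (norm_starT_le χ θ n).trans ArithmeticFunction.vonMangoldt_le_log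

lemma starT_prime {q : ℕ} (χ : DirichletCharacter ℂ q) (θ : ℝ) {p : ℕ} (hp : p.Prime)
    (hpq : p.Coprime q) : starT χ θ p = χ (p : ZMod q) * osc θ p * (Real.log p : ℂ) := by
  rw [starT, twist, starL_prime χ hp hpq]
  ring

lemma osc_pow (θ : ℝ) (p k : ℕ) : osc θ (p ^ k) = osc θ p ^ k := by
  unfold osc
  rw [← Complex.cpow_nat_mul]
  push_cast
  rw [← Complex.natCast_cpow_natCast_mul]

lemma starT_pow {q : ℕ} (χ : DirichletCharacter ℂ q) (θ : ℝ) {p : ℕ} (hp : p.Prime)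
    (hpq : p.Coprime q) {k : ℕ} (hk : k ≠ 0) :
    starT χ θ (p ^ k) = (χ (p : ZMod q) * osc θ p) ^ k * (Real.log p : ℂ) := by
  rw [starT, twist, starL_pow χ hp hpq hk, osc_pow θ p k, mul_pow]
  ring

/-- `E` is thin at `σ`: `∑_{p ∈ E} p^{ε - σ}` converges for some `ε > 0`. -/
def ThinAt (E : Set ℕ) (σ : ℝ) : Prop :=
  ∃ ε : ℝ, 0 < ε ∧ Summable (E.indicator (fun p : ℕ => (p : ℝ) ^ (ε - σ)))

lemma Split.add_right {f g : ℕ → ℂ} {B : ℝ} (h : Split f B) (hg : LSeriesSummable g (1 / 2)) :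
    Split (f + g) B := by
  obtain ⟨u, v, W, hu, hv, hW, hdec⟩ := h
  refine ⟨u, v, W + g, hu, hv, hW.add hg, fun s hs => ?_⟩
  obtain ⟨h1, h2⟩ := hdec s hs
  have hg' : LSeriesSummable g s := hg.of_re_le_re (by simpa using hs.le)
  have hW' : LSeriesSummable W s := hW.of_re_le_re (by simpa using hs.le)
  refine ⟨h1.add hg', ?_⟩
  rw [LSeries_add h1 hg', LSeries_add hW' hg', h2]
  ring

/-- the values of `g` at the primes of `E` and at the squares of the primes of `E'` -/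
noncomputable def thinPart (E E' : Set ℕ) (g : ℕ → ℂ) : ℕ → ℂ := by
  classical
  exact fun n => if n.Prime ∧ n ∈ E then g n else
    if ∃ p : ℕ, p.Prime ∧ p ∈ E' ∧ p ^ 2 = n then g n else 0

lemma thinPart_summable {E E' : Set ℕ} {g : ℕ → ℂ} (hE : ThinAt E (1 / 2)) (hE' : ThinAt E' 1)
    (hg : ∀ η : ℝ, 0 < η → ∃ C : ℝ, ∀ p : ℕ, p.Prime →
      ‖g p‖ ≤ C * (p : ℝ) ^ η ∧ ‖g (p ^ 2)‖ ≤ C * (p : ℝ) ^ η) :
    LSeriesSummable (thinPart E E' g) (1 / 2) := by
  classical
  obtain ⟨ε, hε, hs⟩ := hE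
  obtain ⟨ε', hε', hs'⟩ := hE'
  obtain ⟨C, hC⟩ := hg ε hε
  obtain ⟨C', hC'⟩ := hg ε' hε'
  have hC0 : 0 ≤ C := by
    have h1 := (norm_nonneg _).trans (hC 2 Nat.prime_two).1
    exact nonneg_of_mul_nonneg_left h1 (by positivity)
  have hC0' : 0 ≤ C' := by
    have h1 := (norm_nonneg _).trans (hC' 2 Nat.prime_two).1
    exact nonneg_of_mul_nonneg_left h1 (by positivity)
  set s1 : ℕ → ℝ := E.indicator (fun p : ℕ => (p : ℝ) ^ (ε - 1 / 2)) with hs1
  set s2 : ℕ → ℝ := E'.indicator (fun p : ℕ => (p : ℝ) ^ (ε' - 1)) with hs2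
  have hs1n : ∀ n, 0 ≤ s1 n := fun n => Set.indicator_nonneg (fun _ _ => by positivity) n
  have hs2n : ∀ n, 0 ≤ s2 n := fun n => Set.indicator_nonneg (fun _ _ => by positivity) n
  -- the square part as a function of n
  set s3 : ℕ → ℝ := fun n => if h : ∃ p : ℕ, p ^ 2 = n then s2 h.choose else 0 with hs3
  have hinj : Function.Injective (fun p : ℕ => p ^ 2) := fun a b h =>
    Nat.pow_left_injective two_ne_zero h
  have hs3v : ∀ p : ℕ, s3 (p ^ 2) = s2 p := by
    intro p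
    have h : ∃ p' : ℕ, p' ^ 2 = p ^ 2 := ⟨p, rfl⟩
    simp only [hs3]
    rw [dif_pos h]
    exact congrArg s2 (hinj h.choose_spec)
  have hs3s : Summable s3 := by
    rw [← hinj.summable_iff]
    · refine hs'.congr (fun p => ?_)
      simp only [Function.comp]
      exact (hs3v p).symm
    · intro n hn
      simp only [hs3]
      rw [dif_neg]
      intro h
      obtain ⟨p, hp⟩ := h
      exact hn ⟨p, hp⟩
  have hs3n : ∀ n, 0 ≤ s3 n := by
    intro n
    simp only [hs3]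
    split_ifs
    · exact hs2n _
    · exact le_rfl
  refine Summable.of_norm_bounded ((hs.mul_left C).add (hs3s.mul_left C')) (fun n => ?_)
  change ‖term (thinPart E E' g) (1 / 2) n‖ ≤ C * s1 n + C' * s3 n
  rcases Nat.eq_zero_or_pos n with h0 | hn
  · subst h0
    rw [term_zero, norm_zero]
    have := hs1n 0
    have := hs3n 0
    positivity
  rw [term_of_ne_zero hn.ne', norm_div, Complex.norm_natCast_cpow_of_pos hn]
  have hre : (1 / 2 : ℂ).re = 1 / 2 := by simp
  rw [hre]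
  have hnpos : (0 : ℝ) < n := by exact_mod_cast hn
  unfold thinPart
  by_cases h1 : n.Prime ∧ n ∈ E
  · rw [if_pos h1]
    have h2 : s1 n = (n : ℝ) ^ (ε - 1 / 2) := by
      simp only [hs1]
      exact Set.indicator_of_mem h1.2 _
    rw [h2, Real.rpow_sub hnpos]
    have h3 : ‖g n‖ / (n : ℝ) ^ (1 / 2 : ℝ) ≤ C * (n : ℝ) ^ ε / (n : ℝ) ^ (1 / 2 : ℝ) :=
      div_le_div_of_nonneg_right (hC n h1.1).1 (by positivity)
    have h4 : 0 ≤ C' * s3 n := mul_nonneg hC0' (hs3n n)
    rw [mul_div_assoc] at h3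
    linarith
  · rw [if_neg h1]
    split_ifs with h2
    · obtain ⟨p, hp, hpE, hpn⟩ := h2
      subst hpn
      rw [hs3v p]
      have hppos : (0 : ℝ) < p := by exact_mod_cast hp.pos
      have h3 : s2 p = (p : ℝ) ^ (ε' - 1) := by
        simp only [hs2]
        exact Set.indicator_of_mem hpE _
      have h4 : (((p ^ 2 : ℕ) : ℝ)) ^ (1 / 2 : ℝ) = p := by
        push_cast
        rw [← Real.sqrt_eq_rpow, Real.sqrt_sq hppos.le]
      rw [h3, h4, Real.rpow_sub hppos, Real.rpow_one]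
      have h5 : ‖g (p ^ 2)‖ / (p : ℝ) ≤ C' * (p : ℝ) ^ ε' / p :=
        div_le_div_of_nonneg_right (hC' p hp).2 hppos.le
      have h6 : 0 ≤ C * s1 (p ^ 2) := mul_nonneg hC0 (hs1n _)
      rw [mul_div_assoc] at h5
      linarith
    · rw [norm_zero, zero_div]
      have := hs1n n
      have := hs3n n
      positivity

end Pool.Agent.Selb
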