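import Pool.Agent.Selb.Star

/-!
# Selb/Ratl: the exponents are rational
-/

set_option autoImplicit false

open Complex Metric Filter Topology LSeries

namespace Pool.Agent.Selb

/-- independence of the characters, on primes -/
lemma char_indep {q : ℕ} [NeZero q] (d : DirichletCharacter ℂ q → ℂ)
    (h : ∀ p : ℕ, p.Prime → p.Coprime q → ∑ χ, d χ * χ (p : ZMod q) = 0)
    (χ : DirichletCharacter ℂ q) : d χ = 0 := by
  have h1 : ∀ u : (ZMod q)ˣ, ∑ χ, d χ * χ (u : ZMod q) = 0 := by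
    intro u
    obtain ⟨p, hpq, hp, hpu⟩ := Nat.forall_exists_prime_gt_and_eq_mod u.isUnit q
    rw [← hpu]
    refine h p hp ?_
    rw [← ZMod.isUnit_iff_coprime, hpu]
    exact u.isUnit
  have h2 := parseval d
  simp only [h1, norm_zero] at h2
  norm_num at h2
  have h3 : ∑ χ, ‖d χ‖ ^ 2 = 0 := h2.symm
  rw [Finset.sum_eq_zero_iff_of_nonneg (fun _ _ => by positivity)] at h3
  have h4 := h3 χ (Finset.mem_univ _)
  simpa using h4

/-- an element of `ℂ` killed by every `ℚ`-linear functional killing `1` is rational -/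
lemma rational_of_functional {x : ℂ} (h : ∀ l : ℂ →ₗ[ℚ] ℚ, l 1 = 0 → l x = 0) :
    ∃ r : ℚ, x = r := by
  by_contra hx
  have hx' : x ∉ (Submodule.span ℚ {(1 : ℂ)}) := by
    intro hmem
    obtain ⟨r, hr⟩ := Submodule.mem_span_singleton.1 hmem
    exact hx ⟨r, by rw [← hr]; simp [Algebra.smul_def]⟩
  obtain ⟨f, hf, hf'⟩ := Submodule.exists_dual_map_eq_bot_of_notMem hx' inferInstance
  refine hf (h f ?_)
  have h1 : f 1 ∈ (Submodule.span ℚ {(1 : ℂ)}).map f :=
    Submodule.mem_map_of_mem (Submodule.mem_span_singleton_self 1)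
  rw [hf'] at h1
  simpa using h1

/-- **rationality of the exponents** -/
theorem exponents_rational {a b : ℕ → ℂ} {m : ℕ} {G : ℂ → ℂ} {Q : ℝ} {k : ℕ} {lam : Fin k → ℝ}
    {μ : Fin k → ℂ} {ω : ℂ} (h : Arith a b) (h' : Anal a m G Q lam μ ω) {q : ℕ} [NeZero q]
    (c : DirichletCharacter ℂ q → ℂ)
    (hs : ∀ n : ℕ, b n * (Real.log n : ℂ) = ∑ χ, c χ * starL χ n)
    (χ : DirichletCharacter ℂ q) : ∃ r : ℚ, c χ = r := by
  classical
  obtain ⟨Ψ0, hΨ0, -⟩ := good_of_half (half_sel h h')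
  choose Ψ1 m1 E1 hΨ1 using fun χ : DirichletCharacter ℂ q => good_star χ
  set Ψ : Option (DirichletCharacter ℂ q) → ℂ → ℂ := fun o => o.elim Ψ0 Ψ1 with hΨ
  set L : Option (DirichletCharacter ℂ q) → ℕ → ℂ :=
    fun o => o.elim (fun n => b n * (Real.log n : ℂ)) starL with hL
  set mm : Option (DirichletCharacter ℂ q) → ℂ := fun o => o.elim (m : ℂ) m1 with hmm
  set EE : Option (DirichletCharacter ℂ q) → ℂ → ℂ := fun o => o.elim (cE m Q lam μ) E1 with hEE
  set cc : Option (DirichletCharacter ℂ q) → ℂ := fun o => o.elim 1 (fun χ => -c χ) with hcc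
  have hG : ∀ o, Good (Ψ o) (L o) (mm o) (EE o) := by
    rintro (_ | χ)
    · exact hΨ0
    · exact hΨ1 χ
  have hcomb : ∀ n, comb cc L n = 0 := by
    intro n
    simp only [comb, Fintype.sum_option, hcc, hL, Option.elim]
    rw [one_mul, hs n, ← Finset.sum_add_distrib]
    exact Finset.sum_eq_zero (fun χ _ => by ring)
  have hmult : ∀ z : ℂ, z ≠ 0 → z ≠ 1 → (ord Ψ0 z : ℂ) = ∑ χ, c χ * (ord (Ψ1 χ) z : ℂ) := by
    intro z hz0 hz1
    have h1 := mult_zero_of_comb hG cc (fun n _ => hcomb n) hz0 hz1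
    simp only [mult, Fintype.sum_option, hcc, hΨ, Option.elim] at h1
    have h2 : ∑ x, -c x * (ord (Ψ1 x) z : ℂ) = -∑ χ, c χ * (ord (Ψ1 χ) z : ℂ) := by
      rw [← Finset.sum_neg_distrib]
      exact Finset.sum_congr rfl (fun χ _ => by ring)
    rw [h2] at h1
    linear_combination h1
  refine rational_of_functional (fun l hl => ?_)
  set d : DirichletCharacter ℂ q → ℂ := fun χ => ((l (c χ) : ℚ) : ℂ) with hd
  have hd0 : ∀ z : ℂ, z ≠ 0 → z ≠ 1 → mult d Ψ1 z = 0 := by
    intro z hz0 hz1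
    have h1 := congrArg l (hmult z hz0 hz1)
    have h2 : l (ord Ψ0 z : ℂ) = 0 := by
      have : (ord Ψ0 z : ℂ) = (ord Ψ0 z : ℚ) • (1 : ℂ) := by simp [Algebra.smul_def]
      rw [this, map_smul, hl, smul_zero]
    rw [h2, map_sum] at h1
    have h3 : ∀ χ, l (c χ * (ord (Ψ1 χ) z : ℂ)) = l (c χ) * (ord (Ψ1 χ) z : ℚ) := by
      intro χ
      have : c χ * (ord (Ψ1 χ) z : ℂ) = (ord (Ψ1 χ) z : ℚ) • c χ := by
        rw [Algebra.smul_def, mul_comm]
        simp
      rw [this, map_smul, smul_eq_mul, mul_comm]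
    simp only [h3] at h1
    have h4 : mult d Ψ1 z = ((∑ χ, l (c χ) * (ord (Ψ1 χ) z : ℚ) : ℚ) : ℂ) := by
      unfold mult
      push_cast
      exact Finset.sum_congr rfl (fun χ _ => by simp [hd])
    rw [h4, ← h1]
    simp
  have hzero : ∀ n, 2 ≤ n → comb d starL n = 0 := fun n hn => comb_zero_of_mult hΨ1 d hd0 hn
  have h5 := char_indep d (fun p hp hpq => ?_) χ
  · simp only [hd] at h5
    exact_mod_cast h5
  · have h6 := hzero p hp.two_le
    have h7 : comb d starL p = (∑ χ, d χ * χ (p : ZMod q)) * (Real.log p : ℂ) := by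
      unfold comb
      rw [Finset.sum_mul]
      exact Finset.sum_congr rfl (fun χ _ => by rw [starL_prime χ hp hpq]; ring)
    rw [h7] at h6
    refine (mul_eq_zero.1 h6).resolve_right ?_
    have : Real.log p ≠ 0 := by
      have h8 : (1 : ℝ) < p := by exact_mod_cast hp.one_lt
      exact (Real.log_pos h8).ne'
    exact_mod_cast this

end Pool.Agent.Selb
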