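import Pool.Agent.Selb.PL2

/-!
# Selb/SmallA: sequences over the primes that are `O(p^{-σ})` in mean square up to an absolutely
summable part
-/

set_option autoImplicit false

open Complex Metric Filter Topology LSeries

namespace Pool.Agent.Selb

/-- `x p` is, over the primes, the sum of a part `u` that is `O(p^{σ - 1})` in mean square (in the
sense `∑_{p ≤ N} ‖u p‖² p^{1 - 2σ} log p = O(log N)`) and of a part `v` with
`∑_p ‖v p‖ p^{-σ} log p < ∞`. -/
def SmallAt (σ : ℝ) (x : ℕ → ℂ) : Prop :=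
  ∃ u v : ℕ → ℂ, (∀ p : ℕ, p.Prime → x p = u p + v p) ∧
    (∃ C : ℝ, ∀ N : ℕ, 2 ≤ N → ∑ p ∈ (Finset.range (N + 1)).filter Nat.Prime,
      ‖u p‖ ^ 2 * (p : ℝ) ^ (1 - 2 * σ) * Real.log p ≤ C * Real.log N) ∧
    Summable (fun p : ℕ => if p.Prime then ‖v p‖ * (p : ℝ) ^ (-σ) * Real.log p else 0)

lemma L2_of_sum {u : ℕ → ℂ} {σ : ℝ} {C : ℝ} (hC : ∀ N : ℕ, 2 ≤ N →
    ∑ p ∈ (Finset.range (N + 1)).filter Nat.Prime,
      ‖u p‖ ^ 2 * (p : ℝ) ^ (1 - 2 * σ) * Real.log p ≤ C * Real.log N) :
    L2 (fun p => (((p : ℝ) ^ (1 - σ) : ℝ) : ℂ) * u p) (Real.sqrt C) := by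
  intro δ hδ
  set t : ℕ → ℝ := fun n => if n.Prime then ‖u n‖ ^ 2 * (n : ℝ) ^ (1 - 2 * σ) * Real.log n else 0
    with ht
  have ht0 : ∀ n, 0 ≤ t n := by
    intro n
    simp only [ht]
    split_ifs
    · have := Real.log_natCast_nonneg n
      positivity
    · exact le_rfl
  have hC' : ∀ N : ℕ, 2 ≤ N → ∑ n ∈ Finset.range (N + 1), t n ≤ C * Real.log N := by
    intro N hN
    refine le_trans (le_of_eq ?_) (hC N hN)
    rw [Finset.sum_filter]
  have hC0 : 0 ≤ C := by
    have h2 := hC' 2 le_rfl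
    have h3 : 0 ≤ ∑ n ∈ Finset.range (2 + 1), t n := Finset.sum_nonneg (fun n _ => ht0 n)
    have h4 : (0 : ℝ) < Real.log (2 : ℕ) := Real.log_pos (by norm_num)
    by_contra h5
    push Not at h5
    nlinarith
  obtain ⟨h1, h2⟩ := abel_log ht0 (by simp [ht, Nat.not_prime_zero]) (by simp [ht, Nat.not_prime_one])
    hC' hδ
  have he : ∀ n : ℕ, wt δ n * ‖(((n : ℝ) ^ (1 - σ) : ℝ) : ℂ) * u n‖ ^ 2 =
      δ * (t n * (n : ℝ) ^ (-δ)) := by
    intro n
    simp only [ht, wt]
    split_ifs with hp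
    · have hn : (0 : ℝ) < n := by exact_mod_cast hp.pos
      rw [norm_mul, Complex.norm_real, Real.norm_of_nonneg (Real.rpow_nonneg hn.le _), mul_pow,
        ← Real.rpow_natCast ((n : ℝ) ^ (1 - σ)) 2, ← Real.rpow_mul hn.le]
      have e1 : (n : ℝ) ^ (-(1 + δ)) * (n : ℝ) ^ ((1 - σ) * ((2 : ℕ) : ℝ)) =
          (n : ℝ) ^ (1 - 2 * σ) * (n : ℝ) ^ (-δ) := by
        rw [← Real.rpow_add hn, ← Real.rpow_add hn]
        congr 1
        push_cast
        ring
      calc δ * Real.log n * (n : ℝ) ^ (-(1 + δ)) * ((n : ℝ) ^ ((1 - σ) * ((2 : ℕ) : ℝ)) * ‖u n‖ ^ 2)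
          = δ * Real.log n * ‖u n‖ ^ 2 *
            ((n : ℝ) ^ (-(1 + δ)) * (n : ℝ) ^ ((1 - σ) * ((2 : ℕ) : ℝ))) := by ring
        _ = _ := by rw [e1]; ring
    · simp
  refine ⟨(h1.mul_left δ).congr (fun n => (he n).symm), ?_⟩
  rw [tsum_congr he, tsum_mul_left, Real.sq_sqrt hC0]
  calc δ * ∑' n : ℕ, t n * (n : ℝ) ^ (-δ) ≤ δ * (C / δ) := mul_le_mul_of_nonneg_left h2 hδ.le
    _ = C := by field_simp

lemma L2.mono {x : ℕ → ℂ} {B B' : ℝ} (h : L2 x B) (hB : 0 ≤ B) (hBB : B ≤ B') : L2 x B' :=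
  fun δ hδ => ⟨(h δ hδ).1, (h δ hδ).2.trans (pow_le_pow_left₀ hB hBB 2)⟩

/-- the values of `w₁` at primes and of `w₂` at squares of primes -/
noncomputable def spread (w₁ w₂ : ℕ → ℂ) : ℕ → ℂ := by
  classical
  exact fun n => if n.Prime then w₁ n else
    if ∃ p : ℕ, p.Prime ∧ p ^ 2 = n then w₂ (Nat.sqrt n) else 0

lemma spread_prime (w₁ w₂ : ℕ → ℂ) {p : ℕ} (hp : p.Prime) : spread w₁ w₂ p = w₁ p := by
  unfold spread
  rw [if_pos hp]

lemma spread_sq (w₁ w₂ : ℕ → ℂ) {p : ℕ} (hp : p.Prime) : spread w₁ w₂ (p ^ 2) = w₂ p := by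
  unfold spread
  rw [if_neg (Nat.Prime.not_prime_pow le_rfl), if_pos ⟨p, hp, rfl⟩, Nat.sqrt_eq']

lemma spread_other (w₁ w₂ : ℕ → ℂ) {n : ℕ} (h1 : ¬ n.Prime) (h2 : ¬ SpcSq n) :
    spread w₁ w₂ n = 0 := by
  unfold spread
  rw [if_neg h1]
  exact if_neg h2

lemma spread_summable {w₁ w₂ : ℕ → ℂ}
    (h1 : Summable (fun p : ℕ => if p.Prime then ‖w₁ p‖ * (p : ℝ) ^ (-(1 / 2) : ℝ) else 0))
    (h2 : Summable (fun p : ℕ => if p.Prime then ‖w₂ p‖ * (p : ℝ) ^ (-1 : ℝ) else 0)) :
    LSeriesSummable (spread w₁ w₂) (1 / 2) := by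
  classical
  set s2 : ℕ → ℝ := fun p => if p.Prime then ‖w₂ p‖ * (p : ℝ) ^ (-1 : ℝ) else 0 with hs2
  set s3 : ℕ → ℝ := fun n => if SpcSq n then s2 (Nat.sqrt n) else 0 with hs3
  have hinj : Function.Injective (fun p : ℕ => p ^ 2) := fun a b h =>
    Nat.pow_left_injective two_ne_zero h
  have hs3v : ∀ p : ℕ, s3 (p ^ 2) = s2 p := by
    intro p
    simp only [hs3]
    by_cases hp : p.Prime
    · rw [if_pos ((spc_sq_iff p).2 hp), Nat.sqrt_eq']
    · rw [if_neg (fun h => hp ((spc_sq_iff p).1 h)), hs2]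
      simp only
      rw [if_neg hp]
  have hs3s : Summable s3 := by
    rw [← hinj.summable_iff]
    · refine h2.congr (fun p => ?_)
      simp only [Function.comp]
      exact (hs3v p).symm
    · intro n hn
      simp only [hs3]
      rw [if_neg]
      rintro ⟨p, -, hp⟩
      exact hn ⟨p, hp⟩
  refine Summable.of_norm_bounded (h1.add hs3s) (fun n => ?_)
  rcases Nat.eq_zero_or_pos n with h0 | hn
  · subst h0
    rw [term_zero, norm_zero, if_neg Nat.not_prime_zero, zero_add]
    simp only [hs3, hs2]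
    split_ifs <;> first | positivity | exact le_rfl
  have hre : (1 / 2 : ℂ).re = 1 / 2 := by simp
  rw [term_of_ne_zero hn.ne', norm_div, Complex.norm_natCast_cpow_of_pos hn, hre]
  have hnpos : (0 : ℝ) < n := by exact_mod_cast hn
  by_cases hp : n.Prime
  · rw [spread_prime w₁ w₂ hp, if_pos hp]
    have h3 : s3 n = 0 := by
      simp only [hs3]
      rw [if_neg (fun h => spc_not_prime_sq h hp)]
    rw [h3, add_zero, Real.rpow_neg hnpos.le, div_eq_mul_inv]
  · rw [if_neg hp, zero_add]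
    by_cases hsq : SpcSq n
    · obtain ⟨p, hp', hpn⟩ := hsq
      subst hpn
      rw [spread_sq w₁ w₂ hp', hs3v p, hs2]
      simp only
      rw [if_pos hp']
      have hppos : (0 : ℝ) < p := by exact_mod_cast hp'.pos
      have h4 : (((p ^ 2 : ℕ) : ℝ)) ^ (1 / 2 : ℝ) = p := by
        push_cast
        rw [← Real.sqrt_eq_rpow, Real.sqrt_sq hppos.le]
      rw [h4, Real.rpow_neg_one, div_eq_mul_inv]
    · rw [spread_other w₁ w₂ hp hsq, norm_zero, zero_div]
      simp only [hs3]
      rw [if_neg hsq]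

theorem splitL_of {g u v w : ℕ → ℂ} {B : ℝ} (hsupp : ∀ n, ¬ IsPrimePow n → g n = 0)
    (hhigh : LSeriesSummable (high g) (1 / 2))
    (hu : L2 (fun p => (((p : ℝ) ^ (1 / 2 : ℝ) : ℝ) : ℂ) * u p) B) (hv : L2 v B)
    (hw : LSeriesSummable w (1 / 2)) (hw0 : ∀ n, ¬ n.Prime → ¬ SpcSq n → w n = 0)
    (h1 : ∀ p : ℕ, p.Prime → g p = u p * (Real.log p : ℂ) + w p)
    (h2 : ∀ p : ℕ, p.Prime → g (p ^ 2) = v p * (Real.log p : ℂ) + w (p ^ 2)) :
    SplitL g B := by
  classical
  set u' : ℕ → ℂ := fun p => (((p : ℝ) ^ (1 / 2 : ℝ) : ℝ) : ℂ) * u p with hu'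
  refine ⟨u', v, high g + w, hu, hv, hhigh.add hw, fun s hs => ?_⟩
  have hWs : LSeriesSummable (high g) s := hhigh.of_re_le_re (by simpa using hs.le)
  have hws : LSeriesSummable w s := hw.of_re_le_re (by simpa using hs.le)
  have hus : LSeriesSummable (pr u') (s + 1 / 2) := hu.pr_summable (by
    rw [Complex.add_re]
    norm_num
    linarith)
  have hvs : LSeriesSummable (pr v) (2 * s) := hv.pr_summable (by
    rw [Complex.mul_re]
    norm_num
    linarith)
  -- the prime part
  have hA : ∀ n, term (pr u') (s + 1 / 2) n = if n.Prime then term (g - w) s n else 0 := by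
    intro n
    rcases Nat.eq_zero_or_pos n with h0 | hn
    · subst h0; simp
    · rw [term_of_ne_zero hn.ne', term_of_ne_zero hn.ne', pr]
      split_ifs with hp
      · have hn0 : (n : ℂ) ≠ 0 := by exact_mod_cast hn.ne'
        have hsq : (((n : ℝ) ^ (1 / 2 : ℝ) : ℝ) : ℂ) = (n : ℂ) ^ (1 / 2 : ℂ) := by
          rw [Complex.ofReal_cpow (Nat.cast_nonneg n)]
          push_cast
          rfl
        have hsne : (n : ℂ) ^ (1 / 2 : ℂ) ≠ 0 := by
          rw [Ne, Complex.cpow_eq_zero_iff]; tauto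
        have hsne2 : (n : ℂ) ^ s ≠ 0 := by
          rw [Ne, Complex.cpow_eq_zero_iff]; tauto
        rw [Complex.cpow_add _ _ hn0]
        simp only [hu', Pi.sub_apply]
        rw [hsq, h1 n hp]
        field_simp
        ring
      · simp
  -- the prime squares
  set C : ℕ → ℂ := fun n => if SpcSq n then term (g - w) s n else 0 with hC
  have hinj : Function.Injective (fun n : ℕ => n ^ 2) := Nat.pow_left_injective (by norm_num)
  have hCc : ∀ n, C (n ^ 2) = term (pr v) (2 * s) n := by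
    intro n
    rcases Nat.eq_zero_or_pos n with h0 | hn
    · subst h0
      simp [hC]
    · simp only [hC]
      rw [term_of_ne_zero hn.ne', pr]
      by_cases hp : n.Prime
      · rw [if_pos ((spc_sq_iff n).2 hp), if_pos hp, term_of_ne_zero (by positivity)]
        have h5 : ((n ^ 2 : ℕ) : ℂ) ^ s = (n : ℂ) ^ (2 * s) := by
          have := Complex.natCast_cpow_natCast_mul n 2 s
          push_cast at this ⊢
          rw [this]
        rw [h5, Pi.sub_apply, h2 n hp]
        congr 1
        ring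
      · rw [if_neg (fun h => hp ((spc_sq_iff n).1 h)), if_neg hp, zero_div]
  have hCout : ∀ n, n ∉ Set.range (fun n : ℕ => n ^ 2) → C n = 0 := by
    intro n hn
    simp only [hC]
    rw [if_neg]
    rintro ⟨p, -, hp⟩
    exact hn ⟨p, hp⟩
  have hCsum : Summable C := by
    rw [← hinj.summable_iff hCout]
    refine hvs.congr fun n => ?_
    exact (hCc n).symm
  have hCt : ∑' n, C n = LSeries (pr v) (2 * s) := by
    rw [LSeries, ← hinj.tsum_eq (f := C)]
    · exact tsum_congr hCc
    · intro n hn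
      by_contra h
      exact hn (hCout n h)
  -- the decomposition
  have hsplit : ∀ n, term g s n = term (g - w) s n + term w s n := by
    intro n
    rw [term_sub]
    simp
  have hdec : ∀ n, term g s n = term (pr u') (s + 1 / 2) n + C n + term (high g + w) s n := by
    intro n
    rw [term_add, Pi.add_apply]
    rcases Nat.eq_zero_or_pos n with h0 | hn
    · subst h0
      simp [hC]
    · rw [hA]
      by_cases hpp : IsPrimePow n
      · rcases spc_cases hpp with hp | hp | hp
        · have n1 : ¬ SpcSq n := fun h => spc_not_prime_sq h hp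
          have n2 : ¬ High n := fun h => spc_not_high_prime h hp
          have e1 : term (high g) s n = 0 := by
            rw [term_of_ne_zero hn.ne', high, if_neg n2, zero_div]
          simp only [hC]
          rw [if_pos hp, if_neg n1, e1, add_zero, zero_add, hsplit n]
        · have n1 : ¬ n.Prime := spc_not_prime_sq hp
          have n2 : ¬ High n := fun h => spc_not_high_sq h hp
          have e1 : term (high g) s n = 0 := by
            rw [term_of_ne_zero hn.ne', high, if_neg n2, zero_div]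
          simp only [hC]
          rw [if_neg n1, if_pos hp, e1, zero_add, zero_add, hsplit n]
        · have n1 : ¬ n.Prime := spc_not_high_prime hp
          have n2 : ¬ SpcSq n := spc_not_high_sq hp
          have e1 : term (high g) s n = term g s n := by
            rw [term_of_ne_zero hn.ne', term_of_ne_zero hn.ne', high, if_pos hp]
          have e2 : term w s n = 0 := by
            rw [term_of_ne_zero hn.ne', hw0 n n1 n2, zero_div]
          simp only [hC]
          rw [if_neg n1, if_neg n2, e1, e2, zero_add, zero_add, add_zero]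
      · have e0 : g n = 0 := hsupp n hpp
        have n1 : ¬ n.Prime := fun h => hpp h.isPrimePow
        have n2 : ¬ SpcSq n := by
          rintro ⟨p, hp, rfl⟩
          exact hpp (hp.isPrimePow.pow two_ne_zero)
        have e2 : term g s n = 0 := by rw [term_of_ne_zero hn.ne', e0, zero_div]
        have e3 : term w s n = 0 := by
            rw [term_of_ne_zero hn.ne', hw0 n n1 n2, zero_div]
        have e1 : term (high g) s n = 0 := by
          rw [term_of_ne_zero hn.ne', high]
          split_ifs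
          · rw [e0, zero_div]
          · rw [zero_div]
        simp only [hC]
        rw [if_neg n1, if_neg n2, e1, e2, e3]
        simp
  have s1 : Summable (term (pr u') (s + 1 / 2)) := hus
  have s2 : Summable (term (high g + w) s) := hWs.add hws
  have s3 : Summable fun n => term (pr u') (s + 1 / 2) n + C n := s1.add hCsum
  have s4 : Summable fun n => term (pr u') (s + 1 / 2) n + C n + term (high g + w) s n := s3.add s2
  have hgs : LSeriesSummable g s := by
    have e : term g s = fun n => term (pr u') (s + 1 / 2) n + C n + term (high g + w) s n :=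
      funext hdec
    unfold LSeriesSummable
    rw [e]
    exact s4
  refine ⟨hgs, ?_⟩
  have e1 : LSeries g s = ∑' n, (term (pr u') (s + 1 / 2) n + C n + term (high g + w) s n) :=
    tsum_congr hdec
  rw [e1, s3.tsum_add s2, s1.tsum_add hCsum, hCt]
  rfl

/-- a sequence small at the primes and at their squares splits -/
theorem splitL_of_small {g x y : ℕ → ℂ} (hsupp : ∀ n, ¬ IsPrimePow n → g n = 0)
    (hhigh : LSeriesSummable (high g) (1 / 2))
    (h1 : ∀ p : ℕ, p.Prime → g p = x p * (Real.log p : ℂ))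
    (h2 : ∀ p : ℕ, p.Prime → g (p ^ 2) = y p * (Real.log p : ℂ))
    (hx : SmallAt (1 / 2) x) (hy : SmallAt 1 y) : ∃ B, SplitL g B := by
  obtain ⟨u, v, huv, ⟨C, hC⟩, hv⟩ := hx
  obtain ⟨u', v', huv', ⟨C', hC'⟩, hv'⟩ := hy
  have hu1 := L2_of_sum hC
  have hu2 := L2_of_sum hC'
  have e2 : (fun p : ℕ => (((p : ℝ) ^ (1 - (1 : ℝ)) : ℝ) : ℂ) * u' p) = u' := by
    funext p
    simp
  rw [e2] at hu2
  have e1 : (1 : ℝ) - 1 / 2 = 1 / 2 := by norm_num
  rw [e1] at hu1
  refine ⟨max (Real.sqrt C) (Real.sqrt C'), splitL_of (u := u) (v := u')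
    (w := spread (fun p => v p * (Real.log p : ℂ)) (fun p => v' p * (Real.log p : ℂ))) hsupp hhigh
    (hu1.mono (Real.sqrt_nonneg _) (le_max_left _ _))
    (hu2.mono (Real.sqrt_nonneg _) (le_max_right _ _)) (spread_summable ?_ ?_)
    (fun n h3 h4 => spread_other _ _ h3 h4) (fun p hp => ?_) (fun p hp => ?_)⟩
  · refine hv.congr (fun p => ?_)
    split_ifs
    · rw [norm_mul, Complex.norm_real, Real.norm_of_nonneg (Real.log_natCast_nonneg p)]
      ring
    · rfl
  · refine hv'.congr (fun p => ?_)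
    split_ifs
    · rw [norm_mul, Complex.norm_real, Real.norm_of_nonneg (Real.log_natCast_nonneg p)]
      ring
    · rfl
  · rw [spread_prime _ _ hp, h1 p hp, huv p hp]
    ring
  · rw [spread_sq _ _ hp, h2 p hp, huv' p hp]
    ring

end Pool.Agent.Selb
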