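import Pool.Agent.Selb.SmallA
import Pool.Agent.FZ.DMert

/-!
# Selb/SmallB: closure properties of `SmallAt`
-/

set_option autoImplicit false

open Complex Metric Filter Topology LSeries

namespace Pool.Agent.Selb

lemma mertens_bd : ∃ C : ℝ, ∀ N : ℕ, 2 ≤ N →
    ∑ p ∈ (Finset.range (N + 1)).filter Nat.Prime, Real.log p / (p : ℝ) ≤ C * Real.log N := by
  obtain ⟨C, hC, hM⟩ := FZ.mertens_prime
  refine ⟨1 + C / Real.log 2, fun N hN => ?_⟩
  have hN0 : (0 : ℝ) < N := by exact_mod_cast (by omega : 0 < N)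
  have hlog2 : 0 < Real.log 2 := Real.log_pos (by norm_num)
  have hlogN : Real.log 2 ≤ Real.log N :=
    Real.log_le_log (by norm_num) (by exact_mod_cast hN)
  have h1 := hM 0 (Real.log N) le_rfl (by linarith)
  have h2 : FZ.prs 0 (Real.log N) = (Finset.range (N + 1)).filter Nat.Prime := by
    ext p
    rw [FZ.mem_prs, Finset.mem_filter, Finset.mem_range]
    constructor
    · rintro ⟨hp, -, h3⟩
      refine ⟨?_, hp⟩
      have hp0 : (0 : ℝ) < p := by exact_mod_cast hp.pos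
      have : (p : ℝ) ≤ N := (Real.log_le_log_iff hp0 hN0).1 h3
      have : p ≤ N := by exact_mod_cast this
      omega
    · rintro ⟨h3, hp⟩
      have hp0 : (0 : ℝ) < p := by exact_mod_cast hp.pos
      refine ⟨hp, Real.log_pos (by exact_mod_cast hp.one_lt), Real.log_le_log hp0 ?_⟩
      exact_mod_cast (by omega : p ≤ N)
  rw [h2, sub_zero] at h1
  have h3 := (abs_le.1 h1).2
  have h4 : C ≤ C / Real.log 2 * Real.log N := by
    rw [div_mul_eq_mul_div, le_div_iff₀ hlog2]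
    exact mul_le_mul_of_nonneg_left hlogN hC.le
  linarith

lemma SmallAt.add {σ : ℝ} {x y : ℕ → ℂ} (hx : SmallAt σ x) (hy : SmallAt σ y) :
    SmallAt σ (fun p => x p + y p) := by
  obtain ⟨u, v, huv, ⟨C, hC⟩, hv⟩ := hx
  obtain ⟨u', v', huv', ⟨C', hC'⟩, hv'⟩ := hy
  refine ⟨fun p => u p + u' p, fun p => v p + v' p, fun p hp => ?_, ⟨2 * C + 2 * C', fun N hN => ?_⟩,
    ?_⟩
  · show x p + y p = (u p + u' p) + (v p + v' p)
    rw [huv p hp, huv' p hp]
    ring
  · have h1 := hC N hN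
    have h2 := hC' N hN
    have h3 : ∑ p ∈ (Finset.range (N + 1)).filter Nat.Prime,
        ‖u p + u' p‖ ^ 2 * (p : ℝ) ^ (1 - 2 * σ) * Real.log p ≤
        ∑ p ∈ (Finset.range (N + 1)).filter Nat.Prime,
        (2 * (‖u p‖ ^ 2 * (p : ℝ) ^ (1 - 2 * σ) * Real.log p) +
          2 * (‖u' p‖ ^ 2 * (p : ℝ) ^ (1 - 2 * σ) * Real.log p)) := by
      refine Finset.sum_le_sum (fun p _ => ?_)
      have h4 : ‖u p + u' p‖ ^ 2 ≤ 2 * ‖u p‖ ^ 2 + 2 * ‖u' p‖ ^ 2 := by
        have h5 := norm_add_le (u p) (u' p)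
        have h6 := norm_nonneg (u p + u' p)
        nlinarith [sq_nonneg (‖u p‖ - ‖u' p‖)]
      have h5 : 0 ≤ (p : ℝ) ^ (1 - 2 * σ) * Real.log p :=
        mul_nonneg (Real.rpow_nonneg (Nat.cast_nonneg p) _) (Real.log_natCast_nonneg p)
      have h6 := mul_le_mul_of_nonneg_right h4 h5
      linarith
    rw [Finset.sum_add_distrib, ← Finset.mul_sum, ← Finset.mul_sum] at h3
    linarith
  · refine Summable.of_nonneg_of_le (fun p => ?_) (fun p => ?_) (hv.add hv')
    · split_ifs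
      · have := Real.log_natCast_nonneg p
        positivity
      · exact le_rfl
    · split_ifs
      · have h5 : 0 ≤ (p : ℝ) ^ (-σ) * Real.log p :=
          mul_nonneg (Real.rpow_nonneg (Nat.cast_nonneg p) _) (Real.log_natCast_nonneg p)
        have h6 := mul_le_mul_of_nonneg_right (norm_add_le (v p) (v' p)) h5
        linarith
      · simp

lemma SmallAt.const_mul {σ : ℝ} {x : ℕ → ℂ} (hx : SmallAt σ x) (k : ℂ) :
    SmallAt σ (fun p => k * x p) := by
  obtain ⟨u, v, huv, ⟨C, hC⟩, hv⟩ := hx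
  refine ⟨fun p => k * u p, fun p => k * v p, fun p hp => ?_, ⟨‖k‖ ^ 2 * C, fun N hN => ?_⟩, ?_⟩
  · show k * x p = k * u p + k * v p
    rw [huv p hp]
    ring
  · have h1 := mul_le_mul_of_nonneg_left (hC N hN) (show 0 ≤ ‖k‖ ^ 2 by positivity)
    rw [Finset.mul_sum] at h1
    refine le_trans (le_of_eq (Finset.sum_congr rfl (fun p _ => ?_))) (h1.trans (le_of_eq (by ring)))
    rw [norm_mul]
    ring
  · refine (hv.mul_left ‖k‖).congr (fun p => ?_)
    split_ifs
    · rw [norm_mul]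
      ring
    · simp

lemma smallAt_of_bounded {x : ℕ → ℂ} {R : ℝ} (hx : ∀ p : ℕ, p.Prime → ‖x p‖ ≤ R) :
    SmallAt 1 x := by
  obtain ⟨C, hC⟩ := mertens_bd
  refine ⟨x, fun _ => 0, fun p _ => by simp, ⟨R ^ 2 * C, fun N hN => ?_⟩, ?_⟩
  · have h1 := mul_le_mul_of_nonneg_left (hC N hN) (show 0 ≤ R ^ 2 by positivity)
    rw [Finset.mul_sum] at h1
    refine le_trans (Finset.sum_le_sum (fun p hp => ?_)) (h1.trans (le_of_eq (by ring)))
    have hpp := (Finset.mem_filter.1 hp).2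
    have e1 : (p : ℝ) ^ (1 - 2 * (1 : ℝ)) = (p : ℝ)⁻¹ := by
      rw [show (1 : ℝ) - 2 * 1 = -1 by norm_num, Real.rpow_neg_one]
    rw [e1]
    have h2 : ‖x p‖ ^ 2 ≤ R ^ 2 := pow_le_pow_left₀ (norm_nonneg _) (hx p hpp) 2
    have h3 : 0 ≤ (p : ℝ)⁻¹ * Real.log p :=
      mul_nonneg (by positivity) (Real.log_natCast_nonneg p)
    have h4 := mul_le_mul_of_nonneg_right h2 h3
    calc ‖x p‖ ^ 2 * (p : ℝ)⁻¹ * Real.log p = ‖x p‖ ^ 2 * ((p : ℝ)⁻¹ * Real.log p) := by ring
      _ ≤ R ^ 2 * ((p : ℝ)⁻¹ * Real.log p) := h4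
      _ = _ := by ring
  · simp

lemma SmallAt.of_eq_off {σ : ℝ} {x y : ℕ → ℂ} (hx : SmallAt σ x) {q : ℕ} (hq : q ≠ 0)
    (h : ∀ p : ℕ, p.Prime → ¬ p ∣ q → y p = x p) : SmallAt σ y := by
  obtain ⟨u, v, huv, ⟨C, hC⟩, hv⟩ := hx
  refine ⟨fun p => if p ∣ q then 0 else u p, fun p => if p ∣ q then y p else v p,
    fun p hp => ?_, ⟨C, fun N hN => ?_⟩, ?_⟩
  · dsimp only
    split_ifs with h1
    · simp
    · rw [h p hp h1, huv p hp]
  · refine le_trans (Finset.sum_le_sum (fun p _ => ?_)) (hC N hN)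
    dsimp only
    have h0 := Real.log_natCast_nonneg p
    split_ifs
    · have h2 : 0 ≤ ‖u p‖ ^ 2 * (p : ℝ) ^ (1 - 2 * σ) * Real.log p := by positivity
      simpa using h2
    · exact le_rfl
  · have h1 : Summable (fun p : ℕ => if p.Prime ∧ p ∣ q then ‖y p‖ * (p : ℝ) ^ (-σ) * Real.log p
        else 0) := by
      refine summable_of_ne_finset_zero (s := Finset.range (q + 1)) (fun p hp => ?_)
      rw [if_neg]
      rintro ⟨-, h2⟩
      have := Nat.le_of_dvd (Nat.pos_of_ne_zero hq) h2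
      rw [Finset.mem_range] at hp
      omega
    refine Summable.of_nonneg_of_le (fun p => ?_) (fun p => ?_) (hv.add h1)
    · have := Real.log_natCast_nonneg p
      split_ifs
      · positivity
      · exact le_rfl
    · have h3 := Real.log_natCast_nonneg p
      dsimp only
      by_cases hp : p.Prime
      · by_cases h2 : p ∣ q
        · rw [if_pos hp, if_pos hp, if_pos h2, if_pos ⟨hp, h2⟩]
          have : 0 ≤ ‖v p‖ * (p : ℝ) ^ (-σ) * Real.log p := by positivity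
          linarith
        · rw [if_pos hp, if_pos hp, if_neg h2, if_neg (fun h4 => h2 h4.2)]
          linarith
      · rw [if_neg hp, if_neg hp, if_neg (fun h4 => hp h4.1)]
        simp

lemma smallAt_sq {x f : ℕ → ℂ} {R : ℝ} (hx : SmallAt (1 / 2) x)
    (hf : ∀ p : ℕ, p.Prime → ‖f p‖ ≤ R) : SmallAt 1 (fun p => (f p + x p) ^ 2) := by
  obtain ⟨u, v, huv, ⟨C, hC⟩, hv⟩ := hx
  have hR : 0 ≤ R := (norm_nonneg _).trans (hf 2 Nat.prime_two)
  have e0 : (1 : ℝ) - 2 * (1 / 2) = 0 := by norm_num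
  -- `u` is bounded
  have hu : ∀ p : ℕ, p.Prime → ‖u p‖ ^ 2 ≤ C := by
    intro p hp
    have hlog : 0 < Real.log p := Real.log_pos (by exact_mod_cast hp.one_lt)
    have h1 := hC p hp.two_le
    have h2 : ‖u p‖ ^ 2 * Real.log p ≤ C * Real.log p := by
      refine le_trans ?_ h1
      have h3 := Finset.single_le_sum (s := (Finset.range (p + 1)).filter Nat.Prime)
        (f := fun p : ℕ => ‖u p‖ ^ 2 * (p : ℝ) ^ ((1 : ℝ) - 2 * (1 / 2)) * Real.log p)
        (fun n _ => by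
          have := Real.log_natCast_nonneg n
          positivity) (Finset.mem_filter.2 ⟨Finset.mem_range.2 (Nat.lt_succ_self p), hp⟩)
      refine le_trans (le_of_eq ?_) h3
      rw [e0, Real.rpow_zero, mul_one]
    exact le_of_mul_le_mul_right h2 hlog
  have hu' : ∀ p : ℕ, p.Prime → ‖u p‖ ≤ Real.sqrt C := fun p hp => by
    rw [← Real.sqrt_sq (norm_nonneg (u p))]
    exact Real.sqrt_le_sqrt (hu p hp)
  set S : ℝ := Real.sqrt C with hS
  -- the part `v` is `O(√p / log p)`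
  set T : ℝ := ∑' p : ℕ, (if p.Prime then ‖v p‖ * (p : ℝ) ^ (-(1 / 2 : ℝ)) * Real.log p else 0)
    with hT
  have hnn : ∀ p : ℕ, 0 ≤ (if p.Prime then ‖v p‖ * (p : ℝ) ^ (-(1 / 2 : ℝ)) * Real.log p else 0) := by
    intro p
    split_ifs
    · have := Real.log_natCast_nonneg p
      positivity
    · exact le_rfl
  have hT0 : 0 ≤ T := tsum_nonneg hnn
  have hvT : ∀ p : ℕ, p.Prime → ‖v p‖ * (p : ℝ) ^ (-(1 / 2 : ℝ)) ≤ T / Real.log 2 := by
    intro p hp
    have h1 : ‖v p‖ * (p : ℝ) ^ (-(1 / 2 : ℝ)) * Real.log p ≤ T := by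
      have := hv.le_tsum p (fun j _ => hnn j)
      rwa [if_pos hp] at this
    have h2 : Real.log 2 ≤ Real.log p := Real.log_le_log (by norm_num) (by exact_mod_cast hp.two_le)
    have h3 : 0 < Real.log 2 := Real.log_pos (by norm_num)
    rw [le_div_iff₀ h3]
    refine le_trans (mul_le_mul_of_nonneg_left h2 ?_) h1
    have : (0 : ℝ) ≤ (p : ℝ) ^ (-(1 / 2 : ℝ)) := Real.rpow_nonneg (Nat.cast_nonneg p) _
    positivity
  have hC1 := smallAt_of_bounded (x := fun p => (f p + u p) ^ 2) (R := (R + S) ^ 2)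
    (fun p hp => by
      rw [norm_pow]
      exact pow_le_pow_left₀ (norm_nonneg _)
        ((norm_add_le _ _).trans (add_le_add (hf p hp) (hu' p hp))) 2)
  have h2 : SmallAt 1 (fun p => v p * (2 * (f p + u p) + v p)) := by
    refine ⟨fun _ => 0, fun p => v p * (2 * (f p + u p) + v p), fun p _ => by simp, ⟨0, fun N _ => by simp⟩,
      ?_⟩
    refine Summable.of_nonneg_of_le (fun p => ?_) (fun p => ?_) (hv.mul_left
      (2 * (R + S) + T / Real.log 2))
    · split_ifs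
      · have := Real.log_natCast_nonneg p
        positivity
      · exact le_rfl
    · split_ifs with hp
      · have hp0 : (0 : ℝ) < p := by exact_mod_cast hp.pos
        have hp1 : (1 : ℝ) ≤ p := by exact_mod_cast hp.one_le
        have e1 : (p : ℝ) ^ (-(1 : ℝ)) = (p : ℝ) ^ (-(1 / 2 : ℝ)) * (p : ℝ) ^ (-(1 / 2 : ℝ)) := by
          rw [← Real.rpow_add hp0]
          norm_num
        have hx0 : (0 : ℝ) ≤ (p : ℝ) ^ (-(1 / 2 : ℝ)) := Real.rpow_nonneg hp0.le _
        have hx1 : (p : ℝ) ^ (-(1 / 2 : ℝ)) ≤ 1 := Real.rpow_le_one_of_one_le_of_nonpos hp1 (by norm_num)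
        have h3 : ‖2 * (f p + u p) + v p‖ * (p : ℝ) ^ (-(1 / 2 : ℝ)) ≤
            2 * (R + S) + T / Real.log 2 := by
          have h4 : ‖2 * (f p + u p) + v p‖ ≤ 2 * (R + S) + ‖v p‖ := by
            refine (norm_add_le _ _).trans ?_
            rw [norm_mul]
            have : ‖(2 : ℂ)‖ = 2 := by simp
            rw [this]
            have := (norm_add_le (f p) (u p)).trans (add_le_add (hf p hp) (hu' p hp))
            linarith
          have h5 := mul_le_mul_of_nonneg_right h4 hx0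
          have h6 := hvT p hp
          have h7 : 2 * (R + S) * (p : ℝ) ^ (-(1 / 2 : ℝ)) ≤ 2 * (R + S) := by
            refine mul_le_of_le_one_right ?_ hx1
            have : 0 ≤ S := Real.sqrt_nonneg _
            positivity
          linarith
        rw [norm_mul, e1]
        have hl := Real.log_natCast_nonneg p
        have h8 : 0 ≤ ‖v p‖ * (p : ℝ) ^ (-(1 / 2 : ℝ)) * Real.log p := by positivity
        have h9 := mul_le_mul_of_nonneg_right h3 h8
        calc ‖v p‖ * ‖2 * (f p + u p) + v p‖ *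
              ((p : ℝ) ^ (-(1 / 2 : ℝ)) * (p : ℝ) ^ (-(1 / 2 : ℝ))) * Real.log p =
            ‖2 * (f p + u p) + v p‖ * (p : ℝ) ^ (-(1 / 2 : ℝ)) *
              (‖v p‖ * (p : ℝ) ^ (-(1 / 2 : ℝ)) * Real.log p) := by ring
          _ ≤ _ := h9
      · simp
  obtain ⟨u1, v1, huv1, hh⟩ := SmallAt.add hC1 h2
  refine ⟨u1, v1, fun p hp => ?_, hh⟩
  rw [← huv1 p hp]
  show (f p + x p) ^ 2 = _
  rw [huv p hp]
  ring

lemma SmallAt.congr {σ : ℝ} {x y : ℕ → ℂ} (hx : SmallAt σ x)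
    (h : ∀ p : ℕ, p.Prime → y p = x p) : SmallAt σ y :=
  hx.of_eq_off one_ne_zero (fun p hp _ => h p hp)

end Pool.Agent.Selb
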