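import Pool.Agent.Selb.SysA
import Pool.Agent.Selb.SmallB

/-!
# Selb/SpanS: functions of the Selberg class whose prime coefficients lie near the span of others
-/

set_option autoImplicit false

open Complex Metric Filter Topology LSeries

namespace Pool.Agent.Selb

/-- membership in the Selberg class -/
structure InS (a b : ℕ → ℂ) : Prop where
  arith : Arith a b
  anal : ∃ (m : ℕ) (G : ℂ → ℂ) (Q : ℝ) (k : ℕ) (lam : Fin k → ℝ) (μ : Fin k → ℂ) (ω : ℂ),
    Anal a m G Q lam μ ω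

lemma InS.sys {a b : ℕ → ℂ} (h : InS a b) : Sys (fun n => b n * (Real.log n : ℂ)) := by
  obtain ⟨m, G, Q, k, lam, μ, ω, h'⟩ := h.anal
  exact sys_of_sel h.arith h'

lemma InS.cont {a b : ℕ → ℂ} (h : InS a b) {m : ℕ} {G : ℂ → ℂ}
    (hd : Differentiable ℂ G) (hc : ∀ s : ℂ, 1 < s.re → G s = (s - 1) ^ m * LSeries a s) :
    Cont (fun n => b n * (Real.log n : ℂ)) m G := by
  obtain ⟨m', G', Q, k, lam, μ, ω, h'⟩ := h.anal
  exact cont_of_sel h.arith h' hd hc

section

variable {J : Type*} [Fintype J]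

theorem span_relation {a b : ℕ → ℂ} (hF : InS a b) {a' b' : J → ℕ → ℂ}
    (hA : ∀ j, InS (a' j) (b' j)) (θ : J → ℝ) (c : J → ℂ)
    (h1 : SmallAt (1 / 2) (fun p => a p - ∑ j, c j * (a' j p * osc (θ j) p)))
    (h2 : SmallAt 1 (fun p => b (p ^ 2) - ∑ j, c j * (b' j (p ^ 2) * osc (θ j) (p ^ 2))))
    (n : ℕ) : b n = ∑ j, c j * (b' j n * osc (θ j) n) := by
  classical
  set L : Option J → ℕ → ℂ := fun o => o.elim (fun n => b n * (Real.log n : ℂ))
    (fun j => twist (θ j) (fun n => b' j n * (Real.log n : ℂ))) with hL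
  set cc : Option J → ℂ := fun o => o.elim 1 (fun j => -c j) with hcc
  have hS : ∀ o, Sys (L o) := by
    rintro (_ | j)
    · exact hF.sys
    · exact (hA j).sys.twist (θ j)
  have hcomb : ∀ n, comb cc L n =
      (b n - ∑ j, c j * (b' j n * osc (θ j) n)) * (Real.log n : ℂ) := by
    intro n
    simp only [comb, Fintype.sum_option, hcc, hL, Option.elim, twist]
    rw [sub_mul, Finset.sum_mul, sub_eq_add_neg, ← Finset.sum_neg_distrib]
    congr 1
    · ring
    · exact Finset.sum_congr rfl (fun j _ => by ring)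
  have key := rigid_small hS cc (x := fun p => a p - ∑ j, c j * (a' j p * osc (θ j) p))
    (y := fun p => 2 * (b (p ^ 2) - ∑ j, c j * (b' j (p ^ 2) * osc (θ j) (p ^ 2))))
    (fun p hp => by
      rw [hcomb p, hF.arith.at_prime hp]
      congr 2
      exact Finset.sum_congr rfl (fun j _ => by rw [(hA j).arith.at_prime hp]))
    (fun p hp => by
      rw [hcomb (p ^ 2)]
      have : (Real.log ((p ^ 2 : ℕ) : ℝ) : ℂ) = 2 * (Real.log p : ℂ) := by
        push_cast
        rw [Real.log_pow]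
        push_cast
        ring
      rw [this]
      ring) h1 (h2.const_mul 2)
  rcases Nat.lt_or_ge n 2 with hn | hn
  · have hnp : ¬ IsPrimePow n := fun hh => by have := hh.two_le; omega
    rw [hF.arith.supp n hnp]
    exact (Finset.sum_eq_zero (fun j _ => by rw [(hA j).arith.supp n hnp, zero_mul, mul_zero])).symm
  · have h3 := key n
    rw [hcomb n] at h3
    have hlog : (Real.log n : ℂ) ≠ 0 := by
      have h8 : (1 : ℝ) < n := by exact_mod_cast (by omega : 1 < n)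
      exact_mod_cast (Real.log_pos h8).ne'
    exact sub_eq_zero.1 ((mul_eq_zero.1 h3).resolve_right hlog)

/-- order of the continuation -/
def OrdAt (a : ℕ → ℂ) (z : ℂ) (n : ℤ) : Prop :=
  ∃ (m : ℕ) (G : ℂ → ℂ), Differentiable ℂ G ∧
    (∀ s : ℂ, 1 < s.re → G s = (s - 1) ^ m * LSeries a s) ∧
    n = (ord G z : ℤ) - (m : ℤ) * (ord (fun s : ℂ => s - 1) z : ℤ)

theorem span_order {a b : ℕ → ℂ} (hF : InS a b) {a' b' : J → ℕ → ℂ}
    (hA : ∀ j, InS (a' j) (b' j)) {θ : J → ℝ} {c : J → ℂ}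
    (hs : ∀ n : ℕ, b n = ∑ j, c j * (b' j n * osc (θ j) n)) {z : ℂ} {n : ℤ} {v : J → ℤ}
    (hn : OrdAt a z n) (hv : ∀ j, OrdAt (a' j) (z + θ j * I) (v j)) :
    (n : ℂ) = ∑ j, c j * (v j : ℂ) := by
  obtain ⟨m0, G0, hd0, hc0, hn0⟩ := hn
  choose m G hd hc hn using hv
  have h := order_relation (Λ := fun j n => b' j n * (Real.log n : ℂ)) (fun j => (hA j).sys)
    (hF.cont hd0 hc0) (fun j => (hA j).cont (hd j) (hc j)) (c := c) (θ := θ)
    (fun n => by
      rw [hs n, Finset.sum_mul]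
      refine Finset.sum_congr rfl (fun j _ => ?_)
      simp only [twist]
      ring) z
  rw [hn0]
  push_cast
  rw [h]
  refine Finset.sum_congr rfl (fun j _ => ?_)
  rw [hn j]
  push_cast
  ring

theorem span_rational {a b : ℕ → ℂ} (hF : InS a b) {a' b' : J → ℕ → ℂ}
    (hA : ∀ j, InS (a' j) (b' j)) {θ : J → ℝ} {c : J → ℂ}
    (hs : ∀ n : ℕ, b n = ∑ j, c j * (b' j n * osc (θ j) n))
    (hind : ∀ d : J → ℂ, (∀ p : ℕ, p.Prime → ∑ j, d j * (a' j p * osc (θ j) p) = 0) →
      ∀ j, d j = 0) (j : J) : ∃ r : ℚ, c j = r := by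
  refine rational_sys (Λ := fun j => twist (θ j) (fun n => b' j n * (Real.log n : ℂ))) hF.sys
    (fun j => (hA j).sys.twist (θ j)) (c := c) (fun n => ?_) (fun d hd => hind d (fun p hp => ?_)) j
  · rw [hs n, Finset.sum_mul]
    refine Finset.sum_congr rfl (fun j _ => ?_)
    simp only [twist]
    ring
  · have h1 := hd p hp
    have h2 : ∑ i, d i * twist (θ i) (fun n => b' i n * (Real.log n : ℂ)) p =
        (∑ j, d j * (a' j p * osc (θ j) p)) * (Real.log p : ℂ) := by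
      rw [Finset.sum_mul]
      refine Finset.sum_congr rfl (fun j _ => ?_)
      rw [(hA j).arith.at_prime hp]
      simp only [twist]
      ring
    rw [h2] at h1
    refine (mul_eq_zero.1 h1).resolve_right ?_
    have : Real.log p ≠ 0 := by
      have h8 : (1 : ℝ) < p := by exact_mod_cast hp.one_lt
      exact (Real.log_pos h8).ne'
    exact_mod_cast this

/-- `∑_{p ≤ X} v p * conj (w p) / p = g log log X + O(1)` -/
def PairAsym (v w : ℕ → ℂ) (g : ℂ) : Prop :=
  ∃ C : ℝ, ∀ X : ℝ, 3 ≤ X →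
    ‖(∑ p ∈ (Finset.range (⌊X⌋₊ + 1)).filter Nat.Prime, v p * (starRingEnd ℂ) (w p) / (p : ℂ)) -
      g * (Real.log (Real.log X) : ℂ)‖ ≤ C

theorem gram_sum {v : J → ℕ → ℂ} {g : Matrix J J ℂ} (hg : ∀ i j, PairAsym (v i) (v j) (g i j))
    (c : J → ℂ) {κ : ℝ} (hκ : (κ : ℂ) = ∑ i, ∑ j, c i * (starRingEnd ℂ) (c j) * g i j)
    {a : ℕ → ℂ} (ha : ∀ p : ℕ, p.Prime → a p = ∑ j, c j * v j p) :
    ∃ C : ℝ, ∀ X : ℝ, 3 ≤ X →
      |(∑ p ∈ (Finset.range (⌊X⌋₊ + 1)).filter Nat.Prime, ‖a p‖ ^ 2 / (p : ℝ)) -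
        κ * Real.log (Real.log X)| ≤ C := by
  choose D hD using hg
  refine ⟨∑ i, ∑ j, ‖c i * (starRingEnd ℂ) (c j)‖ * D i j, fun X hX => ?_⟩
  set S : Finset ℕ := (Finset.range (⌊X⌋₊ + 1)).filter Nat.Prime with hS
  have e1 : (((∑ p ∈ S, ‖a p‖ ^ 2 / (p : ℝ)) : ℝ) : ℂ) =
      ∑ i, ∑ j, c i * (starRingEnd ℂ) (c j) *
        ∑ p ∈ S, v i p * (starRingEnd ℂ) (v j p) / (p : ℂ) := by
    have e2 : ∀ p ∈ S, ((‖a p‖ ^ 2 / (p : ℝ) : ℝ) : ℂ) =
        ∑ i, ∑ j, c i * (starRingEnd ℂ) (c j) * (v i p * (starRingEnd ℂ) (v j p) / (p : ℂ)) := by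
      intro p hp
      have hpp := (Finset.mem_filter.1 hp).2
      have e3 : ((‖a p‖ ^ 2 / (p : ℝ) : ℝ) : ℂ) = a p * (starRingEnd ℂ) (a p) / (p : ℂ) := by
        rw [Complex.mul_conj, Complex.normSq_eq_norm_sq]
        push_cast
        rfl
      rw [e3, ha p hpp, map_sum, Finset.sum_mul_sum, Finset.sum_div]
      refine Finset.sum_congr rfl (fun i _ => ?_)
      rw [Finset.sum_div]
      refine Finset.sum_congr rfl (fun j _ => ?_)
      rw [map_mul]
      ring
    push_cast at e2 ⊢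
    rw [Finset.sum_congr rfl e2, Finset.sum_comm]
    refine Finset.sum_congr rfl (fun i _ => ?_)
    rw [Finset.sum_comm]
    refine Finset.sum_congr rfl (fun j _ => ?_)
    rw [Finset.mul_sum]
  have e4 : (((∑ p ∈ S, ‖a p‖ ^ 2 / (p : ℝ)) - κ * Real.log (Real.log X) : ℝ) : ℂ) =
      ∑ i, ∑ j, c i * (starRingEnd ℂ) (c j) *
        ((∑ p ∈ S, v i p * (starRingEnd ℂ) (v j p) / (p : ℂ)) -
          g i j * (Real.log (Real.log X) : ℂ)) := by
    rw [Complex.ofReal_sub, e1, Complex.ofReal_mul, hκ, Finset.sum_mul, ← Finset.sum_sub_distrib]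
    refine Finset.sum_congr rfl (fun i _ => ?_)
    rw [Finset.sum_mul, ← Finset.sum_sub_distrib]
    refine Finset.sum_congr rfl (fun j _ => ?_)
    ring
  rw [← Real.norm_eq_abs, ← Complex.norm_real, e4]
  refine (norm_sum_le _ _).trans (Finset.sum_le_sum (fun i _ => ?_))
  refine (norm_sum_le _ _).trans (Finset.sum_le_sum (fun j _ => ?_))
  rw [norm_mul]
  exact mul_le_mul_of_nonneg_left (hD i j X hX) (norm_nonneg _)

lemma loglog_unbounded (C : ℝ) : ∃ X : ℝ, 3 ≤ X ∧ C < Real.log (Real.log X) := by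
  refine ⟨max 3 (Real.exp (Real.exp (C + 1))), le_max_left _ _, ?_⟩
  have h1 : Real.exp (Real.exp (C + 1)) ≤ max 3 (Real.exp (Real.exp (C + 1))) := le_max_right _ _
  have h2 : Real.exp (C + 1) ≤ Real.log (max 3 (Real.exp (Real.exp (C + 1)))) := by
    have := Real.log_le_log (Real.exp_pos _) h1
    rwa [Real.log_exp] at this
  have h3 := Real.log_le_log (Real.exp_pos _) h2
  rw [Real.log_exp] at h3
  linarith

theorem gram_indep [DecidableEq J] {v : J → ℕ → ℂ} {g : Matrix J J ℂ}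
    (hg : ∀ i j, PairAsym (v i) (v j) (g i j)) (hdet : g.det ≠ 0) (d : J → ℂ)
    (hd : ∀ p : ℕ, p.Prime → ∑ j, d j * v j p = 0) (j : J) : d j = 0 := by
  have key : ∀ j, ∑ i, d i * g i j = 0 := by
    intro j
    choose D hD using fun i => hg i j
    by_contra hne
    have hpos : 0 < ‖∑ i, d i * g i j‖ := norm_pos_iff.2 hne
    obtain ⟨X, hX, hX'⟩ := loglog_unbounded (max ((∑ i, ‖d i‖ * D i) / ‖∑ i, d i * g i j‖) 0)
    have hl0 : 0 < Real.log (Real.log X) := (le_max_right _ _).trans_lt hX'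
    set S : Finset ℕ := (Finset.range (⌊X⌋₊ + 1)).filter Nat.Prime with hS
    have e1 : ∑ i, d i * ((∑ p ∈ S, v i p * (starRingEnd ℂ) (v j p) / (p : ℂ)) -
        g i j * (Real.log (Real.log X) : ℂ)) = -((∑ i, d i * g i j) * (Real.log (Real.log X) : ℂ)) := by
      have e2 : ∑ i, d i * ∑ p ∈ S, v i p * (starRingEnd ℂ) (v j p) / (p : ℂ) = 0 := by
        simp only [Finset.mul_sum]
        rw [Finset.sum_comm]
        refine Finset.sum_eq_zero (fun p hp => ?_)
        have hpp := (Finset.mem_filter.1 hp).2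
        have e3 : ∑ i, d i * (v i p * (starRingEnd ℂ) (v j p) / (p : ℂ)) =
            (∑ i, d i * v i p) * ((starRingEnd ℂ) (v j p) / (p : ℂ)) := by
          rw [Finset.sum_mul]
          exact Finset.sum_congr rfl (fun i _ => by ring)
        rw [e3, hd p hpp, zero_mul]
      simp only [mul_sub]
      rw [Finset.sum_sub_distrib, e2, zero_sub, Finset.sum_mul]
      congr 1
      exact Finset.sum_congr rfl (fun i _ => by ring)
    have e4 : ‖(∑ i, d i * g i j) * (Real.log (Real.log X) : ℂ)‖ ≤ ∑ i, ‖d i‖ * D i := by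
      rw [← norm_neg, ← e1]
      refine (norm_sum_le _ _).trans (Finset.sum_le_sum (fun i _ => ?_))
      rw [norm_mul]
      exact mul_le_mul_of_nonneg_left (hD i X hX) (norm_nonneg _)
    rw [norm_mul, Complex.norm_real, Real.norm_of_nonneg hl0.le] at e4
    have h5 := (le_max_left _ _).trans_lt hX'
    rw [div_lt_iff₀ hpos] at h5
    linarith
  have h1 : Matrix.vecMul d g = 0 := by
    funext j
    simp only [Matrix.vecMul, dotProduct, Pi.zero_apply]
    exact key j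
  have h2 := Matrix.eq_zero_of_vecMul_eq_zero hdet h1
  exact congrFun h2 j

end

end Pool.Agent.Selb
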