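import Pool.Agent.Selb.SpanS
import Pool.Agent.Selb.DirC

/-!
# Selb/SpanT: orders of the meromorphic continuation
-/

set_option autoImplicit false

open Complex Metric Filter Topology LSeries

namespace Pool.Agent.Selb

/-- two meromorphic functions on `ℂ` which agree for `re s > 1` have the same orders -/
lemma mero_order_eq {F H : ℂ → ℂ} (hF : MeromorphicOn F Set.univ) (hH : MeromorphicOn H Set.univ)
    (h : ∀ s : ℂ, 1 < s.re → F s = H s) (z : ℂ) :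
    meromorphicOrderAt F z = meromorphicOrderAt H z := by
  have hd : MeromorphicOn (F - H) Set.univ := hF.sub hH
  have h2 : meromorphicOrderAt (F - H) 2 = ⊤ := by
    rw [meromorphicOrderAt_eq_top_iff]
    refine nhdsWithin_le_nhds ?_
    filter_upwards [(isOpen_half 1).mem_nhds (show (1 : ℝ) < (2 : ℂ).re by norm_num)] with w hw
    rw [Pi.sub_apply, h w hw, sub_self]
  have h3 : meromorphicOrderAt (F - H) z = ⊤ := by
    by_contra hne
    have h4 := (hd.exists_meromorphicOrderAt_ne_top_iff_forall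
      ⟨Set.univ_nonempty, isPreconnected_univ⟩).1 ⟨⟨z, Set.mem_univ z⟩, hne⟩
    exact h4 ⟨2, Set.mem_univ 2⟩ h2
  refine meromorphicOrderAt_congr ?_
  rw [meromorphicOrderAt_eq_top_iff] at h3
  filter_upwards [h3] with w hw
  rw [Pi.sub_apply] at hw
  exact sub_eq_zero.1 hw

/-- `G / (s - 1) ^ m` -/
lemma mero_quot {m : ℕ} {G : ℂ → ℂ} (hd : Differentiable ℂ G) (hne : ∃ z, G z ≠ 0) (z : ℂ) :
    MeromorphicOn (fun s => G s / (s - 1) ^ m) Set.univ ∧
    meromorphicOrderAt (fun s => G s / (s - 1) ^ m) z =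
      (((ord G z : ℤ) - (m : ℤ) * (ord (fun s : ℂ => s - 1) z : ℤ) : ℤ) : WithTop ℤ) := by
  have hd1 : Differentiable ℂ (fun s : ℂ => s - 1) := by fun_prop
  have hne1 : ∃ w : ℂ, (fun s : ℂ => s - 1) w ≠ 0 := ⟨2, by norm_num⟩
  have hm1 : ∀ z, MeromorphicAt G z := fun z => (hd.analyticAt z).meromorphicAt
  have hm2 : ∀ z, MeromorphicAt (fun s : ℂ => s - 1) z := fun z => (hd1.analyticAt z).meromorphicAt
  have e1 : (fun s => G s / (s - 1) ^ m) = G * ((fun s : ℂ => s - 1) ^ m)⁻¹ := by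
    funext s
    rw [Pi.mul_apply, Pi.inv_apply, Pi.pow_apply, div_eq_mul_inv]
  rw [e1]
  refine ⟨fun w _ => (hm1 w).mul ((hm2 w).pow m).inv, ?_⟩
  rw [meromorphicOrderAt_mul (hm1 z) ((hm2 z).pow m).inv, meromorphicOrderAt_inv,
    meromorphicOrderAt_pow (hm2 z), mero_of_ord hd hne, mero_of_ord hd1 hne1]
  have e2 : ((m : WithTop ℤ) * ((ord (fun s : ℂ => s - 1) z : ℤ) : WithTop ℤ)) =
      (((m : ℤ) * (ord (fun s : ℂ => s - 1) z : ℤ) : ℤ) : WithTop ℤ) := by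
    push_cast
    rfl
  rw [e2]
  rfl

/-- order at `z` of the meromorphic continuation -/
def MOrd (a : ℕ → ℂ) (z : ℂ) (n : ℤ) : Prop :=
  ∃ F : ℂ → ℂ, MeromorphicOn F Set.univ ∧ (∀ s : ℂ, 1 < s.re → F s = LSeries a s) ∧
    meromorphicOrderAt F z = n

lemma MOrd_iff {a b : ℕ → ℂ} (h : InS a b) (z : ℂ) (n : ℤ) : MOrd a z n ↔ OrdAt a z n := by
  have hone0 : ∀ s : ℂ, 1 < s.re → s - 1 ≠ 0 := by
    intro s hs1 h0
    have := congrArg Complex.re h0
    simp at this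
    linarith
  have hG : ∀ (m : ℕ) (G : ℂ → ℂ), Differentiable ℂ G →
      (∀ s : ℂ, 1 < s.re → G s = (s - 1) ^ m * LSeries a s) → (∃ z, G z ≠ 0) ∧
      ∀ s : ℂ, 1 < s.re → G s / (s - 1) ^ m = LSeries a s := by
    intro m G hd hc
    refine ⟨⟨2, (h.cont hd hc).nz 2 (by norm_num)⟩, fun s hs => ?_⟩
    rw [hc s hs, mul_div_cancel_left₀ _ (pow_ne_zero _ (hone0 s hs))]
  constructor
  · rintro ⟨F, hF, hFe, hn⟩
    obtain ⟨m, G, Q, k, lam, μ, ω, h'⟩ := h.anal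
    obtain ⟨hne, hq⟩ := hG m G h'.diff h'.cont
    refine ⟨m, G, h'.diff, h'.cont, ?_⟩
    obtain ⟨hm, ho⟩ := mero_quot (m := m) h'.diff hne z
    have h1 := mero_order_eq hF hm (fun s hs => (hFe s hs).trans (hq s hs).symm) z
    rw [hn, ho] at h1
    exact_mod_cast h1
  · rintro ⟨m, G, hd, hc, hn⟩
    obtain ⟨hne, hq⟩ := hG m G hd hc
    obtain ⟨hm, ho⟩ := mero_quot (m := m) hd hne z
    exact ⟨_, hm, hq, by rw [ho, hn]⟩

lemma OrdAt_exists {a b : ℕ → ℂ} (h : InS a b) (z : ℂ) : ∃ n : ℤ, OrdAt a z n := by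
  obtain ⟨m, G, Q, k, lam, μ, ω, h'⟩ := h.anal
  exact ⟨_, m, G, h'.diff, h'.cont, rfl⟩

end Pool.Agent.Selb
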