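import Pool.Agent.Selb.SmallA
import Pool.Agent.Selb.PShift
import Pool.Agent.Selb.Ratl
import Pool.Agent.Selb.Resid

/-!
# Selb/SysA: linear relations between finitely many logarithmic derivatives
-/

set_option autoImplicit false

open Complex Metric Filter Topology LSeries

namespace Pool.Agent.Selb

/-- `Λ` are the coefficients of `-F'/F` for a function `F` with continuation, functional
equation and Euler product. -/
structure Sys (Λ : ℕ → ℂ) : Prop where
  good : ∃ (Ψ : ℂ → ℂ) (m po : ℂ) (E : ℂ → ℂ), GoodP Ψ Λ m po E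
  supp : ∀ n, ¬ IsPrimePow n → Λ n = 0
  high : LSeriesSummable (high Λ) (1 / 2)

lemma Sys.twist {Λ : ℕ → ℂ} (h : Sys Λ) (θ : ℝ) : Sys (twist θ Λ) := by
  obtain ⟨Ψ, m, po, E, hG⟩ := h.good
  refine ⟨⟨_, _, _, _, hG.shift θ⟩, fun n hn => by rw [Selb.twist, h.supp n hn, zero_mul], ?_⟩
  have e1 : Selb.high (Selb.twist θ Λ) = Selb.twist θ (Selb.high Λ) := by
    funext n
    simp only [Selb.high, Selb.twist]
    split_ifs
    · rfl
    · rw [zero_mul]
  rw [e1, summable_twist]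
  refine h.high.of_re_le_re ?_
  simp

lemma sys_of_sel {a b : ℕ → ℂ} {m : ℕ} {G : ℂ → ℂ} {Q : ℝ} {k : ℕ} {lam : Fin k → ℝ}
    {μ : Fin k → ℂ} {ω : ℂ} (h : Arith a b) (h' : Anal a m G Q lam μ ω) :
    Sys (fun n => b n * (Real.log n : ℂ)) := by
  obtain ⟨Ψ0, hΨ0, -⟩ := good_of_half (half_sel h h')
  exact ⟨⟨_, _, _, _, hΨ0.toP⟩, fun n hn => by rw [h.supp n hn, zero_mul], h.high_L⟩

lemma sys_starT {q : ℕ} [NeZero q] (χ : DirichletCharacter ℂ q) (θ : ℝ) : Sys (starT χ θ) :=
  ⟨goodP_star χ θ, fun n hn => starT_supp χ θ n hn, starT_high χ θ⟩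

section

variable {ι : Type*} [Fintype ι] {Λ : ι → ℕ → ℂ}

/-- **rigidity** -/
theorem rigid_small (hS : ∀ i, Sys (Λ i)) (c : ι → ℂ) {x y : ℕ → ℂ}
    (h1 : ∀ p : ℕ, p.Prime → comb c Λ p = x p * (Real.log p : ℂ))
    (h2 : ∀ p : ℕ, p.Prime → comb c Λ (p ^ 2) = y p * (Real.log p : ℂ))
    (hx : SmallAt (1 / 2) x) (hy : SmallAt 1 y) (n : ℕ) : comb c Λ n = 0 := by
  have hsupp : ∀ n, ¬ IsPrimePow n → comb c Λ n = 0 := fun n hn =>
    Finset.sum_eq_zero (fun i _ => by rw [(hS i).supp n hn, mul_zero])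
  rcases Nat.lt_or_ge n 2 with hn | hn
  · exact hsupp n (fun hh => by have := hh.two_le; omega)
  choose Ψ m po E hG using fun i => (hS i).good
  have hhigh : LSeriesSummable (high (comb c Λ)) (1 / 2) := by
    have h3 : high (comb c Λ) = ∑ i, c i • high (Λ i) := by
      funext n
      rw [Finset.sum_apply]
      simp only [Pi.smul_apply, smul_eq_mul, high, comb]
      split_ifs with h
      · rfl
      · simp
    rw [h3]
    exact LSeriesSummable.sum fun i _ => ((hS i).high).smul (c i)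
  obtain ⟨B, hB⟩ := splitL_of_small hsupp hhigh h1 h2 hx hy
  exact comb_zero_of_splitL hG c hB hn

/-- **rationality** of the coefficients in a relation between logarithmic derivatives -/
theorem rational_sys {Λ0 : ℕ → ℂ} (h0 : Sys Λ0) (hS : ∀ i, Sys (Λ i)) {c : ι → ℂ}
    (hs : ∀ n : ℕ, Λ0 n = ∑ i, c i * Λ i n)
    (hind : ∀ d : ι → ℂ, (∀ p : ℕ, p.Prime → ∑ i, d i * Λ i p = 0) → ∀ i, d i = 0) (i0 : ι) :
    ∃ r : ℚ, c i0 = r := by
  classical
  obtain ⟨Ψ0, m0, po0, E0, hΨ0⟩ := h0.good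
  choose Ψ1 m1 po1 E1 hΨ1 using fun i => (hS i).good
  set Ψ : Option ι → ℂ → ℂ := fun o => o.elim Ψ0 Ψ1 with hΨ
  set L : Option ι → ℕ → ℂ := fun o => o.elim Λ0 Λ with hL
  set mm : Option ι → ℂ := fun o => o.elim m0 m1 with hmm
  set pp : Option ι → ℂ := fun o => o.elim po0 po1 with hpp
  set EE : Option ι → ℂ → ℂ := fun o => o.elim E0 E1 with hEE
  set cc : Option ι → ℂ := fun o => o.elim 1 (fun i => -c i) with hcc
  have hG : ∀ o, GoodP (Ψ o) (L o) (mm o) (pp o) (EE o) := by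
    rintro (_ | j)
    · exact hΨ0
    · exact hΨ1 j
  have hcomb : ∀ n, comb cc L n = 0 := by
    intro n
    simp only [comb, Fintype.sum_option, hcc, hL, Option.elim]
    rw [one_mul, hs n, ← Finset.sum_add_distrib]
    exact Finset.sum_eq_zero (fun j _ => by ring)
  have hmult : ∀ z : ℂ, z ∉ exc pp → (ord Ψ0 z : ℂ) = ∑ j, c j * (ord (Ψ1 j) z : ℂ) := by
    intro z hz
    have h1 := mult_zero_of_combP hG cc (fun n _ => hcomb n) hz
    simp only [mult, Fintype.sum_option, hcc, hΨ, Option.elim] at h1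
    have h2 : ∑ x, -c x * (ord (Ψ1 x) z : ℂ) = -∑ j, c j * (ord (Ψ1 j) z : ℂ) := by
      rw [← Finset.sum_neg_distrib]
      exact Finset.sum_congr rfl (fun j _ => by ring)
    rw [h2] at h1
    linear_combination h1
  refine rational_of_functional (fun l hl => ?_)
  set d : ι → ℂ := fun j => ((l (c j) : ℚ) : ℂ) with hd
  set dd : Option ι → ℂ := fun o => o.elim 0 d with hdd
  have hd0 : ∀ z : ℂ, z ∉ exc pp → mult dd Ψ z = 0 := by
    intro z hz
    have h1 := congrArg l (hmult z hz)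
    have h2 : l (ord Ψ0 z : ℂ) = 0 := by
      have : (ord Ψ0 z : ℂ) = (ord Ψ0 z : ℚ) • (1 : ℂ) := by simp [Algebra.smul_def]
      rw [this, map_smul, hl, smul_zero]
    rw [h2, map_sum] at h1
    have h3 : ∀ j, l (c j * (ord (Ψ1 j) z : ℂ)) = l (c j) * (ord (Ψ1 j) z : ℚ) := by
      intro j
      have : c j * (ord (Ψ1 j) z : ℂ) = (ord (Ψ1 j) z : ℚ) • c j := by
        rw [Algebra.smul_def, mul_comm]
        simp
      rw [this, map_smul, smul_eq_mul, mul_comm]
    simp only [h3] at h1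
    have h4 : mult dd Ψ z = ((∑ j, l (c j) * (ord (Ψ1 j) z : ℚ) : ℚ) : ℂ) := by
      simp only [mult, Fintype.sum_option, hdd, hΨ, Option.elim, zero_mul, zero_add]
      push_cast
      exact Finset.sum_congr rfl (fun j _ => by simp [hd])
    rw [h4, ← h1]
    simp
  have hzero : ∀ n, 2 ≤ n → comb dd L n = 0 := fun n hn => comb_zero_of_multP hG dd hd0 hn
  have h5 := hind d (fun p hp => ?_) i0
  · simp only [hd] at h5
    exact_mod_cast h5
  · have h6 := hzero p hp.two_le
    simpa only [comb, Fintype.sum_option, hdd, hL, Option.elim, zero_mul, zero_add] using h6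

/-- a continuation `G` of `(s - 1)^m F(s)`, where `-F'/F` has coefficients `Λ` -/
structure Cont (Λ : ℕ → ℂ) (m : ℕ) (G : ℂ → ℂ) : Prop where
  diff : Differentiable ℂ G
  nz : ∀ s : ℂ, 1 < s.re → G s ≠ 0
  log : ∀ s : ℂ, 1 < s.re → logDeriv G s = (m : ℂ) / (s - 1) - LSeries Λ s

/-- the relation between orders -/
theorem order_relation (hS : ∀ i, Sys (Λ i)) {Λ0 : ℕ → ℂ} {m0 : ℕ} {G0 : ℂ → ℂ}
    (h0 : Cont Λ0 m0 G0) {m : ι → ℕ} {G : ι → ℂ → ℂ} (h : ∀ i, Cont (Λ i) (m i) (G i))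
    {c : ι → ℂ} {θ : ι → ℝ} (hs : ∀ n : ℕ, Λ0 n = ∑ i, c i * twist (θ i) (Λ i) n) (z : ℂ) :
    (ord G0 z : ℂ) - (m0 : ℂ) * (ord (fun s : ℂ => s - 1) z : ℂ) =
      ∑ i, c i * ((ord (G i) (z + θ i * I) : ℂ) -
        (m i : ℂ) * (ord (fun s : ℂ => s - 1) (z + θ i * I) : ℂ)) := by
  set H : Option (Option (ι ⊕ ι)) → ℂ → ℂ := fun o =>
    o.elim G0 (fun o' => o'.elim (fun s : ℂ => s - 1)
      (Sum.elim (fun j s => G j (s + θ j * I)) (fun j s => s + θ j * I - 1))) with hH
  set d : Option (Option (ι ⊕ ι)) → ℂ := fun o =>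
    o.elim 1 (fun o' => o'.elim (-(m0 : ℂ))
      (Sum.elim (fun j => -c j) (fun j => c j * m j))) with hd
  have hone : ∀ s : ℂ, 1 < s.re → ∀ t : ℝ, s + t * I - 1 ≠ 0 := by
    intro s hs1 t h0
    have := congrArg Complex.re h0
    simp at this
    linarith
  have hone0 : ∀ s : ℂ, 1 < s.re → s - 1 ≠ 0 := by
    intro s hs1
    have := hone s hs1 0
    simpa using this
  have hre : ∀ s : ℂ, 1 < s.re → ∀ t : ℝ, 1 < (s + t * I).re := by
    intro s hs1 t
    simpa using hs1
  have key := ord_relation (H := H) ?_ ?_ d ?_ z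
  · simp only [Fintype.sum_option, Fintype.sum_sum_type, hd, hH, Option.elim, Sum.elim_inl,
      Sum.elim_inr] at key
    have h2 : ∑ x, -c x * (ord (fun s => G x (s + θ x * I)) z : ℂ) +
        ∑ x, c x * (m x : ℂ) * (ord (fun s : ℂ => s + θ x * I - 1) z : ℂ) =
        -∑ i, c i * ((ord (G i) (z + θ i * I) : ℂ) -
        (m i : ℂ) * (ord (fun s : ℂ => s - 1) (z + θ i * I) : ℂ)) := by
      rw [← Finset.sum_neg_distrib, ← Finset.sum_add_distrib]
      refine Finset.sum_congr rfl (fun j _ => ?_)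
      rw [ord_shift (G j), ← ord_shift (fun s : ℂ => s - 1)]
      ring
    rw [h2] at key
    linear_combination key
  · rintro (_ | _ | j | j)
    · exact h0.diff
    · show Differentiable ℂ (fun s : ℂ => s - 1)
      fun_prop
    · show Differentiable ℂ (fun s : ℂ => G j (s + θ j * I))
      exact fun s => ((h j).diff (s + θ j * I)).comp s (by fun_prop)
    · show Differentiable ℂ (fun s : ℂ => s + θ j * I - 1)
      fun_prop
  · rintro (_ | _ | j | j) s hs1
    · exact h0.nz s hs1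
    · exact hone0 s hs1
    · exact (h j).nz _ (hre s hs1 _)
    · exact hone s hs1 _
  · intro s hs1
    simp only [Fintype.sum_option, Fintype.sum_sum_type, hd, hH, Option.elim, Sum.elim_inl,
      Sum.elim_inr]
    have hX : ∀ t : ℂ, logDeriv (fun s : ℂ => s + t - 1) s = 1 / (s + t - 1) := by
      intro t
      rw [logDeriv_apply]
      simp
    have hX0 : logDeriv (fun s : ℂ => s - 1) s = 1 / (s - 1) := by
      rw [logDeriv_apply]
      simp
    have hE : ∀ j, logDeriv (fun s => G j (s + θ j * I)) s =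
        (m j : ℂ) / (s + θ j * I - 1) - LSeries (twist (θ j) (Λ j)) s := by
      intro j
      rw [LSeries_twist, ← (h j).log _ (hre s hs1 _)]
      simp only [logDeriv_apply]
      rw [deriv_comp_add_const]
    have hL : LSeries Λ0 s = ∑ j, c j * LSeries (twist (θ j) (Λ j)) s := by
      have e1 : Λ0 = ∑ j, c j • twist (θ j) (Λ j) := by
        funext n
        simp only [Finset.sum_apply, Pi.smul_apply, smul_eq_mul]
        exact hs n
      have hsum : ∀ j, LSeriesSummable (twist (θ j) (Λ j)) s := by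
        intro j
        obtain ⟨Ψ, m1, po, E, hΨ⟩ := ((hS j).twist (θ j)).good
        exact hΨ.summ s hs1
      rw [e1, LSeries_sum (fun j _ => (hsum j).smul (c j))]
      exact Finset.sum_congr rfl (fun j _ => by rw [LSeries_smul])
    rw [h0.log s hs1, hX0, hL]
    simp only [hE, hX]
    have h3 : ∑ x, -c x * ((m x : ℂ) / (s + θ x * I - 1) - LSeries (twist (θ x) (Λ x)) s) +
        ∑ x, c x * (m x : ℂ) * (1 / (s + θ x * I - 1)) =
          ∑ j, c j * LSeries (twist (θ j) (Λ j)) s := by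
      rw [← Finset.sum_add_distrib]
      refine Finset.sum_congr rfl (fun j _ => ?_)
      ring
    linear_combination h3

end

lemma cont_of_sel {a b : ℕ → ℂ} {m : ℕ} {G : ℂ → ℂ} {Q : ℝ} {k : ℕ} {lam : Fin k → ℝ}
    {μ : Fin k → ℂ} {ω : ℂ} (h : Arith a b) (h' : Anal a m G Q lam μ ω) {m1 : ℕ} {G1 : ℂ → ℂ}
    (hd : Differentiable ℂ G1) (hc : ∀ s : ℂ, 1 < s.re → G1 s = (s - 1) ^ m1 * LSeries a s) :
    Cont (fun n => b n * (Real.log n : ℂ)) m1 G1 := by
  have hhalf := half_sel h h'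
  have hone0 : ∀ s : ℂ, 1 < s.re → s - 1 ≠ 0 := by
    intro s hs1 h0
    have := congrArg Complex.re h0
    simp at this
    linarith
  refine ⟨hd, fun s hs1 => ?_, fun s hs1 => ?_⟩
  · rw [hc s hs1]
    exact mul_ne_zero (pow_ne_zero _ (hone0 s hs1)) (hhalf.nz s hs1)
  · have hs0 : s - 1 ≠ 0 := hone0 s hs1
    have hLd : DifferentiableAt ℂ (LSeries a) s := by
      have habs : abscissaOfAbsConv a < s.re := by
        have h1 : abscissaOfAbsConv a ≤ ((1 : ℝ) : EReal) := by
          refine abscissaOfAbsConv_le_of_forall_lt_LSeriesSummable (fun y hy => ?_)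
          exact hhalf.suma y (by simpa using hy)
        exact h1.trans_lt (by exact_mod_cast hs1)
      exact (LSeries_hasDerivAt habs).differentiableAt
    have h2 : G1 =ᶠ[𝓝 s] fun w => (w - 1) ^ m1 * LSeries a w := by
      filter_upwards [(isOpen_half 1).mem_nhds (show (1 : ℝ) < s.re from hs1)] with w hw
      exact hc w hw
    rw [logDeriv_apply, h2.deriv_eq, hc s hs1,
      ← logDeriv_apply (fun w => (w - 1) ^ m1 * LSeries a w),
      logDeriv_mul (f := fun w : ℂ => (w - 1) ^ m1) s (pow_ne_zero _ hs0) (hhalf.nz s hs1)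
        (by fun_prop) hLd, hhalf.ld s hs1, logDeriv_fun_pow (by fun_prop), logDeriv_apply]
    simp only [deriv_sub_const, deriv_id'']
    ring

end Pool.Agent.Selb
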