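import Pool.Agent.Selb.SpanT
import Pool.Agent.Selb.OscA

/-!
# Selb/TwoA: the prime sum of an element of the Selberg class on the line `Re s = 1`

For `F` in the Selberg class with order `n` at `1 + i t`:
`∑_p a_p p^{-(1 + δ + i t)} = n log δ + O(1)` for `0 < δ ≤ 1`.
-/

set_option autoImplicit false

open Complex Metric Filter Topology LSeries

namespace Pool.Agent.Selb

private theorem tw_pw (p : Nat.Primes) {β : ℝ} (hβ : β < 0) (k : ℕ) :
    (((p : ℕ) ^ (k + 2) : ℕ) : ℝ) ^ β ≤ ((p : ℕ) : ℝ) ^ (2 * β) * ((2 : ℝ) ^ β) ^ k := by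
  have hp0 : (0 : ℝ) < ((p : ℕ) : ℝ) := by exact_mod_cast p.2.pos
  have hp2 : (2 : ℝ) ≤ ((p : ℕ) : ℝ) := by exact_mod_cast p.2.two_le
  have h1 : (((p : ℕ) ^ (k + 2) : ℕ) : ℝ) ^ β =
      ((p : ℕ) : ℝ) ^ (2 * β) * (((p : ℕ) : ℝ) ^ β) ^ k := by
    push_cast
    rw [← Real.rpow_natCast ((p : ℕ) : ℝ) (k + 2), ← Real.rpow_natCast (((p : ℕ) : ℝ) ^ β) k,
      ← Real.rpow_mul hp0.le, ← Real.rpow_mul hp0.le, ← Real.rpow_add hp0]
    congr 1
    push_cast
    ring
  rw [h1]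
  refine mul_le_mul_of_nonneg_left (pow_le_pow_left₀ (by positivity) ?_ k) (by positivity)
  exact Real.rpow_le_rpow_of_nonpos (by norm_num) hp2 hβ.le

private theorem tw_inj :
    Function.Injective (fun x : Nat.Primes × ℕ => (x.1 : ℕ) ^ (x.2 + 2)) := by
  rintro ⟨p, k⟩ ⟨q, l⟩ h
  have h' : (p : ℕ) ^ (k + 2) = (q : ℕ) ^ (l + 2) := h
  have hpq : (p : ℕ) = q := by
    have h1 : (p : ℕ) ∣ (q : ℕ) ^ (l + 2) := h' ▸ dvd_pow_self _ (by omega)
    exact (Nat.prime_dvd_prime_iff_eq p.2 q.2).1 (p.2.dvd_of_dvd_pow h1)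
  rw [hpq] at h'
  have h3 := Nat.pow_right_injective q.2.two_le h'
  have h4 : k = l := by omega
  rw [Prod.mk.injEq]
  exact ⟨Subtype.ext hpq, h4⟩

/-- the part of `b` outside the primes -/
noncomputable def np (b : ℕ → ℂ) : ℕ → ℂ := fun n => if n.Prime then 0 else b n

/-- the restriction to the primes -/
noncomputable def pa (a : ℕ → ℂ) : ℕ → ℂ := fun n => if n.Prime then a n else 0

lemma np_summable {a b : ℕ → ℂ} (h : Arith a b) : LSeriesSummable (np b) 1 := by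
  obtain ⟨θ, hθ, C, hC⟩ := h.bd
  have hC0 : 0 ≤ C := by
    have h1 := hC 1
    simp only [Nat.cast_one, Real.one_rpow, mul_one] at h1
    exact (norm_nonneg _).trans h1
  have hβ : θ - 1 < 0 := by linarith
  unfold LSeriesSummable
  rw [← tw_inj.summable_iff (f := term (np b) 1)]
  · have hs : Summable (fun p : Nat.Primes => ((p : ℕ) : ℝ) ^ (2 * (θ - 1))) :=
      Nat.Primes.summable_rpow.2 (by linarith)
    have h2 : (2 : ℝ) ^ (θ - 1) < 1 := Real.rpow_lt_one_of_one_lt_of_neg (by norm_num) hβ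
    have h2' : 0 ≤ (2 : ℝ) ^ (θ - 1) := by positivity
    have hg : Summable (fun k : ℕ => ((2 : ℝ) ^ (θ - 1)) ^ k) := summable_geometric_of_lt_one h2' h2
    have hs0 : ∀ p : Nat.Primes, 0 ≤ ((p : ℕ) : ℝ) ^ (2 * (θ - 1)) :=
      fun p => Real.rpow_nonneg (Nat.cast_nonneg _) _
    have hg0 : ∀ k : ℕ, 0 ≤ ((2 : ℝ) ^ (θ - 1)) ^ k := fun k => pow_nonneg h2' k
    have h3 := Summable.mul_of_nonneg hs hg (by intro p; exact hs0 p) (by intro k; exact hg0 k)
    refine Summable.of_norm_bounded (h3.mul_left C) ?_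
    rintro ⟨p, k⟩
    have hn : (p : ℕ) ^ (k + 2) ≠ 0 := pow_ne_zero _ p.2.ne_zero
    have hn0 : (0 : ℝ) < (((p : ℕ) ^ (k + 2) : ℕ) : ℝ) := by
      exact_mod_cast Nat.pos_of_ne_zero hn
    change ‖term (np b) 1 ((p : ℕ) ^ (k + 2))‖ ≤
      C * (((p : ℕ) : ℝ) ^ (2 * (θ - 1)) * ((2 : ℝ) ^ (θ - 1)) ^ k)
    rw [norm_term_eq, if_neg hn]
    have h4 : ‖np b ((p : ℕ) ^ (k + 2))‖ ≤ C * (((p : ℕ) ^ (k + 2) : ℕ) : ℝ) ^ θ := by
      unfold np
      split_ifs
      · rw [norm_zero]; positivity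
      · exact hC _
    calc ‖np b ((p : ℕ) ^ (k + 2))‖ / (((p : ℕ) ^ (k + 2) : ℕ) : ℝ) ^ (1 : ℂ).re
        ≤ (C * (((p : ℕ) ^ (k + 2) : ℕ) : ℝ) ^ θ) / (((p : ℕ) ^ (k + 2) : ℕ) : ℝ) ^ (1 : ℂ).re := by
          gcongr
      _ = C * (((p : ℕ) ^ (k + 2) : ℕ) : ℝ) ^ (θ - 1) := by
          rw [Complex.one_re, Real.rpow_sub hn0, Real.rpow_one]
          ring
      _ ≤ _ := mul_le_mul_of_nonneg_left (tw_pw p hβ k) hC0
  · intro n hn
    have h3 : np b n = 0 := by
      unfold np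
      split_ifs with hp
      · rfl
      · refine h.supp n fun hpp => ?_
        obtain ⟨p, k, hp', hk, hpk⟩ := hpp
        have hp'' : p.Prime := Nat.prime_iff.2 hp'
        rcases Nat.lt_or_ge k 2 with hk2 | hk2
        · have : k = 1 := by omega
          rw [this, pow_one] at hpk
          exact hp (hpk ▸ hp'')
        · apply hn
          refine ⟨(⟨p, hp''⟩, k - 2), ?_⟩
          have e : k - 2 + 2 = k := by omega
          simp only [e]
          exact hpk
    rcases eq_or_ne n 0 with rfl | hn0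
    · exact term_zero _ _
    · rw [term_of_ne_zero hn0, h3, zero_div]

lemma pa_summable {a b : ℕ → ℂ} (h : Arith a b) {s : ℂ} (hs : 1 < s.re) :
    LSeriesSummable (pa a) s := by
  refine Summable.of_norm_bounded (h.summable_a hs).norm (fun n => ?_)
  unfold pa
  rcases eq_or_ne n 0 with rfl | hn0
  · simp
  · rw [term_of_ne_zero hn0, term_of_ne_zero hn0]
    split_ifs with hp
    · exact le_rfl
    · rw [zero_div, norm_zero]
      exact norm_nonneg _

lemma pa_near {a b : ℕ → ℂ} (h : Arith a b) : ∃ C : ℝ, ∀ s : ℂ, 1 < s.re →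
    ‖LSeries (pa a) s - LSeries b s‖ ≤ C := by
  have hs := np_summable h
  refine ⟨∑' n, ‖term (np b) 1 n‖, fun s hs1 => ?_⟩
  have hle : ∀ n, ‖term (np b) s n‖ ≤ ‖term (np b) 1 n‖ := by
    intro n
    apply norm_term_le_of_re_le_re
    rw [Complex.one_re]
    exact hs1.le
  have hnp : LSeriesSummable (np b) s := Summable.of_norm_bounded hs.norm hle
  have e : LSeries (pa a) s - LSeries b s = - LSeries (np b) s := by
    have e1 : LSeries b s = LSeries (pa a + np b) s := by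
      congr 1
      funext n
      rw [Pi.add_apply, pa, np]
      by_cases hn : n.Prime
      · rw [if_pos hn, if_pos hn, add_zero, h.at_prime hn]
      · rw [if_neg hn, if_neg hn, zero_add]
    rw [e1, LSeries_add (pa_summable h hs1) hnp]
    ring
  rw [e, norm_neg]
  unfold LSeries
  refine (norm_tsum_le_tsum_norm hnp.norm).trans ?_
  exact hnp.norm.tsum_le_tsum hle hs.norm

lemma absc_b {a b : ℕ → ℂ} (h : Arith a b) : abscissaOfAbsConv b ≤ 1 := by
  refine abscissaOfAbsConv_le_of_forall_lt_LSeriesSummable (x := 1) (fun y hy => ?_)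
  exact h.summable_b (by simpa using hy)

/-- the asymptotics of the logarithm of `F` at a point of the line `Re s = 1` -/
theorem log_asym {a b : ℕ → ℂ} (h : Arith a b) {t : ℝ} {n : ℤ}
    (hn : MOrd a (1 + t * I) n) :
    ∃ C : ℝ, ∀ δ : ℝ, 0 < δ → δ ≤ 1 →
      ‖LSeries b (1 + δ + t * I) - (n : ℂ) * (Real.log δ : ℂ)‖ ≤ C := by
  obtain ⟨F, hF, hFe, hord⟩ := hn
  obtain ⟨z, hz⟩ : ∃ z : ℂ, z = 1 + t * I := ⟨_, rfl⟩
  rw [← hz] at hord
  obtain ⟨g, hg, hgz, hgF⟩ := (meromorphicOrderAt_eq_int_iff (hF z (Set.mem_univ z))).1 hord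
  -- a bound for the logarithmic derivative of g near z
  obtain ⟨K, hK⟩ : ∃ K : ℝ, K = ‖deriv g z / g z‖ + 1 := ⟨_, rfl⟩
  have hcont : ContinuousAt (fun w => deriv g w / g w) z :=
    hg.deriv.continuousAt.div hg.continuousAt hgz
  have h1 : ∀ᶠ w in 𝓝 z, ‖deriv g w / g w‖ < K :=
    hcont.norm.eventually_lt continuousAt_const (by rw [hK]; linarith)
  have h2 : ∀ᶠ w in 𝓝 z, g w ≠ 0 := hg.continuousAt.eventually_ne hgz
  have h3 : ∀ᶠ w in 𝓝 z, AnalyticAt ℂ g w := hg.eventually_analyticAt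
  have h4 : ∀ᶠ w in 𝓝 z, w ≠ z → F w = (w - z) ^ n • g w := by
    rw [eventually_nhdsWithin_iff] at hgF
    exact hgF
  obtain ⟨ε, hε, hball⟩ := Metric.eventually_nhds_iff.1 (h1.and (h2.and (h3.and h4)))
  have hK0 : 0 ≤ K := by rw [hK]; positivity
  set φ : ℝ → ℂ := fun x => LSeries b (1 + x + t * I) with hφ
  have hpt : ∀ x : ℝ, (1 : ℂ) + x + t * I = z + x := fun x => by rw [hz]; ring
  have hre : ∀ x : ℝ, ((1 : ℂ) + x + t * I).re = 1 + x := fun x => by simp
  -- derivative of φ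
  have hφd : ∀ x : ℝ, 0 < x → HasDerivAt φ (-LSeries (logMul b) (1 + x + t * I)) x := by
    intro x hx
    have h1 : HasDerivAt (LSeries b) (-LSeries (logMul b) (1 + x + t * I)) (1 + x + t * I) := by
      apply LSeries_hasDerivAt
      refine (absc_b h).trans_lt ?_
      rw [hre x]
      exact_mod_cast (show (1 : ℝ) < 1 + x by linarith)
    have h3 : HasDerivAt (fun y : ℂ => LSeries b (1 + y + t * I))
        (-LSeries (logMul b) (1 + x + t * I)) (x : ℂ) := by
      have h4 : HasDerivAt (fun y : ℂ => 1 + y + t * I) 1 (x : ℂ) :=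
        ((hasDerivAt_id _).const_add 1).add_const _
      have := HasDerivAt.comp (x : ℂ) h1 h4
      rw [mul_one] at this
      exact this
    exact h3.comp_ofReal
  set Φ : ℝ → ℂ := fun x => φ x - (n : ℂ) * (Real.log x : ℂ) with hΦ
  have hlogd : ∀ x : ℝ, 0 < x → HasDerivAt (fun y : ℝ => (Real.log y : ℂ)) ((x⁻¹ : ℝ) : ℂ) x :=
    fun x hx => (Real.hasDerivAt_log hx.ne').ofReal_comp
  have hΦd : ∀ x : ℝ, 0 < x → HasDerivAt Φ
      (-LSeries (logMul b) (1 + x + t * I) - (n : ℂ) * ((x⁻¹ : ℝ) : ℂ)) x := fun x hx =>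
    (hφd x hx).sub ((hlogd x hx).const_mul _)
  -- value of the derivative near 0
  have hval : ∀ x : ℝ, 0 < x → x < ε →
      -LSeries (logMul b) (1 + x + t * I) - (n : ℂ) * ((x⁻¹ : ℝ) : ℂ) =
        deriv g (z + x) / g (z + x) := by
    intro x hx hxε
    have hx0 : (x : ℂ) ≠ 0 := by exact_mod_cast hx.ne'
    have hdist : dist (z + x) z < ε := by
      rw [dist_eq_norm, add_sub_cancel_left, Complex.norm_real, Real.norm_eq_abs, abs_of_pos hx]
      exact hxε
    obtain ⟨-, hg0, hga, -⟩ := hball hdist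
    have hexp : ∀ y : ℝ, 0 < y → y < ε → Complex.exp (φ y) = (y : ℂ) ^ n * g (z + y) := by
      intro y hy hyε
      have hdist : dist (z + y) z < ε := by
        rw [dist_eq_norm, add_sub_cancel_left, Complex.norm_real, Real.norm_eq_abs, abs_of_pos hy]
        exact hyε
      obtain ⟨-, -, -, hFw⟩ := hball hdist
      have hy0 : (y : ℂ) ≠ 0 := by exact_mod_cast hy.ne'
      have h5 := hFw (by intro h6; exact hy0 (by simpa using h6))
      have h6 : 1 < (z + (y : ℂ)).re := by rw [← hpt y, hre y]; linarith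
      rw [hφ]
      show Complex.exp (LSeries b (1 + y + t * I)) = _
      rw [hpt y, ← h.euler _ h6, ← hFe _ h6, h5, add_sub_cancel_left, smul_eq_mul]
    have hd1 : HasDerivAt (fun y : ℝ => Complex.exp (φ y))
        (Complex.exp (φ x) * (-LSeries (logMul b) (1 + x + t * I))) x := (hφd x hx).cexp
    have hd2 : HasDerivAt (fun y : ℝ => (y : ℂ) ^ n * g (z + y))
        ((n * (x : ℂ) ^ (n - 1)) * g (z + x) + (x : ℂ) ^ n * deriv g (z + x)) x := by
      have h5 : HasDerivAt (fun y : ℂ => y ^ n * g (z + y))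
          ((n * (x : ℂ) ^ (n - 1)) * g (z + x) + (x : ℂ) ^ n * deriv g (z + x)) (x : ℂ) := by
        have h6 : HasDerivAt (fun y : ℂ => g (z + y)) (deriv g (z + x)) (x : ℂ) := by
          have h7 : HasDerivAt g (deriv g (z + x)) (z + x) :=
            hga.differentiableAt.hasDerivAt
          have h8 : HasDerivAt (fun y : ℂ => z + y) 1 (x : ℂ) := (hasDerivAt_id _).const_add z
          have := HasDerivAt.comp (x : ℂ) h7 h8
          rw [mul_one] at this
          exact this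
        exact (hasDerivAt_zpow n (x : ℂ) (Or.inl hx0)).mul h6
      exact h5.comp_ofReal
    have hev : (fun y : ℝ => Complex.exp (φ y)) =ᶠ[𝓝 x] (fun y : ℝ => (y : ℂ) ^ n * g (z + y)) := by
      filter_upwards [Ioo_mem_nhds hx hxε] with y hy
      exact hexp y hy.1 hy.2
    have huniq := hd1.unique (hd2.congr_of_eventuallyEq hev)
    rw [hexp x hx hxε] at huniq
    have hxn : (x : ℂ) ^ n ≠ 0 := zpow_ne_zero n hx0
    have e1 : (x : ℂ) ^ (n - 1) = (x : ℂ) ^ n * (x : ℂ)⁻¹ := zpow_sub_one₀ hx0 n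
    rw [e1] at huniq
    have h9 : -LSeries (logMul b) (1 + x + t * I) =
        (n : ℂ) * (x : ℂ)⁻¹ + deriv g (z + x) / g (z + x) := by
      have h10 : (x : ℂ) ^ n * g (z + x) ≠ 0 := mul_ne_zero hxn hg0
      apply mul_left_cancel₀ h10
      rw [huniq]
      field_simp
    rw [h9]
    push_cast
    ring
  -- bound near 0
  obtain ⟨η, hη⟩ : ∃ η : ℝ, η = min (ε / 2) 1 := ⟨_, rfl⟩
  have hη0 : 0 < η := by rw [hη]; positivity
  have hη1 : η ≤ 1 := by rw [hη]; exact min_le_right _ _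
  have hηε : η < ε := by
    rw [hη]
    exact (min_le_left _ _).trans_lt (by linarith)
  have hnear : ∀ x : ℝ, 0 < x → x ≤ η → ‖Φ x‖ ≤ K + ‖Φ η‖ := by
    intro x hx hxη
    have hmv : ‖Φ x - Φ η‖ ≤ K * ‖x - η‖ := by
      refine (convex_Icc x η).norm_image_sub_le_of_norm_hasDerivWithin_le (f := Φ)
        (f' := fun x => -LSeries (logMul b) (1 + x + t * I) - (n : ℂ) * ((x⁻¹ : ℝ) : ℂ)) (C := K)
        (x := η) (y := x)
        (fun y hy => (hΦd y (hx.trans_le hy.1)).hasDerivWithinAt)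
        (fun y hy => ?_) ⟨hxη, le_rfl⟩ ⟨le_rfl, hxη⟩
      have hy0 : 0 < y := hx.trans_le hy.1
      have hyε : y < ε := hy.2.trans_lt hηε
      show ‖-LSeries (logMul b) (1 + y + t * I) - (n : ℂ) * ((y⁻¹ : ℝ) : ℂ)‖ ≤ K
      rw [hval y hy0 hyε]
      have hdist : dist (z + y) z < ε := by
        rw [dist_eq_norm, add_sub_cancel_left, Complex.norm_real, Real.norm_eq_abs, abs_of_pos hy0]
        exact hyε
      exact (hball hdist).1.le
    have h9 : ‖x - η‖ ≤ 1 := by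
      rw [Real.norm_eq_abs, abs_le]; constructor <;> linarith
    have h11 : ‖Φ x‖ ≤ ‖Φ x - Φ η‖ + ‖Φ η‖ := by
      have := norm_add_le (Φ x - Φ η) (Φ η)
      simpa using this
    nlinarith
  -- bound on [η, 1]
  have hcontΦ : ContinuousOn Φ (Set.Icc η 1) := fun x hx =>
    (hΦd x (hη0.trans_le hx.1)).continuousAt.continuousWithinAt
  obtain ⟨D, hD⟩ := isCompact_Icc.exists_bound_of_continuousOn hcontΦ
  refine ⟨max (K + ‖Φ η‖) D, fun δ hδ0 hδ1 => ?_⟩
  show ‖Φ δ‖ ≤ _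
  rcases le_total δ η with hle | hle
  · exact (hnear δ hδ0 hle).trans (le_max_left _ _)
  · exact (hD δ ⟨hle, hδ1⟩).trans (le_max_right _ _)

/-- **the prime sum at a point of the line `Re s = 1`** -/
theorem prime_asym {a b : ℕ → ℂ} (h : Arith a b) {t : ℝ} {n : ℤ}
    (hn : MOrd a (1 + t * I) n) :
    ∃ C : ℝ, ∀ δ : ℝ, 0 < δ → δ ≤ 1 →
      ‖LSeries (pa a) (1 + δ + t * I) - (n : ℂ) * (Real.log δ : ℂ)‖ ≤ C := by
  obtain ⟨C1, h1⟩ := log_asym h hn
  obtain ⟨C2, h2⟩ := pa_near h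
  refine ⟨C2 + C1, fun δ h0 h3 => ?_⟩
  have e : LSeries (pa a) (1 + δ + t * I) - (n : ℂ) * (Real.log δ : ℂ) =
      (LSeries (pa a) (1 + δ + t * I) - LSeries b (1 + δ + t * I)) +
      (LSeries b (1 + δ + t * I) - (n : ℂ) * (Real.log δ : ℂ)) := by ring
  rw [e]
  refine (norm_add_le _ _).trans (add_le_add (h2 _ ?_) (h1 δ h0 h3))
  have : ((1 : ℂ) + δ + t * I).re = 1 + δ := by simp
  rw [this]
  linarith

/-- the prime sum of `y` behaves at `1 + i t` as for a function of order `d` -/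
def HasOrd (y : ℕ → ℂ) (t : ℝ) (d : ℤ) : Prop :=
  (∀ s : ℂ, 1 < s.re → LSeriesSummable (pa y) s) ∧
  ∃ C : ℝ, ∀ δ : ℝ, 0 < δ → δ ≤ 1 →
    ‖LSeries (pa y) (1 + δ + t * I) - (d : ℂ) * (Real.log δ : ℂ)‖ ≤ C

/-- a sequence which agrees with `a` at the primes not dividing `q` -/
theorem hasOrd_of {a b : ℕ → ℂ} (h : Arith a b) {t : ℝ} {d : ℤ} (hd : MOrd a (1 + t * I) d)
    {q : ℕ} [NeZero q] {y : ℕ → ℂ} (hy : ∀ p : ℕ, p.Prime → ¬ p ∣ q → a p = y p) :
    HasOrd y t d := by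
  classical
  obtain ⟨C, hC⟩ := prime_asym h hd
  obtain ⟨e, he⟩ : ∃ e : ℕ → ℂ, e = fun n => if n.Prime ∧ n ∣ q then y n - a n else 0 := ⟨_, rfl⟩
  have hq : q ≠ 0 := NeZero.ne q
  have hsupp : ∀ n, n ∉ q.divisors → e n = 0 := by
    intro n hn
    rw [he]
    show (if n.Prime ∧ n ∣ q then y n - a n else 0) = 0
    rw [if_neg]
    rintro ⟨-, h2⟩
    exact hn (Nat.mem_divisors.2 ⟨h2, hq⟩)
  have hterm0 : ∀ s : ℂ, ∀ n, n ∉ q.divisors → term e s n = 0 := by
    intro s n hn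
    rcases eq_or_ne n 0 with rfl | hn0
    · exact term_zero _ _
    · rw [term_of_ne_zero hn0, hsupp n hn, zero_div]
  have hes : ∀ s : ℂ, LSeriesSummable e s := fun s =>
    summable_of_ne_finset_zero (s := q.divisors) (fun n hn => hterm0 s n hn)
  have hsum : pa y = pa a + e := by
    funext n
    rw [Pi.add_apply, he]
    unfold pa
    by_cases hn : n.Prime
    · rw [if_pos hn, if_pos hn]
      show y n = a n + (if n.Prime ∧ n ∣ q then y n - a n else 0)
      by_cases hd : n ∣ q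
      · rw [if_pos ⟨hn, hd⟩]; ring
      · rw [if_neg (fun h => hd h.2), add_zero, hy n hn hd]
    · rw [if_neg hn, if_neg hn]
      show (0 : ℂ) = 0 + (if n.Prime ∧ n ∣ q then y n - a n else 0)
      rw [if_neg (fun h => hn h.1), add_zero]
  refine ⟨fun s hs => by rw [hsum]; exact (pa_summable h hs).add (hes s),
    C + ∑ n ∈ q.divisors, ‖e n‖, fun δ h0 h1 => ?_⟩
  have hre : ((1 : ℂ) + δ + t * I).re = 1 + δ := by simp
  have hs1 : 1 < ((1 : ℂ) + δ + t * I).re := by rw [hre]; linarith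
  rw [hsum, LSeries_add (pa_summable h hs1) (hes _)]
  have e1 : LSeries (pa a) (1 + δ + t * I) + LSeries e (1 + δ + t * I) -
      (d : ℂ) * (Real.log δ : ℂ) = (LSeries (pa a) (1 + δ + t * I) -
      (d : ℂ) * (Real.log δ : ℂ)) + LSeries e (1 + δ + t * I) := by ring
  rw [e1]
  refine (norm_add_le _ _).trans (add_le_add (hC δ h0 h1) ?_)
  unfold LSeries
  rw [tsum_eq_sum (s := q.divisors) (fun n hn => hterm0 _ n hn)]
  refine (norm_sum_le _ _).trans (Finset.sum_le_sum fun n hn => ?_)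
  have hn0 : n ≠ 0 := (Nat.pos_of_mem_divisors hn).ne'
  rw [norm_term_eq, if_neg hn0]
  apply div_le_self (norm_nonneg _)
  have hn1 : (1 : ℝ) ≤ n := by exact_mod_cast Nat.one_le_iff_ne_zero.2 hn0
  rw [hre]
  exact Real.one_le_rpow hn1 (by linarith)

end Pool.Agent.Selb
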