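import Pool.Agent.Selb.TwoA

/-!
# Selb/TwoB: mean values over primes with bounded error
-/

set_option autoImplicit false

open Complex Metric Filter Topology LSeries

namespace Pool.Agent.Selb

/-- the partial sum `∑_{p ≤ X} x p / p` -/
noncomputable def ps (x : ℕ → ℝ) (X : ℝ) : ℝ :=
  ∑ p ∈ (Finset.range (⌊X⌋₊ + 1)).filter Nat.Prime, x p / (p : ℝ)

/-- `∑_{p ≤ X} x p / p = κ log log X + O(1)` -/
def Mn (x : ℕ → ℝ) (κ : ℝ) : Prop := ∃ C : ℝ, ∀ X : ℝ, 3 ≤ X →
  |ps x X - κ * Real.log (Real.log X)| ≤ C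

lemma ps_congr {x y : ℕ → ℝ} (h : ∀ p : ℕ, p.Prime → x p = y p) (X : ℝ) : ps x X = ps y X := by
  unfold ps
  refine Finset.sum_congr rfl fun p hp => ?_
  rw [h p (Finset.mem_filter.1 hp).2]

lemma ps_add (x y : ℕ → ℝ) (X : ℝ) : ps (fun p => x p + y p) X = ps x X + ps y X := by
  unfold ps
  rw [← Finset.sum_add_distrib]
  exact Finset.sum_congr rfl fun p _ => by ring

lemma ps_mul (c : ℝ) (x : ℕ → ℝ) (X : ℝ) : ps (fun p => c * x p) X = c * ps x X := by
  unfold ps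
  rw [Finset.mul_sum]
  exact Finset.sum_congr rfl fun p _ => by ring

lemma ps_mono {x y : ℕ → ℝ} (h : ∀ p : ℕ, p.Prime → x p ≤ y p) (X : ℝ) : ps x X ≤ ps y X := by
  unfold ps
  refine Finset.sum_le_sum fun p hp => ?_
  have := h p (Finset.mem_filter.1 hp).2
  gcongr

lemma ps_nonneg {x : ℕ → ℝ} (h : ∀ p : ℕ, p.Prime → 0 ≤ x p) (X : ℝ) : 0 ≤ ps x X := by
  unfold ps
  exact Finset.sum_nonneg fun p hp => div_nonneg (h p (Finset.mem_filter.1 hp).2) (Nat.cast_nonneg _)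

lemma Mn.congr {x y : ℕ → ℝ} {κ : ℝ} (hx : Mn x κ) (h : ∀ p : ℕ, p.Prime → x p = y p) : Mn y κ := by
  obtain ⟨C, hC⟩ := hx
  exact ⟨C, fun X hX => by rw [← ps_congr h X]; exact hC X hX⟩

lemma Mn.add {x y : ℕ → ℝ} {κ μ : ℝ} (hx : Mn x κ) (hy : Mn y μ) :
    Mn (fun p => x p + y p) (κ + μ) := by
  obtain ⟨C, hC⟩ := hx
  obtain ⟨D, hD⟩ := hy
  refine ⟨C + D, fun X hX => ?_⟩
  rw [ps_add]
  have e : ps x X + ps y X - (κ + μ) * Real.log (Real.log X) =
      (ps x X - κ * Real.log (Real.log X)) + (ps y X - μ * Real.log (Real.log X)) := by ring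
  rw [e]
  exact (abs_add_le _ _).trans (add_le_add (hC X hX) (hD X hX))

lemma Mn.mul {x : ℕ → ℝ} {κ : ℝ} (hx : Mn x κ) (c : ℝ) : Mn (fun p => c * x p) (c * κ) := by
  obtain ⟨C, hC⟩ := hx
  refine ⟨|c| * C, fun X hX => ?_⟩
  rw [ps_mul]
  have e : c * ps x X - c * κ * Real.log (Real.log X) =
      c * (ps x X - κ * Real.log (Real.log X)) := by ring
  rw [e, abs_mul]
  exact mul_le_mul_of_nonneg_left (hC X hX) (abs_nonneg _)

lemma Mn.sub {x y : ℕ → ℝ} {κ μ : ℝ} (hx : Mn x κ) (hy : Mn y μ) :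
    Mn (fun p => x p - y p) (κ - μ) := by
  have h := hx.add (hy.mul (-1))
  have e : κ + -1 * μ = κ - μ := by ring
  rw [e] at h
  exact h.congr fun p _ => by ring

lemma Mn.zero : Mn (fun _ => 0) 0 := ⟨0, fun X _ => by simp [ps]⟩

lemma Mn.sum {ι : Type*} (s : Finset ι) {x : ι → ℕ → ℝ} {κ : ι → ℝ}
    (h : ∀ i ∈ s, Mn (x i) (κ i)) : Mn (fun p => ∑ i ∈ s, x i p) (∑ i ∈ s, κ i) := by
  classical
  induction s using Finset.induction_on with
  | empty => simpa using Mn.zero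
  | insert i s hi ih =>
    rw [Finset.sum_insert hi]
    refine ((h i (Finset.mem_insert_self i s)).add
      (ih fun j hj => h j (Finset.mem_insert_of_mem hj))).congr fun p _ => ?_
    rw [Finset.sum_insert hi]

/-- a sequence which is summable against `1/p` has mean zero -/
lemma Mn.of_summable {x y : ℕ → ℝ} (hy : Summable y)
    (h : ∀ p : ℕ, p.Prime → |x p| / (p : ℝ) ≤ y p) (hy0 : ∀ n, 0 ≤ y n) : Mn x 0 := by
  refine ⟨∑' n, y n, fun X _ => ?_⟩
  rw [zero_mul, sub_zero]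
  unfold ps
  refine (Finset.abs_sum_le_sum_abs _ _).trans ?_
  refine (Finset.sum_le_sum (g := y) fun p hp => ?_).trans (hy.sum_le_tsum _ fun n _ => hy0 n)
  rw [abs_div, Nat.abs_cast]
  exact h p (Finset.mem_filter.1 hp).2

lemma loglog_nonneg {X : ℝ} (hX : 3 ≤ X) : 0 ≤ Real.log (Real.log X) := by
  apply Real.log_nonneg
  rw [Real.le_log_iff_exp_le (by linarith)]
  have := Real.exp_one_lt_d9
  linarith

/-- a nonnegative sequence with bounded partial sums is summable -/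
lemma summable_of_ps {x : ℕ → ℝ} (h0 : ∀ p : ℕ, p.Prime → 0 ≤ x p) {C : ℝ}
    (h : ∀ X : ℝ, 3 ≤ X → ps x X ≤ C) :
    Summable (fun p : ℕ => if p.Prime then x p / (p : ℝ) else 0) := by
  refine summable_of_sum_range_le (c := C) (fun n => ?_) (fun n => ?_)
  · split_ifs with hn
    · exact div_nonneg (h0 n hn) (Nat.cast_nonneg _)
    · exact le_rfl
  · rw [← Finset.sum_filter]
    refine le_trans ?_ (h (max 3 n) (le_max_left _ _))
    unfold ps
    refine Finset.sum_le_sum_of_subset_of_nonneg ?_ fun p hp _ =>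
      div_nonneg (h0 p (Finset.mem_filter.1 hp).2) (Nat.cast_nonneg _)
    intro p hp
    rw [Finset.mem_filter, Finset.mem_range] at hp ⊢
    refine ⟨?_, hp.2⟩
    have h1 : (p : ℝ) ≤ max 3 (n : ℝ) := by
      refine le_trans ?_ (le_max_right _ _)
      exact_mod_cast hp.1.le
    exact Nat.lt_succ_of_le (Nat.le_floor h1)

lemma conj_osc (t : ℝ) {n : ℕ} (hn : 0 < n) : (starRingEnd ℂ) (osc t n) = osc (-t) n := by
  have h := osc_mul_conj 0 t hn
  have h0 : osc 0 n = 1 := by simp [osc]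
  rw [h0, one_mul, zero_sub] at h
  exact h

section

variable {q : ℕ} {J : Type*} [Fintype J]

/-- the function `∑ c_j χ_j(n) n^{i t_j}` -/
noncomputable def trg (t : J → ℝ) (X : J → DirichletCharacter ℂ q) (c : J → ℂ) (n : ℕ) : ℂ :=
  ∑ j, c j * X j (n : ZMod q) * osc (-(t j)) n

lemma trg_norm_le (t : J → ℝ) (X : J → DirichletCharacter ℂ q) (c : J → ℂ) {n : ℕ} (hn : 0 < n) :
    ‖trg t X c n‖ ≤ ∑ j, ‖c j‖ := by
  unfold trg
  refine (norm_sum_le _ _).trans (Finset.sum_le_sum fun j _ => ?_)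
  rw [norm_mul, norm_mul, norm_osc _ hn, mul_one]
  exact mul_le_of_le_one_right (norm_nonneg _) (DirichletCharacter.norm_le_one (X j) _)

private lemma inj_neg {t : J → ℝ} {X : J → DirichletCharacter ℂ q}
    (hinj : Function.Injective (fun j => (t j, X j))) :
    Function.Injective (fun j => ((fun j => -(t j)) j, X j)) := by
  intro i j hij
  simp only [Prod.mk.injEq, neg_inj] at hij
  exact hinj (by show (t i, X i) = (t j, X j); rw [hij.1, hij.2])

variable [NeZero q]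

/-- Mertens for the square of such a function -/
theorem Mn_trg {t : J → ℝ} {X : J → DirichletCharacter ℂ q}
    (hinj : Function.Injective (fun j => (t j, X j))) (c : J → ℂ) :
    Mn (fun p => ‖trg t X c p‖ ^ 2) (∑ j, ‖c j‖ ^ 2) := by
  obtain ⟨C, hC⟩ := pair_mertens (inj_neg hinj) c
  exact ⟨C, fun Y hY => hC Y hY⟩

theorem abel_trg {t : J → ℝ} {X : J → DirichletCharacter ℂ q}
    (hinj : Function.Injective (fun j => (t j, X j))) (c : J → ℂ) :
    ∃ C : ℝ, ∀ δ : ℝ, 0 < δ → δ ≤ 1 →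
      |(∑' n : ℕ, (if n.Prime then ‖trg t X c n‖ ^ 2 * (n : ℝ) ^ (-(1 + δ)) else 0)) -
        (∑ j, ‖c j‖ ^ 2) * Real.log (1 / δ)| ≤ C := by
  obtain ⟨C, hC⟩ := pair_sum (inj_neg hinj) c
  exact ⟨C, fun δ h0 h1 => hC δ h0 h1⟩

end

lemma Mn_const (r : ℝ) : Mn (fun _ => r) r := by
  have h := Mn_trg (q := 1) (J := Unit) (t := fun _ => 0) (X := fun _ => 1)
    (fun _ _ _ => Subsingleton.elim _ _) (fun _ => 1)
  simp only [Finset.univ_unique, Finset.sum_singleton, norm_one, one_pow] at h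
  have h2 : Mn (fun _ => (1 : ℝ)) 1 := by
    refine h.congr fun p hp => ?_
    unfold trg
    have h1 : (1 : DirichletCharacter ℂ 1) (p : ZMod 1) = 1 := by
      apply MulChar.one_apply
      rw [ZMod.isUnit_iff_coprime]
      exact Nat.coprime_one_right p
    rw [Finset.univ_unique, Finset.sum_singleton, one_mul, norm_mul, norm_osc _ hp.pos, h1,
      norm_one, one_mul, one_pow]
  simpa using h2.mul r

/-! ### negligible sets of primes -/

open Classical in
/-- the set `P` of primes is negligible for `a` -/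
def Neg (a : ℕ → ℂ) (P : Set ℕ) : Prop :=
  Summable (fun p : ℕ => if p.Prime ∧ p ∈ P then (1 + ‖a p‖ ^ 2) / (p : ℝ) else 0)

/-- if `x` vanishes off `P` and `|x| ≤ C (1 + |a|²)`, its mean is zero -/
lemma Mn_of_neg {a : ℕ → ℂ} {P : Set ℕ} (hP : Neg a P) {x : ℕ → ℝ} {C : ℝ} (hC : 0 ≤ C)
    (h0 : ∀ p : ℕ, p.Prime → p ∉ P → x p = 0)
    (h1 : ∀ p : ℕ, p.Prime → |x p| ≤ C * (1 + ‖a p‖ ^ 2)) : Mn x 0 := by
  classical
  unfold Neg at hP
  refine Mn.of_summable (y := fun p : ℕ =>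
    C * (if p.Prime ∧ p ∈ P then (1 + ‖a p‖ ^ 2) / (p : ℝ) else 0)) ?_ (fun p hp => ?_)
    (fun n => ?_)
  · refine Summable.mul_left C ?_
    convert hP using 2
  · by_cases hpP : p ∈ P
    · rw [if_pos ⟨hp, hpP⟩, ← mul_div_assoc]
      have := h1 p hp
      gcongr
    · rw [if_neg (fun h => hpP h.2), mul_zero, h0 p hp hpP, abs_zero, zero_div]
  · refine mul_nonneg hC ?_
    split_ifs
    · positivity
    · exact le_rfl

end Pool.Agent.Selb
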