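import Pool.Agent.Selb.TwoB

/-!
# Selb/TwoC: the lower bound from the zeros and poles on the line `Re s = 1`, for all `F`
-/

set_option autoImplicit false

open Complex Metric Filter Topology LSeries

namespace Pool.Agent.Selb

/-- `∑_p |a_p|² p^{-(1+δ)}` converges -/
lemma sq_summable {a b : ℕ → ℂ} (h : Arith a b) {δ : ℝ} (hδ : 0 < δ) :
    Summable (fun n : ℕ => if n.Prime then ‖a n‖ ^ 2 * (n : ℝ) ^ (-(1 + δ)) else 0) := by
  obtain ⟨C, hC⟩ := h.ram (δ / 4) (by positivity)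
  have hs : Summable (fun n : ℕ => C ^ 2 * (n : ℝ) ^ (-(1 + δ / 2))) := by
    apply Summable.mul_left
    rw [Real.summable_nat_rpow]
    linarith
  refine Summable.of_norm_bounded hs (fun n => ?_)
  split_ifs with hn
  · have hn0 : (0 : ℝ) < n := by exact_mod_cast hn.pos
    have h1 := hC n hn.one_le
    have h2 : ‖a n‖ ^ 2 ≤ (C * (n : ℝ) ^ (δ / 4)) ^ 2 := pow_le_pow_left₀ (norm_nonneg _) h1 2
    have h3 : (C * (n : ℝ) ^ (δ / 4)) ^ 2 = C ^ 2 * (n : ℝ) ^ (δ / 2) := by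
      rw [mul_pow, ← Real.rpow_natCast ((n : ℝ) ^ (δ / 4)) 2, ← Real.rpow_mul hn0.le]
      congr 2
      push_cast
      ring
    rw [Real.norm_of_nonneg (by positivity)]
    calc ‖a n‖ ^ 2 * (n : ℝ) ^ (-(1 + δ)) ≤ (C ^ 2 * (n : ℝ) ^ (δ / 2)) * (n : ℝ) ^ (-(1 + δ)) := by
          rw [h3] at h2; gcongr
      _ = C ^ 2 * (n : ℝ) ^ (-(1 + δ / 2)) := by
          rw [mul_assoc, ← Real.rpow_add hn0]
          congr 2
          ring
  · rw [norm_zero]
    positivity

section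

variable {q : ℕ} [NeZero q] {J : Type*} [Fintype J] {t : J → ℝ} {X : J → DirichletCharacter ℂ q}

omit [NeZero q] in
lemma trg_summable (c : J → ℂ) {δ : ℝ} (hδ : 0 < δ) :
    Summable (fun n : ℕ => if n.Prime then ‖trg t X c n‖ ^ 2 * (n : ℝ) ^ (-(1 + δ)) else 0) := by
  have hs : Summable (fun n : ℕ => (∑ j, ‖c j‖) ^ 2 * (n : ℝ) ^ (-(1 + δ))) := by
    apply Summable.mul_left
    rw [Real.summable_nat_rpow]
    linarith
  refine Summable.of_norm_bounded hs (fun n => ?_)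
  split_ifs with hn
  · rw [Real.norm_of_nonneg (by positivity)]
    have := pow_le_pow_left₀ (norm_nonneg _) (trg_norm_le t X c hn.pos) 2
    gcongr
  · rw [norm_zero]
    positivity

lemma term_pa (s δ : ℝ) {n : ℕ} (hn : n.Prime) (y : ℕ → ℂ) :
    term (pa y) (1 + δ + s * I) n = osc s n * y n * (((n : ℝ) ^ (-(1 + δ)) : ℝ) : ℂ) := by
  rw [term_of_ne_zero hn.ne_zero, div_eq_mul_one_div, OscAAux.cpow_pt hn.pos, pa, if_pos hn]
  ring

/-- the twist of `a` by the conjugate of `χ` -/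
noncomputable def tw (X : DirichletCharacter ℂ q) (a : ℕ → ℂ) (n : ℕ) : ℂ :=
  (starRingEnd ℂ) (X (n : ZMod q)) * a n

omit [NeZero q] in
lemma conj_trg_mul (c : J → ℂ) (a : ℕ → ℂ) {n : ℕ} (hn : 0 < n) :
    (starRingEnd ℂ) (trg t X c n) * a n =
      ∑ j, (starRingEnd ℂ) (c j) * osc (t j) n * tw (X j) a n := by
  unfold trg tw
  rw [map_sum, Finset.sum_mul]
  refine Finset.sum_congr rfl fun j _ => ?_
  rw [map_mul, map_mul, ← conj_osc (t j) hn, Complex.conj_conj]
  ring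

/-- **Bessel**: `∑_p |a_p|² p^{-(1+δ)} ≥ (∑ ord²) log (1/δ) - C` -/
theorem abel_lower {a b : ℕ → ℂ} (h : Arith a b)
    (hinj : Function.Injective (fun j => (t j, X j))) {d : J → ℤ}
    (hd : ∀ j, HasOrd (tw (X j) a) (t j) (d j)) :
    ∃ C : ℝ, ∀ δ : ℝ, 0 < δ → δ ≤ 1 →
      (∑ j, (d j : ℝ) ^ 2) * Real.log (1 / δ) - C ≤
        ∑' n : ℕ, (if n.Prime then ‖a n‖ ^ 2 * (n : ℝ) ^ (-(1 + δ)) else 0) := by
  classical
  set c : J → ℂ := fun j => -(d j : ℂ) with hc
  obtain ⟨C1, h1⟩ := abel_trg hinj c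
  choose D hD using fun j => (hd j).2
  refine ⟨C1 + 2 * ∑ j, |(d j : ℝ)| * D j, fun δ h0 h3 => ?_⟩
  have hre : ∀ s : ℝ, ((1 : ℂ) + δ + s * I).re = 1 + δ := fun s => by simp
  have hLs : ∀ j, LSeriesSummable (pa (tw (X j) a)) (1 + δ + t j * I) := fun j =>
    (hd j).1 _ (by rw [hre]; linarith)
  have hsa := sq_summable h h0
  have hst := trg_summable (t := t) (X := X) c h0
  -- the cross sum
  have hcr : HasSum (fun n : ℕ => if n.Prime then
      ((starRingEnd ℂ) (trg t X c n) * a n).re * (n : ℝ) ^ (-(1 + δ)) else 0)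
      (∑ j, -(d j : ℝ) * (LSeries (pa (tw (X j) a)) (1 + δ + t j * I)).re) := by
    have h5 : ∀ j ∈ Finset.univ, HasSum (fun n : ℕ => -(d j : ℝ) *
        (term (pa (tw (X j) a)) (1 + δ + t j * I) n).re)
        (-(d j : ℝ) * (LSeries (pa (tw (X j) a)) (1 + δ + t j * I)).re) := by
      intro j _
      refine HasSum.mul_left _ ?_
      exact Complex.hasSum_re (hLs j).hasSum
    refine (hasSum_sum h5).congr_fun ?_
    intro n
    split_ifs with hn
    · rw [conj_trg_mul c a hn.pos, Complex.re_sum, Finset.sum_mul]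
      refine Finset.sum_congr rfl fun j _ => ?_
      rw [term_pa (t j) δ hn, Complex.re_mul_ofReal]
      have e2 : ((starRingEnd ℂ) (c j) * osc (t j) n * tw (X j) a n).re =
          -(d j : ℝ) * (osc (t j) n * tw (X j) a n).re := by
        rw [hc]
        show ((starRingEnd ℂ) (-(d j : ℂ)) * osc (t j) n * tw (X j) a n).re = _
        have e3 : (starRingEnd ℂ) (-(d j : ℂ)) = ((-(d j : ℝ) : ℝ) : ℂ) := by
          rw [map_neg, ← Complex.ofReal_intCast, Complex.conj_ofReal]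
          push_cast
          rfl
        rw [e3, mul_assoc, Complex.re_ofReal_mul]
      rw [e2]
      ring
    · symm
      refine Finset.sum_eq_zero fun j _ => ?_
      have e3 : term (pa (tw (X j) a)) (1 + δ + t j * I) n = 0 := by
        rcases eq_or_ne n 0 with rfl | hn0
        · exact term_zero _ _
        · rw [term_of_ne_zero hn0, pa, if_neg hn, zero_div]
      rw [e3, Complex.zero_re, mul_zero]
  -- the nonnegative sum
  have hnn : 0 ≤ (∑' n : ℕ, (if n.Prime then ‖a n‖ ^ 2 * (n : ℝ) ^ (-(1 + δ)) else 0)) -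
      2 * (∑ j, -(d j : ℝ) * (LSeries (pa (tw (X j) a)) (1 + δ + t j * I)).re) +
      (∑' n : ℕ, (if n.Prime then ‖trg t X c n‖ ^ 2 * (n : ℝ) ^ (-(1 + δ)) else 0)) := by
    have h6 := (hsa.hasSum.sub (hcr.mul_left 2)).add hst.hasSum
    refine h6.nonneg ?_
    intro n
    show 0 ≤ _
    split_ifs with hn
    · have e4 : ‖a n‖ ^ 2 * (n : ℝ) ^ (-(1 + δ)) -
          2 * (((starRingEnd ℂ) (trg t X c n) * a n).re * (n : ℝ) ^ (-(1 + δ))) +
          ‖trg t X c n‖ ^ 2 * (n : ℝ) ^ (-(1 + δ)) =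
          ‖a n - trg t X c n‖ ^ 2 * (n : ℝ) ^ (-(1 + δ)) := by
        rw [← Complex.normSq_eq_norm_sq, ← Complex.normSq_eq_norm_sq, ← Complex.normSq_eq_norm_sq,
          Complex.normSq_sub, mul_comm ((starRingEnd ℂ) (trg t X c n)) (a n)]
        ring
      rw [e4]
      positivity
    · norm_num
  have hcross : (∑ j, (d j : ℝ) ^ 2) * Real.log (1 / δ) - ∑ j, |(d j : ℝ)| * D j ≤
      ∑ j, -(d j : ℝ) * (LSeries (pa (tw (X j) a)) (1 + δ + t j * I)).re := by
    rw [Finset.sum_mul, ← Finset.sum_sub_distrib]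
    refine Finset.sum_le_sum fun j _ => ?_
    have h7 := hD j δ h0 h3
    have h8 : |(LSeries (pa (tw (X j) a)) (1 + δ + t j * I)).re +
        (d j : ℝ) * Real.log (1 / δ)| ≤ D j := by
      refine le_trans ?_ h7
      have e5 : (LSeries (pa (tw (X j) a)) (1 + δ + t j * I)).re +
          (d j : ℝ) * Real.log (1 / δ) =
          (LSeries (pa (tw (X j) a)) (1 + δ + t j * I) - (d j : ℂ) * (Real.log δ : ℂ)).re := by
        have e6 : (d j : ℂ) * (Real.log δ : ℂ) = (((d j : ℝ) * Real.log δ : ℝ) : ℂ) := by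
          push_cast
          ring
        rw [e6, Complex.sub_re, Complex.ofReal_re, one_div, Real.log_inv]
        ring
      rw [e5]
      exact Complex.abs_re_le_norm _
    have h9 : |(d j : ℝ) * ((LSeries (pa (tw (X j) a)) (1 + δ + t j * I)).re +
        (d j : ℝ) * Real.log (1 / δ))| ≤ |(d j : ℝ)| * D j := by
      rw [abs_mul]
      exact mul_le_mul_of_nonneg_left h8 (abs_nonneg _)
    have h10 := (abs_le.1 h9).2
    nlinarith
  have h11 := (abs_le.1 (h1 δ h0 h3)).2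
  have h12 : (∑ j, ‖c j‖ ^ 2) = ∑ j, (d j : ℝ) ^ 2 := by
    refine Finset.sum_congr rfl fun j _ => ?_
    rw [hc]
    show ‖-(d j : ℂ)‖ ^ 2 = _
    rw [norm_neg, Complex.norm_intCast, sq_abs]
  rw [h12] at h11
  linarith

end

/-! ### from partial sums to Abel sums -/

/-- summation by parts: if `∑_{n ≤ N} f n ≤ A + B log N` for all `N ≥ 1` then
`∑_{n ≤ N} f n n^{-δ} ≤ A + B / δ` -/
lemma parts_bound {f : ℕ → ℝ} {A B δ : ℝ} (hδ : 0 < δ) (hB : 0 ≤ B)
    (hf : ∀ N : ℕ, 1 ≤ N → ∑ n ∈ Finset.Icc 1 N, f n ≤ A + B * Real.log N) (N : ℕ) (hN : 1 ≤ N) :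
    ∑ n ∈ Finset.Icc 1 N, f n * (n : ℝ) ^ (-δ) ≤ A + B / δ * (1 - (N : ℝ) ^ (-δ)) := by
  -- first: T_N ≤ S(N) N^{-δ} + A + B/δ (1 - N^{-δ}) - (A + B log N) N^{-δ}
  have key : ∀ N : ℕ, 1 ≤ N → ∑ n ∈ Finset.Icc 1 N, f n * (n : ℝ) ^ (-δ) ≤
      (∑ n ∈ Finset.Icc 1 N, f n - (A + B * Real.log N)) * (N : ℝ) ^ (-δ) +
        (A + B / δ * (1 - (N : ℝ) ^ (-δ))) := by
    intro N hN
    induction N, hN using Nat.le_induction with
    | base => simp
    | succ N hN ih =>
      rw [Finset.sum_Icc_succ_top (by omega), Finset.sum_Icc_succ_top (by omega)]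
      have hN0 : (0 : ℝ) < N := by exact_mod_cast hN
      have hN1 : (0 : ℝ) < ((N + 1 : ℕ) : ℝ) := by positivity
      have hmono : ((N + 1 : ℕ) : ℝ) ^ (-δ) ≤ (N : ℝ) ^ (-δ) := by
        apply Real.rpow_le_rpow_of_nonpos hN0 _ (by linarith)
        push_cast
        linarith
      have hS := hf N hN
      -- δ log((N+1)/N) (N+1)^{-δ} ≤ N^{-δ} - (N+1)^{-δ}
      have hlog : δ * (Real.log ((N + 1 : ℕ) : ℝ) - Real.log N) * ((N + 1 : ℕ) : ℝ) ^ (-δ) ≤
          (N : ℝ) ^ (-δ) - ((N + 1 : ℕ) : ℝ) ^ (-δ) := by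
        have e1 : (N : ℝ) ^ (-δ) = Real.exp (δ * (Real.log ((N + 1 : ℕ) : ℝ) - Real.log N)) *
            ((N + 1 : ℕ) : ℝ) ^ (-δ) := by
          rw [Real.rpow_def_of_pos hN0, Real.rpow_def_of_pos hN1, ← Real.exp_add]
          congr 1
          ring
        have e2 := Real.add_one_le_exp (δ * (Real.log ((N + 1 : ℕ) : ℝ) - Real.log N))
        have e3 : 0 ≤ ((N + 1 : ℕ) : ℝ) ^ (-δ) := by positivity
        rw [e1]
        nlinarith
      have hlog2 : B * (Real.log ((N + 1 : ℕ) : ℝ) - Real.log N) * ((N + 1 : ℕ) : ℝ) ^ (-δ) ≤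
          B / δ * ((N : ℝ) ^ (-δ) - ((N + 1 : ℕ) : ℝ) ^ (-δ)) := by
        have := mul_le_mul_of_nonneg_left hlog (div_nonneg hB hδ.le)
        refine le_trans (le_of_eq ?_) this
        field_simp
      have h4 : (∑ n ∈ Finset.Icc 1 N, f n - (A + B * Real.log N)) *
          ((N : ℝ) ^ (-δ) - ((N + 1 : ℕ) : ℝ) ^ (-δ)) ≤ 0 :=
        mul_nonpos_of_nonpos_of_nonneg (by linarith) (by linarith)
      nlinarith
  refine (key N hN).trans ?_
  have h5 : (∑ n ∈ Finset.Icc 1 N, f n - (A + B * Real.log N)) * (N : ℝ) ^ (-δ) ≤ 0 :=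
    mul_nonpos_of_nonpos_of_nonneg (by linarith [hf N hN]) (by positivity)
  linarith

lemma ps_eq_Icc (x : ℕ → ℝ) (N : ℕ) :
    ps x N = ∑ n ∈ Finset.Icc 1 N, (if n.Prime then x n / (n : ℝ) else 0) := by
  unfold ps
  rw [Nat.floor_natCast, Finset.sum_filter, Finset.range_eq_Ico]
  rw [Finset.sum_eq_sum_Ico_succ_bot (by omega), if_neg Nat.not_prime_zero, zero_add]
  rfl

/-- from `∑_{p ≤ X} x p / p ≤ κ log log X + C` to Abel sums -/
lemma abel_upper {x : ℕ → ℝ} (h0 : ∀ p : ℕ, p.Prime → 0 ≤ x p) {κ C : ℝ} (hκ : 0 ≤ κ)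
    (h : ∀ X : ℝ, 3 ≤ X → ps x X ≤ κ * Real.log (Real.log X) + C) {δ : ℝ} (hδ : 0 < δ)
    (hδ1 : δ ≤ 1) :
    ∑' n : ℕ, (if n.Prime then x n * (n : ℝ) ^ (-(1 + δ)) else 0) ≤
      κ * Real.log (1 / δ) + (κ + |C| + |x 2|) := by
  obtain ⟨f, hf⟩ : ∃ f : ℕ → ℝ, f = fun n => if n.Prime then x n / (n : ℝ) else 0 := ⟨_, rfl⟩
  have hf0 : ∀ n, 0 ≤ f n := fun n => by
    rw [hf]
    show 0 ≤ (if n.Prime then x n / (n : ℝ) else 0)
    split_ifs with hn
    · exact div_nonneg (h0 n hn) (Nat.cast_nonneg _)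
    · exact le_rfl
  have hL : 0 ≤ Real.log (1 / δ) := Real.log_nonneg (by rw [le_div_iff₀ hδ]; linarith)
  have hpart : ∀ N : ℕ, 1 ≤ N → ∑ n ∈ Finset.Icc 1 N, f n ≤
      (κ * Real.log (1 / δ) + (|C| + |x 2|)) + (κ * δ) * Real.log N := by
    intro N hN
    have hlogN : 0 ≤ Real.log N := Real.log_natCast_nonneg N
    rcases Nat.lt_or_ge N 3 with h3 | h3
    · have hle : ∑ n ∈ Finset.Icc 1 N, f n ≤ |x 2| := by
        have : N = 1 ∨ N = 2 := by omega
        rcases this with rfl | rfl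
        · simp [hf, Nat.not_prime_one]
        · rw [Finset.sum_Icc_succ_top (by norm_num), Finset.Icc_self, Finset.sum_singleton]
          simp only [hf, Nat.not_prime_one, if_false, zero_add]
          rw [if_pos Nat.prime_two]
          have h2 := h0 2 Nat.prime_two
          rw [abs_of_nonneg h2]
          push_cast
          linarith
      have : 0 ≤ κ * Real.log (1 / δ) := mul_nonneg hκ hL
      have : 0 ≤ κ * δ * Real.log N := by positivity
      have := abs_nonneg C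
      linarith
    · have hN3 : (3 : ℝ) ≤ N := by exact_mod_cast h3
      have h4 := h N hN3
      rw [ps_eq_Icc] at h4
      have h5 : Real.log (Real.log N) ≤ Real.log (1 / δ) + δ * Real.log N := by
        have hlogN1 : 0 < Real.log N := Real.log_pos (by linarith)
        have e1 : Real.log (Real.log N) = Real.log (1 / δ) + Real.log (δ * Real.log N) := by
          rw [← Real.log_mul (by positivity) (by positivity)]
          congr 1
          field_simp
        rw [e1]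
        have e2 := Real.log_le_sub_one_of_pos (show 0 < δ * Real.log N by positivity)
        linarith
      have h6 := mul_le_mul_of_nonneg_left h5 hκ
      have h7 := le_abs_self C
      have h8 := abs_nonneg (x 2)
      have e : ∑ n ∈ Finset.Icc 1 N, f n =
          ∑ n ∈ Finset.Icc 1 N, (if n.Prime then x n / (n : ℝ) else 0) := by rw [hf]
      rw [e]
      nlinarith
  have hterm : ∀ n : ℕ, (if n.Prime then x n * (n : ℝ) ^ (-(1 + δ)) else 0) =
      f n * (n : ℝ) ^ (-δ) := by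
    intro n
    rw [hf]
    show _ = (if n.Prime then x n / (n : ℝ) else 0) * (n : ℝ) ^ (-δ)
    split_ifs with hn
    · have hn0 : (0 : ℝ) < n := by exact_mod_cast hn.pos
      rw [neg_add, Real.rpow_add hn0, Real.rpow_neg_one]
      ring
    · rw [zero_mul]
  simp only [hterm]
  apply Real.tsum_le_of_sum_range_le
  · intro n
    exact mul_nonneg (hf0 n) (by positivity)
  · intro N
    have h9 := parts_bound hδ (by positivity) hpart (N + 1) (by omega)
    have h10 : ∑ n ∈ Finset.range N, f n * (n : ℝ) ^ (-δ) ≤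
        ∑ n ∈ Finset.Icc 1 (N + 1), f n * (n : ℝ) ^ (-δ) := by
      have h11 : ∑ n ∈ Finset.range N, f n * (n : ℝ) ^ (-δ) ≤
          ∑ n ∈ Finset.range (N + 2), f n * (n : ℝ) ^ (-δ) := by
        refine Finset.sum_le_sum_of_subset_of_nonneg ?_ fun n _ _ =>
          mul_nonneg (hf0 n) (by positivity)
        intro n hn
        rw [Finset.mem_range] at hn ⊢
        omega
      refine h11.trans (le_of_eq ?_)
      rw [Finset.range_eq_Ico, Finset.sum_eq_sum_Ico_succ_bot (by omega)]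
      have : f 0 = 0 := by rw [hf]; simp [Nat.not_prime_zero]
      rw [this, zero_mul, zero_add]
      rfl
    refine h10.trans (h9.trans ?_)
    have h12 : κ * δ / δ = κ := by field_simp
    have h13 : 0 ≤ ((N + 1 : ℕ) : ℝ) ^ (-δ) := by positivity
    rw [h12]
    nlinarith

/-- **the lower bound for every element of the class** -/
theorem lower_all {q : ℕ} [NeZero q] {J : Type*} [Fintype J] {t : J → ℝ}
    {X : J → DirichletCharacter ℂ q} {a b : ℕ → ℂ} (h : Arith a b)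
    (hinj : Function.Injective (fun j => (t j, X j))) {d : J → ℤ}
    (hd : ∀ j, HasOrd (tw (X j) a) (t j) (d j)) {κ C : ℝ}
    (hup : ∀ X : ℝ, 3 ≤ X → ps (fun p => ‖a p‖ ^ 2) X ≤ κ * Real.log (Real.log X) + C) :
    ∑ j, (d j : ℝ) ^ 2 ≤ κ := by
  have hκ : 0 ≤ κ := by
    by_contra hneg
    push Not at hneg
    obtain ⟨X, hX, hXC⟩ := loglog_unbounded (C / (-κ))
    have h1 := hup X hX
    have h2 : 0 ≤ ps (fun p => ‖a p‖ ^ 2) X := ps_nonneg (fun p _ => by positivity) X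
    rw [div_lt_iff₀ (by linarith)] at hXC
    nlinarith
  obtain ⟨C1, h1⟩ := abel_lower h hinj hd
  by_contra hlt
  push Not at hlt
  obtain ⟨e, he⟩ : ∃ e : ℝ, e = ∑ j, (d j : ℝ) ^ 2 - κ := ⟨_, rfl⟩
  have he0 : 0 < e := by rw [he]; linarith
  obtain ⟨K, hK⟩ : ∃ K : ℝ, K = C1 + (κ + |C| + |‖a 2‖ ^ 2|) := ⟨_, rfl⟩
  obtain ⟨δ, hδ⟩ : ∃ δ : ℝ, δ = Real.exp (-((|K| + 1) / e)) := ⟨_, rfl⟩
  have hδ0 : 0 < δ := by rw [hδ]; exact Real.exp_pos _
  have hδ1 : δ ≤ 1 := by
    rw [hδ, Real.exp_le_one_iff, neg_nonpos]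
    positivity
  have h3 := h1 δ hδ0 hδ1
  have h4 := abel_upper (x := fun p => ‖a p‖ ^ 2) (fun p _ => by positivity) hκ hup hδ0 hδ1
  have hlog : Real.log (1 / δ) = (|K| + 1) / e := by
    rw [hδ, one_div, Real.log_inv, Real.log_exp, neg_neg]
  rw [hlog] at h3 h4
  have h5 : (∑ j, (d j : ℝ) ^ 2) * ((|K| + 1) / e) - κ * ((|K| + 1) / e) = |K| + 1 := by
    rw [← sub_mul, ← he]
    field_simp
  have h6 := le_abs_self K
  have h7 := h3.trans h4
  linarith

end Pool.Agent.Selb
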