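import Pool.Agent.Selb.TwoC

/-!
# Selb/TwoD: the Tauberian comparison under a block condition

Instead of boundedness it is enough that `∑_{u < log p ≤ 2u} |w p| / p` is bounded for `u ≥ 1`.
-/

set_option autoImplicit false

open Complex Metric Filter Topology LSeries

namespace Pool.Agent.Selb

/-- the sum of `x p / p` over the primes with `u < log p ≤ v` -/
noncomputable def bl (x : ℕ → ℝ) (u v : ℝ) : ℝ := ∑ p ∈ FZ.prs u v, x p / (p : ℝ)

lemma bl_nonneg {x : ℕ → ℝ} (h : ∀ p, 0 ≤ x p) (u v : ℝ) : 0 ≤ bl x u v := by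
  unfold bl
  exact Finset.sum_nonneg fun p _ => div_nonneg (h p) (Nat.cast_nonneg _)

lemma bl_mono {x y : ℕ → ℝ} (h : ∀ p : ℕ, p.Prime → x p ≤ y p) (u v : ℝ) : bl x u v ≤ bl y u v := by
  unfold bl
  refine Finset.sum_le_sum fun p hp => ?_
  have := h p (FZ.mem_prs.1 hp).1
  gcongr

lemma bl_split (x : ℕ → ℝ) {a b c : ℝ} (hab : a ≤ b) (hbc : b ≤ c) :
    bl x a c = bl x a b + bl x b c := FZ.prs_split hab hbc (fun p => x p / (p : ℝ))

lemma bl_subset {x : ℕ → ℝ} (h : ∀ p, 0 ≤ x p) {u v u' v' : ℝ} (hu : u' ≤ u) (hv : v ≤ v') :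
    bl x u v ≤ bl x u' v' := by
  unfold bl
  refine Finset.sum_le_sum_of_subset_of_nonneg ?_ fun p _ _ => div_nonneg (h p) (Nat.cast_nonneg _)
  intro p hp
  rw [FZ.mem_prs] at hp ⊢
  exact ⟨hp.1, hu.trans_lt hp.2.1, hp.2.2.trans hv⟩

lemma prs_zero {X : ℝ} (hX : 1 ≤ X) :
    FZ.prs 0 (Real.log X) = (Finset.range (⌊X⌋₊ + 1)).filter Nat.Prime := by
  ext p
  rw [FZ.mem_prs, Finset.mem_filter, Finset.mem_range]
  have hX0 : 0 < X := by linarith
  constructor
  · rintro ⟨hp, -, h2⟩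
    have hp0 : (0 : ℝ) < p := by exact_mod_cast hp.pos
    have h3 : (p : ℝ) ≤ X := (Real.log_le_log_iff hp0 hX0).1 h2
    exact ⟨Nat.lt_succ_of_le (Nat.le_floor h3), hp⟩
  · rintro ⟨h1, hp⟩
    have hp0 : (0 : ℝ) < p := by exact_mod_cast hp.pos
    have h3 : (p : ℝ) ≤ X := by
      have : p ≤ ⌊X⌋₊ := Nat.lt_succ_iff.1 h1
      exact (Nat.cast_le.2 this).trans (Nat.floor_le hX0.le)
    exact ⟨hp, Real.log_pos (by exact_mod_cast hp.one_lt), Real.log_le_log hp0 h3⟩

lemma ps_eq_bl (x : ℕ → ℝ) {X : ℝ} (hX : 1 ≤ X) : ps x X = bl x 0 (Real.log X) := by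
  unfold ps bl
  rw [prs_zero hX]

/-- the block condition -/
def Blk (x : ℕ → ℝ) : Prop := ∃ B : ℝ, ∀ u : ℝ, 1 ≤ u → bl x u (2 * u) ≤ B

lemma Blk.of_Mn {x : ℕ → ℝ} (h0 : ∀ p, 0 ≤ x p) {κ : ℝ} (h : Mn x κ) : Blk x := by
  obtain ⟨C, hC⟩ := h
  refine ⟨max (bl x 0 4) (κ * Real.log 2 + 2 * C), fun u hu => ?_⟩
  rcases le_total u 2 with h2 | h2
  · refine le_trans ?_ (le_max_left _ _)
    exact bl_subset h0 (by linarith) (by linarith)
  · refine le_trans ?_ (le_max_right _ _)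
    have hu0 : 0 < u := by linarith
    have h3 : ∀ v : ℝ, 2 ≤ v → 3 ≤ Real.exp v := fun v hv => by
      have := Real.add_one_le_exp v
      linarith
    have h4 := hC (Real.exp u) (h3 u h2)
    have h5 := hC (Real.exp (2 * u)) (h3 (2 * u) (by linarith))
    rw [ps_eq_bl x (by linarith [h3 u h2]), Real.log_exp] at h4
    rw [ps_eq_bl x (by linarith [h3 (2 * u) (by linarith)]), Real.log_exp] at h5
    have h6 := bl_split x (a := 0) (b := u) (c := 2 * u) hu0.le (by linarith)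
    have h7 : Real.log (2 * u) = Real.log 2 + Real.log u := Real.log_mul (by norm_num) hu0.ne'
    rw [h7] at h5
    have h8 := (abs_le.1 h4).1
    have h9 := (abs_le.1 h5).2
    nlinarith

lemma Blk.mono {x y : ℕ → ℝ} (h : Blk y) (hxy : ∀ p : ℕ, p.Prime → x p ≤ y p) : Blk x := by
  obtain ⟨B, hB⟩ := h
  exact ⟨B, fun u hu => (bl_mono hxy u _).trans (hB u hu)⟩

lemma bl_add (x y : ℕ → ℝ) (u v : ℝ) : bl (fun p => x p + y p) u v = bl x u v + bl y u v := by
  unfold bl
  rw [← Finset.sum_add_distrib]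
  exact Finset.sum_congr rfl fun p _ => by ring

lemma bl_mul (c : ℝ) (x : ℕ → ℝ) (u v : ℝ) : bl (fun p => c * x p) u v = c * bl x u v := by
  unfold bl
  rw [Finset.mul_sum]
  exact Finset.sum_congr rfl fun p _ => by ring

lemma Blk.add {x y : ℕ → ℝ} (hx : Blk x) (hy : Blk y) : Blk (fun p => x p + y p) := by
  obtain ⟨B, hB⟩ := hx
  obtain ⟨D, hD⟩ := hy
  exact ⟨B + D, fun u hu => by rw [bl_add]; exact add_le_add (hB u hu) (hD u hu)⟩

lemma Blk.mul {x : ℕ → ℝ} (hx : Blk x) {c : ℝ} (hc : 0 ≤ c) : Blk (fun p => c * x p) := by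
  obtain ⟨B, hB⟩ := hx
  exact ⟨c * B, fun u hu => by rw [bl_mul]; exact mul_le_mul_of_nonneg_left (hB u hu) hc⟩

lemma Blk.const (c : ℝ) (hc : 0 ≤ c) : Blk (fun _ => c) :=
  Blk.of_Mn (fun _ => hc) (Mn_const c)

/-! ### head and tail -/

private lemma head_aux {x : ℕ → ℝ} (h0 : ∀ p, 0 ≤ x p) {B : ℝ}
    (hB : ∀ u : ℝ, 1 ≤ u → bl x u (2 * u) ≤ B) (n : ℕ) : ∀ L : ℝ, 2 * 2 ^ n ≤ L → L ≤ 4 * 2 ^ n →
      bl (fun p => x p * Real.log p) 0 L ≤ bl (fun p => x p * Real.log p) 0 4 + 2 * B * L := by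
  have hBnn : 0 ≤ B := (bl_nonneg h0 1 (2 * 1)).trans (hB 1 le_rfl)
  have hx0 : ∀ p : ℕ, 0 ≤ x p * Real.log p := fun p =>
    mul_nonneg (h0 p) (Real.log_natCast_nonneg p)
  induction n with
  | zero =>
    intro L h1 h2
    rw [pow_zero, mul_one] at h1 h2
    have h3 := bl_subset hx0 (le_refl 0) h2
    have : 0 ≤ 2 * B * L := by positivity
    linarith
  | succ n ih =>
    intro L h1 h2
    have hpow : (1 : ℝ) ≤ 2 ^ n := one_le_pow₀ (by norm_num)
    rw [pow_succ] at h1 h2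
    have hL0 : 0 ≤ L := by nlinarith
    have h3 := ih (L / 2) (by linarith) (by linarith)
    have h4 := bl_split (fun p => x p * Real.log p) (a := 0) (b := L / 2) (c := L) (by linarith)
      (by linarith)
    have h5 : bl (fun p => x p * Real.log p) (L / 2) L ≤ L * B := by
      have h6 := hB (L / 2) (by linarith)
      have e : 2 * (L / 2) = L := by ring
      rw [e] at h6
      have h7 : bl (fun p => x p * Real.log p) (L / 2) L ≤ bl (fun p => L * x p) (L / 2) L := by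
        unfold bl
        refine Finset.sum_le_sum fun p hp => ?_
        rw [FZ.mem_prs] at hp
        have h8 : x p * Real.log p ≤ L * x p := by
          rw [mul_comm]
          exact mul_le_mul_of_nonneg_right hp.2.2 (h0 p)
        gcongr
      rw [bl_mul] at h7
      exact h7.trans (mul_le_mul_of_nonneg_left h6 hL0)
    rw [h4]
    linarith

private lemma head_bound {x : ℕ → ℝ} (h0 : ∀ p, 0 ≤ x p) {B : ℝ}
    (hB : ∀ u : ℝ, 1 ≤ u → bl x u (2 * u) ≤ B) {L : ℝ} (hL : 1 ≤ L) :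
    bl (fun p => x p * Real.log p) 0 L ≤ bl (fun p => x p * Real.log p) 0 4 + 2 * B * L := by
  have hBnn : 0 ≤ B := (bl_nonneg h0 1 (2 * 1)).trans (hB 1 le_rfl)
  have hx0 : ∀ p : ℕ, 0 ≤ x p * Real.log p := fun p =>
    mul_nonneg (h0 p) (Real.log_natCast_nonneg p)
  rcases le_total L 4 with h4 | h4
  · have h3 := bl_subset hx0 (le_refl 0) h4
    have : 0 ≤ 2 * B * L := by positivity
    linarith
  · -- choose n with 2 * 2^n ≤ L < 4 * 2^n
    obtain ⟨n, hn1, hn2⟩ := exists_nat_pow_near (x := L / 2) (y := 2) (by linarith) (by norm_num)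
    refine head_aux h0 hB n L ?_ ?_
    · linarith
    · rw [pow_succ] at hn2
      linarith

private lemma tail_block {x : ℕ → ℝ} (h0 : ∀ p, 0 ≤ x p) {B : ℝ}
    (hB : ∀ u : ℝ, 1 ≤ u → bl x u (2 * u) ≤ B) {L : ℝ} (hL : 1 ≤ L) (k : ℕ) :
    ∑ p ∈ FZ.prs (2 ^ k * L) (2 ^ (k + 1) * L), x p * (p : ℝ) ^ (-(1 + 1 / L)) ≤ (1 / 2) ^ k * B := by
  have hL0 : 0 < L := by linarith
  have hpow : (1 : ℝ) ≤ 2 ^ k := one_le_pow₀ (by norm_num)
  have h1 : ∀ p ∈ FZ.prs (2 ^ k * L) (2 ^ (k + 1) * L),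
      x p * (p : ℝ) ^ (-(1 + 1 / L)) ≤ (1 / 2) ^ k * (x p / p) := by
    intro p hp
    rw [FZ.mem_prs] at hp
    obtain ⟨hp1, hp2, -⟩ := hp
    have hp0 : (0 : ℝ) < p := by exact_mod_cast hp1.pos
    have h2 : (p : ℝ) ^ (-(1 + 1 / L)) = (p : ℝ) ^ (-(1 / L)) / p := by
      rw [neg_add, Real.rpow_add hp0, Real.rpow_neg_one]
      field_simp
    have h3 : (p : ℝ) ^ (-(1 / L)) ≤ (1 / 2) ^ k := by
      rw [Real.rpow_def_of_pos hp0]
      have h4 : Real.log p * -(1 / L) ≤ -(2 ^ k : ℝ) := by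
        rw [mul_neg, neg_le_neg_iff, mul_one_div, le_div_iff₀ hL0]
        exact hp2.le
      refine (Real.exp_le_exp.2 h4).trans ?_
      rw [Real.exp_neg, one_div, inv_pow]
      apply inv_anti₀ (by positivity)
      have := Real.add_one_le_exp ((2 : ℝ) ^ k)
      linarith
    rw [h2]
    have h5 := h0 p
    calc x p * ((p : ℝ) ^ (-(1 / L)) / p) ≤ x p * ((1 / 2) ^ k / p) := by gcongr
      _ = (1 / 2) ^ k * (x p / p) := by ring
  refine (Finset.sum_le_sum h1).trans ?_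
  rw [← Finset.mul_sum]
  apply mul_le_mul_of_nonneg_left _ (by positivity)
  have h6 := hB (2 ^ k * L) (by nlinarith)
  have e : 2 * (2 ^ k * L) = 2 ^ (k + 1) * L := by ring
  rw [e] at h6
  exact h6

private lemma tail_sum {x : ℕ → ℝ} (h0 : ∀ p, 0 ≤ x p) {B : ℝ}
    (hB : ∀ u : ℝ, 1 ≤ u → bl x u (2 * u) ≤ B) {L : ℝ} (hL : 1 ≤ L) (K : ℕ) :
    ∑ p ∈ FZ.prs L (2 ^ K * L), x p * (p : ℝ) ^ (-(1 + 1 / L)) ≤ 2 * B * (1 - (1 / 2) ^ K) := by
  have hL0 : 0 < L := by linarith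
  induction K with
  | zero =>
    have : FZ.prs L (2 ^ 0 * L) = ∅ := by
      ext p
      rw [FZ.mem_prs]
      simp only [pow_zero, one_mul, Finset.notMem_empty, iff_false]
      rintro ⟨-, h1, h2⟩
      linarith
    rw [this]
    simp
  | succ K ih =>
    have hpow : (1 : ℝ) ≤ 2 ^ K := one_le_pow₀ (by norm_num)
    have h1 : L ≤ 2 ^ K * L := by nlinarith
    rw [FZ.prs_split (a := L) (b := 2 ^ K * L) (c := 2 ^ (K + 1) * L) h1
      (by rw [pow_succ]; nlinarith)]
    have h2 := tail_block h0 hB hL K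
    refine (add_le_add ih h2).trans (le_of_eq ?_)
    rw [pow_succ]
    ring

/-- **Tauberian comparison under the block condition** -/
theorem tauber2 {w : ℕ → ℝ} (hb : Blk (fun p => |w p|)) {κ C : ℝ}
    (hs : ∀ δ : ℝ, 0 < δ → δ ≤ 1 →
      Summable (fun n : ℕ => if n.Prime then w n * (n : ℝ) ^ (-(1 + δ)) else 0))
    (h : ∀ δ : ℝ, 0 < δ → δ ≤ 1 →
      |∑' n : ℕ, (if n.Prime then w n * (n : ℝ) ^ (-(1 + δ)) else 0) - κ * Real.log (1 / δ)| ≤ C) :
    Mn w κ := by
  obtain ⟨B, hB⟩ := hb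
  have h0 : ∀ p, 0 ≤ |w p| := fun p => abs_nonneg _
  have hBnn : 0 ≤ B := (bl_nonneg h0 1 (2 * 1)).trans (hB 1 le_rfl)
  obtain ⟨A, hA⟩ : ∃ A : ℝ, A = bl (fun p => |w p| * Real.log p) 0 4 := ⟨_, rfl⟩
  have hA0 : 0 ≤ A := by
    rw [hA]
    exact bl_nonneg (fun p => mul_nonneg (h0 p) (Real.log_natCast_nonneg p)) _ _
  refine ⟨C + ((A + 2 * B) + 2 * B), fun X hX => ?_⟩
  have hX0 : 0 < X := by linarith
  obtain ⟨L, hL⟩ : ∃ L : ℝ, L = Real.log X := ⟨_, rfl⟩
  have hL1 : 1 ≤ L := by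
    rw [hL, Real.le_log_iff_exp_le hX0]
    have := Real.exp_one_lt_d9
    linarith
  have hL0 : 0 < L := by linarith
  have hδ : 0 < 1 / L := by positivity
  have hδ1 : 1 / L ≤ 1 := by rw [div_le_one hL0]; exact hL1
  have h1 := h (1 / L) hδ hδ1
  rw [one_div_one_div] at h1
  rw [← hL]
  obtain ⟨N, hN⟩ : ∃ N, N = ⌊X⌋₊ + 1 := ⟨_, rfl⟩
  unfold ps
  rw [← hN]
  obtain ⟨f, hf⟩ : ∃ f : ℕ → ℝ, f = fun n : ℕ =>
    if n.Prime then w n * (n : ℝ) ^ (-(1 + 1 / L)) else 0 := ⟨_, rfl⟩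
  have hfs : Summable f := by rw [hf]; exact hs (1 / L) hδ hδ1
  have hsplit := hfs.sum_add_tsum_nat_add N
  have hfle : ∀ n : ℕ, ‖f n‖ ≤ |w n| * (n : ℝ) ^ (-(1 + 1 / L)) := by
    intro n
    rw [hf]
    show ‖(if n.Prime then w n * (n : ℝ) ^ (-(1 + 1 / L)) else 0)‖ ≤ _
    split_ifs
    · rw [Real.norm_eq_abs, abs_mul, abs_of_nonneg (a := (n : ℝ) ^ (-(1 + 1 / L))) (by positivity)]
    · rw [norm_zero]; positivity
  -- the tail
  have htail : |∑' n, f (n + N)| ≤ 2 * B := by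
    have hs1 : Summable fun n => ‖f (n + N)‖ :=
      (summable_nat_add_iff (f := fun n => ‖f n‖) N).2 hfs.norm
    refine (norm_tsum_le_tsum_norm hs1).trans ?_
    apply Real.tsum_le_of_sum_range_le (fun n => norm_nonneg _)
    intro M
    obtain ⟨K, hK⟩ := pow_unbounded_of_one_lt (Real.log (M + N)) (one_lt_two (α := ℝ))
    have hK' : Real.log (M + N) ≤ 2 ^ K * L := by
      have : (0 : ℝ) < 2 ^ K := by positivity
      nlinarith
    have h3 : ∑ n ∈ Finset.range M, ‖f (n + N)‖ =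
        ∑ p ∈ (Finset.range M).image (fun n => n + N), ‖f p‖ := by
      rw [Finset.sum_image]
      intro a _ b _ hab
      simpa using hab
    rw [h3]
    have h4 : ∑ p ∈ (Finset.range M).image (fun n => n + N), ‖f p‖ =
        ∑ p ∈ ((Finset.range M).image (fun n => n + N)).filter Nat.Prime, ‖f p‖ := by
      rw [Finset.sum_filter]
      apply Finset.sum_congr rfl
      intro p _
      by_cases hp : p.Prime
      · rw [if_pos hp]
      · rw [if_neg hp, hf]
        show ‖(if p.Prime then w p * (p : ℝ) ^ (-(1 + 1 / L)) else 0)‖ = 0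
        rw [if_neg hp, norm_zero]
    rw [h4]
    have h5 : ∑ p ∈ ((Finset.range M).image (fun n => n + N)).filter Nat.Prime, ‖f p‖ ≤
        ∑ p ∈ FZ.prs L (2 ^ K * L), |w p| * (p : ℝ) ^ (-(1 + 1 / L)) := by
      refine (Finset.sum_le_sum fun p _ => hfle p).trans ?_
      refine Finset.sum_le_sum_of_subset_of_nonneg ?_ fun p _ _ => by positivity
      intro p hp
      rw [Finset.mem_filter, Finset.mem_image] at hp
      obtain ⟨⟨n, hn, hnp⟩, hp⟩ := hp
      rw [Finset.mem_range] at hn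
      rw [FZ.mem_prs]
      have hp0 : (0 : ℝ) < p := by exact_mod_cast hp.pos
      refine ⟨hp, ?_, ?_⟩
      · rw [hL]
        apply Real.log_lt_log hX0
        have : X < (N : ℝ) := by
          rw [hN]; push_cast; exact Nat.lt_floor_add_one X
        refine this.trans_le ?_
        rw [← hnp]
        push_cast
        have : (0 : ℝ) ≤ n := Nat.cast_nonneg n
        linarith
      · refine le_trans (Real.log_le_log hp0 ?_) hK'
        rw [← hnp]
        push_cast
        have : (n : ℝ) ≤ M := by exact_mod_cast hn.le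
        linarith
    refine h5.trans ((tail_sum h0 hB hL1 K).trans ?_)
    have : (0 : ℝ) ≤ (1 / 2) ^ K := by positivity
    nlinarith
  -- the head
  have hhead : |∑ p ∈ (Finset.range N).filter Nat.Prime, w p / (p : ℝ) -
      ∑ n ∈ Finset.range N, f n| ≤ A + 2 * B := by
    have h2 : ∑ n ∈ Finset.range N, f n =
        ∑ p ∈ (Finset.range N).filter Nat.Prime, w p * (p : ℝ) ^ (-(1 + 1 / L)) := by
      rw [Finset.sum_filter, hf]
    rw [h2, ← Finset.sum_sub_distrib]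
    refine (Finset.abs_sum_le_sum_abs _ _).trans ?_
    have h3 : ∀ p ∈ (Finset.range N).filter Nat.Prime,
        |w p / (p : ℝ) - w p * (p : ℝ) ^ (-(1 + 1 / L))| ≤ 1 / L * (|w p| * Real.log p / p) := by
      intro p hp
      rw [Finset.mem_filter] at hp
      have hp0 : (0 : ℝ) < p := by exact_mod_cast hp.2.pos
      have hp1 : (1 : ℝ) ≤ p := by exact_mod_cast hp.2.one_lt.le
      have h4 : (p : ℝ) ^ (-(1 + 1 / L)) = (p : ℝ) ^ (-(1 / L)) / p := by
        rw [neg_add, Real.rpow_add hp0, Real.rpow_neg_one]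
        field_simp
      have h5 : w p / (p : ℝ) - w p * (p : ℝ) ^ (-(1 + 1 / L)) =
          w p * ((1 - (p : ℝ) ^ (-(1 / L))) / p) := by
        rw [h4]; ring
      have h6 : 1 - (p : ℝ) ^ (-(1 / L)) ≤ Real.log p / L := by
        rw [Real.rpow_def_of_pos hp0]
        have := Real.add_one_le_exp (Real.log p * -(1 / L))
        have h7 : Real.log p * -(1 / L) = -(Real.log p / L) := by ring
        rw [h7] at this ⊢
        linarith
      have h8 : 0 ≤ 1 - (p : ℝ) ^ (-(1 / L)) := by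
        have : (p : ℝ) ^ (-(1 / L)) ≤ 1 :=
          Real.rpow_le_one_of_one_le_of_nonpos hp1 (by linarith)
        linarith
      rw [h5, abs_mul, abs_of_nonneg (div_nonneg h8 hp0.le)]
      calc |w p| * ((1 - (p : ℝ) ^ (-(1 / L))) / p) ≤ |w p| * ((Real.log p / L) / p) := by
            apply mul_le_mul_of_nonneg_left _ (abs_nonneg _)
            exact div_le_div_of_nonneg_right h6 hp0.le
        _ = 1 / L * (|w p| * Real.log p / p) := by ring
    refine (Finset.sum_le_sum h3).trans ?_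
    rw [← Finset.mul_sum]
    have h9 := head_bound h0 hB hL1
    have h10 : ∑ p ∈ (Finset.range N).filter Nat.Prime, |w p| * Real.log p / (p : ℝ) =
        bl (fun p => |w p| * Real.log p) 0 L := by
      unfold bl
      rw [hL, prs_zero (by linarith), hN]
    rw [h10]
    rw [← hA] at h9
    calc 1 / L * bl (fun p => |w p| * Real.log p) 0 L ≤ 1 / L * (A + 2 * B * L) :=
          mul_le_mul_of_nonneg_left h9 hδ.le
      _ = A / L + 2 * B := by field_simp
      _ ≤ A + 2 * B := by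
          have : A / L ≤ A := div_le_self hA0 hL1
          linarith
  have hT : (∑' n : ℕ, (if n.Prime then w n * (n : ℝ) ^ (-(1 + 1 / L)) else 0)) = ∑' n, f n := by
    rw [hf]
  rw [hT, ← hsplit] at h1
  rw [abs_le] at h1 htail hhead ⊢
  constructor <;> linarith [h1.1, h1.2, htail.1, htail.2, hhead.1, hhead.2]

/-- **the mean value of `conj(c) p^{-it} y_p`** under the block condition for `1 + |y_p|²` -/
theorem Mn_cross {y : ℕ → ℂ} (hblk : Blk (fun p => 1 + ‖y p‖ ^ 2)) {t : ℝ}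
    {d : ℤ} (hd : HasOrd y t d) (c : ℂ) :
    Mn (fun p => ((starRingEnd ℂ) c * osc t p * y p).re) (-(c.re * d)) := by
  classical
  obtain ⟨hLs0, C1, h1⟩ := hd
  obtain ⟨w, hw⟩ : ∃ w : ℕ → ℝ, w = fun n : ℕ => ((starRingEnd ℂ) c * osc t n * pa y n).re :=
    ⟨_, rfl⟩
  have hLs : ∀ δ : ℝ, 0 < δ → LSeriesSummable (pa y) (1 + δ + t * I) := fun δ h0 =>
    hLs0 _ (by
      have : ((1 : ℂ) + δ + t * I).re = 1 + δ := by simp
      rw [this]; linarith)
  have hterm : ∀ (δ : ℝ) (n : ℕ), (if n.Prime then w n * (n : ℝ) ^ (-(1 + δ)) else 0) =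
      ((starRingEnd ℂ) c * term (pa y) (1 + δ + t * I) n).re := by
    intro δ n
    rcases Nat.eq_zero_or_pos n with hn0 | hn
    · subst hn0
      rw [if_neg Nat.not_prime_zero, term_zero, mul_zero, Complex.zero_re]
    · rw [term_of_ne_zero hn.ne', div_eq_mul_one_div, OscAAux.cpow_pt hn]
      by_cases hp : n.Prime
      · rw [if_pos hp, hw]
        show ((starRingEnd ℂ) c * osc t n * pa y n).re * (n : ℝ) ^ (-(1 + δ)) = _
        rw [← Complex.re_mul_ofReal]
        congr 1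
        ring
      · rw [if_neg hp]
        have : pa y n = 0 := by unfold pa; rw [if_neg hp]
        rw [this, zero_mul, mul_zero, Complex.zero_re]
  have hwb : Blk (fun p => |w p|) := by
    refine (hblk.mul (norm_nonneg c)).mono fun p hp => ?_
    rw [hw]
    refine (Complex.abs_re_le_norm _).trans ?_
    rw [norm_mul, norm_mul, RCLike.norm_conj, norm_osc t hp.pos, mul_one]
    refine mul_le_mul_of_nonneg_left ?_ (norm_nonneg _)
    unfold pa
    rw [if_pos hp]
    nlinarith [sq_nonneg (‖y p‖ - 1)]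
  have hMw : Mn w (-(c.re * d)) := by
    refine tauber2 hwb (C := ‖c‖ * C1) (fun δ h0 h3 => ?_) (fun δ h0 h3 => ?_)
    · simp only [hterm]
      exact (Complex.hasSum_re ((hLs δ h0).mul_left _).hasSum).summable
    · simp only [hterm]
      have h5 := h1 δ h0 h3
      have e0 : ∑' n, ((starRingEnd ℂ) c * term (pa y) (1 + δ + t * I) n).re =
          ((starRingEnd ℂ) c * LSeries (pa y) (1 + δ + t * I)).re := by
        unfold LSeries
        rw [← tsum_mul_left]
        exact (Complex.hasSum_re ((hLs δ h0).mul_left _).hasSum).tsum_eq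
      rw [e0]
      have e1 : ((starRingEnd ℂ) c * LSeries (pa y) (1 + δ + t * I)).re -
          -(c.re * d) * Real.log (1 / δ) =
          ((starRingEnd ℂ) c *
            (LSeries (pa y) (1 + δ + t * I) - (d : ℂ) * (Real.log δ : ℂ))).re := by
        have e2 : (starRingEnd ℂ) c *
            (LSeries (pa y) (1 + δ + t * I) - (d : ℂ) * (Real.log δ : ℂ)) =
            (starRingEnd ℂ) c * LSeries (pa y) (1 + δ + t * I) +
              (starRingEnd ℂ) c * (((-(d * Real.log δ) : ℝ)) : ℂ) := by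
          push_cast
          ring
        rw [e2, Complex.add_re, Complex.re_mul_ofReal, Complex.conj_re, one_div, Real.log_inv]
        ring
      rw [e1]
      refine (Complex.abs_re_le_norm _).trans ?_
      rw [norm_mul, RCLike.norm_conj]
      exact mul_le_mul_of_nonneg_left h5 (norm_nonneg _)
  refine hMw.congr fun p hp => ?_
  rw [hw]
  show ((starRingEnd ℂ) c * osc t p * pa y p).re = _
  unfold pa
  rw [if_pos hp]

section

variable {q : ℕ} [NeZero q] {J : Type*} [Fintype J] {t : J → ℝ} {X : J → DirichletCharacter ℂ q}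

omit [NeZero q] in
lemma tw_norm_le (χ : DirichletCharacter ℂ q) (a : ℕ → ℂ) (n : ℕ) : ‖tw χ a n‖ ≤ ‖a n‖ := by
  unfold tw
  rw [norm_mul, RCLike.norm_conj]
  exact mul_le_of_le_one_left (norm_nonneg _) (DirichletCharacter.norm_le_one χ _)

omit [NeZero q] in
/-- the mean value of `Re (conj(w_p) a_p)` -/
theorem Mn_lin {a : ℕ → ℂ} (hblk : Blk (fun p => 1 + ‖a p‖ ^ 2)) {d : J → ℤ}
    (hd : ∀ j, HasOrd (tw (X j) a) (t j) (d j)) (c : J → ℂ) :
    Mn (fun p => ((starRingEnd ℂ) (trg t X c p) * a p).re) (∑ j, -((c j).re * d j)) := by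
  refine (Mn.sum Finset.univ fun j _ => Mn_cross (y := tw (X j) a)
    (hblk.mono fun p _ => ?_) (hd j) (c j)).congr fun p hp => ?_
  · have := pow_le_pow_left₀ (norm_nonneg _) (tw_norm_le (X j) a p) 2
    linarith
  · rw [conj_trg_mul c a hp.pos, Complex.re_sum]

/-- **the mean value of `|a_p|² - |a_p - w_p|²`** -/
theorem Mn_id {a : ℕ → ℂ} (hblk : Blk (fun p => 1 + ‖a p‖ ^ 2))
    (hinj : Function.Injective (fun j => (t j, X j))) {d : J → ℤ}
    (hd : ∀ j, HasOrd (tw (X j) a) (t j) (d j)) (c : J → ℂ) :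
    Mn (fun p => ‖a p‖ ^ 2 - ‖a p - trg t X c p‖ ^ 2)
      (∑ j, (-(2 * ((c j).re * d j)) - ‖c j‖ ^ 2)) := by
  have h2 := ((Mn_lin hblk hd c).mul 2).sub (Mn_trg hinj c)
  have e : 2 * ∑ j, -((c j).re * (d j : ℝ)) - ∑ j, ‖c j‖ ^ 2 =
      ∑ j, (-(2 * ((c j).re * d j)) - ‖c j‖ ^ 2) := by
    rw [Finset.sum_sub_distrib, Finset.mul_sum]
    congr 1
    exact Finset.sum_congr rfl fun j _ => by ring
  rw [e] at h2
  refine h2.congr fun p _ => ?_
  rw [← Complex.normSq_eq_norm_sq, ← Complex.normSq_eq_norm_sq, ← Complex.normSq_eq_norm_sq,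
    Complex.normSq_sub, mul_comm (a p)]
  ring

end

end Pool.Agent.Selb
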