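import Pool.Agent.Selb.TwoD

/-!
# Selb/TwoE: circles and discs for the prime coefficients
-/

set_option autoImplicit false

open Complex Metric Filter Topology LSeries

namespace Pool.Agent.Selb

/-- a bounded sequence off a negligible set satisfies the block condition -/
lemma blk_of_neg {a : ℕ → ℂ} {P : Set ℕ} (hP : Neg a P) {B : ℝ}
    (hB : ∀ p : ℕ, p.Prime → p ∉ P → ‖a p‖ ≤ B) : Blk (fun p => 1 + ‖a p‖ ^ 2) := by
  classical
  have hPs : Summable (fun p : ℕ => if p.Prime ∧ p ∈ P then (1 + ‖a p‖ ^ 2) / (p : ℝ) else 0) := by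
    unfold Neg at hP
    convert hP using 2
  have hP0 : ∀ p : ℕ, 0 ≤ (if p.Prime ∧ p ∈ P then (1 + ‖a p‖ ^ 2) / (p : ℝ) else 0) := by
    intro p
    split_ifs
    · positivity
    · exact le_rfl
  have h1 : Blk (fun p => if p ∈ P then 1 + ‖a p‖ ^ 2 else 0) := by
    refine ⟨∑' p : ℕ, (if p.Prime ∧ p ∈ P then (1 + ‖a p‖ ^ 2) / (p : ℝ) else 0), fun u _ => ?_⟩
    unfold bl
    refine (Finset.sum_le_sum fun p hp => ?_).trans (hPs.sum_le_tsum _ fun n _ => hP0 n)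
    have hp1 := (FZ.mem_prs.1 hp).1
    show (if p ∈ P then 1 + ‖a p‖ ^ 2 else 0) / (p : ℝ) ≤ _
    by_cases hpP : p ∈ P
    · rw [if_pos hpP, if_pos ⟨hp1, hpP⟩]
    · rw [if_neg hpP, if_neg (fun h => hpP h.2), zero_div]
  have h2 : Blk (fun _ => 1 + B ^ 2) := Blk.const _ (by positivity)
  refine (h1.add h2).mono fun p hp => ?_
  by_cases hpP : p ∈ P
  · rw [if_pos hpP]
    have : 0 ≤ 1 + B ^ 2 := by positivity
    linarith
  · rw [if_neg hpP, zero_add]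
    have := pow_le_pow_left₀ (norm_nonneg _) (hB p hp hpP) 2
    linarith

section

variable {q : ℕ} [NeZero q] {J : Type*} [Fintype J] {t : J → ℝ} {X : J → DirichletCharacter ℂ q}
  {a b : ℕ → ℂ} {d : J → ℤ}

/-- the constant of the recentring -/
lemma kap_eq (d : J → ℤ) (c : J → ℂ) :
    ∑ j, (-(2 * ((c j).re * (d j : ℝ))) - ‖c j‖ ^ 2) =
      ∑ j, (d j : ℝ) ^ 2 - ∑ j, ‖c j + (d j : ℂ)‖ ^ 2 := by
  rw [← Finset.sum_sub_distrib]
  refine Finset.sum_congr rfl fun j _ => ?_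
  have h1 : ‖c j + (d j : ℂ)‖ ^ 2 = ‖c j‖ ^ 2 + (d j : ℝ) ^ 2 + 2 * ((c j).re * d j) := by
    rw [← Complex.normSq_eq_norm_sq, ← Complex.normSq_eq_norm_sq, Complex.normSq_add]
    have h2 : Complex.normSq (d j : ℂ) = (d j : ℝ) ^ 2 := by
      rw [← Complex.ofReal_intCast, Complex.normSq_ofReal]; ring
    have h3 : (c j * (starRingEnd ℂ) (d j : ℂ)).re = (c j).re * d j := by
      rw [← Complex.ofReal_intCast, Complex.conj_ofReal, Complex.re_mul_ofReal]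
    rw [h2, h3]
  rw [h1]
  ring

theorem recentre_id (hinj : Function.Injective (fun j => (t j, X j)))
    (hd : ∀ j, HasOrd (tw (X j) a) (t j) (d j))
    (hblk : Blk (fun p => 1 + ‖a p‖ ^ 2)) (c : J → ℂ) :
    Mn (fun p => ‖a p‖ ^ 2 - ‖a p - trg t X c p‖ ^ 2)
      (∑ j, (d j : ℝ) ^ 2 - ∑ j, ‖c j + (d j : ℂ)‖ ^ 2) := by
  have h1 := Mn_id hblk hinj hd c
  rw [kap_eq] at h1
  exact h1

omit [NeZero q] in
lemma trg_bound (c : J → ℂ) (a : ℕ → ℂ) {p : ℕ} (hp : p.Prime) :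
    ‖a p‖ ^ 2 ≤ 2 * ‖a p - trg t X c p‖ ^ 2 + 2 * (∑ j, ‖c j‖) ^ 2 ∧
    ‖a p - trg t X c p‖ ^ 2 ≤ 2 * ‖a p‖ ^ 2 + 2 * (∑ j, ‖c j‖) ^ 2 := by
  have h1 := trg_norm_le t X c hp.pos
  have h2 : ‖a p‖ ≤ ‖a p - trg t X c p‖ + ‖trg t X c p‖ := by
    have := norm_add_le (a p - trg t X c p) (trg t X c p)
    simpa using this
  have h3 : ‖a p - trg t X c p‖ ≤ ‖a p‖ + ‖trg t X c p‖ := norm_sub_le _ _
  have h4 := norm_nonneg (a p)
  have h5 := norm_nonneg (a p - trg t X c p)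
  have h6 := norm_nonneg (trg t X c p)
  constructor
  · nlinarith [sq_nonneg (‖a p - trg t X c p‖ - ‖trg t X c p‖), sq_nonneg (‖a p - trg t X c p‖ -
      ∑ j, ‖c j‖)]
  · nlinarith [sq_nonneg (‖a p‖ - ‖trg t X c p‖), sq_nonneg (‖a p‖ - ∑ j, ‖c j‖)]

/-- **recentring**, for every element of the class -/
theorem recentre_iff (hinj : Function.Injective (fun j => (t j, X j)))
    (hd : ∀ j, HasOrd (tw (X j) a) (t j) (d j)) (c : J → ℂ) (K : ℝ) :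
    Mn (fun p => ‖a p‖ ^ 2) K ↔ Mn (fun p => ‖a p - trg t X c p‖ ^ 2)
      (K - ∑ j, (d j : ℝ) ^ 2 + ∑ j, ‖c j + (d j : ℂ)‖ ^ 2) := by
  constructor
  · intro hK
    have hblk : Blk (fun p => 1 + ‖a p‖ ^ 2) :=
      (Blk.const 1 zero_le_one).add (Blk.of_Mn (fun p => by positivity) hK)
    have h1 := hK.sub (recentre_id hinj hd hblk c)
    have e : K - (∑ j, (d j : ℝ) ^ 2 - ∑ j, ‖c j + (d j : ℂ)‖ ^ 2) =
        K - ∑ j, (d j : ℝ) ^ 2 + ∑ j, ‖c j + (d j : ℂ)‖ ^ 2 := by ring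
    rw [e] at h1
    exact h1.congr fun p _ => by ring
  · intro hK
    have hb1 : Blk (fun p => ‖a p - trg t X c p‖ ^ 2) := Blk.of_Mn (fun p => by positivity) hK
    have hblk : Blk (fun p => 1 + ‖a p‖ ^ 2) := by
      refine ((Blk.const 1 zero_le_one).add ((hb1.mul (c := 2) (by norm_num)).add
        (Blk.const (2 * (∑ j, ‖c j‖) ^ 2) (by positivity)))).mono fun p hp => ?_
      have := (trg_bound (t := t) (X := X) c a hp).1
      linarith
    have h1 := hK.add (recentre_id hinj hd hblk c)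
    have e : K - ∑ j, (d j : ℝ) ^ 2 + ∑ j, ‖c j + (d j : ℂ)‖ ^ 2 +
        (∑ j, (d j : ℝ) ^ 2 - ∑ j, ‖c j + (d j : ℂ)‖ ^ 2) = K := by ring
    rw [e] at h1
    exact h1.congr fun p _ => by ring

omit [NeZero q] in
lemma trg_neg (d : J → ℤ) (n : ℕ) :
    trg t X (fun j => -(d j : ℂ)) n = -trg t X (fun j => (d j : ℂ)) n := by
  unfold trg
  rw [← Finset.sum_neg_distrib]
  exact Finset.sum_congr rfl fun j _ => by ring

/-- the equality case of the lower bound -/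
theorem equality_iff (hinj : Function.Injective (fun j => (t j, X j)))
    (hd : ∀ j, HasOrd (tw (X j) a) (t j) (d j)) :
    Mn (fun p => ‖a p‖ ^ 2) (∑ j, (d j : ℝ) ^ 2) ↔
      Summable (fun p : ℕ => if p.Prime then ‖a p + trg t X (fun j => (d j : ℂ)) p‖ ^ 2 / (p : ℝ)
        else 0) := by
  rw [recentre_iff hinj hd (fun j => -(d j : ℂ))]
  have e : ∑ j, (d j : ℝ) ^ 2 - ∑ j, (d j : ℝ) ^ 2 +
      ∑ j, ‖-(d j : ℂ) + (d j : ℂ)‖ ^ 2 = 0 := by
    simp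
  rw [e]
  have e2 : (fun p => ‖a p - trg t X (fun j => -(d j : ℂ)) p‖ ^ 2) =
      (fun p => ‖a p + trg t X (fun j => (d j : ℂ)) p‖ ^ 2) := by
    funext p
    rw [trg_neg, sub_neg_eq_add]
  rw [e2]
  constructor
  · rintro ⟨C, hC⟩
    refine summable_of_ps (fun p _ => by positivity) (C := C) fun X hX => ?_
    have := hC X hX
    rw [zero_mul, sub_zero] at this
    exact (le_abs_self _).trans this
  · intro hs
    refine Mn.of_summable hs (fun p hp => ?_) (fun n => ?_)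
    · rw [if_pos hp, abs_of_nonneg (by positivity)]
    · split_ifs
      · positivity
      · exact le_rfl

/-- the mean of `|a - w|²` for circles with centre `w(p)` and radius `r(p)` -/
theorem circle (hinj : Function.Injective (fun j => (t j, X j)))
    (hd : ∀ j, HasOrd (tw (X j) a) (t j) (d j)) {P : Set ℕ}
    (hP : Neg a P) {c : J → ℂ} {r : ℕ → ℝ} {R B : ℝ} (hR : Mn (fun p => r p ^ 2) R)
    (hB : ∀ p, r p ^ 2 ≤ B)
    (hr : ∀ p : ℕ, p.Prime → p ∉ P → ‖a p - trg t X c p‖ = r p) :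
    Mn (fun p => ‖a p‖ ^ 2)
      (∑ j, (d j : ℝ) ^ 2 - ∑ j, ‖c j + (d j : ℂ)‖ ^ 2 + R) := by
  rw [recentre_iff hinj hd c]
  have e : ∑ j, (d j : ℝ) ^ 2 - ∑ j, ‖c j + (d j : ℂ)‖ ^ 2 + R -
      ∑ j, (d j : ℝ) ^ 2 + ∑ j, ‖c j + (d j : ℂ)‖ ^ 2 = R + 0 := by ring
  rw [e]
  have hB0 : 0 ≤ B := (by positivity : (0 : ℝ) ≤ r 0 ^ 2).trans (hB 0)
  have h1 : Mn (fun p => ‖a p - trg t X c p‖ ^ 2 - r p ^ 2) 0 := by
    refine Mn_of_neg hP (C := 2 + 2 * (∑ j, ‖c j‖) ^ 2 + B) (by positivity)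
      (fun p hp hpP => by rw [hr p hp hpP, sub_self]) (fun p hp => ?_)
    have h2 := (trg_bound (t := t) (X := X) c a hp).2
    have h3 : 0 ≤ ‖a p - trg t X c p‖ ^ 2 := by positivity
    have h4 : 0 ≤ ‖a p‖ ^ 2 := by positivity
    have h5 : 0 ≤ (∑ j, ‖c j‖) ^ 2 := by positivity
    have h6 : 0 ≤ r p ^ 2 := by positivity
    have h7 := hB p
    rw [abs_le]
    constructor
    · nlinarith [mul_nonneg h4 h5, mul_nonneg h4 hB0]
    · nlinarith [mul_nonneg h4 h5, mul_nonneg h4 hB0]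
  exact (hR.add h1).congr fun p _ => by ring

/-- discs -/
theorem disc (h : Arith a b) (hinj : Function.Injective (fun j => (t j, X j)))
    (hd : ∀ j, HasOrd (tw (X j) a) (t j) (d j)) {P : Set ℕ}
    (hP : Neg a P) {c : J → ℂ} {r : ℕ → ℝ} {R B : ℝ} (hR : Mn (fun p => r p ^ 2) R)
    (hrB : ∀ p, r p ≤ B)
    (hr : ∀ p : ℕ, p.Prime → p ∉ P → ‖a p - trg t X c p‖ ≤ r p) :
    ∑ j, ‖c j + (d j : ℂ)‖ ^ 2 ≤ R ∧
    (∑ j, ‖c j + (d j : ℂ)‖ ^ 2 = R →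
      Mn (fun p => ‖a p‖ ^ 2) (∑ j, (d j : ℝ) ^ 2)) := by
  classical
  have hB : ∀ p : ℕ, p.Prime → p ∉ P → ‖a p‖ ≤ B + ∑ j, ‖c j‖ := by
    intro p hp hpP
    have h1 := norm_add_le (a p - trg t X c p) (trg t X c p)
    rw [sub_add_cancel] at h1
    exact h1.trans (add_le_add ((hr p hp hpP).trans (hrB p)) (trg_norm_le t X c hp.pos))
  have hblk := blk_of_neg hP hB
  obtain ⟨C1, h1⟩ := recentre_id hinj hd hblk c
  obtain ⟨C2, h2⟩ := hR
  obtain ⟨W, hW⟩ : ∃ W : ℝ, W = (∑ j, ‖c j‖) ^ 2 := ⟨_, rfl⟩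
  have hW0 : 0 ≤ W := by rw [hW]; positivity
  have h3' : Mn (fun p => if p ∈ P then 2 * ‖a p‖ ^ 2 + 2 * W else 0) 0 := by
    refine Mn_of_neg hP (C := 2 + 2 * W) (by positivity)
      (fun p _ hpP => if_neg hpP) (fun p _ => ?_)
    have h4 : 0 ≤ ‖a p‖ ^ 2 := by positivity
    split_ifs
    · rw [abs_of_nonneg (by positivity)]
      nlinarith [mul_nonneg h4 hW0]
    · rw [abs_zero]; positivity
  obtain ⟨C3, h3⟩ := h3'
  have hup : ∀ Y : ℝ, 3 ≤ Y → ps (fun p => ‖a p‖ ^ 2) Y ≤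
      (∑ j, (d j : ℝ) ^ 2 - ∑ j, ‖c j + (d j : ℂ)‖ ^ 2 + R) *
        Real.log (Real.log Y) + (C1 + C2 + C3) := by
    intro Y hY
    have h4 := (abs_le.1 (h1 Y hY)).2
    have h5 := (abs_le.1 (h2 Y hY)).2
    have h6 := (abs_le.1 (h3 Y hY)).2
    have h7 : ps (fun p => ‖a p‖ ^ 2) Y ≤
        ps (fun p => (‖a p‖ ^ 2 - ‖a p - trg t X c p‖ ^ 2) + (r p ^ 2 +
          (if p ∈ P then 2 * ‖a p‖ ^ 2 + 2 * W else 0))) Y := by
      refine ps_mono (fun p hp => ?_) Y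
      have h8 : ‖a p - trg t X c p‖ ^ 2 ≤
          r p ^ 2 + (if p ∈ P then 2 * ‖a p‖ ^ 2 + 2 * W else 0) := by
        by_cases hpP : p ∈ P
        · rw [if_pos hpP]
          have := (trg_bound (t := t) (X := X) c a hp).2
          rw [← hW] at this
          have : 0 ≤ r p ^ 2 := by positivity
          linarith
        · rw [if_neg hpP, add_zero]
          exact pow_le_pow_left₀ (norm_nonneg _) (hr p hp hpP) 2
      linarith
    rw [ps_add, ps_add] at h7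
    linarith
  have hlow := lower_all h hinj hd hup
  have hle : ∑ j, ‖c j + (d j : ℂ)‖ ^ 2 ≤ R := by linarith
  refine ⟨hle, fun heq => ?_⟩
  -- equality
  obtain ⟨C5, h5⟩ := recentre_id hinj hd hblk (fun j => -(d j : ℂ))
  have e3 : ∑ j, (d j : ℝ) ^ 2 - ∑ j, ‖-(d j : ℂ) + (d j : ℂ)‖ ^ 2 =
      ∑ j, (d j : ℝ) ^ 2 := by simp
  rw [e3] at h5
  rw [equality_iff hinj hd]
  refine summable_of_ps (x := fun p => ‖a p + trg t X (fun j => (d j : ℂ)) p‖ ^ 2)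
    (fun p _ => by positivity) (C := C1 + C2 + C3 + C5) fun Y hY => ?_
  have h6 := hup Y hY
  have h7 := (abs_le.1 (h5 Y hY)).1
  have h8 : ps (fun p => ‖a p + trg t X (fun j => (d j : ℂ)) p‖ ^ 2) Y =
      ps (fun p => ‖a p‖ ^ 2) Y -
        ps (fun p => ‖a p‖ ^ 2 - ‖a p - trg t X (fun j => -(d j : ℂ)) p‖ ^ 2) Y := by
    have h9 := ps_add (fun p => ‖a p + trg t X (fun j => (d j : ℂ)) p‖ ^ 2)
      (fun p => ‖a p‖ ^ 2 - ‖a p - trg t X (fun j => -(d j : ℂ)) p‖ ^ 2) Y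
    have h10 : ps (fun p => ‖a p + trg t X (fun j => (d j : ℂ)) p‖ ^ 2 +
        (‖a p‖ ^ 2 - ‖a p - trg t X (fun j => -(d j : ℂ)) p‖ ^ 2)) Y =
        ps (fun p => ‖a p‖ ^ 2) Y := by
      refine ps_congr (fun p _ => ?_) Y
      rw [trg_neg, sub_neg_eq_add]
      ring
    rw [h10] at h9
    linarith
  rw [h8]
  rw [heq] at h6
  have h11 : (∑ j, (d j : ℝ) ^ 2 - R + R) * Real.log (Real.log Y) =
      (∑ j, (d j : ℝ) ^ 2) * Real.log (Real.log Y) := by ring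
  rw [h11] at h6
  linarith

end

end Pool.Agent.Selb
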